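import Pool.Agent.H918R3.Defs

set_option autoImplicit false

/-!
Classes modulo squares in terms of three base elements (for the tasks C1 and PBp2).
-/

namespace Pool.Agent.H918R3

open Polynomial

/-- exponents -/
abbrev Ex : Type := Bool × Bool × Bool

/-- sum of exponents -/
def exA (e f : Ex) : Ex := (xor e.1 f.1, xor e.2.1 f.2.1, xor e.2.2 f.2.2)

section

variable {K : Type*} [Field K]

/-- monomials in the base elements -/
def mon (b : K × K × K) (e : Ex) : K :=
  (cond e.1 b.1 1) * (cond e.2.1 b.2.1 1) * (cond e.2.2 b.2.2 1)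

/-- nonzero base elements -/
def BNZ (b : K × K × K) : Prop := b.1 ≠ 0 ∧ b.2.1 ≠ 0 ∧ b.2.2 ≠ 0

theorem cond_mul_cond (x y : Bool) (b : K) :
    cond x b 1 * cond y b 1 = cond (xor x y) b 1 * (cond (x && y) b 1) ^ 2 := by
  cases x <;> cases y <;> simp [sq]

theorem mon_mul (b : K × K × K) (e f : Ex) :
    mon b e * mon b f = mon b (exA e f) * (mon b (e.1 && f.1, e.2.1 && f.2.1, e.2.2 && f.2.2)) ^ 2 := by
  have h1 := cond_mul_cond e.1 f.1 b.1
  have h2 := cond_mul_cond e.2.1 f.2.1 b.2.1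
  have h3 := cond_mul_cond e.2.2 f.2.2 b.2.2
  unfold mon exA
  simp only
  calc _ = (cond e.1 b.1 1 * cond f.1 b.1 1) * (cond e.2.1 b.2.1 1 * cond f.2.1 b.2.1 1) *
        (cond e.2.2 b.2.2 1 * cond f.2.2 b.2.2 1) := by ring
    _ = _ := by rw [h1, h2, h3]; ring

theorem cond_ne {x : Bool} {b : K} (hb : b ≠ 0) : (cond x b 1 : K) ≠ 0 := by
  cases x
  · exact one_ne_zero
  · exact hb

theorem mon_ne {b : K × K × K} (hb : BNZ b) (e : Ex) : mon b e ≠ 0 :=
  mul_ne_zero (mul_ne_zero (cond_ne hb.1) (cond_ne hb.2.1)) (cond_ne hb.2.2)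

theorem sq_cancel {z w : K} (hw : w ≠ 0) (h : IsSquare (z * w ^ 2)) : IsSquare z := by
  obtain ⟨r, hr⟩ := h
  refine ⟨r / w, ?_⟩
  field_simp
  linear_combination hr

/-- the class of `z` is the monomial `e` -/
def Cls (b : K × K × K) (z : K) (e : Ex) : Prop := z ≠ 0 ∧ IsSquare (z * mon b e)

theorem Cls.mul {b : K × K × K} (hb : BNZ b) {z z' : K} {e e' : Ex} (h : Cls b z e)
    (h' : Cls b z' e') : Cls b (z * z') (exA e e') := by
  refine ⟨mul_ne_zero h.1 h'.1, ?_⟩
  have h1 := h.2.mul h'.2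
  have h2 : z * mon b e * (z' * mon b e') = z * z' * mon b (exA e e') *
      (mon b (e.1 && e'.1, e.2.1 && e'.2.1, e.2.2 && e'.2.2)) ^ 2 := by
    calc _ = z * z' * (mon b e * mon b e') := by ring
      _ = _ := by rw [mon_mul]; ring
  rw [h2] at h1
  exact sq_cancel (mon_ne hb _) h1

theorem Cls.congr {b : K × K × K} {z z' : K} {e : Ex} (h : Cls b z e) (hz' : z' ≠ 0)
    (hzz : IsSquare (z * z')) : Cls b z' e := by
  refine ⟨hz', ?_⟩
  have h1 := h.2.mul hzz
  have h2 : z * mon b e * (z * z') = z' * mon b e * z ^ 2 := by ring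
  rw [h2] at h1
  exact sq_cancel h.1 h1

theorem Cls.one (b : K × K × K) : Cls b 1 (false, false, false) :=
  ⟨one_ne_zero, ⟨1, by simp [mon]⟩⟩

theorem Cls.sq_iff {b : K × K × K} {z : K} (hz : z ≠ 0) :
    Cls b z (false, false, false) ↔ IsSquare z := by
  unfold Cls mon
  simp [hz]

theorem Cls.self {b : K × K × K} (hb : BNZ b) (e : Ex) : Cls b (mon b e) e :=
  ⟨mon_ne hb e, ⟨mon b e, rfl⟩⟩

theorem exA_self (e : Ex) : exA e e = (false, false, false) := by
  obtain ⟨a, b, c⟩ := e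
  simp [exA]

/-- scalar multiple of an exponent -/
def exS (x : Bool) (e : Ex) : Ex := (x && e.1, x && e.2.1, x && e.2.2)

/-- image of an exponent under a linear map given by the images of the base elements -/
def exM (m0 m1 m2 e : Ex) : Ex := exA (exA (exS e.1 m0) (exS e.2.1 m1)) (exS e.2.2 m2)

theorem Cls.cond {b : K × K × K} {z : K} {e : Ex} (x : Bool) (h : Cls b z e) :
    Cls b (cond x z 1) (exS x e) := by
  cases x
  · simpa [exS] using Cls.one b
  · simpa [exS] using h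

/-- transport along a homomorphism -/
theorem Cls.map {K' : Type*} [Field K'] (φ : K →+* K') {b : K × K × K} {b' : K' × K' × K'}
    (hb' : BNZ b') {m0 m1 m2 : Ex} (h0 : Cls b' (φ b.1) m0) (h1 : Cls b' (φ b.2.1) m1)
    (h2 : Cls b' (φ b.2.2) m2) {z : K} {e : Ex} (h : Cls b z e) :
    Cls b' (φ z) (exM m0 m1 m2 e) := by
  have hm : Cls b' (φ (mon b e)) (exM m0 m1 m2 e) := by
    have e1 : φ (mon b e) = (_root_.cond e.1 (φ b.1) 1) * (_root_.cond e.2.1 (φ b.2.1) 1) *
        (_root_.cond e.2.2 (φ b.2.2) 1) := by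
      unfold mon
      rw [map_mul, map_mul]
      congr 1
      · congr 1
        · cases e.1 <;> simp
        · cases e.2.1 <;> simp
      · cases e.2.2 <;> simp
    rw [e1]
    exact ((h0.cond e.1).mul hb' (h1.cond e.2.1)).mul hb' (h2.cond e.2.2)
  refine hm.congr ((map_ne_zero φ).mpr h.1) ?_
  rw [mul_comm, ← map_mul]
  obtain ⟨r, hr⟩ := h.2
  exact ⟨φ r, by rw [hr, map_mul]⟩

/-- classes of a point -/
def PCl (b : K × K × K) {D l : K} (P : WD D l) (u v : Ex) : Prop :=
  Cls b (d0 P) u ∧ Cls b (d1 P) v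

end

end Pool.Agent.H918R3
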