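import Mathlib

set_option autoImplicit false

/-!
# Rationality under reduction modulo p (MP_0a3790_ag): definitions

Part A: quadratic forms over fields with valuations.  Part B: the twists
`y² = x (x - D) (x - λ D)` of the Legendre curve over rational function fields.
-/

namespace Pool.Agent.H918R3

open Matrix Polynomial

section Forms

variable {K : Type*} [Field K]

/-- Gram matrix of the two-fold Pfister form `<<a, c>> = <1, -a, -c, ac>` -/
def G4 (a c : K) : Matrix (Fin 4) (Fin 4) K := Matrix.diagonal ![1, -a, -c, a * c]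

/-- Gram matrix of the three-fold Pfister form `<<a, c, h>> = <<a, c>> ⊥ -h <<a, c>>` -/
def G8 (a c h : K) : Matrix (Fin 8) (Fin 8) K :=
  Matrix.diagonal ![1, -a, -c, a * c, -h, h * a, h * c, -(h * a * c)]

/-- the norm form of the quaternion algebra `(a, c)` -/
def q4 (a c : K) (u : Fin 4 → K) : K := u 0 ^ 2 - a * u 1 ^ 2 - c * u 2 ^ 2 + a * c * u 3 ^ 2

/-- the polar form (divided by two) of `q4` -/
def b4 (a c : K) (u v : Fin 4 → K) : K :=
  u 0 * v 0 - a * (u 1 * v 1) - c * (u 2 * v 2) + a * c * (u 3 * v 3)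

/-- the form `G` is unramified at the valuation ring `O`: there is a self-dual `O`-lattice -/
def Unr (O : ValuationSubring K) {n : ℕ} (G : Matrix (Fin n) (Fin n) K) : Prop :=
  ∃ P : Matrix (Fin n) (Fin n) K, P.det ≠ 0 ∧ (∀ i j, (Pᵀ * G * P) i j ∈ O) ∧
    ((Pᵀ * G * P).det)⁻¹ ∈ O

/-- `G` is isotropic -/
def Isot {n : ℕ} (G : Matrix (Fin n) (Fin n) K) : Prop :=
  ∃ v : Fin n → K, v ≠ 0 ∧ v ⬝ᵥ (G *ᵥ v) = 0

/-- `G` and `H` are isometric -/
def IsoM {n : ℕ} (G H : Matrix (Fin n) (Fin n) K) : Prop :=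
  ∃ P : Matrix (Fin n) (Fin n) K, P.det ≠ 0 ∧ Pᵀ * G * P = H

/-- `G` and `H` are isometric over `K(√δ)`; the isometry is `P + √δ Q` -/
def IsoL (δ : K) {n : ℕ} (G H : Matrix (Fin n) (Fin n) K) : Prop :=
  ∃ P Q : Matrix (Fin n) (Fin n) K, Pᵀ * G * P + δ • (Qᵀ * G * Q) = H ∧
    Pᵀ * G * Q + Qᵀ * G * P = 0

/-- the quaternion norm form `<<a, c>>` is isotropic over `K(√δ)` -/
def IsotL (δ a c : K) : Prop :=
  ∃ u v : Fin 4 → K, (u ≠ 0 ∨ v ≠ 0) ∧ q4 a c u + δ * q4 a c v = 0 ∧ b4 a c u v = 0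

/-- the quaternion algebra `(a, c)` contains a pure quaternion with square `δ` -/
def Pur (δ a c : K) : Prop := ∃ p q r : K, a * p ^ 2 + c * q ^ 2 - a * c * r ^ 2 = δ

/-- discrete valuation rings of `K` containing `k` -/
def DvrOver (k : Type*) [Field k] [Algebra k K] (O : ValuationSubring K) : Prop :=
  IsDiscreteValuationRing O ∧ ∀ a : k, algebraMap k K a ∈ O

/-- the point `(α², cαβγ)` of `y² = x (x - D) (x - lD)` has classes `1` and `c` -/
def Cov (D l c : K) : Prop := ∃ α β γ : K, α ^ 2 - c * β ^ 2 = D ∧ α ^ 2 - c * γ ^ 2 = l * D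

end Forms

section Curves

variable {K : Type*} [Field K]

/-- the curve `y² = (x - e1) (x - e2) (x - e3)` -/
def crv (e1 e2 e3 : K) : WeierstrassCurve K :=
  { a₁ := 0, a₂ := -(e1 + e2 + e3), a₃ := 0, a₄ := e1 * e2 + e1 * e3 + e2 * e3,
    a₆ := -(e1 * e2 * e3) }

/-- its points -/
abbrev Pt (e1 e2 e3 : K) : Type _ := (crv e1 e2 e3).toAffine.Point

/-- the points of the curve `y² = x (x - D) (x - lD)` -/
abbrev WD (D l : K) : Type _ := Pt (0 : K) D (l * D)

open Classical in
/-- a representative of the class of `x - e` modulo squares (`e` is one of the roots, `f` and `g`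
are the two others) -/
noncomputable def dl {e1 e2 e3 : K} (e f g : K) : Pt e1 e2 e3 → K
  | .zero => 1
  | .some x _ _ => if x = e then (e - f) * (e - g) else x - e

/-- the class of `x` -/
noncomputable def d0 {D l : K} (P : WD D l) : K := dl 0 D (l * D) P

/-- the class of `x - D` -/
noncomputable def d1 {D l : K} (P : WD D l) : K := dl D 0 (l * D) P

/-- `P` is an affine point with `x`-coordinate `ξ D` -/
def HasX {D l : K} (P : WD D l) (ξ : K) : Prop := ∃ y h, P = .some (ξ * D) y h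

/-- `f` is the map `(x, y) ↦ (u² φ(x), u³ φ(y))` -/
def IsTr {K' : Type*} [Field K'] [DecidableEq K] [DecidableEq K'] (φ : K →+* K') (u : K')
    {D l : K} {D' l' : K'} (f : WD D l →+ WD D' l') : Prop :=
  ∀ x y h, ∃ h', f (.some x y h) = .some (u ^ 2 * φ x) (u ^ 3 * φ y) h'

/-- the points of `y² = x (x - D) (x - lD)` are the `n P₀ + T`, where `P₀` has `x`-coordinate `ξ D`
and `T` is a two-torsion point -/
def GenBy [DecidableEq K] (D l ξ : K) : Prop :=
  ∃ P0 : WD D l, HasX P0 ξ ∧ ∀ R : WD D l, ∃ (n : ℤ) (T : WD D l), T + T = 0 ∧ R = n • P0 + T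

/-- `z` is a square times a one-unit -/
def SqU (O : ValuationSubring K) (z : K) : Prop := ∃ w : K, w ≠ 0 ∧ O.valuation (z * w ^ 2 - 1) < 1

end Curves

section Rat

variable {k : Type*} [Field k]

/-- the height of a rational function -/
noncomputable def rht (r : RatFunc k) : ℕ := max r.num.natDegree r.denom.natDegree

/-- the height of a point: the height of `x / D` -/
noncomputable def ht {D l : RatFunc k} : WD D l → ℕ
  | .zero => 0
  | .some x _ _ => rht (x / D)

/-- the product of the `X - a`, `a ∈ S` -/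
noncomputable def PS (S : Finset k) : RatFunc k := ∏ a ∈ S, (RatFunc.X - RatFunc.C a)

/-- `O'` is the Gauss extension of the valuation ring `O` to the rational function field -/
def IsGauss (O : ValuationSubring k) (O' : ValuationSubring (RatFunc k)) : Prop :=
  ∀ f : RatFunc k, f ∈ O' ↔ ∃ a b : Polynomial O, b.map (IsLocalRing.residue O) ≠ 0 ∧
    f * algebraMap k[X] (RatFunc k) (b.map (algebraMap O k)) =
      algebraMap k[X] (RatFunc k) (a.map (algebraMap O k))

/-- the number of elements `a` of `S` with `(a - α) / β` in the residue class of `r` -/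
noncomputable def nR (O : ValuationSubring k) (S : Finset k) (α β r : k) : ℕ :=
  Set.ncard {a : k | a ∈ S ∧ O.valuation ((a - α) / β - r) < 1}

/-- the rational function `ν = ((1 - τ²) / (1 + τ²))²` -/
noncomputable def nuF (k : Type*) [Field k] : RatFunc k :=
  ((1 - RatFunc.X ^ 2) / (1 + RatFunc.X ^ 2)) ^ 2

/-- the Möbius transformation `ν ↦ t` -/
noncomputable def moeb (l : k) (nu : RatFunc k) : RatFunc k :=
  (RatFunc.C ((1 - l) * (1 - l ^ 2)) - RatFunc.C (l * (l ^ 2 - l + 1)) * nu) /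
    (RatFunc.C (1 - l ^ 2) - RatFunc.C (l ^ 2 - l + 1) * nu)

/-- the rational function `t(τ)` -/
noncomputable def tF (l : k) : RatFunc k := moeb l (nuF k)

/-- `f(t) = t (t - 1) (t - l)` for `t = t(τ)` -/
noncomputable def DF (l : k) : RatFunc k := tF l * (tF l - 1) * (tF l - RatFunc.C l)

/-- `c = t (t - l)` for `t = t(τ)` -/
noncomputable def cF (l : k) : RatFunc k := tF l * (tF l - RatFunc.C l)

/-- the parameter `l` is general -/
def GenL (l : k) : Prop := (2 : k) ≠ 0 ∧ l ≠ 0 ∧ l ≠ 1 ∧ l ≠ -1 ∧ 1 - 2 * l ≠ 0 ∧ l ^ 2 - l + 1 ≠ 0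

/-- the polynomial `h₁ h₂ + x u₂² + c u₃² - x c u₄²` in the variables `u₄, u₃, u₂, s, x, τ`
(numbered `0, …, 5`), where `h₁ = s² - Δ` and `h₂ = (s - 1)² - Δ` -/
noncomputable def dPol {R : Type*} [CommRing R] (Δ c : MvPolynomial (Fin 6) R) :
    MvPolynomial (Fin 6) R :=
  (MvPolynomial.X 3 ^ 2 - Δ) * ((MvPolynomial.X 3 - 1) ^ 2 - Δ) +
    MvPolynomial.X 4 * MvPolynomial.X 2 ^ 2 + c * MvPolynomial.X 1 ^ 2 -
    MvPolynomial.X 4 * c * MvPolynomial.X 0 ^ 2

/-- the polynomial `u₁² - d` in the variables `u₁, u₄, u₃, u₂, s, x, τ` (numbered `0, …, 6`) -/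
noncomputable def hPol {R : Type*} [CommRing R] (d : MvPolynomial (Fin 6) R) :
    MvPolynomial (Fin 7) R :=
  MvPolynomial.X 0 ^ 2 - MvPolynomial.rename Fin.succ d

/-- the coordinate ring of the hypersurface `u₁² = d` -/
abbrev HR {k : Type} [Field k] (d : MvPolynomial (Fin 6) k) : Type :=
  MvPolynomial (Fin 7) k ⧸ Ideal.span {hPol d}

end Rat

end Pool.Agent.H918R3
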