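import Pool.Agent.H918R3.Defs

set_option autoImplicit false

/-! The explicit hypersurface. -/

namespace Pool.Agent.H918R3

open Polynomial

/-- `40 A - 79 B`, `A = (1 + τ²)²`, `B = (1 - τ²)²` -/
noncomputable def qi (k : Type*) [CommRing k] : k[X] :=
  40 * (1 + X ^ 2) ^ 2 - 79 * (1 - X ^ 2) ^ 2

/-- `400 A + 237 B` -/
noncomputable def q0 (k : Type*) [CommRing k] : k[X] :=
  400 * (1 + X ^ 2) ^ 2 + 237 * (1 - X ^ 2) ^ 2

/-- `120 A + 790 B` -/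
noncomputable def q1 (k : Type*) [CommRing k] : k[X] :=
  120 * (1 + X ^ 2) ^ 2 + 790 * (1 - X ^ 2) ^ 2

section

variable {k : Type*} [Field k]

theorem genL_of (h2 : (2 : k) ≠ 0) (h3 : (3 : k) ≠ 0) (h5 : (5 : k) ≠ 0) (h7 : (7 : k) ≠ 0)
    (h13 : (13 : k) ≠ 0) (h79 : (79 : k) ≠ 0) : GenL (-3 / 7 : k) := by
  refine ⟨h2, ?_, ?_, ?_, ?_, ?_⟩
  · exact div_ne_zero (neg_ne_zero.mpr h3) h7
  · intro h
    rw [div_eq_iff h7] at h
    have : (2 : k) * 5 = 0 := by linear_combination -h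
    exact (mul_ne_zero h2 h5) this
  · intro h
    rw [div_eq_iff h7] at h
    have : (2 : k) * 2 = 0 := by linear_combination h
    exact (mul_ne_zero h2 h2) this
  · have : (1 - 2 * (-3 / 7) : k) = 13 / 7 := by field_simp; norm_num
    rw [this]
    exact div_ne_zero h13 h7
  · have : ((-3 / 7) ^ 2 - (-3 / 7) + 1 : k) = 79 / 7 ^ 2 := by field_simp; norm_num
    rw [this]
    exact div_ne_zero h79 (pow_ne_zero _ h7)

theorem rC_ofNat (n : ℕ) [n.AtLeastTwo] :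
    (RatFunc.C (ofNat(n) : k) : RatFunc k) = ofNat(n) := map_ofNat (RatFunc.C (K := k)) n

theorem rA_ofNat (n : ℕ) [n.AtLeastTwo] :
    (algebraMap k[X] (RatFunc k) (ofNat(n))) = ofNat(n) :=
  map_ofNat (algebraMap k[X] (RatFunc k)) n

theorem one_add_X_sq_ne : (1 + RatFunc.X ^ 2 : RatFunc k) ≠ 0 := by
  have h : (1 + X ^ 2 : k[X]) ≠ 0 := by
    intro h
    have := congrArg (fun p => p.coeff 2) h
    simp [coeff_one] at this
  have h2 : algebraMap k[X] (RatFunc k) (1 + X ^ 2) ≠ 0 := by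
    rw [Ne, FaithfulSMul.algebraMap_eq_zero_iff]
    exact h
  simpa [RatFunc.algebraMap_X] using h2

theorem qi_ne (h13 : (13 : k) ≠ 0) (h3 : (3 : k) ≠ 0) :
    algebraMap k[X] (RatFunc k) (qi k) ≠ 0 := by
  rw [Ne, FaithfulSMul.algebraMap_eq_zero_iff]
  intro h
  have := congrArg (fun p => p.eval 0) h
  simp [qi] at this
  have h' : (3 : k) * 13 = 0 := by linear_combination -this
  exact mul_ne_zero h3 h13 h'

theorem tF_eq (h3 : (3 : k) ≠ 0) (h7 : (7 : k) ≠ 0) (h13 : (13 : k) ≠ 0) :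
    tF (-3 / 7 : k) = algebraMap k[X] (RatFunc k) (q0 k) /
      (7 * algebraMap k[X] (RatFunc k) (qi k)) := by
  have hX := one_add_X_sq_ne (k := k)
  have hq := qi_ne h13 h3
  have h7' : (7 : RatFunc k) ≠ 0 := by
    rw [← rC_ofNat (k := k) 7]
    exact (_root_.map_ne_zero (RatFunc.C (K := k))).mpr h7
  have hqi : algebraMap k[X] (RatFunc k) (qi k) =
      40 * (1 + RatFunc.X ^ 2) ^ 2 - 79 * (1 - RatFunc.X ^ 2) ^ 2 := by
    simp [qi, RatFunc.algebraMap_X, rA_ofNat]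
  have hq0 : algebraMap k[X] (RatFunc k) (q0 k) =
      400 * (1 + RatFunc.X ^ 2) ^ 2 + 237 * (1 - RatFunc.X ^ 2) ^ 2 := by
    simp [q0, RatFunc.algebraMap_X, rA_ofNat]
  rw [hqi] at hq
  rw [hqi, hq0]
  have e1 : (RatFunc.C ((1 - (-3 / 7 : k)) * (1 - (-3 / 7) ^ 2)) : RatFunc k) = 400 / 343 := by
    have : ((1 - (-3 / 7 : k)) * (1 - (-3 / 7) ^ 2)) = 400 / 343 := by
      have h343 : (343 : k) ≠ 0 := by
        have : (343 : k) = 7 ^ 3 := by norm_num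
        rw [this]; exact pow_ne_zero _ h7
      field_simp
      norm_num
    rw [this]; simp [rC_ofNat]
  have e2 : (RatFunc.C ((-3 / 7 : k) * ((-3 / 7) ^ 2 - (-3 / 7) + 1)) : RatFunc k)
      = -(237 / 343) := by
    have : ((-3 / 7 : k) * ((-3 / 7) ^ 2 - (-3 / 7) + 1)) = -(237 / 343) := by
      have h343 : (343 : k) ≠ 0 := by
        have : (343 : k) = 7 ^ 3 := by norm_num
        rw [this]; exact pow_ne_zero _ h7
      field_simp
      norm_num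
    rw [this]; simp [rC_ofNat]
  have e3 : (RatFunc.C (1 - (-3 / 7 : k) ^ 2) : RatFunc k) = 40 / 49 := by
    have : (1 - (-3 / 7 : k) ^ 2) = 40 / 49 := by
      have h49 : (49 : k) ≠ 0 := by
        have : (49 : k) = 7 ^ 2 := by norm_num
        rw [this]; exact pow_ne_zero _ h7
      field_simp
      norm_num
    rw [this]; simp [rC_ofNat]
  have e4 : (RatFunc.C ((-3 / 7 : k) ^ 2 - (-3 / 7) + 1) : RatFunc k) = 79 / 49 := by
    have : ((-3 / 7 : k) ^ 2 - (-3 / 7) + 1) = 79 / 49 := by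
      have h49 : (49 : k) ≠ 0 := by
        have : (49 : k) = 7 ^ 2 := by norm_num
        rw [this]; exact pow_ne_zero _ h7
      field_simp
      norm_num
    rw [this]; simp [rC_ofNat]
  have h343' : (343 : RatFunc k) = 7 ^ 3 := by norm_num
  have h49' : (49 : RatFunc k) = 7 ^ 2 := by norm_num
  rw [tF, moeb, nuF, e1, e2, e3, e4, h343', h49', div_pow]
  have hden : (40 / 7 ^ 2 - 79 / 7 ^ 2 * ((1 - RatFunc.X ^ 2) ^ 2 / (1 + RatFunc.X ^ 2) ^ 2) :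
      RatFunc k) = (40 * (1 + RatFunc.X ^ 2) ^ 2 - 79 * (1 - RatFunc.X ^ 2) ^ 2) /
        (7 ^ 2 * (1 + RatFunc.X ^ 2) ^ 2) := by
    field_simp
  rw [hden]
  field_simp
  ring

theorem qi_alg : algebraMap k[X] (RatFunc k) (qi k) =
      40 * (1 + RatFunc.X ^ 2) ^ 2 - 79 * (1 - RatFunc.X ^ 2) ^ 2 := by
  simp [qi, RatFunc.algebraMap_X, rA_ofNat]

theorem q0_alg : algebraMap k[X] (RatFunc k) (q0 k) =
      400 * (1 + RatFunc.X ^ 2) ^ 2 + 237 * (1 - RatFunc.X ^ 2) ^ 2 := by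
  simp [q0, RatFunc.algebraMap_X, rA_ofNat]

theorem q1_alg : algebraMap k[X] (RatFunc k) (q1 k) =
      120 * (1 + RatFunc.X ^ 2) ^ 2 + 790 * (1 - RatFunc.X ^ 2) ^ 2 := by
  simp [q1, RatFunc.algebraMap_X, rA_ofNat]

theorem seven_ne (h7 : (7 : k) ≠ 0) : (7 : RatFunc k) ≠ 0 := by
  rw [← rC_ofNat (k := k) 7]
  exact (_root_.map_ne_zero (RatFunc.C (K := k))).mpr h7

theorem rel_aux (h2 : (2 : k) ≠ 0) (h3 : (3 : k) ≠ 0) (h5 : (5 : k) ≠ 0) (h7 : (7 : k) ≠ 0)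
    (h13 : (13 : k) ≠ 0) :
    tF (-3 / 7 : k) - 1 = algebraMap k[X] (RatFunc k) (q1 k) /
      (7 * algebraMap k[X] (RatFunc k) (qi k)) ∧
    tF (-3 / 7 : k) - RatFunc.C (-3 / 7) = 520 * (1 + RatFunc.X ^ 2) ^ 2 /
      (7 * algebraMap k[X] (RatFunc k) (qi k)) := by
  have hq := qi_ne h13 h3
  have h7' := seven_ne h7
  have hC : (RatFunc.C (-3 / 7 : k) : RatFunc k) = -3 / 7 := by simp [rC_ofNat]
  rw [tF_eq h3 h7 h13, hC]
  rw [qi_alg] at hq ⊢
  rw [q0_alg, q1_alg]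
  have hd := mul_ne_zero h7' hq
  constructor
  · rw [eq_div_iff hd, sub_mul, div_mul_cancel₀ _ hd]
    ring
  · rw [eq_div_iff hd, sub_mul, div_mul_cancel₀ _ hd]
    field_simp
    ring

theorem rel_D [IsAlgClosed k] (h2 : (2 : k) ≠ 0) (h3 : (3 : k) ≠ 0) (h5 : (5 : k) ≠ 0)
    (h7 : (7 : k) ≠ 0) (h13 : (13 : k) ≠ 0) :
    ∃ w : RatFunc k, w ≠ 0 ∧ algebraMap k[X] (RatFunc k) (7 * qi k * q0 k * q1 k) =
      DF (-3 / 7 : k) * w ^ 2 := by
  obtain ⟨e1, e2⟩ := rel_aux h2 h3 h5 h7 h13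
  have hq := qi_ne h13 h3
  have h7' := seven_ne h7
  have hX := one_add_X_sq_ne (k := k)
  have h520 : (520 : k) ≠ 0 := by
    have : (520 : k) = 2 ^ 3 * 5 * 13 := by norm_num
    rw [this]
    exact mul_ne_zero (mul_ne_zero (pow_ne_zero _ h2) h5) h13
  obtain ⟨r, hr⟩ := IsAlgClosed.exists_pow_nat_eq (520 : k) (n := 2) two_pos
  have hr0 : r ≠ 0 := by
    rintro rfl
    apply h520
    rw [← hr]; ring
  have hrC : (RatFunc.C r : RatFunc k) ^ 2 = 520 := by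
    rw [← map_pow, hr, rC_ofNat]
  have hrC0 : (RatFunc.C r : RatFunc k) ≠ 0 := (_root_.map_ne_zero _).mpr hr0
  refine ⟨49 / RatFunc.C r * algebraMap k[X] (RatFunc k) (qi k) ^ 2 / (1 + RatFunc.X ^ 2), ?_, ?_⟩
  · have h49 : (49 : RatFunc k) ≠ 0 := by
      have : (49 : RatFunc k) = 7 ^ 2 := by norm_num
      rw [this]; exact pow_ne_zero _ h7'
    exact div_ne_zero (mul_ne_zero (div_ne_zero h49 hrC0) (pow_ne_zero _ hq)) hX
  · rw [DF, e1, e2, tF_eq h3 h7 h13, map_mul, map_mul, map_mul, rA_ofNat]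
    have h49 : (49 : RatFunc k) = 7 ^ 2 := by norm_num
    rw [h49, div_pow, mul_pow, div_pow, hrC]
    have h520' : (520 : RatFunc k) ≠ 0 := by rw [← hrC]; exact pow_ne_zero _ hrC0
    field_simp

theorem rel_c [IsAlgClosed k] (h2 : (2 : k) ≠ 0) (h3 : (3 : k) ≠ 0) (h5 : (5 : k) ≠ 0)
    (h7 : (7 : k) ≠ 0) (h13 : (13 : k) ≠ 0) :
    ∃ w : RatFunc k, w ≠ 0 ∧ algebraMap k[X] (RatFunc k) (q0 k) = cF (-3 / 7 : k) * w ^ 2 := by
  obtain ⟨e1, e2⟩ := rel_aux h2 h3 h5 h7 h13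
  have hq := qi_ne h13 h3
  have h7' := seven_ne h7
  have hX := one_add_X_sq_ne (k := k)
  have h520 : (520 : k) ≠ 0 := by
    have : (520 : k) = 2 ^ 3 * 5 * 13 := by norm_num
    rw [this]
    exact mul_ne_zero (mul_ne_zero (pow_ne_zero _ h2) h5) h13
  obtain ⟨r, hr⟩ := IsAlgClosed.exists_pow_nat_eq (520 : k) (n := 2) two_pos
  have hr0 : r ≠ 0 := by
    rintro rfl
    apply h520
    rw [← hr]; ring
  have hrC : (RatFunc.C r : RatFunc k) ^ 2 = 520 := by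
    rw [← map_pow, hr, rC_ofNat]
  have hrC0 : (RatFunc.C r : RatFunc k) ≠ 0 := (_root_.map_ne_zero _).mpr hr0
  refine ⟨7 / RatFunc.C r * algebraMap k[X] (RatFunc k) (qi k) / (1 + RatFunc.X ^ 2), ?_, ?_⟩
  · exact div_ne_zero (mul_ne_zero (div_ne_zero h7' hrC0) hq) hX
  · rw [cF, e2, tF_eq h3 h7 h13]
    rw [div_pow, mul_pow, div_pow, hrC]
    have h520' : (520 : RatFunc k) ≠ 0 := by rw [← hrC]; exact pow_ne_zero _ hrC0
    field_simp

end

end Pool.Agent.H918R3
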