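import Mathlib

set_option autoImplicit false

/-!
# The hypersurface of MP_0a3790_ag: definitions used in the final statement
-/

namespace Pool.Agent.H918R3

open MvPolynomial

/-- The affine hypersurface `g = 0` in affine `(n + 1)`-space over the field `k` is rational: its
function field (the fraction field of its coordinate ring) is isomorphic over `k` to the field of
rational functions in `n` variables over `k`. -/
def RationalHyp {k : Type} [Field k] {n : ℕ} (g : MvPolynomial (Fin (n + 1)) k) : Prop :=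
  Nonempty (FractionRing (MvPolynomial (Fin (n + 1)) k ⧸ Ideal.span {g}) ≃ₐ[k]
    FractionRing (MvPolynomial (Fin n) k))

/-- `A = (1 + τ²)²`, where `τ` is the variable number `6` -/
noncomputable def polA : MvPolynomial (Fin 7) ℤ := (1 + X 6 ^ 2) ^ 2

/-- `B = (1 - τ²)²` -/
noncomputable def polB : MvPolynomial (Fin 7) ℤ := (1 - X 6 ^ 2) ^ 2

/-- `g_∞ = 40 A - 79 B` -/
noncomputable def polGi : MvPolynomial (Fin 7) ℤ := 40 * polA - 79 * polB

/-- `g_0 = 400 A + 237 B` -/
noncomputable def polG0 : MvPolynomial (Fin 7) ℤ := 400 * polA + 237 * polB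

/-- `g_1 = 120 A + 790 B` -/
noncomputable def polG1 : MvPolynomial (Fin 7) ℤ := 120 * polA + 790 * polB

/-- `Δ = g_∞ g_0 g_1 x (x - 1) (7 x + 3)`, where `x` is the variable number `5` -/
noncomputable def polDelta : MvPolynomial (Fin 7) ℤ :=
  polGi * polG0 * polG1 * X 5 * (X 5 - 1) * (7 * X 5 + 3)

/-- The equation of the hypersurface,
`u₁² - x u₂² - g_0 u₃² + x g_0 u₄² = (s² - Δ) ((s - 1)² - Δ)`
in the variables `u₁, u₄, u₃, u₂, s, x, τ` (numbered `0, 1, …, 6`). -/
noncomputable def polG : MvPolynomial (Fin 7) ℤ :=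
  X 0 ^ 2 - X 5 * X 3 ^ 2 - polG0 * X 2 ^ 2 + X 5 * polG0 * X 1 ^ 2 -
    (X 4 ^ 2 - polDelta) * ((X 4 - 1) ^ 2 - polDelta)

end Pool.Agent.H918R3
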