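import Pool.Agent.H918R3.Fin0
import Pool.Agent.H918R3.FinDefs

set_option autoImplicit false

namespace Pool.Agent.H918R3

open MvPolynomial

/-- `D0` -/
noncomputable def D0p (k : Type) [Field k] : Polynomial k := 7 * qi k * q0 k * q1 k

noncomputable def Del (k : Type) [Field k] : MvPolynomial (Fin 6) k :=
  Polynomial.aeval (MvPolynomial.X 5) (D0p k) * MvPolynomial.X 4 * (MvPolynomial.X 4 - 1) *
      (MvPolynomial.X 4 - MvPolynomial.C (-3 / 7 : k))

noncomputable def cc (k : Type) [Field k] : MvPolynomial (Fin 6) k :=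
  Polynomial.aeval (MvPolynomial.X 5) (q0 k)

theorem ae_ofNat {k : Type} [Field k] (i : Fin 7) (n : ℕ) [n.AtLeastTwo] :
    Polynomial.aeval (X i : MvPolynomial (Fin 7) k) (ofNat(n) : Polynomial k) = ofNat(n) :=
  map_ofNat _ n

theorem C_ofNat7 {k : Type} [Field k] (n : ℕ) [n.AtLeastTwo] :
    (C (ofNat(n) : k) : MvPolynomial (Fin 7) k) = ofNat(n) :=
  map_ofNat _ n

theorem map_polG (k : Type) [Field k] (h7 : (7 : k) ≠ 0) :
    MvPolynomial.map (algebraMap ℤ k) polG = hPol (dPol (Del k) (cc k)) := by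
  have e1 : MvPolynomial.rename Fin.succ (Polynomial.aeval (MvPolynomial.X 5) (q0 k)) =
      MvPolynomial.map (algebraMap ℤ k) polG0 := by
    simp [q0, polG0, polA, polB, ae_ofNat]
  have e2 : MvPolynomial.rename Fin.succ (Polynomial.aeval (MvPolynomial.X 5) (q1 k)) =
      MvPolynomial.map (algebraMap ℤ k) polG1 := by
    simp [q1, polG1, polA, polB, ae_ofNat]
  have e3 : MvPolynomial.rename Fin.succ (Polynomial.aeval (MvPolynomial.X 5) (qi k)) =
      MvPolynomial.map (algebraMap ℤ k) polGi := by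
    simp [qi, polGi, polA, polB, ae_ofNat]
  have e4 : (7 : MvPolynomial (Fin 7) k) * (X 5 - C (-3 / 7 : k)) = 7 * X 5 + 3 := by
    rw [mul_sub, ← C_ofNat7 (k := k) 7, ← C_mul]
    have : (7 : k) * (-3 / 7) = -3 := by field_simp
    rw [this]
    simp only [C_neg, C_ofNat7]
    ring
  have e5 : MvPolynomial.rename Fin.succ (Del k) = MvPolynomial.map (algebraMap ℤ k) polDelta := by
    rw [Del, D0p]
    simp only [map_mul, map_sub, map_one, e1, e2, e3, rename_X, rename_C]
    have e6 : MvPolynomial.rename Fin.succ (Polynomial.aeval (MvPolynomial.X 5 : MvPolynomial (Fin 6) k)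
      (7 : Polynomial k)) = 7 := by
      simp [ae_ofNat]
    rw [e6, polDelta]
    simp only [map_mul, map_sub, map_one, map_add, map_X, map_ofNat]
    have e7 : (Fin.succ 4 : Fin 7) = 5 := rfl
    rw [e7]
    linear_combination (MvPolynomial.map (algebraMap ℤ k) polGi) *
      (MvPolynomial.map (algebraMap ℤ k) polG0) * (MvPolynomial.map (algebraMap ℤ k) polG1) *
      X 5 * (X 5 - 1) * e4
  have e8 : MvPolynomial.rename Fin.succ (cc k) = MvPolynomial.map (algebraMap ℤ k) polG0 := e1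
  rw [hPol, dPol, polG]
  simp only [map_mul, map_sub, map_one, map_add, map_X, map_pow, e5, e8, rename_X]
  have f0 : (Fin.succ 0 : Fin 7) = 1 := rfl
  have f1 : (Fin.succ 1 : Fin 7) = 2 := rfl
  have f2 : (Fin.succ 2 : Fin 7) = 3 := rfl
  have f3 : (Fin.succ 3 : Fin 7) = 4 := rfl
  have f4 : (Fin.succ 4 : Fin 7) = 5 := rfl
  rw [f0, f1, f2, f3, f4]
  ring

end Pool.Agent.H918R3
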