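import Pool.Agent.H918R3.Defs

set_option autoImplicit false

/-!
Substitution homomorphisms of the rational function field (for the tasks C1s and PBp2).
-/

namespace Pool.Agent.H918R3

open Polynomial

variable {k : Type*} [Field k]

theorem eval₂_ne [IsAlgClosed k] {r : RatFunc k} (hr : ∀ a : k, r ≠ RatFunc.C a) {p : k[X]}
    (hp : p ≠ 0) : eval₂ (RatFunc.C : k →+* RatFunc k) r p ≠ 0 := by
  have hs := IsAlgClosed.splits p
  have h1 : p = C p.leadingCoeff * (p.roots.map (fun a => X - C a)).prod :=
    hs.eq_prod_roots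
  rw [h1, eval₂_mul, eval₂_C]
  apply mul_ne_zero
  · exact (_root_.map_ne_zero _).mpr (leadingCoeff_ne_zero.mpr hp)
  · have h2 : eval₂ (RatFunc.C : k →+* RatFunc k) r (p.roots.map (fun a => X - C a)).prod =
        (p.roots.map (fun a => r - RatFunc.C a)).prod := by
      rw [← coe_eval₂RingHom, map_multiset_prod, Multiset.map_map]
      congr 1
      apply Multiset.map_congr rfl
      intro a _
      simp
    rw [h2]
    apply Multiset.prod_ne_zero
    intro h
    rw [Multiset.mem_map] at h
    obtain ⟨a, _, ha⟩ := h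
    exact hr a (sub_eq_zero.mp ha)

/-- substitution of a nonconstant rational function -/
noncomputable def subs [IsAlgClosed k] (r : RatFunc k) (hr : ∀ a : k, r ≠ RatFunc.C a) :
    RatFunc k →+* RatFunc k :=
  RatFunc.liftRingHom (eval₂RingHom RatFunc.C r) (by
    intro p hp
    rw [Submonoid.mem_comap, mem_nonZeroDivisors_iff_ne_zero]
    exact eval₂_ne hr (nonZeroDivisors.ne_zero hp))

theorem subs_X [IsAlgClosed k] (r : RatFunc k) (hr : ∀ a : k, r ≠ RatFunc.C a) :
    subs r hr RatFunc.X = r := by
  unfold subs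
  rw [RatFunc.liftRingHom_X]
  simp

theorem subs_C [IsAlgClosed k] (r : RatFunc k) (hr : ∀ a : k, r ≠ RatFunc.C a) (c : k) :
    subs r hr (RatFunc.C c) = RatFunc.C c := by
  unfold subs
  rw [RatFunc.liftRingHom_C]
  simp

theorem ratfunc_hom_ext {L : Type*} [Field L] (f g : RatFunc k →+* L)
    (hC : ∀ c, f (RatFunc.C c) = g (RatFunc.C c)) (hX : f RatFunc.X = g RatFunc.X) : f = g := by
  apply IsLocalization.ringHom_ext (nonZeroDivisors k[X])
  apply Polynomial.ringHom_ext
  · intro c
    simpa [RatFunc.algebraMap_C] using hC c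
  · simpa [RatFunc.algebraMap_X] using hX

/-- an involutive substitution as a ring isomorphism -/
noncomputable def subsEquiv [IsAlgClosed k] (r : RatFunc k) (hr : ∀ a : k, r ≠ RatFunc.C a)
    (h : subs r hr r = RatFunc.X) : RatFunc k ≃+* RatFunc k :=
  RingEquiv.ofRingHom (subs r hr) (subs r hr)
    (ratfunc_hom_ext _ _ (fun c => by simp [subs_C]) (by simp [subs_X, h]))
    (ratfunc_hom_ext _ _ (fun c => by simp [subs_C]) (by simp [subs_X, h]))

theorem subsEquiv_apply [IsAlgClosed k] (r : RatFunc k) (hr : ∀ a : k, r ≠ RatFunc.C a)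
    (h : subs r hr r = RatFunc.X) (z : RatFunc k) : subsEquiv r hr h z = subs r hr z := rfl

theorem X_ne_C (a : k) : (RatFunc.X : RatFunc k) ≠ RatFunc.C a := by
  intro h
  have h1 : (algebraMap k[X] (RatFunc k)) Polynomial.X =
      (algebraMap k[X] (RatFunc k)) (Polynomial.C a) := by
    rw [RatFunc.algebraMap_X, RatFunc.algebraMap_C]
    exact h
  have h2 := RatFunc.algebraMap_injective k h1
  have h3 := congrArg Polynomial.natDegree h2
  simp at h3

end Pool.Agent.H918R3
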