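import Pool.Agent.H918R3.Defs

set_option autoImplicit false

/-!
# B0: basic facts about the points of `y² = x (x - D) (x - lD)`
-/

namespace Pool.Agent.H918R3

open Polynomial

variable {K : Type*} [Field K]

namespace TB0

theorem eqn (D l x y : K) : (crv 0 D (l * D)).toAffine.Equation x y ↔
    y ^ 2 = x * (x - D) * (x - l * D) := by
  rw [WeierstrassCurve.Affine.equation_iff]
  simp only [crv]
  constructor
  · intro h; linear_combination h
  · intro h; linear_combination h

theorem nons (h2 : (2 : K) ≠ 0) {D l : K} (hD : D ≠ 0) (h0 : l ≠ 0) (h1 : l ≠ 1) (x y : K) :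
    (crv 0 D (l * D)).toAffine.Nonsingular x y ↔ y ^ 2 = x * (x - D) * (x - l * D) := by
  rw [WeierstrassCurve.Affine.nonsingular_iff, eqn]
  constructor
  · exact fun h => h.1
  · intro h
    refine ⟨h, ?_⟩
    by_cases hy : y = 0
    · left
      simp only [crv]
      rw [hy] at h ⊢
      have h' : x * (x - D) * (x - l * D) = 0 := by rw [← h]; ring
      have hl : l * D ≠ 0 := mul_ne_zero h0 hD
      have h1' : (1 - l) * D ≠ 0 := mul_ne_zero (sub_ne_zero.2 (Ne.symm h1)) hD
      intro he
      rcases mul_eq_zero.1 h' with h3 | h3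
      · rcases mul_eq_zero.1 h3 with h4 | h4
        · rw [h4] at he
          exact mul_ne_zero hD hl (by linear_combination -he)
        · have h5 : x = D := sub_eq_zero.1 h4
          rw [h5] at he
          exact mul_ne_zero hD h1' (by linear_combination -he)
      · have h5 : x = l * D := sub_eq_zero.1 h3
        rw [h5] at he
        exact mul_ne_zero hl h1' (by linear_combination he)
    · right
      simp only [crv]
      intro he
      have : (2 : K) * y = 0 := by linear_combination he
      rcases mul_eq_zero.1 this with h3 | h3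
      · exact h2 h3
      · exact hy h3

theorem negY_eq (D l x y : K) : (crv 0 D (l * D)).toAffine.negY x y = -y := by
  simp [WeierstrassCurve.Affine.negY, crv]

end TB0

open TB0 in
/-- B0: basic facts -/
theorem pt_basic [DecidableEq K] (h2 : (2 : K) ≠ 0) {D l : K} (hD : D ≠ 0) (h0 : l ≠ 0)
    (h1 : l ≠ 1) :
    (∀ x y : K, (crv 0 D (l * D)).toAffine.Nonsingular x y ↔
      y ^ 2 = x * (x - D) * (x - l * D)) ∧
    (∀ ξ w : K, D * (ξ * (ξ - 1) * (ξ - l)) = w ^ 2 → ∃ P : WD D l, HasX P ξ) ∧
    (∀ (P : WD D l) (ξ : K), HasX P ξ → ∃ w, D * (ξ * (ξ - 1) * (ξ - l)) = w ^ 2) ∧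
    (∀ (P Q : WD D l) (ξ : K), HasX P ξ → HasX Q ξ → Q = P ∨ Q = -P) ∧
    (∀ (P : WD D l) (ξ : K), HasX P ξ → HasX (-P) ξ) ∧
    (∀ P : WD D l, P = 0 ∨ ∃ ξ, HasX P ξ) ∧
    (∀ P : WD D l, P + P = 0 ↔ P = 0 ∨ HasX P 0 ∨ HasX P 1 ∨ HasX P l) ∧
    (d0 (0 : WD D l) = 1 ∧ d1 (0 : WD D l) = 1) ∧
    (∀ P : WD D l, HasX P 0 → d0 P = l * D ^ 2 ∧ d1 P = -D) ∧
    (∀ P : WD D l, HasX P 1 → d0 P = D ∧ d1 P = (1 - l) * D ^ 2) ∧
    (∀ P : WD D l, HasX P l → d0 P = l * D ∧ d1 P = (l - 1) * D) ∧
    (∀ (P : WD D l) (ξ : K), ξ ≠ 0 → ξ ≠ 1 → HasX P ξ → d0 P = ξ * D ∧ d1 P = (ξ - 1) * D) := by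
  have hN := nons h2 hD h0 h1
  have hmul : ∀ a b : K, a * D = b * D → a = b := fun a b h => mul_right_cancel₀ hD h
  have hneg : ∀ (x y : K) (h : (crv 0 D (l * D)).toAffine.Nonsingular x y),
      ∃ h', -(WeierstrassCurve.Affine.Point.some x y h : WD D l) = .some x (-y) h' := by
    intro x y h
    have h' : (crv 0 D (l * D)).toAffine.Nonsingular x (-y) := by
      rw [hN] at h ⊢
      rw [← h]; ring
    refine ⟨h', ?_⟩
    rw [WeierstrassCurve.Affine.Point.neg_some]
    congr 1
    exact negY_eq D l x y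
  have hgen : ∀ (P : WD D l) (ξ : K), ξ ≠ 0 → ξ ≠ 1 → HasX P ξ →
      d0 P = ξ * D ∧ d1 P = (ξ - 1) * D := by
    rintro P ξ hx0 hx1 ⟨y, h, rfl⟩
    have e0 : ξ * D ≠ 0 := mul_ne_zero hx0 hD
    have e1 : ξ * D ≠ D := fun h => hx1 (hmul ξ 1 (by rw [h, one_mul]))
    constructor
    · simp only [d0, dl]
      rw [if_neg e0, sub_zero]
    · simp only [d1, dl]
      rw [if_neg e1]
      ring
  refine ⟨hN, ?_, ?_, ?_, ?_, ?_, ?_, ⟨rfl, rfl⟩, ?_, ?_, ?_, hgen⟩
  · intro ξ w h
    refine ⟨.some (ξ * D) (D * w) ((hN _ _).2 ?_), D * w, _, rfl⟩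
    rw [mul_pow, ← h]
    ring
  · rintro P ξ ⟨y, h, rfl⟩
    rw [hN] at h
    refine ⟨y / D, ?_⟩
    rw [div_pow, h]
    field_simp
  · rintro P Q ξ ⟨y, h, rfl⟩ ⟨z, h', rfl⟩
    obtain ⟨h'', e⟩ := hneg _ _ h
    rw [e]
    have e1 := (hN _ _).1 h
    have e2 := (hN _ _).1 h'
    have e3 : (z - y) * (z + y) = 0 := by linear_combination e2 - e1
    rcases mul_eq_zero.1 e3 with h3 | h3
    · left
      have : z = y := sub_eq_zero.1 h3
      subst this
      rfl
    · right
      have : z = -y := by linear_combination h3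
      subst this
      rfl
  · rintro P ξ ⟨y, h, rfl⟩
    obtain ⟨h'', e⟩ := hneg _ _ h
    exact ⟨-y, h'', e⟩
  · intro P
    rcases P with _ | ⟨x, y, h⟩
    · exact Or.inl rfl
    · right
      refine ⟨x / D, y, ?_, ?_⟩
      · rw [div_mul_cancel₀ _ hD]; exact h
      · congr 1
        rw [div_mul_cancel₀ _ hD]
  · intro P
    constructor
    · intro h
      rcases P with _ | ⟨x, y, hP⟩
      · exact Or.inl rfl
      · right
        have hPn : (WeierstrassCurve.Affine.Point.some x y hP : WD D l) = -.some x y hP :=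
          eq_neg_of_add_eq_zero_left h
        obtain ⟨h'', e⟩ := hneg _ _ hP
        rw [e] at hPn
        have hy : y = -y := by
          injection hPn
        have hy0 : y = 0 := by
          have : (2 : K) * y = 0 := by linear_combination hy
          rcases mul_eq_zero.1 this with h3 | h3
          · exact absurd h3 h2
          · exact h3
        have h3 := (hN _ _).1 hP
        rw [hy0] at h3
        have h4 : x * (x - D) * (x - l * D) = 0 := by rw [← h3]; ring
        rcases mul_eq_zero.1 h4 with h5 | h5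
        · rcases mul_eq_zero.1 h5 with h6 | h6
          · left
            subst h6
            exact ⟨y, by rw [zero_mul]; exact hP, by congr 1; rw [zero_mul]⟩
          · right; left
            have : x = D := sub_eq_zero.1 h6
            subst this
            exact ⟨y, by rw [one_mul]; exact hP, by congr 1; rw [one_mul]⟩
        · right; right
          have : x = l * D := sub_eq_zero.1 h5
          subst this
          exact ⟨y, hP, rfl⟩
    · have key : ∀ ξ : K, ξ * (ξ - 1) * (ξ - l) = 0 → HasX P ξ → P + P = 0 := by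
        rintro ξ hξ ⟨y, h, rfl⟩
        have h3 := (hN _ _).1 h
        have h4 : y ^ 2 = 0 := by
          rw [h3]
          linear_combination D ^ 3 * hξ
        have h5 : y = 0 := pow_eq_zero_iff (two_ne_zero) |>.1 h4
        apply WeierstrassCurve.Affine.Point.add_self_of_Y_eq
        rw [negY_eq, h5, neg_zero]
      rintro (h | h | h | h)
      · rw [h, add_zero]
      · exact key 0 (by ring) h
      · exact key 1 (by ring) h
      · exact key l (by ring) h
  · rintro P ⟨y, h, rfl⟩
    constructor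
    · simp only [d0, dl]
      rw [if_pos (zero_mul D)]
      ring
    · simp only [d1, dl]
      rw [if_neg (by rw [zero_mul]; exact Ne.symm hD)]
      ring
  · rintro P ⟨y, h, rfl⟩
    constructor
    · simp only [d0, dl]
      rw [if_neg (by rw [one_mul]; exact hD)]
      ring
    · simp only [d1, dl]
      rw [if_pos (one_mul D)]
      ring
  · intro P hP
    exact hgen P l h0 h1 hP

end Pool.Agent.H918R3
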