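import Mathlib
import Pool.Agent.H918R3.Defs

set_option autoImplicit false

/-!
# Task B1: the complete 2-descent map (helper8)
-/

namespace Pool.Agent.H918R3

open Matrix Polynomial WeierstrassCurve

namespace TB1

variable {K : Type*} [Field K]

lemma crv_eqn {e1 e2 e3 x y : K} :
    (crv e1 e2 e3).toAffine.Equation x y ↔ y ^ 2 = (x - e1) * (x - e2) * (x - e3) := by
  rw [WeierstrassCurve.Affine.equation_iff]
  simp only [crv]
  constructor <;> intro h <;> linear_combination h

lemma crv_nonsing (h2 : (2 : K) ≠ 0) {e1 e2 e3 x y : K} (h12 : e1 ≠ e2) (h13 : e1 ≠ e3)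
    (h23 : e2 ≠ e3) (h : y ^ 2 = (x - e1) * (x - e2) * (x - e3)) :
    (crv e1 e2 e3).toAffine.Nonsingular x y := by
  rw [WeierstrassCurve.Affine.nonsingular_iff]
  refine ⟨crv_eqn.mpr h, ?_⟩
  by_cases hy : y = 0
  · left
    simp only [crv]
    intro h'
    have hd : (x - e2) * (x - e3) + (x - e1) * (x - e3) + (x - e1) * (x - e2) = 0 := by
      linear_combination -h'
    rw [hy] at h
    have h0 : (x - e1) * (x - e2) * (x - e3) = 0 := by rw [← h]; ring
    rcases mul_eq_zero.1 h0 with h0 | h0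
    · rcases mul_eq_zero.1 h0 with h0 | h0
      · rw [h0, zero_mul, zero_mul, add_zero, add_zero] at hd
        have hx : x = e1 := sub_eq_zero.1 h0
        rw [hx] at hd
        rcases mul_eq_zero.1 hd with hd | hd
        · exact h12 (sub_eq_zero.1 hd)
        · exact h13 (sub_eq_zero.1 hd)
      · rw [h0, zero_mul, mul_zero, zero_add, add_zero] at hd
        have hx : x = e2 := sub_eq_zero.1 h0
        rw [hx] at hd
        rcases mul_eq_zero.1 hd with hd | hd
        · exact h12 (sub_eq_zero.1 hd).symm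
        · exact h23 (sub_eq_zero.1 hd)
    · rw [h0, mul_zero, mul_zero, zero_add, zero_add] at hd
      have hx : x = e3 := sub_eq_zero.1 h0
      rw [hx] at hd
      rcases mul_eq_zero.1 hd with hd | hd
      · exact h13 (sub_eq_zero.1 hd).symm
      · exact h23 (sub_eq_zero.1 hd).symm
  · right
    simp only [crv]
    intro h'
    apply hy
    have : 2 * y = 0 := by linear_combination h'
    rcases mul_eq_zero.1 this with h3 | h3
    · exact absurd h3 h2
    · exact h3

open Classical in
/-- `dl` for a curve given by any equation -/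
noncomputable def dlW {W : WeierstrassCurve K} (e f g : K) : W.toAffine.Point → K
  | .zero => 1
  | .some x _ _ => if x = e then (e - f) * (e - g) else x - e

lemma dl_eq {e1 e2 e3 : K} (e f g : K) (P : Pt e1 e2 e3) : dl e f g P = dlW e f g P := by
  cases P <;> rfl

lemma dlW_some {W : WeierstrassCurve K} (e f g x y : K) (h) :
    dlW e f g (Affine.Point.some x y h : W.toAffine.Point) =
      open Classical in if x = e then (e - f) * (e - g) else x - e := rfl

lemma dlW_ne {W : WeierstrassCurve K} {e f g : K} (hef : e ≠ f) (heg : e ≠ g)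
    (P : W.toAffine.Point) : dlW e f g P ≠ 0 := by
  cases P with
  | zero => exact one_ne_zero
  | some x y h =>
    rw [dlW_some]
    split_ifs with hx
    · exact mul_ne_zero (sub_ne_zero.2 hef) (sub_ne_zero.2 heg)
    · exact sub_ne_zero.2 hx

variable [DecidableEq K]

lemma dlW_add_some (h2 : (2 : K) ≠ 0) {e f g : K} {x1 y1 x2 y2 : K}
    (h1 : (crv e f g).toAffine.Nonsingular x1 y1) (h1' : (crv e f g).toAffine.Nonsingular x2 y2) :
    IsSquare (dlW e f g (Affine.Point.some x1 y1 h1 + Affine.Point.some x2 y2 h1') *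
      (dlW e f g (Affine.Point.some x1 y1 h1) * dlW e f g (Affine.Point.some x2 y2 h1'))) := by
  have q1 := crv_eqn.mp h1.1
  have q2 := crv_eqn.mp h1'.1
  by_cases hx : x1 = x2
  · subst hx
    have hyy : y1 = y2 ∨ y1 = -y2 := by
      apply sq_eq_sq_iff_eq_or_eq_neg.mp
      rw [q1, q2]
    have hsame : dlW e f g (Affine.Point.some x1 y1 h1 : (crv e f g).toAffine.Point) =
        dlW e f g (Affine.Point.some x1 y2 h1') := rfl
    rw [hsame]
    refine IsSquare.mul ?_ ⟨_, rfl⟩
    by_cases hneg : y1 = (crv e f g).toAffine.negY x1 y2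
    · rw [Affine.Point.add_of_Y_eq rfl hneg]
      exact ⟨1, by change (1 : K) = 1 * 1; rw [one_mul]⟩
    · have hy12 : y1 = y2 := by
        rcases hyy with h | h
        · exact h
        · exact absurd (by simp only [Affine.negY, crv]; linear_combination h) hneg
      subst hy12
      rw [Affine.Point.add_self_of_Y_ne hneg, dlW_some]
      have hy0 : y1 ≠ 0 := by
        intro h
        apply hneg
        simp only [Affine.negY, crv]
        rw [h]; ring
      have h2y : 2 * y1 ≠ 0 := mul_ne_zero h2 hy0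
      set s := (crv e f g).toAffine.slope x1 x1 y1 y1 with hs
      have hslope : s * (2 * y1) =
          (x1 - f) * (x1 - g) + (x1 - e) * (x1 - g) + (x1 - e) * (x1 - f) := by
        rw [hs, Affine.slope_of_Y_ne rfl hneg]
        simp only [Affine.negY, crv]
        have e3' : y1 - (-y1 - 0 * x1 - 0) = 2 * y1 := by ring
        rw [e3', div_mul_cancel₀ _ h2y]
        ring
      have hX : (crv e f g).toAffine.addX x1 x1 s = s ^ 2 + (e + f + g) - 2 * x1 := by
        simp only [Affine.addX, crv]; ring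
      rw [hX]
      -- key identity
      have key : (s ^ 2 + (e + f + g) - 2 * x1 - e) * (2 * y1) ^ 2 =
          ((x1 - e) ^ 2 - (e - f) * (e - g)) ^ 2 := by
        have h5 : (s * (2 * y1)) ^ 2 =
          ((x1 - f) * (x1 - g) + (x1 - e) * (x1 - g) + (x1 - e) * (x1 - f)) ^ 2 := by rw [hslope]
        linear_combination h5 + (4 * (f + g - 2 * x1)) * q1
      split_ifs with hx3
      · rw [hx3, sub_self, zero_mul] at key
        have h6 : (x1 - e) ^ 2 = (e - f) * (e - g) := by
          have := pow_eq_zero_iff (two_ne_zero) |>.1 key.symm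
          exact sub_eq_zero.1 this
        exact ⟨x1 - e, by rw [← h6, sq]⟩
      · refine ⟨((x1 - e) ^ 2 - (e - f) * (e - g)) / (2 * y1), ?_⟩
        rw [div_mul_div_comm, ← sq, ← sq, ← key, mul_div_assoc, div_self (pow_ne_zero 2 h2y),
          mul_one]
  · have hx' : x1 - x2 ≠ 0 := sub_ne_zero.mpr hx
    rw [Affine.Point.add_of_X_ne hx, dlW_some, dlW_some, dlW_some]
    set s := (crv e f g).toAffine.slope x1 x2 y1 y2 with hs
    have hslope : s * (x1 - x2) = y1 - y2 := by
      rw [hs, Affine.slope_of_X_ne hx, div_mul_cancel₀ _ hx']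
    have hX : (crv e f g).toAffine.addX x1 x2 s = s ^ 2 + (e + f + g) - x1 - x2 := by
      simp only [Affine.addX, crv]; ring
    rw [hX]
    set x3 := s ^ 2 + (e + f + g) - x1 - x2 with hx3
    have key : (x3 - e) * ((x1 - e) * (x2 - e)) = (y1 + s * (e - x1)) ^ 2 := by
      have h5 : (x3 - e) * ((x1 - e) * (x2 - e)) * (x1 - x2) ^ 2 =
          (y1 + s * (e - x1)) ^ 2 * (x1 - x2) ^ 2 := by
        rw [hx3]
        have hs2 : s ^ 2 * (x1 - x2) ^ 2 = (y1 - y2) ^ 2 := by rw [← mul_pow, hslope]
        have e1 : (s ^ 2 + (e + f + g) - x1 - x2 - e) * ((x1 - e) * (x2 - e)) * (x1 - x2) ^ 2 =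
            (s ^ 2 * (x1 - x2) ^ 2 + (f + g - x1 - x2) * (x1 - x2) ^ 2) * ((x1 - e) * (x2 - e)) := by
          ring
        have e2 : (y1 + s * (e - x1)) ^ 2 * (x1 - x2) ^ 2 =
            (y1 * (x1 - x2) + s * (x1 - x2) * (e - x1)) ^ 2 := by ring
        rw [e1, e2, hs2, hslope]
        linear_combination ((x2 - e) * (x1 - x2)) * q1 - ((x1 - e) * (x1 - x2)) * q2
      exact mul_right_cancel₀ (pow_ne_zero 2 hx') h5
    have hprod : ∀ u v : K, u = e → v ≠ e → v - e ≠ 0 := fun u v _ hv => sub_ne_zero.2 hv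
    by_cases hx1 : x1 = e
    · -- first point is `(e, 0)`
      have hx2 : x2 ≠ e := fun h => hx (hx1.trans h.symm)
      have hx2' : x2 - e ≠ 0 := sub_ne_zero.2 hx2
      have hy1 : y1 = 0 := by
        have : y1 ^ 2 = 0 := by rw [q1, hx1]; ring
        exact pow_eq_zero_iff (two_ne_zero) |>.1 this
      have h6 : (x3 - e) * (x2 - e) = (e - f) * (e - g) := by
        have h7 : (x3 - e) * (x2 - e) * (x1 - x2) ^ 2 = (e - f) * (e - g) * (x1 - x2) ^ 2 := by
          have hs2 : s ^ 2 * (x1 - x2) ^ 2 = (y1 - y2) ^ 2 := by rw [← mul_pow, hslope]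
          rw [hx3]
          have e1 : (s ^ 2 + (e + f + g) - x1 - x2 - e) * (x2 - e) * (x1 - x2) ^ 2 =
              (s ^ 2 * (x1 - x2) ^ 2 + (f + g - x1 - x2) * (x1 - x2) ^ 2) * (x2 - e) := by ring
          rw [e1, hs2, hx1, hy1]
          linear_combination (x2 - e) * q2
        exact mul_right_cancel₀ (pow_ne_zero 2 hx') h7
      rw [if_pos hx1, if_neg hx2]
      have hx3' : x3 ≠ e ∨ x3 = e := (em _).symm
      by_cases h8 : x3 = e
      · rw [if_pos h8]
        rw [h8, sub_self, zero_mul] at h6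
        rw [← h6]
        exact ⟨0, by ring⟩
      · rw [if_neg h8]
        refine ⟨(e - f) * (e - g), ?_⟩
        linear_combination ((e - f) * (e - g)) * h6
    · by_cases hx2 : x2 = e
      · have hx1' : x1 - e ≠ 0 := sub_ne_zero.2 hx1
        have hy2 : y2 = 0 := by
          have : y2 ^ 2 = 0 := by rw [q2, hx2]; ring
          exact pow_eq_zero_iff (two_ne_zero) |>.1 this
        have h6 : (x3 - e) * (x1 - e) = (e - f) * (e - g) := by
          have h7 : (x3 - e) * (x1 - e) * (x1 - x2) ^ 2 = (e - f) * (e - g) * (x1 - x2) ^ 2 := by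
            have hs2 : s ^ 2 * (x1 - x2) ^ 2 = (y1 - y2) ^ 2 := by rw [← mul_pow, hslope]
            rw [hx3]
            have e1 : (s ^ 2 + (e + f + g) - x1 - x2 - e) * (x1 - e) * (x1 - x2) ^ 2 =
                (s ^ 2 * (x1 - x2) ^ 2 + (f + g - x1 - x2) * (x1 - x2) ^ 2) * (x1 - e) := by ring
            rw [e1, hs2, hx2, hy2]
            linear_combination (x1 - e) * q1
          exact mul_right_cancel₀ (pow_ne_zero 2 hx') h7
        rw [if_neg hx1, if_pos hx2]
        by_cases h8 : x3 = e
        · rw [if_pos h8]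
          rw [h8, sub_self, zero_mul] at h6
          rw [← h6]
          exact ⟨0, by ring⟩
        · rw [if_neg h8]
          refine ⟨(e - f) * (e - g), ?_⟩
          linear_combination ((e - f) * (e - g)) * h6
      · rw [if_neg hx1, if_neg hx2]
        by_cases h8 : x3 = e
        · rw [if_pos h8]
          -- `(x1 - e)(x2 - e) = (e - f)(e - g)`
          have hL : y1 + s * (e - x1) = 0 := by
            have := key
            rw [h8, sub_self, zero_mul] at this
            exact pow_eq_zero_iff (two_ne_zero) |>.1 this.symm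
          have hs2 : s ^ 2 = x1 + x2 - f - g := by
            have : s ^ 2 + (e + f + g) - x1 - x2 = e := by rw [← hx3]; exact h8
            linear_combination this
          have hx1' : x1 - e ≠ 0 := sub_ne_zero.2 hx1
          have h9 : (x1 - e) * ((x1 - e) * (x2 - e)) = (x1 - e) * ((e - f) * (e - g)) := by
            have h10 : y1 ^ 2 = s ^ 2 * (x1 - e) ^ 2 := by
              have : y1 = s * (x1 - e) := by linear_combination hL
              rw [this]; ring
            rw [q1, hs2] at h10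
            have h11 : (x1 - e) * ((x1 - f) * (x1 - g)) =
                (x1 - e) * ((x1 + x2 - f - g) * (x1 - e)) := by linear_combination h10
            have h12 := mul_left_cancel₀ hx1' h11
            rw [mul_right_inj' hx1']
            linear_combination -h12
          have h13 := mul_left_cancel₀ hx1' h9
          rw [h13]
          exact ⟨_, rfl⟩
        · rw [if_neg h8]
          exact ⟨y1 + s * (e - x1), by rw [key, sq]⟩

lemma halve_aux (h2 : (2 : K) ≠ 0) {e1 e2 e3 x r1 r2 r3 : K} (h12 : e1 ≠ e2) (h13 : e1 ≠ e3)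
    (h23 : e2 ≠ e3) (hr1 : x - e1 = r1 ^ 2) (hr2 : x - e2 = r2 ^ 2) (hr3 : x - e3 = r3 ^ 2)
    (h : (crv e1 e2 e3).toAffine.Nonsingular x (r1 * r2 * r3)) :
    ∃ Q : Pt e1 e2 e3, Q + Q = Affine.Point.some x (r1 * r2 * r3) h := by
  obtain rfl : e1 = x - r1 ^ 2 := by linear_combination -hr1
  obtain rfl : e2 = x - r2 ^ 2 := by linear_combination -hr2
  obtain rfl : e3 = x - r3 ^ 2 := by linear_combination -hr3
  have d12 : r1 + r2 ≠ 0 := by
    intro hh
    apply h12
    have : r1 = -r2 := by linear_combination hh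
    rw [this]; ring
  have d13 : r1 + r3 ≠ 0 := by
    intro hh
    apply h13
    have : r1 = -r3 := by linear_combination hh
    rw [this]; ring
  have d23 : r2 + r3 ≠ 0 := by
    intro hh
    apply h23
    have : r2 = -r3 := by linear_combination hh
    rw [this]; ring
  set X := x + r1 * r2 + r1 * r3 + r2 * r3 with hX
  set Y := (r1 + r2) * (r1 + r3) * (r2 + r3) with hY
  have hY0 : Y ≠ 0 := by
    rw [hY]; exact mul_ne_zero (mul_ne_zero d12 d13) d23
  have hQ : (crv (x - r1 ^ 2) (x - r2 ^ 2) (x - r3 ^ 2)).toAffine.Nonsingular X Y := by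
    apply crv_nonsing h2 h12 h13 h23
    rw [hX, hY]; ring
  refine ⟨Affine.Point.some X Y hQ, ?_⟩
  have h2Y : 2 * Y ≠ 0 := mul_ne_zero h2 hY0
  have hy' : Y ≠ (crv (x - r1 ^ 2) (x - r2 ^ 2) (x - r3 ^ 2)).toAffine.negY X Y := by
    simp only [Affine.negY, crv]
    intro hh
    apply h2Y
    linear_combination hh
  have hslope : (crv (x - r1 ^ 2) (x - r2 ^ 2) (x - r3 ^ 2)).toAffine.slope X X Y Y =
      r1 + r2 + r3 := by
    rw [Affine.slope_of_Y_ne rfl hy']
    simp only [Affine.negY, crv]
    have e3' : Y - (-Y - 0 * X - 0) = 2 * Y := by ring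
    rw [e3', div_eq_iff h2Y]
    rw [hX, hY]; ring
  rw [Affine.Point.add_self_of_Y_ne hy']
  simp only [Affine.Point.some.injEq]
  rw [hslope]
  constructor
  · simp only [Affine.addX, crv]
    rw [hX]; ring
  · simp only [Affine.addY, Affine.negAddY, Affine.negY, Affine.addX, crv]
    rw [hX, hY]; ring

/-- halving: if all `x - e_i` are squares the point is a double. -/
lemma halve (h2 : (2 : K) ≠ 0) {e1 e2 e3 x y : K} (h12 : e1 ≠ e2) (h13 : e1 ≠ e3) (h23 : e2 ≠ e3)
    (hr1 : IsSquare (x - e1)) (hr2 : IsSquare (x - e2)) (hr3 : IsSquare (x - e3))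
    (h : (crv e1 e2 e3).toAffine.Nonsingular x y) :
    ∃ Q : Pt e1 e2 e3, Affine.Point.some x y h = Q + Q := by
  obtain ⟨r1, hr1⟩ := hr1
  obtain ⟨r2, hr2⟩ := hr2
  obtain ⟨r3, hr3⟩ := hr3
  rw [← sq] at hr1 hr2 hr3
  have hy := crv_eqn.mp h.1
  have hyy : y ^ 2 = (r1 * r2 * r3) ^ 2 := by rw [hy, hr1, hr2, hr3]; ring
  rcases sq_eq_sq_iff_eq_or_eq_neg.mp hyy with hy1 | hy1
  · subst hy1
    obtain ⟨Q, hQ⟩ := halve_aux h2 h12 h13 h23 hr1 hr2 hr3 h
    exact ⟨Q, hQ.symm⟩
  · have hy2 : y = (-r1) * r2 * r3 := by rw [hy1]; ring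
    subst hy2
    obtain ⟨Q, hQ⟩ := halve_aux h2 h12 h13 h23 (by rw [hr1]; ring) hr2 hr3 h
    exact ⟨Q, hQ.symm⟩

end TB1

open TB1

variable {K : Type*} [Field K]

/-- B1a -/
theorem dl_add [DecidableEq K] (h2 : (2 : K) ≠ 0) {e1 e2 e3 e f g : K}
    (hp : crv e f g = crv e1 e2 e3) (hef : e ≠ f) (heg : e ≠ g) (hfg : f ≠ g) (P Q : Pt e1 e2 e3) :
    dl e f g P ≠ 0 ∧ IsSquare (dl e f g (P + Q) * (dl e f g P * dl e f g Q)) := by
  simp only [dl_eq]
  refine ⟨dlW_ne hef heg P, ?_⟩
  revert P Q
  unfold Pt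
  rw [← hp]
  intro P Q
  cases P with
  | zero =>
    change IsSquare (dlW e f g (0 + Q) * (1 * dlW e f g Q))
    rw [zero_add, one_mul]
    exact ⟨_, rfl⟩
  | some x1 y1 h1 =>
    cases Q with
    | zero =>
      change IsSquare (dlW e f g (Affine.Point.some x1 y1 h1 + 0) *
        (dlW e f g (Affine.Point.some x1 y1 h1) * 1))
      rw [add_zero, mul_one]
      exact ⟨_, rfl⟩
    | some x2 y2 h1' => exact dlW_add_some h2 h1 h1'

/-- B1c -/
theorem exists_half [DecidableEq K] (h2 : (2 : K) ≠ 0) {D l : K} (hD : D ≠ 0) (h0 : l ≠ 0)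
    (h1 : l ≠ 1) (P : WD D l) (hP0 : IsSquare (d0 P)) (hP1 : IsSquare (d1 P)) :
    ∃ Q : WD D l, P = Q + Q := by
  have h12 : (0 : K) ≠ D := hD.symm
  have h13 : (0 : K) ≠ l * D := (mul_ne_zero h0 hD).symm
  have h23 : D ≠ l * D := by
    intro h
    apply h1
    have : (l - 1) * D = 0 := by linear_combination -h
    rcases mul_eq_zero.1 this with h' | h'
    · exact sub_eq_zero.1 h'
    · exact absurd h' hD
  cases P with
  | zero => exact ⟨0, by rw [add_zero]; rfl⟩
  | some x y h =>
    have q := crv_eqn.mp h.1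
    unfold d0 at hP0
    unfold d1 at hP1
    rw [dl_eq, dlW_some] at hP0 hP1
    by_cases hx0 : x = 0
    · rw [if_pos hx0] at hP0
      rw [if_neg (by rw [hx0]; exact h12)] at hP1
      refine halve h2 h12 h13 h23 ⟨0, by rw [hx0]; ring⟩ hP1 ?_ h
      have e1 : x - l * D = (0 - D) * (0 - l * D) / (x - D) := by
        rw [hx0, zero_sub, zero_sub]
        field_simp
      rw [e1]
      exact hP0.div hP1
    · rw [if_neg hx0] at hP0
      by_cases hxD : x = D
      · rw [if_pos hxD] at hP1
        refine halve h2 h12 h13 h23 hP0 ⟨0, by rw [hxD]; ring⟩ ?_ h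
        have e1 : x - l * D = (D - 0) * (D - l * D) / (x - 0) := by
          rw [hxD, sub_zero]
          field_simp
        rw [e1]
        exact hP1.div hP0
      · rw [if_neg hxD] at hP1
        refine halve h2 h12 h13 h23 hP0 hP1 ?_ h
        have hn0 : x - 0 ≠ 0 := sub_ne_zero.2 hx0
        have hnD : x - D ≠ 0 := sub_ne_zero.2 hxD
        have e1 : x - l * D = y ^ 2 / ((x - 0) * (x - D)) := by
          rw [eq_div_iff (mul_ne_zero hn0 hnD), q]
          ring
        rw [e1]
        exact (IsSquare.sq y).div (hP0.mul hP1)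

end Pool.Agent.H918R3
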