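import Pool.Agent.H918R3.Defs

set_option autoImplicit false

/-!
B2ab: heights of points of `y² = x (x - D) (x - lD)` over `k(t)`: doubling and the quadratic
inequality.
-/

namespace Pool.Agent.H918R3

open Polynomial

namespace B2ab

/-! ### group law -/

section Grp

variable {K : Type*} [Field K]

lemma eqn {D l x y : K} (h : (crv 0 D (l * D)).toAffine.Nonsingular x y) :
    y ^ 2 = x * (x - D) * (x - l * D) := by
  have h1 := ((crv 0 D (l * D)).toAffine.equation_iff x y).1 h.1
  simp only [crv] at h1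
  linear_combination h1

lemma negY_eq {D l : K} (x y : K) : (crv 0 D (l * D)).toAffine.negY x y = -y := by
  simp [WeierstrassCurve.Affine.negY, crv]

lemma add_sub [DecidableEq K] {D l : K} {x1 y1 x2 y2 : K}
    {h1 : (crv 0 D (l * D)).toAffine.Nonsingular x1 y1}
    {h2 : (crv 0 D (l * D)).toAffine.Nonsingular x2 y2} (hx : x1 ≠ x2) :
    ∃ (x3 y3 : K) (h3 : (crv 0 D (l * D)).toAffine.Nonsingular x3 y3) (x4 y4 : K)
      (h4 : (crv 0 D (l * D)).toAffine.Nonsingular x4 y4),
      ((.some x1 y1 h1 : WD D l) + .some x2 y2 h2 = .some x3 y3 h3) ∧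
      ((.some x1 y1 h1 : WD D l) - .some x2 y2 h2 = .some x4 y4 h4) ∧
      (x3 + x4) * (x1 - x2) ^ 2 =
        2 * ((x1 + x2) * (x1 * x2 + l * D ^ 2) - 2 * (1 + l) * D * (x1 * x2)) ∧
      (x3 * x4) * (x1 - x2) ^ 2 = (x1 * x2 - l * D ^ 2) ^ 2 := by
  have e1 := eqn h1
  have e2 := eqn h2
  have hx' : x1 - x2 ≠ 0 := sub_ne_zero.2 hx
  have h2' : (crv 0 D (l * D)).toAffine.Nonsingular x2 ((crv 0 D (l * D)).toAffine.negY x2 y2) :=
    (WeierstrassCurve.Affine.nonsingular_neg ..).mpr h2
  have hadd := WeierstrassCurve.Affine.Point.add_of_X_ne (h₁ := h1) (h₂ := h2) hx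
  have hsub := WeierstrassCurve.Affine.Point.add_of_X_ne (h₁ := h1) (h₂ := h2') hx
  rw [← WeierstrassCurve.Affine.Point.neg_some h2, ← sub_eq_add_neg] at hsub
  refine ⟨_, _, _, _, _, _, hadd, hsub, ?_⟩
  have s1 : (crv 0 D (l * D)).toAffine.slope x1 x2 y1 y2 = (y1 - y2) / (x1 - x2) :=
    WeierstrassCurve.Affine.slope_of_X_ne hx
  have s2 : (crv 0 D (l * D)).toAffine.slope x1 x2 y1 ((crv 0 D (l * D)).toAffine.negY x2 y2) =
      (y1 + y2) / (x1 - x2) := by
    rw [WeierstrassCurve.Affine.slope_of_X_ne hx, negY_eq, sub_neg_eq_add]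
  rw [s1, s2]
  have a1 : ∀ s : K, (crv 0 D (l * D)).toAffine.addX x1 x2 s = s ^ 2 + (1 + l) * D - x1 - x2 := by
    intro s
    simp only [WeierstrassCurve.Affine.addX, crv]
    ring
  rw [a1, a1]
  have t1 : ((y1 - y2) / (x1 - x2)) ^ 2 = (y1 - y2) ^ 2 / (x1 - x2) ^ 2 := div_pow _ _ _
  have t2 : ((y1 + y2) / (x1 - x2)) ^ 2 = (y1 + y2) ^ 2 / (x1 - x2) ^ 2 := div_pow _ _ _
  rw [t1, t2]
  have hx2 : (x1 - x2) ^ 2 ≠ 0 := pow_ne_zero 2 hx'
  constructor
  · field_simp
    linear_combination 2 * e1 + 2 * e2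
  · have key : ((y1 - y2) ^ 2 - (x1 + x2 - (1 + l) * D) * (x1 - x2) ^ 2) *
        ((y1 + y2) ^ 2 - (x1 + x2 - (1 + l) * D) * (x1 - x2) ^ 2) =
        (x1 * x2 - l * D ^ 2) ^ 2 * (x1 - x2) ^ 2 := by
      have : ((y1 - y2) ^ 2 - (x1 + x2 - (1 + l) * D) * (x1 - x2) ^ 2) *
        ((y1 + y2) ^ 2 - (x1 + x2 - (1 + l) * D) * (x1 - x2) ^ 2) =
        (y1 ^ 2 - y2 ^ 2) ^ 2 - (x1 + x2 - (1 + l) * D) * (x1 - x2) ^ 2 * (2 * (y1 ^ 2 + y2 ^ 2)) +
        ((x1 + x2 - (1 + l) * D) * (x1 - x2) ^ 2) ^ 2 := by ring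
      rw [this, e1, e2]
      ring
    have r1 : (y1 - y2) ^ 2 / (x1 - x2) ^ 2 + (1 + l) * D - x1 - x2 =
        ((y1 - y2) ^ 2 - (x1 + x2 - (1 + l) * D) * (x1 - x2) ^ 2) / (x1 - x2) ^ 2 := by
      field_simp
      ring
    have r2 : (y1 + y2) ^ 2 / (x1 - x2) ^ 2 + (1 + l) * D - x1 - x2 =
        ((y1 + y2) ^ 2 - (x1 + x2 - (1 + l) * D) * (x1 - x2) ^ 2) / (x1 - x2) ^ 2 := by
      field_simp
      ring
    rw [r1, r2, div_mul_div_comm, key]
    field_simp

lemma dbl [DecidableEq K] (hc2 : (2 : K) ≠ 0) {D l : K} {x y : K}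
    {h : (crv 0 D (l * D)).toAffine.Nonsingular x y} (hy : y ≠ 0) :
    ∃ (x3 y3 : K) (h3 : (crv 0 D (l * D)).toAffine.Nonsingular x3 y3),
      ((.some x y h : WD D l) + .some x y h = .some x3 y3 h3) ∧
      x3 * (4 * (x * (x - D) * (x - l * D))) = (x ^ 2 - l * D ^ 2) ^ 2 := by
  have e := eqn h
  have hn : y ≠ (crv 0 D (l * D)).toAffine.negY x y := by
    rw [negY_eq]
    intro h'
    have : 2 * y = 0 := by linear_combination h'
    rcases mul_eq_zero.1 this with h'' | h''
    · exact hc2 h''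
    · exact hy h''
  refine ⟨_, _, _, WeierstrassCurve.Affine.Point.add_self_of_Y_ne hn, ?_⟩
  have s1 : (crv 0 D (l * D)).toAffine.slope x x y y =
      (3 * x ^ 2 - 2 * (1 + l) * D * x + l * D ^ 2) / (2 * y) := by
    rw [WeierstrassCurve.Affine.slope_of_Y_ne rfl hn, negY_eq]
    simp only [crv]
    congr 1 <;> ring
  rw [s1]
  have a1 : ∀ s : K, (crv 0 D (l * D)).toAffine.addX x x s = s ^ 2 + (1 + l) * D - 2 * x := by
    intro s
    simp only [WeierstrassCurve.Affine.addX, crv]
    ring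
  rw [a1, ← e, div_pow]
  have h4 : (2 * y) ^ 2 = 4 * y ^ 2 := by ring
  rw [h4]
  have hy2 : 4 * y ^ 2 ≠ 0 := by
    rw [← h4]
    exact pow_ne_zero 2 (mul_ne_zero hc2 hy)
  have r1 : (3 * x ^ 2 - 2 * (1 + l) * D * x + l * D ^ 2) ^ 2 / (4 * y ^ 2) + (1 + l) * D - 2 * x =
      ((3 * x ^ 2 - 2 * (1 + l) * D * x + l * D ^ 2) ^ 2 + ((1 + l) * D - 2 * x) * (4 * y ^ 2)) /
        (4 * y ^ 2) := by
    rw [eq_div_iff hy2]
    have := div_mul_cancel₀ ((3 * x ^ 2 - 2 * (1 + l) * D * x + l * D ^ 2) ^ 2) hy2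
    linear_combination this
  rw [r1, div_mul_cancel₀ _ hy2, e]
  ring

lemma dbl_zero [DecidableEq K] {D l : K} {x y : K}
    {h : (crv 0 D (l * D)).toAffine.Nonsingular x y} (hy : y = 0) :
    (.some x y h : WD D l) + .some x y h = 0 := by
  apply WeierstrassCurve.Affine.Point.add_self_of_Y_eq
  rw [negY_eq, hy, neg_zero]

end Grp

/-! ### heights of rational functions -/

section Rht

variable {k : Type*} [Field k]

/-- the embedding of polynomials -/
noncomputable abbrev ι : k[X] →+* RatFunc k := algebraMap k[X] (RatFunc k)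

lemma ι_inj {p q : k[X]} : ι p = ι q ↔ p = q := (RatFunc.algebraMap_injective k).eq_iff

lemma ι_ne {p : k[X]} (h : p ≠ 0) : ι p ≠ 0 := by
  intro h'
  rw [← map_zero (ι : k[X] →+* RatFunc k), ι_inj] at h'
  exact h h'

lemma ι_C (c : k) : (ι (Polynomial.C c) : RatFunc k) = RatFunc.C c := rfl

/-- the height of a reduced fraction -/
lemma rht_coprime {r : RatFunc k} {a b : k[X]} (hb : b ≠ 0) (hab : IsCoprime a b)
    (h : r * ι b = ι a) : rht r = max a.natDegree b.natDegree := by
  have hd : r.denom ≠ 0 := r.denom_ne_zero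
  have hc := r.isCoprime_num_denom
  have h1 : r.num * b = a * r.denom := by
    rw [RatFunc.num_mul_eq_mul_denom_iff hb, eq_div_iff (ι_ne hb)]
    exact h
  have h2 : b.natDegree = r.denom.natDegree := by
    apply le_antisymm
    · exact natDegree_le_of_dvd (hab.symm.dvd_of_dvd_mul_left ⟨r.num, by rw [← h1]; ring⟩) hd
    · exact natDegree_le_of_dvd (hc.symm.dvd_of_dvd_mul_left ⟨a, by rw [h1]; ring⟩) hb
  have h3 : a.natDegree = r.num.natDegree := by
    have e1 : a ∣ r.num := hab.dvd_of_dvd_mul_right ⟨r.denom, h1⟩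
    have e2 : r.num ∣ a := hc.dvd_of_dvd_mul_right ⟨b, h1.symm⟩
    by_cases ha : a = 0
    · rw [ha, zero_dvd_iff] at e1
      rw [ha, e1]
    · have hn : r.num ≠ 0 := by
        intro h'
        rw [h', zero_dvd_iff] at e2
        exact ha e2
      exact le_antisymm (natDegree_le_of_dvd e1 hn) (natDegree_le_of_dvd e2 ha)
  unfold rht
  rw [h2, h3]

lemma lead {p q : k[X]} (h : q ≠ 0) {n : ℕ} (hn : n = max p.natDegree q.natDegree) :
    p.coeff n ≠ 0 ∨ q.coeff n ≠ 0 := by
  rcases le_total p.natDegree q.natDegree with h1 | h1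
  · right
    rw [hn, max_eq_right h1]
    exact leadingCoeff_ne_zero.2 h
  · by_cases hp : p = 0
    · right
      rw [hp, natDegree_zero] at h1 hn
      rw [hn, max_eq_right (Nat.zero_le _)]
      exact leadingCoeff_ne_zero.2 h
    · left
      rw [hn, max_eq_left h1]
      exact leadingCoeff_ne_zero.2 hp

lemma cmul {p q : k[X]} {m n : ℕ} (hp : p.natDegree ≤ m) (hq : q.natDegree ≤ n) :
    (p * q).coeff (m + n) = p.coeff m * q.coeff n := coeff_mul_add_eq_of_natDegree_le hp hq

lemma dmul {p q : k[X]} {m n : ℕ} (hp : p.natDegree ≤ m) (hq : q.natDegree ≤ n) :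
    (p * q).natDegree ≤ m + n := natDegree_mul_le_of_le hp hq

lemma dsub {p q : k[X]} {m : ℕ} (hp : p.natDegree ≤ m) (hq : q.natDegree ≤ m) :
    (p - q).natDegree ≤ m := (natDegree_sub_le_of_le hp hq).trans (max_self m).le

lemma dadd {p q : k[X]} {m : ℕ} (hp : p.natDegree ≤ m) (hq : q.natDegree ≤ m) :
    (p + q).natDegree ≤ m := natDegree_add_le_of_degree_le hp hq

lemma dC {p : k[X]} {m : ℕ} (c : k) (hp : p.natDegree ≤ m) :
    (Polynomial.C c * p).natDegree ≤ m := (natDegree_C_mul_le c p).trans hp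

lemma rht_double (h2 : (2 : k) ≠ 0) {l : k} (h0 : l ≠ 0) (h1 : l ≠ 1) {X Y : RatFunc k}
    (hX0 : X ≠ 0) (hX1 : X ≠ 1) (hXl : X ≠ RatFunc.C l)
    (h : Y * (4 * (X * (X - 1) * (X - RatFunc.C l))) = (X ^ 2 - RatFunc.C l) ^ 2) :
    rht Y = 4 * rht X := by
  set p := X.num with hp
  set q := X.denom with hq
  have hq0 : q ≠ 0 := X.denom_ne_zero
  have hpq : IsCoprime p q := X.isCoprime_num_denom
  have hXq : X * ι q = ι p := by
    have := RatFunc.num_div_denom X
    rw [div_eq_iff (ι_ne hq0)] at this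
    exact this.symm
  have hp0 : p ≠ 0 := by
    intro h'
    rw [h', map_zero] at hXq
    exact hX0 ((mul_eq_zero.1 hXq).resolve_right (ι_ne hq0))
  have hpq0 : p - q ≠ 0 := by
    intro h'
    have h3 : ι p - ι q = 0 := by rw [← map_sub, h', map_zero]
    rw [← hXq] at h3
    have h4 : (X - 1) * ι q = 0 := by linear_combination h3
    exact hX1 (sub_eq_zero.1 ((mul_eq_zero.1 h4).resolve_right (ι_ne hq0)))
  have hplq0 : p - Polynomial.C l * q ≠ 0 := by
    intro h'
    have h3 : ι p - RatFunc.C l * ι q = 0 := by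
      rw [← ι_C, ← map_mul, ← map_sub, h', map_zero]
    rw [← hXq] at h3
    have h4 : (X - RatFunc.C l) * ι q = 0 := by linear_combination h3
    exact hXl (sub_eq_zero.1 ((mul_eq_zero.1 h4).resolve_right (ι_ne hq0)))
  have h40 : (4 : k) ≠ 0 := by
    have : (4 : k) = 2 * 2 := by norm_num
    rw [this]
    exact mul_ne_zero h2 h2
  have hCl : IsUnit (Polynomial.C l) := isUnit_C.2 (isUnit_iff_ne_zero.2 h0)
  have hC4 : IsUnit (Polynomial.C (4 : k)) := isUnit_C.2 (isUnit_iff_ne_zero.2 h40)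
  set a := (p ^ 2 - Polynomial.C l * q ^ 2) ^ 2 with ha
  set b := Polynomial.C 4 * (p * q * (p - q) * (p - Polynomial.C l * q)) with hb
  have hb0 : b ≠ 0 := by
    rw [hb]
    exact mul_ne_zero hC4.ne_zero (mul_ne_zero (mul_ne_zero (mul_ne_zero hp0 hq0) hpq0) hplq0)
  have hYb : Y * ι b = ι a := by
    rw [ha, hb]
    simp only [map_mul, map_sub, map_pow, ι_C]
    rw [← hXq]
    have e4 : (RatFunc.C (4 : k) : RatFunc k) = 4 := map_ofNat _ 4
    rw [e4]
    linear_combination (ι q) ^ 4 * h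
  have hcop : IsCoprime a b := by
    rw [ha, hb]
    apply IsCoprime.pow_left
    have c1 : IsCoprime (p ^ 2 - Polynomial.C l * q ^ 2) p := by
      have e1 : p ^ 2 - Polynomial.C l * q ^ 2 = -(Polynomial.C l * q ^ 2) + p * p := by ring
      rw [e1]
      apply IsCoprime.add_mul_left_left
      apply IsCoprime.neg_left
      exact (isCoprime_mul_unit_left_left hCl _ _).2 (hpq.symm.pow_left)
    have c2 : IsCoprime (p ^ 2 - Polynomial.C l * q ^ 2) q := by
      have e1 : p ^ 2 - Polynomial.C l * q ^ 2 = p ^ 2 + q * (-(Polynomial.C l * q)) := by ring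
      rw [e1]
      apply IsCoprime.add_mul_left_left
      exact hpq.pow_left
    have c3 : IsCoprime q (p - q) := by
      have e1 : p - q = p + q * (-1) := by ring
      rw [e1]
      exact IsCoprime.add_mul_left_right hpq.symm _
    have c4 : IsCoprime q (p - Polynomial.C l * q) := by
      have e1 : p - Polynomial.C l * q = p + q * (-Polynomial.C l) := by ring
      rw [e1]
      exact IsCoprime.add_mul_left_right hpq.symm _
    have c5 : IsCoprime (p ^ 2 - Polynomial.C l * q ^ 2) (p - q) := by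
      have e1 : p ^ 2 - Polynomial.C l * q ^ 2 =
          Polynomial.C (1 - l) * q ^ 2 + (p - q) * (p + q) := by
        rw [C_sub, C_1]
        ring
      rw [e1]
      apply IsCoprime.add_mul_left_left
      refine (isCoprime_mul_unit_left_left ?_ _ _).2 (c3.pow_left)
      exact isUnit_C.2 (isUnit_iff_ne_zero.2 (sub_ne_zero.2 (Ne.symm h1)))
    have c6 : IsCoprime (p ^ 2 - Polynomial.C l * q ^ 2) (p - Polynomial.C l * q) := by
      have e1 : p ^ 2 - Polynomial.C l * q ^ 2 =
          Polynomial.C (l * (l - 1)) * q ^ 2 + (p - Polynomial.C l * q) * (p + Polynomial.C l * q) := by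
        rw [C_mul, C_sub, C_1]
        ring
      rw [e1]
      apply IsCoprime.add_mul_left_left
      refine (isCoprime_mul_unit_left_left ?_ _ _).2 (c4.pow_left)
      exact isUnit_C.2 (isUnit_iff_ne_zero.2 (mul_ne_zero h0 (sub_ne_zero.2 h1)))
    refine (isCoprime_mul_unit_left_right hC4 _ _).2 ?_
    exact ((c1.mul_right c2).mul_right c5).mul_right c6
  rw [rht_coprime hb0 hcop hYb]
  set n := max p.natDegree q.natDegree with hn
  have hrX : rht X = n := rfl
  rw [hrX]
  have dp : p.natDegree ≤ n := le_max_left _ _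
  have dq : q.natDegree ≤ n := le_max_right _ _
  have da0 : (p * p - Polynomial.C l * (q * q)).natDegree ≤ n + n :=
    dsub (dmul dp dp) (dC l (dmul dq dq))
  have ea : a = (p * p - Polynomial.C l * (q * q)) * (p * p - Polynomial.C l * (q * q)) := by
    rw [ha]; ring
  have eb : b = Polynomial.C 4 * ((p * q) * ((p - q) * (p - Polynomial.C l * q))) := by
    rw [hb]; ring
  have dpq := dsub dp dq
  have dplq := dsub dp (dC l dq)
  have da : a.natDegree ≤ (n + n) + (n + n) := by
    rw [ea]; exact dmul da0 da0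
  have db : b.natDegree ≤ (n + n) + (n + n) := by
    rw [eb]; exact dC _ (dmul (dmul dp dq) (dmul dpq dplq))
  have ca : a.coeff ((n + n) + (n + n)) =
      (p.coeff n * p.coeff n - l * (q.coeff n * q.coeff n)) ^ 2 := by
    rw [ea, cmul da0 da0, coeff_sub, coeff_C_mul, cmul dp dp, cmul dq dq]
    ring
  have cb : b.coeff ((n + n) + (n + n)) =
      4 * (p.coeff n * q.coeff n * ((p.coeff n - q.coeff n) * (p.coeff n - l * q.coeff n))) := by
    rw [eb, coeff_C_mul, cmul (dmul dp dq) (dmul dpq dplq), cmul dp dq, cmul dpq dplq, coeff_sub,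
      coeff_sub, coeff_C_mul]
  have hlead := lead hq0 hn
  have hne : a.coeff ((n + n) + (n + n)) ≠ 0 ∨ b.coeff ((n + n) + (n + n)) ≠ 0 := by
    rw [ca, cb]
    by_contra hcon
    push Not at hcon
    obtain ⟨z1, z2⟩ := hcon
    generalize p.coeff n = u at z1 z2 hlead
    generalize q.coeff n = v at z1 z2 hlead
    have z1' : u * u - l * (v * v) = 0 := by
      rcases pow_eq_zero_iff (two_ne_zero) |>.1 z1 with h'
      exact h'
    have z2' := (mul_eq_zero.1 z2).resolve_left h40
    rcases mul_eq_zero.1 z2' with h' | h'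
    · have huv : u = 0 ∧ v = 0 := by
        rcases mul_eq_zero.1 h' with h'' | h''
        · refine ⟨h'', ?_⟩
          rw [h'', zero_mul, zero_sub, neg_eq_zero] at z1'
          exact mul_self_eq_zero.1 ((mul_eq_zero.1 z1').resolve_left h0)
        · refine ⟨?_, h''⟩
          rw [h'', zero_mul, mul_zero, sub_zero] at z1'
          exact mul_self_eq_zero.1 z1'
      rcases hlead with h'' | h''
      · exact h'' huv.1
      · exact h'' huv.2
    · have hv : v = 0 := by
        rcases mul_eq_zero.1 h' with h'' | h''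
        · have huv : u = v := sub_eq_zero.1 h''
          rw [huv] at z1'
          have : (1 - l) * (v * v) = 0 := by linear_combination z1'
          exact mul_self_eq_zero.1 ((mul_eq_zero.1 this).resolve_left (sub_ne_zero.2 (Ne.symm h1)))
        · have huv : u = l * v := sub_eq_zero.1 h''
          rw [huv] at z1'
          have : (l * (l - 1)) * (v * v) = 0 := by linear_combination z1'
          exact mul_self_eq_zero.1
            ((mul_eq_zero.1 this).resolve_left (mul_ne_zero h0 (sub_ne_zero.2 h1)))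
      have hu : u = 0 := by
        rw [hv, zero_mul, mul_zero, sub_zero] at z1'
        exact mul_self_eq_zero.1 z1'
      rcases hlead with h'' | h''
      · exact h'' hu
      · exact h'' hv
  have h4n : (n + n) + (n + n) = 4 * n := by ring
  rw [← h4n]
  apply le_antisymm
  · exact max_le da db
  · rcases hne with h' | h'
    · exact (le_natDegree_of_ne_zero h').trans (le_max_left _ _)
    · exact (le_natDegree_of_ne_zero h').trans (le_max_right _ _)

/-- Gauss lemma for two linear factors -/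
lemma gauss {a b a' b' A B C' : k[X]} (hab : IsCoprime a b) (hab' : IsCoprime a' b')
    (h1 : A * (a * b' + a' * b) = B * (b * b')) (h2 : A * (a * a') = C' * (b * b'))
    (hbb : b * b' ≠ 0) :
    ∃ g, A = g * (b * b') ∧ B = g * (a * b' + a' * b) ∧ C' = g * (a * a') := by
  have hI : (Ideal.span {a * a', b * b', a * b' + a' * b} : Ideal k[X]) = ⊤ := by
    rw [← Ideal.radical_eq_top, Ideal.eq_top_iff_one]
    set I := (Ideal.span {a * a', b * b', a * b' + a' * b} : Ideal k[X]) with hI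
    have m1 : a * a' ∈ I := Ideal.subset_span (by simp)
    have m2 : b * b' ∈ I := Ideal.subset_span (by simp)
    have m3 : a * b' + a' * b ∈ I := Ideal.subset_span (by simp)
    have m4 : a * b' ∈ I.radical := by
      refine ⟨2, ?_⟩
      have : (a * b') ^ 2 = (a * b') * (a * b' + a' * b) - (b * b') * (a * a') := by ring
      rw [this]
      exact I.sub_mem (I.mul_mem_left _ m3) (I.mul_mem_left _ m1)
    have m5 : a' * b ∈ I.radical := by
      have : a' * b = (a * b' + a' * b) - a * b' := by ring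
      rw [this]
      exact I.radical.sub_mem (Ideal.le_radical m3) m4
    obtain ⟨u, v, huv⟩ := hab
    obtain ⟨u', v', huv'⟩ := hab'
    have : (1 : k[X]) = u * u' * (a * a') + v * v' * (b * b') + u * v' * (a * b') +
        v * u' * (a' * b) := by
      calc (1 : k[X]) = (u * a + v * b) * (u' * a' + v' * b') := by rw [huv, huv', one_mul]
        _ = _ := by ring
    rw [this]
    refine I.radical.add_mem (I.radical.add_mem (I.radical.add_mem ?_ ?_) ?_) ?_
    · exact I.radical.mul_mem_left _ (Ideal.le_radical m1)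
    · exact I.radical.mul_mem_left _ (Ideal.le_radical m2)
    · exact I.radical.mul_mem_left _ m4
    · exact I.radical.mul_mem_left _ m5
  have hone : (1 : k[X]) ∈ Ideal.span {a * a', b * b', a * b' + a' * b} := by
    rw [hI]; exact Submodule.mem_top
  rw [Ideal.mem_span_insert] at hone
  obtain ⟨u, z, hz, h1z⟩ := hone
  rw [Ideal.mem_span_pair] at hz
  obtain ⟨v, w, hvw⟩ := hz
  have hA : A = (u * C' + v * A + w * B) * (b * b') := by
    have : A = A * (u * (a * a') + (v * (b * b') + w * (a * b' + a' * b))) := by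
      rw [hvw, ← h1z, mul_one]
    calc A = A * (u * (a * a') + (v * (b * b') + w * (a * b' + a' * b))) := this
      _ = u * (A * (a * a')) + v * A * (b * b') + w * (A * (a * b' + a' * b)) := by ring
      _ = _ := by rw [h1, h2]; ring
  refine ⟨u * C' + v * A + w * B, hA, ?_, ?_⟩
  · apply mul_right_cancel₀ hbb
    rw [← h1]
    nth_rewrite 1 [hA]
    ring
  · apply mul_right_cancel₀ hbb
    rw [← h2]
    nth_rewrite 1 [hA]
    ring

lemma rht_pair {X1 X2 X3 X4 : RatFunc k} {l : k} (hX : X1 ≠ X2)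
    (hs : (X3 + X4) * (X1 - X2) ^ 2 =
      2 * ((X1 + X2) * (X1 * X2 + RatFunc.C l) - 2 * (1 + RatFunc.C l) * (X1 * X2)))
    (hp : (X3 * X4) * (X1 - X2) ^ 2 = (X1 * X2 - RatFunc.C l) ^ 2) :
    rht X3 + rht X4 ≤ 2 * rht X1 + 2 * rht X2 := by
  have hf : ∀ X : RatFunc k, X * ι X.denom = ι X.num := by
    intro X
    have := RatFunc.num_div_denom X
    rw [div_eq_iff (ι_ne X.denom_ne_zero)] at this
    exact this.symm
  set p1 := X1.num
  set q1 := X1.denom with hq1
  set p2 := X2.num
  set q2 := X2.denom with hq2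
  set a := X3.num
  set b := X3.denom with hb
  set a' := X4.num
  set b' := X4.denom with hb'
  have f1 : X1 * ι q1 = ι p1 := hf X1
  have f2 : X2 * ι q2 = ι p2 := hf X2
  have f3 : X3 * ι b = ι a := hf X3
  have f4 : X4 * ι b' = ι a' := hf X4
  have q10 : q1 ≠ 0 := X1.denom_ne_zero
  have q20 : q2 ≠ 0 := X2.denom_ne_zero
  have b0 : b ≠ 0 := X3.denom_ne_zero
  have b'0 : b' ≠ 0 := X4.denom_ne_zero
  have hab : IsCoprime a b := X3.isCoprime_num_denom
  have hab' : IsCoprime a' b' := X4.isCoprime_num_denom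
  set A : k[X] := (p1 * q2 - p2 * q1) * (p1 * q2 - p2 * q1) with hA
  set B : k[X] := Polynomial.C 2 * ((p1 * q2 + p2 * q1) * (p1 * p2 + Polynomial.C l * (q1 * q2)) -
    Polynomial.C (2 * (1 + l)) * ((p1 * q2) * (p2 * q1))) with hB
  set C' : k[X] := (p1 * p2 - Polynomial.C l * (q1 * q2)) * (p1 * p2 - Polynomial.C l * (q1 * q2))
    with hC
  have e2 : (RatFunc.C (2 : k) : RatFunc k) = 2 := map_ofNat _ 2
  have hA0 : A ≠ 0 := by
    rw [hA]
    refine mul_self_ne_zero.2 ?_
    intro h'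
    have h3 : ι p1 * ι q2 - ι p2 * ι q1 = 0 := by rw [← map_mul, ← map_mul, ← map_sub, h', map_zero]
    rw [← f1, ← f2] at h3
    have h4 : (X1 - X2) * (ι q1 * ι q2) = 0 := by linear_combination h3
    exact hX (sub_eq_zero.1 ((mul_eq_zero.1 h4).resolve_right (mul_ne_zero (ι_ne q10) (ι_ne q20))))
  have k1 : (X3 + X4) * ι A = ι B := by
    rw [hA, hB]
    simp only [map_mul, map_sub, map_add, ι_C, e2, map_one]
    rw [← f1, ← f2]
    linear_combination (ι q1 * ι q2) ^ 2 * hs
  have k2 : (X3 * X4) * ι A = ι C' := by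
    rw [hA, hC]
    simp only [map_mul, map_sub, map_add, ι_C]
    rw [← f1, ← f2]
    linear_combination (ι q1 * ι q2) ^ 2 * hp
  have g1 : A * (a * b' + a' * b) = B * (b * b') := by
    rw [← ι_inj]
    simp only [map_mul, map_add]
    rw [← k1, ← f3, ← f4]
    ring
  have g2 : A * (a * a') = C' * (b * b') := by
    rw [← ι_inj]
    simp only [map_mul]
    rw [← k2, ← f3, ← f4]
    ring
  obtain ⟨g, gA, gB, gC⟩ := gauss hab hab' g1 g2 (mul_ne_zero b0 b'0)
  have hg0 : g ≠ 0 := by
    intro h'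
    rw [h', zero_mul] at gA
    exact hA0 gA
  set n1 := max p1.natDegree q1.natDegree with hn1
  set n2 := max p2.natDegree q2.natDegree with hn2
  set n3 := max a.natDegree b.natDegree with hn3
  set n4 := max a'.natDegree b'.natDegree with hn4
  change n3 + n4 ≤ 2 * n1 + 2 * n2
  have d1 : p1.natDegree ≤ n1 := le_max_left _ _
  have d2 : q1.natDegree ≤ n1 := le_max_right _ _
  have d3 : p2.natDegree ≤ n2 := le_max_left _ _
  have d4 : q2.natDegree ≤ n2 := le_max_right _ _
  have d5 : a.natDegree ≤ n3 := le_max_left _ _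
  have d6 : b.natDegree ≤ n3 := le_max_right _ _
  have d7 : a'.natDegree ≤ n4 := le_max_left _ _
  have d8 : b'.natDegree ≤ n4 := le_max_right _ _
  have d9 : (p2 * q1).natDegree ≤ n1 + n2 := (dmul d3 d2).trans (by omega)
  have dA : A.natDegree ≤ 2 * n1 + 2 * n2 := by
    have h1 : (p1 * q2 - p2 * q1).natDegree ≤ n1 + n2 := dsub (dmul d1 d4) d9
    rw [hA]
    exact (dmul h1 h1).trans (by omega)
  have dB : B.natDegree ≤ 2 * n1 + 2 * n2 := by
    have h1 : (p1 * q2 + p2 * q1).natDegree ≤ n1 + n2 := dadd (dmul d1 d4) d9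
    have h2 : (p1 * p2 + Polynomial.C l * (q1 * q2)).natDegree ≤ n1 + n2 :=
      dadd (dmul d1 d3) (dC _ (dmul d2 d4))
    rw [hB]
    exact (dC _ (dsub (dmul h1 h2) (dC _ (dmul (dmul d1 d4) d9)))).trans (by omega)
  have dC' : C'.natDegree ≤ 2 * n1 + 2 * n2 := by
    have h2 : (p1 * p2 - Polynomial.C l * (q1 * q2)).natDegree ≤ n1 + n2 :=
      dsub (dmul d1 d3) (dC _ (dmul d2 d4))
    rw [hC]
    exact (dmul h2 h2).trans (by omega)
  have fin : ∀ z Z : k[X], Z = g * z → Z.natDegree ≤ 2 * n1 + 2 * n2 → z.coeff (n3 + n4) ≠ 0 →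
      n3 + n4 ≤ 2 * n1 + 2 * n2 := by
    intro z Z hZ hd hz
    have hz0 : z ≠ 0 := by
      intro h'
      rw [h', coeff_zero] at hz
      exact hz rfl
    have h1 := le_natDegree_of_ne_zero hz
    have h2 : Z.natDegree = g.natDegree + z.natDegree := by rw [hZ, natDegree_mul hg0 hz0]
    omega
  have l3 := lead b0 hn3
  have l4 := lead b'0 hn4
  have c1 : (b * b').coeff (n3 + n4) = b.coeff n3 * b'.coeff n4 := cmul d6 d8
  have c2 : (a * a').coeff (n3 + n4) = a.coeff n3 * a'.coeff n4 := cmul d5 d7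
  have c3 : (a * b' + a' * b).coeff (n3 + n4) =
      a.coeff n3 * b'.coeff n4 + a'.coeff n4 * b.coeff n3 := by
    rw [coeff_add, cmul d5 d8, add_comm n3 n4, cmul d7 d6]
  by_cases z1 : b.coeff n3 = 0
  · have u1 : a.coeff n3 ≠ 0 := l3.resolve_right (fun h' => h' z1)
    by_cases z2 : b'.coeff n4 = 0
    · have u2 : a'.coeff n4 ≠ 0 := l4.resolve_right (fun h' => h' z2)
      refine fin _ _ gC dC' ?_
      rw [c2]
      exact mul_ne_zero u1 u2
    · refine fin _ _ gB dB ?_
      rw [c3, z1, mul_zero, add_zero]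
      exact mul_ne_zero u1 z2
  · by_cases z2 : b'.coeff n4 = 0
    · have u2 : a'.coeff n4 ≠ 0 := l4.resolve_right (fun h' => h' z2)
      refine fin _ _ gB dB ?_
      rw [c3, z2, mul_zero, zero_add]
      exact mul_ne_zero u2 z1
    · refine fin _ _ gA dA ?_
      rw [c1]
      exact mul_ne_zero z1 z2

lemma rht_C (c : k) : rht (RatFunc.C c : RatFunc k) = 0 := by
  have h := rht_coprime (r := RatFunc.C c) (a := Polynomial.C c) (b := 1) one_ne_zero
    isCoprime_one_right (by rw [map_one, mul_one, ι_C])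
  rw [h, natDegree_C, natDegree_one, max_self]

end Rht

section Pts

variable {k : Type*} [Field k]

lemma ht_some {D l x y : RatFunc k} (h : (crv 0 D (l * D)).toAffine.Nonsingular x y) :
    ht (.some x y h : WD D l) = rht (x / D) := rfl

lemma ht_zero {D l : RatFunc k} : ht (0 : WD D l) = 0 := rfl

lemma ht_neg {D l : RatFunc k} (P : WD D l) : ht (-P) = ht P := by
  rcases P with _ | ⟨x, y, h⟩
  · rfl
  · rfl

end Pts

end B2ab

section

variable {k : Type*} [Field k]

open B2ab

/-- B2a -/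
theorem ht_double [DecidableEq (RatFunc k)] (h2 : (2 : k) ≠ 0) {D : RatFunc k} (hD : D ≠ 0) {l : k}
    (h0 : l ≠ 0) (h1 : l ≠ 1) (P : WD D (RatFunc.C l)) : ht (P + P) = 4 * ht P := by
  rcases P with _ | ⟨x, y, h⟩
  · change ht ((0 : WD D (RatFunc.C l)) + 0) = 4 * ht (0 : WD D (RatFunc.C l))
    rw [add_zero, ht_zero]
  · have e := eqn h
    have h2' : (2 : RatFunc k) ≠ 0 := by
      have : (2 : RatFunc k) = RatFunc.C 2 := (map_ofNat _ 2).symm
      rw [this]
      exact (_root_.map_ne_zero _).2 h2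
    have hx : x = (x / D) * D := (div_mul_cancel₀ x hD).symm
    by_cases hy : y = 0
    · rw [dbl_zero hy, ht_zero, ht_some]
      rw [hy] at e
      have e' : x * (x - D) * (x - RatFunc.C l * D) = 0 := by rw [← e]; ring
      have : rht (x / D) = 0 := by
        rcases mul_eq_zero.1 e' with h' | h'
        · rcases mul_eq_zero.1 h' with h'' | h''
          · rw [h'', zero_div]
            have := rht_C (0 : k)
            rwa [map_zero] at this
          · rw [sub_eq_zero.1 h'', div_self hD]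
            have := rht_C (1 : k)
            rwa [map_one] at this
        · rw [sub_eq_zero.1 h', mul_div_cancel_right₀ _ hD]
          exact rht_C l
      rw [this]
    · obtain ⟨x3, y3, h3, hadd, heq⟩ := dbl h2' (h := h) hy
      rw [hadd, ht_some, ht_some]
      have hy2 : x * (x - D) * (x - RatFunc.C l * D) ≠ 0 := by
        rw [← e]
        exact pow_ne_zero 2 hy
      have n0 : x ≠ 0 := fun h' => hy2 (by rw [h']; ring)
      have n1 : x ≠ D := fun h' => hy2 (by rw [h']; ring)
      have n2 : x ≠ RatFunc.C l * D := fun h' => hy2 (by rw [h']; ring)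
      refine rht_double h2 h0 h1 (div_ne_zero n0 hD) ?_ ?_ ?_
      · intro h'
        rw [div_eq_iff hD, one_mul] at h'
        exact n1 h'
      · intro h'
        rw [div_eq_iff hD] at h'
        exact n2 h'
      · field_simp
        linear_combination heq

/-- B2b -/
theorem ht_add_sub_le [DecidableEq (RatFunc k)] (h2 : (2 : k) ≠ 0) {D : RatFunc k} (hD : D ≠ 0)
    {l : k} (h0 : l ≠ 0) (h1 : l ≠ 1) (P Q : WD D (RatFunc.C l)) :
    ht (P + Q) + ht (P - Q) ≤ 2 * ht P + 2 * ht Q := by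
  by_cases hPQ : P = Q
  · subst hPQ
    rw [sub_self, ht_double h2 hD h0 h1, ht_zero]
    omega
  by_cases hPQ' : P = -Q
  · subst hPQ'
    rw [neg_add_cancel, ht_zero, sub_eq_add_neg, ht_double h2 hD h0 h1, ht_neg]
    omega
  rcases P with _ | ⟨x1, y1, g1⟩
  · change ht ((0 : WD D (RatFunc.C l)) + Q) + ht (0 - Q) ≤ 2 * ht (0 : WD D (RatFunc.C l)) + 2 * ht Q
    rw [zero_add, zero_sub, ht_neg, ht_zero]
    omega
  rcases Q with _ | ⟨x2, y2, g2⟩
  · change ht ((.some x1 y1 g1 : WD D (RatFunc.C l)) + 0) +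
      ht ((.some x1 y1 g1 : WD D (RatFunc.C l)) - 0) ≤
      2 * ht (.some x1 y1 g1 : WD D (RatFunc.C l)) + 2 * ht (0 : WD D (RatFunc.C l))
    rw [add_zero, sub_zero, ht_zero]
    omega
  have hx : x1 ≠ x2 := by
    intro h'
    rcases WeierstrassCurve.Affine.Point.X_eq_iff.1 h' with h'' | h''
    · exact hPQ h''
    · exact hPQ' h''
  obtain ⟨x3, y3, g3, x4, y4, g4, ha, hs, e1, e2⟩ := add_sub (h1 := g1) (h2 := g2) hx
  rw [ha, hs, ht_some, ht_some, ht_some, ht_some]
  refine rht_pair (l := l) ?_ ?_ ?_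
  · intro h'
    rw [div_left_inj' hD] at h'
    exact hx h'
  · field_simp
    linear_combination e1
  · field_simp
    linear_combination e2

end

end Pool.Agent.H918R3
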