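import Pool.Agent.H918R3.Defs
import Pool.Agent.H918R3.TB0

set_option autoImplicit false

/-!
# Tasks B2c, B2d, B4 (helper1): `ht_zsmul`, `ht_eq_zero`, `descent`

`ht_zsmul_of` and `descent_of` have the statements of tasks B2a, B2b as hypotheses.
-/

namespace Pool.Agent.H918R3

open Polynomial

namespace TB2c

section abs

variable {G : Type*} [AddCommGroup G] {h : G → ℕ}

theorem h_zero (hdbl : ∀ P, h (P + P) = 4 * h P) : h 0 = 0 := by
  have := hdbl 0
  rw [add_zero] at this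
  omega

theorem par (hdbl : ∀ P, h (P + P) = 4 * h P)
    (hsub : ∀ P Q, h (P + Q) + h (P - Q) ≤ 2 * h P + 2 * h Q) (P Q : G) :
    h (P + Q) + h (P - Q) = 2 * h P + 2 * h Q := by
  have h1 := hsub (P + Q) (P - Q)
  have e1 : P + Q + (P - Q) = P + P := by abel
  have e2 : P + Q - (P - Q) = Q + Q := by abel
  rw [e1, e2, hdbl, hdbl] at h1
  have h2 := hsub P Q
  omega

theorem h_neg (hdbl : ∀ P, h (P + P) = 4 * h P)
    (hpar : ∀ P Q, h (P + Q) + h (P - Q) = 2 * h P + 2 * h Q) (P : G) : h (-P) = h P := by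
  have h1 := hpar 0 P
  rw [h_zero hdbl, zero_add, zero_sub] at h1
  omega

theorem h_nsmul (hdbl : ∀ P, h (P + P) = 4 * h P)
    (hpar : ∀ P Q, h (P + Q) + h (P - Q) = 2 * h P + 2 * h Q) (P : G) :
    ∀ n : ℕ, h (n • P) = n ^ 2 * h P := by
  intro n
  induction n using Nat.strong_induction_on with
  | _ n ih =>
    match n with
    | 0 => simp [h_zero hdbl]
    | 1 => simp
    | (n + 2) =>
      have h1 := hpar ((n + 1) • P) P
      have e1 : (n + 1) • P + P = (n + 2) • P := by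
        rw [show n + 2 = (n + 1) + 1 by ring, add_nsmul (P) (n + 1) 1, one_nsmul]
      have e2 : (n + 1) • P - P = n • P := by
        rw [add_nsmul, one_nsmul]; abel
      rw [e1, e2, ih n (by omega), ih (n + 1) (by omega)] at h1
      zify at h1 ⊢
      linear_combination h1

theorem h_zsmul (hdbl : ∀ P, h (P + P) = 4 * h P)
    (hpar : ∀ P Q, h (P + Q) + h (P - Q) = 2 * h P + 2 * h Q) (n : ℤ) (P : G) :
    h (n • P) = n.natAbs ^ 2 * h P := by
  rcases Int.natAbs_eq n with hn | hn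
  · conv_lhs => rw [hn]
    rw [natCast_zsmul, h_nsmul hdbl hpar]
  · conv_lhs => rw [hn]
    rw [neg_zsmul, h_neg hdbl hpar, natCast_zsmul, h_nsmul hdbl hpar]

theorem h_tors (hdbl : ∀ P, h (P + P) = 4 * h P)
    (hpar : ∀ P Q, h (P + Q) + h (P - Q) = 2 * h P + 2 * h Q) (P T : G) (hT : T + T = 0) :
    h (P + T) = h P ∧ h T = 0 := by
  have hT0 : h T = 0 := by
    have := hdbl T
    rw [hT, h_zero hdbl] at this
    omega
  refine ⟨?_, hT0⟩
  have h1 := hpar P T
  have e1 : P - T = P + T := by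
    have : -T = T := neg_eq_of_add_eq_zero_left hT
    rw [sub_eq_add_neg, this]
  rw [e1, hT0] at h1
  omega

theorem desc (hdbl : ∀ P, h (P + P) = 4 * h P)
    (hpar : ∀ P Q, h (P + Q) + h (P - Q) = 2 * h P + 2 * h Q)
    (hz : ∀ P, h P = 0 → P + P = 0) (P0 : G) (hP0 : h P0 ≤ 1)
    (H : ∀ R : G, ∃ (m : ℤ) (T S : G), T + T = 0 ∧ R = m • P0 + T + (S + S)) :
    ∀ (N : ℕ) (R : G), h R = N → ∃ (n : ℤ) (T : G), T + T = 0 ∧ R = n • P0 + T := by
  intro N
  induction N using Nat.strong_induction_on with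
  | _ N ih =>
    intro R hR
    rcases Nat.eq_zero_or_pos N with h0 | hpos
    · exact ⟨0, R, hz R (by omega), by rw [zero_zsmul, zero_add]⟩
    obtain ⟨m, T, S, hT, hRe⟩ := H R
    have hTn : -T = T := neg_eq_of_add_eq_zero_left hT
    rcases Int.even_or_odd' m with ⟨q, hq | hq⟩
    · -- `m` even
      obtain ⟨S', hS'⟩ : ∃ S', S' = S + q • P0 := ⟨_, rfl⟩
      have h1 : R = T + (S' + S') := by
        rw [hRe, hS', hq, two_mul, add_zsmul]; abel
      have h2 : h (S' + S') = h R := by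
        rw [h1, add_comm T]
        exact (h_tors hdbl hpar _ T hT).1.symm
      have h3 := hdbl S'
      obtain ⟨n, T', hT', hS⟩ := ih (h S') (by omega) S' rfl
      refine ⟨2 * n, T, hT, ?_⟩
      rw [h1, hS, two_mul, add_zsmul]
      calc T + (n • P0 + T' + (n • P0 + T')) = (n • P0 + n • P0 + T) + (T' + T') := by abel
        _ = n • P0 + n • P0 + T := by rw [hT', add_zero]
    · -- `m` odd
      obtain ⟨S', hS'⟩ : ∃ S', S' = S + q • P0 := ⟨_, rfl⟩
      have h1 : R = P0 + T + (S' + S') := by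
        rw [hRe, hS', hq, add_zsmul, two_mul, add_zsmul, one_zsmul]; abel
      have hQ : h (P0 + T) = h P0 := (h_tors hdbl hpar P0 T hT).1
      have h2 : R - (P0 + T) = S' + S' := by rw [h1]; abel
      have h3 := hpar R (P0 + T)
      rw [h2, hdbl, hQ] at h3
      by_cases hR2 : 2 ≤ h R
      · obtain ⟨n, T', hT', hS⟩ := ih (h S') (by omega) S' rfl
        refine ⟨2 * n + 1, T, hT, ?_⟩
        rw [h1, hS, add_zsmul, two_mul, add_zsmul, one_zsmul]
        calc P0 + T + (n • P0 + T' + (n • P0 + T')) =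
              (n • P0 + n • P0 + P0 + T) + (T' + T') := by abel
          _ = n • P0 + n • P0 + P0 + T := by rw [hT', add_zero]
      · have hR1 : h R = 1 := by omega
        by_cases hS0 : h S' = 0
        · have h4 := hz S' hS0
          refine ⟨1, T, hT, ?_⟩
          rw [h1, h4, add_zero, one_zsmul]
        · have h5 : h (R + (P0 + T)) = 0 := by omega
          have h6 := hz _ h5
          refine ⟨-1, (R + (P0 + T)) - T, ?_, ?_⟩
          · calc (R + (P0 + T)) - T + ((R + (P0 + T)) - T) =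
                (R + (P0 + T)) + (R + (P0 + T)) - (T + T) := by abel
              _ = 0 := by rw [h6, hT, sub_zero]
          · rw [neg_one_zsmul]; abel

end abs

end TB2c

open TB2c

variable {k : Type*} [Field k]

/-- B2c, from the statements of B2a and B2b -/
theorem ht_zsmul_of [DecidableEq (RatFunc k)] {D : RatFunc k} {l : k}
    (hdbl : ∀ P : WD D (RatFunc.C l), ht (P + P) = 4 * ht P)
    (hsub : ∀ P Q : WD D (RatFunc.C l), ht (P + Q) + ht (P - Q) ≤ 2 * ht P + 2 * ht Q) :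
    (∀ P Q : WD D (RatFunc.C l), ht (P + Q) + ht (P - Q) = 2 * ht P + 2 * ht Q) ∧
    (∀ (n : ℤ) (P : WD D (RatFunc.C l)), ht (n • P) = n.natAbs ^ 2 * ht P) ∧
    (∀ P T : WD D (RatFunc.C l), T + T = 0 → ht (P + T) = ht P ∧ ht T = 0) :=
  ⟨par hdbl hsub, h_zsmul hdbl (par hdbl hsub), h_tors hdbl (par hdbl hsub)⟩

theorem rht_eq_zero {r : RatFunc k} (h : rht r = 0) : ∃ c : k, r = RatFunc.C c := by
  unfold rht at h
  have h1 : r.num.natDegree = 0 := by omega
  have h2 : r.denom.natDegree = 0 := by omega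
  refine ⟨r.num.coeff 0 / r.denom.coeff 0, ?_⟩
  have h3 := r.num_div_denom
  rw [Polynomial.eq_C_of_natDegree_eq_zero h1, Polynomial.eq_C_of_natDegree_eq_zero h2] at h3
  rw [map_div₀, ← RatFunc.algebraMap_C, ← RatFunc.algebraMap_C]
  exact h3.symm

theorem ht_zero [DecidableEq (RatFunc k)] {D l : RatFunc k} : ht (0 : WD D l) = 0 := rfl

theorem ht_hasX {D l : RatFunc k} (hD : D ≠ 0) {P : WD D l} {ξ : RatFunc k} (h : HasX P ξ) :
    ht P = rht ξ := by
  obtain ⟨y, hy, rfl⟩ := h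
  show rht (ξ * D / D) = rht ξ
  rw [mul_div_cancel_right₀ _ hD]

/-- B2d -/
theorem ht_eq_zero [IsAlgClosed k] [DecidableEq (RatFunc k)] (h2 : (2 : k) ≠ 0) {D : RatFunc k}
    (hD : ¬ IsSquare D) {l : k} (h0 : l ≠ 0) (h1 : l ≠ 1) (P : WD D (RatFunc.C l))
    (hP : ht P = 0) : P + P = 0 := by
  have hD0 : D ≠ 0 := by
    rintro rfl
    exact hD ⟨0, by simp⟩
  have h2' : (2 : RatFunc k) ≠ 0 := by
    have : (2 : RatFunc k) = RatFunc.C 2 := (map_ofNat (RatFunc.C (K := k)) 2).symm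
    rw [this]
    exact (_root_.map_ne_zero _).2 h2
  have h0' : (RatFunc.C l : RatFunc k) ≠ 0 := (_root_.map_ne_zero _).2 h0
  have h1' : (RatFunc.C l : RatFunc k) ≠ 1 := by
    rw [← map_one (RatFunc.C (K := k))]
    exact fun h => h1 (RatFunc.C_injective h)
  obtain ⟨-, -, b3, -, -, b6, b7, -⟩ := pt_basic h2' hD0 h0' h1'
  rcases b6 P with hP0 | ⟨ξ, hξ⟩
  · exact (b7 P).2 (Or.inl hP0)
  rw [ht_hasX hD0 hξ] at hP
  obtain ⟨c, hc⟩ := rht_eq_zero hP
  obtain ⟨w, hw⟩ := b3 P ξ hξ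
  rw [hc] at hw
  have he : (RatFunc.C c : RatFunc k) * (RatFunc.C c - 1) * (RatFunc.C c - RatFunc.C l) =
      RatFunc.C (c * (c - 1) * (c - l)) := by
    simp
  rw [he] at hw
  by_cases hc0 : c * (c - 1) * (c - l) = 0
  · apply (b7 P).2
    right
    rcases mul_eq_zero.1 hc0 with h3 | h3
    · rcases mul_eq_zero.1 h3 with h4 | h4
      · left
        rw [h4, map_zero] at hc
        rwa [← hc]
      · right; left
        rw [sub_eq_zero.1 h4, map_one] at hc
        rwa [← hc]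
    · right; right
      rw [sub_eq_zero.1 h3] at hc
      subst hc
      exact hξ
  · exfalso
    apply hD
    obtain ⟨s, hs⟩ := IsAlgClosed.exists_pow_nat_eq (c * (c - 1) * (c - l)) (n := 2) (by norm_num)
    have hs0 : s ≠ 0 := by
      rintro rfl
      apply hc0
      rw [← hs]
      ring
    have hs0' : (RatFunc.C s : RatFunc k) ≠ 0 := (_root_.map_ne_zero _).2 hs0
    refine ⟨w / RatFunc.C s, ?_⟩
    rw [← hs, map_pow] at hw
    field_simp
    exact hw

/-- B4, from the statements of B2a and B2b -/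
theorem descent_of [IsAlgClosed k] [DecidableEq (RatFunc k)] (h2 : (2 : k) ≠ 0) {D : RatFunc k}
    (hD : ¬ IsSquare D) {l : k} (h0 : l ≠ 0) (h1 : l ≠ 1)
    (hdbl : ∀ P : WD D (RatFunc.C l), ht (P + P) = 4 * ht P)
    (hsub : ∀ P Q : WD D (RatFunc.C l), ht (P + Q) + ht (P - Q) ≤ 2 * ht P + 2 * ht Q)
    (P0 : WD D (RatFunc.C l)) (hP0 : ht P0 ≤ 1)
    (H : ∀ R : WD D (RatFunc.C l), ∃ (m : ℤ) (T S : WD D (RatFunc.C l)), T + T = 0 ∧
      R = m • P0 + T + (S + S)) (R : WD D (RatFunc.C l)) :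
    ∃ (n : ℤ) (T : WD D (RatFunc.C l)), T + T = 0 ∧ R = n • P0 + T :=
  desc hdbl (par hdbl hsub) (ht_eq_zero h2 hD h0 h1) P0 hP0 H _ R rfl

end Pool.Agent.H918R3
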