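import Pool.Agent.H918R3.Defs

set_option autoImplicit false

/-!
Squares among rational functions and the classes of the points (tasks PSQ and B3u).
-/

namespace Pool.Agent.H918R3

open Polynomial

section B3u

variable {k : Type*} [Field k]

/-- the polynomial version of `PS` -/
noncomputable def pol (S : Finset k) : k[X] := ∏ a ∈ S, (X - C a)

theorem PS_eq (S : Finset k) : PS S = algebraMap k[X] (RatFunc k) (pol S) := by
  simp [PS, pol, map_prod, RatFunc.algebraMap_X, RatFunc.algebraMap_C]

theorem pol_ne_zero (S : Finset k) : pol S ≠ 0 :=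
  Finset.prod_ne_zero_iff.mpr (fun a _ => X_sub_C_ne_zero a)

theorem PS_ne_zero (S : Finset k) : PS S ≠ 0 := by
  rw [PS_eq]
  exact RatFunc.algebraMap_ne_zero (pol_ne_zero S)

open Classical in
theorem rm_pol (S : Finset k) (a : k) :
    (pol S).rootMultiplicity a = if a ∈ S then 1 else 0 := by
  have h : (pol S).roots = S.val := by
    unfold pol
    exact roots_prod_X_sub_C S
  rw [← count_roots, h]
  rw [Multiset.count_eq_of_nodup S.nodup]
  simp

theorem rm_mul {f g : k[X]} (hf : f ≠ 0) (hg : g ≠ 0) (a : k) :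
    (f * g).rootMultiplicity a = f.rootMultiplicity a + g.rootMultiplicity a :=
  rootMultiplicity_mul (mul_ne_zero hf hg)

/-- squares have even multiplicities -/
theorem even_of_isSquare {z : RatFunc k} {f g : k[X]} (hf : f ≠ 0) (hg : g ≠ 0)
    (h : z * algebraMap k[X] (RatFunc k) g ^ 2 = algebraMap k[X] (RatFunc k) f)
    (hz : IsSquare z) (a : k) : Even (f.rootMultiplicity a) := by
  obtain ⟨r, rfl⟩ := hz
  have hg' : algebraMap k[X] (RatFunc k) g ≠ 0 := RatFunc.algebraMap_ne_zero hg
  have hf' : algebraMap k[X] (RatFunc k) f ≠ 0 := RatFunc.algebraMap_ne_zero hf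
  have hr : r ≠ 0 := by
    rintro rfl
    apply hf'
    rw [← h]
    simp
  have hn : r.num ≠ 0 := RatFunc.num_ne_zero hr
  have hd : r.denom ≠ 0 := r.denom_ne_zero
  have hd' : algebraMap k[X] (RatFunc k) r.denom ≠ 0 := RatFunc.algebraMap_ne_zero hd
  have e1 : (r.num * g) * (r.num * g) = f * (r.denom * r.denom) := by
    apply RatFunc.algebraMap_injective k
    have e2 : r * algebraMap k[X] (RatFunc k) r.denom = algebraMap k[X] (RatFunc k) r.num := by
      nth_rw 1 [← RatFunc.num_div_denom r]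
      field_simp
    rw [map_mul, map_mul, map_mul, map_mul, ← h, ← e2]
    ring
  have e3 := congrArg (rootMultiplicity a) e1
  have hng : r.num * g ≠ 0 := mul_ne_zero hn hg
  rw [rm_mul hng hng, rm_mul hf (mul_ne_zero hd hd), rm_mul hd hd] at e3
  exact ⟨(r.num * g).rootMultiplicity a - r.denom.rootMultiplicity a, by omega⟩

theorem isSquare_C [IsAlgClosed k] (c : k) : IsSquare (C c : k[X]) := by
  obtain ⟨r, hr⟩ := IsAlgClosed.exists_pow_nat_eq c (n := 2) (by norm_num)
  exact ⟨C r, by rw [← C_mul, ← hr, pow_two]⟩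

theorem isSquare_ratC [IsAlgClosed k] (c : k) : IsSquare (RatFunc.C c : RatFunc k) := by
  obtain ⟨r, hr⟩ := IsAlgClosed.exists_pow_nat_eq c (n := 2) (by norm_num)
  exact ⟨RatFunc.C r, by rw [← map_mul, ← hr, pow_two]⟩

open Classical in
theorem isSquare_of_even [IsAlgClosed k] {f : k[X]}
    (h : ∀ a, Even (f.rootMultiplicity a)) : IsSquare f := by
  have hs : Multiset.card f.roots = f.natDegree :=
    (splits_iff_card_roots.mp (IsAlgClosed.splits f))
  have e1 := C_leadingCoeff_mul_prod_multiset_X_sub_C hs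
  rw [← e1]
  refine IsSquare.mul (isSquare_C _) ?_
  rw [Finset.prod_multiset_map_count]
  refine Finset.isSquare_prod _ (fun a _ => ?_)
  rw [count_roots]
  exact (h a).isSquare_pow _

/-- squares of rational functions in terms of multiplicities -/
theorem isSquare_iff_even [IsAlgClosed k] {z : RatFunc k} {f g : k[X]} (hf : f ≠ 0) (hg : g ≠ 0)
    (h : z * algebraMap k[X] (RatFunc k) g ^ 2 = algebraMap k[X] (RatFunc k) f) :
    IsSquare z ↔ ∀ a, Even (f.rootMultiplicity a) := by
  refine ⟨fun hz a => even_of_isSquare hf hg h hz a, fun h1 => ?_⟩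
  obtain ⟨r, hr⟩ := isSquare_of_even h1
  have hg' : algebraMap k[X] (RatFunc k) g ≠ 0 := RatFunc.algebraMap_ne_zero hg
  refine ⟨algebraMap k[X] (RatFunc k) r / algebraMap k[X] (RatFunc k) g, ?_⟩
  have e1 : z = algebraMap k[X] (RatFunc k) f / algebraMap k[X] (RatFunc k) g ^ 2 := by
    rw [← h]
    field_simp
  rw [e1, hr, map_mul]
  field_simp

theorem ps_square [IsAlgClosed k] [DecidableEq k] :
    (∀ S : Finset k, IsSquare (PS S) ↔ S = ∅) ∧
    (∀ S T : Finset k, ∃ w : RatFunc k, w ≠ 0 ∧ PS S * PS T = PS (symmDiff S T) * w ^ 2) ∧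
    (∀ z : RatFunc k, z ≠ 0 → ∃ S : Finset k, IsSquare (z * PS S)) := by
  refine ⟨fun S => ?_, fun S T => ?_, fun z hz => ?_⟩
  · rw [isSquare_iff_even (pol_ne_zero S) one_ne_zero (z := PS S) (by rw [PS_eq]; simp)]
    constructor
    · intro h
      by_contra hne
      obtain ⟨a, ha⟩ := Finset.nonempty_iff_ne_empty.mpr hne
      have := h a
      rw [rm_pol, if_pos ha] at this
      exact absurd this (by decide)
    · rintro rfl a
      rw [rm_pol]
      simp
  · refine ⟨PS (S ∩ T), PS_ne_zero _, ?_⟩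
    have e1 : S ∪ T = (symmDiff S T) ∪ (S ∩ T) := by
      ext a
      simp only [Finset.mem_union, Finset.mem_symmDiff, Finset.mem_inter]
      tauto
    have e2 : Disjoint (symmDiff S T) (S ∩ T) := by
      rw [Finset.disjoint_left]
      intro a ha hb
      simp only [Finset.mem_symmDiff, Finset.mem_inter] at ha hb
      tauto
    have e3 : PS (S ∪ T) * PS (S ∩ T) = PS S * PS T := Finset.prod_union_inter
    have e4 : PS (S ∪ T) = PS (symmDiff S T) * PS (S ∩ T) := by
      rw [e1]
      exact Finset.prod_union e2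
    rw [← e3, e4]
    ring
  · have hn : z.num ≠ 0 := RatFunc.num_ne_zero hz
    have hd : z.denom ≠ 0 := z.denom_ne_zero
    have hnd : z.num * z.denom ≠ 0 := mul_ne_zero hn hd
    set S := (z.num * z.denom).roots.toFinset.filter
      (fun a => Odd ((z.num * z.denom).rootMultiplicity a)) with hS
    refine ⟨S, ?_⟩
    have hd' : algebraMap k[X] (RatFunc k) z.denom ≠ 0 := RatFunc.algebraMap_ne_zero hd
    have e1 : z * PS S * algebraMap k[X] (RatFunc k) z.denom ^ 2 =
        algebraMap k[X] (RatFunc k) (z.num * z.denom * pol S) := by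
      rw [map_mul, map_mul, ← PS_eq]
      nth_rw 1 [← RatFunc.num_div_denom z]
      field_simp
    rw [isSquare_iff_even (mul_ne_zero hnd (pol_ne_zero S)) hd e1]
    intro a
    rw [rm_mul hnd (pol_ne_zero S), rm_pol]
    by_cases ha : a ∈ S
    · rw [if_pos ha]
      rw [hS, Finset.mem_filter] at ha
      exact ha.2.add_odd odd_one
    · rw [if_neg ha, add_zero]
      by_contra hodd
      rw [Nat.not_even_iff_odd] at hodd
      apply ha
      rw [hS, Finset.mem_filter]
      refine ⟨?_, hodd⟩
      rw [Multiset.mem_toFinset, mem_roots hnd, ← rootMultiplicity_pos hnd]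
      exact hodd.pos

theorem rm_eq_zero_of_not_root {f : k[X]} {a : k} (h : ¬ f.IsRoot a) :
    f.rootMultiplicity a = 0 := rootMultiplicity_eq_zero h

/-- the key step: `S ⊆ A` -/
theorem subset_of_even [IsAlgClosed k] (A : Finset k) {z : RatFunc k} {N M : k[X]} (hN : N ≠ 0)
    (hM : M ≠ 0)
    (h : z * algebraMap k[X] (RatFunc k) M = PS A * algebraMap k[X] (RatFunc k) N)
    (hN2 : ∀ a, a ∉ A → Even (N.rootMultiplicity a))
    (hM2 : ∀ a, a ∉ A → Even (M.rootMultiplicity a)) : ∃ S ⊆ A, IsSquare (z * PS S) := by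
  classical
  have hM' : algebraMap k[X] (RatFunc k) M ≠ 0 := RatFunc.algebraMap_ne_zero hM
  have hN' : algebraMap k[X] (RatFunc k) N ≠ 0 := RatFunc.algebraMap_ne_zero hN
  have hz : z ≠ 0 := by
    rintro rfl
    rw [zero_mul] at h
    exact mul_ne_zero (PS_ne_zero A) hN' h.symm
  obtain ⟨S, hS⟩ := ps_square.2.2 z hz
  refine ⟨S, fun a ha => ?_, hS⟩
  by_contra haA
  have hpA := pol_ne_zero A
  have hpS := pol_ne_zero S
  have hNM : N * M ≠ 0 := mul_ne_zero hN hM
  have e1 : z * PS S * algebraMap k[X] (RatFunc k) M ^ 2 =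
      algebraMap k[X] (RatFunc k) (pol A * pol S * (N * M)) := by
    rw [map_mul, map_mul, map_mul, ← PS_eq, ← PS_eq]
    calc z * PS S * algebraMap k[X] (RatFunc k) M ^ 2 =
        (z * algebraMap k[X] (RatFunc k) M) * PS S * algebraMap k[X] (RatFunc k) M := by ring
      _ = _ := by rw [h]; ring
  have h2 := even_of_isSquare (mul_ne_zero (mul_ne_zero hpA hpS) hNM) hM e1 hS a
  rw [rm_mul (mul_ne_zero hpA hpS) hNM, rm_mul hpA hpS, rm_mul hN hM, rm_pol, rm_pol, if_pos ha,
    if_neg haA] at h2
  have h3 := hN2 a haA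
  have h4 := hM2 a haA
  rw [Nat.even_iff] at h2 h3 h4
  omega

theorem classes [IsAlgClosed k] (h2 : (2 : k) ≠ 0) (A : Finset k) {l : k} (h0 : l ≠ 0) (h1 : l ≠ 1)
    {D : RatFunc k} (hD : D = PS A) (P : WD D (RatFunc.C l)) :
    (∃ S ⊆ A, IsSquare (d0 P * PS S)) ∧ (∃ S ⊆ A, IsSquare (d1 P * PS S)) := by
  classical
  have hD0 : D ≠ 0 := by rw [hD]; exact PS_ne_zero A
  have hPS0 : PS (∅ : Finset k) = 1 := by simp [PS]
  have hsub : (∅ : Finset k) ⊆ A := Finset.empty_subset A
  have hneg : IsSquare (-1 : RatFunc k) := by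
    have := isSquare_ratC (-1 : k)
    rwa [map_neg, map_one] at this
  have hDD : IsSquare (D * PS A) := by rw [hD]; exact ⟨PS A, rfl⟩
  rcases P with _ | ⟨x, y, h⟩
  · have e0 : d0 (WeierstrassCurve.Affine.Point.zero : WD D (RatFunc.C l)) = 1 := rfl
    have e1 : d1 (WeierstrassCurve.Affine.Point.zero : WD D (RatFunc.C l)) = 1 := rfl
    rw [e0, e1]
    exact ⟨⟨∅, hsub, by rw [hPS0]; simp⟩, ⟨∅, hsub, by rw [hPS0]; simp⟩⟩
  have heq : y ^ 2 = x * (x - D) * (x - RatFunc.C l * D) := by
    have := (WeierstrassCurve.Affine.equation_iff _ _).mp h.1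
    simp only [crv] at this
    linear_combination this
  have e0 : d0 (WeierstrassCurve.Affine.Point.some x y h : WD D (RatFunc.C l)) =
      if x = 0 then (0 - D) * (0 - RatFunc.C l * D) else x - 0 := rfl
  have e1 : d1 (WeierstrassCurve.Affine.Point.some x y h : WD D (RatFunc.C l)) =
      if x = D then (D - 0) * (D - RatFunc.C l * D) else x - D := rfl
  rw [e0, e1]
  by_cases hx0 : x = 0
  · rw [if_pos hx0, if_neg (by rw [hx0]; exact hD0.symm), hx0]
    refine ⟨⟨∅, hsub, ?_⟩, ⟨A, Finset.Subset.refl A, ?_⟩⟩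
    · rw [hPS0]
      have : (0 - D) * (0 - RatFunc.C l * D) * 1 = RatFunc.C l * (D * D) := by ring
      rw [this]
      exact (isSquare_ratC l).mul ⟨D, rfl⟩
    · have : (0 - D) * PS A = (-1) * (D * PS A) := by ring
      rw [this]
      exact hneg.mul hDD
  rw [if_neg hx0]
  by_cases hxD : x = D
  · rw [if_pos hxD, hxD]
    refine ⟨⟨A, Finset.Subset.refl A, ?_⟩, ⟨∅, hsub, ?_⟩⟩
    · rw [sub_zero]
      exact hDD
    · rw [hPS0]
      have : (D - 0) * (D - RatFunc.C l * D) * 1 = RatFunc.C (1 - l) * (D * D) := by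
        rw [map_sub, map_one]; ring
      rw [this]
      exact (isSquare_ratC _).mul ⟨D, rfl⟩
  rw [if_neg hxD]
  by_cases hxl : x = RatFunc.C l * D
  · rw [hxl]
    refine ⟨⟨A, Finset.Subset.refl A, ?_⟩, ⟨A, Finset.Subset.refl A, ?_⟩⟩
    · have : (RatFunc.C l * D - 0) * PS A = RatFunc.C l * (D * PS A) := by ring
      rw [this]
      exact (isSquare_ratC _).mul hDD
    · have : (RatFunc.C l * D - D) * PS A = RatFunc.C (l - 1) * (D * PS A) := by
        rw [map_sub, map_one]; ring
      rw [this]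
      exact (isSquare_ratC _).mul hDD
  -- the generic case
  set ξ := x / D with hξ
  have hxξ : x = ξ * D := by rw [hξ]; field_simp
  have hξ0 : ξ ≠ 0 := div_ne_zero hx0 hD0
  set N := ξ.num with hNdef
  set M := ξ.denom with hMdef
  have hN : N ≠ 0 := RatFunc.num_ne_zero hξ0
  have hM : M ≠ 0 := ξ.denom_ne_zero
  have hM' : algebraMap k[X] (RatFunc k) M ≠ 0 := RatFunc.algebraMap_ne_zero hM
  have hcop : IsCoprime N M := ξ.isCoprime_num_denom
  have hξNM : ξ * algebraMap k[X] (RatFunc k) M = algebraMap k[X] (RatFunc k) N := by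
    nth_rw 1 [← RatFunc.num_div_denom ξ]
    rw [← hNdef, ← hMdef]
    field_simp
  have hxM : x * algebraMap k[X] (RatFunc k) M = PS A * algebraMap k[X] (RatFunc k) N := by
    rw [hxξ, ← hξNM, hD]; ring
  have hxM1 : (x - D) * algebraMap k[X] (RatFunc k) M =
      PS A * algebraMap k[X] (RatFunc k) (N - M) := by
    rw [sub_mul, hxM, map_sub, hD]; ring
  have hxM2 : (x - RatFunc.C l * D) * algebraMap k[X] (RatFunc k) M =
      PS A * algebraMap k[X] (RatFunc k) (N - C l * M) := by
    rw [sub_mul, hxM, map_sub, map_mul, RatFunc.algebraMap_C, hD]; ring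
  have hN1 : N - M ≠ 0 := by
    intro h3
    rw [h3, map_zero, mul_zero] at hxM1
    rcases mul_eq_zero.mp hxM1 with h4 | h4
    · exact hxD (sub_eq_zero.mp h4)
    · exact hM' h4
  have hN2 : N - C l * M ≠ 0 := by
    intro h3
    rw [h3, map_zero, mul_zero] at hxM2
    rcases mul_eq_zero.mp hxM2 with h4 | h4
    · exact hxl (sub_eq_zero.mp h4)
    · exact hM' h4
  have hpA := pol_ne_zero A
  have hF1 : N * M ≠ 0 := mul_ne_zero hN hM
  have hF2 : (N - M) * (N - C l * M) ≠ 0 := mul_ne_zero hN1 hN2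
  have hF : N * M * ((N - M) * (N - C l * M)) ≠ 0 := mul_ne_zero hF1 hF2
  -- the product of the four factors has even multiplicities outside `A`
  have hsq : ∀ a, Even ((pol A * (N * M * ((N - M) * (N - C l * M)))).rootMultiplicity a) := by
    intro a
    have hPA : PS A ≠ 0 := PS_ne_zero A
    refine even_of_isSquare (z := PS A * (algebraMap k[X] (RatFunc k)
      (N * M * ((N - M) * (N - C l * M))))) (g := 1) (mul_ne_zero hpA hF) one_ne_zero ?_ ?_ a
    · rw [map_mul (algebraMap k[X] (RatFunc k)) (pol A), ← PS_eq]; simp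
    · refine ⟨y * algebraMap k[X] (RatFunc k) M ^ 2 / PS A, ?_⟩
      have e3 : y * algebraMap k[X] (RatFunc k) M ^ 2 / PS A *
          (y * algebraMap k[X] (RatFunc k) M ^ 2 / PS A) =
          (x * algebraMap k[X] (RatFunc k) M) * ((x - D) * algebraMap k[X] (RatFunc k) M) *
          ((x - RatFunc.C l * D) * algebraMap k[X] (RatFunc k) M) *
            algebraMap k[X] (RatFunc k) M / (PS A * PS A) := by
        rw [div_mul_div_comm]
        congr 1
        linear_combination (algebraMap k[X] (RatFunc k) M) ^ 4 * heq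
      rw [e3, hxM, hxM1, hxM2, map_mul, map_mul, map_mul]
      field_simp
  have hkey : ∀ a, a ∉ A → Even (N.rootMultiplicity a) ∧ Even (M.rootMultiplicity a) ∧
      Even ((N - M).rootMultiplicity a) := by
    intro a ha
    have h3 := hsq a
    rw [rm_mul hpA hF, rm_mul hF1 hF2, rm_mul hN hM, rm_mul hN1 hN2, rm_pol, if_neg ha] at h3
    have hnr : ¬ (N.IsRoot a ∧ M.IsRoot a) := by
      rintro ⟨h4, h5⟩
      obtain ⟨p, q, hpq⟩ := hcop
      have := congrArg (eval a) hpq
      rw [eval_add, eval_mul, eval_mul, h4.eq_zero, h5.eq_zero] at this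
      simp at this
    have hz : ∀ f : k[X], eval a f ≠ 0 → f.rootMultiplicity a = 0 := fun f hf =>
      rootMultiplicity_eq_zero hf
    have hl1 : (1 - l) ≠ 0 := sub_ne_zero.mpr h1.symm
    by_cases hMa : eval a M = 0
    · have hNa : eval a N ≠ 0 := fun h4 => hnr ⟨h4, hMa⟩
      have g1 := hz N hNa
      have g2 := hz (N - M) (by rw [eval_sub, hMa, sub_zero]; exact hNa)
      have g3 := hz (N - C l * M) (by
        rw [eval_sub, eval_mul, hMa, mul_zero, sub_zero]; exact hNa)
      rw [g1, g2, g3] at h3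
      rw [g1, g2]
      exact ⟨by simp, by simpa using h3, by simp⟩
    · have g0 := hz M hMa
      by_cases hNa : eval a N = 0
      · have g2 := hz (N - M) (by rw [eval_sub, hNa, zero_sub]; exact neg_ne_zero.mpr hMa)
        have g3 := hz (N - C l * M) (by
          rw [eval_sub, eval_mul, hNa, eval_C, zero_sub]
          exact neg_ne_zero.mpr (mul_ne_zero h0 hMa))
        rw [g0, g2, g3] at h3
        rw [g0, g2]
        exact ⟨by simpa using h3, by simp, by simp⟩
      · have g1 := hz N hNa
        by_cases hNM : eval a N = eval a M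
        · have g3 := hz (N - C l * M) (by
            rw [eval_sub, eval_mul, eval_C, hNM]
            intro h4
            have : (1 - l) * eval a M = 0 := by linear_combination h4
            exact (mul_ne_zero hl1 hMa) this)
          rw [g0, g1, g3] at h3
          rw [g0, g1]
          exact ⟨by simp, by simp, by simpa using h3⟩
        · have g2 := hz (N - M) (by rw [eval_sub]; exact sub_ne_zero.mpr hNM)
          rw [g0, g1, g2]
          simp
  constructor
  · refine subset_of_even A hN hM ?_ (fun a ha => (hkey a ha).1) (fun a ha => (hkey a ha).2.1)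
    rw [sub_zero]
    exact hxM
  · exact subset_of_even A hN1 hM hxM1 (fun a ha => (hkey a ha).2.2)
      (fun a ha => (hkey a ha).2.1)

end B3u

end Pool.Agent.H918R3
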