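import Pool.Agent.H918R3.Defs

set_option autoImplicit false

/-! GA (helper423): the Gauss extension of a valuation ring to the rational function field. -/

namespace Pool.Agent.H918R3

open Polynomial

namespace GA

variable {F : Type*} [Field F] (O : ValuationSubring F)

/-- the embedding of `O[X]` into the rational function field -/
noncomputable def psi : O[X] →+* RatFunc F :=
  (algebraMap F[X] (RatFunc F)).comp (mapRingHom (algebraMap O F))

theorem psi_apply (a : O[X]) :
    psi O a = algebraMap F[X] (RatFunc F) (a.map (algebraMap O F)) := rfl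

theorem psi_inj : Function.Injective (psi O) := by
  intro a b h
  rw [psi_apply, psi_apply] at h
  have h1 := RatFunc.algebraMap_injective F h
  exact Polynomial.map_injective _ (Subtype.val_injective) h1

theorem ne_zero_of_res {b : O[X]} (h : b.map (IsLocalRing.residue O) ≠ 0) : b ≠ 0 := by
  rintro rfl
  simp at h

theorem psi_ne {b : O[X]} (h : b.map (IsLocalRing.residue O) ≠ 0) : psi O b ≠ 0 := by
  intro h0
  apply ne_zero_of_res O h
  apply psi_inj O
  rw [h0, map_zero]

/-- content decomposition -/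
theorem prim (p : F[X]) (hp : p ≠ 0) : ∃ (c : F) (p' : O[X]), c ≠ 0 ∧
    p'.map (IsLocalRing.residue O) ≠ 0 ∧ p = C c * p'.map (algebraMap O F) := by
  obtain ⟨i, hi, hmax⟩ := Finset.exists_max_image p.support (fun i => O.valuation (p.coeff i))
    (Polynomial.support_nonempty.2 hp)
  have hc : p.coeff i ≠ 0 := Polynomial.mem_support_iff.1 hi
  have hcoef : ∀ j, (C (p.coeff i)⁻¹ * p).coeff j ∈ Set.range (algebraMap O F) := by
    intro j
    rw [coeff_C_mul]
    have : (p.coeff i)⁻¹ * p.coeff j ∈ O := by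
      rw [← ValuationSubring.valuation_le_one_iff, map_mul, map_inv₀]
      have hv : O.valuation (p.coeff i) ≠ 0 := (Valuation.ne_zero_iff _).2 hc
      by_cases hj : p.coeff j = 0
      · rw [hj]; simp
      · have := hmax j (Polynomial.mem_support_iff.2 hj)
        rw [mul_comm, ← div_eq_mul_inv]
        exact (div_le_one₀ (zero_lt_iff.2 hv)).2 this
    exact ⟨⟨_, this⟩, rfl⟩
  have hl : (C (p.coeff i)⁻¹ * p) ∈ lifts (algebraMap O F) :=
    (lifts_iff_coeff_lifts _).2 hcoef
  obtain ⟨p', hp'⟩ := (mem_lifts _).1 hl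
  refine ⟨p.coeff i, p', hc, ?_, ?_⟩
  · intro h0
    have h1 : (p'.map (IsLocalRing.residue O)).coeff i = 0 := by rw [h0, coeff_zero]
    rw [coeff_map] at h1
    have h2 : algebraMap O F (p'.coeff i) = 1 := by
      have : (p'.map (algebraMap O F)).coeff i = 1 := by
        rw [hp', coeff_C_mul, inv_mul_cancel₀ hc]
      rwa [coeff_map] at this
    have h3 : p'.coeff i = 1 := by
      apply Subtype.val_injective
      exact h2
    rw [h3, map_one] at h1
    exact one_ne_zero h1
  · rw [hp', ← mul_assoc, ← C_mul, mul_inv_cancel₀ hc, C_1, one_mul]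

/-- every nonzero rational function is a constant times a quotient of primitive polynomials -/
theorem dec (f : RatFunc F) (hf : f ≠ 0) : ∃ (c : F) (p q : O[X]), c ≠ 0 ∧
    p.map (IsLocalRing.residue O) ≠ 0 ∧ q.map (IsLocalRing.residue O) ≠ 0 ∧
    f * psi O q = algebraMap F (RatFunc F) c * psi O p := by
  obtain ⟨c1, p, hc1, hp, hp1⟩ := prim O f.num (RatFunc.num_ne_zero hf)
  obtain ⟨c2, q, hc2, hq, hq1⟩ := prim O f.denom (RatFunc.denom_ne_zero f)
  refine ⟨c1 / c2, p, q, div_ne_zero hc1 hc2, hp, hq, ?_⟩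
  have h1 : f * algebraMap F[X] (RatFunc F) f.denom = algebraMap F[X] (RatFunc F) f.num := by
    have hd : algebraMap F[X] (RatFunc F) f.denom ≠ 0 := by
      intro h
      apply RatFunc.denom_ne_zero f
      apply RatFunc.algebraMap_injective F
      rw [h, map_zero]
    conv_lhs => rw [← RatFunc.num_div_denom f]
    rw [RatFunc.num_div_denom f]
    nth_rewrite 1 [← RatFunc.num_div_denom f]
    field_simp
  rw [hp1, hq1, map_mul, map_mul] at h1
  have hC : ∀ c : F, algebraMap F[X] (RatFunc F) (C c) = algebraMap F (RatFunc F) c := by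
    intro c
    rw [RatFunc.algebraMap_C]
    rfl
  rw [hC, hC] at h1
  have hc2' : algebraMap F (RatFunc F) c2 ≠ 0 := by
    intro h
    apply hc2
    exact (algebraMap F (RatFunc F)).injective (by rw [h, map_zero])
  rw [map_div₀, psi_apply, psi_apply]
  rw [div_mul_eq_mul_div, eq_div_iff hc2']
  rw [← h1]
  ring

theorem map_mul_ne {a b : O[X]} (ha : a.map (IsLocalRing.residue O) ≠ 0)
    (hb : b.map (IsLocalRing.residue O) ≠ 0) : (a * b).map (IsLocalRing.residue O) ≠ 0 := by
  rw [Polynomial.map_mul]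
  exact mul_ne_zero ha hb

theorem psi_C (c : F) (hc : c ∈ O) : psi O (C (⟨c, hc⟩ : O)) = algebraMap F (RatFunc F) c := by
  rw [psi_apply, Polynomial.map_C]
  rfl

/-- the Gauss extension -/
noncomputable def gauss : ValuationSubring (RatFunc F) where
  carrier := {f | ∃ a b : O[X], b.map (IsLocalRing.residue O) ≠ 0 ∧ f * psi O b = psi O a}
  mul_mem' := by
    rintro f g ⟨a1, b1, hb1, h1⟩ ⟨a2, b2, hb2, h2⟩
    refine ⟨a1 * a2, b1 * b2, map_mul_ne O hb1 hb2, ?_⟩
    rw [map_mul, map_mul, ← h1, ← h2]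
    ring
  one_mem' := ⟨1, 1, by simp, by simp⟩
  add_mem' := by
    rintro f g ⟨a1, b1, hb1, h1⟩ ⟨a2, b2, hb2, h2⟩
    refine ⟨a1 * b2 + a2 * b1, b1 * b2, map_mul_ne O hb1 hb2, ?_⟩
    rw [map_mul, map_add, map_mul, map_mul, ← h1, ← h2]
    ring
  zero_mem' := ⟨0, 1, by simp, by simp⟩
  neg_mem' := by
    rintro f ⟨a, b, hb, h⟩
    exact ⟨-a, b, hb, by rw [map_neg, ← h]; ring⟩
  mem_or_inv_mem' := by
    intro f
    by_cases hf : f = 0
    · left
      rw [hf]
      exact ⟨0, 1, by simp, by simp⟩
    · obtain ⟨c, p, q, hc, hp, hq, h⟩ := dec O f hf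
      rcases O.mem_or_inv_mem c with hcO | hcO
      · left
        refine ⟨C ⟨c, hcO⟩ * p, q, hq, ?_⟩
        rw [map_mul, psi_C, h]
      · right
        refine ⟨C ⟨c⁻¹, hcO⟩ * q, p, hp, ?_⟩
        rw [map_mul, psi_C, map_inv₀]
        have hc' : algebraMap F (RatFunc F) c ≠ 0 := by
          intro h
          apply hc
          exact (algebraMap F (RatFunc F)).injective (by rw [h, map_zero])
        field_simp
        rw [h]
        ring

end GA

/-- GA -/
theorem exists_gauss {F : Type*} [Field F] (O : ValuationSubring F) :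
    ∃ O' : ValuationSubring (RatFunc F), IsGauss O O' := by
  refine ⟨GA.gauss O, ?_⟩
  intro f
  rfl

end Pool.Agent.H918R3
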