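import Mathlib
import Pool.Agent.H918R3.Defs

set_option autoImplicit false

/-! Task N1 (helper649): the nodal lemma. -/

namespace Pool.Agent.H918R3

open Polynomial

variable {K : Type*} [Field K]

theorem N1_eq {D l x y : K} (h : (crv 0 D (l * D)).toAffine.Nonsingular x y) :
    y ^ 2 = x * (x - D) * (x - l * D) := by
  have h1 := h.1
  rw [WeierstrassCurve.Affine.equation_iff] at h1
  simp only [crv] at h1
  linear_combination h1

theorem N1_d0_zero {D l x y : K} (h : (crv 0 D (l * D)).toAffine.Nonsingular x y) (hx : x = 0) :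
    d0 (D := D) (l := l) (.some x y h) = l * D ^ 2 := by
  exact (if_pos hx).trans (by ring)

theorem N1_d0_ne {D l x y : K} (h : (crv 0 D (l * D)).toAffine.Nonsingular x y) (hx : x ≠ 0) :
    d0 (D := D) (l := l) (.some x y h) = x := by
  exact (if_neg hx).trans (by ring)

theorem N1_d1_D {D l x y : K} (h : (crv 0 D (l * D)).toAffine.Nonsingular x y) (hx : x = D) :
    d1 (D := D) (l := l) (.some x y h) = (1 - l) * D ^ 2 := by
  exact (if_pos hx).trans (by ring)

theorem N1_d1_ne {D l x y : K} (h : (crv 0 D (l * D)).toAffine.Nonsingular x y) (hx : x ≠ D) :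
    d1 (D := D) (l := l) (.some x y h) = x - D := by
  exact if_neg hx

theorem N1_zero0 {D l : K} : d0 (D := D) (l := l) .zero = 1 := rfl
theorem N1_zero1 {D l : K} : d1 (D := D) (l := l) .zero = 1 := rfl

theorem N1_SqU_one (O : ValuationSubring K) : SqU O 1 := ⟨1, one_ne_zero, by simp⟩

/-- N1: the nodal lemma -/
theorem nodal (O : ValuationSubring K) {D l : K} (hD : D ≠ 0) (h0 : l ≠ 0) (h1 : l ≠ 1)
    (hm : IsSquare (-1 : K)) (hl : IsSquare l) (P : WD D l) :
    (O.valuation l < 1 → SqU O (d1 P) ∨ SqU O (D * d1 P)) ∧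
    (O.valuation (1 - l) < 1 → SqU O (d0 P) ∨ SqU O (D * d0 P)) ∧
    (O.valuation l⁻¹ < 1 → SqU O (d0 P * d1 P) ∨ SqU O (D * (d0 P * d1 P))) := by
  obtain ⟨i, hi⟩ := hm
  obtain ⟨s, hs⟩ := hl
  have hs0 : s ≠ 0 := by rintro rfl; exact h0 (by simpa using hs)
  have hi0 : i ≠ 0 := by
    rintro rfl
    rw [mul_zero] at hi
    exact one_ne_zero (neg_eq_zero.mp hi)
  have h1' : (1 : K) - l ≠ 0 := sub_ne_zero.mpr h1.symm
  set v := O.valuation with hv
  rcases P with _ | ⟨x, y, h⟩
  · change (_ → SqU O (d1 (.zero : WD D l)) ∨ SqU O (D * d1 (.zero : WD D l))) ∧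
      (_ → SqU O (d0 (.zero : WD D l)) ∨ SqU O (D * d0 (.zero : WD D l))) ∧
      (_ → SqU O (d0 (.zero : WD D l) * d1 (.zero : WD D l)) ∨
        SqU O (D * (d0 (.zero : WD D l) * d1 (.zero : WD D l))))
    rw [N1_zero0, N1_zero1, one_mul]
    exact ⟨fun _ => Or.inl (N1_SqU_one O), fun _ => Or.inl (N1_SqU_one O),
      fun _ => Or.inl (N1_SqU_one O)⟩
  · have heq := N1_eq h
    obtain ⟨X, rfl⟩ : ∃ X, x = X * D := ⟨x / D, by field_simp⟩
    have heq' : y ^ 2 = D ^ 3 * X * (X - 1) * (X - l) := by rw [heq]; ring
    have e0 : X * D = 0 ↔ X = 0 := by simp [hD]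
    have e1 : X * D = D ↔ X = 1 := by
      constructor
      · intro h
        have : (X - 1) * D = 0 := by rw [sub_mul, h]; ring
        rcases mul_eq_zero.mp this with h | h
        · exact sub_eq_zero.mp h
        · exact absurd h hD
      · rintro rfl; ring
    have hy : X ≠ 0 → X ≠ 1 → X ≠ l → y ≠ 0 := by
      intro a b c hy
      rw [hy] at heq'
      have : D ^ 3 * X * (X - 1) * (X - l) ≠ 0 :=
        mul_ne_zero (mul_ne_zero (mul_ne_zero (pow_ne_zero _ hD) a) (sub_ne_zero.mpr b))
          (sub_ne_zero.mpr c)
      apply this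
      rw [← heq']
      ring
    have z0 : X = 0 → d0 (D := D) (l := l) (.some (X * D) y h) = l * D ^ 2 :=
      fun h' => N1_d0_zero h (e0.mpr h')
    have n0 : X ≠ 0 → d0 (D := D) (l := l) (.some (X * D) y h) = X * D :=
      fun h' => N1_d0_ne h (fun h'' => h' (e0.mp h''))
    have z1 : X = 1 → d1 (D := D) (l := l) (.some (X * D) y h) = (1 - l) * D ^ 2 :=
      fun h' => N1_d1_D h (e1.mpr h')
    have n1 : X ≠ 1 → d1 (D := D) (l := l) (.some (X * D) y h) = X * D - D :=
      fun h' => N1_d1_ne h (fun h'' => h' (e1.mp h''))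
    refine ⟨fun hv1 => ?_, fun hv1 => ?_, fun hv1 => ?_⟩
    · -- `l` small
      rcases lt_or_ge (v X) 1 with hX | hX
      · have hX1 : X ≠ 1 := by rintro rfl; simp at hX
        right
        rw [n1 hX1]
        refine ⟨i / D, div_ne_zero hi0 hD, ?_⟩
        have : D * (X * D - D) * (i / D) ^ 2 - 1 = -X := by
          field_simp
          linear_combination (-(X - 1)) * hi
        rw [this, Valuation.map_neg]
        exact hX
      · left
        by_cases hX1 : X = 1
        · rw [z1 hX1]
          refine ⟨1 / D, div_ne_zero one_ne_zero hD, ?_⟩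
          have : (1 - l) * D ^ 2 * (1 / D) ^ 2 - 1 = -l := by
            field_simp
            ring
          rw [this, Valuation.map_neg]
          exact hv1
        · rw [n1 hX1]
          have hX0 : X ≠ 0 := by rintro rfl; simp at hX
          have hXl : X ≠ l := by rintro rfl; exact absurd hv1 (not_lt.mpr hX)
          have hy0 := hy hX0 hX1 hXl
          have hsub : X - l ≠ 0 := sub_ne_zero.mpr hXl
          have hsub1 : X - 1 ≠ 0 := sub_ne_zero.mpr hX1
          refine ⟨D * X / y, div_ne_zero (mul_ne_zero hD hX0) hy0, ?_⟩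
          have : (X * D - D) * (D * X / y) ^ 2 - 1 = l / (X - l) := by
            rw [div_pow, heq']
            field_simp
            ring
          rw [this, map_div₀]
          have hvs : v (X - l) = v X := Valuation.map_sub_eq_of_lt_left v (hv1.trans_le hX)
          rw [hvs]
          have hvX : v X ≠ 0 := (Valuation.ne_zero_iff v).mpr hX0
          exact (div_lt_one₀ (zero_lt_iff.mpr hvX)).mpr (hv1.trans_le hX)
    · -- `1 - l` small
      rcases lt_or_ge (v (X - 1)) 1 with hX | hX
      · have hX0 : X ≠ 0 := by rintro rfl; simp at hX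
        right
        rw [n0 hX0]
        refine ⟨1 / D, div_ne_zero one_ne_zero hD, ?_⟩
        have : D * (X * D) * (1 / D) ^ 2 - 1 = X - 1 := by
          field_simp
        rw [this]
        exact hX
      · left
        have hX1 : X ≠ 1 := by rintro rfl; simp at hX
        have hXl : X ≠ l := by
          rintro rfl
          rw [Valuation.map_sub_swap] at hX
          exact absurd hv1 (not_lt.mpr hX)
        by_cases hX0 : X = 0
        · rw [z0 hX0]
          refine ⟨1 / D, div_ne_zero one_ne_zero hD, ?_⟩
          have : l * D ^ 2 * (1 / D) ^ 2 - 1 = -(1 - l) := by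
            field_simp
            ring
          rw [this, Valuation.map_neg]
          exact hv1
        · rw [n0 hX0]
          have hy0 := hy hX0 hX1 hXl
          have hsub : X - l ≠ 0 := sub_ne_zero.mpr hXl
          have hsub1 : X - 1 ≠ 0 := sub_ne_zero.mpr hX1
          refine ⟨D * (X - 1) / y, div_ne_zero (mul_ne_zero hD hsub1) hy0, ?_⟩
          have : X * D * (D * (X - 1) / y) ^ 2 - 1 = -((1 - l) / (X - l)) := by
            rw [div_pow, heq']
            field_simp
            ring
          rw [this, Valuation.map_neg, map_div₀]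
          have hvs : v (X - l) = v (X - 1) := by
            have : X - l = (X - 1) + (1 - l) := by ring
            rw [this]
            exact Valuation.map_add_eq_of_lt_left v (hv1.trans_le hX)
          rw [hvs]
          have hvX : v (X - 1) ≠ 0 := (Valuation.ne_zero_iff v).mpr hsub1
          exact (div_lt_one₀ (zero_lt_iff.mpr hvX)).mpr (hv1.trans_le hX)
    · -- `1 / l` small
      rcases lt_or_ge 1 (v X) with hX | hX
      · have hX0 : X ≠ 0 := by rintro rfl; simp at hX
        have hX1 : X ≠ 1 := by rintro rfl; simp at hX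
        left
        rw [n0 hX0, n1 hX1]
        refine ⟨1 / (X * D), div_ne_zero one_ne_zero (mul_ne_zero hX0 hD), ?_⟩
        have : X * D * (X * D - D) * (1 / (X * D)) ^ 2 - 1 = -X⁻¹ := by
          field_simp
          ring
        rw [this, Valuation.map_neg, map_inv₀]
        exact inv_lt_one_of_one_lt₀ hX
      · right
        have hvl : 1 < v l := by
          rw [map_inv₀] at hv1
          exact (inv_lt_one₀ (zero_lt_iff.mpr ((Valuation.ne_zero_iff v).mpr h0))).mp hv1
        have hXl : X ≠ l := by rintro rfl; exact absurd hvl (not_lt.mpr hX)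
        by_cases hX0 : X = 0
        · rw [z0 hX0]
          have h01 : X ≠ 1 := by rw [hX0]; exact zero_ne_one
          rw [n1 h01]
          refine ⟨i / (s * D ^ 2), div_ne_zero hi0 (mul_ne_zero hs0 (pow_ne_zero _ hD)), ?_⟩
          have : D * (l * D ^ 2 * (X * D - D)) * (i / (s * D ^ 2)) ^ 2 - 1 = 0 := by
            rw [hX0]
            field_simp
            linear_combination l * hi + hs
          rw [this]
          simp
        · rw [n0 hX0]
          by_cases hX1 : X = 1
          · rw [z1 hX1]
            refine ⟨i / (s * D ^ 2), div_ne_zero hi0 (mul_ne_zero hs0 (pow_ne_zero _ hD)), ?_⟩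
            have : D * (X * D * ((1 - l) * D ^ 2)) * (i / (s * D ^ 2)) ^ 2 - 1 = -l⁻¹ := by
              rw [hX1]
              have hsq : s ^ 2 = l := by rw [hs]; ring
              have hiq : i ^ 2 = -1 := by rw [hi]; ring
              rw [div_pow, mul_pow, hsq, hiq]
              field_simp
              ring
            rw [this, Valuation.map_neg]
            exact hv1
          · rw [n1 hX1]
            have hy0 := hy hX0 hX1 hXl
            have hsub : X - l ≠ 0 := sub_ne_zero.mpr hXl
            have hsub1 : X - 1 ≠ 0 := sub_ne_zero.mpr hX1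
            refine ⟨i * s / y, div_ne_zero (mul_ne_zero hi0 hs0) hy0, ?_⟩
            have : D * (X * D * (X * D - D)) * (i * s / y) ^ 2 - 1 = -(X / (X - l)) := by
              have hsq : s ^ 2 = l := by rw [hs]; ring
              have hiq : i ^ 2 = -1 := by rw [hi]; ring
              rw [div_pow, mul_pow, hsq, hiq, heq']
              field_simp
              ring
            rw [this, Valuation.map_neg, map_div₀]
            have hvs : v (X - l) = v l := Valuation.map_sub_eq_of_lt_right v (hX.trans_lt hvl)
            rw [hvs]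
            exact (div_lt_one₀ (zero_lt_iff.mpr ((Valuation.ne_zero_iff v).mpr h0))).mpr
              (hX.trans_lt hvl)

end Pool.Agent.H918R3
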