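import Pool.Agent.H918R3.Defs

set_option autoImplicit false

namespace Pool.Agent.H918R3

open Polynomial WeierstrassCurve WeierstrassCurve.Affine

section T1

variable {K : Type*} [Field K] [DecidableEq K] {K' : Type*} [Field K'] [DecidableEq K']
variable (φ : K →+* K') (u : K') {e1 e2 e3 : K} {e1' e2' e3' : K'}

theorem T1_nons (hu : u ≠ 0) (h1 : e1' = u ^ 2 * φ e1) (h2 : e2' = u ^ 2 * φ e2)
    (h3 : e3' = u ^ 2 * φ e3) {x y : K} (h : (crv e1 e2 e3).toAffine.Nonsingular x y) :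
    (crv e1' e2' e3').toAffine.Nonsingular (u ^ 2 * φ x) (u ^ 3 * φ y) := by
  rw [nonsingular_iff, equation_iff] at h ⊢
  subst h1 h2 h3
  simp only [crv] at h ⊢
  obtain ⟨h, h'⟩ := h
  refine ⟨?_, ?_⟩
  · have h4 := congrArg φ h
    simp only [map_add, map_sub, map_mul, map_pow, map_neg, map_zero] at h4
    linear_combination u ^ 6 * h4
  · rcases h' with h' | h'
    · left
      intro h5
      apply h'
      apply φ.injective
      simp only [map_add, map_sub, map_mul, map_pow, map_neg, map_zero, map_ofNat]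
      have hu4 : u ^ 4 ≠ 0 := pow_ne_zero 4 hu
      apply mul_left_cancel₀ hu4
      linear_combination h5
    · right
      intro h5
      apply h'
      apply φ.injective
      simp only [map_add, map_sub, map_mul, map_pow, map_neg, map_zero, map_ofNat]
      have hu3 : u ^ 3 ≠ 0 := pow_ne_zero 3 hu
      apply mul_left_cancel₀ hu3
      linear_combination h5

theorem T1_slope (hu : u ≠ 0) (h1 : e1' = u ^ 2 * φ e1) (h2 : e2' = u ^ 2 * φ e2)
    (h3 : e3' = u ^ 2 * φ e3) {x₁ x₂ y₁ y₂ : K}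
    (hxy : ¬ (x₁ = x₂ ∧ y₁ = (crv e1 e2 e3).toAffine.negY x₂ y₂)) :
    (crv e1' e2' e3').toAffine.slope (u ^ 2 * φ x₁) (u ^ 2 * φ x₂) (u ^ 3 * φ y₁) (u ^ 3 * φ y₂) =
      u * φ ((crv e1 e2 e3).toAffine.slope x₁ x₂ y₁ y₂) := by
  have hu2 : u ^ 2 ≠ 0 := pow_ne_zero 2 hu
  have hu3 : u ^ 3 ≠ 0 := pow_ne_zero 3 hu
  by_cases hx : x₁ = x₂
  · have hy : y₁ ≠ (crv e1 e2 e3).toAffine.negY x₂ y₂ := fun h => hxy ⟨hx, h⟩
    have hy' : u ^ 3 * φ y₁ ≠ (crv e1' e2' e3').toAffine.negY (u ^ 2 * φ x₂) (u ^ 3 * φ y₂) := by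
      intro h
      apply hy
      apply φ.injective
      apply mul_left_cancel₀ hu3
      simp only [negY, crv, zero_mul, sub_zero] at h ⊢
      rw [h, map_neg]
      ring
    rw [slope_of_Y_ne hx hy, slope_of_Y_ne (by rw [hx]) hy']
    subst h1 h2 h3
    simp only [negY, crv, zero_mul, sub_zero, sub_neg_eq_add, map_div₀, map_add, map_sub, map_mul,
      map_pow, map_neg, map_zero, map_ofNat]
    by_cases h0 : φ y₁ + φ y₁ = 0
    · have h0' : u ^ 3 * φ y₁ + u ^ 3 * φ y₁ = 0 := by rw [← mul_add, h0, mul_zero]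
      rw [h0, h0', div_zero, div_zero, mul_zero]
    · have h0' : u ^ 3 * φ y₁ + u ^ 3 * φ y₁ ≠ 0 := by
        rw [← mul_add]
        exact mul_ne_zero hu3 h0
      rw [div_eq_iff h0']
      have : u * ((3 * φ x₁ ^ 2 + 2 * -(φ e1 + φ e2 + φ e3) * φ x₁ +
          (φ e1 * φ e2 + φ e1 * φ e3 + φ e2 * φ e3)) / (φ y₁ + φ y₁)) * (u ^ 3 * φ y₁ + u ^ 3 * φ y₁)
          = u ^ 4 * (3 * φ x₁ ^ 2 + 2 * -(φ e1 + φ e2 + φ e3) * φ x₁ +
          (φ e1 * φ e2 + φ e1 * φ e3 + φ e2 * φ e3)) := by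
        obtain ⟨s, hs⟩ : ∃ s, s = φ y₁ + φ y₁ := ⟨_, rfl⟩
        have e : u ^ 3 * φ y₁ + u ^ 3 * φ y₁ = u ^ 3 * s := by rw [hs]; ring
        rw [e, ← hs]
        rw [← hs] at h0
        field_simp
      rw [this]
      ring
  · have hx' : u ^ 2 * φ x₁ ≠ u ^ 2 * φ x₂ := by
      intro h
      exact hx (φ.injective (mul_left_cancel₀ hu2 h))
    rw [slope_of_X_ne hx, slope_of_X_ne hx', map_div₀, map_sub, map_sub]
    have h4 : u ^ 2 * φ x₁ - u ^ 2 * φ x₂ ≠ 0 := sub_ne_zero.2 hx'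
    have h5 : φ x₁ - φ x₂ ≠ 0 := sub_ne_zero.2 fun h => hx (φ.injective h)
    rw [div_eq_iff h4]
    field_simp

/-- the scaled map on points -/
noncomputable def T1_fun (hu : u ≠ 0) (h1 : e1' = u ^ 2 * φ e1) (h2 : e2' = u ^ 2 * φ e2)
    (h3 : e3' = u ^ 2 * φ e3) : Pt e1 e2 e3 → Pt e1' e2' e3'
  | .zero => .zero
  | .some _ _ h => .some _ _ (T1_nons φ u hu h1 h2 h3 h)

/-- the scaled map as a homomorphism -/
noncomputable def T1_hom (hu : u ≠ 0) (h1 : e1' = u ^ 2 * φ e1) (h2 : e2' = u ^ 2 * φ e2)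
    (h3 : e3' = u ^ 2 * φ e3) : Pt e1 e2 e3 →+ Pt e1' e2' e3' where
  toFun := T1_fun φ u hu h1 h2 h3
  map_zero' := rfl
  map_add' := by
    rintro (_ | ⟨x₁, y₁, p₁⟩) (_ | ⟨x₂, y₂, p₂⟩)
    any_goals rfl
    by_cases hxy : x₁ = x₂ ∧ y₁ = (crv e1 e2 e3).toAffine.negY x₂ y₂
    · rw [Point.add_of_Y_eq hxy.1 hxy.2]
      simp only [T1_fun]
      rw [Point.add_of_Y_eq (by rw [hxy.1])]
      · rfl
      · rw [hxy.2]
        simp only [negY, crv, zero_mul, sub_zero, map_neg]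
        ring
    · rw [Point.add_some hxy]
      simp only [T1_fun]
      have hxy' : ¬ (u ^ 2 * φ x₁ = u ^ 2 * φ x₂ ∧
          u ^ 3 * φ y₁ = (crv e1' e2' e3').toAffine.negY (u ^ 2 * φ x₂) (u ^ 3 * φ y₂)) := by
        rintro ⟨h, h'⟩
        apply hxy
        have hu2 : u ^ 2 ≠ 0 := pow_ne_zero 2 hu
        have hu3 : u ^ 3 ≠ 0 := pow_ne_zero 3 hu
        refine ⟨φ.injective (mul_left_cancel₀ hu2 h), φ.injective (mul_left_cancel₀ hu3 ?_)⟩
        simp only [negY, crv, zero_mul, sub_zero] at h' ⊢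
        rw [h', map_neg]
        ring
      rw [Point.add_some hxy']
      have hs := T1_slope φ u hu h1 h2 h3 hxy
      have ex : u ^ 2 * φ ((crv e1 e2 e3).toAffine.addX x₁ x₂
          ((crv e1 e2 e3).toAffine.slope x₁ x₂ y₁ y₂)) =
          (crv e1' e2' e3').toAffine.addX (u ^ 2 * φ x₁) (u ^ 2 * φ x₂)
            ((crv e1' e2' e3').toAffine.slope (u ^ 2 * φ x₁) (u ^ 2 * φ x₂) (u ^ 3 * φ y₁)
              (u ^ 3 * φ y₂)) := by
        rw [hs, h1, h2, h3]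
        simp only [addX, crv, zero_mul, map_add, map_sub, map_mul, map_pow, map_neg, map_zero]
        ring
      have ey : u ^ 3 * φ ((crv e1 e2 e3).toAffine.addY x₁ x₂ y₁
          ((crv e1 e2 e3).toAffine.slope x₁ x₂ y₁ y₂)) =
          (crv e1' e2' e3').toAffine.addY (u ^ 2 * φ x₁) (u ^ 2 * φ x₂) (u ^ 3 * φ y₁)
            ((crv e1' e2' e3').toAffine.slope (u ^ 2 * φ x₁) (u ^ 2 * φ x₂) (u ^ 3 * φ y₁)
              (u ^ 3 * φ y₂)) := by
        rw [hs, h1, h2, h3]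
        simp only [addY, negAddY, negY, addX, crv, zero_mul, map_add, map_sub, map_mul, map_pow,
          map_neg, map_zero]
        ring
      simp only [Point.some.injEq]
      exact ⟨ex, ey⟩

theorem T1_inj (hu : u ≠ 0) (h1 : e1' = u ^ 2 * φ e1) (h2 : e2' = u ^ 2 * φ e2)
    (h3 : e3' = u ^ 2 * φ e3) : Function.Injective (T1_hom φ u hu h1 h2 h3) := by
  rintro (_ | ⟨x₁, y₁, p₁⟩) (_ | ⟨x₂, y₂, p₂⟩) h
  · rfl
  · exact absurd h.symm (Point.some_ne_zero _)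
  · exact absurd h (Point.some_ne_zero _)
  · have h' : (Point.some _ _ (T1_nons φ u hu h1 h2 h3 p₁) : Pt e1' e2' e3') =
        Point.some _ _ (T1_nons φ u hu h1 h2 h3 p₂) := h
    rw [Point.some.injEq] at h'
    have hu2 : u ^ 2 ≠ 0 := pow_ne_zero 2 hu
    have hu3 : u ^ 3 ≠ 0 := pow_ne_zero 3 hu
    simp only [Point.some.injEq]
    exact ⟨φ.injective (mul_left_cancel₀ hu2 h'.1), φ.injective (mul_left_cancel₀ hu3 h'.2)⟩

end T1

/-- T1 -/
theorem exists_tr {K : Type*} [Field K] [DecidableEq K] {K' : Type*} [Field K'] [DecidableEq K']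
    (_h2 : (2 : K) ≠ 0)
    (φ : K →+* K') (u : K') (hu : u ≠ 0) {D l : K} {D' l' : K'} (_hDD : D ≠ 0) (_h0 : l ≠ 0)
    (_h1 : l ≠ 1) (hD : D' = u ^ 2 * φ D) (hl : l' = φ l) :
    ∃ f : WD D l →+ WD D' l', IsTr φ u f ∧ Function.Injective f := by
  have e1 : (0 : K') = u ^ 2 * φ 0 := by rw [map_zero, mul_zero]
  have e3 : l' * D' = u ^ 2 * φ (l * D) := by rw [hD, hl, map_mul]; ring
  exact ⟨T1_hom φ u hu e1 hD e3, fun x y h => ⟨T1_nons φ u hu e1 hD e3 h, rfl⟩,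
    T1_inj φ u hu e1 hD e3⟩

/-- transport maps preserve `x / D` -/
theorem IsTr.hasX {K : Type*} [Field K] [DecidableEq K] {K' : Type*} [Field K'] [DecidableEq K']
    {φ : K →+* K'} {u : K'} {D l : K} {D' l' : K'} {f : WD D l →+ WD D' l'}
    (hf : IsTr φ u f) (hD : D' = u ^ 2 * φ D) {P : WD D l} {ξ : K} (hP : HasX P ξ) :
    HasX (f P) (φ ξ) := by
  obtain ⟨y, h, rfl⟩ := hP
  obtain ⟨h', e⟩ := hf _ y h
  rw [e]
  have e2 : u ^ 2 * φ (ξ * D) = φ ξ * D' := by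
    rw [hD, map_mul]
    ring
  refine ⟨u ^ 3 * φ y, e2 ▸ h', ?_⟩
  congr 1

/-- TRG: transport of `GenBy` (may use T1, B0) -/
theorem genBy_transport {K : Type*} [Field K] [DecidableEq K] {K' : Type*} [Field K']
    [DecidableEq K']
    (h2 : (2 : K) ≠ 0) (φ : K ≃+* K') (u : K') (hu : u ≠ 0) {D l ξ : K} {D' l' ξ' : K'} (hDD : D ≠ 0)
    (h0 : l ≠ 0) (h1 : l ≠ 1) (hD : D' = u ^ 2 * φ D) (hl : l' = φ l) (hξ : ξ' = φ ξ) :
    (GenBy D l ξ → GenBy D' l' ξ') ∧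
    ((∀ R : WD D l, R + R = 0) → ∀ R : WD D' l', R + R = 0) := by
  obtain ⟨f, hf, hfi⟩ := exists_tr h2 (φ : K →+* K') u hu hDD h0 h1 hD hl
  have h2' : (2 : K') ≠ 0 := by
    intro h
    apply h2
    apply φ.injective
    rw [map_ofNat, h, map_zero]
  have hD0' : D' ≠ 0 := by
    rw [hD]
    exact mul_ne_zero (pow_ne_zero 2 hu) ((_root_.map_ne_zero φ).2 hDD)
  have hl0' : l' ≠ 0 := by
    rw [hl]
    exact (_root_.map_ne_zero φ).2 h0
  have hl1' : l' ≠ 1 := by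
    rw [hl]
    intro h
    apply h1
    apply φ.injective
    rw [h, map_one]
  have hu' : (φ.symm u)⁻¹ ≠ 0 := inv_ne_zero ((_root_.map_ne_zero φ.symm).2 hu)
  obtain ⟨g, hg, hgi⟩ := exists_tr h2' (φ.symm : K' →+* K) (φ.symm u)⁻¹ hu' hD0' hl0' hl1'
    (D' := D) (l' := l) (by
      rw [hD, RingEquiv.coe_toRingHom, map_mul, map_pow, RingEquiv.symm_apply_apply]
      have : φ.symm u ≠ 0 := (_root_.map_ne_zero φ.symm).2 hu
      field_simp) (by rw [hl, RingEquiv.coe_toRingHom, RingEquiv.symm_apply_apply])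
  -- `f` is surjective
  have hfg : ∀ R : WD D' l', f (g R) = R := by
    rintro (_ | ⟨x, y, h⟩)
    · exact (congrArg f g.map_zero).trans f.map_zero
    · obtain ⟨h3, e3⟩ := hg x y h
      rw [e3]
      obtain ⟨h4, e4⟩ := hf _ _ h3
      rw [e4]
      have hne : φ.symm u ≠ 0 := (_root_.map_ne_zero φ.symm).2 hu
      have ex : u ^ 2 * (φ : K →+* K') ((φ.symm u)⁻¹ ^ 2 * (φ.symm : K' →+* K) x) = x := by
        rw [RingEquiv.coe_toRingHom, RingEquiv.coe_toRingHom, map_mul, map_pow, map_inv₀,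
          RingEquiv.apply_symm_apply, RingEquiv.apply_symm_apply]
        field_simp
      have ey : u ^ 3 * (φ : K →+* K') ((φ.symm u)⁻¹ ^ 3 * (φ.symm : K' →+* K) y) = y := by
        rw [RingEquiv.coe_toRingHom, RingEquiv.coe_toRingHom, map_mul, map_pow, map_inv₀,
          RingEquiv.apply_symm_apply, RingEquiv.apply_symm_apply]
        field_simp
      simp only [Point.some.injEq]
      exact ⟨ex, ey⟩
  constructor
  · rintro ⟨P0, hP0, hgen⟩
    refine ⟨f P0, ?_, ?_⟩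
    · rw [hξ]
      exact hf.hasX hD hP0
    · intro R
      obtain ⟨n, T, hT, hR⟩ := hgen (g R)
      refine ⟨n, f T, by rw [← map_add, hT, map_zero], ?_⟩
      rw [← hfg R, hR, map_add, map_zsmul]
  · intro h R
    rw [← hfg R, ← map_add, h, map_zero]

end Pool.Agent.H918R3
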