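import Pool.Agent.H918R3.Defs
import Pool.Agent.H918R3.TGA
import Pool.Agent.H918R3.TN1
import Pool.Agent.H918R3.TT1

set_option linter.unusedVariables false

set_option autoImplicit false

namespace Pool.Agent.H918R3

open Polynomial

namespace PAR

variable {k : Type*} [Field k]

/-- a polynomial over `O` seen as a rational function over `k` -/
noncomputable def em (O : ValuationSubring k) : (Polynomial O) →+* RatFunc k :=
  (algebraMap k[X] (RatFunc k)).comp (Polynomial.mapRingHom (algebraMap O k))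

lemma em_apply (O : ValuationSubring k) (a : Polynomial O) :
    em O a = algebraMap k[X] (RatFunc k) (a.map (algebraMap O k)) := rfl

lemma em_inj (O : ValuationSubring k) : Function.Injective (em O) := by
  intro a b h
  rw [em_apply, em_apply] at h
  have h1 := RatFunc.algebraMap_injective k h
  exact Polynomial.map_injective _ (fun x y hxy => Subtype.ext hxy) h1

lemma gauss_mem {O : ValuationSubring k} {O' : ValuationSubring (RatFunc k)} (hG : IsGauss O O')
    (a : Polynomial O) : em O a ∈ O' :=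
  (hG _).2 ⟨a, 1, by simp, by rw [em_apply]; simp⟩

lemma gauss_val_le {O : ValuationSubring k} {O' : ValuationSubring (RatFunc k)}
    (hG : IsGauss O O') (a : Polynomial O) : O'.valuation (em O a) ≤ 1 :=
  (O'.valuation_le_one_iff _).2 (gauss_mem hG a)

/-- primitive polynomials are units of the Gauss extension -/
lemma gauss_unit {O : ValuationSubring k} {O' : ValuationSubring (RatFunc k)}
    (hG : IsGauss O O') (a : Polynomial O) (ha : a.map (IsLocalRing.residue O) ≠ 0) :
    O'.valuation (em O a) = 1 := by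
  have ha0 : em O a ≠ 0 := by
    intro h
    rw [← map_zero (em O)] at h
    have := em_inj O h
    rw [this] at ha
    simp at ha
  refine le_antisymm (gauss_val_le hG a) ?_
  have h1 : (em O a)⁻¹ ∈ O' := by
    refine (hG _).2 ⟨1, a, ha, ?_⟩
    rw [← em_apply, inv_mul_cancel₀ ha0]
    simp
  have h2 := (O'.valuation_le_one_iff _).2 h1
  rw [map_inv₀] at h2
  exact (inv_le_one₀ (zero_lt_iff.2 (by simpa using ha0))).1 h2

lemma gauss_zero {O : ValuationSubring k} {O' : ValuationSubring (RatFunc k)}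
    (hG : IsGauss O O') (a : Polynomial O) (ha : O'.valuation (em O a) < 1) :
    a.map (IsLocalRing.residue O) = 0 := by
  by_contra h
  exact ha.ne (gauss_unit hG a h)

lemma gauss_C {O : ValuationSubring k} {O' : ValuationSubring (RatFunc k)}
    (hG : IsGauss O O') (c : k) : RatFunc.C c ∈ O' ↔ c ∈ O := by
  constructor
  · intro h
    obtain ⟨a, b, hb, hab⟩ := (hG _).1 h
    obtain ⟨i, hi⟩ : ∃ i, (b.map (IsLocalRing.residue O)).coeff i ≠ 0 := by
      by_contra hcon
      push Not at hcon
      exact hb (Polynomial.ext (by simpa using hcon))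
    rw [Polynomial.coeff_map] at hi
    have hu : IsUnit (b.coeff i) := by
      by_contra hn
      exact hi ((IsLocalRing.residue_eq_zero_iff _).2 hn)
    have hab' : Polynomial.C c * b.map (algebraMap O k) = a.map (algebraMap O k) := by
      apply RatFunc.algebraMap_injective k
      rw [map_mul, ← hab]
      simp
    have hc := congrArg (fun p => Polynomial.coeff p i) hab'
    simp only [Polynomial.coeff_C_mul, Polynomial.coeff_map] at hc
    have hv : O.valuation ((b.coeff i : O) : k) = 1 := (O.valuation_eq_one_iff _).1 hu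
    rw [← O.valuation_le_one_iff]
    have h1 : O.valuation c * O.valuation ((b.coeff i : O) : k) =
        O.valuation ((a.coeff i : O) : k) := by
      rw [← map_mul]; exact congrArg _ hc
    rw [hv, mul_one] at h1
    rw [h1]
    exact O.valuation_le_one _
  · intro h
    have := gauss_mem hG (Polynomial.C (⟨c, h⟩ : O))
    rw [em_apply] at this
    simpa using this

lemma gauss_C_unit {O : ValuationSubring k} {O' : ValuationSubring (RatFunc k)}
    (hG : IsGauss O O') {c : k} (hc : c ≠ 0) (h : O'.valuation (RatFunc.C c) = 1) :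
    O.valuation c = 1 := by
  have h1 := (O.valuation_le_one_iff _).2 ((gauss_C hG c).1 ((O'.valuation_le_one_iff _).1 h.le))
  have h2 : O'.valuation (RatFunc.C c⁻¹) = 1 := by rw [map_inv₀, map_inv₀, h, inv_one]
  have h3 := (O.valuation_le_one_iff _).2 ((gauss_C hG _).1 ((O'.valuation_le_one_iff _).1 h2.le))
  rw [map_inv₀] at h3
  exact le_antisymm h1 ((inv_le_one₀ (zero_lt_iff.2 (by simpa using hc))).1 h3)

/-- every nonzero polynomial over `k` is a constant times a primitive polynomial over `O` -/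
lemma exists_prim (O : ValuationSubring k) (p : k[X]) (hp : p ≠ 0) :
    ∃ (c : k) (a : Polynomial O), c ≠ 0 ∧ a.map (IsLocalRing.residue O) ≠ 0 ∧
      p = Polynomial.C c * a.map (algebraMap O k) := by
  classical
  obtain ⟨i, hi, hmax⟩ := Finset.exists_max_image p.support (fun i => O.valuation (p.coeff i))
    (by simpa using hp)
  have hci : p.coeff i ≠ 0 := by simpa using hi
  have hle : ∀ j, O.valuation (p.coeff j / p.coeff i) ≤ 1 := by
    intro j
    by_cases hj : p.coeff j = 0
    · simp [hj]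
    rw [map_div₀]
    exact div_le_one_of_le₀ (hmax j (by simpa using hj)) zero_le
  let q : k[X] := Polynomial.C (p.coeff i)⁻¹ * p
  have hq : ∀ j, q.coeff j = p.coeff j / p.coeff i := fun j => by
    rw [Polynomial.coeff_C_mul]; field_simp
  have hqm : ∀ j, q.coeff j ∈ O := fun j => by
    rw [hq, ← O.valuation_le_one_iff]; exact hle j
  have hlift : q ∈ Polynomial.lifts (algebraMap O k) := by
    rw [Polynomial.lifts_iff_coeff_lifts]
    intro j
    exact ⟨⟨_, hqm j⟩, rfl⟩
  obtain ⟨a, ha⟩ := (Polynomial.mem_lifts _).1 hlift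
  refine ⟨p.coeff i, a, hci, ?_, ?_⟩
  · intro h0
    have h1 : IsLocalRing.residue O (a.coeff i) = 0 := by
      rw [← Polynomial.coeff_map, h0, Polynomial.coeff_zero]
    have h2 : ((a.coeff i : O) : k) = 1 := by
      have : (algebraMap O k) (a.coeff i) = q.coeff i := by rw [← Polynomial.coeff_map, ha]
      rw [hq, div_self hci] at this
      exact this
    have h3 : a.coeff i = 1 := Subtype.ext h2
    rw [h3, map_one] at h1
    exact one_ne_zero h1
  · rw [ha, ← mul_assoc, ← Polynomial.C_mul, mul_inv_cancel₀ hci, Polynomial.C_1, one_mul]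

open Classical in
/-- the primitive polynomial over `O` proportional to `X - b` -/
noncomputable def fac (O : ValuationSubring k) (b : k) : Polynomial O :=
  if h : b ∈ O then X - C ⟨b, h⟩ else 1 - C ⟨b⁻¹, (O.mem_or_inv_mem b).resolve_left h⟩ * X

lemma fac_scale (O : ValuationSubring k) (b : k) :
    ∃ c : k, c ≠ 0 ∧ (RatFunc.X - RatFunc.C b : RatFunc k) = RatFunc.C c * em O (fac O b) := by
  by_cases h : b ∈ O
  · refine ⟨1, one_ne_zero, ?_⟩
    rw [fac, dif_pos h, em_apply]
    simp
  · have hb : b ≠ 0 := by rintro rfl; exact h O.zero_mem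
    refine ⟨-b, neg_ne_zero.2 hb, ?_⟩
    rw [fac, dif_neg h, em_apply]
    simp only [Polynomial.map_sub, Polynomial.map_one, Polynomial.map_mul, Polynomial.map_C,
      Polynomial.map_X, map_sub, map_one, map_mul, RatFunc.algebraMap_C, RatFunc.algebraMap_X,
      map_neg]
    have e : (algebraMap O k) ⟨b⁻¹, (O.mem_or_inv_mem b).resolve_left h⟩ = b⁻¹ := rfl
    rw [e, map_inv₀]
    have hb' : (RatFunc.C b : RatFunc k) ≠ 0 := by simpa using hb
    field_simp
    ring

lemma fac_count (O : ValuationSubring k) (b r : k) (hr : r ∈ O) [DecidableEq (IsLocalRing.ResidueField O)] :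
    (fac O b).map (IsLocalRing.residue O) ≠ 0 ∧
    Multiset.count (IsLocalRing.residue O ⟨r, hr⟩) ((fac O b).map (IsLocalRing.residue O)).roots =
      if O.valuation (b - r) < 1 then 1 else 0 := by
  by_cases h : b ∈ O
  · rw [fac, dif_pos h]
    simp only [Polynomial.map_sub, Polynomial.map_X, Polynomial.map_C]
    refine ⟨Polynomial.X_sub_C_ne_zero _, ?_⟩
    rw [Polynomial.roots_X_sub_C, Multiset.count_singleton]
    have e : (IsLocalRing.residue O ⟨r, hr⟩ = IsLocalRing.residue O ⟨b, h⟩) ↔
        O.valuation (b - r) < 1 := by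
      rw [eq_comm, ← sub_eq_zero, ← map_sub, IsLocalRing.residue_eq_zero_iff,
        ValuationSubring.valuation_lt_one_iff]
      rfl
    simp only [e]
  · rw [fac, dif_neg h]
    have hb : b ≠ 0 := by rintro rfl; exact h O.zero_mem
    have e : IsLocalRing.residue O ⟨b⁻¹, (O.mem_or_inv_mem b).resolve_left h⟩ = 0 := by
      rw [IsLocalRing.residue_eq_zero_iff, ValuationSubring.valuation_lt_one_iff]
      change O.valuation b⁻¹ < 1
      rw [map_inv₀]
      exact inv_lt_one_of_one_lt₀ (by rw [← not_le, O.valuation_le_one_iff]; exact h)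
    simp only [Polynomial.map_sub, Polynomial.map_one, Polynomial.map_mul, Polynomial.map_X,
      Polynomial.map_C, e, map_zero, zero_mul, sub_zero]
    refine ⟨one_ne_zero, ?_⟩
    have hnlt : ¬ O.valuation (b - r) < 1 := by
      intro hlt
      apply h
      have : b = (b - r) + r := by ring
      rw [this]
      exact O.add_mem _ _ ((O.valuation_le_one_iff _).1 hlt.le) hr
    rw [Polynomial.roots_one, if_neg hnlt]
    exact Multiset.count_zero _

end PAR

open PAR

/-- PAR -/
theorem parity {k : Type*} [Field k] [IsAlgClosed k] (O : ValuationSubring k)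
    (O' : ValuationSubring (RatFunc k))
    (hG : IsGauss O O') (S : Finset k) (α β : k) (hβ : β ≠ 0)
    (hS : SqU O' (∏ a ∈ S, (RatFunc.C β * RatFunc.X + RatFunc.C (α - a)))) (r : k) (hr : r ∈ O) :
    Even (nR O S α β r) := by
  classical
  -- the primitive polynomial
  set Q : Polynomial O := ∏ a ∈ S, fac O ((a - α) / β) with hQ
  obtain ⟨κ, hκ0, hκ⟩ : ∃ κ : k, κ ≠ 0 ∧
      ∏ a ∈ S, (RatFunc.C β * RatFunc.X + RatFunc.C (α - a)) = RatFunc.C κ * em O Q := by
    have h1 : ∀ a : k, ∃ c : k, c ≠ 0 ∧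
        (RatFunc.C β * RatFunc.X + RatFunc.C (α - a) : RatFunc k) =
          RatFunc.C c * em O (fac O ((a - α) / β)) := by
      intro a
      obtain ⟨c, hc, hce⟩ := fac_scale O ((a - α) / β)
      refine ⟨β * c, mul_ne_zero hβ hc, ?_⟩
      rw [map_mul, mul_assoc, ← hce, mul_sub, ← map_mul, mul_div_cancel₀ _ hβ]
      simp only [map_sub]
      ring
    choose c hc hce using h1
    refine ⟨∏ a ∈ S, c a, Finset.prod_ne_zero_iff.2 fun a _ => hc a, ?_⟩
    rw [Finset.prod_congr rfl fun a _ => hce a, Finset.prod_mul_distrib, hQ, map_prod, map_prod]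
  obtain ⟨κ1, hκ1⟩ := IsAlgClosed.exists_pow_nat_eq κ (n := 2) (by norm_num)
  have hκ10 : κ1 ≠ 0 := by rintro rfl; apply hκ0; rw [← hκ1]; ring
  obtain ⟨w, hw0, hw⟩ := hS
  rw [hκ, ← hκ1, map_pow] at hw
  set w' : RatFunc k := RatFunc.C κ1 * w with hw'
  have hw'0 : w' ≠ 0 := mul_ne_zero (by simpa using hκ10) hw0
  have hw2 : O'.valuation (em O Q * w' ^ 2 - 1) < 1 := by
    have : em O Q * w' ^ 2 - 1 = RatFunc.C κ1 ^ 2 * em O Q * w ^ 2 - 1 := by rw [hw']; ring
    rw [this]; exact hw
  obtain ⟨c1, p', hc1, hp', hpe⟩ := exists_prim O w'.num (RatFunc.num_ne_zero hw'0)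
  obtain ⟨c2, q', hc2, hq', hqe⟩ := exists_prim O w'.denom (RatFunc.denom_ne_zero w')
  have hwe : w' * em O q' = RatFunc.C (c1 / c2) * em O p' := by
    have h1 := RatFunc.num_div_denom w'
    have hd0 : algebraMap k[X] (RatFunc k) w'.denom ≠ 0 := by
      simpa using RatFunc.denom_ne_zero w'
    rw [div_eq_iff hd0, hpe, hqe, map_mul, map_mul, RatFunc.algebraMap_C, RatFunc.algebraMap_C,
      ← em_apply, ← em_apply] at h1
    have hc2' : (RatFunc.C c2 : RatFunc k) ≠ 0 := by simpa using hc2
    rw [map_div₀, div_mul_eq_mul_div, eq_div_iff hc2', h1]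
    ring
  set c := c1 / c2 with hc
  have hc0 : c ≠ 0 := div_ne_zero hc1 hc2
  have hQ0 : Q.map (IsLocalRing.residue O) ≠ 0 := by
    rw [hQ, Polynomial.map_prod]
    exact Finset.prod_ne_zero_iff.2 fun a _ => (fac_count O _ r hr).1
  have hvQ := gauss_unit hG Q hQ0
  have hvp := gauss_unit hG p' hp'
  have hvq := gauss_unit hG q' hq'
  have hv1 : O'.valuation (em O Q * w' ^ 2) = 1 := by
    have h1 : em O Q * w' ^ 2 = (em O Q * w' ^ 2 - 1) + 1 := by ring
    rw [h1, Valuation.map_add_eq_of_lt_right _ (by rw [map_one]; exact hw2), map_one]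
  have hvw : O'.valuation w' ^ 2 = 1 := by
    rw [map_mul, map_pow, hvQ, one_mul] at hv1; exact hv1
  have hvc : O'.valuation (RatFunc.C c) = 1 := by
    have h1 : O'.valuation w' = 1 := by
      rcases lt_trichotomy (O'.valuation w') 1 with h | h | h
      · exact absurd hvw (pow_lt_one' h two_ne_zero).ne
      · exact h
      · exact absurd hvw (one_lt_pow' h two_ne_zero).ne'
    have h2 : O'.valuation w' * O'.valuation (em O q') =
        O'.valuation (RatFunc.C c) * O'.valuation (em O p') := by rw [← map_mul, ← map_mul, hwe]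
    rw [h1, hvp, hvq, mul_one, mul_one] at h2
    exact h2.symm
  have hcv := gauss_C_unit hG hc0 hvc
  have hcO : c ∈ O := (O.valuation_le_one_iff _).1 hcv.le
  set cO : O := ⟨c, hcO⟩ with hcOdef
  have hcu : IsUnit cO := (O.valuation_eq_one_iff cO).2 hcv
  have hemC : em O (C cO) = RatFunc.C c := by
    rw [em_apply]; simp [hcOdef]
  have hlt : O'.valuation (em O (Q * (C cO * p') ^ 2 - q' ^ 2)) < 1 := by
    have h1 : em O (Q * (C cO * p') ^ 2 - q' ^ 2) = (em O Q * w' ^ 2 - 1) * em O q' ^ 2 := by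
      simp only [map_sub, map_mul, map_pow, hemC]
      have h2 : (em O Q * w' ^ 2 - 1) * em O q' ^ 2 =
          em O Q * (w' * em O q') ^ 2 - em O q' ^ 2 := by ring
      rw [h2, hwe]
    rw [h1, map_mul, map_pow, hvq, one_pow, mul_one]
    exact hw2
  have hz := gauss_zero hG _ hlt
  simp only [Polynomial.map_sub, Polynomial.map_mul, Polynomial.map_pow, Polynomial.map_C] at hz
  rw [sub_eq_zero] at hz
  have hcr : IsLocalRing.residue O cO ≠ 0 := by
    rw [Ne, IsLocalRing.residue_eq_zero_iff]
    intro h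
    exact h hcu
  have hcp : C (IsLocalRing.residue O cO) * p'.map (IsLocalRing.residue O) ≠ 0 :=
    mul_ne_zero (by simpa using hcr) hp'
  have hcount := congrArg (fun p => Multiset.count (IsLocalRing.residue O ⟨r, hr⟩) p.roots) hz
  rw [Polynomial.roots_mul (mul_ne_zero hQ0 (pow_ne_zero _ hcp)), Polynomial.roots_pow,
    Polynomial.roots_pow, Multiset.count_add, Multiset.count_nsmul, Multiset.count_nsmul] at hcount
  have hQc : Multiset.count (IsLocalRing.residue O ⟨r, hr⟩) (Q.map (IsLocalRing.residue O)).roots =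
      nR O S α β r := by
    have hprod : ∀ T : Finset k, Multiset.count (IsLocalRing.residue O ⟨r, hr⟩)
        ((∏ a ∈ T, fac O ((a - α) / β)).map (IsLocalRing.residue O)).roots =
        (T.filter fun a => O.valuation ((a - α) / β - r) < 1).card := by
      intro T
      induction T using Finset.induction_on with
      | empty => simp
      | insert a T ha ih =>
        have hne : (∏ a ∈ T, fac O ((a - α) / β)).map (IsLocalRing.residue O) ≠ 0 := by
          rw [Polynomial.map_prod]
          exact Finset.prod_ne_zero_iff.2 fun a _ => (fac_count O _ r hr).1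
        rw [Finset.prod_insert ha, Polynomial.map_mul,
          Polynomial.roots_mul (mul_ne_zero (fac_count O _ r hr).1 hne), Multiset.count_add,
          (fac_count O _ r hr).2, ih, Finset.filter_insert]
        split_ifs with h
        · rw [Finset.card_insert_of_notMem (by simp [ha])]; ring
        · ring
    rw [hQ, hprod, nR, ← Set.ncard_coe_finset]
    congr 1
    ext a
    simp
  rw [hQc] at hcount
  rw [Nat.even_iff]
  omega


namespace PAR

variable {k : Type*} [Field k]

lemma sqU_congr {K : Type*} [Field K] (O : ValuationSubring K) {z s : K} (hz : z ≠ 0)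
    (hs : s ≠ 0) (h : IsSquare (z * s)) (hz' : SqU O z) : SqU O s := by
  obtain ⟨q, hq⟩ := h
  obtain ⟨w, hw0, hw⟩ := hz'
  have hq0 : q ≠ 0 := by
    rintro rfl
    rw [mul_zero] at hq
    exact mul_ne_zero hz hs hq
  refine ⟨w * z / q, div_ne_zero (mul_ne_zero hw0 hz) hq0, ?_⟩
  have : s * (w * z / q) ^ 2 = z * w ^ 2 := by
    have h1 : s * (w * z / q) ^ 2 = (z * s) * (z * w ^ 2) / (q * q) := by ring
    rw [h1, hq]
    field_simp
  rw [this]
  exact hw

lemma PS_ne_zero (S : Finset k) : PS S ≠ 0 := by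
  rw [PS]
  refine Finset.prod_ne_zero_iff.2 fun a _ => ?_
  have := (map_ne_zero_iff _ (RatFunc.algebraMap_injective k)).2 (Polynomial.X_sub_C_ne_zero a)
  simpa using this

lemma PS_mul [DecidableEq k] (A S : Finset k) :
    ∃ w : RatFunc k, w ≠ 0 ∧ PS A * PS S = PS (symmDiff A S) * w ^ 2 := by
  refine ⟨PS (A ∩ S), PS_ne_zero _, ?_⟩
  have h1 : PS A * PS S = PS (A ∪ S) * PS (A ∩ S) := by
    simp only [PS]
    exact (Finset.prod_union_inter).symm
  have h2 : PS (A ∪ S) = PS (symmDiff A S) * PS (A ∩ S) := by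
    have hd : Disjoint (symmDiff A S) (A ∩ S) := by
      have := @disjoint_symmDiff_inf (Finset k) _ A S
      simpa using this
    have he : symmDiff A S ∪ (A ∩ S) = A ∪ S := by
      have := @symmDiff_sup_inf (Finset k) _ A S
      simpa using this
    simp only [PS]
    rw [← Finset.prod_union hd, he]
  rw [h1, h2]
  ring

/-- the substitution `X ↦ β X + α` -/
lemma exists_subst (α β : k) (hβ : β ≠ 0) : ∃ φ : RatFunc k →+* RatFunc k,
    (∀ c, φ (RatFunc.C c) = RatFunc.C c) ∧
    φ RatFunc.X = RatFunc.C β * RatFunc.X + RatFunc.C α := by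
  let ψ : k[X] →+* RatFunc k :=
    Polynomial.eval₂RingHom RatFunc.C (RatFunc.C β * RatFunc.X + RatFunc.C α)
  have hψ : ∀ p : k[X], ψ p = algebraMap k[X] (RatFunc k) (p.comp (C β * X + C α)) := by
    intro p
    have h : ψ = (algebraMap k[X] (RatFunc k)).comp (Polynomial.compRingHom (C β * X + C α)) := by
      apply Polynomial.ringHom_ext
      · intro a; simp [ψ]
      · simp [ψ]
    rw [h]; rfl
  have hinj : Function.Injective ψ := by
    rw [injective_iff_map_eq_zero]
    intro p hp
    rw [hψ] at hp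
    have h1 := (map_eq_zero_iff _ (RatFunc.algebraMap_injective k)).1 hp
    by_contra hp0
    rcases Polynomial.comp_eq_zero_iff.1 h1 with h | ⟨-, h⟩
    · exact hp0 h
    · have h2 := congrArg (fun q => Polynomial.coeff q 1) h
      simp at h2
      exact hβ h2
  have hle : nonZeroDivisors k[X] ≤ (nonZeroDivisors (RatFunc k)).comap ψ :=
    nonZeroDivisors_le_comap_nonZeroDivisors_of_injective ψ hinj
  refine ⟨RatFunc.liftRingHom ψ hle, ?_, ?_⟩
  · intro c
    have := RatFunc.liftRingHom_algebraMap ψ hle (C c)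
    rw [RatFunc.algebraMap_C] at this
    rw [this]
    simp [ψ]
  · have := RatFunc.liftRingHom_algebraMap ψ hle X
    rw [RatFunc.algebraMap_X] at this
    rw [this]
    simp [ψ]

end PAR


namespace PAR

lemma dl_tr {K K' : Type*} [Field K] [Field K'] [DecidableEq K] [DecidableEq K'] (φ : K →+* K')
    {D l : K} {D' l' : K'} (f : WD D l →+ WD D' l') (hf : IsTr φ 1 f) (e g h : K) (e' g' h' : K')
    (he : e' = φ e) (hg : g' = φ g) (hh : h' = φ h) (P : WD D l) :
    dl e' g' h' (f P) = φ (dl e g h P) := by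
  cases P with
  | zero =>
    have h0 : f WeierstrassCurve.Affine.Point.zero = WeierstrassCurve.Affine.Point.zero :=
      map_zero f
    rw [h0]
    simp [dl]
  | some x y hxy =>
    obtain ⟨h1, h2⟩ := hf x y hxy
    rw [h2]
    simp only [dl, one_pow, one_mul, he, hg, hh]
    by_cases hx : x = e
    · rw [if_pos hx, if_pos (by rw [hx])]; simp
    · rw [if_neg hx, if_neg (fun h => hx (φ.injective h))]; simp

lemma core {k : Type*} [Field k] [IsAlgClosed k] [DecidableEq k] (O : ValuationSubring k)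
    (O' : ValuationSubring (RatFunc k)) (hG : IsGauss O O') (A : Finset k) {D : RatFunc k}
    (hD : D = PS A) (α β : k) (hβ : β ≠ 0) (φ : RatFunc k →+* RatFunc k)
    (hφC : ∀ c, φ (RatFunc.C c) = RatFunc.C c)
    (hφX : φ RatFunc.X = RatFunc.C β * RatFunc.X + RatFunc.C α) (z : RatFunc k) (hz : z ≠ 0)
    (h : SqU O' (φ z) ∨ SqU O' (φ D * φ z)) (S : Finset k) (hS : IsSquare (z * PS S)) :
    (∀ r ∈ O, Even (nR O S α β r)) ∨ (∀ r ∈ O, Even (nR O (symmDiff A S) α β r)) := by
  have hφ0 : ∀ y : RatFunc k, y ≠ 0 → φ y ≠ 0 := fun y hy => by simpa using hy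
  have hφPS : ∀ T : Finset k, φ (PS T) =
      ∏ a ∈ T, (RatFunc.C β * RatFunc.X + RatFunc.C (α - a)) := by
    intro T
    rw [PS, map_prod]
    refine Finset.prod_congr rfl fun a _ => ?_
    rw [map_sub, hφX, hφC, map_sub]
    ring
  have hD0 : D ≠ 0 := by rw [hD]; exact PS_ne_zero A
  rcases h with h | h
  · left
    intro r hr
    refine parity O O' hG S α β hβ ?_ r hr
    rw [← hφPS]
    refine sqU_congr O' (hφ0 z hz) (hφ0 _ (PS_ne_zero S)) ?_ h
    rw [← map_mul]
    exact hS.map φ
  · right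
    intro r hr
    refine parity O O' hG (symmDiff A S) α β hβ ?_ r hr
    rw [← hφPS]
    rw [← map_mul] at h
    refine sqU_congr O' (hφ0 _ (mul_ne_zero hD0 hz)) (hφ0 _ (PS_ne_zero _)) ?_ h
    rw [← map_mul]
    refine IsSquare.map φ ?_
    obtain ⟨w, hw0, hw⟩ := PS_mul A S
    obtain ⟨q, hq⟩ := hS
    refine ⟨D * q / w, ?_⟩
    have h1 : D * q / w * (D * q / w) = D * D * (q * q) / w ^ 2 := by ring
    rw [h1, ← hq, eq_div_iff (pow_ne_zero 2 hw0)]
    have h2 : D * z * PS (symmDiff A S) * w ^ 2 = D * z * (PS (symmDiff A S) * w ^ 2) := by ring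
    rw [h2, ← hw, hD]
    ring

end PAR

open PAR

/-- PAR2: the parity constraint from one degeneration and one zoom. -/
theorem constraint {k : Type*} [Field k] [IsAlgClosed k] [DecidableEq k] (O : ValuationSubring k)
    (A : Finset k) {l : k}
    (h2 : (2 : k) ≠ 0) (h0 : l ≠ 0) (h1 : l ≠ 1) {D : RatFunc k} (hD : D = PS A)
    (P : WD D (RatFunc.C l)) (α β : k) (hβ : β ≠ 0) :
    (O.valuation l < 1 → ∀ S : Finset k, IsSquare (d1 P * PS S) →
      (∀ r ∈ O, Even (nR O S α β r)) ∨
      (∀ r ∈ O, Even (nR O (symmDiff A S) α β r))) ∧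
    (O.valuation (1 - l) < 1 → ∀ S : Finset k, IsSquare (d0 P * PS S) →
      (∀ r ∈ O, Even (nR O S α β r)) ∨
      (∀ r ∈ O, Even (nR O (symmDiff A S) α β r))) ∧
    (O.valuation l⁻¹ < 1 → ∀ S : Finset k, IsSquare (d0 P * d1 P * PS S) →
      (∀ r ∈ O, Even (nR O S α β r)) ∨
      (∀ r ∈ O, Even (nR O (symmDiff A S) α β r))) := by
  classical
  obtain ⟨O', hG⟩ := exists_gauss O
  obtain ⟨φ, hφC, hφX⟩ := exists_subst α β hβ
  have hD0 : D ≠ 0 := by rw [hD]; exact PS_ne_zero A
  have h2' : (2 : RatFunc k) ≠ 0 := by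
    have : (2 : RatFunc k) = RatFunc.C 2 := (map_ofNat RatFunc.C 2).symm
    rw [this]
    exact (map_ne_zero_iff _ RatFunc.C_injective).2 h2
  have hl0 : (RatFunc.C l : RatFunc k) ≠ 0 := by simpa using h0
  have hl1 : (RatFunc.C l : RatFunc k) ≠ 1 := by
    intro h
    apply h1
    have : (RatFunc.C l : RatFunc k) = RatFunc.C 1 := by rw [h, map_one]
    exact RatFunc.C_injective this
  obtain ⟨f, hf, -⟩ := exists_tr (D' := φ D) (l' := RatFunc.C l) h2' φ 1 one_ne_zero hD0 hl0 hl1
    (by ring) (hφC l).symm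
  have e0 : d0 (f P) = φ (d0 P) :=
    dl_tr φ f hf 0 D (RatFunc.C l * D) 0 (φ D) (RatFunc.C l * φ D) (by simp) rfl
      (by rw [map_mul, hφC]) P
  have e1 : d1 (f P) = φ (d1 P) :=
    dl_tr φ f hf D 0 (RatFunc.C l * D) (φ D) 0 (RatFunc.C l * φ D) rfl (by simp)
      (by rw [map_mul, hφC]) P
  have hsq : ∀ c : k, IsSquare (RatFunc.C c : RatFunc k) := by
    intro c
    obtain ⟨s, hs⟩ := IsAlgClosed.exists_pow_nat_eq c (n := 2) (by norm_num)
    exact ⟨RatFunc.C s, by rw [← hs, map_pow]; ring⟩
  have hm : IsSquare (-1 : RatFunc k) := by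
    have := hsq (-1)
    simpa using this
  have hφD : φ D ≠ 0 := by simpa using hD0
  obtain ⟨n1, n2, n3⟩ := nodal O' hφD hl0 hl1 hm (hsq l) (f P)
  have hval : ∀ c : k, O.valuation c < 1 → O'.valuation (RatFunc.C c) < 1 := by
    intro c hc
    by_cases hc0 : c = 0
    · rw [hc0]; simp
    have hle : O'.valuation (RatFunc.C c) ≤ 1 :=
      (O'.valuation_le_one_iff _).2 ((gauss_C hG c).2 ((O.valuation_le_one_iff _).1 hc.le))
    exact lt_of_le_of_ne hle fun h => hc.ne (gauss_C_unit hG hc0 h)
  have hd : ∀ e g h : RatFunc k, e ≠ g → e ≠ h → dl e g h P ≠ 0 := by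
    intro e g h heg heh
    rcases P with _ | ⟨x, y, hxy⟩
    · simp [dl]
    · simp only [dl]
      by_cases hx : x = e
      · rw [if_pos hx]; exact mul_ne_zero (sub_ne_zero.2 heg) (sub_ne_zero.2 heh)
      · rw [if_neg hx]; exact sub_ne_zero.2 hx
  have hd0 : d0 P ≠ 0 := hd _ _ _ hD0.symm (mul_ne_zero hl0 hD0).symm
  have hd1 : d1 P ≠ 0 := by
    refine hd _ _ _ hD0 ?_
    intro h
    apply hl1
    have : RatFunc.C l * D = 1 * D := by rw [one_mul]; exact h.symm
    exact mul_right_cancel₀ hD0 this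
  rw [e1] at n1
  rw [e0] at n2
  rw [e0, e1] at n3
  refine ⟨fun hv S hS => ?_, fun hv S hS => ?_, fun hv S hS => ?_⟩
  · exact core O O' hG A hD α β hβ φ hφC hφX _ hd1 (n1 (hval _ hv)) S hS
  · refine core O O' hG A hD α β hβ φ hφC hφX _ hd0 (n2 ?_) S hS
    have := hval _ hv
    rwa [map_sub, map_one] at this
  · refine core O O' hG A hD α β hβ φ hφC hφX _ (mul_ne_zero hd0 hd1) ?_ S hS
    have h3 := n3 (by rw [← map_inv₀]; exact hval _ hv)
    rw [map_mul]
    exact h3

end Pool.Agent.H918R3
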