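import Pool.Agent.H918R3.ClsBase
import Pool.Agent.H918R3.Subs
import Pool.Agent.H918R3.TB0
import Pool.Agent.H918R3.TB1
import Pool.Agent.H918R3.TB2ab
import Pool.Agent.H918R3.TB2c
import Pool.Agent.H918R3.TB3u
import Pool.Agent.H918R3.TT1
import Pool.Agent.H918R3.TPAR

set_option autoImplicit false

/-!
Tasks C1, C1s.
-/

namespace Pool.Agent.H918R3

open Polynomial

namespace C1

variable {k : Type*} [Field k]

/-- the base elements `X`, `X - 1`, `X - l` -/
noncomputable def bas (l : k) : RatFunc k × RatFunc k × RatFunc k :=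
  (RatFunc.X, RatFunc.X - 1, RatFunc.X - RatFunc.C l)

theorem XC_ne (a : k) : (RatFunc.X - RatFunc.C a : RatFunc k) ≠ 0 := by
  intro h
  have h1 : (algebraMap k[X] (RatFunc k)) (Polynomial.X - Polynomial.C a) = 0 := by
    rw [map_sub, RatFunc.algebraMap_X, RatFunc.algebraMap_C]
    exact h
  rw [map_eq_zero_iff _ (RatFunc.algebraMap_injective k)] at h1
  exact Polynomial.X_sub_C_ne_zero a h1

theorem bas_nz (l : k) : BNZ (bas l) := by
  refine ⟨RatFunc.X_ne_zero, ?_, XC_ne l⟩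
  have := XC_ne (1 : k)
  rwa [map_one] at this

theorem PS_mon [DecidableEq k] {l : k} (h0 : l ≠ 0) (h1 : l ≠ 1) (S : Finset k)
    (hS : S ⊆ {0, 1, l}) :
    PS S = mon (bas l) (decide (0 ∈ S), decide (1 ∈ S), decide (l ∈ S)) := by
  have e1 : PS S = ∏ a ∈ ({0, 1, l} : Finset k), if a ∈ S then (RatFunc.X - RatFunc.C a) else 1 := by
    unfold PS
    rw [← Finset.prod_filter]
    congr 1
    ext a
    simp only [Finset.mem_filter]
    exact ⟨fun h => ⟨hS h, h⟩, fun h => h.2⟩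
  rw [e1, Finset.prod_insert (by simp [h0.symm]), Finset.prod_insert (by simp [h1.symm]),
    Finset.prod_singleton]
  unfold mon bas
  simp only [Bool.cond_decide, map_zero, sub_zero, map_one]
  ring

theorem even_pair (O : ValuationSubring k) {S : Finset k} {x y : k} (r : k)
    (h : ∀ a ∈ S, (O.valuation (a - r) < 1 ↔ a = x ∨ a = y)) (hr : Even (nR O S 0 1 r)) :
    x ∈ S ↔ y ∈ S := by
  have hset : {a : k | a ∈ S ∧ O.valuation ((a - 0) / 1 - r) < 1} = {a : k | a ∈ S ∧ (a = x ∨ a = y)} := by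
    ext a
    simp only [Set.mem_ofPred_eq, sub_zero, div_one]
    constructor
    · rintro ⟨h1, h2⟩; exact ⟨h1, (h a h1).mp h2⟩
    · rintro ⟨h1, h2⟩; exact ⟨h1, (h a h1).mpr h2⟩
  unfold nR at hr
  rw [hset] at hr
  by_contra hne
  have : ∃ z, {a : k | a ∈ S ∧ (a = x ∨ a = y)} = {z} := by
    by_cases hx : x ∈ S
    · have hy : y ∉ S := fun hy => hne ⟨fun _ => hy, fun _ => hx⟩
      refine ⟨x, ?_⟩
      ext a
      simp only [Set.mem_ofPred_eq, Set.mem_singleton_iff]
      constructor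
      · rintro ⟨h1, rfl | rfl⟩
        · rfl
        · exact absurd h1 hy
      · rintro rfl; exact ⟨hx, Or.inl rfl⟩
    · have hy : y ∈ S := by
        by_contra hy
        exact hne ⟨fun h => absurd h hx, fun h => absurd h hy⟩
      refine ⟨y, ?_⟩
      ext a
      simp only [Set.mem_ofPred_eq, Set.mem_singleton_iff]
      constructor
      · rintro ⟨h1, rfl | rfl⟩
        · exact absurd h1 hx
        · rfl
      · rintro rfl; exact ⟨hy, Or.inr rfl⟩
  obtain ⟨z, hz⟩ := this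
  rw [hz, Set.ncard_singleton] at hr
  exact absurd hr (by decide)

theorem not_mem_of_even (O : ValuationSubring k) {S : Finset k} {x : k} (r : k)
    (h : ∀ a ∈ S, (O.valuation (a - r) < 1 ↔ a = x)) (hr : Even (nR O S 0 1 r)) :
    x ∉ S := by
  intro hx
  have hset : {a : k | a ∈ S ∧ O.valuation ((a - 0) / 1 - r) < 1} = {x} := by
    ext a
    simp only [Set.mem_ofPred_eq, sub_zero, div_one, Set.mem_singleton_iff]
    constructor
    · rintro ⟨h1, h2⟩; exact (h a h1).mp h2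
    · rintro rfl; exact ⟨hx, (h a hx).mpr rfl⟩
  unfold nR at hr
  rw [hset, Set.ncard_singleton] at hr
  exact absurd hr (by decide)

theorem val_one_sub (O : ValuationSubring k) {l : k} (h : O.valuation l < 1) :
    ¬ O.valuation (l - 1) < 1 := by
  intro h1
  have h2 : O.valuation (l - (l - 1)) < 1 := by
    refine lt_of_le_of_lt (Valuation.map_sub _ _ _) (max_lt h h1)
  rw [sub_sub_cancel, map_one] at h2
  exact lt_irrefl _ h2

theorem par1 [DecidableEq k] (O : ValuationSubring k) {l : k} (h0 : l ≠ 0) (h1 : l ≠ 1) (h : O.valuation l < 1)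
    (S : Finset k) (hS : S ⊆ {0, 1, l}) (hr : Even (nR O S 0 1 0)) : (0 : k) ∈ S ↔ l ∈ S := by
  refine even_pair O 0 ?_ hr
  intro a ha
  have ha' := hS ha
  simp only [Finset.mem_insert, Finset.mem_singleton] at ha'
  rw [sub_zero]
  rcases ha' with rfl | rfl | rfl
  · simp
  · rw [map_one]
    simp [h1.symm]
  · simp [h]

theorem par2 [DecidableEq k] (O : ValuationSubring k) {l : k} (h0 : l ≠ 0) (h1 : l ≠ 1)
    (h : O.valuation (1 - l) < 1)
    (S : Finset k) (hS : S ⊆ {0, 1, l}) (hr : Even (nR O S 0 1 1)) : (1 : k) ∈ S ↔ l ∈ S := by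
  refine even_pair O 1 ?_ hr
  intro a ha
  have ha' := hS ha
  simp only [Finset.mem_insert, Finset.mem_singleton] at ha'
  rcases ha' with rfl | rfl | rfl
  · rw [zero_sub, Valuation.map_neg, map_one]
    simp [h0.symm]
  · simp
  · rw [← Valuation.map_neg, neg_sub]
    simp [h]

theorem par3 [DecidableEq k] (O : ValuationSubring k) {l : k} (h0 : l ≠ 0) (h1 : l ≠ 1)
    (h : O.valuation l⁻¹ < 1)
    (S : Finset k) (hS : S ⊆ {0, 1, l}) (hr : Even (nR O S 0 1 0)) (hr1 : Even (nR O S 0 1 1)) :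
    (0 : k) ∉ S ∧ (1 : k) ∉ S := by
  have hl : 1 < O.valuation l := by
    rw [map_inv₀] at h
    have hne : O.valuation l ≠ 0 := (Valuation.ne_zero_iff _).mpr h0
    exact (inv_lt_one₀ (zero_lt_iff.mpr hne)).mp h
  constructor
  · refine not_mem_of_even O 0 ?_ hr
    intro a ha
    have ha' := hS ha
    simp only [Finset.mem_insert, Finset.mem_singleton] at ha'
    rw [sub_zero]
    rcases ha' with rfl | rfl | rfl
    · simp
    · rw [map_one]; simp
    · simp only [h0, iff_false, not_lt]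
      exact hl.le
  · refine not_mem_of_even O 1 ?_ hr1
    intro a ha
    have ha' := hS ha
    simp only [Finset.mem_insert, Finset.mem_singleton] at ha'
    rcases ha' with rfl | rfl | rfl
    · rw [zero_sub, Valuation.map_neg, map_one]; simp
    · simp
    · simp only [h1, iff_false, not_lt]
      by_contra hlt
      push Not at hlt
      have h3 : O.valuation a ≤ 1 := by
        have h4 : a = (a - 1) + 1 := by ring
        calc O.valuation a = O.valuation ((a - 1) + 1) := by rw [← h4]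
          _ ≤ max (O.valuation (a - 1)) (O.valuation 1) := Valuation.map_add _ _ _
          _ ≤ 1 := max_le hlt.le (by rw [map_one])
      exact absurd h3 (not_le.mpr hl)

section

variable {K : Type*} [Field K]

theorem d_add [DecidableEq K] (h2 : (2 : K) ≠ 0) {D l : K} (hD : D ≠ 0) (h0 : l ≠ 0)
    (h1 : l ≠ 1) (P Q : WD D l) :
    (d0 P ≠ 0 ∧ IsSquare (d0 (P + Q) * (d0 P * d0 Q))) ∧
    (d1 P ≠ 0 ∧ IsSquare (d1 (P + Q) * (d1 P * d1 Q))) := by
  have hlD : l * D ≠ 0 := mul_ne_zero h0 hD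
  have hlD1 : D ≠ l * D := by
    intro h
    apply h1
    have : (l - 1) * D = 0 := by linear_combination -h
    rcases mul_eq_zero.mp this with h' | h'
    · exact sub_eq_zero.mp h'
    · exact absurd h' hD
  refine ⟨dl_add h2 rfl hD.symm hlD.symm hlD1 P Q,
    dl_add h2 ?_ hD hlD1 hlD.symm P Q⟩
  unfold crv
  congr 1 <;> ring

theorem _root_.Pool.Agent.H918R3.PCl.add [DecidableEq K] (h2 : (2 : K) ≠ 0) {D l : K} (hD : D ≠ 0) (h0 : l ≠ 0)
    (h1 : l ≠ 1) {b : K × K × K} (hb : BNZ b) {P Q : WD D l} {u v u' v' : Ex}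
    (hP : PCl b P u v) (hQ : PCl b Q u' v') : PCl b (P + Q) (exA u u') (exA v v') := by
  obtain ⟨⟨-, k1⟩, ⟨-, k2⟩⟩ := d_add h2 hD h0 h1 P Q
  obtain ⟨⟨k3, -⟩, ⟨k4, -⟩⟩ := d_add h2 hD h0 h1 (P + Q) 0
  exact ⟨(hP.1.mul hb hQ.1).congr k3 (by rwa [mul_comm]),
    (hP.2.mul hb hQ.2).congr k4 (by rwa [mul_comm])⟩

theorem _root_.Pool.Agent.H918R3.PCl.zero {D l : K} (b : K × K × K) : 
    PCl b (0 : WD D l) (false, false, false) (false, false, false) :=
  ⟨Cls.one b, Cls.one b⟩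

theorem _root_.Pool.Agent.H918R3.PCl.cond {D l : K} {b : K × K × K} {P : WD D l} {u v : Ex} (x : Bool) (h : PCl b P u v) :
    PCl b (cond x P 0) (exS x u) (exS x v) := by
  cases x
  · simpa [exS] using PCl.zero b
  · simpa [exS] using h

end

theorem bool_fact : ∀ a b c d : Bool, xor a c = xor b d →
    exA (exA (a, b, b) (exS (xor a b) (false, true, true)))
      (exA (exS a (true, true, true)) (exS d (false, false, false))) = (false, false, false) ∧
    exA (exA (c, d, c) (exS (xor a b) (true, false, true)))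
      (exA (exS a (false, false, false)) (exS d (true, true, true))) = (false, false, false) := by
  decide

end C1

open C1 in
/-- C1 -/
theorem gen_one {k : Type*} [Field k] [IsAlgClosed k] [DecidableEq (RatFunc k)] {l : k}
    (h2 : (2 : k) ≠ 0) (h0 : l ≠ 0)
    (h1 : l ≠ 1) (O1 O2 O3 : ValuationSubring k) (hO1 : O1.valuation l < 1)
    (hO2 : O2.valuation (1 - l) < 1) (hO3 : O3.valuation l⁻¹ < 1) {D : RatFunc k}
    (hD : D = RatFunc.X * (RatFunc.X - 1) * (RatFunc.X - RatFunc.C l)) :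
    GenBy D (RatFunc.C l) RatFunc.X := by
  classical
  have hX := (bas_nz l).1
  have hX1 := (bas_nz l).2.1
  have hXl := (bas_nz l).2.2
  have hX' : (RatFunc.X : RatFunc k) ≠ 0 := hX
  have hX1' : (RatFunc.X - 1 : RatFunc k) ≠ 0 := hX1
  have hXl' : (RatFunc.X - RatFunc.C l : RatFunc k) ≠ 0 := hXl
  have hD0 : D ≠ 0 := by rw [hD]; exact mul_ne_zero (mul_ne_zero hX' hX1') hXl'
  have h2' : (2 : RatFunc k) ≠ 0 := by
    have : (RatFunc.C (2 : k)) ≠ 0 := (_root_.map_ne_zero _).mpr h2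
    rwa [map_ofNat] at this
  have hl0 : RatFunc.C l ≠ 0 := (_root_.map_ne_zero _).mpr h0
  have hl1 : RatFunc.C l ≠ 1 := by
    intro h
    apply h1
    apply RatFunc.C_injective
    rw [h, map_one]
  set A : Finset k := {0, 1, l} with hA
  have hDA : D = PS A := by
    rw [PS_mon h0 h1 A (by rw [hA]), hD]
    simp [hA, mon, bas]
  obtain ⟨-, hex, -, -, -, -, htor, -, hc0, hc1, -, hcx⟩ := pt_basic h2' hD0 hl0 hl1
  obtain ⟨P0, hP0⟩ := hex RatFunc.X D (by rw [hD]; ring)
  obtain ⟨T0, hT0⟩ := hex 0 0 (by ring)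
  obtain ⟨T1, hT1⟩ := hex 1 0 (by ring)
  have tT0 : T0 + T0 = 0 := (htor T0).mpr (Or.inr (Or.inl hT0))
  have tT1 : T1 + T1 = 0 := (htor T1).mpr (Or.inr (Or.inr (Or.inl hT1)))
  have hXne1 : (RatFunc.X : RatFunc k) ≠ 1 := sub_ne_zero.mp hX1'
  -- classes of the generators
  have cP0 : PCl (bas l) P0 (false, true, true) (true, false, true) := by
    obtain ⟨e0, e1⟩ := hcx P0 RatFunc.X hX' hXne1 hP0
    refine ⟨⟨?_, D, ?_⟩, ⟨?_, D, ?_⟩⟩
    · rw [e0]; exact mul_ne_zero hX' hD0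
    · rw [e0, hD]; simp only [mon, bas, cond_true, cond_false]; ring
    · rw [e1]; exact mul_ne_zero hX1' hD0
    · rw [e1, hD]; simp only [mon, bas, cond_true, cond_false]; ring
  have hsq : ∀ c : k, IsSquare (RatFunc.C c) := by
    intro c
    obtain ⟨s, hs⟩ := IsAlgClosed.exists_eq_mul_self c
    exact ⟨RatFunc.C s, by rw [← map_mul, ← hs]⟩
  have cT0 : PCl (bas l) T0 (false, false, false) (true, true, true) := by
    obtain ⟨e0, e1⟩ := hc0 T0 hT0
    refine ⟨⟨?_, ?_⟩, ⟨?_, ?_⟩⟩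
    · rw [e0]; exact mul_ne_zero hl0 (pow_ne_zero 2 hD0)
    · rw [e0]
      obtain ⟨r, hr⟩ := hsq l
      exact ⟨r * D, by rw [hr]; simp only [mon, cond_false]; ring⟩
    · rw [e1]; exact neg_ne_zero.mpr hD0
    · rw [e1]
      obtain ⟨r, hr⟩ := hsq (-1)
      rw [map_neg, map_one] at hr
      refine ⟨r * D, ?_⟩
      have : mon (bas l) (true, true, true) = D := by
        rw [hD]; simp only [mon, bas, cond_true]
      rw [this]
      linear_combination D ^ 2 * hr
  have cT1 : PCl (bas l) T1 (true, true, true) (false, false, false) := by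
    obtain ⟨e0, e1⟩ := hc1 T1 hT1
    have hl1' : (1 : RatFunc k) - RatFunc.C l ≠ 0 := sub_ne_zero.mpr hl1.symm
    refine ⟨⟨?_, ?_⟩, ⟨?_, ?_⟩⟩
    · rw [e0]; exact hD0
    · rw [e0]
      have : mon (bas l) (true, true, true) = D := by
        rw [hD]; simp only [mon, bas, cond_true]
      rw [this]
      exact ⟨D, rfl⟩
    · rw [e1]; exact mul_ne_zero hl1' (pow_ne_zero 2 hD0)
    · rw [e1]
      obtain ⟨r, hr⟩ := hsq (1 - l)
      rw [map_sub, map_one] at hr
      exact ⟨r * D, by rw [hr]; simp only [mon, cond_false]; ring⟩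
  -- height of `P0`
  have hht : ht P0 ≤ 1 := by
    obtain ⟨y, h, rfl⟩ := hP0
    show rht (RatFunc.X * D / D) ≤ 1
    rw [mul_div_cancel_right₀ _ hD0]
    unfold rht
    rw [RatFunc.num_X, RatFunc.denom_X]
    simp
  have hDsq : ¬ IsSquare D := by
    rw [hDA, ps_square.1]
    simp [hA]
  refine ⟨P0, hP0, fun R => descent_of h2 hDsq h0 h1 (ht_double h2 hD0 h0 h1)
    (ht_add_sub_le h2 hD0 h0 h1) P0 hht ?_ R⟩
  clear R
  intro R
  obtain ⟨⟨S0, hS0, q0⟩, ⟨S1, hS1, q1⟩⟩ := classes h2 A h0 h1 hDA R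
  obtain ⟨⟨n0, -⟩, ⟨n1, -⟩⟩ := d_add h2' hD0 hl0 hl1 R 0
  have hsd : ∀ S : Finset k, S ⊆ A → symmDiff A S ⊆ A := by
    intro S hS x hx
    rw [Finset.mem_symmDiff] at hx
    rcases hx with h | h
    · exact h.1
    · exact hS h.1
  have hmem : ∀ S : Finset k, S ⊆ A → ∀ x ∈ A, (x ∈ symmDiff A S ↔ x ∉ S) := by
    intro S hS x hx
    rw [Finset.mem_symmDiff]
    tauto
  have mA0 : (0 : k) ∈ A := by simp [hA]
  have mA1 : (1 : k) ∈ A := by simp [hA]
  have mAl : l ∈ A := by simp [hA]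
  -- first degeneration
  have k1 : (0 : k) ∈ S1 ↔ l ∈ S1 := by
    rcases (constraint O1 A h2 h0 h1 hDA R 0 1 one_ne_zero).1 hO1 S1 q1 with h | h
    · exact par1 O1 h0 h1 hO1 S1 hS1 (h 0 (zero_mem _))
    · have := par1 O1 h0 h1 hO1 _ (hsd S1 hS1) (h 0 (zero_mem _))
      rw [hmem S1 hS1 0 mA0, hmem S1 hS1 l mAl] at this
      exact not_iff_not.mp this
  have k2 : (1 : k) ∈ S0 ↔ l ∈ S0 := by
    rcases (constraint O2 A h2 h0 h1 hDA R 0 1 one_ne_zero).2.1 hO2 S0 q0 with h | h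
    · exact par2 O2 h0 h1 hO2 S0 hS0 (h 1 (one_mem _))
    · have := par2 O2 h0 h1 hO2 _ (hsd S0 hS0) (h 1 (one_mem _))
      rw [hmem S0 hS0 1 mA1, hmem S0 hS0 l mAl] at this
      exact not_iff_not.mp this
  have hS01 : symmDiff S0 S1 ⊆ A := by
    intro x hx
    rw [Finset.mem_symmDiff] at hx
    rcases hx with h | h
    · exact hS0 h.1
    · exact hS1 h.1
  have k3 : (0 : k) ∈ symmDiff S0 S1 ↔ (1 : k) ∈ symmDiff S0 S1 := by
    have q2 : IsSquare (d0 R * d1 R * PS (symmDiff S0 S1)) := by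
      obtain ⟨w, hw, e⟩ := ps_square.2.1 S0 S1
      have h := q0.mul q1
      have e2 : d0 R * PS S0 * (d1 R * PS S1) = d0 R * d1 R * PS (symmDiff S0 S1) * w ^ 2 := by
        linear_combination d0 R * d1 R * e
      rw [e2] at h
      exact sq_cancel hw h
    rcases (constraint O3 A h2 h0 h1 hDA R 0 1 one_ne_zero).2.2 hO3 _ q2 with h | h
    · obtain ⟨a1, a2⟩ := par3 O3 h0 h1 hO3 _ hS01 (h 0 (zero_mem _)) (h 1 (one_mem _))
      exact ⟨fun h => absurd h a1, fun h => absurd h a2⟩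
    · obtain ⟨a1, a2⟩ := par3 O3 h0 h1 hO3 _ (hsd _ hS01) (h 0 (zero_mem _)) (h 1 (one_mem _))
      rw [hmem _ hS01 0 mA0] at a1
      rw [hmem _ hS01 1 mA1] at a2
      exact ⟨fun _ => not_not.mp a2, fun _ => not_not.mp a1⟩
  -- the class of `R`
  set a := decide ((0 : k) ∈ S0) with ha
  set b := decide ((1 : k) ∈ S0) with hb
  set c := decide ((0 : k) ∈ S1) with hc
  set d := decide ((1 : k) ∈ S1) with hd
  have cR : PCl (bas l) R (a, b, b) (c, d, c) := by
    have e0 := PS_mon h0 h1 S0 hS0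
    have e1 := PS_mon h0 h1 S1 hS1
    have f0 : decide (l ∈ S0) = b := by rw [hb]; exact decide_eq_decide.mpr k2.symm
    have f1 : decide (l ∈ S1) = c := by rw [hc]; exact decide_eq_decide.mpr k1.symm
    rw [f0] at e0
    rw [f1] at e1
    exact ⟨⟨n0, by rw [← e0]; exact q0⟩, ⟨n1, by rw [← e1]; exact q1⟩⟩
  have habcd : xor a c = xor b d := by
    rw [Finset.mem_symmDiff, Finset.mem_symmDiff] at k3
    by_cases m1 : (0 : k) ∈ S0 <;> by_cases m2 : (1 : k) ∈ S0 <;> by_cases m3 : (0 : k) ∈ S1 <;>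
      by_cases m4 : (1 : k) ∈ S1 <;> simp_all
  obtain ⟨g1, g2⟩ := bool_fact a b c d habcd
  have hcl := ((cR.add h2' hD0 hl0 hl1 (bas_nz l) (cP0.cond (xor a b))).add h2' hD0 hl0 hl1
    (bas_nz l) ((cT1.cond a).add h2' hD0 hl0 hl1 (bas_nz l) (cT0.cond d)))
  rw [g1, g2] at hcl
  obtain ⟨Q, hQ⟩ := exists_half h2' hD0 hl0 hl1 _ ((Cls.sq_iff hcl.1.1).mp hcl.1)
    ((Cls.sq_iff hcl.2.1).mp hcl.2)
  refine ⟨if xor a b then -1 else 0, -(cond a T1 0 + cond d T0 0), Q, ?_, ?_⟩
  · have e1 : cond a T1 0 + cond a T1 0 = (0 : WD D (RatFunc.C l)) := by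
      cases a
      · simp
      · exact tT1
    have e2 : cond d T0 0 + cond d T0 0 = (0 : WD D (RatFunc.C l)) := by
      cases d
      · simp
      · exact tT0
    have e3 : -(cond a T1 0 + cond d T0 0) + -(cond a T1 0 + cond d T0 0) =
        -((cond a T1 0 + cond a T1 0) + (cond d T0 0 + cond d T0 0)) := by abel
    rw [e3, e1, e2]
    simp
  · rw [← hQ]
    cases xor a b
    · simp
      abel
    · simp
      abel

/-- C1s: the two other twists -/
theorem gen_sym {k : Type*} [Field k] [IsAlgClosed k] [DecidableEq (RatFunc k)] {l : k}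
    (hl : GenL l)
    (hgen : GenBy (RatFunc.X * (RatFunc.X - 1) * (RatFunc.X - RatFunc.C l)) (RatFunc.C l)
      RatFunc.X) :
    GenBy (RatFunc.X * (RatFunc.X - 1) * (RatFunc.X - RatFunc.C (1 - l))) (RatFunc.C l)
      (1 - RatFunc.X) ∧
    GenBy (RatFunc.X * (RatFunc.X - 1) * (RatFunc.X - RatFunc.C l⁻¹)) (RatFunc.C l)
      RatFunc.X⁻¹ := by
  obtain ⟨h2, h0, h1, -, -, -⟩ := hl
  have hX' : (RatFunc.X : RatFunc k) ≠ 0 := RatFunc.X_ne_zero
  have hX1' : (RatFunc.X - 1 : RatFunc k) ≠ 0 := (C1.bas_nz l).2.1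
  have hXl' : (RatFunc.X - RatFunc.C l : RatFunc k) ≠ 0 := (C1.bas_nz l).2.2
  have h2' : (2 : RatFunc k) ≠ 0 := by
    have : (RatFunc.C (2 : k)) ≠ 0 := (_root_.map_ne_zero _).mpr h2
    rwa [map_ofNat] at this
  have hl0 : RatFunc.C l ≠ 0 := (_root_.map_ne_zero _).mpr h0
  have hl1 : RatFunc.C l ≠ 1 := by
    intro h
    apply h1
    apply RatFunc.C_injective
    rw [h, map_one]
  have hD0 : (RatFunc.X * (RatFunc.X - 1) * (RatFunc.X - RatFunc.C l) : RatFunc k) ≠ 0 :=
    mul_ne_zero (mul_ne_zero hX' hX1') hXl'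
  constructor
  · have hr : ∀ a : k, (1 - RatFunc.X : RatFunc k) ≠ RatFunc.C a := by
      intro a h
      apply X_ne_C (1 - a)
      rw [map_sub, map_one, ← h]
      ring
    have hrr : subs (1 - RatFunc.X : RatFunc k) hr (1 - RatFunc.X) = RatFunc.X := by
      rw [map_sub, map_one, subs_X]
      ring
    obtain ⟨i, hi⟩ := IsAlgClosed.exists_eq_mul_self (-1 : k)
    have hi0 : i ≠ 0 := by
      rintro rfl
      simp at hi
    have hiC : RatFunc.C i * RatFunc.C i = (-1 : RatFunc k) := by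
      rw [← map_mul, ← hi, map_neg, map_one]
    refine (genBy_transport h2' (subsEquiv _ hr hrr) (RatFunc.C i)
      ((_root_.map_ne_zero _).mpr hi0) hD0 hl0 hl1 ?_ ?_ ?_).1 hgen
    · rw [subsEquiv_apply]
      simp only [map_mul, map_sub, map_one, subs_X, subs_C]
      linear_combination (RatFunc.X * (RatFunc.X - 1) * (RatFunc.X - (1 - RatFunc.C l))) * hiC
    · rw [subsEquiv_apply, subs_C]
    · rw [subsEquiv_apply, subs_X]
  · have hr : ∀ a : k, (RatFunc.X⁻¹ : RatFunc k) ≠ RatFunc.C a := by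
      intro a h
      apply X_ne_C a⁻¹
      rw [map_inv₀, ← h, inv_inv]
    have hrr : subs (RatFunc.X⁻¹ : RatFunc k) hr (RatFunc.X⁻¹) = RatFunc.X := by
      rw [map_inv₀, subs_X, inv_inv]
    obtain ⟨s, hs⟩ := IsAlgClosed.exists_eq_mul_self l
    have hs0 : s ≠ 0 := by
      rintro rfl
      apply h0
      rw [hs, mul_zero]
    have hsC0 : RatFunc.C s ≠ 0 := (_root_.map_ne_zero _).mpr hs0
    have hsC : RatFunc.C l = RatFunc.C s * RatFunc.C s := by rw [← map_mul, ← hs]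
    refine (genBy_transport h2' (subsEquiv _ hr hrr) (RatFunc.X ^ 2 * (RatFunc.C s)⁻¹)
      (mul_ne_zero (pow_ne_zero 2 hX') (inv_ne_zero hsC0)) hD0 hl0 hl1 ?_ ?_ ?_).1 hgen
    · rw [subsEquiv_apply]
      simp only [map_mul, map_sub, map_one, subs_X, subs_C, map_inv₀]
      rw [hsC]
      field_simp
      ring
    · rw [subsEquiv_apply, subs_C]
    · rw [subsEquiv_apply, subs_X]

end Pool.Agent.H918R3
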