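import Pool.Agent.H918R3.TC2
import Pool.Agent.H918R3.TPAR

set_option autoImplicit false

/-! Task C2, final form (helper8). -/

namespace Pool.Agent.H918R3

/-- C2 -/
theorem tors_six {k : Type*} [Field k] [IsAlgClosed k] [DecidableEq (RatFunc k)] {l : k}
    (hl : GenL l)
    (O1 O2 O3 : ValuationSubring k) (hO1 : O1.valuation l < 1)
    (hO2 : O2.valuation (1 - l) < 1) (hO3 : O3.valuation l⁻¹ < 1) (ho1 : O1.valuation 2 = 1)
    (ho2 : O2.valuation 2 = 1) (ho3 : O3.valuation 2 = 1) {D : RatFunc k}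
    (hD : D = RatFunc.X * (RatFunc.X - 1) * (RatFunc.X - RatFunc.C l) *
      (RatFunc.X - RatFunc.C (1 - l)) * (RatFunc.X - RatFunc.C l⁻¹)) (R : WD D (RatFunc.C l)) :
    R + R = 0 := by
  classical
  exact tors_six_of hl O1 O2 O3 hO1 hO2 hO3 ho1 ho2 ho3 hD
    (fun hDA O P a b hb => constraint O _ hl.1 hl.2.1 hl.2.2.1 hDA P a b hb) R

end Pool.Agent.H918R3
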