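import Pool.Agent.H918R3.Defs

set_option linter.unusedVariables false

set_option autoImplicit false

namespace Pool.Agent.H918R3

open Matrix Polynomial WithZero

namespace A1b

/-- a valuation ring whose valuations are powers of that of a non-unit is a DVR -/
lemma dvr_of {K : Type*} [Field K] (O : ValuationSubring K) (π : K) (h1 : π ≠ 0)
    (h2 : O.valuation π < 1) (h : ∀ x : K, x ≠ 0 → ∃ n : ℤ, O.valuation x = O.valuation π ^ n) :
    IsDiscreteValuationRing O := by
  have hpos : 0 < O.valuation π := by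
    rw [zero_lt_iff]; simpa using h1
  have hmem : π ∈ O := (O.valuation_le_one_iff π).1 h2.le
  have key : ∀ n : ℤ, O.valuation π ^ n ≤ 1 → 0 ≤ n := by
    intro n hn
    by_contra hcon
    push Not at hcon
    have : 1 < O.valuation π ^ n := by
      have h3 := one_lt_zpow_of_neg₀ hpos h2 hcon
      exact h3
    exact absurd hn (not_le.2 this)
  have unit_iff : ∀ a : O, IsUnit a ↔ O.valuation (a : K) = 1 := fun a =>
    (O.valuation_eq_one_iff a)
  apply IsDiscreteValuationRing.ofHasUnitMulPowIrreducibleFactorization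
  refine ⟨⟨π, hmem⟩, ⟨?_, ?_⟩, ?_⟩
  · intro hu
    have := (unit_iff _).1 hu
    exact absurd this h2.ne
  · intro a b hab
    have hab' : π = (a : K) * (b : K) := congrArg Subtype.val hab
    have ha0 : (a : K) ≠ 0 := by
      intro h0; rw [h0, zero_mul] at hab'; exact h1 hab'
    have hb0 : (b : K) ≠ 0 := by
      intro h0; rw [h0, mul_zero] at hab'; exact h1 hab'
    obtain ⟨m, hm⟩ := h _ ha0
    obtain ⟨n, hn⟩ := h _ hb0
    have hm0 : 0 ≤ m := key m (by rw [← hm]; exact O.valuation_le_one a)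
    have hn0 : 0 ≤ n := key n (by rw [← hn]; exact O.valuation_le_one b)
    have hmn : O.valuation π ^ (m + n) = O.valuation π ^ (1 : ℤ) := by
      rw [zpow_add₀ hpos.ne', ← hm, ← hn, ← map_mul, ← hab', zpow_one]
    have hmn' : m + n = 1 := by
      have h3 : O.valuation π ^ (m + n - 1) = 1 := by
        rw [zpow_sub₀ hpos.ne', hmn, div_self]
        exact zpow_ne_zero _ hpos.ne'
      have h4 : O.valuation π ^ (-(m + n - 1)) = 1 := by
        rw [_root_.zpow_neg, h3, inv_one]
      have := key _ h3.le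
      have := key _ h4.le
      omega
    rcases (by omega : m = 0 ∨ n = 0) with h0 | h0
    · left; rw [unit_iff, hm, h0, zpow_zero]
    · right; rw [unit_iff, hn, h0, zpow_zero]
  · intro x hx
    have hx0 : (x : K) ≠ 0 := by simpa using hx
    obtain ⟨n, hn⟩ := h _ hx0
    have hn0 : 0 ≤ n := key n (by rw [← hn]; exact O.valuation_le_one x)
    refine ⟨n.toNat, ?_⟩
    have hv : O.valuation ((x : K) / π ^ n.toNat) = 1 := by
      rw [map_div₀, map_pow, hn, ← zpow_natCast, Int.toNat_of_nonneg hn0]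
      exact div_self (zpow_ne_zero _ hpos.ne')
    have hmemu : (x : K) / π ^ n.toNat ∈ O := (O.valuation_le_one_iff _).1 hv.le
    have hu : IsUnit (⟨_, hmemu⟩ : O) := (unit_iff _).2 hv
    refine ⟨hu.unit, ?_⟩
    apply Subtype.ext
    change π ^ n.toNat * ((x : K) / π ^ n.toNat) = x
    rw [mul_div_cancel₀]
    exact pow_ne_zero _ h1

section Infty

variable {F : Type*} [Field F]

open Classical in
/-- the valuation at infinity -/
noncomputable abbrev w (F : Type*) [Field F] : Valuation (RatFunc F) ℤᵐ⁰ := RatFunc.inftyValuation F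

lemma w_ne {x : RatFunc F} (hx : x ≠ 0) : w F x = exp x.intDegree := by
  classical
  rw [w, RatFunc.inftyValuation_apply, RatFunc.inftyValuation_of_nonzero F hx]

lemma w_X : w F RatFunc.X = exp (1 : ℤ) := by
  rw [w_ne RatFunc.X_ne_zero, RatFunc.intDegree_X]

lemma w_C {c : F} (hc : c ≠ 0) : w F (RatFunc.C c) = 1 := by
  rw [w_ne ((_root_.map_ne_zero _).2 hc), RatFunc.intDegree_C, exp_zero]

lemma w_C_le (c : F) : w F (RatFunc.C c) ≤ 1 := by
  by_cases hc : c = 0
  · simp [hc]
  · rw [w_C hc]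

lemma w_X_zpow (m : ℤ) : w F (RatFunc.X ^ m) = exp m := by
  rw [map_zpow₀, w_X, ← WithZero.exp_zsmul]; simp

lemma w_poly {p : F[X]} (hp : p ≠ 0) :
    w F (algebraMap F[X] (RatFunc F) p) = exp (p.natDegree : ℤ) := by
  rw [w_ne (by simpa using hp), RatFunc.intDegree_polynomial]

/-- the valuation ring at infinity -/
noncomputable def Oi (F : Type*) [Field F] : ValuationSubring (RatFunc F) := (w F).valuationSubring

lemma mem_Oi (x : RatFunc F) : x ∈ Oi F ↔ w F x ≤ 1 := Iff.rfl

lemma dvrOver_Oi : DvrOver F (Oi F) := by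
  have hval : ∀ x y : RatFunc F, (Oi F).valuation x ≤ (Oi F).valuation y ↔ w F x ≤ w F y := by
    intro x y
    exact (Valuation.isEquiv_valuation_valuationSubring (w F)).symm x y
  refine ⟨dvr_of (Oi F) RatFunc.X⁻¹ (inv_ne_zero RatFunc.X_ne_zero) ?_ ?_, ?_⟩
  · rw [← not_le, ← map_one (Oi F).valuation, hval, not_le, map_one, map_inv₀, w_X, ← WithZero.exp_neg,
      ← exp_zero]
    exact exp_lt_exp.2 (by norm_num)
  · intro x hx
    refine ⟨-x.intDegree, ?_⟩
    rw [← map_zpow₀]
    have e : w F x = w F (RatFunc.X⁻¹ ^ (-x.intDegree)) := by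
      rw [w_ne hx, _root_.inv_zpow, _root_.zpow_neg, inv_inv, w_X_zpow]
    exact le_antisymm ((hval _ _).2 e.le) ((hval _ _).2 e.ge)
  · intro a
    rw [mem_Oi]
    exact w_C_le a

lemma exists_res (f : RatFunc F) (hf : w F f ≤ 1) : ∃ c : F, w F (f - RatFunc.C c) < 1 := by
  by_cases h0 : f = 0
  · exact ⟨0, by simp [h0]⟩
  have hd : f.denom ≠ 0 := f.denom_ne_zero
  have hdeg : f.num.natDegree ≤ f.denom.natDegree := by
    rw [w_ne h0, ← exp_zero, exp_le_exp, RatFunc.intDegree] at hf
    omega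
  refine ⟨f.num.coeff f.denom.natDegree, ?_⟩
  set c := f.num.coeff f.denom.natDegree with hc
  have hfe : f - RatFunc.C c =
      algebraMap F[X] (RatFunc F) (f.num - C c * f.denom) / algebraMap F[X] (RatFunc F) f.denom := by
    have hd' : algebraMap F[X] (RatFunc F) f.denom ≠ 0 := by simpa using hd
    rw [map_sub, map_mul, sub_div, mul_div_assoc, div_self hd', mul_one, RatFunc.num_div_denom]
    simp
  rw [hfe]
  by_cases hz : f.num - C c * f.denom = 0
  · rw [hz]; simp
  rw [map_div₀, w_poly hz, w_poly hd, ← exp_sub, ← exp_zero, exp_lt_exp]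
  have hlt : (f.num - C c * f.denom).degree < f.denom.natDegree := by
    rw [Polynomial.degree_lt_iff_coeff_zero]
    intro m hm
    rcases Nat.lt_or_eq_of_le hm with h | h
    · rw [coeff_sub, coeff_C_mul, coeff_eq_zero_of_natDegree_lt (by omega),
        coeff_eq_zero_of_natDegree_lt h, mul_zero, sub_zero]
    · rw [← h, coeff_sub, coeff_C_mul, ← hc]
      have : f.denom.coeff f.denom.natDegree = 1 := RatFunc.monic_denom f
      rw [this]; ring
  rw [Polynomial.degree_eq_natDegree hz] at hlt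
  have : (f.num - C c * f.denom).natDegree < f.denom.natDegree := by exact_mod_cast hlt
  omega

/-- finite sums have bounded valuation -/
lemma w_sum_le {ι : Type*} (s : Finset ι) (f : ι → RatFunc F) {m : ℤ}
    (h : ∀ i ∈ s, w F (f i) ≤ exp m) : w F (∑ i ∈ s, f i) ≤ exp m :=
  Valuation.map_sum_le _ h

lemma w_sum_lt {ι : Type*} (s : Finset ι) (f : ι → RatFunc F)
    (h : ∀ i ∈ s, w F (f i) < 1) : w F (∑ i ∈ s, f i) < 1 :=
  Valuation.map_sum_lt _ one_ne_zero h

lemma lt_one_iff {x : ℤᵐ⁰} : x < 1 ↔ x ≤ exp (-1 : ℤ) := by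
  induction x using WithZero.expRecOn with
  | zero => simp
  | exp a =>
    rw [← exp_zero, exp_lt_exp, exp_le_exp]
    omega

/-- determinants of matrices over the valuation ring at infinity -/
lemma w_det_le {n : ℕ} (M : Matrix (Fin n) (Fin n) (RatFunc F)) (hM : ∀ i j, w F (M i j) ≤ 1) :
    w F M.det ≤ 1 := by
  let M' : Matrix (Fin n) (Fin n) (Oi F) := fun i j => ⟨M i j, hM i j⟩
  have : M.det = ((M'.det : Oi F) : RatFunc F) := by
    have h := RingHom.map_det (Oi F).subtype M'
    exact h.symm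
  rw [this]
  exact M'.det.2

lemma w_det_sub {n : ℕ} (M N : Matrix (Fin n) (Fin n) (RatFunc F)) (hM : ∀ i j, w F (M i j) ≤ 1)
    (hN : ∀ i j, w F (N i j) ≤ 1) (h : ∀ i j, w F (M i j - N i j) < 1) :
    w F (M.det - N.det) < 1 := by
  let M' : Matrix (Fin n) (Fin n) (Oi F) := fun i j => ⟨M i j, hM i j⟩
  let N' : Matrix (Fin n) (Fin n) (Oi F) := fun i j => ⟨N i j, hN i j⟩
  have hmem : ∀ x : Oi F, IsLocalRing.residue (Oi F) x = 0 ↔ w F (x : RatFunc F) < 1 := by
    intro x
    rw [IsLocalRing.residue_eq_zero_iff, ValuationSubring.valuation_lt_one_iff,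
      ← map_one (Oi F).valuation, ← map_one (w F), ← not_le, ← not_le, not_iff_not]
    exact ((Valuation.isEquiv_valuation_valuationSubring (w F)) _ _).symm
  have h1 : (M'.det : RatFunc F) = M.det := RingHom.map_det (Oi F).subtype M'
  have h2 : (N'.det : RatFunc F) = N.det := RingHom.map_det (Oi F).subtype N'
  have h3 : (IsLocalRing.residue (Oi F)).mapMatrix M' = (IsLocalRing.residue (Oi F)).mapMatrix N' := by
    ext i j
    change IsLocalRing.residue (Oi F) (M' i j) = IsLocalRing.residue (Oi F) (N' i j)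
    rw [← sub_eq_zero, ← map_sub, hmem]
    exact h i j
  have h4 : IsLocalRing.residue (Oi F) (M'.det - N'.det) = 0 := by
    rw [map_sub, RingHom.map_det, RingHom.map_det, h3, sub_self]
  rw [hmem] at h4
  rw [← h1, ← h2]
  exact h4

variable {n : ℕ}

lemma mul_map (M N : Matrix (Fin n) (Fin n) F[X]) :
    (M * N).map (algebraMap F[X] (RatFunc F)) =
      M.map (algebraMap F[X] (RatFunc F)) * N.map (algebraMap F[X] (RatFunc F)) :=
  Matrix.map_mul

lemma w_unit {p : F[X]} (hp : IsUnit p) : w F (algebraMap F[X] (RatFunc F) p) = 1 := by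
  rw [w_poly hp.ne_zero, Polynomial.natDegree_eq_zero_of_isUnit hp]; simp

lemma w_det_map (V : Matrix (Fin n) (Fin n) F[X]) (hV : IsUnit V.det) :
    w F (V.map (algebraMap F[X] (RatFunc F))).det = 1 := by
  have : (V.map (algebraMap F[X] (RatFunc F))).det = algebraMap F[X] (RatFunc F) V.det :=
    (RingHom.map_det (algebraMap F[X] (RatFunc F)) V).symm
  rw [this, w_unit hV]

section Main

variable (S : Matrix (Fin n) (Fin n) F[X]) (T S' : Matrix (Fin n) (Fin n) (RatFunc F))
  (hS' : ∀ i j, w F (S' i j) ≤ 1) (hA : S.map (algebraMap F[X] (RatFunc F)) = Tᵀ * S' * T)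

include hS' hA in
lemma bound (V : Matrix (Fin n) (Fin n) F[X]) (d : Fin n → ℤ)
    (hd : ∀ i j, w F ((T * V.map (algebraMap F[X] (RatFunc F))) i j) ≤ exp (d j)) (i j : Fin n) :
    w F (algebraMap F[X] (RatFunc F) ((Vᵀ * S * V) i j)) ≤ exp (d i + d j) := by
  set W := T * V.map (algebraMap F[X] (RatFunc F)) with hW
  have e : (Vᵀ * S * V).map (algebraMap F[X] (RatFunc F)) = Wᵀ * S' * W := by
    rw [mul_map, mul_map, hA, hW, Matrix.transpose_mul, Matrix.transpose_map]
    simp only [Matrix.mul_assoc]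
  have e2 : algebraMap F[X] (RatFunc F) ((Vᵀ * S * V) i j) = (Wᵀ * S' * W) i j := by
    rw [← e]; rfl
  rw [e2, Matrix.mul_apply]
  refine w_sum_le _ _ fun b _ => ?_
  rw [map_mul, exp_add]
  refine mul_le_mul' ?_ (hd b j)
  rw [Matrix.mul_apply]
  refine w_sum_le _ _ fun a _ => ?_
  rw [map_mul, Matrix.transpose_apply]
  calc w F (W a i) * w F (S' a b) ≤ exp (d i) * 1 := mul_le_mul' (hd a i) (hS' a b)
    _ = exp (d i) := mul_one _

include hS' hA in
lemma d_nonneg (han : ¬ Isot (S.map (algebraMap F[X] (RatFunc F))))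
    (V : Matrix (Fin n) (Fin n) F[X]) (hV : IsUnit V.det) (d : Fin n → ℤ)
    (hd : ∀ i j, w F ((T * V.map (algebraMap F[X] (RatFunc F))) i j) ≤ exp (d j)) (j : Fin n) :
    0 ≤ d j := by
  have hb := bound S T S' hS' hA V d hd j j
  have hq : (Vᵀ * S * V) j j ≠ 0 := by
    intro h0
    apply han
    refine ⟨fun i => algebraMap F[X] (RatFunc F) (V i j), ?_, ?_⟩
    · intro hz
      have hcol : ∀ i, V i j = 0 := by
        intro i
        have := congrFun hz i
        simpa using this
      exact hV.ne_zero (Matrix.det_eq_zero_of_column_eq_zero j hcol)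
    · have h1 : algebraMap F[X] (RatFunc F) ((Vᵀ * S * V) j j) = 0 := by rw [h0, map_zero]
      rw [← h1, Matrix.mul_assoc, Matrix.mul_apply]
      simp only [map_sum, map_mul, Matrix.transpose_apply, dotProduct, Matrix.mulVec,
        Matrix.mul_apply, Matrix.map_apply]
  rw [w_poly hq, exp_le_exp] at hb
  omega

lemma reduce (hT : w F T.det = 1)
    (V : Matrix (Fin n) (Fin n) F[X]) (hV : IsUnit V.det) (d : Fin n → ℤ)
    (hd : ∀ i j, w F ((T * V.map (algebraMap F[X] (RatFunc F))) i j) ≤ exp (d j))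
    (hpos : 0 < ∑ j, d j) :
    ∃ (V' : Matrix (Fin n) (Fin n) F[X]) (d' : Fin n → ℤ), IsUnit V'.det ∧
      (∀ i j, w F ((T * V'.map (algebraMap F[X] (RatFunc F))) i j) ≤ exp (d' j)) ∧
      ∑ j, d' j = ∑ j, d j - 1 := by
  classical
  set W := T * V.map (algebraMap F[X] (RatFunc F)) with hW
  have hX : (RatFunc.X : RatFunc F) ≠ 0 := RatFunc.X_ne_zero
  set M : Matrix (Fin n) (Fin n) (RatFunc F) :=
    W * Matrix.diagonal (fun j => (RatFunc.X : RatFunc F) ^ (-d j)) with hM
  have hMe : ∀ i j, M i j = W i j * RatFunc.X ^ (-d j) := fun i j => by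
    rw [hM, Matrix.mul_diagonal]
  have hM1 : ∀ i j, w F (M i j) ≤ 1 := by
    intro i j
    rw [hMe, map_mul, w_X_zpow]
    calc w F (W i j) * exp (-d j) ≤ exp (d j) * exp (-d j) := mul_le_mul' (hd i j) le_rfl
      _ = 1 := by rw [← exp_add]; simp
  have hdetM : w F M.det < 1 := by
    rw [hM, Matrix.det_mul, hW, Matrix.det_mul, map_mul, map_mul, hT, w_det_map V hV,
      Matrix.det_diagonal, one_mul, one_mul, map_prod]
    simp only [w_X_zpow]
    have : ∏ j, exp (-d j) = exp (-∑ j, d j) := by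
      rw [← Finset.sum_neg_distrib]
      induction (Finset.univ : Finset (Fin n)) using Finset.induction_on with
      | empty => simp
      | insert a s ha ih => rw [Finset.prod_insert ha, Finset.sum_insert ha, exp_add, ih]
    rw [this, ← exp_zero, exp_lt_exp]
    omega
  choose C hC using fun i j => exists_res (M i j) (hM1 i j)
  have hCdet : (Matrix.of C).det = 0 := by
    by_contra hne
    have h1 := w_det_sub M ((Matrix.of C).map RatFunc.C) hM1 (fun i j => w_C_le _)
      (fun i j => hC i j)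
    have h2 : ((Matrix.of C).map RatFunc.C).det = RatFunc.C (Matrix.of C).det :=
      (RingHom.map_det RatFunc.C (Matrix.of C)).symm
    rw [h2] at h1
    have h3 : w F (RatFunc.C (Matrix.of C).det) < 1 := by
      have : RatFunc.C (Matrix.of C).det = M.det - (M.det - RatFunc.C (Matrix.of C).det) := by ring
      rw [this]
      exact lt_of_le_of_lt (Valuation.map_sub _ _ _) (max_lt hdetM h1)
    rw [w_C hne] at h3
    exact lt_irrefl _ h3
  obtain ⟨c, hc0, hc⟩ := Matrix.exists_mulVec_eq_zero_iff.2 hCdet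
  have hne : (Finset.univ.filter fun i => c i ≠ 0).Nonempty := by
    by_contra hcon
    apply hc0
    ext i
    by_contra hi
    exact hcon ⟨i, by simpa using hi⟩
  obtain ⟨i0, hi0, hmax⟩ := Finset.exists_max_image _ d hne
  have hci0 : c i0 ≠ 0 := by simpa using hi0
  have hmax' : ∀ j, c j ≠ 0 → d j ≤ d i0 := fun j hj => hmax j (by simpa using hj)
  let e : Fin n → F[X] := fun j => Polynomial.C (c j / c i0) * Polynomial.X ^ (d i0 - d j).toNat
  let E : Matrix (Fin n) (Fin n) F[X] := (1 : Matrix (Fin n) (Fin n) F[X]).updateCol i0 e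
  have hEself : ∀ a, E a i0 = e a := fun a => Matrix.updateCol_self
  have hEne : ∀ a j, j ≠ i0 → E a j = (1 : Matrix (Fin n) (Fin n) F[X]) a j :=
    fun a j hj => Matrix.updateCol_ne hj
  have hE : E.det = 1 := by
    have h1 : E.det = Matrix.cramer (1 : Matrix (Fin n) (Fin n) F[X]) e i0 :=
      (Matrix.cramer_apply _ _ _).symm
    rw [h1, Matrix.cramer_one]
    simp [e, div_self hci0]
  refine ⟨V * E, Function.update d i0 (d i0 - 1), ?_, ?_, ?_⟩
  · rw [Matrix.det_mul, hE, mul_one]; exact hV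
  · intro i j
    have hTE : T * (V * E).map (algebraMap F[X] (RatFunc F)) =
        W * E.map (algebraMap F[X] (RatFunc F)) := by
      rw [mul_map, hW, Matrix.mul_assoc]
    rw [hTE, Matrix.mul_apply]
    by_cases hj : j = i0
    · subst hj
      rw [Function.update_self]
      have hsum : ∑ a, W i a * E.map (algebraMap F[X] (RatFunc F)) a j =
          RatFunc.X ^ (d j) * RatFunc.C (c j)⁻¹ *
            ∑ a, (M i a - RatFunc.C (C i a)) * RatFunc.C (c a) := by
        have hz : ∑ a, RatFunc.C (C i a) * RatFunc.C (c a) = 0 := by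
          have := congrFun hc i
          simp only [Matrix.mulVec, dotProduct, Matrix.of_apply, Pi.zero_apply] at this
          rw [← map_zero (RatFunc.C : F →+* RatFunc F), ← this, map_sum]
          simp only [map_mul]
        have hz2 : ∑ a, (M i a - RatFunc.C (C i a)) * RatFunc.C (c a) =
            ∑ a, M i a * RatFunc.C (c a) := by
          simp only [sub_mul, Finset.sum_sub_distrib]
          rw [hz, sub_zero]
        rw [hz2, Finset.mul_sum]
        refine Finset.sum_congr rfl fun a _ => ?_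
        rw [Matrix.map_apply, hEself, hMe]
        simp only [e, map_mul, map_pow, RatFunc.algebraMap_C, RatFunc.algebraMap_X]
        by_cases hca : c a = 0
        · simp [hca]
        · have h1 := hmax' a hca
          have h2 : (RatFunc.X : RatFunc F) ^ (d j - d a).toNat =
              RatFunc.X ^ (d j) * RatFunc.X ^ (-d a) := by
            rw [← zpow_natCast, Int.toNat_of_nonneg (by omega), ← zpow_add₀ hX]
            congr 1
          rw [h2, div_eq_mul_inv, map_mul]
          ring
      rw [hsum, map_mul, map_mul, w_X_zpow, w_C (inv_ne_zero hci0), mul_one,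
        sub_eq_add_neg, exp_add]
      refine mul_le_mul' le_rfl (lt_one_iff.1 (w_sum_lt _ _ fun a _ => ?_))
      rw [map_mul]
      exact mul_lt_one_of_lt_of_le (hC i a) (w_C_le _)
    · rw [Function.update_of_ne hj]
      have hsum : ∑ a, W i a * E.map (algebraMap F[X] (RatFunc F)) a j = W i j := by
        rw [Finset.sum_eq_single j]
        · rw [Matrix.map_apply, hEne _ _ hj, Matrix.one_apply_eq, map_one, mul_one]
        · intro b _ hb
          rw [Matrix.map_apply, hEne _ _ hj, Matrix.one_apply_ne hb, map_zero, mul_zero]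
        · simp
      rw [hsum]
      exact hd i j
  · rw [Finset.sum_update_of_mem (Finset.mem_univ _)]
    have := Finset.add_sum_erase Finset.univ d (Finset.mem_univ i0)
    rw [Finset.sdiff_singleton_eq_erase]
    omega

include hS' hA in
lemma main (hT : w F T.det = 1) (han : ¬ Isot (S.map (algebraMap F[X] (RatFunc F)))) (N : ℕ) :
    ∀ (V : Matrix (Fin n) (Fin n) F[X]), IsUnit V.det → ∀ (d : Fin n → ℤ),
    (∀ i j, w F ((T * V.map (algebraMap F[X] (RatFunc F))) i j) ≤ exp (d j)) →
    (∑ j, d j = N) →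
    ∃ V : Matrix (Fin n) (Fin n) F[X], IsUnit V.det ∧
      ∃ S0 : Matrix (Fin n) (Fin n) F, Vᵀ * S * V = S0.map Polynomial.C := by
  induction N with
  | zero =>
    intro V hV d hd hsum
    have hnn := d_nonneg S T S' hS' hA han V hV d hd
    have hz : ∀ j, d j = 0 := by
      have := (Finset.sum_eq_zero_iff_of_nonneg (fun j _ => hnn j)).1 (by simpa using hsum)
      intro j; exact this j (Finset.mem_univ j)
    refine ⟨V, hV, Matrix.of fun i j => ((Vᵀ * S * V) i j).coeff 0, ?_⟩
    ext1 i j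
    rw [Matrix.map_apply, Matrix.of_apply]
    have hb := bound S T S' hS' hA V d hd i j
    rw [hz, hz] at hb
    by_cases h0 : (Vᵀ * S * V) i j = 0
    · rw [h0]; simp
    rw [w_poly h0, exp_le_exp] at hb
    exact Polynomial.eq_C_of_natDegree_eq_zero (by omega)
  | succ N ih =>
    intro V hV d hd hsum
    obtain ⟨V', d', hV', hd', hs'⟩ := reduce T hT V hV d hd (by rw [hsum]; positivity)
    exact ih V' hV' d' hd' (by rw [hs', hsum]; push_cast; ring)

end Main

end Infty

end A1b

/-- A1b -/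
theorem lattice_infty {F : Type*} [Field F] {n : ℕ} (S : Matrix (Fin n) (Fin n) F[X])
    (hS : S.IsSymm) (hdet : IsUnit S.det) (han : ¬ Isot (S.map (algebraMap F[X] (RatFunc F))))
    (hU : ∀ O : ValuationSubring (RatFunc F), DvrOver F O →
      Unr O (S.map (algebraMap F[X] (RatFunc F)))) :
    ∃ V : Matrix (Fin n) (Fin n) F[X], IsUnit V.det ∧
      ∃ S0 : Matrix (Fin n) (Fin n) F, Vᵀ * S * V = S0.map Polynomial.C := by
  obtain ⟨P, hP, hint, hinv⟩ := hU (A1b.Oi F) A1b.dvrOver_Oi
  set A := S.map (algebraMap F[X] (RatFunc F)) with hA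
  set S' := Pᵀ * A * P with hS'
  have hPu : IsUnit P.det := isUnit_iff_ne_zero.2 hP
  have hPP : P * P⁻¹ = 1 := Matrix.mul_nonsing_inv P hPu
  have hPP' : (P⁻¹)ᵀ * Pᵀ = 1 := by rw [← Matrix.transpose_mul, hPP, Matrix.transpose_one]
  have hAe : A = (P⁻¹)ᵀ * S' * P⁻¹ := by
    rw [hS']
    calc A = ((P⁻¹)ᵀ * Pᵀ) * A * (P * P⁻¹) := by rw [hPP, hPP', Matrix.one_mul, Matrix.mul_one]
      _ = (P⁻¹)ᵀ * (Pᵀ * A * P) * P⁻¹ := by simp only [Matrix.mul_assoc]
  have hS'1 : ∀ i j, A1b.w F (S' i j) ≤ 1 := fun i j => hint i j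
  have hwS : A1b.w F S'.det = 1 := by
    refine le_antisymm (A1b.w_det_le _ hS'1) ?_
    have h1 : A1b.w F (S'.det)⁻¹ ≤ 1 := hinv
    rw [map_inv₀] at h1
    have h0 : A1b.w F S'.det ≠ 0 := by
      rw [_root_.map_ne_zero, hS', Matrix.det_mul, Matrix.det_mul, Matrix.det_transpose]
      have h2 : A.det ≠ 0 := by
        have := A1b.w_det_map S hdet
        intro h3
        rw [← hA, h3, map_zero] at this
        exact zero_ne_one this
      exact mul_ne_zero (mul_ne_zero hP h2) hP
    exact (inv_le_one₀ (zero_lt_iff.2 h0)).1 h1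
  have hwP : A1b.w F P.det = 1 := by
    have h1 : A1b.w F S'.det = A1b.w F P.det ^ 2 := by
      rw [hS', Matrix.det_mul, Matrix.det_mul, Matrix.det_transpose, map_mul, map_mul, hA,
        A1b.w_det_map S hdet, mul_one, sq]
    rw [hwS] at h1
    rcases lt_trichotomy (A1b.w F P.det) 1 with h | h | h
    · exact absurd h1.symm (pow_lt_one' h two_ne_zero).ne
    · exact h
    · exact absurd h1.symm (one_lt_pow' h two_ne_zero).ne'
  have hwT : A1b.w F (P⁻¹).det = 1 := by
    rw [Matrix.det_nonsing_inv, Ring.inverse_eq_inv', map_inv₀, hwP, inv_one]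
  obtain ⟨m, hm⟩ := Finite.exists_le (fun p : Fin n × Fin n => ((P⁻¹) p.1 p.2).intDegree)
  have hd0 : ∀ i j, A1b.w F ((P⁻¹ * (1 : Matrix (Fin n) (Fin n) F[X]).map
      (algebraMap F[X] (RatFunc F))) i j) ≤ exp ((fun _ => m : Fin n → ℤ) j) := by
    intro i j
    rw [Matrix.map_one _ (map_zero _) (map_one _), Matrix.mul_one]
    by_cases h0 : P⁻¹ i j = 0
    · rw [h0]; simp
    · rw [A1b.w_ne h0, exp_le_exp]
      exact hm (i, j)
  have hnn := A1b.d_nonneg S P⁻¹ S' hS'1 hAe han 1 (by simp) (fun _ => m) hd0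
  have hsum : 0 ≤ ∑ j : Fin n, (fun _ => m : Fin n → ℤ) j := Finset.sum_nonneg fun j _ => hnn j
  exact A1b.main S P⁻¹ S' hS'1 hAe hwT han (∑ j : Fin n, (fun _ => m : Fin n → ℤ) j).toNat 1
    (by simp) (fun _ => m) hd0 (by rw [Int.toNat_of_nonneg hsum])

end Pool.Agent.H918R3
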