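import Pool.Agent.H918R3.TGA

set_option autoImplicit false

/-! A2 (helper423): unramified over the Gauss extension implies unramified. -/

namespace Pool.Agent.H918R3

open Polynomial Matrix

namespace A2

open GA

theorem exists_point {k F : Type*} [Field k] [Infinite k] [Field F] [Algebra k F]
    (O : ValuationSubring F) (ι : k →+* O)
    (B : O[X]) (hB : B.map (IsLocalRing.residue O) ≠ 0) (d : F[X]) (hd : d ≠ 0) :
    ∃ t : k, IsUnit (B.eval (ι t)) ∧ d.eval (algebraMap k F t) ≠ 0 := by
  have h1 : Set.Finite {t : k | (B.map (IsLocalRing.residue O)).eval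
      (((IsLocalRing.residue O).comp ι) t) = 0} := by
    have hf : Set.Finite {x | (B.map (IsLocalRing.residue O)).IsRoot x} :=
      Polynomial.finite_setOfPred_isRoot hB
    exact hf.preimage (((IsLocalRing.residue O).comp ι).injective.injOn)
  have h2 : Set.Finite {t : k | d.eval (algebraMap k F t) = 0} := by
    have hf : Set.Finite {x | d.IsRoot x} := Polynomial.finite_setOfPred_isRoot hd
    exact hf.preimage ((algebraMap k F).injective.injOn)
  obtain ⟨t, ht⟩ := (h1.union h2).infinite_compl.nonempty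
  rw [Set.mem_compl_iff, Set.mem_union, not_or] at ht
  refine ⟨t, ?_, ht.2⟩
  by_contra hn
  apply ht.1
  have h3 : IsLocalRing.residue O (B.eval (ι t)) = 0 :=
    (IsLocalRing.residue_eq_zero_iff _).2 ((IsLocalRing.mem_maximalIdeal _).2 hn)
  have h4 : (B.map (IsLocalRing.residue O)).eval (((IsLocalRing.residue O).comp ι) t)
      = IsLocalRing.residue O (B.eval (ι t)) := by
    rw [Polynomial.eval_map]
    exact Polynomial.eval₂_at_apply _ _
  rw [Set.mem_ofPred_eq, h4, h3]

theorem div_mem {F : Type*} [Field F] (O : ValuationSubring F) {x : F} {a b : O}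
    (hb : IsUnit b) (h : x * (b : F) = (a : F)) : x ∈ O := by
  obtain ⟨v, hv⟩ := hb.exists_right_inv
  have hv' : (b : F) * (v : F) = 1 := congrArg Subtype.val hv
  have : x = ((a * v : O) : F) := by
    change x = (a : F) * (v : F)
    rw [← h, mul_assoc, hv', mul_one]
  rw [this]
  exact (a * v).2

end A2

open GA A2 in
/-- A2 -/
theorem unr_specialize {k F : Type*} [Field k] [Infinite k] [Field F] [Algebra k F]
    (O : ValuationSubring F) (hk : ∀ a : k, algebraMap k F a ∈ O)
    (O' : ValuationSubring (RatFunc F)) (hG : IsGauss O O') {n : ℕ} (G : Matrix (Fin n) (Fin n) F)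
    (hdet : G.det ≠ 0) (hU : Unr O' (G.map (algebraMap F (RatFunc F)))) : Unr O G := by
  obtain ⟨P, hP, hPm, hPd⟩ := hU
  set α : F[X] →+* RatFunc F := algebraMap F[X] (RatFunc F) with hα
  have hαinj : Function.Injective α := RatFunc.algebraMap_injective F
  set M := Pᵀ * G.map (algebraMap F (RatFunc F)) * P with hM
  -- the embedding of `k` in `O`
  let ι : k →+* O := (algebraMap k F).codRestrict O.toSubring hk
  have hι : ∀ a, ((ι a : O) : F) = algebraMap k F a := fun a => rfl
  -- common denominator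
  obtain ⟨d, hd⟩ := IsLocalization.exist_integer_multiples_of_finite (nonZeroDivisors F[X])
    (fun ij : Fin n × Fin n => P ij.1 ij.2)
  choose P' hP' using hd
  have hd0 : (d : F[X]) ≠ 0 := nonZeroDivisors.ne_zero d.2
  set Q : Matrix (Fin n) (Fin n) F[X] := Matrix.of fun i j => P' (i, j) with hQ
  have hQP : Q.map α = α (d : F[X]) • P := by
    ext i j
    have := hP' (i, j)
    simp only [Matrix.map_apply, hQ, Matrix.of_apply, Matrix.smul_apply]
    rw [hα, this]
    rw [Algebra.smul_def]
    rfl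
  have hGG : G.map (algebraMap F (RatFunc F)) = (G.map C).map α := by
    ext i j
    simp only [Matrix.map_apply]
    rw [hα, RatFunc.algebraMap_C]
    rfl
  have hQM : (Qᵀ * G.map C * Q).map α = (α (d : F[X]) ^ 2) • M := by
    rw [Matrix.map_mul, Matrix.map_mul, Matrix.transpose_map, hQP, ← hGG, hM,
      Matrix.transpose_smul, Matrix.smul_mul, Matrix.smul_mul, Matrix.mul_smul, smul_smul, pow_two]
  -- numerators and denominators
  have hab : ∀ i j, ∃ a b : O[X], b.map (IsLocalRing.residue O) ≠ 0 ∧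
      M i j * psi O b = psi O a := fun i j => (hG _).1 (hPm i j)
  choose a b hb hab using hab
  obtain ⟨a0, b0, hb0, hab0⟩ := (hG _).1 hPd
  change (M.det)⁻¹ * psi O b0 = psi O a0 at hab0
  have hMdet : M.det ≠ 0 := by
    rw [hM, Matrix.det_mul, Matrix.det_mul, Matrix.det_transpose]
    apply mul_ne_zero (mul_ne_zero hP _) hP
    have : (G.map (algebraMap F (RatFunc F))).det = algebraMap F (RatFunc F) G.det := by
      rw [RingHom.map_det]
      rfl
    rw [this]
    intro h
    exact hdet ((algebraMap F (RatFunc F)).injective (by rw [h, map_zero]))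
  -- the point
  set B : O[X] := (∏ i, ∏ j, b i j) * b0 with hB
  have hBne : B.map (IsLocalRing.residue O) ≠ 0 := by
    rw [hB, Polynomial.map_mul]
    apply mul_ne_zero _ hb0
    rw [Polynomial.map_prod]
    apply Finset.prod_ne_zero_iff.2
    intro i _
    rw [Polynomial.map_prod]
    exact Finset.prod_ne_zero_iff.2 fun j _ => hb i j
  obtain ⟨t, hBt, hdt⟩ := exists_point O ι B hBne (d : F[X]) hd0
  rw [hB, eval_mul, IsUnit.mul_iff, eval_prod] at hBt
  obtain ⟨hb1, hb0t⟩ := hBt
  have hbt : ∀ i j, IsUnit ((b i j).eval (ι t)) := by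
    intro i j
    have h1 := (IsUnit.prod_univ_iff.1 hb1) i
    rw [eval_prod] at h1
    exact (IsUnit.prod_univ_iff.1 h1) j
  set x0 : F := algebraMap k F t with hx0
  set D : F := (d : F[X]).eval x0 with hD
  have hev : ∀ p : O[X], (p.map (algebraMap O F)).eval x0 = ((p.eval (ι t) : O) : F) := by
    intro p
    rw [Polynomial.eval_map]
    exact Polynomial.eval₂_at_apply (algebraMap O F) (ι t)
  set Q0 : Matrix (Fin n) (Fin n) F := Q.map (eval x0) with hQ0
  have hQ0' : Q0 = Q.map (evalRingHom x0) := rfl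
  have hGC : G = (G.map C).map (evalRingHom x0) := by
    ext i j
    simp
  have hQ0M : (Qᵀ * G.map C * Q).map (evalRingHom x0) = Q0ᵀ * G * Q0 := by
    rw [Matrix.map_mul, Matrix.map_mul, Matrix.transpose_map, ← hQ0', ← hGC]
  refine ⟨D⁻¹ • Q0, ?_⟩
  have hN : (D⁻¹ • Q0)ᵀ * G * (D⁻¹ • Q0) = (D⁻¹ ^ 2) • (Q0ᵀ * G * Q0) := by
    rw [Matrix.transpose_smul, Matrix.smul_mul, Matrix.smul_mul, Matrix.mul_smul, smul_smul,
      pow_two]
  -- entries
  have hent : ∀ i j, ((D⁻¹ • Q0)ᵀ * G * (D⁻¹ • Q0)) i j * (((b i j).eval (ι t) : O) : F) =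
      (((a i j).eval (ι t) : O) : F) := by
    intro i j
    have h1 : (Qᵀ * G.map C * Q) i j * (b i j).map (algebraMap O F) =
        (d : F[X]) ^ 2 * (a i j).map (algebraMap O F) := by
      apply hαinj
      rw [map_mul, map_mul, map_pow]
      have h2 : α ((Qᵀ * G.map C * Q) i j) = α (d : F[X]) ^ 2 * M i j := by
        have := congrFun (congrFun hQM i) j
        simpa [Matrix.map_apply, Matrix.smul_apply] using this
      rw [h2, mul_assoc]
      congr 1
      exact hab i j
    have h3 := congrArg (eval x0) h1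
    rw [eval_mul, eval_mul, eval_pow, hev, hev, ← hD] at h3
    have h4 : eval x0 ((Qᵀ * G.map C * Q) i j) = (Q0ᵀ * G * Q0) i j := by
      rw [← hQ0M]
      rfl
    rw [h4] at h3
    rw [hN, Matrix.smul_apply, smul_eq_mul, mul_assoc, h3]
    field_simp
  -- determinant
  have hdt0 : ((D⁻¹ • Q0)ᵀ * G * (D⁻¹ • Q0)).det * ((a0.eval (ι t) : O) : F) =
      ((b0.eval (ι t) : O) : F) := by
    have h1 : (Qᵀ * G.map C * Q).det * a0.map (algebraMap O F) =
        ((d : F[X]) ^ 2) ^ n * b0.map (algebraMap O F) := by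
      apply hαinj
      rw [map_mul, map_mul, map_pow, map_pow]
      have h2 : α ((Qᵀ * G.map C * Q).det) = (α (d : F[X]) ^ 2) ^ n * M.det := by
        rw [RingHom.map_det]
        change ((Qᵀ * G.map C * Q).map α).det = _
        rw [hQM, Matrix.det_smul, Fintype.card_fin]
      rw [h2, mul_assoc]
      congr 1
      change M.det * psi O a0 = psi O b0
      rw [← hab0, ← mul_assoc, mul_inv_cancel₀ hMdet, one_mul]
    have h3 := congrArg (eval x0) h1
    rw [eval_mul, eval_mul, eval_pow, eval_pow, hev, hev, ← hD] at h3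
    have h4 : eval x0 ((Qᵀ * G.map C * Q).det) = (Q0ᵀ * G * Q0).det := by
      rw [← hQ0M]
      exact RingHom.map_det (evalRingHom x0) _
    rw [h4] at h3
    rw [hN, Matrix.det_smul, Fintype.card_fin, mul_assoc, h3]
    rw [← mul_assoc, ← mul_pow, ← mul_pow, inv_mul_cancel₀ hdt, one_pow, one_pow, one_mul]
  have hb0ne : ((b0.eval (ι t) : O) : F) ≠ 0 := by
    intro h
    exact hb0t.ne_zero (Subtype.val_injective h)
  have hdne : ((D⁻¹ • Q0)ᵀ * G * (D⁻¹ • Q0)).det ≠ 0 := by
    intro h
    rw [h, zero_mul] at hdt0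
    exact hb0ne hdt0.symm
  refine ⟨?_, ?_, ?_⟩
  · intro h
    apply hdne
    rw [Matrix.det_mul, h, mul_zero]
  · intro i j
    exact div_mem O (hbt i j) (hent i j)
  · refine div_mem O (a := a0.eval (ι t)) hb0t ?_
    rw [← hdt0, ← mul_assoc, inv_mul_cancel₀ hdne, one_mul]

end Pool.Agent.H918R3
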