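import Pool.Agent.H918R3.Defs

set_option autoImplicit false

namespace Pool.Agent.H918R3

open Polynomial

section General

variable {k : Type} [Field k] {m : ℕ} {F : Type} [Field F] [Algebra k F]

/-- the map `k[X₀, …, X_m] → F(X)` induced by `ι : k[X₁, …, X_m] → F` -/
noncomputable def frPhi (ι : MvPolynomial (Fin m) k →ₐ[k] F) :
    MvPolynomial (Fin (m + 1)) k →ₐ[k] RatFunc F :=
  (IsScalarTower.toAlgHom k F[X] (RatFunc F)).comp
    ((Polynomial.mapAlgHom ι).comp (MvPolynomial.finSuccEquiv k m).toAlgHom)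

theorem frPhi_apply (ι : MvPolynomial (Fin m) k →ₐ[k] F) (f : MvPolynomial (Fin (m + 1)) k) :
    frPhi ι f = algebraMap F[X] (RatFunc F)
      ((MvPolynomial.finSuccEquiv k m f).map (ι : MvPolynomial (Fin m) k →+* F)) := rfl

theorem frPhi_injective (ι : MvPolynomial (Fin m) k →ₐ[k] F) (hι : Function.Injective ι) :
    Function.Injective (frPhi ι) := by
  intro f g h
  rw [frPhi_apply, frPhi_apply] at h
  have h1 := IsFractionRing.injective F[X] (RatFunc F) h
  have h2 := Polynomial.map_injective (ι : MvPolynomial (Fin m) k →+* F) hι h1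
  exact (MvPolynomial.finSuccEquiv k m).injective h2

theorem frPhi_X_zero (ι : MvPolynomial (Fin m) k →ₐ[k] F) :
    frPhi ι (MvPolynomial.X 0) = RatFunc.X := by
  rw [frPhi_apply, MvPolynomial.finSuccEquiv_X_zero, Polynomial.map_X, RatFunc.algebraMap_X]

theorem fse_rename (f : MvPolynomial (Fin m) k) :
    MvPolynomial.finSuccEquiv k m (MvPolynomial.rename Fin.succ f) = Polynomial.C f := by
  induction f using MvPolynomial.induction_on with
  | C a => simp [MvPolynomial.finSuccEquiv_apply]
  | add p q hp hq => simp [hp, hq]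
  | mul_X p i hp => rw [map_mul, map_mul, hp, MvPolynomial.rename_X,
      MvPolynomial.finSuccEquiv_X_succ, map_mul]

theorem frPhi_rename (ι : MvPolynomial (Fin m) k →ₐ[k] F) (f : MvPolynomial (Fin m) k) :
    frPhi ι (MvPolynomial.rename Fin.succ f) = RatFunc.C (ι f) := by
  rw [frPhi_apply, fse_rename, Polynomial.map_C, RatFunc.algebraMap_C]
  rfl

theorem exists_frac_general (ι : MvPolynomial (Fin m) k →ₐ[k] F) (hι : Function.Injective ι)
    (hq : ∀ z : F, ∃ P Q : MvPolynomial (Fin m) k, z = ι P / ι Q) :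
    ∃ e : FractionRing (MvPolynomial (Fin (m + 1)) k) ≃ₐ[k] RatFunc F,
      e (algebraMap (MvPolynomial (Fin (m + 1)) k) (FractionRing (MvPolynomial (Fin (m + 1)) k))
        (MvPolynomial.X 0)) = RatFunc.X ∧
      ∀ i : Fin m, e (algebraMap (MvPolynomial (Fin (m + 1)) k)
        (FractionRing (MvPolynomial (Fin (m + 1)) k)) (MvPolynomial.X i.succ)) =
        RatFunc.C (ι (MvPolynomial.X i)) := by
  let e0 : FractionRing (MvPolynomial (Fin (m + 1)) k) →ₐ[k] RatFunc F :=
    IsFractionRing.liftAlgHom (frPhi_injective ι hι)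
  have he0 : ∀ f : MvPolynomial (Fin (m + 1)) k, e0 (algebraMap _ _ f) = frPhi ι f := fun f => by
    show IsFractionRing.lift (frPhi_injective ι hι) (algebraMap _ _ f) = _
    rw [IsFractionRing.lift_algebraMap]
    rfl
  let S : Subfield (RatFunc F) := e0.toRingHom.fieldRange
  have hS : ∀ f, frPhi ι f ∈ S := fun f => ⟨algebraMap _ _ f, he0 f⟩
  have hC : ∀ z : F, RatFunc.C z ∈ S := by
    intro z
    obtain ⟨P, Q, rfl⟩ := hq z
    rw [map_div₀, ← frPhi_rename, ← frPhi_rename]
    exact div_mem (hS _) (hS _)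
  have hX : (RatFunc.X : RatFunc F) ∈ S := by
    rw [← frPhi_X_zero ι]
    exact hS _
  have hP : ∀ p : F[X], algebraMap F[X] (RatFunc F) p ∈ S := by
    intro p
    induction p using Polynomial.induction_on' with
    | add p q hp hq => rw [map_add]; exact add_mem hp hq
    | monomial n a =>
      rw [← Polynomial.C_mul_X_pow_eq_monomial, map_mul, map_pow, RatFunc.algebraMap_C,
        RatFunc.algebraMap_X]
      exact mul_mem (hC a) (pow_mem hX n)
  have hsurj : Function.Surjective e0 := by
    intro z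
    have hz : z ∈ S := by
      induction z using RatFunc.induction_on with
      | f p q hq => exact div_mem (hP p) (hP q)
    exact hz
  refine ⟨AlgEquiv.ofBijective e0 ⟨e0.toRingHom.injective, hsurj⟩, ?_, fun i => ?_⟩
  · show e0 _ = _
    rw [he0, frPhi_X_zero]
  · show e0 _ = _
    rw [he0, ← frPhi_rename, MvPolynomial.rename_X]

end General

/-- FR -/
theorem exists_fracEquiv (k : Type) [Field k] (m : ℕ) :
    ∃ e : FractionRing (MvPolynomial (Fin (m + 1)) k) ≃ₐ[k]
        RatFunc (FractionRing (MvPolynomial (Fin m) k)),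
      e (algebraMap (MvPolynomial (Fin (m + 1)) k) (FractionRing (MvPolynomial (Fin (m + 1)) k))
        (MvPolynomial.X 0)) = RatFunc.X ∧
      ∀ i : Fin m, e (algebraMap (MvPolynomial (Fin (m + 1)) k)
        (FractionRing (MvPolynomial (Fin (m + 1)) k)) (MvPolynomial.X i.succ)) =
        RatFunc.C (algebraMap (MvPolynomial (Fin m) k) (FractionRing (MvPolynomial (Fin m) k))
          (MvPolynomial.X i)) := by
  refine exists_frac_general
    (IsScalarTower.toAlgHom k (MvPolynomial (Fin m) k) (FractionRing (MvPolynomial (Fin m) k)))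
    (IsFractionRing.injective _ _) (fun z => ?_)
  obtain ⟨P, Q, _, h⟩ := IsFractionRing.div_surjective (A := MvPolynomial (Fin m) k) z
  exact ⟨P, Q, h.symm⟩

/-- A4t -/
theorem trdeg_two (k : Type) [Field k] (f : Fin 3 → FractionRing (MvPolynomial (Fin 2) k)) :
    ¬ AlgebraicIndependent k f := by
  intro h
  have h1 := h.cardinalMk_le_trdeg
  have : Algebra.IsAlgebraic (MvPolynomial (Fin 2) k) (FractionRing (MvPolynomial (Fin 2) k)) :=
    (IsFractionRing.comap_isAlgebraic_iff (A := MvPolynomial (Fin 2) k)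
      (K := FractionRing (MvPolynomial (Fin 2) k))
      (C := FractionRing (MvPolynomial (Fin 2) k))).2 inferInstance
  have h2 := trdeg_add_eq k (MvPolynomial (Fin 2) k)
    (A := FractionRing (MvPolynomial (Fin 2) k))
  rw [← h2, trdeg_eq_zero (R := MvPolynomial (Fin 2) k), MvPolynomial.trdeg_of_isDomain] at h1
  simp at h1
  norm_num at h1

/-- FR2 -/
theorem exists_fracEquiv_two (k : Type) [Field k] :
    ∃ e : FractionRing (MvPolynomial (Fin 2) k) ≃ₐ[k] RatFunc (RatFunc k),
      e (algebraMap (MvPolynomial (Fin 2) k) (FractionRing (MvPolynomial (Fin 2) k))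
        (MvPolynomial.X 0)) = RatFunc.X ∧
      e (algebraMap (MvPolynomial (Fin 2) k) (FractionRing (MvPolynomial (Fin 2) k))
        (MvPolynomial.X 1)) = RatFunc.C (RatFunc.X : RatFunc k) := by
  obtain ⟨e1, h1, -⟩ := exists_frac_general (k := k) (m := 0) (F := k)
    (MvPolynomial.isEmptyAlgEquiv k (Fin 0)).toAlgHom
    (MvPolynomial.isEmptyAlgEquiv k (Fin 0)).injective
    (fun z => ⟨(MvPolynomial.isEmptyAlgEquiv k (Fin 0)).symm z, 1, by simp⟩)
  obtain ⟨e2, h2, h3⟩ := exists_frac_general (k := k) (m := 1) (F := RatFunc k)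
    (e1.toAlgHom.comp (IsScalarTower.toAlgHom k (MvPolynomial (Fin 1) k)
      (FractionRing (MvPolynomial (Fin 1) k))))
    (fun x y hxy => IsFractionRing.injective _ (FractionRing (MvPolynomial (Fin 1) k))
      (e1.injective hxy))
    (fun z => by
      obtain ⟨P, Q, _, h⟩ := IsFractionRing.div_surjective (A := MvPolynomial (Fin 1) k)
        (e1.symm z)
      refine ⟨P, Q, ?_⟩
      have h' := congrArg e1 h
      rw [AlgEquiv.apply_symm_apply, map_div₀] at h'
      exact h'.symm)
  refine ⟨e2, h2, ?_⟩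
  have h4 := h3 0
  rw [show (Fin.succ (0 : Fin 1) : Fin 2) = 1 from rfl] at h4
  rw [h4]
  exact congrArg RatFunc.C h1

end Pool.Agent.H918R3
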