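import Pool.Agent.H918R3.TGA

set_option autoImplicit false

/-! GB (helper423): the Gauss extension of a DVR is a DVR. -/

namespace Pool.Agent.H918R3

open Polynomial

namespace GB

open GA

variable {F : Type*} [Field F] (O : ValuationSubring F)

/-- a constant times a quotient of primitive polynomials is in the Gauss extension iff the constant
is in `O` -/
theorem const_mem {f : RatFunc F} {c : F} {p q : O[X]}
    (hp : p.map (IsLocalRing.residue O) ≠ 0)
    (hf : f * psi O q = algebraMap F (RatFunc F) c * psi O p)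
    (hmem : ∃ a b : O[X], b.map (IsLocalRing.residue O) ≠ 0 ∧ f * psi O b = psi O a) : c ∈ O := by
  obtain ⟨a, b, hb, h⟩ := hmem
  have h1 : algebraMap F (RatFunc F) c * psi O (p * b) = psi O (a * q) := by
    rw [map_mul, map_mul, ← h, ← mul_assoc, ← hf]
    ring
  have hC : algebraMap F (RatFunc F) c = algebraMap F[X] (RatFunc F) (C c) := by
    rw [RatFunc.algebraMap_C]
    rfl
  rw [hC, psi_apply, psi_apply, ← map_mul] at h1
  have h2 := RatFunc.algebraMap_injective F h1
  have hpb := map_mul_ne O hp hb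
  -- a coefficient of `p * b` which is a unit
  obtain ⟨i, hi⟩ : ∃ i, ((p * b).map (IsLocalRing.residue O)).coeff i ≠ 0 := by
    by_contra hc
    push Not at hc
    exact hpb (Polynomial.ext (by simpa using hc))
  rw [coeff_map] at hi
  have hu : IsUnit ((p * b).coeff i) := by
    by_contra hn
    exact hi ((IsLocalRing.residue_eq_zero_iff _).2 ((IsLocalRing.mem_maximalIdeal _).2 hn))
  obtain ⟨v, hv⟩ := hu.exists_right_inv
  have h3 : c * algebraMap O F ((p * b).coeff i) = algebraMap O F ((a * q).coeff i) := by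
    have := congrArg (fun r => r.coeff i) h2
    simp only [coeff_C_mul] at this
    rwa [coeff_map, coeff_map] at this
  have h4 : c = algebraMap O F ((a * q).coeff i * v) := by
    rw [map_mul, ← h3, mul_assoc, ← map_mul, hv, map_one, mul_one]
  rw [h4]
  exact ((a * q).coeff i * v).2

theorem unit_quot (O' : ValuationSubring (RatFunc F)) (hG : IsGauss O O') {g : RatFunc F}
    {p q : O[X]} (hp : p.map (IsLocalRing.residue O) ≠ 0)
    (hq : q.map (IsLocalRing.residue O) ≠ 0) (h : g * psi O q = psi O p) :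
    ∃ w : O'ˣ, ((w : O') : RatFunc F) = g := by
  have hg : g ∈ O' := (hG g).2 ⟨p, q, hq, h⟩
  have hg0 : g ≠ 0 := by
    rintro rfl
    rw [zero_mul] at h
    exact psi_ne O hp h.symm
  have hgi : g⁻¹ ∈ O' := (hG g⁻¹).2 ⟨q, p, hp, by
    change g⁻¹ * psi O p = psi O q
    rw [← h]
    field_simp⟩
  refine ⟨⟨⟨g, hg⟩, ⟨g⁻¹, hgi⟩, ?_, ?_⟩, rfl⟩
  · apply Subtype.val_injective
    exact mul_inv_cancel₀ hg0
  · apply Subtype.val_injective
    exact inv_mul_cancel₀ hg0

end GB

open GA GB in
/-- GB -/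
theorem gauss_dvr {F : Type*} [Field F] (O : ValuationSubring F) (hO : IsDiscreteValuationRing O)
    (O' : ValuationSubring (RatFunc F)) (hG : IsGauss O O') : IsDiscreteValuationRing O' := by
  obtain ⟨π, hπ⟩ := IsDiscreteValuationRing.exists_irreducible O
  have hcO' : ∀ c : F, c ∈ O → algebraMap F (RatFunc F) c ∈ O' := by
    intro c hc
    refine (hG _).2 ⟨C ⟨c, hc⟩, 1, by simp, ?_⟩
    change algebraMap F (RatFunc F) c * psi O 1 = psi O (C ⟨c, hc⟩)
    rw [psi_C, map_one, mul_one]
  have hinj : Function.Injective (algebraMap F (RatFunc F)) := (algebraMap F (RatFunc F)).injective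
  set ϖ : O' := ⟨algebraMap F (RatFunc F) (π : F), hcO' _ π.2⟩ with hϖ
  have hπ0 : (π : F) ≠ 0 := by
    intro h
    exact hπ.ne_zero (Subtype.val_injective h)
  -- powers
  have key : ∀ x : O', x ≠ 0 → ∃ n : ℕ, Associated (ϖ ^ n) x := by
    intro x hx
    have hx0 : (x : RatFunc F) ≠ 0 := fun h => hx (Subtype.val_injective h)
    obtain ⟨c, p, q, hc, hp, hq, h⟩ := dec O (x : RatFunc F) hx0
    have hcO : c ∈ O := const_mem O hp h ((hG _).1 x.2)
    have hc1 : (⟨c, hcO⟩ : O) ≠ 0 := fun h => hc (congrArg Subtype.val h)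
    obtain ⟨n, hn⟩ := IsDiscreteValuationRing.associated_pow_irreducible hc1 hπ
    obtain ⟨u, hu⟩ := hn.symm
    have hu1 : (π : F) ^ n * ((u : O) : F) = c := congrArg Subtype.val hu
    -- the unit
    have hgq : (algebraMap F (RatFunc F) ((u : O) : F) * (psi O p / psi O q)) * psi O q =
        psi O (C (u : O) * p) := by
      rw [map_mul]
      have : psi O (C (u : O)) = algebraMap F (RatFunc F) ((u : O) : F) := psi_C O _ (u : O).2
      rw [this, mul_assoc, div_mul_cancel₀ _ (psi_ne O hq)]
    have hres : (C (u : O) * p).map (IsLocalRing.residue O) ≠ 0 := by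
      rw [Polynomial.map_mul, Polynomial.map_C]
      apply mul_ne_zero _ hp
      rw [Ne, C_eq_zero]
      exact (u.isUnit.map (IsLocalRing.residue O)).ne_zero
    obtain ⟨w, hw⟩ := unit_quot O O' hG hres hq hgq
    refine ⟨n, w, ?_⟩
    apply Subtype.val_injective
    change (algebraMap F (RatFunc F) (π : F)) ^ n * ((w : O') : RatFunc F) = x
    rw [hw, ← mul_assoc, ← map_pow, ← map_mul, hu1, ← mul_div_assoc, ← h,
      mul_div_cancel_right₀ _ (psi_ne O hq)]
  have hnu : ¬ IsUnit ϖ := by
    intro hu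
    obtain ⟨v, hv⟩ := hu.exists_right_inv
    have hv1 : algebraMap F (RatFunc F) (π : F) * (v : RatFunc F) = 1 := congrArg Subtype.val hv
    have hv2 : (v : RatFunc F) = algebraMap F (RatFunc F) ((π : F)⁻¹) := by
      rw [map_inv₀]
      have : algebraMap F (RatFunc F) (π : F) ≠ 0 := by
        intro h0
        exact hπ0 (hinj (by rw [h0, map_zero]))
      field_simp
      rw [mul_comm]
      exact hv1
    have hmem : algebraMap F (RatFunc F) ((π : F)⁻¹) ∈ O' := hv2 ▸ v.2
    have h1 : (1 : O[X]).map (IsLocalRing.residue O) ≠ 0 := by simp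
    have hcO : (π : F)⁻¹ ∈ O := const_mem O (f := algebraMap F (RatFunc F) ((π : F)⁻¹))
      (p := 1) (q := 1) h1 rfl ((hG _).1 hmem)
    apply hπ.not_isUnit
    refine IsUnit.of_mul_eq_one ⟨(π : F)⁻¹, hcO⟩ ?_
    apply Subtype.val_injective
    exact mul_inv_cancel₀ hπ0
  have hϖ0 : ϖ ≠ 0 := by
    intro h
    have : algebraMap F (RatFunc F) (π : F) = 0 := congrArg Subtype.val h
    exact hπ0 (hinj (by rw [this, map_zero]))
  have hirr : Irreducible ϖ := by
    refine ⟨hnu, ?_⟩
    intro x y hxy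
    have hx : x ≠ 0 := by
      rintro rfl
      rw [zero_mul] at hxy
      exact hϖ0 hxy
    have hy : y ≠ 0 := by
      rintro rfl
      rw [mul_zero] at hxy
      exact hϖ0 hxy
    obtain ⟨n, u, hn⟩ := key x hx
    obtain ⟨m, v, hm⟩ := key y hy
    rcases Nat.eq_zero_or_pos n with rfl | hn0
    · left
      rw [← hn, pow_zero, one_mul]
      exact u.isUnit
    rcases Nat.eq_zero_or_pos m with rfl | hm0
    · right
      rw [← hm, pow_zero, one_mul]
      exact v.isUnit
    exfalso
    apply hnu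
    have h1 : ϖ * 1 = ϖ * (ϖ ^ (n + m - 1) * (u * v)) := by
      rw [mul_one]
      nth_rewrite 1 [hxy]
      rw [← hn, ← hm]
      have : ϖ * (ϖ ^ (n + m - 1) * (u * v)) = ϖ ^ (n + m - 1 + 1) * (u * v) := by ring
      rw [this, Nat.sub_add_cancel (by omega), pow_add]
      ring
    have h2 := mul_left_cancel₀ hϖ0 h1
    have h3 : n + m - 1 = (n + m - 2) + 1 := by omega
    rw [h3, pow_succ] at h2
    refine IsUnit.of_mul_eq_one (ϖ ^ (n + m - 2) * (u * v)) ?_
    rw [h2]
    ring
  exact IsDiscreteValuationRing.ofHasUnitMulPowIrreducibleFactorization ⟨ϖ, hirr, fun {x} hx => key x hx⟩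

end Pool.Agent.H918R3
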