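import Pool.Agent.H918R3.TA1a
import Pool.Agent.H918R3.TA1b
import Pool.Agent.H918R3.TA2
import Pool.Agent.H918R3.TFR
import Pool.Agent.H918R3.TGA
import Pool.Agent.H918R3.TGB

set_option autoImplicit false

/-! Task A3: unramified forms over `k(X_1, ..., X_m)`, `k` algebraically closed, are isotropic. -/

namespace Pool.Agent.H918R3

open Matrix Polynomial

namespace A3

section
variable {K K' : Type*} [Field K] [Field K']

theorem isot_of_isoM {n : ℕ} {G H P : Matrix (Fin n) (Fin n) K} (hP : P.det ≠ 0)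
    (h : Pᵀ * G * P = H) (hH : Isot H) : Isot G := by
  obtain ⟨v, hv, h0⟩ := hH
  refine ⟨P *ᵥ v, ?_, ?_⟩
  · intro h1
    apply hv
    have hu : IsUnit P.det := isUnit_iff_ne_zero.mpr hP
    have h2 : P⁻¹ *ᵥ (P *ᵥ v) = 0 := by rw [h1, Matrix.mulVec_zero]
    rwa [Matrix.mulVec_mulVec, Matrix.nonsing_inv_mul _ hu, Matrix.one_mulVec] at h2
  · rw [← h0, ← h, ← Matrix.mulVec_mulVec, ← Matrix.mulVec_mulVec, Matrix.dotProduct_mulVec v Pᵀ,
      Matrix.vecMul_transpose]

theorem unr_of_isoM (O : ValuationSubring K) {n : ℕ} {G H P : Matrix (Fin n) (Fin n) K}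
    (hP : P.det ≠ 0) (h : Pᵀ * G * P = H) (hG : Unr O G) : Unr O H := by
  obtain ⟨R, hR, h1, h2⟩ := hG
  have hu : IsUnit P.det := isUnit_iff_ne_zero.mpr hP
  have key : (P⁻¹ * R)ᵀ * H * (P⁻¹ * R) = Rᵀ * G * R := by
    rw [← h, Matrix.transpose_mul, Matrix.transpose_nonsing_inv]
    have e1 : (Pᵀ)⁻¹ * Pᵀ = 1 := Matrix.nonsing_inv_mul _ (by rw [Matrix.det_transpose]; exact hu)
    have e2 : P * P⁻¹ = 1 := Matrix.mul_nonsing_inv _ hu
    calc Rᵀ * (Pᵀ)⁻¹ * (Pᵀ * G * P) * (P⁻¹ * R)
        = Rᵀ * ((Pᵀ)⁻¹ * Pᵀ) * G * (P * P⁻¹) * R := by simp only [Matrix.mul_assoc]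
      _ = _ := by rw [e1, e2, Matrix.mul_one, Matrix.mul_one]
  refine ⟨P⁻¹ * R, ?_, ?_, ?_⟩
  · rw [Matrix.det_mul, Matrix.det_nonsing_inv]
    exact mul_ne_zero (by rw [Ring.inverse_eq_inv']; exact inv_ne_zero hP) hR
  · rw [key]; exact h1
  · rw [key]; exact h2

theorem isot_map (e : K →+* K') {n : ℕ} {G : Matrix (Fin n) (Fin n) K} (h : Isot G) :
    Isot (G.map e) := by
  obtain ⟨v, hv, h0⟩ := h
  refine ⟨e ∘ v, ?_, ?_⟩
  · intro h1
    apply hv
    funext i
    have := congrFun h1 i
    rw [Function.comp_apply, Pi.zero_apply, map_eq_zero] at this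
    rw [this, Pi.zero_apply]
  · have h1 : (G.map e) *ᵥ (e ∘ v) = e ∘ (G *ᵥ v) := by
      funext i
      rw [Function.comp_apply, RingHom.map_mulVec]
    rw [h1, ← RingHom.map_dotProduct, h0, map_zero]

theorem isot_of_map (e : K ≃+* K') {n : ℕ} {G : Matrix (Fin n) (Fin n) K}
    (h : Isot (G.map e)) : Isot G := by
  have h1 := isot_map (e.symm : K' →+* K) h
  have h2 : (G.map e).map (e.symm : K' →+* K) = G := by
    ext i j
    simp
  rwa [h2] at h1

theorem unr_map (e : K ≃+* K') {n : ℕ} {G : Matrix (Fin n) (Fin n) K}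
    (O : ValuationSubring K') (h : Unr (O.comap (e : K →+* K')) G) : Unr O (G.map e) := by
  obtain ⟨R, hR, h1, h2⟩ := h
  have key : (R.map e)ᵀ * G.map e * R.map e = (Rᵀ * G * R).map e := by
    rw [Matrix.map_mul, Matrix.map_mul, Matrix.transpose_map]
  refine ⟨R.map e, ?_, ?_, ?_⟩
  · have : (R.map e).det = e R.det := (RingHom.map_det (e : K →+* K') R).symm
    rw [this]
    exact (map_ne_zero_iff _ e.injective).mpr hR
  · intro i j
    rw [key, Matrix.map_apply]
    exact h1 i j
  · rw [key]
    have : ((Rᵀ * G * R).map e).det = e (Rᵀ * G * R).det :=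
      (RingHom.map_det (e : K →+* K') _).symm
    rw [this, ← map_inv₀]
    exact h2

/-- the comap of a DVR under an isomorphism is a DVR -/
theorem dvr_comap (e : K ≃+* K') (O : ValuationSubring K') (h : IsDiscreteValuationRing O) :
    IsDiscreteValuationRing (O.comap (e : K →+* K')) := by
  let f : O.comap (e : K →+* K') ≃+* O :=
    { toFun := fun x => ⟨e x.1, x.2⟩
      invFun := fun y => ⟨e.symm y.1, by
        show e (e.symm y.1) ∈ O
        rw [e.apply_symm_apply]
        exact y.2⟩
      left_inv := fun x => Subtype.ext (e.symm_apply_apply _)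
      right_inv := fun y => Subtype.ext (e.apply_symm_apply _)
      map_mul' := fun x y => Subtype.ext (map_mul e _ _)
      map_add' := fun x y => Subtype.ext (map_add e _ _) }
  exact IsDiscreteValuationRing.RingEquivClass.isDiscreteValuationRing f.symm

theorem isot_algClosed (F : Type*) [Field F] [IsAlgClosed F] {n : ℕ} (hn : 2 ≤ n)
    (G : Matrix (Fin n) (Fin n) F) : Isot G := by
  obtain ⟨n, rfl⟩ : ∃ m, n = m + 2 := ⟨n - 2, by omega⟩
  have hv : ∀ s t : F, (s ≠ 0 ∨ t ≠ 0) →
      G 0 0 * s ^ 2 + (G 0 1 + G 1 0) * (s * t) + G 1 1 * t ^ 2 = 0 → Isot G := by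
    intro s t hst h
    refine ⟨Pi.single 0 s + Pi.single 1 t, ?_, ?_⟩
    · intro h0
      rcases hst with hs | ht
      · have := congrFun h0 0
        simp at this
        exact hs this
      · have := congrFun h0 1
        simp at this
        exact ht this
    · rw [Matrix.mulVec_add, dotProduct_add, add_dotProduct, add_dotProduct,
        Matrix.mulVec_single, Matrix.mulVec_single]
      simp only [single_dotProduct]
      simp
      linear_combination h
  by_cases h0 : G 0 0 = 0
  · exact hv 1 0 (Or.inl one_ne_zero) (by rw [h0]; ring)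
  · obtain ⟨s, hs⟩ := IsAlgClosed.exists_root
      (C (G 0 0) * X ^ 2 + C (G 0 1 + G 1 0) * X + C (G 1 1)) (by
        rw [Polynomial.degree_quadratic h0]; decide)
    refine hv s 1 (Or.inr one_ne_zero) ?_
    rw [Polynomial.IsRoot.def] at hs
    simp at hs
    linear_combination hs

end

end A3

open A3 in
/-- A3 -/
theorem isotropic_of_unramified (k : Type) [Field k] [IsAlgClosed k] (m : ℕ) {n : ℕ} (hn : 2 ≤ n)
    (G : Matrix (Fin n) (Fin n) (FractionRing (MvPolynomial (Fin m) k))) (hG : G.IsSymm)
    (hdet : G.det ≠ 0)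
    (hU : ∀ O : ValuationSubring (FractionRing (MvPolynomial (Fin m) k)), DvrOver k O → Unr O G) :
    Isot G := by
  induction m with
  | zero =>
    have hf : IsField (MvPolynomial (Fin 0) k) :=
      MulEquiv.isField (Field.toIsField k) (MvPolynomial.isEmptyAlgEquiv k (Fin 0)).toMulEquiv
    have hs : Function.Surjective (algebraMap (MvPolynomial (Fin 0) k)
        (FractionRing (MvPolynomial (Fin 0) k))) :=
      IsFractionRing.surjective_iff_isField.mpr hf
    let e1 : MvPolynomial (Fin 0) k ≃+* FractionRing (MvPolynomial (Fin 0) k) :=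
      RingEquiv.ofBijective _ ⟨IsFractionRing.injective _ _, hs⟩
    let e : k ≃+* FractionRing (MvPolynomial (Fin 0) k) :=
      (MvPolynomial.isEmptyAlgEquiv k (Fin 0)).symm.toRingEquiv.trans e1
    have : IsAlgClosed (FractionRing (MvPolynomial (Fin 0) k)) :=
      IsAlgClosed.of_ringEquiv k _ e
    exact isot_algClosed _ hn G
  | succ m ih =>
    set F := FractionRing (MvPolynomial (Fin m) k) with hF
    obtain ⟨e, -, -⟩ := exists_fracEquiv k m
    by_contra hani
    set G' : Matrix (Fin n) (Fin n) (RatFunc F) := G.map e with hG'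
    have hani' : ¬ Isot G' := fun h => hani (isot_of_map e.toRingEquiv h)
    have hdet' : G'.det ≠ 0 := by
      have h1 : (G.map e).det = e.toRingEquiv.toRingHom G.det :=
        (RingHom.map_det e.toRingEquiv.toRingHom G).symm
      rw [hG', h1]
      exact (map_ne_zero_iff _ e.injective).mpr hdet
    have hsymm' : G'.IsSymm := hG.map _
    have hU' : ∀ O : ValuationSubring (RatFunc F), DvrOver k O → Unr O G' := by
      intro O hO
      refine unr_map e.toRingEquiv O (hU _ ⟨dvr_comap e.toRingEquiv O hO.1, fun a => ?_⟩)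
      show e (algebraMap k _ a) ∈ O
      rw [AlgEquiv.commutes]
      exact hO.2 a
    have hU'' : ∀ O : ValuationSubring (RatFunc F), DvrOver F O → Unr O G' := by
      intro O hO
      refine hU' O ⟨hO.1, fun a => ?_⟩
      rw [IsScalarTower.algebraMap_apply k F (RatFunc F)]
      exact hO.2 _
    obtain ⟨P, hP, S, hS, hPS⟩ := lattice_finite G' hdet' hU''
    have hSsymm : S.IsSymm := by
      have h1 : (S.map (algebraMap F[X] (RatFunc F))).IsSymm := by
        rw [← hPS]
        unfold Matrix.IsSymm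
        rw [Matrix.transpose_mul, Matrix.transpose_mul, Matrix.transpose_transpose, hsymm'.eq,
          Matrix.mul_assoc]
      ext i j : 1
      apply RatFunc.algebraMap_injective F
      have := congrFun (congrFun h1.eq i) j
      exact this
    obtain ⟨V, hV, S0, hS0⟩ := lattice_infty S hSsymm hS
      (fun h => hani' (isot_of_isoM hP hPS h)) (fun O hO => unr_of_isoM O hP hPS (hU'' O hO))
    have hV' : (V.map (algebraMap F[X] (RatFunc F))).det ≠ 0 := by
      have h1 : (V.map (algebraMap F[X] (RatFunc F))).det = algebraMap F[X] (RatFunc F) V.det :=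
        (RingHom.map_det (algebraMap F[X] (RatFunc F)) V).symm
      rw [h1]
      exact (map_ne_zero_iff _ (RatFunc.algebraMap_injective F)).mpr hV.ne_zero
    have hiso : (V.map (algebraMap F[X] (RatFunc F)))ᵀ * S.map (algebraMap F[X] (RatFunc F)) *
        V.map (algebraMap F[X] (RatFunc F)) = S0.map (algebraMap F (RatFunc F)) := by
      rw [← Matrix.transpose_map, ← Matrix.map_mul, ← Matrix.map_mul, hS0]
      ext i j
      simp only [Matrix.map_apply]
      rfl
    have hS0symm : S0.IsSymm := by
      have h1 : (S0.map (C : F →+* F[X])).IsSymm := by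
        rw [← hS0]
        unfold Matrix.IsSymm
        rw [Matrix.transpose_mul, Matrix.transpose_mul, Matrix.transpose_transpose, hSsymm.eq,
          Matrix.mul_assoc]
      ext i j : 1
      apply Polynomial.C_injective
      exact congrFun (congrFun h1.eq i) j
    have hS0det : S0.det ≠ 0 := by
      intro h0
      have h1 : (Vᵀ * S * V).det = C S0.det := by
        rw [hS0]
        exact (RingHom.map_det (C : F →+* F[X]) S0).symm
      rw [h0, map_zero, Matrix.det_mul, Matrix.det_mul, Matrix.det_transpose] at h1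
      exact (mul_ne_zero (mul_ne_zero hV.ne_zero hS.ne_zero) hV.ne_zero) h1
    have hfin : Isot S0 := by
      refine ih S0 hS0symm hS0det fun O hO => ?_
      obtain ⟨O', hO'⟩ := exists_gauss O
      have hdvr := gauss_dvr O hO.1 O' hO'
      refine unr_specialize (k := k) O hO.2 O' hO' S0 hS0det ?_
      refine unr_of_isoM O' hV' hiso (unr_of_isoM O' hP hPS (hU' O' ⟨hdvr, fun a => ?_⟩))
      rw [hO']
      refine ⟨C ⟨algebraMap k F a, hO.2 a⟩, 1, ?_, ?_⟩
      · rw [Polynomial.map_one]
        exact one_ne_zero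
      · rw [Polynomial.map_one, map_one, mul_one, Polynomial.map_C]
        rw [IsScalarTower.algebraMap_apply k F (RatFunc F)]
        rfl
    refine hani' (isot_of_isoM hP hPS (isot_of_isoM hV' hiso (isot_map _ hfin)))

end Pool.Agent.H918R3
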