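import Pool.Agent.H918R3.Defs

set_option autoImplicit false

/-! Task A5: three-fold Pfister forms with two unit slots and an isotropic residue conic are
unramified. -/

namespace Pool.Agent.H918R3

open Matrix Polynomial

namespace A5

variable {K : Type*} [Field K]

theorem G8_eq (a c h : K) : G8 a c h =
    (Matrix.fromBlocks (G4 a c) 0 0 ((-h) • G4 a c)).submatrix finSumFinEquiv.symm
      finSumFinEquiv.symm := by
  have h1 : (-h) • G4 a c = Matrix.diagonal ((-h) • ![1, -a, -c, a * c]) := by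
    unfold G4
    rw [← Matrix.diagonal_smul]
  rw [h1]
  unfold G4 G8
  rw [Matrix.fromBlocks_diagonal, Matrix.submatrix_diagonal_equiv]
  congr 1
  funext i
  rw [Function.comp_apply]
  have key : ∀ j : Fin 4 ⊕ Fin 4,
      (![1, -a, -c, a * c, -h, h * a, h * c, -(h * a * c)] : Fin 8 → K) (finSumFinEquiv j) =
      Sum.elim (![1, -a, -c, a * c] : Fin 4 → K) ((-h) • ![1, -a, -c, a * c]) j := by
    rintro (j | j)
    · fin_cases j <;> rfl
    · rw [Sum.elim_inr, Pi.smul_apply, smul_eq_mul]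
      fin_cases j
      · show -h = -h * 1
        ring
      · show h * a = -h * -a
        ring
      · show h * c = -h * -c
        ring
      · show -(h * a * c) = -h * (a * c)
        ring
  have := key (finSumFinEquiv.symm i)
  rwa [Equiv.apply_symm_apply] at this

theorem G4_det (a c : K) : (G4 a c).det = (a * c) ^ 2 := by
  unfold G4
  rw [Matrix.det_diagonal, Fin.prod_univ_four]
  simp
  ring

theorem unr_G8_of (O : ValuationSubring K) {a c h : K} (ha : a ∈ O) (hc : c ∈ O)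
    (ha' : a⁻¹ ∈ O) (hc' : c⁻¹ ∈ O) (Q : Matrix (Fin 4) (Fin 4) K) (hQ : Q.det ≠ 0)
    (hint : ∀ i j, ((-h) • (Qᵀ * G4 a c * Q)) i j ∈ O)
    (hdi : (((-h) • (Qᵀ * G4 a c * Q)).det)⁻¹ ∈ O) : Unr O (G8 a c h) := by
  set e : Fin 4 ⊕ Fin 4 ≃ Fin 8 := finSumFinEquiv with he
  have hG4 : ∀ i j, G4 a c i j ∈ O := by
    intro i j
    unfold G4
    by_cases hij : i = j
    · subst hij
      rw [Matrix.diagonal_apply_eq]
      fin_cases i
      · exact O.one_mem
      · exact O.neg_mem _ ha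
      · exact O.neg_mem _ hc
      · exact O.mul_mem _ _ ha hc
    · rw [Matrix.diagonal_apply_ne _ hij]
      exact O.zero_mem
  have hprod : (((Matrix.fromBlocks 1 0 0 Q).submatrix e.symm e.symm)ᵀ * G8 a c h *
      (Matrix.fromBlocks 1 0 0 Q).submatrix e.symm e.symm) =
      (Matrix.fromBlocks (G4 a c) 0 0 ((-h) • (Qᵀ * G4 a c * Q))).submatrix e.symm e.symm := by
    rw [G8_eq, Matrix.transpose_submatrix, Matrix.submatrix_mul_equiv, Matrix.submatrix_mul_equiv,
      Matrix.fromBlocks_transpose, Matrix.fromBlocks_multiply, Matrix.fromBlocks_multiply]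
    congr 1
    simp [Matrix.mul_assoc]
  refine ⟨(Matrix.fromBlocks 1 0 0 Q).submatrix e.symm e.symm, ?_, ?_, ?_⟩
  · rw [Matrix.det_submatrix_equiv_self, Matrix.det_fromBlocks_zero₂₁, Matrix.det_one, one_mul]
    exact hQ
  · intro i j
    rw [hprod, Matrix.submatrix_apply]
    rcases e.symm i with i' | i' <;> rcases e.symm j with j' | j'
    · exact hG4 _ _
    · exact O.zero_mem
    · exact O.zero_mem
    · exact hint _ _
  · rw [hprod, Matrix.det_submatrix_equiv_self, Matrix.det_fromBlocks_zero₂₁, G4_det, mul_inv]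
    refine O.mul_mem _ _ ?_ hdi
    rw [← inv_pow, mul_inv]
    exact O.pow_mem (O.mul_mem _ _ ha' hc') 2

/-- the Gram matrix of `c • (Qᵀ G4 Q)` from an explicit matrix -/
theorem gram_of (O : ValuationSubring K) {c : K} (G Q M : Matrix (Fin 4) (Fin 4) K)
    (h : c • (Qᵀ * G * Q) = M) (hM : ∀ i j, M i j ∈ O) : ∀ i j, (c • (Qᵀ * G * Q)) i j ∈ O := by
  rw [h]; exact hM

theorem unit_of {O : ValuationSubring K} {x : K} (hx : O.valuation x = 1) :
    x ∈ O ∧ x⁻¹ ∈ O ∧ x ≠ 0 := by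
  refine ⟨(O.valuation_le_one_iff x).mp hx.le, (O.valuation_le_one_iff _).mp ?_, ?_⟩
  · rw [map_inv₀, hx, inv_one]
  · rintro rfl
    rw [map_zero] at hx
    exact zero_ne_one hx

/-- entries of the Gram matrix -/
theorem gram_apply (a b : K) (Q : Matrix (Fin 4) (Fin 4) K) (i j : Fin 4) :
    (Qᵀ * G4 a b * Q) i j = Q 0 i * Q 0 j - a * (Q 1 i * Q 1 j) - b * (Q 2 i * Q 2 j) +
      a * b * (Q 3 i * Q 3 j) := by
  unfold G4
  rw [Matrix.mul_apply, Fin.sum_univ_four]
  simp only [Matrix.mul_diagonal, Matrix.transpose_apply]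
  simp
  ring

theorem gram_mem (O : ValuationSubring K) {a b c : K} (Q M : Matrix (Fin 4) (Fin 4) K)
    (h : ∀ i j, c * (Q 0 i * Q 0 j - a * (Q 1 i * Q 1 j) - b * (Q 2 i * Q 2 j) +
      a * b * (Q 3 i * Q 3 j)) = M i j) (hM : ∀ i j, M i j ∈ O) (i j : Fin 4) :
    (c • (Qᵀ * G4 a b * Q)) i j ∈ O := by
  rw [Matrix.smul_apply, gram_apply, smul_eq_mul, h]
  exact hM i j

/-- the main construction, for `h = w π` -/
theorem core (O : ValuationSubring K) {a b w π x y z t : K} (ha : O.valuation a = 1)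
    (hb : O.valuation b = 1) (hw : O.valuation w = 1) (hπ : π ∈ O) (hπ0 : π ≠ 0) (hx : x ∈ O)
    (hy : y ∈ O) (hz : z ∈ O) (ht : t ∈ O)
    (hu : O.valuation x = 1 ∨ O.valuation y = 1 ∨ O.valuation z = 1)
    (hN : x ^ 2 - a * y ^ 2 - b * z ^ 2 = π * t) :
    ∃ Q : Matrix (Fin 4) (Fin 4) K, Q.det ≠ 0 ∧
      (∀ i j, ((-(w * π)) • (Qᵀ * G4 a b * Q)) i j ∈ O) ∧
      (((-(w * π)) • (Qᵀ * G4 a b * Q)).det)⁻¹ ∈ O := by
  obtain ⟨hao, hai, ha0⟩ := unit_of ha
  obtain ⟨hbo, hbi, hb0⟩ := unit_of hb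
  obtain ⟨hwo, hwi, hw0⟩ := unit_of hw
  have hdet : ∀ (Q : Matrix (Fin 4) (Fin 4) K) (u : K), O.valuation u = 1 →
      Q.det ^ 2 = (u ^ 2 / π ^ 2) ^ 2 → Q.det ≠ 0 ∧
      (((-(w * π)) • (Qᵀ * G4 a b * Q)).det)⁻¹ ∈ O := by
    intro Q u hu hQ
    obtain ⟨huo, hui, hu0⟩ := unit_of hu
    constructor
    · intro h0
      rw [h0] at hQ
      have : (u ^ 2 / π ^ 2) ^ 2 ≠ 0 := pow_ne_zero 2 (div_ne_zero (pow_ne_zero 2 hu0) (pow_ne_zero 2 hπ0))
      exact this (by rw [← hQ]; ring)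
    · rw [Matrix.det_smul, Matrix.det_mul, Matrix.det_mul, Matrix.det_transpose, G4_det,
        Fintype.card_fin]
      have e1 : (-(w * π)) ^ 4 * (Q.det * (a * b) ^ 2 * Q.det) =
          (w ^ 2 * (a * b) * (u ^ 2)) ^ 2 := by
        have : Q.det * (a * b) ^ 2 * Q.det = (a * b) ^ 2 * Q.det ^ 2 := by ring
        rw [this, hQ]
        field_simp
      rw [e1, ← inv_pow, mul_inv, mul_inv, mul_inv, ← inv_pow, ← inv_pow]
      exact O.pow_mem (O.mul_mem _ _ (O.mul_mem _ _ (O.pow_mem hwi 2) (O.mul_mem _ _ hai hbi))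
        (O.pow_mem hui 2)) 2
  have mm := fun {u v : K} (h1 : u ∈ O) (h2 : v ∈ O) => O.mul_mem u v h1 h2
  have nn := fun {u : K} (h1 : u ∈ O) => O.neg_mem u h1
  rcases hu with hu | hu | hu
  · refine ⟨!![x / π, 0, 0, 0; y / π, -(b * z) / π, 1, 0; z / π, a * y / π, 0, 1;
      0, x / π, 0, 0], ?_⟩
    have hd := hdet !![x / π, 0, 0, 0; y / π, -(b * z) / π, 1, 0; z / π, a * y / π, 0, 1;
      0, x / π, 0, 0] x hu (by
        simp [Matrix.det_succ_row_zero, Fin.sum_univ_succ, Fin.succAbove]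
        field_simp)
    refine ⟨hd.1, ?_, hd.2⟩
    refine gram_mem O _ !![-(w * t), 0, w * (a * y), w * (b * z);
      0, -(w * (a * b) * t), -(w * (a * b) * z), w * (a * b) * y;
      w * (a * y), -(w * (a * b) * z), w * π * a, 0;
      w * (b * z), w * (a * b) * y, 0, w * π * b] ?_ ?_
    · intro i j
      fin_cases i <;> fin_cases j <;> simp <;> (try field_simp) <;>
        (first | exact hN | exact Or.inr True.intro | ring1 | linear_combination hN | simp)
    · intro i j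
      fin_cases i <;> fin_cases j <;> simp <;>
        (repeat' (first | assumption | exact hao | exact hbo | exact hwo | apply O.mul_mem))
  · refine ⟨!![x / π, b * z / π, 1, 0; y / π, 0, 0, 0; z / π, x / π, 0, 1;
      0, y / π, 0, 0], ?_⟩
    have hd := hdet !![x / π, b * z / π, 1, 0; y / π, 0, 0, 0; z / π, x / π, 0, 1;
      0, y / π, 0, 0] y hu (by
        simp [Matrix.det_succ_row_zero, Fin.sum_univ_succ, Fin.succAbove]
        field_simp)
    refine ⟨hd.1, ?_, hd.2⟩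
    refine gram_mem O _ !![-(w * t), 0, -(w * x), w * (b * z);
      0, w * b * t, -(w * (b * z)), w * (b * x);
      -(w * x), -(w * (b * z)), -(w * π), 0;
      w * (b * z), w * (b * x), 0, w * π * b] ?_ ?_
    · intro i j
      fin_cases i <;> fin_cases j <;> simp <;> (try field_simp) <;>
        (first | exact hN | exact Or.inr True.intro | ring1 | linear_combination hN | simp)
    · intro i j
      fin_cases i <;> fin_cases j <;> simp <;>
        (repeat' (first | assumption | exact hao | exact hbo | exact hwo | apply O.mul_mem))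
  · refine ⟨!![x / π, a * y / π, 1, 0; y / π, x / π, 0, 1; z / π, 0, 0, 0;
      0, -z / π, 0, 0], ?_⟩
    have hd := hdet !![x / π, a * y / π, 1, 0; y / π, x / π, 0, 1; z / π, 0, 0, 0;
      0, -z / π, 0, 0] z hu (by
        simp [Matrix.det_succ_row_zero, Fin.sum_univ_succ, Fin.succAbove]
        field_simp)
    refine ⟨hd.1, ?_, hd.2⟩
    refine gram_mem O _ !![-(w * t), 0, -(w * x), w * (a * y);
      0, w * a * t, -(w * (a * y)), w * (a * x);
      -(w * x), -(w * (a * y)), -(w * π), 0;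
      w * (a * y), w * (a * x), 0, w * π * a] ?_ ?_
    · intro i j
      fin_cases i <;> fin_cases j <;> simp <;> (try field_simp) <;>
        (first | exact hN | exact Or.inr True.intro | ring1 | linear_combination hN | simp)
    · intro i j
      fin_cases i <;> fin_cases j <;> simp <;>
        (repeat' (first | assumption | exact hao | exact hbo | exact hwo | apply O.mul_mem))

end A5

open A5 in
/-- A5 -/
theorem unr_of_residue {K : Type*} [Field K] (O : ValuationSubring K)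
    (hO : IsDiscreteValuationRing O) (h2 : O.valuation 2 = 1) {a b h : K}
    (ha : O.valuation a = 1) (hb : O.valuation b = 1) (hh : h ≠ 0)
    (hc : ∃ x y z : K, x ∈ O ∧ y ∈ O ∧ z ∈ O ∧
      (O.valuation x = 1 ∨ O.valuation y = 1 ∨ O.valuation z = 1) ∧
      O.valuation (x ^ 2 - a * y ^ 2 - b * z ^ 2) < 1) : Unr O (G8 a b h) := by
  obtain ⟨hao, hai, ha0⟩ := unit_of ha
  obtain ⟨hbo, hbi, hb0⟩ := unit_of hb
  obtain ⟨ϖ, hϖ⟩ := IsDiscreteValuationRing.exists_irreducible O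
  have hϖ0 : (ϖ : K) ≠ 0 := fun h0 => hϖ.ne_zero (Subtype.ext h0)
  -- `h = w ϖ ^ n`
  have hform : ∀ g : K, g ≠ 0 → g ∈ O → ∃ (w : K) (n : ℕ), O.valuation w = 1 ∧ g = w * (ϖ : K) ^ n := by
    intro g hg0 hg
    obtain ⟨n, u, hu⟩ := IsDiscreteValuationRing.eq_unit_mul_pow_irreducible
      (x := (⟨g, hg⟩ : O)) (fun h0 => hg0 (congrArg Subtype.val h0)) hϖ
    refine ⟨((u : O) : K), n, O.valuation_unit u, ?_⟩
    have := congrArg Subtype.val hu
    simpa using this
  have hform2 : ∃ (w : K) (n : ℤ), O.valuation w = 1 ∧ h = w * (ϖ : K) ^ n := by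
    rcases O.mem_or_inv_mem h with h1 | h1
    · obtain ⟨w, n, hw, he⟩ := hform h hh h1
      exact ⟨w, n, hw, by rw [zpow_natCast]; exact he⟩
    · obtain ⟨w, n, hw, he⟩ := hform h⁻¹ (inv_ne_zero hh) h1
      refine ⟨w⁻¹, -n, by rw [map_inv₀, hw, inv_one], ?_⟩
      rw [_root_.zpow_neg, zpow_natCast, ← mul_inv, ← he, inv_inv]
  obtain ⟨w, n, hw, he⟩ := hform2
  obtain ⟨hwo, hwi, hw0⟩ := unit_of hw
  rcases Int.even_or_odd' n with ⟨m, hm | hm⟩
  · -- even case
    refine unr_G8_of O hao hbo hai hbi ((((ϖ : K) ^ m)⁻¹) • (1 : Matrix (Fin 4) (Fin 4) K)) ?_ ?_ ?_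
    · rw [Matrix.det_smul, Matrix.det_one, mul_one]
      exact pow_ne_zero _ (inv_ne_zero (zpow_ne_zero _ hϖ0))
    · intro i j
      have : ((-h) • ((((ϖ : K) ^ m)⁻¹ • (1 : Matrix (Fin 4) (Fin 4) K))ᵀ * G4 a b *
          (((ϖ : K) ^ m)⁻¹ • (1 : Matrix (Fin 4) (Fin 4) K)))) = (-w) • G4 a b := by
        rw [Matrix.transpose_smul, Matrix.transpose_one, Matrix.smul_mul, Matrix.one_mul,
          Matrix.mul_smul, Matrix.mul_one, smul_smul, smul_smul, he, hm]
        congr 1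
        rw [two_mul, zpow_add₀ hϖ0]
        have := zpow_ne_zero m hϖ0
        field_simp
      rw [this, Matrix.smul_apply, smul_eq_mul]
      refine O.mul_mem _ _ (O.neg_mem _ hwo) ?_
      unfold G4
      by_cases hij : i = j
      · subst hij
        rw [Matrix.diagonal_apply_eq]
        fin_cases i
        · exact O.one_mem
        · exact O.neg_mem _ hao
        · exact O.neg_mem _ hbo
        · exact O.mul_mem _ _ hao hbo
      · rw [Matrix.diagonal_apply_ne _ hij]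
        exact O.zero_mem
    · rw [Matrix.det_smul, Matrix.det_mul, Matrix.det_mul, Matrix.det_transpose, G4_det,
        Matrix.det_smul, Matrix.det_one, Fintype.card_fin, he, hm]
      have e1 : (-(w * (ϖ : K) ^ (2 * m))) ^ 4 * ((((ϖ : K) ^ m)⁻¹) ^ 4 * 1 * (a * b) ^ 2 *
          ((((ϖ : K) ^ m)⁻¹) ^ 4 * 1)) = (w ^ 2 * (a * b)) ^ 2 := by
        rw [two_mul, zpow_add₀ hϖ0]
        have := zpow_ne_zero m hϖ0
        field_simp
      rw [e1, ← inv_pow, mul_inv, mul_inv, ← inv_pow]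
      exact O.pow_mem (O.mul_mem _ _ (O.pow_mem hwi 2) (O.mul_mem _ _ hai hbi)) 2
  · -- odd case
    obtain ⟨x, y, z, hx, hy, hz, hu, hN⟩ := hc
    have hNo : x ^ 2 - a * y ^ 2 - b * z ^ 2 ∈ O :=
      O.sub_mem (O.sub_mem (O.pow_mem hx 2) (O.mul_mem _ _ hao (O.pow_mem hy 2)))
        (O.mul_mem _ _ hbo (O.pow_mem hz 2))
    have hNm : (⟨_, hNo⟩ : O) ∈ IsLocalRing.maximalIdeal O :=
      (O.valuation_lt_one_iff ⟨_, hNo⟩).mpr hN
    rw [hϖ.maximalIdeal_eq, Ideal.mem_span_singleton'] at hNm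
    obtain ⟨t, ht⟩ := hNm
    have ht' : x ^ 2 - a * y ^ 2 - b * z ^ 2 = (ϖ : K) * (t : K) := by
      have h5 : ((t : K) * (ϖ : K)) = x ^ 2 - a * y ^ 2 - b * z ^ 2 := congrArg Subtype.val ht
      rw [← h5, mul_comm]
    obtain ⟨Q, hQ0, hQ1, hQ2⟩ := core O ha hb hw ϖ.2 hϖ0 hx hy hz t.2 hu ht'
    have hscale : ((-h) • ((((ϖ : K) ^ m)⁻¹ • Q)ᵀ * G4 a b * (((ϖ : K) ^ m)⁻¹ • Q))) =
        (-(w * (ϖ : K))) • (Qᵀ * G4 a b * Q) := by
      rw [Matrix.transpose_smul, Matrix.smul_mul, Matrix.smul_mul, Matrix.mul_smul, smul_smul,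
        smul_smul, he, hm]
      congr 1
      rw [zpow_add₀ hϖ0, two_mul, zpow_add₀ hϖ0, zpow_one]
      have := zpow_ne_zero m hϖ0
      field_simp
    refine unr_G8_of O hao hbo hai hbi ((((ϖ : K) ^ m)⁻¹) • Q) ?_ ?_ ?_
    · rw [Matrix.det_smul]
      exact mul_ne_zero (pow_ne_zero _ (inv_ne_zero (zpow_ne_zero _ hϖ0))) hQ0
    · rw [hscale]
      exact hQ1
    · rw [hscale]
      exact hQ2

end Pool.Agent.H918R3
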