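import Pool.Agent.H918R3.Defs

set_option autoImplicit false

/-! Tasks A6, A7, UN of project H918R3 (helper90). -/

namespace Pool.Agent.H918R3

open Matrix Polynomial

section A67

variable {K : Type*} [Field K]

/-- block matrices of size `4 + 4` -/
def blk8 (A B C D : Matrix (Fin 4) (Fin 4) K) : Matrix (Fin 8) (Fin 8) K :=
  (Matrix.fromBlocks A B C D).submatrix
    (finSumFinEquiv (m := 4) (n := 4)).symm (finSumFinEquiv (m := 4) (n := 4)).symm

theorem blk8_transpose (A B C D : Matrix (Fin 4) (Fin 4) K) :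
    (blk8 A B C D)ᵀ = blk8 Aᵀ Cᵀ Bᵀ Dᵀ := by
  unfold blk8
  rw [Matrix.transpose_submatrix, Matrix.fromBlocks_transpose]

theorem blk8_mul (A B C D A' B' C' D' : Matrix (Fin 4) (Fin 4) K) :
    blk8 A B C D * blk8 A' B' C' D' =
      blk8 (A * A' + B * C') (A * B' + B * D') (C * A' + D * C') (C * B' + D * D') := by
  unfold blk8
  rw [Matrix.submatrix_mul_equiv, Matrix.fromBlocks_multiply]

theorem G8_eq_blk8 (a c h : K) : G8 a c h = blk8 (G4 a c) 0 0 (-h • G4 a c) := by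
  have e1 : -h • G4 a c = Matrix.diagonal ![-h, h * a, h * c, -(h * a * c)] := by
    ext i j
    fin_cases i <;> fin_cases j <;> simp [G4] <;> ring
  rw [e1]
  unfold blk8 G4 G8
  rw [Matrix.fromBlocks_diagonal, Matrix.submatrix_diagonal_equiv]
  congr 1
  ext i
  fin_cases i <;> rfl

theorem isoM_of_blk8 {G H M : Matrix (Fin 8) (Fin 8) K} (hH : H.det ≠ 0) (h : Mᵀ * G * M = H) :
    IsoM G H := by
  refine ⟨M, ?_, h⟩
  intro h0
  apply hH
  rw [← h, Matrix.det_mul, h0, mul_zero]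

theorem det_G8 (a c h : K) : (G8 a c h).det = a ^ 4 * c ^ 4 * h ^ 4 := by
  unfold G8
  rw [Matrix.det_diagonal]
  simp [Fin.prod_univ_succ]
  ring

/-- A6 -/
theorem transfer {K : Type*} [Field K] (h2 : (2 : K) ≠ 0) {δ a c a' c' s h : K}
    (hiso : IsoL δ (G4 a c) (G4 a' c')) (hh : h = s ^ 2 - δ) (h0 : h ≠ 0)
    (ha : a ≠ 0) (hc : c ≠ 0) (ha' : a' ≠ 0) (hc' : c' ≠ 0) :
    IsoM (G8 a c h) (G8 a' c' h) := by
  obtain ⟨P, Q, h1, h3⟩ := hiso
  have h3' : Qᵀ * G4 a c * P = -(Pᵀ * G4 a c * Q) := eq_neg_of_add_eq_zero_right h3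
  have h1' : Pᵀ * G4 a c * P = G4 a' c' - δ • (Qᵀ * G4 a c * Q) := by
    rw [← h1]
    abel
  apply isoM_of_blk8 (M := blk8 (P - s • Q) (-h • Q) Q (P + s • Q))
  · rw [det_G8]
    exact mul_ne_zero (mul_ne_zero (pow_ne_zero _ ha') (pow_ne_zero _ hc')) (pow_ne_zero _ h0)
  · rw [G8_eq_blk8, G8_eq_blk8, blk8_transpose, blk8_mul, blk8_mul]
    have hA : (P - s • Q)ᵀ * G4 a c * (P - s • Q) = G4 a' c' + h • (Qᵀ * G4 a c * Q) := by
      rw [Matrix.transpose_sub, Matrix.transpose_smul]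
      simp only [Matrix.sub_mul, Matrix.mul_sub, Matrix.smul_mul, Matrix.mul_smul]
      rw [h1', h3', hh]
      module
    have hD : (P + s • Q)ᵀ * G4 a c * (P + s • Q) = G4 a' c' + h • (Qᵀ * G4 a c * Q) := by
      rw [Matrix.transpose_add, Matrix.transpose_smul]
      simp only [Matrix.add_mul, Matrix.mul_add, Matrix.smul_mul, Matrix.mul_smul]
      rw [h1', h3', hh]
      module
    congr 1
    · simp only [Matrix.mul_zero, add_zero, zero_add, Matrix.smul_mul, Matrix.mul_smul,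
        Matrix.mul_neg, Matrix.neg_mul, neg_smul]
      rw [hA]
      abel
    · simp only [Matrix.mul_zero, add_zero, zero_add, Matrix.smul_mul, Matrix.mul_smul,
        Matrix.mul_neg, Matrix.neg_mul, neg_smul, Matrix.transpose_sub, Matrix.transpose_smul,
        Matrix.sub_mul, Matrix.mul_add]
      rw [h3']
      module
    · simp only [Matrix.mul_zero, add_zero, zero_add, Matrix.smul_mul, Matrix.mul_smul,
        Matrix.mul_neg, Matrix.neg_mul, neg_smul, Matrix.transpose_add, Matrix.transpose_smul,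
        Matrix.transpose_neg, Matrix.add_mul, Matrix.mul_sub]
      rw [h3']
      module
    · have e : (-h • Q)ᵀ * G4 a c * (-h • Q) = (h ^ 2) • (Qᵀ * G4 a c * Q) := by
        rw [Matrix.transpose_smul]
        simp only [Matrix.smul_mul, Matrix.mul_smul]
        module
      simp only [Matrix.mul_zero, add_zero, zero_add]
      rw [e, show (P + s • Q)ᵀ * (-h • G4 a c) * (P + s • Q) =
        -h • ((P + s • Q)ᵀ * G4 a c * (P + s • Q)) by
          simp only [Matrix.smul_mul, Matrix.mul_smul], hD]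
      module

/-- the matrix of the right multiplication by the quaternion `u` -/
def rmul (a c : K) (u : Fin 4 → K) : Matrix (Fin 4) (Fin 4) K :=
  !![u 0, a * u 1, c * u 2, -(a * c * u 3); u 1, u 0, -(c * u 3), c * u 2;
    u 2, a * u 3, u 0, -(a * u 1); u 3, u 2, -u 1, u 0]

theorem rmul_spec (a c : K) (u : Fin 4 → K) :
    (rmul a c u)ᵀ * G4 a c * rmul a c u = q4 a c u • G4 a c := by
  ext i j
  fin_cases i <;> fin_cases j <;>
    simp [rmul, G4, q4, Matrix.mul_apply, Fin.sum_univ_four, Matrix.diagonal_apply] <;> ring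

/-- A7 -/
theorem swap_h {K : Type*} [Field K] {a c h1 h2 : K} (ha : a ≠ 0) (hc : c ≠ 0) (hh1 : h1 ≠ 0)
    (hh2 : h2 ≠ 0) (u : Fin 4 → K) (hu : q4 a c u = h1 * h2) : IsoM (G8 a c h1) (G8 a c h2) := by
  apply isoM_of_blk8 (M := blk8 1 0 0 (h1⁻¹ • rmul a c u))
  · rw [det_G8]
    exact mul_ne_zero (mul_ne_zero (pow_ne_zero _ ha) (pow_ne_zero _ hc)) (pow_ne_zero _ hh2)
  · rw [G8_eq_blk8, G8_eq_blk8, blk8_transpose, blk8_mul, blk8_mul]
    simp only [Matrix.mul_zero, Matrix.zero_mul, add_zero, zero_add, Matrix.transpose_one,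
      Matrix.one_mul, Matrix.mul_one, Matrix.transpose_zero, Matrix.transpose_smul,
      Matrix.smul_mul, Matrix.mul_smul, rmul_spec, smul_smul, smul_zero]
    have e : h1⁻¹ * (-h1 * (h1⁻¹ * q4 a c u)) = -h2 := by
      rw [hu]
      field_simp
    congr 1
    rw [← e]
    congr 1
    ring

theorem isoM_symm {n : ℕ} {G H : Matrix (Fin n) (Fin n) K} (h : IsoM G H) : IsoM H G := by
  obtain ⟨P, hP, rfl⟩ := h
  have hu : IsUnit P.det := isUnit_iff_ne_zero.mpr hP
  refine ⟨P⁻¹, ?_, ?_⟩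
  · intro h0
    have := Matrix.det_nonsing_inv_mul_det P hu
    rw [h0, zero_mul] at this
    exact zero_ne_one this
  · have e1 : P * P⁻¹ = 1 := Matrix.mul_nonsing_inv P hu
    have e2 : P⁻¹ᵀ * Pᵀ = 1 := by
      rw [← Matrix.transpose_mul, e1, Matrix.transpose_one]
    calc P⁻¹ᵀ * (Pᵀ * G * P) * P⁻¹ = (P⁻¹ᵀ * Pᵀ) * G * (P * P⁻¹) := by
          simp only [Matrix.mul_assoc]
      _ = G := by rw [e1, e2, Matrix.one_mul, Matrix.mul_one]

theorem unr_of_isoM (O : ValuationSubring K) {n : ℕ} {G H : Matrix (Fin n) (Fin n) K}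
    (h : IsoM G H) (hU : Unr O H) : Unr O G := by
  obtain ⟨P, hP, rfl⟩ := h
  obtain ⟨M, hM, h1, h2⟩ := hU
  have e : (P * M)ᵀ * G * (P * M) = Mᵀ * (Pᵀ * G * P) * M := by
    rw [Matrix.transpose_mul]
    simp only [Matrix.mul_assoc]
  refine ⟨P * M, ?_, ?_, ?_⟩
  · rw [Matrix.det_mul]
    exact mul_ne_zero hP hM
  · rw [e]
    exact h1
  · rw [e]
    exact h2

theorem isot_of_isoM {n : ℕ} {G H : Matrix (Fin n) (Fin n) K}
    (h : IsoM G H) (hI : Isot H) : Isot G := by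
  obtain ⟨P, hP, rfl⟩ := h
  obtain ⟨v, hv, h0⟩ := hI
  refine ⟨P *ᵥ v, ?_, ?_⟩
  · intro h1
    exact hv (Matrix.eq_zero_of_mulVec_eq_zero hP h1)
  · rw [← h0]
    rw [← Matrix.mulVec_mulVec, ← Matrix.mulVec_mulVec, Matrix.dotProduct_mulVec v Pᵀ,
      Matrix.vecMul_transpose]

/-- UN -/
theorem unr_iso {K : Type*} [Field K] (O : ValuationSubring K) {n : ℕ}
    {G H : Matrix (Fin n) (Fin n) K} (h : IsoM G H) : (Unr O G ↔ Unr O H) ∧ (Isot G ↔ Isot H) :=
  ⟨⟨unr_of_isoM O (isoM_symm h), unr_of_isoM O h⟩, ⟨isot_of_isoM (isoM_symm h), isot_of_isoM h⟩⟩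

end A67

end Pool.Agent.H918R3
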