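import Pool.Agent.H918R3.TA4b
import Pool.Agent.H918R3.TA5
import Pool.Agent.H918R3.Defs
import Pool.Agent.H918R3.TA67

set_option autoImplicit false

/-!
# Task A8: the form `<<x, c, s² - δ>>` is unramified at every discrete valuation ring
-/

namespace Pool.Agent.H918R3

open Matrix

/-- a diagonal form with entries of even valuation is unramified -/
theorem A8_unr_diag {K : Type*} [Field K] (O : ValuationSubring K) {n : ℕ} (e p : Fin n → K)
    (h : ∀ i, O.valuation (p i ^ 2 * e i) = 1) : Unr O (Matrix.diagonal e) := by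
  have hd : (Matrix.diagonal p)ᵀ * Matrix.diagonal e * Matrix.diagonal p =
      Matrix.diagonal fun i => p i ^ 2 * e i := by
    rw [diagonal_transpose, diagonal_mul_diagonal, diagonal_mul_diagonal]
    congr 1
    funext i
    ring
  refine ⟨Matrix.diagonal p, ?_, ?_, ?_⟩
  · rw [det_diagonal]
    refine Finset.prod_ne_zero_iff.2 fun i _ hi => ?_
    have := h i
    rw [hi] at this
    simp at this
  · intro i j
    rw [hd]
    by_cases hij : i = j
    · subst hij
      rw [diagonal_apply_eq, ← O.valuation_le_one_iff, h i]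
    · rw [diagonal_apply_ne _ hij]
      exact O.zero_mem
  · rw [hd, det_diagonal, ← O.valuation_le_one_iff, map_inv₀, map_prod]
    rw [Finset.prod_congr rfl fun i _ => h i]
    simp

/-- `<<a, c, h>>` with units `a`, `c` and `h` a unit times a square -/
theorem A8_unr_even {K : Type*} [Field K] (O : ValuationSubring K) {a c h g : K}
    (ha : O.valuation a = 1) (hc : O.valuation c = 1) (hh : O.valuation (g ^ 2 * h) = 1) :
    Unr O (G8 a c h) := by
  refine A8_unr_diag O _ ![1, 1, 1, 1, g, g, g, g] ?_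
  have hh' : O.valuation g ^ 2 * O.valuation h = 1 := by rw [← map_pow, ← map_mul]; exact hh
  intro i
  fin_cases i <;> simp [Valuation.map_neg, ha, hc, hh']

/-- the valuation of the restricted valuation ring -/
theorem A8_comap_le_one {F K : Type*} [Field F] [Field K] (φ : F →+* K) (O : ValuationSubring K)
    (f : F) : (O.comap φ).valuation f ≤ 1 ↔ O.valuation (φ f) ≤ 1 := by
  rw [ValuationSubring.valuation_le_one_iff, ValuationSubring.valuation_le_one_iff,
    ValuationSubring.mem_comap]

theorem A8_eq_one_iff {K : Type*} [Field K] (O : ValuationSubring K) (f : K) :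
    O.valuation f = 1 ↔ f ≠ 0 ∧ O.valuation f ≤ 1 ∧ O.valuation f⁻¹ ≤ 1 := by
  constructor
  · intro h
    refine ⟨?_, h.le, ?_⟩
    · rintro rfl
      simp at h
    · rw [map_inv₀, h, inv_one]
  · rintro ⟨h0, h1, h2⟩
    refine le_antisymm h1 ?_
    have hv : O.valuation f ≠ 0 := (Valuation.ne_zero_iff _).2 h0
    rw [map_inv₀] at h2
    exact (inv_le_one₀ (zero_lt_iff.2 hv)).1 h2

theorem A8_comap_eq_one {F K : Type*} [Field F] [Field K] (φ : F →+* K) (O : ValuationSubring K)
    (f : F) : (O.comap φ).valuation f = 1 ↔ O.valuation (φ f) = 1 := by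
  rw [A8_eq_one_iff, A8_eq_one_iff, A8_comap_le_one, A8_comap_le_one, map_inv₀ φ, map_ne_zero φ]

theorem A8_comap_lt_one {F K : Type*} [Field F] [Field K] (φ : F →+* K) (O : ValuationSubring K)
    (f : F) : (O.comap φ).valuation f < 1 ↔ O.valuation (φ f) < 1 := by
  rw [lt_iff_le_and_ne, lt_iff_le_and_ne, A8_comap_le_one, Ne, Ne, A8_comap_eq_one]

/-- the restriction of a discrete valuation ring is a field or a discrete valuation ring -/
theorem A8_comap_dvr {F K : Type*} [Field F] [Field K] (φ : F →+* K) (O : ValuationSubring K)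
    (hO : IsDiscreteValuationRing O) (hne : O.comap φ ≠ ⊤) :
    IsDiscreteValuationRing (O.comap φ) := by
  obtain ⟨ϖ, hϖ⟩ := IsDiscreteValuationRing.exists_irreducible O
  set q := O.valuation (ϖ : K) with hq
  have hq1 : q < 1 := by
    refine lt_of_le_of_ne (O.valuation_le_one ϖ) fun h => ?_
    exact hϖ.not_isUnit ((O.valuation_eq_one_iff ϖ).2 h)
  have hq0 : q ≠ 0 := by
    rw [hq, Valuation.ne_zero_iff]
    exact fun h => hϖ.ne_zero (Subtype.ext h)
  have hq0' : 0 < q := zero_lt_iff.2 hq0
  -- powers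
  have hpow : ∀ y : K, y ≠ 0 → O.valuation y ≤ 1 → ∃ n : ℕ, O.valuation y = q ^ n := by
    intro y hy hy1
    have hyO : y ∈ O := (O.valuation_le_one_iff y).1 hy1
    obtain ⟨n, u, hu⟩ := IsDiscreteValuationRing.associated_pow_irreducible
      (x := (⟨y, hyO⟩ : O)) (fun h => hy (congrArg Subtype.val h)) hϖ
    refine ⟨n, ?_⟩
    have h1 : y * ((u : O) : K) = (ϖ : K) ^ n := by
      have := congrArg Subtype.val hu
      simpa using this
    have h2 : O.valuation (y * ((u : O) : K)) = O.valuation y := by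
      rw [map_mul, O.valuation_unit u, mul_one]
    rw [← h2, h1, map_pow]
  have hinj : ∀ m n : ℕ, q ^ m = q ^ n → m = n := by
    intro m n h
    exact (pow_right_strictAnti₀ hq0' hq1).injective h
  have hex : ∃ n : ℕ, 0 < n ∧ ∃ f : F, f ≠ 0 ∧ O.valuation (φ f) = q ^ n := by
    obtain ⟨f, hf⟩ : ∃ f, f ∉ O.comap φ := by
      by_contra hcon
      push Not at hcon
      exact hne (top_unique fun x _ => hcon x)
    have hf0 : f ≠ 0 := by
      rintro rfl
      exact hf (O.comap φ).zero_mem
    have hf' : O.valuation (φ f) > 1 := by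
      rw [gt_iff_lt, ← not_le, O.valuation_le_one_iff]
      exact hf
    have hfi : O.valuation (φ f⁻¹) < 1 := by
      rw [map_inv₀, map_inv₀]
      exact inv_lt_one_of_one_lt₀ hf'
    obtain ⟨n, hn⟩ := hpow (φ f⁻¹) (by simpa using hf0) hfi.le
    refine ⟨n, ?_, f⁻¹, inv_ne_zero hf0, hn⟩
    rcases Nat.eq_zero_or_pos n with h | h
    · rw [h, pow_zero] at hn
      exact absurd hn hfi.ne
    · exact h
  classical
  set m := Nat.find hex with hm
  obtain ⟨hm0, f0, hf0, hfm⟩ := Nat.find_spec hex
  rw [← hm] at hm0 hfm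
  have hmin : ∀ n : ℕ, n < m → ∀ f : F, f ≠ 0 → O.valuation (φ f) = q ^ n → n = 0 := by
    intro n hn f hf hv
    by_contra hne'
    exact Nat.find_min hex hn ⟨Nat.pos_of_ne_zero hne', f, hf, hv⟩
  have hf0O : f0 ∈ O.comap φ := by
    rw [ValuationSubring.mem_comap, ← O.valuation_le_one_iff, hfm]
    exact pow_le_one₀ hq0'.le hq1.le
  have hunit : ∀ (f : F) (hf : f ∈ O.comap φ), O.valuation (φ f) = 1 →
      IsUnit (⟨f, hf⟩ : O.comap φ) := by
    intro f hf hv
    rw [ValuationSubring.valuation_eq_one_iff, A8_comap_eq_one]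
    exact hv
  apply IsDiscreteValuationRing.ofHasUnitMulPowIrreducibleFactorization
  refine ⟨⟨f0, hf0O⟩, ?_, ?_⟩
  · constructor
    · rw [ValuationSubring.valuation_eq_one_iff, A8_comap_eq_one, hfm]
      exact (pow_lt_one₀ hq0'.le hq1 hm0.ne').ne
    · rintro ⟨a, ha⟩ ⟨b, hb⟩ hab
      have hab' : f0 = a * b := congrArg Subtype.val hab
      have ha0 : a ≠ 0 := by
        rintro rfl
        exact hf0 (by rw [hab', zero_mul])
      have hb0 : b ≠ 0 := by
        rintro rfl
        exact hf0 (by rw [hab', mul_zero])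
      obtain ⟨i, hi⟩ := hpow (φ a) ((map_ne_zero φ).2 ha0) ((O.valuation_le_one_iff _).2 ha)
      obtain ⟨j, hj⟩ := hpow (φ b) ((map_ne_zero φ).2 hb0) ((O.valuation_le_one_iff _).2 hb)
      have hij : m = i + j := by
        apply hinj
        rw [← hfm, hab', map_mul, map_mul, hi, hj, pow_add]
      rcases Nat.eq_zero_or_pos j with hj0 | hj0
      · right
        apply hunit
        rw [hj, hj0, pow_zero]
      · left
        apply hunit
        rw [hi, hmin i (by omega) a ha0 hi, pow_zero]
  · rintro ⟨f, hf⟩ hfne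
    have hf0' : f ≠ 0 := fun h => hfne (Subtype.ext h)
    obtain ⟨n, hn⟩ := hpow (φ f) ((map_ne_zero φ).2 hf0') ((O.valuation_le_one_iff _).2 hf)
    have hr : n % m = 0 := by
      refine hmin (n % m) (Nat.mod_lt _ hm0) (f / f0 ^ (n / m)) (div_ne_zero hf0' (pow_ne_zero _ hf0)) ?_
      rw [map_div₀, map_div₀, map_pow, map_pow, hn, hfm, ← pow_mul]
      rw [div_eq_iff (pow_ne_zero _ hq0), ← pow_add]
      congr 1
      exact (Nat.mod_add_div n m).symm
    have hnm : m * (n / m) = n := Nat.mul_div_cancel' (Nat.dvd_of_mod_eq_zero hr)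
    refine ⟨n / m, ?_⟩
    have hu : O.valuation (φ (f / f0 ^ (n / m))) = 1 := by
      rw [map_div₀, map_div₀, map_pow, map_pow, hn, hfm, ← pow_mul, hnm]
      exact div_self (pow_ne_zero _ hq0)
    have huO : f / f0 ^ (n / m) ∈ O.comap φ := by
      rw [ValuationSubring.mem_comap, ← O.valuation_le_one_iff, hu]
    obtain ⟨u, hu'⟩ := hunit _ huO hu
    refine ⟨u, ?_⟩
    rw [hu']
    apply Subtype.ext
    push_cast
    change f0 ^ (n / m) * (f / f0 ^ (n / m)) = f
    field_simp

/-- `IsoL` of diagonal forms under a field extension -/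
theorem A8_isoL_map {F K : Type*} [Field F] [Field K] (φ : F →+* K) {δ a c a' c' : F}
    (h : IsoL δ (G4 a c) (G4 a' c')) :
    IsoL (φ δ) (G4 (φ a) (φ c)) (G4 (φ a') (φ c')) := by
  have hG : ∀ x y : F, (G4 x y).map φ = G4 (φ x) (φ y) := by
    intro x y
    rw [G4, G4, diagonal_map (map_zero φ)]
    congr 1
    funext i
    fin_cases i <;> simp
  obtain ⟨P, Q, h1, h2⟩ := h
  refine ⟨P.map φ, Q.map φ, ?_, ?_⟩
  · have := congrArg (fun M : Matrix (Fin 4) (Fin 4) F => M.map φ) h1
    simp only [Matrix.map_add φ (map_add φ), Matrix.map_mul, hG] at this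
    rw [← this]
    rw [← transpose_map, ← transpose_map]
    congr 1
    have e : Qᵀ.map φ * G4 (φ a) (φ c) * Q.map φ = (Qᵀ * G4 a c * Q).map φ := by
      rw [Matrix.map_mul, Matrix.map_mul, hG]
    rw [e]
    ext i j
    simp only [Matrix.smul_apply, Matrix.map_apply, smul_eq_mul, map_mul]
  · have := congrArg (fun M : Matrix (Fin 4) (Fin 4) F => M.map φ) h2
    simp only [Matrix.map_add φ (map_add φ), Matrix.map_mul, hG] at this
    rw [← transpose_map, ← transpose_map]
    rw [this]
    ext i j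
    simp



/-- A8 (may use A4, A5, A6, A7, UN) -/
theorem unr_all {k F K : Type*} [Field k] [IsAlgClosed k] [Field F] [Field K] [Algebra k F]
    [Algebra k K] [Algebra F K] [IsScalarTower k F K] (h2 : (2 : k) ≠ 0)
    (htr : ∀ f : Fin 3 → F, ¬ AlgebraicIndependent k f)
    (x c δ : F) (hx : x ≠ 0) (hc : c ≠ 0) (hδ : δ ≠ 0) (h4 : 4 * δ ≠ 1)
    (hUR : ∀ O : ValuationSubring F, DvrOver k O → ∃ a b : F, O.valuation a = 1 ∧
      O.valuation b = 1 ∧ IsoL δ (G4 x c) (G4 a b))
    (s : K) (u : Fin 4 → K)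
    (h1 : s ^ 2 - algebraMap F K δ ≠ 0) (h1' : (s - 1) ^ 2 - algebraMap F K δ ≠ 0)
    (hu : q4 (algebraMap F K x) (algebraMap F K c) u =
      (s ^ 2 - algebraMap F K δ) * ((s - 1) ^ 2 - algebraMap F K δ))
    (O : ValuationSubring K) (hO : DvrOver k O) :
    Unr O (G8 (algebraMap F K x) (algebraMap F K c) (s ^ 2 - algebraMap F K δ)) := by
  obtain ⟨hOD, hOk⟩ := hO
  set φ := algebraMap F K with hφ
  have hX : φ x ≠ 0 := (map_ne_zero φ).2 hx
  have hC : φ c ≠ 0 := (map_ne_zero φ).2 hc
  have hv2 : O.valuation (2 : K) = 1 := by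
    rw [A8_eq_one_iff]
    have e2 : (2 : K) = algebraMap k K 2 := by rw [map_ofNat]
    have h20 : (2 : K) ≠ 0 := by
      rw [e2]
      exact (map_ne_zero _).2 h2
    refine ⟨h20, ?_, ?_⟩
    · rw [e2, O.valuation_le_one_iff]
      exact hOk 2
    · rw [e2, ← map_inv₀, O.valuation_le_one_iff]
      exact hOk _
  have h20 : (2 : K) ≠ 0 := ((A8_eq_one_iff O 2).1 hv2).1
  by_cases htop : O.comap φ = ⊤
  · -- the valuation is trivial on `F`
    have hunit : ∀ f : F, f ≠ 0 → O.valuation (φ f) = 1 := by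
      intro f hf
      rw [A8_eq_one_iff]
      refine ⟨(map_ne_zero φ).2 hf, ?_, ?_⟩
      · rw [O.valuation_le_one_iff, ← ValuationSubring.mem_comap, htop]
        trivial
      · rw [← map_inv₀, O.valuation_le_one_iff, ← ValuationSubring.mem_comap, htop]
        trivial
    have hD : O.valuation (φ δ) = 1 := hunit δ hδ
    rcases lt_or_ge 1 (O.valuation s) with hs | hs
    · -- `s` is not integral
      have hs0 : s ≠ 0 := by
        rintro rfl
        simp at hs
      refine A8_unr_even O (g := s⁻¹) (hunit x hx) (hunit c hc) ?_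
      have e1 : s⁻¹ ^ 2 * (s ^ 2 - φ δ) = 1 - s⁻¹ ^ 2 * φ δ := by
        field_simp
      have e2 : O.valuation (s⁻¹ ^ 2 * φ δ) < 1 := by
        rw [map_mul, map_pow, map_inv₀, hD, mul_one]
        exact pow_lt_one₀ zero_le (inv_lt_one_of_one_lt₀ hs) two_ne_zero
      rw [e1]
      exact Valuation.map_one_sub_of_lt O.valuation e2
    · -- `s` is integral
      have hsO : s ∈ O := (O.valuation_le_one_iff s).1 hs
      have hDO : φ δ ∈ O := (O.valuation_le_one_iff _).1 hD.le
      have hhO : s ^ 2 - φ δ ∈ O := O.sub_mem (O.pow_mem hsO 2) hDO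
      have hh'O : (s - 1) ^ 2 - φ δ ∈ O := O.sub_mem (O.pow_mem (O.sub_mem hsO O.one_mem) 2) hDO
      rcases lt_or_eq_of_le ((O.valuation_le_one_iff _).2 hhO) with hlt | heq
      · -- then `(s - 1)² - δ` is a unit
        have hu' : O.valuation ((s - 1) ^ 2 - φ δ) = 1 := by
          by_contra hne
          have hlt' : O.valuation ((s - 1) ^ 2 - φ δ) < 1 :=
            lt_of_le_of_ne ((O.valuation_le_one_iff _).2 hh'O) hne
          have h4' : φ (4 * δ - 1) = (1 + 2 * s) * ((s ^ 2 - φ δ) - ((s - 1) ^ 2 - φ δ))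
              - 4 * (s ^ 2 - φ δ) := by
            simp only [map_sub, map_mul, map_one, map_ofNat]
            ring
          have hone : O.valuation (φ (4 * δ - 1)) = 1 := hunit _ (sub_ne_zero.2 h4)
          have hint1 : O.valuation (1 + 2 * s) ≤ 1 := by
            rw [O.valuation_le_one_iff]
            exact add_mem (one_mem O) (mul_mem ((O.valuation_le_one_iff _).1 hv2.le) hsO)
          have hint4 : O.valuation (4 : K) ≤ 1 := by
            have : (4 : K) = 2 * 2 := by norm_num
            rw [this, map_mul, hv2, mul_one]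
          have hd : O.valuation ((s ^ 2 - φ δ) - ((s - 1) ^ 2 - φ δ)) < 1 :=
            Valuation.map_sub_lt O.valuation hlt hlt'
          have hA : O.valuation ((1 + 2 * s) * ((s ^ 2 - φ δ) - ((s - 1) ^ 2 - φ δ))) < 1 := by
            rw [map_mul]
            exact mul_lt_one_of_nonneg_of_lt_one_right hint1 zero_le hd
          have hB : O.valuation (4 * (s ^ 2 - φ δ)) < 1 := by
            rw [map_mul]
            exact mul_lt_one_of_nonneg_of_lt_one_right hint4 zero_le hlt
          have := Valuation.map_sub_lt O.valuation hA hB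
          rw [← h4', hone] at this
          exact lt_irrefl _ this
        have hU : Unr O (G8 (φ x) (φ c) ((s - 1) ^ 2 - φ δ)) := by
          refine A8_unr_even O (g := 1) (hunit x hx) (hunit c hc) ?_
          rw [one_pow, one_mul]
          exact hu'
        exact (unr_iso O (swap_h hX hC h1 h1' u hu)).1.2 hU
      · refine A8_unr_even O (g := 1) (hunit x hx) (hunit c hc) ?_
        rw [one_pow, one_mul]
        exact heq
  · -- the restriction to `F` is a discrete valuation ring
    set OF := O.comap φ with hOF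
    have hOFd : IsDiscreteValuationRing OF := A8_comap_dvr φ O hOD htop
    have hOFk : DvrOver k OF := by
      refine ⟨hOFd, fun a => ?_⟩
      rw [hOF, ValuationSubring.mem_comap, hφ, ← IsScalarTower.algebraMap_apply k F K]
      exact hOk a
    obtain ⟨a, b, ha, hb, hiso⟩ := hUR OF hOFk
    have ha' : O.valuation (φ a) = 1 := by rw [← A8_comap_eq_one]; exact ha
    have hb' : O.valuation (φ b) = 1 := by rw [← A8_comap_eq_one]; exact hb
    obtain ⟨X, Y, Z, hX', hY', hZ', hu1, hlt⟩ := residue_conic htr OF hOFk a b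
      ((OF.valuation_le_one_iff a).1 ha.le) ((OF.valuation_le_one_iff b).1 hb.le)
    have hcon : Unr O (G8 (φ a) (φ b) (s ^ 2 - φ δ)) := by
      refine unr_of_residue O hOD hv2 ha' hb' h1 ⟨φ X, φ Y, φ Z, hX', hY', hZ', ?_, ?_⟩
      · rcases hu1 with h' | h' | h'
        · exact Or.inl ((A8_comap_eq_one φ O X).1 h')
        · exact Or.inr (Or.inl ((A8_comap_eq_one φ O Y).1 h'))
        · exact Or.inr (Or.inr ((A8_comap_eq_one φ O Z).1 h'))
      · rw [hOF, A8_comap_lt_one] at hlt
        simpa using hlt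
    have ht : IsoM (G8 (φ x) (φ c) (s ^ 2 - φ δ)) (G8 (φ a) (φ b) (s ^ 2 - φ δ)) :=
      transfer h20 (A8_isoL_map φ hiso) rfl h1 hX hC
        ((A8_eq_one_iff O _).1 ha').1 ((A8_eq_one_iff O _).1 hb').1
    exact (unr_iso O ht).1.2 hcon

end Pool.Agent.H918R3
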