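import Pool.Agent.H918R3.Defs

set_option autoImplicit false

/-!
Tasks CP, AR, A9c: the theorem of Cassels and Pfister, anisotropy over rational function fields and
a cancellation theorem.
-/

namespace Pool.Agent.H918R3

open Matrix Polynomial

section CPaux

variable {F : Type*} [Field F]

lemma cp_clear {n : ℕ} (v : Fin n → RatFunc F) : ∃ g : F[X], g ≠ 0 ∧ ∃ w : Fin n → F[X],
    ∀ i, algebraMap F[X] (RatFunc F) (w i) = algebraMap F[X] (RatFunc F) g * v i := by
  obtain ⟨b, hb⟩ := IsLocalization.exist_integer_multiples_of_finite (nonZeroDivisors F[X]) v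
  choose w hw using hb
  refine ⟨b, nonZeroDivisors.coe_ne_zero b, w, fun i => ?_⟩
  rw [hw i, Algebra.smul_def]

lemma cp_inj : Function.Injective (algebraMap F[X] (RatFunc F)) :=
  IsFractionRing.injective F[X] (RatFunc F)

/-- Cassels' descent -/
lemma cp_descent {n : ℕ} (a : Fin n → F[X]) (ha : ∀ i, (a i).natDegree ≤ 1)
    (han : ∀ w : Fin n → F[X], ∑ i, a i * w i ^ 2 = 0 → w = 0) (P : F[X]) :
    ∀ d : ℕ, ∀ (g : F[X]) (w : Fin n → F[X]), g.natDegree = d → g ≠ 0 →
      ∑ i, a i * w i ^ 2 = P * g ^ 2 → ∃ w : Fin n → F[X], ∑ i, a i * w i ^ 2 = P := by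
  intro d
  induction d using Nat.strong_induction_on with
  | _ d ih =>
  intro g w hd hg hw
  rcases Nat.eq_zero_or_pos d with h0 | hpos
  · rw [h0] at hd
    obtain ⟨c, rfl⟩ := Polynomial.natDegree_eq_zero.1 hd
    have hc : c ≠ 0 := by
      rintro rfl
      exact hg (by simp)
    refine ⟨fun i => C c⁻¹ * w i, ?_⟩
    have e1 : ∀ i, a i * (C c⁻¹ * w i) ^ 2 = C c⁻¹ ^ 2 * (a i * w i ^ 2) := fun i => by ring
    simp only [e1]
    rw [← Finset.mul_sum, hw]
    have e2 : C c⁻¹ ^ 2 * (P * C c ^ 2) = P * (C (c⁻¹ * c)) ^ 2 := by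
      rw [C_mul]
      ring
    rw [e2, inv_mul_cancel₀ hc]
    simp
  · set u : Fin n → F[X] := fun i => w i / g with hu
    set ρ : Fin n → F[X] := fun i => w i % g with hρ
    have hdiv : ∀ i, w i = g * u i + ρ i := fun i => (EuclideanDomain.div_add_mod (w i) g).symm
    set A : F[X] := ∑ i, a i * u i ^ 2 with hA
    set Bq : F[X] := ∑ i, a i * (u i * w i) with hB
    set N : F[X] := ∑ i, a i * ρ i ^ 2 with hN
    set g' : F[X] := P * g - 2 * Bq + g * A with hg'
    have hNg : N = g * g' := by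
      have e1 : ∀ i, a i * ρ i ^ 2 = a i * w i ^ 2 - 2 * g * (a i * (u i * w i)) +
          g ^ 2 * (a i * u i ^ 2) := by
        intro i
        have : ρ i = w i - g * u i := by rw [hdiv i]; ring
        rw [this]
        ring
      rw [hN]
      simp only [e1]
      rw [Finset.sum_add_distrib, Finset.sum_sub_distrib, ← Finset.mul_sum, ← Finset.mul_sum, hw,
        ← hA, ← hB, hg']
      ring
    by_cases hρ0 : ρ = 0
    · refine ⟨u, ?_⟩
      have e1 : ∀ i, w i = g * u i := fun i => by
        have := congrFun hρ0 i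
        rw [hdiv i, this]
        simp
      have e2 : g ^ 2 * A = g ^ 2 * P := by
        rw [hA, Finset.mul_sum, mul_comm (g ^ 2) P, ← hw]
        refine Finset.sum_congr rfl fun i _ => ?_
        rw [e1 i]
        ring
      exact mul_left_cancel₀ (pow_ne_zero 2 hg) e2
    · have hN0 : N ≠ 0 := fun h => hρ0 (han ρ h)
      have hg0' : g' ≠ 0 := by
        intro h
        rw [h, mul_zero] at hNg
        exact hN0 hNg
      have hdegρ : ∀ i, (ρ i).natDegree < d := by
        intro i
        rw [← hd]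
        exact Polynomial.natDegree_mod_lt _ (by omega)
      have hdegN : N.natDegree ≤ 2 * d - 1 := by
        rw [hN]
        refine Polynomial.natDegree_sum_le_of_forall_le _ _ fun i _ => ?_
        refine Polynomial.natDegree_mul_le.trans ?_
        have h1 := ha i
        have h2 := hdegρ i
        have h3 := Polynomial.natDegree_pow_le (p := ρ i) (n := 2)
        omega
      have hdeg : g'.natDegree < d := by
        have h1 : N.natDegree = g.natDegree + g'.natDegree := by
          rw [hNg, Polynomial.natDegree_mul hg hg0']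
        omega
      refine ih g'.natDegree hdeg g' (fun i => g' * u i + (A - P) * (w i - g * u i)) rfl hg0' ?_
      have e1 : ∀ i, a i * (g' * u i + (A - P) * (w i - g * u i)) ^ 2 =
          g' ^ 2 * (a i * u i ^ 2) + 2 * g' * (A - P) * (a i * (u i * w i)) -
            2 * g' * (A - P) * g * (a i * u i ^ 2) + (A - P) ^ 2 * (a i * ρ i ^ 2) := by
        intro i
        have : ρ i = w i - g * u i := by rw [hdiv i]; ring
        rw [this]
        ring
      simp only [e1]
      rw [Finset.sum_add_distrib, Finset.sum_sub_distrib, Finset.sum_add_distrib,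
        ← Finset.mul_sum, ← Finset.mul_sum, ← Finset.mul_sum, ← Finset.mul_sum, ← hA, ← hB, ← hN,
        hNg]
      have e2 : 2 * Bq = P * g + g * A - g' := by rw [hg']; ring
      have e3 : 2 * g' * (A - P) * Bq = g' * (A - P) * (2 * Bq) := by ring
      rw [e3, e2]
      ring

/-- leading coefficients -/
lemma cp_lead {n : ℕ} (a : Fin n → F) (han : ∀ v : Fin n → F, ∑ i, a i * v i ^ 2 = 0 → v = 0)
    (w : Fin n → F[X]) (m : ℕ) (hm : ∀ i, (w i).natDegree ≤ m)
    (h : (∑ i, C (a i) * w i ^ 2).coeff (2 * m) = 0) : ∀ i, (w i).coeff m = 0 := by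
  have h1 : ∑ i, a i * ((w i).coeff m) ^ 2 = 0 := by
    rw [← h, Polynomial.finsetSum_coeff]
    refine Finset.sum_congr rfl fun i _ => ?_
    rw [Polynomial.coeff_C_mul, Polynomial.coeff_pow_of_natDegree_le (hm i)]
  intro i
  exact congrFun (han _ h1) i

/-- all degrees are at most `k` if the coefficients above `2 k` vanish -/
lemma cp_deg {n : ℕ} (a : Fin n → F) (han : ∀ v : Fin n → F, ∑ i, a i * v i ^ 2 = 0 → v = 0)
    (w : Fin n → F[X]) (k : ℕ) (h : ∀ m, k < m → (∑ i, C (a i) * w i ^ 2).coeff (2 * m) = 0) :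
    ∀ i, (w i).natDegree ≤ k := by
  have key : ∀ j : ℕ, (∀ i, (w i).natDegree ≤ k + j) → ∀ i, (w i).natDegree ≤ k := by
    intro j
    induction j with
    | zero => intro h i; exact h i
    | succ j ih =>
      intro hj
      apply ih
      intro i
      have h1 := cp_lead a han w (k + j + 1) (fun i => by have := hj i; omega)
        (h _ (by omega)) i
      have h2 := hj i
      by_contra hcon
      have h3 : (w i).natDegree = k + j + 1 := by omega
      rw [← h3] at h1
      have h4 : w i = 0 := Polynomial.leadingCoeff_eq_zero.1 h1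
      rw [h4] at h3
      simp at h3
  refine key (∑ i, (w i).natDegree) fun i => ?_
  have h5 : (w i).natDegree ≤ ∑ i, (w i).natDegree :=
    Finset.single_le_sum (f := fun i => (w i).natDegree) (fun _ _ => Nat.zero_le _)
      (Finset.mem_univ i)
  omega

lemma cp_aniso_poly {n : ℕ} (a : Fin n → F)
    (han : ∀ v : Fin n → F, ∑ i, a i * v i ^ 2 = 0 → v = 0) (w : Fin n → F[X])
    (hw : ∑ i, C (a i) * w i ^ 2 = 0) : w = 0 := by
  have h1 := cp_deg a han w 0 (fun m _ => by rw [hw]; simp)
  have h2 := cp_lead a han w 0 h1 (by rw [hw]; simp)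
  funext i
  rw [Polynomial.eq_C_of_natDegree_le_zero (h1 i), h2 i]
  simp

end CPaux

/-- CP -/
theorem cassels_pfister {F : Type*} [Field F] (h2 : (2 : F) ≠ 0) {n : ℕ} (a : Fin n → F[X])
    (ha : ∀ i, (a i).natDegree ≤ 1)
    (han : ∀ v : Fin n → RatFunc F, ∑ i, algebraMap F[X] (RatFunc F) (a i) * v i ^ 2 = 0 → v = 0)
    (P : F[X]) (v : Fin n → RatFunc F)
    (hv : ∑ i, algebraMap F[X] (RatFunc F) (a i) * v i ^ 2 = algebraMap F[X] (RatFunc F) P) :
    ∃ w : Fin n → F[X], ∑ i, a i * w i ^ 2 = P := by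
  have _ := h2
  obtain ⟨g, hg, w, hw⟩ := cp_clear v
  refine cp_descent a ha ?_ P g.natDegree g w rfl hg ?_
  · intro w hw
    have h1 := han (fun i => algebraMap F[X] (RatFunc F) (w i)) (by
      have := congrArg (algebraMap F[X] (RatFunc F)) hw
      rw [map_sum, map_zero] at this
      rw [← this]
      refine Finset.sum_congr rfl fun i _ => ?_
      rw [map_mul, map_pow])
    funext i
    have h3 := congrFun h1 i
    apply cp_inj
    rw [Pi.zero_apply, map_zero]
    exact h3
  · apply cp_inj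
    rw [map_sum, map_mul, map_pow, ← hv, Finset.sum_mul]
    refine Finset.sum_congr rfl fun i _ => ?_
    rw [map_mul, map_pow, hw i]
    ring

/-- AR -/
theorem aniso_ratFunc {F : Type*} [Field F] {n : ℕ} (a : Fin n → F)
    (han : ∀ v : Fin n → F, ∑ i, a i * v i ^ 2 = 0 → v = 0) (v : Fin n → RatFunc F)
    (hv : ∑ i, RatFunc.C (a i) * v i ^ 2 = 0) : v = 0 := by
  obtain ⟨g, hg, w, hw⟩ := cp_clear v
  have h1 : w = 0 := by
    apply cp_aniso_poly a han
    apply cp_inj
    rw [map_sum, map_zero, ← mul_zero ((algebraMap F[X] (RatFunc F) g) ^ 2), ← hv, Finset.mul_sum]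
    refine Finset.sum_congr rfl fun i _ => ?_
    rw [map_mul, map_pow, hw i, RatFunc.algebraMap_C]
    ring
  funext i
  have h2 := hw i
  rw [h1, Pi.zero_apply, map_zero] at h2
  have h3 : algebraMap F[X] (RatFunc F) g ≠ 0 := by
    rw [Ne, map_eq_zero_iff _ cp_inj]
    exact hg
  rcases mul_eq_zero.1 h2.symm with h4 | h4
  · exact absurd h4 h3
  · exact h4

/-- A9c (may use CP, AR) -/
theorem diag_cancel {F : Type*} [Field F] (h2 : (2 : F) ≠ 0) {n : ℕ} (a : Fin (n + 1) → F)
    (han : ∀ v : Fin (n + 1) → F, ∑ i, a i * v i ^ 2 = 0 → v = 0) (d : F)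
    (v : Fin (n + 1) → RatFunc F)
    (hv : ∑ i, RatFunc.C (a i) * v i ^ 2 = RatFunc.C d + RatFunc.C (a 0) * RatFunc.X ^ 2) :
    ∃ w : Fin n → F, ∑ i, a i.succ * w i ^ 2 = d := by
  obtain ⟨w, hw⟩ := cassels_pfister h2 (fun i => C (a i)) (fun i => by simp)
    (fun v hv => aniso_ratFunc a han v (by
      rw [← hv]
      refine Finset.sum_congr rfl fun i _ => ?_
      rw [RatFunc.algebraMap_C])) (C d + C (a 0) * X ^ 2) v (by
      rw [map_add, map_mul, map_pow, RatFunc.algebraMap_C, RatFunc.algebraMap_C,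
        RatFunc.algebraMap_X, ← hv]
      refine Finset.sum_congr rfl fun i _ => ?_
      rw [RatFunc.algebraMap_C])
  have hdeg := cp_deg a han w 1 (by
    intro m hm
    rw [hw]
    rw [Polynomial.coeff_add, Polynomial.coeff_C, Polynomial.coeff_C_mul, Polynomial.coeff_X_pow]
    rw [if_neg (by omega), if_neg (by omega)]
    simp)
  obtain ⟨ε, hε, hε0⟩ : ∃ ε : F, ε ^ 2 = 1 ∧ (w 0).coeff 1 ≠ ε := by
    by_cases h : (w 0).coeff 1 = 1
    · refine ⟨-1, by ring, ?_⟩
      rw [h]
      intro h1
      apply h2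
      linear_combination h1
    · exact ⟨1, by ring, h⟩
  have hne : ε - (w 0).coeff 1 ≠ 0 := sub_ne_zero.2 (Ne.symm hε0)
  set x0 : F := (w 0).coeff 0 / (ε - (w 0).coeff 1) with hx0
  have hw0 : (w 0).eval x0 = ε * x0 := by
    have h1 : w 0 = C ((w 0).coeff 1) * X + C ((w 0).coeff 0) :=
      Polynomial.eq_X_add_C_of_natDegree_le_one (hdeg 0)
    rw [h1]
    simp only [eval_add, eval_mul, eval_C, eval_X]
    have h3 : (w 0).coeff 0 = (ε - (w 0).coeff 1) * x0 := by
      rw [hx0]
      field_simp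
    linear_combination h3
  refine ⟨fun i => (w i.succ).eval x0, ?_⟩
  have h5 := congrArg (Polynomial.eval x0) hw
  rw [Polynomial.eval_finsetSum, Fin.sum_univ_succ] at h5
  simp only [eval_mul, eval_C, eval_pow, eval_add, eval_X] at h5
  rw [hw0, mul_pow, hε, one_mul] at h5
  linear_combination h5

end Pool.Agent.H918R3
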