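import Pool.Agent.H918R3.Defs
import Pool.Agent.H918R3.TCP

set_option autoImplicit false

/-!
Task A9f: residue step.
-/

namespace Pool.Agent.H918R3

open Matrix Polynomial

section A9faux

variable {F : Type*} [Field F]

/-- division by `(X - ε)² - δ` -/
lemma a9f_div (δ ε : F) (p : F[X]) : ∃ (s : F[X]) (x y : F),
    p = ((X - C ε) ^ 2 - C δ) * s + (C x + C y * (X - C ε)) := by
  set h : F[X] := (X - C ε) ^ 2 - C δ with hh
  have hmon : h = X ^ 2 + (C (-2 * ε) * X + C (ε ^ 2 - δ)) := by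
    rw [hh]
    simp only [C_mul, C_neg, C_sub, C_pow]
    have : (C (2 : F) : F[X]) = 2 := rfl
    rw [this]
    ring
  have hdeg2 : (C (-2 * ε) * X + C (ε ^ 2 - δ) : F[X]).degree < 2 :=
    lt_of_le_of_lt Polynomial.degree_linear_le (by norm_num)
  have hM : h.Monic := by
    rw [hmon]
    exact Polynomial.monic_X_pow_add (n := 2) hdeg2
  have hnd : h.natDegree = 2 := by
    have e1 : h.natDegree = ((X - C ε) ^ 2 : F[X]).natDegree := Polynomial.natDegree_sub_C
    rw [e1, Polynomial.natDegree_pow, Polynomial.natDegree_X_sub_C]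
  have h1 := Polynomial.modByMonic_add_div p h
  have h2 : (p %ₘ h).natDegree ≤ 1 := by
    have := Polynomial.natDegree_modByMonic_lt p hM (by
      intro h1
      rw [h1] at hnd
      simp at hnd)
    omega
  have h3 := Polynomial.eq_X_add_C_of_natDegree_le_one h2
  refine ⟨p /ₘ h, (p %ₘ h).coeff 0 + (p %ₘ h).coeff 1 * ε, (p %ₘ h).coeff 1, ?_⟩
  have h4 : p = p %ₘ h + h * (p /ₘ h) := h1.symm
  have h5 : p %ₘ h = C ((p %ₘ h).coeff 0 + (p %ₘ h).coeff 1 * ε) +
      C ((p %ₘ h).coeff 1) * (X - C ε) := by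
    conv_lhs => rw [h3]
    simp only [C_add, C_mul]
    ring
  calc p = p %ₘ h + h * (p /ₘ h) := h4
    _ = _ := by rw [← h5]; ring

/-- a multiple of `(X - ε)² - δ` of degree at most one vanishes -/
lemma a9f_zero (δ ε : F) (s : F[X]) (x y : F)
    (h : C x + C y * (X - C ε) = ((X - C ε) ^ 2 - C δ) * s) : x = 0 ∧ y = 0 := by
  have hs : s = 0 := by
    by_contra hs
    have h1 : (((X - C ε) ^ 2 - C δ : F[X])).natDegree = 2 := by
      have e1 : (((X - C ε) ^ 2 - C δ : F[X])).natDegree = ((X - C ε) ^ 2 : F[X]).natDegree :=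
        Polynomial.natDegree_sub_C
      rw [e1, Polynomial.natDegree_pow, Polynomial.natDegree_X_sub_C]
    have h0 : ((X - C ε) ^ 2 - C δ : F[X]) ≠ 0 := by
      intro h2
      rw [h2] at h1
      simp at h1
    have h2 := Polynomial.natDegree_mul h0 hs
    rw [← h, h1] at h2
    have h3 : (C x + C y * (X - C ε) : F[X]).natDegree ≤ 1 := by
      refine (Polynomial.natDegree_add_le _ _).trans ?_
      rw [Polynomial.natDegree_C]
      refine max_le (by omega) ?_
      refine Polynomial.natDegree_mul_le.trans ?_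
      rw [Polynomial.natDegree_C, Polynomial.natDegree_X_sub_C]
    omega
  rw [hs, mul_zero] at h
  have h1 := congrArg (fun p => Polynomial.coeff p 1) h
  have hy : y = 0 := by
    simpa [Polynomial.coeff_X, Polynomial.coeff_C] using h1
  rw [hy] at h
  simp only [C_0, zero_mul, add_zero] at h
  exact ⟨Polynomial.C_eq_zero.1 h, hy⟩

/-- the norm form over polynomials -/
noncomputable def a9f_q (a c : F) (w : Fin 4 → F[X]) : F[X] :=
  w 0 ^ 2 - C a * w 1 ^ 2 - C c * w 2 ^ 2 + C (a * c) * w 3 ^ 2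

/-- polynomial version of the first part -/
lemma a9f_poly (h2 : (2 : F) ≠ 0) {δ a c : F} (hδ : δ ≠ 0) (ε : F) : ∀ d : ℕ,
    ∀ (g : F[X]) (w : Fin 4 → F[X]), g.natDegree = d → g ≠ 0 →
      a9f_q a c w = ((X - C ε) ^ 2 - C δ) * g ^ 2 → IsotL δ a c := by
  intro d
  induction d using Nat.strong_induction_on with
  | _ d ih =>
  intro g w hd hg hw
  set h : F[X] := (X - C ε) ^ 2 - C δ with hh
  have hX : (X - C ε) ^ 2 = h + C δ := by rw [hh]; ring
  choose s x y hsxy using fun i => a9f_div δ ε (w i)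
  -- the form modulo `h`
  have key : C (q4 a c x + δ * q4 a c y) + C (2 * b4 a c x y) * (X - C ε) =
      h * (g ^ 2 - (h * (a9f_q a c s) +
        2 * (s 0 * (C (x 0) + C (y 0) * (X - C ε)) - C a * (s 1 * (C (x 1) + C (y 1) * (X - C ε)))
          - C c * (s 2 * (C (x 2) + C (y 2) * (X - C ε)))
          + C (a * c) * (s 3 * (C (x 3) + C (y 3) * (X - C ε)))) + C (q4 a c y))) := by
    have e1 : a9f_q a c w = h * g ^ 2 := hw
    unfold a9f_q at e1
    rw [hsxy 0, hsxy 1, hsxy 2, hsxy 3, ← hh] at e1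
    unfold q4 b4 a9f_q
    simp only [C_add, C_mul, C_sub, C_pow] at e1 ⊢
    have e2 : (C (2 : F) : F[X]) = 2 := rfl
    rw [e2]
    have e3 : (X - C ε) ^ 2 = h + C δ := hX
    linear_combination e1 - (C (y 0) ^ 2 - C a * C (y 1) ^ 2 - C c * C (y 2) ^ 2 +
      C a * C c * C (y 3) ^ 2) * e3
  obtain ⟨k1, k2⟩ := a9f_zero δ ε _ _ _ key
  have k2' : b4 a c x y = 0 := by
    rcases mul_eq_zero.1 k2 with h3 | h3
    · exact absurd h3 h2
    · exact h3
  by_cases hxy : x ≠ 0 ∨ y ≠ 0
  · exact ⟨x, y, hxy, k1, k2'⟩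
  · push Not at hxy
    obtain ⟨hx, hy⟩ := hxy
    have hws : ∀ i, w i = h * s i := by
      intro i
      rw [hsxy i, hx, hy, ← hh]
      simp
    have hg2 : h * a9f_q a c s = g ^ 2 := by
      have h0 : h ≠ 0 := by
        intro h3
        have e4 : h.natDegree = ((X - C ε) ^ 2 : F[X]).natDegree := Polynomial.natDegree_sub_C
        rw [h3, Polynomial.natDegree_pow, Polynomial.natDegree_X_sub_C] at e4
        simp at e4
      apply mul_left_cancel₀ h0
      rw [← hw]
      unfold a9f_q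
      rw [hws 0, hws 1, hws 2, hws 3]
      ring
    obtain ⟨t, p, q, hg1⟩ := a9f_div δ ε g
    rw [← hh] at hg1
    have key2 : C (p ^ 2 + δ * q ^ 2) + C (2 * (p * q)) * (X - C ε) =
        h * (a9f_q a c s - h * t ^ 2 - 2 * t * (C p + C q * (X - C ε)) - C q ^ 2) := by
      have e1 := hg2
      conv_rhs at e1 => rw [hg1]
      simp only [C_add, C_mul, C_pow]
      have e2 : (C (2 : F) : F[X]) = 2 := rfl
      rw [e2]
      linear_combination (-1 : F[X]) * e1 - C q ^ 2 * hX
    obtain ⟨m1, m2⟩ := a9f_zero δ ε _ _ _ key2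
    have hp : p = 0 ∧ q = 0 := by
      rcases mul_eq_zero.1 m2 with h3 | h3
      · exact absurd h3 h2
      · rcases mul_eq_zero.1 h3 with h4 | h4
        · refine ⟨h4, ?_⟩
          rw [h4] at m1
          have : δ * q ^ 2 = 0 := by simpa using m1
          rcases mul_eq_zero.1 this with h5 | h5
          · exact absurd h5 hδ
          · exact pow_eq_zero_iff (two_ne_zero) |>.1 h5
        · refine ⟨?_, h4⟩
          rw [h4] at m1
          have : p ^ 2 = 0 := by simpa using m1
          exact pow_eq_zero_iff (two_ne_zero) |>.1 this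
    rw [hp.1, hp.2] at hg1
    have hgt : g = h * t := by
      rw [hg1]
      simp
    have ht : t ≠ 0 := by
      rintro rfl
      exact hg (by rw [hgt, mul_zero])
    have h0 : h ≠ 0 := by
      rintro h3
      exact hg (by rw [hgt, h3, zero_mul])
    have hnd : h.natDegree = 2 := by
      have e1 : h.natDegree = ((X - C ε) ^ 2 : F[X]).natDegree := Polynomial.natDegree_sub_C
      rw [e1, Polynomial.natDegree_pow, Polynomial.natDegree_X_sub_C]
    have hnt : t.natDegree < d := by
      have e1 := Polynomial.natDegree_mul h0 ht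
      rw [← hgt, hnd, hd] at e1
      omega
    refine ih t.natDegree hnt t s rfl ht ?_
    apply mul_left_cancel₀ h0
    rw [hg2, hgt]
    ring

lemma a9f_prod {K : Type*} [Field K] (a c : K) (x y : Fin 4 → K) :
    q4 a c ![x 0 * y 0 + a * (x 1 * y 1) + c * (x 2 * y 2) - a * c * (x 3 * y 3),
      x 0 * y 1 + x 1 * y 0 - c * (x 2 * y 3) + c * (x 3 * y 2),
      x 0 * y 2 + x 2 * y 0 + a * (x 1 * y 3) - a * (x 3 * y 1),
      x 0 * y 3 + x 3 * y 0 + x 1 * y 2 - x 2 * y 1] = q4 a c x * q4 a c y := by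
  unfold q4
  simp only [Matrix.cons_val_zero, Matrix.cons_val_one, Matrix.cons_val]
  ring

end A9faux

/-- A9f -/
theorem residue_step {F : Type*} [Field F] (h2 : (2 : F) ≠ 0) {δ a c : F} (hδ : ¬ IsSquare δ)
    (ha : a ≠ 0) (hc : c ≠ 0) (ε : F) :
    (∀ v : Fin 4 → RatFunc F, q4 (RatFunc.C a) (RatFunc.C c) v =
      (RatFunc.X - RatFunc.C ε) ^ 2 - RatFunc.C δ → IsotL δ a c) ∧
    (Isot (G8 (RatFunc.C a) (RatFunc.C c) ((RatFunc.X - RatFunc.C ε) ^ 2 - RatFunc.C δ)) →
      IsotL δ a c) := by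
  have _ := ha
  have _ := hc
  have hδ0 : δ ≠ 0 := by
    rintro rfl
    exact hδ ⟨0, by simp⟩
  have part1 : ∀ v : Fin 4 → RatFunc F, q4 (RatFunc.C a) (RatFunc.C c) v =
      (RatFunc.X - RatFunc.C ε) ^ 2 - RatFunc.C δ → IsotL δ a c := by
    intro v hv
    obtain ⟨g, hg, w, hw⟩ := cp_clear v
    refine a9f_poly h2 hδ0 ε g.natDegree g w rfl hg ?_
    apply cp_inj
    unfold a9f_q
    unfold q4 at hv
    simp only [map_add, map_sub, map_mul, map_pow, hw, RatFunc.algebraMap_C,
      RatFunc.algebraMap_X] at hv ⊢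
    linear_combination (algebraMap F[X] (RatFunc F) g) ^ 2 * hv
  refine ⟨part1, ?_⟩
  rintro ⟨x, hx, hx0⟩
  by_contra hno
  have han : ∀ u : Fin 4 → F, ∑ i, (![1, -a, -c, a * c] : Fin 4 → F) i * u i ^ 2 = 0 → u = 0 := by
    intro u hu
    by_contra hu0
    apply hno
    refine ⟨u, 0, Or.inl hu0, ?_, ?_⟩
    · have : q4 a c u = 0 := by
        rw [← hu, Fin.sum_univ_four]
        unfold q4
        simp only [Matrix.cons_val_zero, Matrix.cons_val_one, Matrix.cons_val]
        ring
      rw [this]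
      unfold q4
      simp
    · unfold b4
      simp
  set v : Fin 4 → RatFunc F := ![x 0, x 1, x 2, x 3] with hv
  set w : Fin 4 → RatFunc F := ![x 4, x 5, x 6, x 7] with hw
  have hq : q4 (RatFunc.C a) (RatFunc.C c) v =
      ((RatFunc.X - RatFunc.C ε) ^ 2 - RatFunc.C δ) * q4 (RatFunc.C a) (RatFunc.C c) w := by
    unfold G8 at hx0
    simp only [dotProduct, Matrix.mulVec_diagonal, Fin.sum_univ_eight, Matrix.cons_val_zero,
      Matrix.cons_val_one, Matrix.cons_val] at hx0
    rw [hv, hw]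
    unfold q4
    simp only [Matrix.cons_val_zero, Matrix.cons_val_one, Matrix.cons_val]
    linear_combination hx0
  have hanR : ∀ u : Fin 4 → RatFunc F, q4 (RatFunc.C a) (RatFunc.C c) u = 0 → u = 0 := by
    intro u hu
    apply aniso_ratFunc _ han
    rw [← hu, Fin.sum_univ_four]
    unfold q4
    simp only [Matrix.cons_val_zero, Matrix.cons_val_one, Matrix.cons_val, map_one, map_neg,
      map_mul]
    ring
  by_cases hw0 : q4 (RatFunc.C a) (RatFunc.C c) w = 0
  · rw [hw0, mul_zero] at hq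
    have e1 := hanR v hq
    have e2 := hanR w hw0
    apply hx
    funext i
    have f1 := congrFun e1
    have f2 := congrFun e2
    fin_cases i
    · exact f1 0
    · exact f1 1
    · exact f1 2
    · exact f1 3
    · exact f2 0
    · exact f2 1
    · exact f2 2
    · exact f2 3
  · apply hno
    set Q := q4 (RatFunc.C a) (RatFunc.C c) w with hQ
    obtain ⟨z, hz⟩ : ∃ z : Fin 4 → RatFunc F, q4 (RatFunc.C a) (RatFunc.C c) z =
        q4 (RatFunc.C a) (RatFunc.C c) v * Q := ⟨_, a9f_prod _ _ v w⟩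
    refine part1 (fun i => z i / Q) ?_
    have e1 : q4 (RatFunc.C a) (RatFunc.C c) (fun i => z i / Q) =
        q4 (RatFunc.C a) (RatFunc.C c) z / Q ^ 2 := by
      unfold q4
      field_simp
    rw [e1, hz, hq]
    field_simp

end Pool.Agent.H918R3
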