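import Pool.Agent.H918R3.TA9eAux
import Pool.Agent.H918R3.TA9f

set_option autoImplicit false

/-!
Task A9e: anisotropy over the function field of the hypersurface (assembly).
-/

namespace Pool.Agent.H918R3

open Matrix Polynomial

/-- A9e (may use CP, AR, A9c, A9d, A9f) -/
theorem aniso_KX {F E1 E2 E3 E4 : Type*} [Field F] [Field E1] [Field E2] [Field E3] [Field E4]
    (e1 : E1 ≃+* RatFunc F) (e2 : E2 ≃+* RatFunc E1) (e3 : E3 ≃+* RatFunc E2)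
    (e4 : E4 ≃+* RatFunc E3) (j1 : F →+* E1) (j2 : E1 →+* E2) (j3 : E2 →+* E3) (j4 : E3 →+* E4)
    (hj1 : ∀ a, e1 (j1 a) = RatFunc.C a) (hj2 : ∀ a, e2 (j2 a) = RatFunc.C a)
    (hj3 : ∀ a, e3 (j3 a) = RatFunc.C a) (hj4 : ∀ a, e4 (j4 a) = RatFunc.C a)
    (s : E1) (hs : e1 s = RatFunc.X) (u2 : E2) (hu2 : e2 u2 = RatFunc.X) (u3 : E3)
    (hu3 : e3 u3 = RatFunc.X) (u4 : E4) (hu4 : e4 u4 = RatFunc.X)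
    (h2 : (2 : F) ≠ 0) {x c δ : F} (hx : x ≠ 0) (hc : c ≠ 0)
    (hδ : ¬ IsSquare δ) (han : ¬ IsotL δ x c) (d : E4)
    (hd : d = j4 (j3 (j2 ((s ^ 2 - j1 δ) * ((s - 1) ^ 2 - j1 δ))))
      + j4 (j3 (j2 (j1 x))) * (j4 (j3 u2)) ^ 2 + j4 (j3 (j2 (j1 c))) * (j4 u3) ^ 2
      - j4 (j3 (j2 (j1 (x * c)))) * u4 ^ 2)
    (G : Matrix (Fin 8) (Fin 8) E4)
    (hG : G = G8 (j4 (j3 (j2 (j1 x)))) (j4 (j3 (j2 (j1 c)))) (j4 (j3 (j2 (s ^ 2 - j1 δ)))))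
    (u v : Fin 8 → E4) (huv : u ≠ 0 ∨ v ≠ 0)
    (h : u ⬝ᵥ (G *ᵥ u) + d * (v ⬝ᵥ (G *ᵥ v)) = 0) : u ⬝ᵥ (G *ᵥ v) ≠ 0 :=
  aniso_KX_aux e1 e2 e3 e4 j1 j2 j3 j4 hj1 hj2 hj3 hj4 s hs u2 hu2 u3 hu3 u4 hu4 h2 hx hc
    (fun ε => residue_step h2 hδ hx hc ε) han d hd G hG u v huv h

end Pool.Agent.H918R3
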