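import Pool.Agent.H918R3.Defs
import Pool.Agent.H918R3.TCP

set_option autoImplicit false

/-!
Tasks C4a, C4b, B3.
-/

namespace Pool.Agent.H918R3.TC4

open Matrix Polynomial

/-- an isotropic pure form is universal -/
theorem pur_of_isotropic {K : Type*} [Field K] (h2 : (2 : K) ≠ 0) {δ a c : K}
    (ha : a ≠ 0) (hc : c ≠ 0) {p q r : K} (h : p ≠ 0 ∨ q ≠ 0 ∨ r ≠ 0)
    (h0 : a * p ^ 2 + c * q ^ 2 - a * c * r ^ 2 = 0) : Pur δ a c := by
  rcases h with h | h | h
  · have ht : ∃ t : K, 2 * t * a * p = δ - a := by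
      refine ⟨(δ - a) / (2 * a * p), ?_⟩
      field_simp
    obtain ⟨t, ht⟩ := ht
    refine ⟨1 + t * p, t * q, t * r, ?_⟩
    linear_combination ht + t ^ 2 * h0
  · have ht : ∃ t : K, 2 * t * c * q = δ - c := by
      refine ⟨(δ - c) / (2 * c * q), ?_⟩
      field_simp
    obtain ⟨t, ht⟩ := ht
    refine ⟨t * p, 1 + t * q, t * r, ?_⟩
    linear_combination ht + t ^ 2 * h0
  · have ht : ∃ t : K, 2 * t * (a * c) * r = -(δ + a * c) := by
      refine ⟨-(δ + a * c) / (2 * (a * c) * r), ?_⟩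
      field_simp
    obtain ⟨t, ht⟩ := ht
    refine ⟨t * p, t * q, 1 + t * r, ?_⟩
    linear_combination -ht + t ^ 2 * h0

/-- an isotropic norm form has an isotropic pure form -/
theorem pur_of_q4 {K : Type*} [Field K] (h2 : (2 : K) ≠ 0) {δ a c : K}
    (ha : a ≠ 0) (hc : c ≠ 0) {z : Fin 4 → K} (hz : z ≠ 0) (h0 : q4 a c z = 0) : Pur δ a c := by
  unfold q4 at h0
  by_cases hN : z 2 ^ 2 - a * z 3 ^ 2 = 0
  · have hM : z 0 ^ 2 - a * z 1 ^ 2 = 0 := by linear_combination h0 + c * hN
    have key : ∃ x y : K, y ≠ 0 ∧ x ^ 2 - a * y ^ 2 = 0 := by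
      by_cases h3 : z 3 = 0
      · have h2' : z 2 = 0 := by
          rw [h3] at hN
          simpa using hN
        by_cases h1 : z 1 = 0
        · exfalso
          apply hz
          have h0' : z 0 = 0 := by
            rw [h1] at hM
            simpa using hM
          funext i
          fin_cases i
          · exact h0'
          · exact h1
          · exact h2'
          · exact h3
        · exact ⟨z 0, z 1, h1, hM⟩
      · exact ⟨z 2, z 3, h3, hN⟩
    obtain ⟨x, y, hy, hxy⟩ := key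
    refine pur_of_isotropic h2 ha hc (p := 0) (q := x) (r := y) (Or.inr (Or.inr hy)) ?_
    linear_combination c * hxy
  · -- `c = e² - a f²`
    set n := z 2 ^ 2 - a * z 3 ^ 2 with hn
    refine pur_of_isotropic h2 ha hc (p := c) (q := -a * ((z 1 * z 2 - z 0 * z 3) / n))
      (r := (z 0 * z 2 - a * z 1 * z 3) / n) (Or.inl hc) ?_
    field_simp
    rw [hn]
    linear_combination (-(a * c) * (z 2 ^ 2 - a * z 3 ^ 2)) * h0

theorem pur_of_isotL {K : Type*} [Field K] (h2 : (2 : K) ≠ 0) {δ a c : K} (hδ : δ ≠ 0)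
    (ha : a ≠ 0) (hc : c ≠ 0) (h : IsotL δ a c) : Pur δ a c := by
  obtain ⟨u, v, hne, h1, hb⟩ := h
  by_cases hv : q4 a c v = 0
  · have hu : q4 a c u = 0 := by
      rw [hv] at h1
      simpa using h1
    rcases hne with hne | hne
    · exact pur_of_q4 h2 ha hc hne hu
    · exact pur_of_q4 h2 ha hc hne hv
  · refine ⟨(-(u 0 * v 1) + u 1 * v 0 + c * (u 2 * v 3) - c * (u 3 * v 2)) / q4 a c v,
      (-(u 0 * v 2) + u 2 * v 0 - a * (u 1 * v 3) + a * (u 3 * v 1)) / q4 a c v,
      (-(u 0 * v 3) + u 3 * v 0 - u 1 * v 2 + u 2 * v 1) / q4 a c v, ?_⟩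
    field_simp
    unfold q4 at h1 ⊢
    unfold b4 at hb
    linear_combination (-(v 0 ^ 2 - a * v 1 ^ 2 - c * v 2 ^ 2 + a * c * v 3 ^ 2)) * h1 +
      (u 0 * v 0 - a * (u 1 * v 1) - c * (u 2 * v 2) + a * c * (u 3 * v 3)) * hb

theorem pur_of_cov {F : Type*} [Field F] (h2 : (2 : F) ≠ 0) {x D c a b α β γ a' : F} (hD : D ≠ 0)
    (hc : c ≠ 0) (hab : a ≠ b) (ha : a = a' ^ 2) (ha' : a' ≠ 0)
    (h1 : α ^ 2 - c * β ^ 2 = a * D) (h2' : α ^ 2 - c * γ ^ 2 = b * D) :
    Pur (D * x * (x - a) * (x - b)) x c := by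
  obtain ⟨α0, hα⟩ : ∃ α0, α = α0 * a' := ⟨α / a', by field_simp⟩
  obtain ⟨β0, hβ⟩ : ∃ β0, β = β0 * a' := ⟨β / a', by field_simp⟩
  have hD0 : α0 ^ 2 - c * β0 ^ 2 = D := by
    have h3 : a' ^ 2 * (α0 ^ 2 - c * β0 ^ 2) = a' ^ 2 * D := by
      rw [hα, hβ, ha] at h1
      linear_combination h1
    exact mul_left_cancel₀ (pow_ne_zero 2 ha') h3
  obtain ⟨m, hm⟩ : ∃ m, m * D = c * (γ + β) ^ 2 := ⟨c * (γ + β) ^ 2 / D, by field_simp⟩
  obtain ⟨s, hs⟩ : ∃ s, 2 * s = a + b + m := ⟨(a + b + m) / 2, by field_simp⟩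
  obtain ⟨e, he⟩ : ∃ e, e * D = (γ + β) * α := ⟨(γ + β) * α / D, by field_simp⟩
  have hse : s ^ 2 - a * b = c * e ^ 2 := by
    have h3 : (4 * D ^ 2) * (s ^ 2 - a * b) = (4 * D ^ 2) * (c * e ^ 2) := by
      have e1 : (4 * D ^ 2) * (c * e ^ 2) = 4 * c * ((γ + β) * α) ^ 2 := by
        rw [← he]
        ring
      have e2 : (4 * D ^ 2) * (s ^ 2 - a * b) =
          ((a * D + b * D + m * D) ^ 2 - 4 * (a * D) * (b * D)) := by
        linear_combination D ^ 2 * (2 * s + a + b + m) * hs
      rw [e1, e2, hm, ← h1, ← h2']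
      ring
    have h4 : (4 * D ^ 2 : F) ≠ 0 := by
      have : (4 : F) = 2 * 2 := by norm_num
      rw [this]
      exact mul_ne_zero (mul_ne_zero h2 h2) (pow_ne_zero 2 hD)
    exact mul_left_cancel₀ h4 h3
  refine ⟨α0 * (x - s) + c * β0 * e, (γ + β) * x, α0 * e + β0 * (x - s), ?_⟩
  linear_combination x * ((x - s) ^ 2 - c * e ^ 2) * hD0 - x ^ 2 * hm + D * x * hse - D * x ^ 2 * hs

/-- the final computation of C4b -/
theorem cov_calc {K : Type*} [Field K] (h2 : (2 : K) ≠ 0) {D l c : K} (hD : D ≠ 0)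
    (h1 : l ≠ 1) (hc : ¬ IsSquare c) {p0 p1 r0 r1 q1 : K}
    (hA : p0 ^ 2 - c * r0 ^ 2 = D * l)
    (hB : 2 * (p0 * p1 - c * r0 * r1) + c * q1 ^ 2 = -(D * (1 + l)))
    (hC : p1 ^ 2 - c * r1 ^ 2 = D) : Cov D l c := by
  have hc0 : c ≠ 0 := by
    rintro rfl
    exact hc ⟨0, by simp⟩
  have hq : q1 ≠ 0 := by
    rintro rfl
    -- `p(1)² = c r(1)²`
    have h3 : (p0 + p1) ^ 2 = c * (r0 + r1) ^ 2 := by linear_combination hA + hB + hC
    have h4 : r0 + r1 = 0 := by
      by_contra h4
      apply hc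
      refine ⟨(p0 + p1) / (r0 + r1), ?_⟩
      field_simp
      linear_combination -h3
    have h5 : p0 + p1 = 0 := by
      rw [h4] at h3
      simpa using h3
    have h6 : D * (l - 1) = 0 := by
      linear_combination (p0 - p1) * h5 - c * (r0 - r1) * h4 - hA + hC
    rcases mul_eq_zero.1 h6 with h6 | h6
    · exact hD h6
    · exact h1 (sub_eq_zero.1 h6)
  refine ⟨(r0 * p1 - p0 * r1) / q1, (c * q1 ^ 2 - D + D * l) / (2 * c * q1),
    (c * q1 ^ 2 + D - D * l) / (2 * c * q1), ?_, ?_⟩
  · field_simp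
    linear_combination (2 * (p0 * p1 - c * r0 * r1) - D * (1 + l) - c * q1 ^ 2) * hB -
      4 * (p1 ^ 2 - c * r1 ^ 2) * hA - 4 * D * l * hC
  · field_simp
    linear_combination (2 * (p0 * p1 - c * r0 * r1) - D * (1 + l) - c * q1 ^ 2) * hB -
      4 * (p1 ^ 2 - c * r1 ^ 2) * hA - 4 * D * l * hC

/-- anisotropy, polynomial form -/
theorem aniso_poly {K : Type*} [Field K] {c : K} (hc : ¬ IsSquare c) :
    ∀ (n : ℕ) (p q r : K[X]), p.natDegree + q.natDegree + r.natDegree ≤ n →
      X * p ^ 2 + C c * q ^ 2 - C c * X * r ^ 2 = 0 → p = 0 ∧ q = 0 ∧ r = 0 := by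
  classical
  have hc0 : c ≠ 0 := by
    rintro rfl
    exact hc ⟨0, by simp⟩
  have step : ∀ p q r : K[X], X * p ^ 2 + C c * q ^ 2 - C c * X * r ^ 2 = 0 →
      ∃ p' q' r' : K[X], p = X * p' ∧ q = X * q' ∧ r = X * r' ∧
        X * p' ^ 2 + C c * q' ^ 2 - C c * X * r' ^ 2 = 0 := by
    intro p q r h
    have hq : X ∣ q := by
      rw [Polynomial.X_dvd_iff]
      have h3 := congrArg (Polynomial.eval 0) h
      simp only [eval_sub, eval_add, eval_mul, eval_pow, eval_X, eval_C, zero_mul, mul_zero,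
        zero_add, sub_zero, eval_zero] at h3
      rw [Polynomial.coeff_zero_eq_eval_zero]
      have h4 := (mul_eq_zero.1 h3).resolve_left hc0
      exact pow_eq_zero_iff (two_ne_zero) |>.1 h4
    obtain ⟨q', rfl⟩ := hq
    have h5 : p ^ 2 + C c * X * q' ^ 2 - C c * r ^ 2 = 0 := by
      have h6 : X * (p ^ 2 + C c * X * q' ^ 2 - C c * r ^ 2) = X * 0 := by
        linear_combination h
      exact mul_left_cancel₀ X_ne_zero h6
    have h7 := congrArg (Polynomial.eval 0) h5
    simp only [eval_sub, eval_add, eval_mul, eval_pow, eval_X, eval_C, zero_mul, mul_zero,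
      add_zero, eval_zero] at h7
    have hr0 : r.eval 0 = 0 := by
      by_contra h8
      apply hc
      refine ⟨p.eval 0 / r.eval 0, ?_⟩
      field_simp
      linear_combination -h7
    have hp0 : p.eval 0 = 0 := by
      rw [hr0] at h7
      simpa using h7
    have hp : X ∣ p := by
      rw [Polynomial.X_dvd_iff, Polynomial.coeff_zero_eq_eval_zero]
      exact hp0
    have hr : X ∣ r := by
      rw [Polynomial.X_dvd_iff, Polynomial.coeff_zero_eq_eval_zero]
      exact hr0
    obtain ⟨p', rfl⟩ := hp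
    obtain ⟨r', rfl⟩ := hr
    refine ⟨p', q', r', rfl, rfl, rfl, ?_⟩
    have h9 : X * (X * p' ^ 2 + C c * q' ^ 2 - C c * X * r' ^ 2) = X * 0 := by
      linear_combination h5
    exact mul_left_cancel₀ X_ne_zero h9
  have hdeg : ∀ p : K[X], (X * p).natDegree = if p = 0 then 0 else p.natDegree + 1 := by
    intro p
    split_ifs with h
    · simp [h]
    · rw [Polynomial.natDegree_X_mul h]
  intro n
  induction n with
  | zero =>
    intro p q r hn h
    obtain ⟨p', q', r', rfl, rfl, rfl, h'⟩ := step p q r h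
    rw [hdeg, hdeg, hdeg] at hn
    by_cases hp : p' = 0
    · by_cases hq : q' = 0
      · by_cases hr : r' = 0
        · simp [hp, hq, hr]
        · simp [hr] at hn
      · simp [hq] at hn
    · simp [hp] at hn
  | succ n ih =>
    intro p q r hn h
    obtain ⟨p', q', r', rfl, rfl, rfl, h'⟩ := step p q r h
    by_cases h0 : p' = 0 ∧ q' = 0 ∧ r' = 0
    · obtain ⟨rfl, rfl, rfl⟩ := h0
      simp
    · have h3 : p'.natDegree + q'.natDegree + r'.natDegree ≤ n := by
        rw [hdeg, hdeg, hdeg] at hn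
        by_cases hp : p' = 0
        · by_cases hq : q' = 0
          · by_cases hr : r' = 0
            · exact absurd ⟨hp, hq, hr⟩ h0
            · simp only [hp, hq, hr, if_true, if_false] at hn
              simp only [hp, hq, natDegree_zero]
              omega
          · simp only [hp, hq, if_true, if_false] at hn
            simp only [hp, natDegree_zero]
            split_ifs at hn with hr
            · simp only [hr, natDegree_zero]
              omega
            · omega
        · simp only [hp, if_false] at hn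
          split_ifs at hn with hq hr hr
          · simp only [hq, hr, natDegree_zero]
            omega
          · simp only [hq, natDegree_zero]
            omega
          · simp only [hr, natDegree_zero]
            omega
          · omega
      exact absurd (ih p' q' r' h3 h') h0

/-- anisotropy over the rational function field -/
theorem aniso_rat {K : Type*} [Field K] {c : K} (hc : ¬ IsSquare c) (v : Fin 3 → RatFunc K)
    (h : RatFunc.X * v 0 ^ 2 + RatFunc.C c * v 1 ^ 2 - RatFunc.C c * RatFunc.X * v 2 ^ 2 = 0) :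
    v = 0 := by
  classical
  obtain ⟨b, hb⟩ := IsLocalization.exist_integer_multiples_of_finset
    (nonZeroDivisors K[X]) (Finset.univ.image v)
  have hmem : ∀ i, ∃ p : K[X], algebraMap K[X] (RatFunc K) p =
      algebraMap K[X] (RatFunc K) b * v i := by
    intro i
    obtain ⟨p, hp⟩ := hb (v i) (Finset.mem_image_of_mem _ (Finset.mem_univ i))
    refine ⟨p, ?_⟩
    rw [hp, Algebra.smul_def]
  choose p hp using hmem
  have hb0 : algebraMap K[X] (RatFunc K) b ≠ 0 := by
    intro h0
    exact nonZeroDivisors.coe_ne_zero b ((map_eq_zero_iff _ (RatFunc.algebraMap_injective K)).1 h0)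
  have h3 : X * p 0 ^ 2 + C c * p 1 ^ 2 - C c * X * p 2 ^ 2 = 0 := by
    apply RatFunc.algebraMap_injective K
    rw [map_zero]
    simp only [map_sub, map_add, map_mul, map_pow, RatFunc.algebraMap_X, RatFunc.algebraMap_C, hp]
    linear_combination (algebraMap K[X] (RatFunc K) b) ^ 2 * h
  obtain ⟨h4, h5, h6⟩ := aniso_poly hc _ _ _ _ le_rfl h3
  have h7 : ∀ i, p i = 0 := by
    intro i
    fin_cases i
    · exact h4
    · exact h5
    · exact h6
  funext i
  have h8 := hp i
  rw [h7 i, map_zero] at h8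
  exact (mul_eq_zero.1 h8.symm).resolve_left hb0

/-- degree bounds -/
theorem deg_bounds {K : Type*} [Field K] {c : K} (hc : ¬ IsSquare c) {p q r P : K[X]}
    (hP : P.natDegree ≤ 3) (h : X * p ^ 2 + C c * q ^ 2 - C c * X * r ^ 2 = P) :
    p.natDegree ≤ 1 ∧ q.natDegree ≤ 1 ∧ r.natDegree ≤ 1 := by
  have hc0 : c ≠ 0 := by
    rintro rfl
    exact hc ⟨0, by simp⟩
  set m := max p.natDegree r.natDegree with hm
  have hpm : p.natDegree ≤ m := le_max_left _ _
  have hrm : r.natDegree ≤ m := le_max_right _ _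
  -- coefficient of `X ^ (2 m + 1)`
  have hodd : (X * p ^ 2 - C c * X * r ^ 2).coeff (2 * m + 1) =
      p.coeff m ^ 2 - c * r.coeff m ^ 2 := by
    have e : X * p ^ 2 - C c * X * r ^ 2 = (p ^ 2 - C c * r ^ 2) * X := by ring
    rw [e, coeff_mul_X, coeff_sub, coeff_C_mul, coeff_pow_of_natDegree_le hpm,
      coeff_pow_of_natDegree_le hrm]
  have hne : ¬ (p = 0 ∧ r = 0) → p.coeff m ^ 2 - c * r.coeff m ^ 2 ≠ 0 := by
    intro h0 h3
    have hr0 : r.coeff m = 0 := by
      by_contra h4
      apply hc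
      refine ⟨p.coeff m / r.coeff m, ?_⟩
      field_simp
      linear_combination -h3
    have hp0 : p.coeff m = 0 := by
      rw [hr0] at h3
      simpa using h3
    rcases le_total p.natDegree r.natDegree with h5 | h5
    · have : m = r.natDegree := max_eq_right h5
      rw [this, coeff_natDegree, leadingCoeff_eq_zero] at hr0
      rw [this, hr0, natDegree_zero] at hp0
      rw [hr0, natDegree_zero] at h5
      have h6 : p = 0 := by
        rw [Polynomial.eq_C_of_natDegree_le_zero h5, hp0, map_zero]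
      exact h0 ⟨h6, hr0⟩
    · have : m = p.natDegree := max_eq_left h5
      rw [this, coeff_natDegree, leadingCoeff_eq_zero] at hp0
      rw [this, hp0, natDegree_zero] at hr0
      rw [hp0, natDegree_zero] at h5
      have h6 : r = 0 := by
        rw [Polynomial.eq_C_of_natDegree_le_zero h5, hr0, map_zero]
      exact h0 ⟨hp0, h6⟩
  have hoddlt : ∀ j, 2 * m + 1 < j → (X * p ^ 2 - C c * X * r ^ 2).coeff j = 0 := by
    intro j hj
    apply coeff_eq_zero_of_natDegree_lt
    refine lt_of_le_of_lt ?_ hj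
    have e : X * p ^ 2 - C c * X * r ^ 2 = (p ^ 2 - C c * r ^ 2) * X := by ring
    rw [e]
    refine (natDegree_mul_le).trans ?_
    rw [natDegree_X]
    refine Nat.add_le_add_right ?_ 1
    refine (natDegree_sub_le _ _).trans (max_le ?_ ?_)
    · refine natDegree_pow_le.trans ?_
      omega
    · refine (natDegree_C_mul_le _ _).trans (natDegree_pow_le.trans ?_)
      omega
  have hev : (C c * q ^ 2).coeff (2 * q.natDegree) = c * q.leadingCoeff ^ 2 := by
    rw [coeff_C_mul, coeff_pow_of_natDegree_le le_rfl, coeff_natDegree]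
  have hevlt : ∀ j, 2 * q.natDegree < j → (C c * q ^ 2).coeff j = 0 := by
    intro j hj
    apply coeff_eq_zero_of_natDegree_lt
    refine lt_of_le_of_lt ?_ hj
    exact (natDegree_C_mul_le _ _).trans natDegree_pow_le
  have hsum : ∀ j, (X * p ^ 2 - C c * X * r ^ 2).coeff j + (C c * q ^ 2).coeff j = P.coeff j := by
    intro j
    rw [← coeff_add, ← h]
    congr 1
    ring
  have hPlt : ∀ j, 3 < j → P.coeff j = 0 := fun j hj =>
    coeff_eq_zero_of_natDegree_lt (lt_of_le_of_lt hP hj)
  rcases lt_or_ge (2 * m + 1) (2 * q.natDegree) with hlt | hge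
  · have hq1 : q.natDegree ≤ 1 := by
      by_contra h3
      have h4 := hsum (2 * q.natDegree)
      rw [hoddlt _ hlt, hev, hPlt _ (by omega), zero_add] at h4
      have h5 : q.leadingCoeff = 0 := by
        rcases mul_eq_zero.1 h4 with h4 | h4
        · exact absurd h4 hc0
        · exact pow_eq_zero_iff (two_ne_zero) |>.1 h4
      rw [leadingCoeff_eq_zero] at h5
      rw [h5] at h3
      simp at h3
    refine ⟨by omega, hq1, by omega⟩
  · have hm1 : m ≤ 1 := by
      by_contra h3
      have h4 := hsum (2 * m + 1)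
      rw [hodd, hevlt _ (by omega), hPlt _ (by omega), add_zero] at h4
      refine hne ?_ h4
      rintro ⟨h5, h6⟩
      rw [h5, h6] at hm
      simp at hm
      omega
    refine ⟨by omega, by omega, by omega⟩

/-- the statement of Cassels-Pfister that is used -/
theorem cov_of_pur_aux {K : Type*} [Field K] (h2 : (2 : K) ≠ 0) {D l c : K} (hD : D ≠ 0)
    (h1 : l ≠ 1) (hc : ¬ IsSquare c)
    (hw : ∃ p q r : K[X], X * p ^ 2 + C c * q ^ 2 - C c * X * r ^ 2 =
      C D * X * (X - 1) * (X - C l)) : Cov D l c := by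
  have hc0 : c ≠ 0 := by
    rintro rfl
    exact hc ⟨0, by simp⟩
  obtain ⟨p, q, r, h⟩ := hw
  have hP : (C D * X * (X - 1) * (X - C l)).natDegree ≤ 3 := by
    refine natDegree_mul_le_of_le (n := 1) (m := 2) ?_ (natDegree_X_sub_C_le l)
    refine natDegree_mul_le_of_le (n := 1) (m := 1) ?_ ?_
    · exact (natDegree_C_mul_le _ _).trans natDegree_X_le
    · have := natDegree_X_sub_C_le (1 : K)
      rwa [map_one] at this
  obtain ⟨hp, hq, hr⟩ := deg_bounds hc hP h
  have hp' := eq_X_add_C_of_natDegree_le_one hp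
  have hq' := eq_X_add_C_of_natDegree_le_one hq
  have hr' := eq_X_add_C_of_natDegree_le_one hr
  set p1 := p.coeff 1
  set p0 := p.coeff 0
  set q1 := q.coeff 1
  set q0 := q.coeff 0
  set r1 := r.coeff 1
  set r0 := r.coeff 0
  rw [hp', hq', hr'] at h
  have hq0 : q0 = 0 := by
    have h3 := congrArg (Polynomial.eval 0) h
    simp only [eval_sub, eval_add, eval_mul, eval_pow, eval_X, eval_C, zero_mul, mul_zero,
      zero_add, sub_zero, eval_one] at h3
    have h4 := (mul_eq_zero.1 h3).resolve_left hc0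
    exact pow_eq_zero_iff (two_ne_zero) |>.1 h4
  have h3 : C (p0 ^ 2 - c * r0 ^ 2 - D * l) +
      C (2 * (p0 * p1 - c * r0 * r1) + c * q1 ^ 2 + D * (1 + l)) * X +
      C (p1 ^ 2 - c * r1 ^ 2 - D) * X ^ 2 = 0 := by
    have h4 : X * (C (p0 ^ 2 - c * r0 ^ 2 - D * l) +
      C (2 * (p0 * p1 - c * r0 * r1) + c * q1 ^ 2 + D * (1 + l)) * X +
      C (p1 ^ 2 - c * r1 ^ 2 - D) * X ^ 2) = X * 0 := by
      rw [hq0] at h
      simp only [map_sub, map_add, map_mul, map_pow, map_zero, map_one, map_ofNat] at h ⊢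
      linear_combination h
    exact mul_left_cancel₀ X_ne_zero h4
  have c0 := congrArg (fun P => Polynomial.coeff P 0) h3
  have c1 := congrArg (fun P => Polynomial.coeff P 1) h3
  have c2 := congrArg (fun P => Polynomial.coeff P 2) h3
  simp only [coeff_add, coeff_C_mul, coeff_C, coeff_X, coeff_X_pow, coeff_zero] at c0 c1 c2
  norm_num at c0 c1 c2
  refine cov_calc (p0 := p0) (p1 := p1) (r0 := r0) (r1 := r1) (q1 := q1) h2 hD h1 hc ?_ ?_ ?_
  · linear_combination c0
  · linear_combination c1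
  · linear_combination c2

theorem cov_of_pur {K : Type*} [Field K] (h2 : (2 : K) ≠ 0) {D l c : K} (hD : D ≠ 0) (h0 : l ≠ 0)
    (h1 : l ≠ 1) (hc : ¬ IsSquare c)
    (hp : Pur (RatFunc.C D * RatFunc.X * (RatFunc.X - 1) * (RatFunc.X - RatFunc.C l))
      (RatFunc.X : RatFunc K) (RatFunc.C c)) : Cov D l c := by
  have _ := h0
  obtain ⟨p, q, r, h⟩ := hp
  refine cov_of_pur_aux h2 hD h1 hc ?_
  have key : ∃ w : Fin 3 → K[X], ∑ i, (![X, C c, -(C c * X)] : Fin 3 → K[X]) i * w i ^ 2 =
      C D * X * (X - 1) * (X - C l) := by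
    refine cassels_pfister h2 (n := 3) ![X, C c, -(C c * X)] ?_ ?_ _ ![p, q, r] ?_
    · intro i
      fin_cases i
      · exact natDegree_X_le
      · exact (natDegree_C c).le.trans zero_le_one
      · refine (natDegree_neg (C c * X)).le.trans ?_
        exact (natDegree_C_mul_le _ _).trans natDegree_X_le
    · intro v hv
      apply aniso_rat hc v
      rw [Fin.sum_univ_three] at hv
      simp only [Matrix.cons_val_zero, Matrix.cons_val_one, Matrix.cons_val, map_neg, map_mul,
        RatFunc.algebraMap_X, RatFunc.algebraMap_C] at hv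
      linear_combination hv
    · rw [Fin.sum_univ_three]
      simp only [Matrix.cons_val_zero, Matrix.cons_val_one, Matrix.cons_val, map_neg, map_mul,
        map_sub, map_one, RatFunc.algebraMap_X, RatFunc.algebraMap_C]
      linear_combination h
  obtain ⟨w, hw⟩ := key
  refine ⟨w 0, w 1, w 2, ?_⟩
  rw [← hw, Fin.sum_univ_three]
  simp only [Matrix.cons_val_zero, Matrix.cons_val_one, Matrix.cons_val]
  ring

end Pool.Agent.H918R3.TC4
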