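import Pool.Agent.H918R3.Defs

set_option autoImplicit false

/-!
Tasks FD, IND, IND2: the field `k(τ)`.
-/

namespace Pool.Agent.H918R3

open Polynomial

variable {k : Type*} [Field k]

theorem FD_hom (g : RatFunc k) (hg : ¬ ∃ c, g = RatFunc.C c) :
    ∃ φ : RatFunc k →+* RatFunc k, (∀ c : k, φ (RatFunc.C c) = RatFunc.C c) ∧
      φ RatFunc.X = g := by
  have h := g.transcendental_of_ne_C hg
  refine ⟨((IntermediateField.val _).comp
    (RatFunc.algEquivOfTranscendental g h).toAlgHom).toRingHom, fun c => ?_, ?_⟩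
  · exact AlgHom.commutes _ c
  · simp [RatFunc.algEquivOfTranscendental_X]

theorem FD_ext (f g : RatFunc k →+* RatFunc k) (hC : ∀ c : k, f (RatFunc.C c) = g (RatFunc.C c))
    (hX : f RatFunc.X = g RatFunc.X) : f = g := by
  apply IsLocalization.ringHom_ext (nonZeroDivisors k[X])
  apply Polynomial.ringHom_ext
  · intro a
    simp only [RingHom.coe_comp, Function.comp_apply, RatFunc.algebraMap_C]
    exact hC a
  · simp only [RingHom.coe_comp, Function.comp_apply, RatFunc.algebraMap_X]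
    exact hX

/-- polynomials in `X²` of degree one are nonzero -/
theorem FD_lin {a b : k} (h : RatFunc.C a + RatFunc.C b * RatFunc.X ^ 2 = 0) : a = 0 ∧ b = 0 := by
  have h1 : algebraMap k[X] (RatFunc k) (C a + C b * X ^ 2) = 0 := by
    rw [map_add, map_mul, map_pow, RatFunc.algebraMap_C, RatFunc.algebraMap_C,
      RatFunc.algebraMap_X]
    exact h
  have h2 : (C a + C b * X ^ 2 : k[X]) = 0 := by
    apply RatFunc.algebraMap_injective k
    rw [h1, map_zero]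
  constructor
  · have h3 := congrArg (fun p => p.coeff 0) h2
    simpa using h3
  · have h3 := congrArg (fun p => p.coeff 2) h2
    simpa [coeff_C] using h3

theorem FD_den {a b : k} (hb : b ≠ 0) :
    RatFunc.C a - RatFunc.C b * (RatFunc.X : RatFunc k) ^ 2 ≠ 0 := by
  intro h
  have h1 : RatFunc.C a + RatFunc.C (-b) * (RatFunc.X : RatFunc k) ^ 2 = 0 := by
    rw [map_neg]
    linear_combination h
  exact hb (neg_eq_zero.mp (FD_lin h1).2)

theorem FD_one_add : (1 + RatFunc.X ^ 2 : RatFunc k) ≠ 0 := by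
  intro h
  have h1 : RatFunc.C (1 : k) + RatFunc.C 1 * (RatFunc.X : RatFunc k) ^ 2 = 0 := by
    rw [map_one, one_mul]
    exact h
  exact one_ne_zero (FD_lin h1).2

/-- the generators generate -/
theorem FD_decomp (φ : RatFunc k →+* RatFunc k) (r e : RatFunc k) (he : φ e = r ^ 2)
    (hr : ∀ b, φ b ≠ r) (hC : ∀ c : k, φ (RatFunc.C c) = RatFunc.C c)
    (hX : ∃ b, RatFunc.X = φ b * r) (z : RatFunc k) : ∃ a b, z = φ a + φ b * r := by
  let S : Subfield (RatFunc k) :=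
    { carrier := {z | ∃ a b, z = φ a + φ b * r}
      mul_mem' := by
        rintro _ _ ⟨a, b, rfl⟩ ⟨a', b', rfl⟩
        refine ⟨a * a' + b * b' * e, a * b' + a' * b, ?_⟩
        simp only [map_add, map_mul, he]
        ring
      one_mem' := ⟨1, 0, by simp⟩
      add_mem' := by
        rintro _ _ ⟨a, b, rfl⟩ ⟨a', b', rfl⟩
        exact ⟨a + a', b + b', by simp only [map_add]; ring⟩
      zero_mem' := ⟨0, 0, by simp⟩
      neg_mem' := by
        rintro _ ⟨a, b, rfl⟩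
        exact ⟨-a, -b, by simp only [map_neg]; ring⟩
      inv_mem' := by
        rintro _ ⟨a, b, rfl⟩
        by_cases hz : φ a + φ b * r = 0
        · rw [hz, inv_zero]
          exact ⟨0, 0, by simp⟩
        have h1 : φ a - φ b * r ≠ 0 := by
          intro h
          by_cases hb : b = 0
          · subst hb
            rw [map_zero, zero_mul, sub_zero] at h
            rw [h, map_zero] at hz
            simp at hz
          · have hb' : φ b ≠ 0 := (map_ne_zero φ).mpr hb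
            apply hr (a / b)
            rw [map_div₀, div_eq_iff hb']
            linear_combination h
        have h2 : φ (a ^ 2 - b ^ 2 * e) = (φ a + φ b * r) * (φ a - φ b * r) := by
          simp only [map_sub, map_mul, map_pow, he]
          ring
        have h3 : φ (a ^ 2 - b ^ 2 * e) ≠ 0 := by
          rw [h2]
          exact mul_ne_zero hz h1
        refine ⟨a / (a ^ 2 - b ^ 2 * e), -b / (a ^ 2 - b ^ 2 * e), ?_⟩
        rw [map_div₀, map_div₀, map_neg]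
        rw [inv_eq_iff_eq_inv]
        have h4 : φ a / φ (a ^ 2 - b ^ 2 * e) + -φ b / φ (a ^ 2 - b ^ 2 * e) * r =
            (φ a - φ b * r) / φ (a ^ 2 - b ^ 2 * e) := by
          field_simp
          ring
        rw [h4, h2, inv_div, mul_div_assoc, div_self h1, mul_one] }
  have hCS : ∀ c : k, RatFunc.C c ∈ S := fun c => ⟨RatFunc.C c, 0, by rw [hC]; simp⟩
  have hXS : RatFunc.X ∈ S := by
    obtain ⟨b, hb⟩ := hX
    exact ⟨0, b, by rw [map_zero, zero_add]; exact hb⟩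
  have hpoly : ∀ p : k[X], algebraMap k[X] (RatFunc k) p ∈ S := by
    intro p
    induction p using Polynomial.induction_on' with
    | add p q hp hq => rw [map_add]; exact S.add_mem hp hq
    | monomial n a =>
      rw [← Polynomial.C_mul_X_pow_eq_monomial, map_mul, map_pow, RatFunc.algebraMap_C,
        RatFunc.algebraMap_X]
      exact S.mul_mem (hCS a) (S.pow_mem hXS n)
  have hz : z ∈ S := by
    rw [← RatFunc.num_div_denom z]
    exact S.div_mem (hpoly _) (hpoly _)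
  exact hz

/-- `X ↦ -X` -/
theorem FD_sigma : ∃ σ : RatFunc k →+* RatFunc k, (∀ c : k, σ (RatFunc.C c) = RatFunc.C c) ∧
    σ RatFunc.X = -RatFunc.X := by
  apply FD_hom
  rintro ⟨c, hc⟩
  have h1 : algebraMap k[X] (RatFunc k) (-X) = algebraMap k[X] (RatFunc k) (C c) := by
    rw [map_neg, RatFunc.algebraMap_X, RatFunc.algebraMap_C]
    exact hc
  have h2 := RatFunc.algebraMap_injective k h1
  have h3 := congrArg (fun p => p.coeff 1) h2
  simp at h3

/-- odd elements are not in the image of homomorphisms with even image of `X` -/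
theorem FD_odd (h2 : (2 : k) ≠ 0) (φ : RatFunc k →+* RatFunc k)
    (hC : ∀ c : k, φ (RatFunc.C c) = RatFunc.C c) (r : RatFunc k) (hr : r ≠ 0)
    (h : ∀ σ : RatFunc k →+* RatFunc k, (∀ c : k, σ (RatFunc.C c) = RatFunc.C c) →
      σ RatFunc.X = -RatFunc.X → σ (φ RatFunc.X) = φ RatFunc.X ∧ σ r = -r) :
    ∀ b, φ b ≠ r := by
  obtain ⟨σ, hσC, hσX⟩ := FD_sigma (k := k)
  obtain ⟨h3, h4⟩ := h σ hσC hσX
  have h5 : σ.comp φ = φ := by
    apply FD_ext
    · intro c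
      simp only [RingHom.coe_comp, Function.comp_apply, hC, hσC]
    · exact h3
  intro b hb
  have h6 : σ (φ b) = φ b := by
    have := congrArg (fun f => f b) h5
    exact this
  rw [hb, h4] at h6
  have h7 : (2 : RatFunc k) * r = 0 := by linear_combination -h6
  rcases mul_eq_zero.mp h7 with h8 | h8
  · have h9 : RatFunc.C (2 : k) = 0 := by
      rw [map_ofNat]; exact h8
    rw [map_eq_zero] at h9
    exact h2 h9
  · exact hr h8

/-- the constants -/
theorem FD_gen {l : k} (hl : GenL l) : (1 - l ^ 2 : k) ≠ 0 ∧ (l ^ 2 - l + 1 : k) ≠ 0 ∧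
    (1 - l : k) ≠ 0 := by
  obtain ⟨h2, h0, h1, hm1, h12, hN⟩ := hl
  have h3 : (1 - l : k) ≠ 0 := fun h => h1 (by linear_combination -h)
  refine ⟨?_, hN, h3⟩
  have h4 : (1 + l : k) ≠ 0 := fun h => hm1 (by linear_combination h)
  have h5 : (1 - l ^ 2 : k) = (1 - l) * (1 + l) := by ring
  rw [h5]
  exact mul_ne_zero h3 h4

theorem FD_alg1 {F : Type*} [Field F] {M N c d x : F} (hM : M ≠ 0) (hN : N ≠ 0) (hc : c ≠ 0)
    (hd : d ≠ 0) : M / N * (c * N * x ^ 2 / d) / (c * M / d) = x ^ 2 := by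
  field_simp

theorem FD_alg2 {F : Type*} [Field F] {L N x : F} (hL : L ≠ 0) (hN : N ≠ 0) (hx : x - L ≠ 0)
    (hNL : N = L ^ 2 - L + 1) : 1 - (1 - L ^ 2) / N * (x - (1 - L)) / (x - L) =
      (x - L⁻¹) * (x - L) * (L * (2 * L - 1) / N / (x - L) ^ 2) := by
  field_simp
  rw [hNL]
  ring

theorem field_decomp [IsAlgClosed k] {l : k} (hl : GenL l) :
    ∃ (φ1 φ2 : RatFunc k →+* RatFunc k) (e1 : RatFunc k),
      (∀ c : k, φ1 (RatFunc.C c) = RatFunc.C c) ∧ (∀ c : k, φ2 (RatFunc.C c) = RatFunc.C c) ∧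
      φ2 (φ1 RatFunc.X) = tF l ∧ φ1 e1 = RatFunc.X ^ 2 ∧ e1 ≠ 0 ∧ e1 ≠ 1 ∧
      (∀ b, φ1 b ≠ RatFunc.X) ∧ (∀ z, ∃ a b, z = φ1 a + φ1 b * RatFunc.X) ∧
      φ2 (1 - RatFunc.X ^ 2) = (2 * RatFunc.X / (1 + RatFunc.X ^ 2)) ^ 2 ∧
      (∀ b, φ2 b ≠ 2 * RatFunc.X / (1 + RatFunc.X ^ 2)) ∧
      (∀ z, ∃ a b, z = φ2 a + φ2 b * (2 * RatFunc.X / (1 + RatFunc.X ^ 2))) ∧
      (∃ w, w ≠ 0 ∧ e1 = (RatFunc.X - RatFunc.C (1 - l)) * (RatFunc.X - RatFunc.C l) * w ^ 2) ∧
      (∃ w, w ≠ 0 ∧ 1 - e1 = (RatFunc.X - RatFunc.C l⁻¹) * (RatFunc.X - RatFunc.C l) * w ^ 2) := by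
  obtain ⟨hM, hN, h1l⟩ := FD_gen hl
  obtain ⟨h2, h0, h1, hm1, h12, -⟩ := hl
  have hden : RatFunc.C (1 - l ^ 2) - RatFunc.C (l ^ 2 - l + 1) * (RatFunc.X : RatFunc k) ^ 2 ≠ 0 :=
    FD_den hN
  have hCN : RatFunc.C (l ^ 2 - l + 1) ≠ 0 := by rwa [Ne, map_eq_zero]
  have hCM : RatFunc.C (1 - l ^ 2) ≠ 0 := by rwa [Ne, map_eq_zero]
  have hC2 : (2 : RatFunc k) ≠ 0 := by
    have h : RatFunc.C (2 : k) ≠ 0 := by rwa [Ne, map_eq_zero]
    rwa [map_ofNat] at h
  have hC12 : RatFunc.C (1 - 2 * l) ≠ 0 := by rwa [Ne, map_eq_zero]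
  have hCl : RatFunc.C l ≠ 0 := by rwa [Ne, map_eq_zero]
  -- φ1
  have hg1 : ¬ ∃ c, moeb l (RatFunc.X ^ 2) = RatFunc.C c := by
    rintro ⟨c, hc⟩
    unfold moeb at hc
    rw [div_eq_iff hden] at hc
    have h3 : RatFunc.C ((1 - l) * (1 - l ^ 2) - c * (1 - l ^ 2)) +
        RatFunc.C (c * (l ^ 2 - l + 1) - l * (l ^ 2 - l + 1)) * (RatFunc.X : RatFunc k) ^ 2 = 0 := by
      rw [map_sub RatFunc.C ((1 - l) * (1 - l ^ 2)), map_mul RatFunc.C c,
        map_sub RatFunc.C (c * (l ^ 2 - l + 1)), map_mul RatFunc.C c]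
      linear_combination hc
    obtain ⟨h4, h5⟩ := FD_lin h3
    have h6 : (1 - l - c) * (1 - l ^ 2) = 0 := by linear_combination h4
    have h7 : (c - l) * (l ^ 2 - l + 1) = 0 := by linear_combination h5
    have h8 := (mul_eq_zero.mp h6).resolve_right hM
    have h9 := (mul_eq_zero.mp h7).resolve_right hN
    exact h12 (by linear_combination h8 + h9)
  obtain ⟨φ1, hφ1C, hφ1X⟩ := FD_hom _ hg1
  -- φ2
  have hg2 : ¬ ∃ c, ((1 - RatFunc.X ^ 2) / (1 + RatFunc.X ^ 2) : RatFunc k) = RatFunc.C c := by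
    rintro ⟨c, hc⟩
    rw [div_eq_iff FD_one_add] at hc
    have h3 : RatFunc.C (1 - c) + RatFunc.C (-1 - c) * (RatFunc.X : RatFunc k) ^ 2 = 0 := by
      rw [map_sub, map_sub, map_neg, map_one]
      linear_combination hc
    obtain ⟨h4, h5⟩ := FD_lin h3
    exact h2 (by linear_combination h4 - h5)
  obtain ⟨φ2, hφ2C, hφ2X⟩ := FD_hom _ hg2
  have hX0 : (RatFunc.X : RatFunc k) ≠ 0 := RatFunc.X_ne_zero
  have hXl : (RatFunc.X - RatFunc.C l : RatFunc k) ≠ 0 := by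
    intro h
    have h3 : algebraMap k[X] (RatFunc k) (X - C l) = 0 := by
      rw [map_sub, RatFunc.algebraMap_X, RatFunc.algebraMap_C]; exact h
    exact X_sub_C_ne_zero l (RatFunc.algebraMap_injective k (by rw [h3, map_zero]))
  set e1 : RatFunc k := RatFunc.C ((1 - l ^ 2) / (l ^ 2 - l + 1)) *
    (RatFunc.X - RatFunc.C (1 - l)) / (RatFunc.X - RatFunc.C l) with he1
  have hφe : φ1 e1 = RatFunc.X ^ 2 := by
    rw [he1, map_div₀ φ1, map_mul φ1, map_sub φ1, map_sub φ1, hφ1X, hφ1C, hφ1C, hφ1C]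
    have h3 : moeb l (RatFunc.X ^ 2) - RatFunc.C (1 - l) =
        RatFunc.C ((1 - 2 * l) * (l ^ 2 - l + 1)) * RatFunc.X ^ 2 /
          (RatFunc.C (1 - l ^ 2) - RatFunc.C (l ^ 2 - l + 1) * RatFunc.X ^ 2) := by
      unfold moeb
      rw [div_sub' hden]
      congr 1
      simp only [map_sub, map_mul, map_add, map_pow, map_one, map_ofNat]
      ring
    have h4 : moeb l (RatFunc.X ^ 2) - RatFunc.C l =
        RatFunc.C ((1 - 2 * l) * (1 - l ^ 2)) /
          (RatFunc.C (1 - l ^ 2) - RatFunc.C (l ^ 2 - l + 1) * RatFunc.X ^ 2) := by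
      unfold moeb
      rw [div_sub' hden]
      congr 1
      simp only [map_sub, map_mul, map_add, map_pow, map_one, map_ofNat]
      ring
    rw [h3, h4, map_div₀, map_mul RatFunc.C (1 - 2 * l), map_mul RatFunc.C (1 - 2 * l)]
    exact FD_alg1 hCM hCN hC12 hden
  have hodd1 : ∀ b, φ1 b ≠ RatFunc.X := by
    refine FD_odd h2 φ1 hφ1C _ hX0 fun σ hσC hσX => ⟨?_, hσX⟩
    rw [hφ1X]
    unfold moeb
    simp only [map_div₀, map_sub, map_mul, map_pow, hσX, hσC, neg_sq, map_add, map_one]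
  have hodd2 : ∀ b, φ2 b ≠ 2 * RatFunc.X / (1 + RatFunc.X ^ 2) := by
    refine FD_odd h2 φ2 hφ2C _ (div_ne_zero (mul_ne_zero hC2 hX0) FD_one_add)
      fun σ hσC hσX => ⟨?_, ?_⟩
    · rw [hφ2X]
      simp only [map_div₀, map_sub, map_pow, hσX, neg_sq, map_add, map_one]
    · simp only [map_div₀, map_mul, map_pow, hσX, neg_sq, map_add, map_one, map_ofNat]
      ring
  have hφ2sq : φ2 (1 - RatFunc.X ^ 2) = (2 * RatFunc.X / (1 + RatFunc.X ^ 2)) ^ 2 := by
    have h3 := FD_one_add (k := k)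
    rw [map_sub φ2, map_one φ2, map_pow φ2, hφ2X]
    field_simp
    ring
  have hone : (1 + RatFunc.X : RatFunc k) ≠ 0 := by
    intro h
    have h3 : algebraMap k[X] (RatFunc k) (X - C (-1)) = 0 := by
      rw [map_sub, RatFunc.algebraMap_X, RatFunc.algebraMap_C, map_neg, map_one]
      linear_combination h
    exact X_sub_C_ne_zero (-1 : k) (RatFunc.algebraMap_injective k (by rw [h3, map_zero]))
  refine ⟨φ1, φ2, e1, hφ1C, hφ2C, ?_, hφe, ?_, ?_, hodd1, ?_, hφ2sq, hodd2, ?_, ?_, ?_⟩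
  · rw [hφ1X]
    unfold tF nuF moeb
    rw [map_div₀ φ2, map_sub φ2, map_sub φ2, map_mul φ2, map_mul φ2, map_pow φ2, hφ2X, hφ2C, hφ2C,
      hφ2C, hφ2C]
  · intro h
    rw [h, map_zero] at hφe
    exact pow_ne_zero 2 hX0 hφe.symm
  · intro h
    rw [h, map_one] at hφe
    have h3 : RatFunc.C (-1 : k) + RatFunc.C 1 * (RatFunc.X : RatFunc k) ^ 2 = 0 := by
      rw [map_neg, map_one, one_mul, ← hφe]
      ring
    exact one_ne_zero (FD_lin h3).2
  · exact FD_decomp φ1 _ e1 hφe hodd1 hφ1C ⟨1, by rw [map_one, one_mul]⟩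
  · refine FD_decomp φ2 _ (1 - RatFunc.X ^ 2) hφ2sq hodd2 hφ2C ⟨(1 + RatFunc.X)⁻¹, ?_⟩
    have h3 := FD_one_add (k := k)
    rw [map_inv₀, map_add, map_one, hφ2X]
    have h4 : (1 + (1 - RatFunc.X ^ 2) / (1 + RatFunc.X ^ 2) : RatFunc k) =
        2 / (1 + RatFunc.X ^ 2) := by
      field_simp
      ring
    rw [h4, inv_div]
    field_simp
  · obtain ⟨m, hm⟩ := IsAlgClosed.exists_pow_nat_eq ((1 - l ^ 2) / (l ^ 2 - l + 1)) two_pos
    have hm0 : m ≠ 0 := by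
      rintro rfl
      rw [zero_pow two_ne_zero] at hm
      exact div_ne_zero hM hN hm.symm
    refine ⟨RatFunc.C m / (RatFunc.X - RatFunc.C l), div_ne_zero (by rwa [Ne, map_eq_zero]) hXl, ?_⟩
    rw [he1, ← hm, map_pow]
    field_simp
  · obtain ⟨m, hm⟩ := IsAlgClosed.exists_pow_nat_eq
      (l * (2 * l - 1) / (l ^ 2 - l + 1)) two_pos
    have h21 : (2 * l - 1 : k) ≠ 0 := fun h => h12 (by linear_combination -h)
    have hm0 : m ≠ 0 := by
      rintro rfl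
      rw [zero_pow two_ne_zero] at hm
      exact div_ne_zero (mul_ne_zero h0 h21) hN hm.symm
    refine ⟨RatFunc.C m / (RatFunc.X - RatFunc.C l), div_ne_zero (by rwa [Ne, map_eq_zero]) hXl, ?_⟩
    rw [he1, div_pow, ← map_pow, hm, map_div₀, map_div₀, map_inv₀]
    have h3 : RatFunc.C (l * (2 * l - 1)) = RatFunc.C l * (2 * RatFunc.C l - 1) := by
      simp only [map_sub, map_mul, map_one, map_ofNat]
    have h4 : (RatFunc.C (1 - l) : RatFunc k) = 1 - RatFunc.C l := by rw [map_sub, map_one]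
    have h5 : (RatFunc.C (1 - l ^ 2) : RatFunc k) = 1 - RatFunc.C l ^ 2 := by
      rw [map_sub, map_one, map_pow]
    have h6 : (RatFunc.C (l ^ 2 - l + 1) : RatFunc k) = RatFunc.C l ^ 2 - RatFunc.C l + 1 := by
      rw [map_add, map_sub, map_one, map_pow]
    rw [h3, h4, h5]
    exact FD_alg2 hCl hCN hXl h6

/-! ### IND2: quartics -/

/-- the quartic `a (1 + X²)² + b (1 - X²)²` -/
noncomputable def FD_q (a b : k) : k[X] := C a * (1 + X ^ 2) ^ 2 + C b * (1 - X ^ 2) ^ 2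

theorem FD_q_eq (a b : k) :
    FD_q a b = C (a + b) * X ^ 4 + C (2 * (a - b)) * X ^ 2 + C (a + b) := by
  unfold FD_q
  simp only [map_add, map_mul, map_sub, map_ofNat]
  ring

theorem FD_q_natDegree {a b : k} (h : a + b ≠ 0) : (FD_q a b).natDegree = 4 := by
  rw [FD_q_eq]
  compute_degree!

theorem FD_q_coprime (h2 : (2 : k) ≠ 0) {a b c d : k} (h : a * d - b * c ≠ 0) :
    IsCoprime (FD_q a b) (FD_q c d) := by
  have h1 : IsCoprime ((1 + X ^ 2) ^ 2 : k[X]) ((1 - X ^ 2) ^ 2) := by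
    apply IsCoprime.pow
    refine ⟨C 2⁻¹, C 2⁻¹, ?_⟩
    have h3 : (C 2⁻¹ : k[X]) * C 2 = 1 := by rw [← C_mul, inv_mul_cancel₀ h2, C_1]
    rw [map_ofNat] at h3
    linear_combination h3
  obtain ⟨u, v, huv⟩ := h1
  refine ⟨(C d * u - C c * v) * C (a * d - b * c)⁻¹, (C a * v - C b * u) * C (a * d - b * c)⁻¹, ?_⟩
  have h3 : (C (a * d - b * c) : k[X]) * C (a * d - b * c)⁻¹ = 1 := by
    rw [← C_mul, mul_inv_cancel₀ h, C_1]
  rw [C_sub, C_mul, C_mul] at h3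
  unfold FD_q
  generalize (C (a * d - b * c)⁻¹ : k[X]) = e at h3 ⊢
  linear_combination h3 + (C a * C d - C b * C c) * e * huv

theorem FD_q_ne_zero {a b : k} (h : a + b ≠ 0) : FD_q a b ≠ 0 := by
  intro h0
  have h1 := FD_q_natDegree h
  rw [h0, natDegree_zero] at h1
  omega

theorem FD_q_root [IsAlgClosed k] (h2 : (2 : k) ≠ 0) {a b : k} (ha : a ≠ 0) (hb : b ≠ 0)
    (h : a + b ≠ 0) : ∃ α, (FD_q a b).rootMultiplicity α = 1 := by
  have h1 : (FD_q a b).degree ≠ 0 := by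
    rw [degree_eq_natDegree (FD_q_ne_zero h), FD_q_natDegree h]
    norm_num
  obtain ⟨α, hα⟩ := IsAlgClosed.exists_root _ h1
  refine ⟨α, ?_⟩
  have h3 := (rootMultiplicity_pos (FD_q_ne_zero h)).mpr hα
  have h4 : ¬ 1 < (FD_q a b).rootMultiplicity α := by
    rw [one_lt_rootMultiplicity_iff_isRoot (FD_q_ne_zero h)]
    rintro ⟨h5, h6⟩
    rw [FD_q_eq] at h5 h6
    simp only [IsRoot.def, eval_add, eval_mul, eval_C, eval_pow, eval_X, derivative_add,
      derivative_mul, derivative_C, derivative_X_pow, zero_mul, zero_add, add_zero,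
      Nat.cast_ofNat, Nat.reduceSub, pow_one] at h5 h6
    have h7 : 4 * α * ((a + b) * α ^ 2 + (a - b)) = 0 := by
      linear_combination h6
    have h22 : (4 : k) ≠ 0 := by
      have : (4 : k) = 2 * 2 := by norm_num
      rw [this]
      exact mul_ne_zero h2 h2
    rcases mul_eq_zero.mp h7 with h8 | h8
    · have h9 : α = 0 := (mul_eq_zero.mp h8).resolve_left h22
      rw [h9] at h5
      exact h (by linear_combination h5)
    · have h9 : 4 * (a * b) = 0 := by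
        linear_combination (a + b) * h5 - ((a + b) * α ^ 2 + (a - b)) * h8
      exact mul_ne_zero h22 (mul_ne_zero ha hb) h9
  omega

theorem FD_cop_root {g g' : k[X]} (h : IsCoprime g g') {α : k} (hα : 0 < g.rootMultiplicity α)
    (hg : g ≠ 0) : g'.rootMultiplicity α = 0 := by
  apply rootMultiplicity_eq_zero
  intro h1
  obtain ⟨u, v, huv⟩ := h
  have h2 := (rootMultiplicity_pos hg).mp hα
  have h3 := congrArg (eval α) huv
  rw [eval_add, eval_mul, eval_mul, h1.eq_zero, h2.eq_zero, mul_zero, mul_zero, add_zero,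
    eval_one] at h3
  exact zero_ne_one h3

theorem FD_rm_pow {g : k[X]} (hg : g ≠ 0) (α : k) (n : ℕ) :
    (g ^ n).rootMultiplicity α = n * g.rootMultiplicity α := by
  induction n with
  | zero => rw [pow_zero, zero_mul]; exact rootMultiplicity_eq_zero (by simp [IsRoot.def])
  | succ n ih =>
    rw [pow_succ, rootMultiplicity_mul (mul_ne_zero (pow_ne_zero n hg) hg), ih]
    ring

theorem FD_even {P : k[X]} (hP : P ≠ 0) (h : IsSquare (algebraMap k[X] (RatFunc k) P)) (α : k) :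
    Even (P.rootMultiplicity α) := by
  obtain ⟨r, hr⟩ := h
  have hd : r.denom ≠ 0 := r.denom_ne_zero
  have hd' : algebraMap k[X] (RatFunc k) r.denom ≠ 0 := by
    rwa [Ne, ← map_zero (algebraMap k[X] (RatFunc k)), (RatFunc.algebraMap_injective k).eq_iff]
  have h1 : P * (r.denom * r.denom) = r.num * r.num := by
    apply RatFunc.algebraMap_injective k
    rw [map_mul, map_mul, map_mul, hr]
    have h2 := RatFunc.num_div_denom r
    have h3 : algebraMap k[X] (RatFunc k) r.num = r * algebraMap k[X] (RatFunc k) r.denom := by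
      rw [div_eq_iff hd'] at h2
      exact h2
    rw [h3]
    ring
  have hn : r.num ≠ 0 := by
    intro h2
    rw [h2, mul_zero] at h1
    exact mul_ne_zero hP (mul_ne_zero hd hd) h1
  have h4 := congrArg (rootMultiplicity α) h1
  rw [rootMultiplicity_mul (mul_ne_zero hP (mul_ne_zero hd hd)),
    rootMultiplicity_mul (mul_ne_zero hd hd), rootMultiplicity_mul (mul_ne_zero hn hn)] at h4
  have h5 : P.rootMultiplicity α + 2 * r.denom.rootMultiplicity α =
      2 * r.num.rootMultiplicity α := by omega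
  rw [Nat.even_iff]
  omega

/-- all the formulas -/
theorem FD_formulas [IsAlgClosed k] {l : k} (hl : GenL l) :
    ∃ (w : RatFunc k) (s : k), w ≠ 0 ∧ s ≠ 0 ∧ s ^ 2 = (1 - 2 * l) * (1 - l ^ 2) ∧
      (algebraMap k[X] (RatFunc k) (FD_q (1 - l ^ 2) (-(l ^ 2 - l + 1)))) ≠ 0 ∧
      w * algebraMap k[X] (RatFunc k) (FD_q (1 - l ^ 2) (-(l ^ 2 - l + 1))) =
        RatFunc.C s * (1 + RatFunc.X ^ 2) ∧
      tF l = algebraMap k[X] (RatFunc k) (FD_q ((1 - l) * (1 - l ^ 2)) (-(l * (l ^ 2 - l + 1)))) /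
        algebraMap k[X] (RatFunc k) (FD_q (1 - l ^ 2) (-(l ^ 2 - l + 1))) ∧
      tF l - 1 = algebraMap k[X] (RatFunc k) (FD_q (-(l * (1 - l ^ 2)))
        ((1 - l) * (l ^ 2 - l + 1))) /
        algebraMap k[X] (RatFunc k) (FD_q (1 - l ^ 2) (-(l ^ 2 - l + 1))) ∧
      tF l - RatFunc.C l =
        algebraMap k[X] (RatFunc k) (FD_q (1 - l ^ 2) (-(l ^ 2 - l + 1))) * w ^ 2 := by
  obtain ⟨hM, hN, h1l⟩ := FD_gen hl
  obtain ⟨h2, h0, h1, hm1, h12, -⟩ := hl
  have hgi : FD_q (1 - l ^ 2) (-(l ^ 2 - l + 1)) ≠ 0 := by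
    apply FD_q_ne_zero
    have : (1 - l ^ 2 + -(l ^ 2 - l + 1) : k) = l * (1 - 2 * l) := by ring
    rw [this]
    exact mul_ne_zero h0 h12
  have hGI : algebraMap k[X] (RatFunc k) (FD_q (1 - l ^ 2) (-(l ^ 2 - l + 1))) ≠ 0 := by
    rwa [Ne, ← map_zero (algebraMap k[X] (RatFunc k)), (RatFunc.algebraMap_injective k).eq_iff]
  obtain ⟨s, hs⟩ := IsAlgClosed.exists_pow_nat_eq ((1 - 2 * l) * (1 - l ^ 2)) two_pos
  have hs0 : s ≠ 0 := by
    rintro rfl
    rw [zero_pow two_ne_zero] at hs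
    exact mul_ne_zero h12 hM hs.symm
  have hCs : RatFunc.C s ≠ 0 := by rwa [Ne, map_eq_zero]
  have ha := FD_one_add (k := k)
  have hq : ∀ a b : k, algebraMap k[X] (RatFunc k) (FD_q a b) =
      RatFunc.C a * (1 + RatFunc.X ^ 2) ^ 2 + RatFunc.C b * (1 - RatFunc.X ^ 2) ^ 2 := by
    intro a b
    unfold FD_q
    simp only [map_add, map_mul, map_pow, map_sub, map_one, RatFunc.algebraMap_C,
      RatFunc.algebraMap_X]
  have ht : tF l = algebraMap k[X] (RatFunc k)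
      (FD_q ((1 - l) * (1 - l ^ 2)) (-(l * (l ^ 2 - l + 1)))) /
        algebraMap k[X] (RatFunc k) (FD_q (1 - l ^ 2) (-(l ^ 2 - l + 1))) := by
    rw [hq] at hGI ⊢
    rw [hq]
    unfold tF moeb nuF
    rw [map_neg, map_neg] at *
    have hden : RatFunc.C (1 - l ^ 2) - RatFunc.C (l ^ 2 - l + 1) *
        ((1 - RatFunc.X ^ 2) / (1 + RatFunc.X ^ 2)) ^ 2 ≠ 0 := by
      intro h
      apply hGI
      rw [div_pow] at h
      have h3 := congrArg (fun z => z * (1 + RatFunc.X ^ 2) ^ 2) h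
      simp only [zero_mul, sub_mul] at h3
      rw [mul_assoc, div_mul_cancel₀ _ (pow_ne_zero 2 ha)] at h3
      linear_combination h3
    rw [div_eq_div_iff hden hGI, div_pow]
    field_simp
    ring
  refine ⟨RatFunc.C s * (1 + RatFunc.X ^ 2) /
    algebraMap k[X] (RatFunc k) (FD_q (1 - l ^ 2) (-(l ^ 2 - l + 1))), s,
    div_ne_zero (mul_ne_zero hCs ha) hGI, hs0, hs, hGI, div_mul_cancel₀ _ hGI, ht, ?_, ?_⟩
  · rw [ht, div_sub_one hGI]
    congr 1
    rw [hq, hq, hq]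
    simp only [map_sub, map_mul, map_add, map_pow, map_one, map_neg]
    ring
  · rw [ht, div_sub' hGI, div_pow, mul_pow, ← map_pow, hs]
    have h3 : algebraMap k[X] (RatFunc k)
        (FD_q ((1 - l) * (1 - l ^ 2)) (-(l * (l ^ 2 - l + 1)))) -
        algebraMap k[X] (RatFunc k) (FD_q (1 - l ^ 2) (-(l ^ 2 - l + 1))) * RatFunc.C l =
        RatFunc.C ((1 - 2 * l) * (1 - l ^ 2)) * (1 + RatFunc.X ^ 2) ^ 2 := by
      rw [hq, hq]
      simp only [map_sub, map_mul, map_add, map_pow, map_one, map_neg, map_ofNat]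
      ring
    rw [h3]
    field_simp

theorem tF_quartics [IsAlgClosed k] {l : k} (hl : GenL l) :
    ∃ g0 g1 gi : k[X], g0.natDegree = 4 ∧ g1.natDegree = 4 ∧ gi.natDegree = 4 ∧
      IsCoprime g0 g1 ∧ IsCoprime g0 gi ∧ IsCoprime g1 gi ∧
      (∃ w, w ≠ 0 ∧ cF l = algebraMap k[X] (RatFunc k) g0 * w ^ 2) ∧
      (∃ w, w ≠ 0 ∧ (tF l - 1) * (tF l - RatFunc.C l) = algebraMap k[X] (RatFunc k) g1 * w ^ 2) ∧
      (∃ w, w ≠ 0 ∧ tF l - RatFunc.C l = algebraMap k[X] (RatFunc k) gi * w ^ 2) := by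
  obtain ⟨w, s, hw, -, -, hGI, -, ht0, ht1, htl⟩ := FD_formulas hl
  obtain ⟨hM, hN, h1l⟩ := FD_gen hl
  obtain ⟨h2, h0, h1, hm1, h12, -⟩ := hl
  refine ⟨FD_q ((1 - l) * (1 - l ^ 2)) (-(l * (l ^ 2 - l + 1))),
    FD_q (-(l * (1 - l ^ 2))) ((1 - l) * (l ^ 2 - l + 1)),
    FD_q (1 - l ^ 2) (-(l ^ 2 - l + 1)), FD_q_natDegree ?_, FD_q_natDegree ?_,
    FD_q_natDegree ?_, FD_q_coprime h2 ?_,
    FD_q_coprime h2 ?_, FD_q_coprime h2 ?_, ⟨w, hw, ?_⟩, ⟨w, hw, ?_⟩, ⟨w, hw, htl⟩⟩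
  · have : ((1 - l) * (1 - l ^ 2) + -(l * (l ^ 2 - l + 1)) : k) = 1 - 2 * l := by ring
    rw [this]; exact h12
  · have : (-(l * (1 - l ^ 2)) + (1 - l) * (l ^ 2 - l + 1) : k) = (1 - l) * (1 - 2 * l) := by ring
    rw [this]; exact mul_ne_zero h1l h12
  · have : (1 - l ^ 2 + -(l ^ 2 - l + 1) : k) = l * (1 - 2 * l) := by ring
    rw [this]; exact mul_ne_zero h0 h12
  · have : ((1 - l) * (1 - l ^ 2) * ((1 - l) * (l ^ 2 - l + 1)) -
        -(l * (l ^ 2 - l + 1)) * -(l * (1 - l ^ 2)) : k) =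
        (1 - 2 * l) * ((1 - l ^ 2) * (l ^ 2 - l + 1)) := by ring
    rw [this]; exact mul_ne_zero h12 (mul_ne_zero hM hN)
  · have : ((1 - l) * (1 - l ^ 2) * -(l ^ 2 - l + 1) -
        -(l * (l ^ 2 - l + 1)) * (1 - l ^ 2) : k) =
        -((1 - 2 * l) * ((1 - l ^ 2) * (l ^ 2 - l + 1))) := by ring
    rw [this]; exact neg_ne_zero.mpr (mul_ne_zero h12 (mul_ne_zero hM hN))
  · have : (-(l * (1 - l ^ 2)) * -(l ^ 2 - l + 1) -
        (1 - l) * (l ^ 2 - l + 1) * (1 - l ^ 2) : k) =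
        -((1 - 2 * l) * ((1 - l ^ 2) * (l ^ 2 - l + 1))) := by ring
    rw [this]; exact neg_ne_zero.mpr (mul_ne_zero h12 (mul_ne_zero hM hN))
  · unfold cF
    rw [htl, ht0, ← mul_assoc, div_mul_cancel₀ _ hGI]
  · rw [htl, ht1, ← mul_assoc, div_mul_cancel₀ _ hGI]

theorem FD_square_of_mul {F : Type*} [Field F] {z s P : F} (hs : s ≠ 0) (h : z = P * s ^ 2)
    (hz : IsSquare z) : IsSquare P := by
  obtain ⟨r, hr⟩ := hz
  refine ⟨r / s, ?_⟩
  rw [div_mul_div_comm, eq_div_iff (mul_ne_zero hs hs), ← hr, h]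
  ring

theorem tF_classes [IsAlgClosed k] {l : k} (hl : GenL l) :
    tF l ≠ 0 ∧ tF l ≠ 1 ∧ tF l - RatFunc.C l ≠ 0 ∧
    (∀ i j n : ℕ, IsSquare (tF l ^ i * (tF l - 1) ^ j * (tF l - RatFunc.C l) ^ n) →
      Even i ∧ Even j ∧ Even n) ∧
    (IsSquare ((tF l - RatFunc.C l) * (tF l - RatFunc.C (1 - l)))) ∧
    (IsSquare ((tF l - RatFunc.C l) * (tF l - RatFunc.C l⁻¹))) := by
  obtain ⟨w, s, hw, hs0, hs, hGI, hwGI, ht0, ht1, htl⟩ := FD_formulas hl
  obtain ⟨hM, hN, h1l⟩ := FD_gen hl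
  obtain ⟨h2, h0, h1, hm1, h12, -⟩ := hl
  have e0 : ((1 - l) * (1 - l ^ 2) + -(l * (l ^ 2 - l + 1)) : k) = 1 - 2 * l := by ring
  have e1 : (-(l * (1 - l ^ 2)) + (1 - l) * (l ^ 2 - l + 1) : k) = (1 - l) * (1 - 2 * l) := by
    ring
  have ei : (1 - l ^ 2 + -(l ^ 2 - l + 1) : k) = l * (1 - 2 * l) := by ring
  have s0 : ((1 - l) * (1 - l ^ 2) + -(l * (l ^ 2 - l + 1)) : k) ≠ 0 := by rw [e0]; exact h12
  have s1 : (-(l * (1 - l ^ 2)) + (1 - l) * (l ^ 2 - l + 1) : k) ≠ 0 := by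
    rw [e1]; exact mul_ne_zero h1l h12
  have si : (1 - l ^ 2 + -(l ^ 2 - l + 1) : k) ≠ 0 := by rw [ei]; exact mul_ne_zero h0 h12
  have c01 : IsCoprime (FD_q ((1 - l) * (1 - l ^ 2)) (-(l * (l ^ 2 - l + 1))))
      (FD_q (-(l * (1 - l ^ 2))) ((1 - l) * (l ^ 2 - l + 1))) := by
    apply FD_q_coprime h2
    have : ((1 - l) * (1 - l ^ 2) * ((1 - l) * (l ^ 2 - l + 1)) -
        -(l * (l ^ 2 - l + 1)) * -(l * (1 - l ^ 2)) : k) =
        (1 - 2 * l) * ((1 - l ^ 2) * (l ^ 2 - l + 1)) := by ring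
    rw [this]; exact mul_ne_zero h12 (mul_ne_zero hM hN)
  have c0i : IsCoprime (FD_q ((1 - l) * (1 - l ^ 2)) (-(l * (l ^ 2 - l + 1))))
      (FD_q (1 - l ^ 2) (-(l ^ 2 - l + 1))) := by
    apply FD_q_coprime h2
    have : ((1 - l) * (1 - l ^ 2) * -(l ^ 2 - l + 1) -
        -(l * (l ^ 2 - l + 1)) * (1 - l ^ 2) : k) =
        -((1 - 2 * l) * ((1 - l ^ 2) * (l ^ 2 - l + 1))) := by ring
    rw [this]; exact neg_ne_zero.mpr (mul_ne_zero h12 (mul_ne_zero hM hN))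
  have c1i : IsCoprime (FD_q (-(l * (1 - l ^ 2))) ((1 - l) * (l ^ 2 - l + 1)))
      (FD_q (1 - l ^ 2) (-(l ^ 2 - l + 1))) := by
    apply FD_q_coprime h2
    have : (-(l * (1 - l ^ 2)) * -(l ^ 2 - l + 1) -
        (1 - l) * (l ^ 2 - l + 1) * (1 - l ^ 2) : k) =
        -((1 - 2 * l) * ((1 - l ^ 2) * (l ^ 2 - l + 1))) := by ring
    rw [this]; exact neg_ne_zero.mpr (mul_ne_zero h12 (mul_ne_zero hM hN))
  obtain ⟨α0, hα0⟩ := FD_q_root h2 (mul_ne_zero h1l hM)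
    (neg_ne_zero.mpr (mul_ne_zero h0 hN)) s0
  obtain ⟨α1, hα1⟩ := FD_q_root h2 (neg_ne_zero.mpr (mul_ne_zero h0 hM))
    (mul_ne_zero h1l hN) s1
  obtain ⟨αi, hαi⟩ := FD_q_root h2 hM (neg_ne_zero.mpr hN) si
  have n0 := FD_q_ne_zero s0
  have n1 := FD_q_ne_zero s1
  have ni := FD_q_ne_zero si
  have hq : ∀ a b : k, algebraMap k[X] (RatFunc k) (FD_q a b) =
      RatFunc.C a * (1 + RatFunc.X ^ 2) ^ 2 + RatFunc.C b * (1 - RatFunc.X ^ 2) ^ 2 := by
    intro a b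
    unfold FD_q
    simp only [map_add, map_mul, map_pow, map_sub, map_one, RatFunc.algebraMap_C,
      RatFunc.algebraMap_X]
  have inj0 : ∀ g : k[X], g ≠ 0 → algebraMap k[X] (RatFunc k) g ≠ 0 := by
    intro g hg
    rwa [Ne, ← map_zero (algebraMap k[X] (RatFunc k)), (RatFunc.algebraMap_injective k).eq_iff]
  have sq1 : IsSquare ((tF l - RatFunc.C l) * (tF l - RatFunc.C (1 - l))) := by
    obtain ⟨m, hm⟩ := IsAlgClosed.exists_pow_nat_eq ((1 - l ^ 2) * (l ^ 2 - l + 1)) two_pos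
    refine ⟨RatFunc.C ((1 - 2 * l) * m) * (1 + RatFunc.X ^ 2) * (1 - RatFunc.X ^ 2) /
      algebraMap k[X] (RatFunc k) (FD_q (1 - l ^ 2) (-(l ^ 2 - l + 1))), ?_⟩
    rw [ht0, div_sub' hGI, div_sub' hGI, div_mul_div_comm, div_mul_div_comm]
    congr 1
    have h3 : RatFunc.C ((1 - 2 * l) * m) * (1 + RatFunc.X ^ 2) * (1 - RatFunc.X ^ 2) *
        (RatFunc.C ((1 - 2 * l) * m) * (1 + RatFunc.X ^ 2) * (1 - RatFunc.X ^ 2)) =
        RatFunc.C ((1 - 2 * l) ^ 2 * ((1 - l ^ 2) * (l ^ 2 - l + 1))) *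
          (1 + RatFunc.X ^ 2) ^ 2 * (1 - RatFunc.X ^ 2) ^ 2 := by
      rw [← hm, map_mul, map_mul, map_pow, map_pow]
      ring
    rw [h3, hq, hq]
    simp only [map_sub, map_mul, map_add, map_pow, map_one, map_neg, map_ofNat]
    ring
  have sq2 : IsSquare ((tF l - RatFunc.C l) * (tF l - RatFunc.C l⁻¹)) := by
    obtain ⟨m, hm⟩ := IsAlgClosed.exists_pow_nat_eq
      (-((1 - 2 * l) * (l ^ 2 - l + 1) * l⁻¹)) two_pos
    refine ⟨RatFunc.C (2 * m * (1 - l ^ 2)) * (1 + RatFunc.X ^ 2) * RatFunc.X /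
      algebraMap k[X] (RatFunc k) (FD_q (1 - l ^ 2) (-(l ^ 2 - l + 1))), ?_⟩
    rw [ht0, div_sub' hGI, div_sub' hGI, div_mul_div_comm, div_mul_div_comm]
    congr 1
    have h3 : RatFunc.C (2 * m * (1 - l ^ 2)) * (1 + RatFunc.X ^ 2) * RatFunc.X *
        (RatFunc.C (2 * m * (1 - l ^ 2)) * (1 + RatFunc.X ^ 2) * RatFunc.X) =
        RatFunc.C (4 * (-((1 - 2 * l) * (l ^ 2 - l + 1) * l⁻¹)) * (1 - l ^ 2) ^ 2) *
          (1 + RatFunc.X ^ 2) ^ 2 * RatFunc.X ^ 2 := by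
      rw [← hm]
      simp only [map_mul, map_pow, map_ofNat]
      ring
    rw [h3, hq, hq]
    have hCl : RatFunc.C l ≠ 0 := by rwa [Ne, map_eq_zero]
    simp only [map_sub, map_mul, map_add, map_pow, map_one, map_neg, map_ofNat, map_inv₀]
    generalize RatFunc.C l = L at hCl ⊢
    have h4 : L * L⁻¹ = 1 := mul_inv_cancel₀ hCl
    generalize L⁻¹ = L' at h4 ⊢
    generalize (RatFunc.X : RatFunc k) = x
    linear_combination (-((1 - 2 * L) * (1 - L ^ 2) * (1 + x ^ 2) ^ 2 *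
      ((1 - L ^ 2) * (1 - L) * (1 + x ^ 2) ^ 2 - L * (L ^ 2 - L + 1) * (1 - x ^ 2) ^ 2))) * h4
  refine ⟨?_, ?_, ?_, ?_, sq1, sq2⟩
  · rw [ht0]
    exact div_ne_zero (inj0 _ n0) hGI
  · intro h
    rw [h, sub_self] at ht1
    exact div_ne_zero (inj0 _ n1) hGI ht1.symm
  · rw [htl]
    exact mul_ne_zero hGI (pow_ne_zero 2 hw)
  · intro i j n hsq
    have h3 : IsSquare (algebraMap k[X] (RatFunc k)
        (FD_q ((1 - l) * (1 - l ^ 2)) (-(l * (l ^ 2 - l + 1))) ^ i *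
        FD_q (-(l * (1 - l ^ 2))) ((1 - l) * (l ^ 2 - l + 1)) ^ j *
        FD_q (1 - l ^ 2) (-(l ^ 2 - l + 1)) ^ (i + j + n))) := by
      refine FD_square_of_mul (s := w ^ n /
        algebraMap k[X] (RatFunc k) (FD_q (1 - l ^ 2) (-(l ^ 2 - l + 1))) ^ (i + j)) ?_ ?_ hsq
      · exact div_ne_zero (pow_ne_zero n hw) (pow_ne_zero _ hGI)
      · rw [ht1, htl, ht0]
        simp only [map_mul, map_pow]
        generalize algebraMap k[X] (RatFunc k) (FD_q (1 - l ^ 2) (-(l ^ 2 - l + 1))) = G at hGI ⊢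
        generalize algebraMap k[X] (RatFunc k)
          (FD_q ((1 - l) * (1 - l ^ 2)) (-(l * (l ^ 2 - l + 1)))) = G0
        generalize algebraMap k[X] (RatFunc k)
          (FD_q (-(l * (1 - l ^ 2))) ((1 - l) * (l ^ 2 - l + 1))) = G1
        have hGi : G ^ i ≠ 0 := pow_ne_zero _ hGI
        have hGj : G ^ j ≠ 0 := pow_ne_zero _ hGI
        rw [div_pow, div_pow, div_pow, mul_pow, pow_add, pow_add, ← pow_mul w 2 n,
          ← pow_mul w n 2, mul_comm 2 n]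
        generalize G ^ i = g1 at hGi ⊢
        generalize G ^ j = g2 at hGj ⊢
        field_simp
    have hP : FD_q ((1 - l) * (1 - l ^ 2)) (-(l * (l ^ 2 - l + 1))) ^ i *
        FD_q (-(l * (1 - l ^ 2))) ((1 - l) * (l ^ 2 - l + 1)) ^ j *
        FD_q (1 - l ^ 2) (-(l ^ 2 - l + 1)) ^ (i + j + n) ≠ 0 :=
      mul_ne_zero (mul_ne_zero (pow_ne_zero _ n0) (pow_ne_zero _ n1)) (pow_ne_zero _ ni)
    have hrm : ∀ α, Even (i * (FD_q ((1 - l) * (1 - l ^ 2))
        (-(l * (l ^ 2 - l + 1)))).rootMultiplicity α +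
        j * (FD_q (-(l * (1 - l ^ 2))) ((1 - l) * (l ^ 2 - l + 1))).rootMultiplicity α +
        (i + j + n) * (FD_q (1 - l ^ 2) (-(l ^ 2 - l + 1))).rootMultiplicity α) := by
      intro α
      have h4 := FD_even hP h3 α
      rw [rootMultiplicity_mul hP, rootMultiplicity_mul (left_ne_zero_of_mul hP),
        FD_rm_pow n0, FD_rm_pow n1, FD_rm_pow ni] at h4
      exact h4
    have r0 := hrm α0
    rw [hα0, FD_cop_root c01 (by rw [hα0]; norm_num) n0,
      FD_cop_root c0i (by rw [hα0]; norm_num) n0] at r0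
    have r1 := hrm α1
    rw [hα1, FD_cop_root c01.symm (by rw [hα1]; norm_num) n1,
      FD_cop_root c1i (by rw [hα1]; norm_num) n1] at r1
    have ri := hrm αi
    rw [hαi, FD_cop_root c0i.symm (by rw [hαi]; norm_num) ni,
      FD_cop_root c1i.symm (by rw [hαi]; norm_num) ni] at ri
    rw [Nat.even_iff] at r0 r1 ri ⊢
    rw [Nat.even_iff, Nat.even_iff]
    omega

end Pool.Agent.H918R3
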