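import Pool.Agent.H918R3.Defs

set_option autoImplicit false

/-!
# The function field of the hypersurface `u₁² = d`
-/

namespace Pool.Agent.H918R3

open Polynomial

section Square

variable {k : Type} [Field k]

private theorem isSquare_of_frac (d : MvPolynomial (Fin 6) k)
    (h : IsSquare (algebraMap (MvPolynomial (Fin 6) k)
      (FractionRing (MvPolynomial (Fin 6) k)) d)) : IsSquare d := by
  obtain ⟨z, hz⟩ := h
  have hz2 : z ^ 2 = algebraMap (MvPolynomial (Fin 6) k)
      (FractionRing (MvPolynomial (Fin 6) k)) d := by rw [hz]; ring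
  have hint : IsIntegral (MvPolynomial (Fin 6) k) (z ^ 2) := by
    rw [hz2]; exact isIntegral_algebraMap
  obtain ⟨w, hw⟩ := IsIntegrallyClosed.exists_algebraMap_eq_of_isIntegral_pow
    (R := MvPolynomial (Fin 6) k) (by norm_num : 0 < 2) hint
  refine ⟨w, ?_⟩
  apply IsFractionRing.injective (MvPolynomial (Fin 6) k)
    (FractionRing (MvPolynomial (Fin 6) k))
  rw [map_mul, hw, hz]

end Square

/-- NSQ: `d` is not a square -/
theorem dPol_not_square {k : Type} [Field k] (h2 : (2 : k) ≠ 0) (Δ c : MvPolynomial (Fin 6) k)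
    (hΔ : ∀ i ∈ Δ.vars, i = 4 ∨ i = 5) (hc : ∀ i ∈ c.vars, i = 5) (hc0 : c ≠ 0) :
    ¬ IsSquare (algebraMap (MvPolynomial (Fin 6) k)
      (FractionRing (MvPolynomial (Fin 6) k)) (dPol Δ c)) := by
  intro hsq
  obtain ⟨w, hw⟩ := isSquare_of_frac _ hsq
  set E : k[X] := MvPolynomial.aeval (fun i : Fin 6 => if i = 4 then (X : k[X]) else 0) Δ with hE
  set F : k[X] := (0 - E) * ((0 - 1) ^ 2 - E) with hF
  set N : ℕ := F.natDegree with hN
  set g : Fin 6 → k[X] := ![0, 0, X ^ N, 0, X, 0] with hg
  have hΔE : MvPolynomial.aeval g Δ = E := by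
    rw [hE]
    apply MvPolynomial.eval₂Hom_congr' rfl _ rfl
    intro i hi _
    rcases hΔ i hi with rfl | rfl
    · simp [hg]
    · simp [hg]
  have h1 : MvPolynomial.aeval g (dPol Δ c) = X ^ (2 * N + 1) + F := by
    unfold dPol
    simp only [map_add, map_sub, map_mul, map_pow, MvPolynomial.aeval_X, map_one, hΔE]
    simp only [hg, hF]
    simp
    ring
  have h3 : (X ^ (2 * N + 1) + F : k[X]).natDegree = 2 * N + 1 := by
    rw [Polynomial.natDegree_add_eq_left_of_natDegree_lt]
    · simp
    · rw [natDegree_X_pow]; omega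
  have h4 : (MvPolynomial.aeval g (dPol Δ c)).natDegree = 2 * (MvPolynomial.aeval g w).natDegree := by
    rw [hw, map_mul, ← pow_two, natDegree_pow]
  rw [h1, h3] at h4
  omega

section Frac

variable {k : Type} [Field k]

private theorem fse_rename (f : MvPolynomial (Fin 6) k) :
    MvPolynomial.finSuccEquiv k 6 (MvPolynomial.rename Fin.succ f) = C f := by
  have h : ((MvPolynomial.finSuccEquiv k 6).toAlgHom.comp (MvPolynomial.rename Fin.succ) :
      MvPolynomial (Fin 6) k →ₐ[k] (MvPolynomial (Fin 6) k)[X]) =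
      (Polynomial.CAlgHom : MvPolynomial (Fin 6) k →ₐ[MvPolynomial (Fin 6) k]
        (MvPolynomial (Fin 6) k)[X]).restrictScalars k := by
    apply MvPolynomial.algHom_ext
    intro i
    simp [MvPolynomial.finSuccEquiv_X_succ]
  have := congrArg (fun φ => φ f) h
  simpa using this

private theorem fse_hPol (d : MvPolynomial (Fin 6) k) :
    MvPolynomial.finSuccEquiv k 6 (hPol d) = X ^ 2 - C d := by
  unfold hPol
  rw [map_sub, map_pow, MvPolynomial.finSuccEquiv_X_zero, fse_rename]

private theorem irr_hPol (d : MvPolynomial (Fin 6) k)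
    (hd : ¬ IsSquare (algebraMap (MvPolynomial (Fin 6) k)
      (FractionRing (MvPolynomial (Fin 6) k)) d)) : Irreducible (hPol d) := by
  have h1 : Irreducible (X ^ 2 - C d : (MvPolynomial (Fin 6) k)[X]) := by
    have hm : (X ^ 2 - C d : (MvPolynomial (Fin 6) k)[X]).Monic :=
      monic_X_pow_sub_C d (by norm_num)
    rw [hm.irreducible_iff_irreducible_map_fraction_map
      (K := FractionRing (MvPolynomial (Fin 6) k))]
    rw [Polynomial.map_sub, Polynomial.map_pow, map_X, map_C]
    apply X_pow_sub_C_irreducible_of_prime Nat.prime_two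
    intro b hb
    exact hd ⟨b, by rw [← hb]; ring⟩
  rw [← fse_hPol] at h1
  exact (MulEquiv.irreducible_iff (MvPolynomial.finSuccEquiv k 6)).1 h1

private theorem dvd_zero (d f : MvPolynomial (Fin 6) k)
    (h : hPol d ∣ MvPolynomial.rename Fin.succ f) : f = 0 := by
  have h1 : (X ^ 2 - C d : (MvPolynomial (Fin 6) k)[X]) ∣ C f := by
    obtain ⟨q, hq⟩ := h
    refine ⟨MvPolynomial.finSuccEquiv k 6 q, ?_⟩
    rw [← fse_hPol, ← fse_rename, ← map_mul, hq]
  by_contra hf
  have h2 := Polynomial.natDegree_le_of_dvd h1 (by simpa using hf)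
  rw [natDegree_X_pow_sub_C, natDegree_C] at h2
  omega

end Frac

/-- HYP: the function field of `u₁² = d` -/
theorem hyp_field {k : Type} [Field k] (h2 : (2 : k) ≠ 0) (d : MvPolynomial (Fin 6) k)
    (hd : ¬ IsSquare (algebraMap (MvPolynomial (Fin 6) k)
      (FractionRing (MvPolynomial (Fin 6) k)) d)) :
    Irreducible (hPol d) ∧ IsDomain (HR d) ∧
    ∃ (j : FractionRing (MvPolynomial (Fin 6) k) →ₐ[k] FractionRing (HR d))
      (y : FractionRing (HR d)),
      y = algebraMap (HR d) _ (Ideal.Quotient.mk _ (MvPolynomial.X 0)) ∧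
      (∀ f : MvPolynomial (Fin 6) k, j (algebraMap _ _ f) =
        algebraMap (HR d) _ (Ideal.Quotient.mk _ (MvPolynomial.rename Fin.succ f))) ∧
      y ^ 2 = j (algebraMap _ _ d) ∧
      (∀ a b, j a + j b * y = 0 → a = 0 ∧ b = 0) ∧ (∀ z, ∃ a b, z = j a + j b * y) := by
  have hirr := irr_hPol d hd
  have hprime : Prime (hPol d) := hirr.prime
  have hdom : IsDomain (HR d) := by
    have : (Ideal.span {hPol d}).IsPrime :=
      (Ideal.span_singleton_prime hprime.ne_zero).2 hprime
    exact Ideal.Quotient.isDomain _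
  refine ⟨hirr, hdom, ?_⟩
  -- the inclusion of the polynomial ring
  let ι : MvPolynomial (Fin 6) k →ₐ[k] HR d :=
    (Ideal.Quotient.mkₐ k (Ideal.span {hPol d})).comp (MvPolynomial.rename Fin.succ)
  have hι : ∀ f, ι f = Ideal.Quotient.mk _ (MvPolynomial.rename Fin.succ f) := fun f => rfl
  have hι0 : ∀ f, ι f = 0 → f = 0 := by
    intro f hf
    rw [hι, Ideal.Quotient.eq_zero_iff_mem, Ideal.mem_span_singleton] at hf
    exact dvd_zero d f hf
  let ι' : MvPolynomial (Fin 6) k →ₐ[k] FractionRing (HR d) :=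
    (IsScalarTower.toAlgHom k (HR d) (FractionRing (HR d))).comp ι
  have hι' : ∀ f, ι' f = algebraMap (HR d) _ (Ideal.Quotient.mk _
      (MvPolynomial.rename Fin.succ f)) := fun f => rfl
  have hunit : ∀ f : nonZeroDivisors (MvPolynomial (Fin 6) k), IsUnit (ι' f) := by
    intro f
    have hf0 : (f : MvPolynomial (Fin 6) k) ≠ 0 := nonZeroDivisors.ne_zero f.2
    have hm : ι (f : MvPolynomial (Fin 6) k) ∈ nonZeroDivisors (HR d) :=
      mem_nonZeroDivisors_of_ne_zero (fun h => hf0 (hι0 _ h))
    exact IsLocalization.map_units (FractionRing (HR d))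
      (⟨ι (f : MvPolynomial (Fin 6) k), hm⟩ : nonZeroDivisors (HR d))
  let j : FractionRing (MvPolynomial (Fin 6) k) →ₐ[k] FractionRing (HR d) :=
    IsLocalization.liftAlgHom (M := nonZeroDivisors (MvPolynomial (Fin 6) k)) (f := ι') hunit
  have hj : ∀ f : MvPolynomial (Fin 6) k, j (algebraMap _ _ f) = ι' f := by
    intro f
    exact IsLocalization.lift_eq _ f
  set y : FractionRing (HR d) := algebraMap (HR d) _ (Ideal.Quotient.mk _ (MvPolynomial.X 0))
    with hy
  have hy2 : y ^ 2 = j (algebraMap _ _ d) := by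
    rw [hj, hι', hy, ← map_pow, ← map_pow]
    congr 1
    rw [Ideal.Quotient.eq, Ideal.mem_span_singleton]
    exact dvd_refl _
  have hnt : Nontrivial (FractionRing (HR d)) := inferInstance
  have hj0 : ∀ a, j a = 0 → a = 0 := by
    intro a ha
    exact (map_eq_zero_iff (j : FractionRing (MvPolynomial (Fin 6) k) →+* FractionRing (HR d))
      (RingHom.injective _)).1 ha
  have hnorm : ∀ a b : FractionRing (MvPolynomial (Fin 6) k),
      a ^ 2 - b ^ 2 * algebraMap _ _ d = 0 → a = 0 ∧ b = 0 := by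
    intro a b hab
    by_cases hb : b = 0
    · subst hb
      refine ⟨?_, rfl⟩
      simpa using hab
    · exfalso
      apply hd
      refine ⟨a / b, ?_⟩
      field_simp
      linear_combination - hab
  have hind : ∀ a b, j a + j b * y = 0 → a = 0 ∧ b = 0 := by
    intro a b hab
    apply hnorm
    apply hj0
    rw [map_sub, map_mul, map_pow, map_pow, ← hy2]
    linear_combination (j a - j b * y) * hab
  refine ⟨j, y, rfl, fun f => by rw [hj, hι'], hy2, hind, ?_⟩
  -- closure properties
  have hmem : ∀ p : MvPolynomial (Fin 7) k, ∃ a b,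
      algebraMap (HR d) (FractionRing (HR d)) (Ideal.Quotient.mk _ p) = j a + j b * y := by
    intro p
    induction p using MvPolynomial.induction_on with
    | C a =>
      refine ⟨algebraMap (MvPolynomial (Fin 6) k) _ (MvPolynomial.C a), 0, ?_⟩
      rw [hj, hι', MvPolynomial.rename_C, map_zero, zero_mul, add_zero]
    | add p q hp hq =>
      obtain ⟨a, b, h1⟩ := hp
      obtain ⟨a', b', h2⟩ := hq
      refine ⟨a + a', b + b', ?_⟩
      rw [map_add, map_add, h1, h2, map_add, map_add]
      ring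
    | mul_X p i hp =>
      obtain ⟨a, b, h1⟩ := hp
      rw [map_mul, map_mul, h1]
      refine Fin.cases ?_ (fun i => ?_) i
      · refine ⟨b * algebraMap _ _ d, a, ?_⟩
        rw [← hy, map_mul, ← hy2]
        ring
      · refine ⟨a * algebraMap (MvPolynomial (Fin 6) k) _ (MvPolynomial.X i),
          b * algebraMap (MvPolynomial (Fin 6) k) _ (MvPolynomial.X i), ?_⟩
        rw [map_mul, map_mul, hj, hι', MvPolynomial.rename_X]
        ring
  intro z
  obtain ⟨⟨r, s⟩, hrs⟩ := IsLocalization.surj (nonZeroDivisors (HR d)) z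
  obtain ⟨r', rfl⟩ := Ideal.Quotient.mk_surjective r
  obtain ⟨s', hs'⟩ := Ideal.Quotient.mk_surjective (s : HR d)
  obtain ⟨a, b, hab⟩ := hmem r'
  obtain ⟨e, f, hef⟩ := hmem s'
  have hs0 : algebraMap (HR d) (FractionRing (HR d)) (Ideal.Quotient.mk _ s') ≠ 0 := by
    rw [hs']
    exact IsUnit.ne_zero (IsLocalization.map_units (FractionRing (HR d)) s)
  set n : FractionRing (MvPolynomial (Fin 6) k) := e ^ 2 - f ^ 2 * algebraMap _ _ d with hn
  have hn0 : n ≠ 0 := by
    intro h0
    obtain ⟨rfl, rfl⟩ := hnorm e f h0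
    apply hs0
    rw [hef]
    simp
  have hjn : j n = (j e + j f * y) * (j e - j f * y) := by
    rw [hn, map_sub, map_mul, map_pow, map_pow, ← hy2]; ring
  have hrs' : z * (j e + j f * y) = j a + j b * y := by
    rw [← hef, ← hab, hs']
    exact hrs
  have hinv : j n⁻¹ * j n = 1 := by
    rw [← map_mul, inv_mul_cancel₀ hn0, map_one]
  refine ⟨n⁻¹ * (a * e - b * f * algebraMap _ _ d), n⁻¹ * (b * e - a * f), ?_⟩
  rw [map_mul, map_mul, map_sub, map_sub, map_mul, map_mul, map_mul, map_mul, map_mul, ← hy2]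
  have : z = j n⁻¹ * (z * (j e + j f * y)) * (j e - j f * y) := by
    calc z = (j n⁻¹ * j n) * z := by rw [hinv, one_mul]
      _ = _ := by rw [hjn]; ring
  rw [this, hrs']
  ring

end Pool.Agent.H918R3
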