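import Mathlib
import Pool.Agent.H918R3.Defs

set_option autoImplicit false

/-! Task ISO (helper649): isometries over `K(√δ)`. -/

namespace Pool.Agent.H918R3

open Matrix

variable {K : Type*} [Field K]

theorem ISO_block (δ a c c1 e0 e1 f0 f1 : K)
    (he : e0 ^ 2 - a * e1 ^ 2 + δ * (f0 ^ 2 - a * f1 ^ 2) = c) (hf : e0 * f0 - a * (e1 * f1) = 0) :
    IsoL δ (G4 a c1) (G4 a (c1 * c)) := by
  refine ⟨!![1, 0, 0, 0; 0, 1, 0, 0; 0, 0, e0, a * e1; 0, 0, e1, e0],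
    !![0, 0, 0, 0; 0, 0, 0, 0; 0, 0, f0, a * f1; 0, 0, f1, f0], ?_, ?_⟩
  · subst he
    ext i j
    fin_cases i <;> fin_cases j <;>
      simp [G4, Matrix.mul_apply, Fin.sum_univ_four] <;> ring
  · ext i j
    fin_cases i <;> fin_cases j <;>
      simp [G4, Matrix.mul_apply, Fin.sum_univ_four]
    · linear_combination (-2 * c1) * hf
    · ring
    · ring
    · linear_combination (2 * a * c1) * hf

theorem ISO_comp (δ : K) {n : ℕ} {G H P Q : Matrix (Fin n) (Fin n) K}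
    (h1 : Pᵀ * G * P + δ • (Qᵀ * G * Q) = H) (h2 : Pᵀ * G * Q + Qᵀ * G * P = 0)
    (P' Q' : Matrix (Fin n) (Fin n) K) :
    (P * P' + δ • (Q * Q'))ᵀ * G * (P * P' + δ • (Q * Q')) +
        δ • ((P * Q' + Q * P')ᵀ * G * (P * Q' + Q * P')) = P'ᵀ * H * P' + δ • (Q'ᵀ * H * Q') ∧
    (P * P' + δ • (Q * Q'))ᵀ * G * (P * Q' + Q * P') +
        (P * Q' + Q * P')ᵀ * G * (P * P' + δ • (Q * Q')) = P'ᵀ * H * Q' + Q'ᵀ * H * P' := by
  have h2' : ∀ X Y : Matrix (Fin n) (Fin n) K,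
      X * (Pᵀ * (G * (Q * Y))) + X * (Qᵀ * (G * (P * Y))) = 0 := by
    intro X Y
    have : X * (Pᵀ * G * Q + Qᵀ * G * P) * Y = 0 := by rw [h2]; simp
    rw [← this]
    simp only [Matrix.mul_add, Matrix.add_mul, Matrix.mul_assoc]
  subst h1
  constructor
  · have e1 := h2' P'ᵀ Q'
    have e2 := h2' Q'ᵀ P'
    simp only [Matrix.transpose_add, Matrix.transpose_smul, Matrix.transpose_mul, Matrix.mul_add,
      Matrix.add_mul, Matrix.mul_smul, Matrix.smul_mul, Matrix.mul_assoc, smul_add, smul_smul]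
    have e1' : δ • (P'ᵀ * (Pᵀ * (G * (Q * Q')))) + δ • (P'ᵀ * (Qᵀ * (G * (P * Q')))) = 0 := by
      rw [← smul_add, e1, smul_zero]
    have e2' : δ • (Q'ᵀ * (Pᵀ * (G * (Q * P')))) + δ • (Q'ᵀ * (Qᵀ * (G * (P * P')))) = 0 := by
      rw [← smul_add, e2, smul_zero]
    rw [← sub_eq_zero]
    rw [← sub_eq_zero] at e1' e2'
    calc _ = (δ • (P'ᵀ * (Pᵀ * (G * (Q * Q')))) + δ • (P'ᵀ * (Qᵀ * (G * (P * Q')))) - 0) +
        (δ • (Q'ᵀ * (Pᵀ * (G * (Q * P')))) + δ • (Q'ᵀ * (Qᵀ * (G * (P * P')))) - 0) := by abel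
      _ = 0 := by rw [e1', e2', add_zero]
  · have e1 := h2' P'ᵀ P'
    have e2 := h2' Q'ᵀ Q'
    simp only [Matrix.transpose_add, Matrix.transpose_smul, Matrix.transpose_mul, Matrix.mul_add,
      Matrix.add_mul, Matrix.mul_smul, Matrix.smul_mul, Matrix.mul_assoc, smul_add]
    have e2' : δ • (Q'ᵀ * (Pᵀ * (G * (Q * Q')))) + δ • (Q'ᵀ * (Qᵀ * (G * (P * Q')))) = 0 := by
      rw [← smul_add, e2, smul_zero]
    rw [← sub_eq_zero]
    calc _ = (P'ᵀ * (Pᵀ * (G * (Q * P'))) + P'ᵀ * (Qᵀ * (G * (P * P')))) +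
        (δ • (Q'ᵀ * (Pᵀ * (G * (Q * Q')))) + δ • (Q'ᵀ * (Qᵀ * (G * (P * Q'))))) := by abel
      _ = 0 := by rw [e1, e2', add_zero]

theorem ISO_trans (δ : K) {n : ℕ} {G H J : Matrix (Fin n) (Fin n) K} (h1 : IsoL δ G H)
    (h2 : IsoL δ H J) : IsoL δ G J := by
  obtain ⟨P, Q, hP, hQ⟩ := h1
  obtain ⟨P', Q', hP', hQ'⟩ := h2
  obtain ⟨e1, e2⟩ := ISO_comp δ hP hQ P' Q'
  exact ⟨_, _, e1.trans hP', e2.trans hQ'⟩

theorem ISO_symm (δ : K) {n : ℕ} {G H : Matrix (Fin n) (Fin n) K} (hH : H.det ≠ 0)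
    (h : IsoL δ G H) : IsoL δ H G := by
  obtain ⟨P, Q, hP, hQ⟩ := h
  have hu : IsUnit H.det := Ne.isUnit hH
  set P' := H⁻¹ * Pᵀ * G with hP'
  set Q' := H⁻¹ * Qᵀ * G with hQ'
  have a1 : P' * P + δ • (Q' * Q) = 1 := by
    calc P' * P + δ • (Q' * Q) = H⁻¹ * (Pᵀ * G * P + δ • (Qᵀ * G * Q)) := by
          simp only [hP', hQ', Matrix.mul_add, Matrix.mul_smul, Matrix.mul_assoc]
      _ = 1 := by rw [hP, Matrix.nonsing_inv_mul H hu]
  have a2 : P' * Q + Q' * P = 0 := by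
    calc P' * Q + Q' * P = H⁻¹ * (Pᵀ * G * Q + Qᵀ * G * P) := by
          simp only [hP', hQ', Matrix.mul_add, Matrix.mul_assoc]
      _ = 0 := by rw [hQ, Matrix.mul_zero]
  have hb : fromBlocks P' (δ • Q') Q' P' * fromBlocks P (δ • Q) Q P = 1 := by
    rw [fromBlocks_multiply, ← fromBlocks_one]
    congr 1
    · rw [← a1, Matrix.smul_mul]
    · rw [Matrix.mul_smul, Matrix.smul_mul, ← smul_add, a2, smul_zero]
    · rw [add_comm]; exact a2
    · rw [← a1, Matrix.mul_smul, add_comm]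
  have hb' := _root_.mul_eq_one_comm.mp hb
  rw [fromBlocks_multiply, ← fromBlocks_one, fromBlocks_inj] at hb'
  obtain ⟨b1, -, b3, -⟩ := hb'
  have c1 : P * P' + δ • (Q * Q') = 1 := by rw [← b1, Matrix.smul_mul]
  have c2 : P * Q' + Q * P' = 0 := by rw [← b3, add_comm]
  obtain ⟨e1, e2⟩ := ISO_comp δ hP hQ P' Q'
  rw [c1, c2] at e1 e2
  refine ⟨P', Q', ?_, ?_⟩
  · rw [← e1]; simp
  · rw [← e2]; simp

/-- ISO -/
theorem isoL_api {K : Type*} [Field K] (h2 : (2 : K) ≠ 0) {δ : K} (hδ : δ ≠ 0) :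
    (∀ a c c1 : K, a ≠ 0 → c ≠ 0 → c1 ≠ 0 → Pur δ a c → IsoL δ (G4 a c1) (G4 a (c1 * c))) ∧
    (∀ a c : K, IsoL δ (G4 a c) (G4 c a)) ∧
    (∀ a c v w : K, v ≠ 0 → w ≠ 0 → IsoL δ (G4 a c) (G4 (a * v ^ 2) (c * w ^ 2))) ∧
    (∀ a c w : K, a ≠ 0 → c ≠ 0 → w ≠ 0 → IsoL δ (G4 a c) (G4 a (c * (δ * w ^ 2)))) ∧
    (∀ (n : ℕ) (G H J : Matrix (Fin n) (Fin n) K), IsoL δ G H → IsoL δ H J → IsoL δ G J) ∧
    (∀ (n : ℕ) (G H : Matrix (Fin n) (Fin n) K), G.det ≠ 0 → H.det ≠ 0 → ¬ IsSquare δ →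
      IsoL δ G H → IsoL δ H G) := by
  refine ⟨?_, ?_, ?_, ?_, ?_, ?_⟩
  · rintro a c c1 ha hc hc1 ⟨p, q, r, hpqr⟩
    by_cases hn : q ^ 2 - a * r ^ 2 = 0
    · by_cases hr : r = 0
      · -- `a = δ / p²`
        have hq : q = 0 := by
          rw [hr] at hn
          have : q ^ 2 = 0 := by linear_combination hn
          exact pow_eq_zero_iff (two_ne_zero) |>.mp this
        have hap : a * p ^ 2 = δ := by rw [← hpqr, hq, hr]; ring
        apply ISO_block δ a c c1 ((c + 1) / 2) 0 0 ((c - 1) * p / (2 * δ))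
        · have hp : p ≠ 0 := by rintro rfl; exact hδ (by rw [← hap]; ring)
          rw [← hap]
          field_simp
          ring
        · ring
      · have ha2 : a = (q / r) ^ 2 := by
          field_simp
          linear_combination -hn
        have hq : q ≠ 0 := by
          rintro rfl
          apply ha
          rw [ha2]
          simp
        apply ISO_block δ a c c1 ((c + 1) / 2) ((c - 1) * r / (2 * q)) 0 0
        · rw [ha2]
          field_simp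
          ring
        · ring
    · apply ISO_block δ a c c1 (-(a * p * r) / (q ^ 2 - a * r ^ 2)) (p * q / (q ^ 2 - a * r ^ 2))
        (q / (q ^ 2 - a * r ^ 2)) (-r / (q ^ 2 - a * r ^ 2))
      · field_simp
        linear_combination (-(q ^ 2 - a * r ^ 2)) * hpqr
      · field_simp
        ring
  · intro a c
    refine ⟨!![1, 0, 0, 0; 0, 0, 1, 0; 0, 1, 0, 0; 0, 0, 0, 1], 0, ?_, ?_⟩
    · ext i j
      fin_cases i <;> fin_cases j <;>
        simp [G4, Matrix.mul_apply, Fin.sum_univ_four]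
      ring
    · simp
  · intro a c v w _ _
    refine ⟨Matrix.diagonal ![1, v, w, v * w], 0, ?_, ?_⟩
    · rw [G4, G4, Matrix.diagonal_transpose, Matrix.diagonal_mul_diagonal,
        Matrix.diagonal_mul_diagonal, Matrix.transpose_zero]
      simp only [Matrix.zero_mul, smul_zero, add_zero]
      congr 1
      ext i
      fin_cases i <;> simp <;> ring
    · simp
  · intro a c w _ _ _
    refine ⟨Matrix.diagonal ![1, 1, 0, 0], Matrix.diagonal ![0, 0, w, w], ?_, ?_⟩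
    · rw [G4, G4, Matrix.diagonal_transpose, Matrix.diagonal_transpose,
        Matrix.diagonal_mul_diagonal, Matrix.diagonal_mul_diagonal,
        Matrix.diagonal_mul_diagonal, Matrix.diagonal_mul_diagonal, ← Matrix.diagonal_smul,
        Matrix.diagonal_add]
      congr 1
      ext i
      fin_cases i <;> simp <;> ring
    · rw [G4, Matrix.diagonal_transpose, Matrix.diagonal_transpose,
        Matrix.diagonal_mul_diagonal, Matrix.diagonal_mul_diagonal,
        Matrix.diagonal_mul_diagonal, Matrix.diagonal_mul_diagonal, Matrix.diagonal_add]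
      rw [Matrix.diagonal_eq_zero]
      ext i
      fin_cases i <;> simp
  · intro n G H J h1 h2
    exact ISO_trans δ h1 h2
  · intro n G H _ hH _ h
    exact ISO_symm δ hH h

end Pool.Agent.H918R3
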