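import Pool.Agent.H918R3.Defs

set_option autoImplicit false

/-! Task URc: combination of the five isometries at a valuation ring. -/

namespace Pool.Agent.H918R3

open Matrix Polynomial

namespace URc

theorem isoL_trans {K : Type*} [Field K] {δ : K} {n : ℕ} {G H J : Matrix (Fin n) (Fin n) K}
    (h1 : IsoL δ G H) (h2 : IsoL δ H J) : IsoL δ G J := by
  obtain ⟨P1, Q1, hH, hB⟩ := h1
  obtain ⟨P2, Q2, hJ, hC⟩ := h2
  have e1 : P2ᵀ * (P1ᵀ * G * Q1 + Q1ᵀ * G * P1) * Q2 = 0 := by rw [hB]; simp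
  have e2 : Q2ᵀ * (P1ᵀ * G * Q1 + Q1ᵀ * G * P1) * P2 = 0 := by rw [hB]; simp
  have e3 : P2ᵀ * (P1ᵀ * G * Q1 + Q1ᵀ * G * P1) * P2 = 0 := by rw [hB]; simp
  have e4 : Q2ᵀ * (P1ᵀ * G * Q1 + Q1ᵀ * G * P1) * Q2 = 0 := by rw [hB]; simp
  refine ⟨P1 * P2 + δ • (Q1 * Q2), P1 * Q2 + Q1 * P2, ?_, ?_⟩
  · rw [← hJ, ← hH]
    simp only [transpose_add, transpose_mul, transpose_smul, Matrix.add_mul, Matrix.mul_add,
      Matrix.smul_mul, Matrix.mul_smul, ← Matrix.mul_assoc] at e1 e2 ⊢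
    linear_combination (norm := module) δ • e1 + δ • e2
  · rw [← hH] at hC
    simp only [transpose_add, transpose_mul, transpose_smul, Matrix.add_mul, Matrix.mul_add,
      Matrix.smul_mul, Matrix.mul_smul, ← Matrix.mul_assoc] at e3 e4 hC ⊢
    linear_combination (norm := module) hC + e3 + δ • e4

theorem isoL_scale {K : Type*} [Field K] {δ : K} (a c v w : K) :
    IsoL δ (G4 a c) (G4 (a * v ^ 2) (c * w ^ 2)) := by
  refine ⟨Matrix.diagonal ![1, v, w, v * w], 0, ?_, by simp⟩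
  simp only [G4, diagonal_transpose, diagonal_mul_diagonal, transpose_zero, Matrix.zero_mul, smul_zero, add_zero]
  congr 1
  funext i
  fin_cases i <;> simp <;> ring

variable {k F : Type*} [Field k] [Field F] [Algebra k F]

theorem aeval_mem {O : ValuationSubring F} (hO : ∀ a : k, algebraMap k F a ∈ O) {τ : F}
    (hτ : τ ∈ O) (g : k[X]) : aeval τ g ∈ O := by
  rw [aeval_eq_sum_range]
  refine sum_mem fun i _ => ?_
  rw [Algebra.smul_def]
  exact mul_mem (hO _) (pow_mem hτ i)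

theorem one_of_coprime {O : ValuationSubring F} (hO : ∀ a : k, algebraMap k F a ∈ O) {τ : F}
    (hτ : τ ∈ O) {g h : k[X]} (hc : IsCoprime g h) :
    O.valuation (aeval τ g) = 1 ∨ O.valuation (aeval τ h) = 1 := by
  obtain ⟨a, b, hab⟩ := hc
  have hg := (O.valuation_le_one_iff _).2 (aeval_mem hO hτ g)
  have hh := (O.valuation_le_one_iff _).2 (aeval_mem hO hτ h)
  have ha := (O.valuation_le_one_iff _).2 (aeval_mem hO hτ a)
  have hb := (O.valuation_le_one_iff _).2 (aeval_mem hO hτ b)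
  by_contra hcon
  push Not at hcon
  have hg' := lt_of_le_of_ne hg hcon.1
  have hh' := lt_of_le_of_ne hh hcon.2
  have e : aeval τ a * aeval τ g + aeval τ b * aeval τ h = 1 := by
    rw [← map_mul, ← map_mul, ← map_add, hab, map_one]
  have : O.valuation (aeval τ a * aeval τ g + aeval τ b * aeval τ h) < 1 := by
    apply Valuation.map_add_lt
    · rw [map_mul]; exact mul_lt_one_of_nonneg_of_lt_one_right ha (zero_le) hg'
    · rw [map_mul]; exact mul_lt_one_of_nonneg_of_lt_one_right hb (zero_le) hh'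
  rw [e, map_one] at this
  exact lt_irrefl _ this

/-- even valuation -/
def Ev (O : ValuationSubring F) (z : F) : Prop := ∃ w : F, w ≠ 0 ∧ O.valuation (z * w ^ 2) = 1

theorem ev_of_one {O : ValuationSubring F} {z : F} (h : O.valuation z = 1) : Ev O z :=
  ⟨1, one_ne_zero, by simpa using h⟩

theorem val_const {O : ValuationSubring F} (hO : ∀ a : k, algebraMap k F a ∈ O) {a : k} (ha : a ≠ 0) :
    O.valuation (algebraMap k F a) = 1 := by
  apply le_antisymm ((O.valuation_le_one_iff _).2 (hO a))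
  have h := (O.valuation_le_one_iff _).2 (hO a⁻¹)
  rw [map_inv₀, map_inv₀] at h
  have h0 : O.valuation (algebraMap k F a) ≠ 0 := by
    rw [Valuation.ne_zero_iff]
    exact (_root_.map_ne_zero _).2 ha
  exact (inv_le_one₀ (zero_lt_iff.2 h0)).1 h

theorem ev_of_not_mem {O : ValuationSubring F} (hO : ∀ a : k, algebraMap k F a ∈ O) {τ : F}
    (hτ : τ ∉ O) {g : k[X]} (hg : g.natDegree = 4) : Ev O (aeval τ g) := by
  have hv : 1 < O.valuation τ := by
    rw [← not_le]; intro h; exact hτ ((O.valuation_le_one_iff _).1 h)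
  have hτ0 : τ ≠ 0 := by
    rintro rfl; simp at hv
  have hvi : O.valuation τ⁻¹ < 1 := by
    rw [map_inv₀]
    exact inv_lt_one_of_one_lt₀ hv
  refine ⟨τ⁻¹ ^ 2, pow_ne_zero _ (inv_ne_zero hτ0), ?_⟩
  have e : aeval τ g * (τ⁻¹ ^ 2) ^ 2 = algebraMap k F (g.coeff 4) +
      (algebraMap k F (g.coeff 0) * τ⁻¹ ^ 3 + algebraMap k F (g.coeff 1) * τ⁻¹ ^ 2 +
        algebraMap k F (g.coeff 2) * τ⁻¹ + algebraMap k F (g.coeff 3)) * τ⁻¹ := by
    rw [aeval_eq_sum_range, hg]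
    simp only [Finset.sum_range_succ, Finset.sum_range_zero, Algebra.smul_def]
    field_simp
    ring
  have hm : τ⁻¹ ∈ O := (O.valuation_le_one_iff _).1 hvi.le
  have hs : O.valuation ((algebraMap k F (g.coeff 0) * τ⁻¹ ^ 3 + algebraMap k F (g.coeff 1) * τ⁻¹ ^ 2 +
        algebraMap k F (g.coeff 2) * τ⁻¹ + algebraMap k F (g.coeff 3)) * τ⁻¹) < 1 := by
    rw [map_mul]
    apply mul_lt_one_of_nonneg_of_lt_one_right _ (zero_le) hvi
    rw [O.valuation_le_one_iff]
    exact add_mem (add_mem (add_mem (mul_mem (hO _) (pow_mem hm _)) (mul_mem (hO _) (pow_mem hm _)))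
      (mul_mem (hO _) hm)) (hO _)
  have hl : g.coeff 4 ≠ 0 := by
    rw [← hg, coeff_natDegree]
    intro h
    rw [leadingCoeff_eq_zero] at h
    rw [h] at hg
    simp at hg
  have hc := val_const (F := F) hO hl
  rw [e, Valuation.map_add_eq_of_lt_left]
  · exact hc
  · rw [hc]; exact hs

end URc

open URc in
/-- URc -/
theorem ur_comb {k F : Type*} [Field k] [IsAlgClosed k] [Field F] [Algebra k F]
    (h2 : (2 : k) ≠ 0) (O : ValuationSubring F) (hO : DvrOver k O) (τ x δ : F) (g0 g1 gi : k[X])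
    (hg0 : g0.natDegree = 4) (hg1 : g1.natDegree = 4) (hgi : gi.natDegree = 4)
    (h01 : IsCoprime g0 g1) (h0i : IsCoprime g0 gi) (h1i : IsCoprime g1 gi)
    (hn0 : aeval τ g0 ≠ 0) (hn1 : aeval τ g1 ≠ 0) (hni : aeval τ gi ≠ 0) (hx0 : x ≠ 0)
    (hx1 : x ≠ 1)
    (E1 : IsoL δ (G4 x (aeval τ g0)) (G4 x (aeval τ gi)))
    (E2 : IsoL δ (G4 x (aeval τ g0)) (G4 (x - 1) (aeval τ gi)))
    (E3 : IsoL δ (G4 x (aeval τ g0)) (G4 (x - 1) (aeval τ g1)))
    (E4 : IsoL δ (G4 x (aeval τ g0)) (G4 (x * (x - 1)) (aeval τ g0)))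
    (E5 : IsoL δ (G4 x (aeval τ g0)) (G4 (x * (x - 1)) (aeval τ g1))) :
    ∃ a b : F, O.valuation a = 1 ∧ O.valuation b = 1 ∧ IsoL δ (G4 x (aeval τ g0)) (G4 a b) := by
  have fin : ∀ a c : F, Ev O a → Ev O c → IsoL δ (G4 x (aeval τ g0)) (G4 a c) →
      ∃ a b : F, O.valuation a = 1 ∧ O.valuation b = 1 ∧ IsoL δ (G4 x (aeval τ g0)) (G4 a b) := by
    rintro a c ⟨v, hv, hv'⟩ ⟨w, hw, hw'⟩ h
    exact ⟨a * v ^ 2, c * w ^ 2, hv', hw', isoL_trans h (isoL_scale a c v w)⟩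
  have refl : IsoL δ (G4 x (aeval τ g0)) (G4 x (aeval τ g0)) := ⟨1, 0, by simp, by simp⟩
  have key : (Ev O (aeval τ g0) ∨ Ev O (aeval τ g1)) ∧ (Ev O (aeval τ g0) ∨ Ev O (aeval τ gi)) ∧
      (Ev O (aeval τ g1) ∨ Ev O (aeval τ gi)) := by
    by_cases hτ : τ ∈ O
    · exact ⟨(one_of_coprime hO.2 hτ h01).imp ev_of_one ev_of_one,
        (one_of_coprime hO.2 hτ h0i).imp ev_of_one ev_of_one,
        (one_of_coprime hO.2 hτ h1i).imp ev_of_one ev_of_one⟩
    · exact ⟨Or.inl (ev_of_not_mem hO.2 hτ hg0), Or.inl (ev_of_not_mem hO.2 hτ hg0),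
        Or.inl (ev_of_not_mem hO.2 hτ hg1)⟩
  obtain ⟨k1, k2, k3⟩ := key
  rcases lt_trichotomy (O.valuation x) 1 with hx | hx | hx
  · have hx' : Ev O (x - 1) := by
      apply ev_of_one
      rw [Valuation.map_sub_swap]
      rw [show (1 : F) - x = 1 + -x by ring, Valuation.map_add_eq_of_lt_left]
      · simp
      · simpa using hx
    rcases k3 with h | h
    · exact fin _ _ hx' h E3
    · exact fin _ _ hx' h E2
  · rcases k2 with h | h
    · exact fin _ _ (ev_of_one hx) h refl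
    · exact fin _ _ (ev_of_one hx) h E1
  · have hx' : Ev O (x * (x - 1)) := by
      refine ⟨x⁻¹, inv_ne_zero hx0, ?_⟩
      have e : x * (x - 1) * x⁻¹ ^ 2 = 1 + -x⁻¹ := by field_simp; ring
      rw [e, Valuation.map_add_eq_of_lt_left]
      · simp
      · rw [Valuation.map_neg, map_inv₀, map_one]
        exact inv_lt_one_of_one_lt₀ hx
    rcases k1 with h | h
    · exact fin _ _ hx' h E4
    · exact fin _ _ hx' h E5

end Pool.Agent.H918R3
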