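import Pool.Agent.H918R3.TISO
import Pool.Agent.H918R3.TURc

set_option autoImplicit false

/-! Task URi2: five isometries. -/

namespace Pool.Agent.H918R3

open Matrix Polynomial

namespace URi2

variable {K : Type*} [Field K]

theorem pur_symm {δ a c : K} (h : Pur δ a c) : Pur δ c a := by
  obtain ⟨p, q, r, h⟩ := h
  exact ⟨q, p, r, by rw [← h]; ring⟩

/-- an isotropic form `<a, c, -ac>` is universal -/
theorem pur_star (h2 : (2 : K) ≠ 0) {a c : K} (ha : a ≠ 0) (hc : c ≠ 0) {p0 q0 r0 : K}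
    (h0 : p0 ≠ 0 ∨ q0 ≠ 0 ∨ r0 ≠ 0) (h : a * p0 ^ 2 + c * q0 ^ 2 = r0 ^ 2) (δ : K) : Pur δ a c := by
  rcases h0 with h0 | h0 | h0
  · refine ⟨(δ - c) / (2 * c * (a * p0)) * (c * q0), 1 + (δ - c) / (2 * c * (a * p0)) * (a * p0),
      (δ - c) / (2 * c * (a * p0)) * r0, ?_⟩
    set s := (δ - c) / (2 * c * (a * p0)) with hs
    have e : s * (2 * c * (a * p0)) = δ - c := by
      rw [hs]; field_simp
    linear_combination (s ^ 2 * a * c) * h + e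
  · refine ⟨1 + (δ - a) / (2 * a * (c * q0)) * (c * q0), (δ - a) / (2 * a * (c * q0)) * (a * p0),
      (δ - a) / (2 * a * (c * q0)) * r0, ?_⟩
    set s := (δ - a) / (2 * a * (c * q0)) with hs
    have e : s * (2 * a * (c * q0)) = δ - a := by
      rw [hs]; field_simp
    linear_combination (s ^ 2 * a * c) * h + e
  · refine ⟨(δ + a * c) / (-(2 * a * c * r0)) * (c * q0), (δ + a * c) / (-(2 * a * c * r0)) * (a * p0),
      1 + (δ + a * c) / (-(2 * a * c * r0)) * r0, ?_⟩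
    set s := (δ + a * c) / (-(2 * a * c * r0)) with hs
    have e : s * (-(2 * a * c * r0)) = δ + a * c := by
      rw [hs]; field_simp
    linear_combination (s ^ 2 * a * c) * h + e

end URi2

open URi2 URc in
/-- URi2 -/
theorem five_isometries {F : Type*} [Field F] (h2 : (2 : F) ≠ 0) (hi : IsSquare (-1 : F))
    {x t l Δ : F} (hx0 : x ≠ 0) (hx1 : x ≠ 1) (hxl : x ≠ l) (ht0 : t ≠ 0) (ht1 : t ≠ 1)
    (htl : t ≠ l) (h0 : l ≠ 0) (h1 : l ≠ 1) (hl : IsSquare l) (hl1 : IsSquare (1 - l))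
    (hΔ : Δ = t * (t - 1) * (t - l) * x * (x - 1) * (x - l))
    (S1 : Pur Δ x t) (S2 : Pur Δ x ((t - 1) * (t - l))) (S3 : Pur Δ (x - 1) (t * (t - l)))
    (S4 : Pur Δ (x - 1) (t - 1)) (S5 : Pur Δ (x - l) (t - l)) :
    IsoL Δ (G4 x (t * (t - l))) (G4 x (t - l)) ∧
    IsoL Δ (G4 x (t * (t - l))) (G4 (x - 1) (t - l)) ∧
    IsoL Δ (G4 x (t * (t - l))) (G4 (x - 1) ((t - 1) * (t - l))) ∧
    IsoL Δ (G4 x (t * (t - l))) (G4 (x * (x - 1)) (t * (t - l))) ∧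
    IsoL Δ (G4 x (t * (t - l))) (G4 (x * (x - 1)) ((t - 1) * (t - l))) := by
  have a1 : t - 1 ≠ 0 := sub_ne_zero.2 ht1
  have al : t - l ≠ 0 := sub_ne_zero.2 htl
  have b1 : x - 1 ≠ 0 := sub_ne_zero.2 hx1
  have bl : x - l ≠ 0 := sub_ne_zero.2 hxl
  have hΔ0 : Δ ≠ 0 := by
    rw [hΔ]
    exact mul_ne_zero (mul_ne_zero (mul_ne_zero (mul_ne_zero (mul_ne_zero ht0 a1) al) hx0) b1) bl
  obtain ⟨iM, iS, -, iD, -, -⟩ := isoL_api h2 hΔ0
  obtain ⟨i, hi⟩ := hi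
  obtain ⟨r, hr⟩ := hl
  obtain ⟨r1, hr1⟩ := hl1
  have T : ∀ {n : ℕ} {G H J : Matrix (Fin n) (Fin n) F}, IsoL Δ G H → IsoL Δ H J → IsoL Δ G J :=
    fun h h' => isoL_trans h h'
  -- multiply the second slot
  have M : ∀ a c c1 : F, a ≠ 0 → c ≠ 0 → c1 ≠ 0 → Pur Δ a c → ∀ d, d = c1 * c →
      IsoL Δ (G4 a c1) (G4 a d) := fun a c c1 ha hc hc1 h d hd => hd ▸ iM a c c1 ha hc hc1 h
  -- rescale the second slot
  have R : ∀ a c w d : F, d = c * w ^ 2 → IsoL Δ (G4 a c) (G4 a d) := by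
    intro a c w d hd
    have := isoL_scale (δ := Δ) a c 1 w
    rw [hd]
    simpa using this
  have p1 : Pur Δ (t - l) t := pur_star h2 al ht0 (p0 := i) (q0 := 1) (r0 := r)
    (Or.inr (Or.inl one_ne_zero)) (by linear_combination (-(t - l)) * hi + hr) Δ
  have p2 : Pur Δ (t - l) (t - 1) := pur_star h2 al a1 (p0 := i) (q0 := 1) (r0 := i * r1)
    (Or.inr (Or.inl one_ne_zero)) (by linear_combination (-(t - l)) * hi + (1 - l) * hi + i ^ 2 * hr1) Δ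
  have p3 : Pur Δ (t - l) (t - l) := pur_star h2 al al (p0 := i) (q0 := 1) (r0 := 0)
    (Or.inr (Or.inl one_ne_zero)) (by linear_combination (-(t - l)) * hi) Δ
  have E1 : IsoL Δ (G4 x (t * (t - l))) (G4 x (t - l)) :=
    T (M x t (t * (t - l)) hx0 ht0 (mul_ne_zero ht0 al) S1 _ rfl)
      (R x _ t⁻¹ _ (by field_simp))
  have E2 : IsoL Δ (G4 x (t * (t - l))) (G4 (x - 1) (t - l)) := by
    refine T E1 (T (iS x (t - l)) ?_)
    refine T (M (t - l) (x - l) x al bl hx0 (pur_symm S5) _ rfl) ?_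
    refine T (M (t - l) t _ al ht0 (mul_ne_zero hx0 bl) p1 _ rfl) ?_
    refine T (M (t - l) (t - 1) _ al a1 (mul_ne_zero (mul_ne_zero hx0 bl) ht0) p2 _ rfl) ?_
    refine T (M (t - l) (t - l) _ al al (mul_ne_zero (mul_ne_zero (mul_ne_zero hx0 bl) ht0) a1) p3 _ rfl) ?_
    refine T (iD (t - l) _ 1 al (mul_ne_zero (mul_ne_zero (mul_ne_zero (mul_ne_zero hx0 bl) ht0) a1) al)
      one_ne_zero) ?_
    refine T (R (t - l) _ (x * (x - l) * t * (t - 1) * (t - l))⁻¹ (x - 1) ?_) (iS _ _)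
    rw [hΔ]
    field_simp
  have E3 : IsoL Δ (G4 x (t * (t - l))) (G4 (x - 1) ((t - 1) * (t - l))) :=
    T E2 (M (x - 1) (t - 1) (t - l) b1 a1 al S4 _ (by ring))
  have E4 : IsoL Δ (G4 x (t * (t - l))) (G4 (x * (x - 1)) (t * (t - l))) :=
    T (iS _ _) (T (M (t * (t - l)) (x - 1) x (mul_ne_zero ht0 al) b1 hx0 (pur_symm S3) _ rfl) (iS _ _))
  have E5 : IsoL Δ (G4 x (t * (t - l))) (G4 (x * (x - 1)) ((t - 1) * (t - l))) :=
    T E3 (T (iS _ _) (T (M ((t - 1) * (t - l)) x (x - 1) (mul_ne_zero a1 al) hx0 b1 (pur_symm S2) _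
      (mul_comm _ _)) (iS _ _)))
  exact ⟨E1, E2, E3, E4, E5⟩

end Pool.Agent.H918R3
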