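import Pool.Agent.H918R3.TURi1
import Pool.Agent.H918R3.TFD
import Pool.Agent.H918R3.TURi2

set_option autoImplicit false

/-! Task UR: assembly. -/

namespace Pool.Agent.H918R3

open Matrix Polynomial

open URi2 URc in
/-- UR -/
theorem ur_all {k F : Type*} [Field k] [IsAlgClosed k] [Field F] [Algebra k F] {l : k}
    (hl : GenL l) (φ : RatFunc k →ₐ[k] F) (x Δ : F) (hx0 : x ≠ 0) (hx1 : x ≠ 1)
    (hxl : x ≠ algebraMap k F l)
    (hΔ : Δ = φ (DF l) * x * (x - 1) * (x - algebraMap k F l))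
    (O : ValuationSubring F) (hO : DvrOver k O) :
    ∃ a b : F, O.valuation a = 1 ∧ O.valuation b = 1 ∧ IsoL Δ (G4 x (φ (cF l))) (G4 a b) := by
  have hC : φ (RatFunc.C l) = algebraMap k F l := by
    rw [← RatFunc.algebraMap_eq_C]; exact φ.commutes l
  obtain ⟨S1, S2, S3, S4, S5⟩ := five_splittings hl (φ : RatFunc k →+* F) x Δ
    (by rw [hΔ]; simp only [AlgHom.coe_toRingHom, hC])
  obtain ⟨ht0, ht1, htl, -, -, -⟩ := tF_classes hl
  obtain ⟨g0, g1, gi, d0, d1, di, c01, c0i, c1i, ⟨w0, hw0, e0⟩, ⟨w1, hw1, e1⟩, ⟨wi, hwi, ei⟩⟩ :=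
    tF_quartics hl
  obtain ⟨h2, hl0, hl1, -, -, -⟩ := hl
  have hinj : Function.Injective φ := (φ : RatFunc k →+* F).injective
  have hinj' : Function.Injective (algebraMap k F) := (algebraMap k F).injective
  have hae : ∀ g : k[X], φ (algebraMap k[X] (RatFunc k) g) = aeval (φ RatFunc.X) g := by
    intro g
    have : (φ.comp (IsScalarTower.toAlgHom k k[X] (RatFunc k))) = aeval (φ RatFunc.X) := by
      apply Polynomial.algHom_ext
      simp
    exact DFunLike.congr_fun this g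
  have e0' : φ (cF l) = aeval (φ RatFunc.X) g0 * (φ w0) ^ 2 := by
    rw [e0, map_mul, map_pow, hae]
  have e1' : (φ (tF l) - 1) * (φ (tF l) - algebraMap k F l) = aeval (φ RatFunc.X) g1 * (φ w1) ^ 2 := by
    rw [← hae, ← map_pow, ← map_mul, ← e1, map_mul, map_sub, map_sub, map_one, hC]
  have ei' : φ (tF l) - algebraMap k F l = aeval (φ RatFunc.X) gi * (φ wi) ^ 2 := by
    rw [← hae, ← map_pow, ← map_mul, ← ei, map_sub, hC]
  have hcF : φ (cF l) = φ (tF l) * (φ (tF l) - algebraMap k F l) := by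
    rw [cF, map_mul, map_sub, hC]
  have hDF : φ (DF l) = φ (tF l) * (φ (tF l) - 1) * (φ (tF l) - algebraMap k F l) := by
    rw [DF, map_mul, map_mul, map_sub, map_sub, map_one, hC]
  have w0n : φ w0 ≠ 0 := (map_ne_zero_iff φ hinj).2 hw0
  have w1n : φ w1 ≠ 0 := (map_ne_zero_iff φ hinj).2 hw1
  have win : φ wi ≠ 0 := (map_ne_zero_iff φ hinj).2 hwi
  have t0 : φ (tF l) ≠ 0 := (map_ne_zero_iff φ hinj).2 ht0
  have t1 : φ (tF l) ≠ 1 := fun h => ht1 (hinj (by rw [h, map_one]))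
  have tl : φ (tF l) ≠ algebraMap k F l := fun h => htl (by
    apply sub_eq_zero.2
    apply hinj
    rw [h, hC])
  have h2F : (2 : F) ≠ 0 := by
    have := (map_ne_zero_iff (algebraMap k F) hinj').2 h2
    rwa [map_ofNat] at this
  have hL0 : algebraMap k F l ≠ 0 := (map_ne_zero_iff (algebraMap k F) hinj').2 hl0
  have hL1 : algebraMap k F l ≠ 1 := fun h => hl1 (hinj' (by rw [h, map_one]))
  have sq : ∀ a : k, IsSquare (algebraMap k F a) := fun a => (IsAlgClosed.exists_pow_nat_eq a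
    (n := 2) (by norm_num)).elim fun z hz => ⟨algebraMap k F z, by rw [← map_mul, ← sq, hz]⟩
  have sqm : IsSquare (-1 : F) := by have := sq (-1); rwa [map_neg, map_one] at this
  have sq1 : IsSquare (1 - algebraMap k F l) := by have := sq (1 - l); rwa [map_sub, map_one] at this
  simp only [AlgHom.coe_toRingHom, map_mul, map_sub, map_one, hC] at S1 S2 S3 S4 S5
  obtain ⟨E1, E2, E3, E4, E5⟩ := five_isometries h2F sqm hx0 hx1 hxl t0 t1 tl hL0 hL1 (sq l) sq1
    (by rw [hΔ, hDF]) S1 S2 S3 S4 S5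
  rw [← hcF] at E1 E2 E3 E4 E5
  have R : ∀ a c w : F, IsoL Δ (G4 a c) (G4 a (c * w ^ 2)) := by
    intro a c w
    have := isoL_scale (δ := Δ) a c 1 w
    simpa using this
  have R' : ∀ a c w : F, w ≠ 0 → IsoL Δ (G4 a (c * w ^ 2)) (G4 a c) := by
    intro a c w hw
    have := R a (c * w ^ 2) w⁻¹
    rwa [show c * w ^ 2 * w⁻¹ ^ 2 = c by field_simp] at this
  have A0 : IsoL Δ (G4 x (aeval (φ RatFunc.X) g0)) (G4 x (φ (cF l))) := by
    rw [e0']; exact R _ _ _
  have B0 : ∀ a : F, IsoL Δ (G4 a (φ (cF l))) (G4 a (aeval (φ RatFunc.X) g0)) := by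
    intro a; rw [e0']; exact R' _ _ _ w0n
  rw [ei'] at E1 E2
  rw [e1'] at E3 E5
  have hn0 : aeval (φ RatFunc.X) g0 ≠ 0 := by
    intro h; rw [h, zero_mul] at e0'
    rw [hcF] at e0'
    exact (mul_ne_zero t0 (sub_ne_zero.2 tl)) e0'
  have hni : aeval (φ RatFunc.X) gi ≠ 0 := by
    intro h; rw [h, zero_mul] at ei'
    exact (sub_ne_zero.2 tl) ei'
  have hn1 : aeval (φ RatFunc.X) g1 ≠ 0 := by
    intro h; rw [h, zero_mul] at e1'
    exact (mul_ne_zero (sub_ne_zero.2 t1) (sub_ne_zero.2 tl)) e1'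
  obtain ⟨a, b, ha, hb, hab⟩ := ur_comb h2 O hO (φ RatFunc.X) x Δ g0 g1 gi d0 d1 di c01 c0i c1i hn0 hn1
    hni hx0 hx1
    (isoL_trans A0 (isoL_trans E1 (R' _ _ _ win)))
    (isoL_trans A0 (isoL_trans E2 (R' _ _ _ win)))
    (isoL_trans A0 (isoL_trans E3 (R' _ _ _ w1n)))
    (isoL_trans A0 (isoL_trans E4 (B0 _)))
    (isoL_trans A0 (isoL_trans E5 (R' _ _ _ w1n)))
  exact ⟨a, b, ha, hb, isoL_trans (B0 x) hab⟩

end Pool.Agent.H918R3
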