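import Pool.Agent.H918R3.TFR
import Pool.Agent.H918R3.TISO
import Pool.Agent.H918R3.TC4
import Pool.Agent.H918R3.THYP
import Pool.Agent.H918R3.TUR
import Pool.Agent.H918R3.TA8
import Pool.Agent.H918R3.TA3
import Pool.Agent.H918R3.TA9e
import Pool.Agent.H918R3.TFD

set_option autoImplicit false

namespace Pool.Agent.H918R3

open MvPolynomial Matrix

/-! ### general lemmas -/

theorem iso_rescale {K : Type*} [Field K] (h2 : (2 : K) ≠ 0) {δ δ' x c c' a b w v : K}
    (hδ : δ ≠ 0) (hw : w ≠ 0) (hv : v ≠ 0) (hδ' : δ' = δ * w ^ 2) (hc' : c' = c * v ^ 2)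
    (h : IsoL δ (G4 x c) (G4 a b)) : IsoL δ' (G4 x c') (G4 a b) := by
  have h1 : IsoL δ (G4 x c') (G4 (x * 1 ^ 2) (c' * (v⁻¹) ^ 2)) :=
    (isoL_api h2 hδ).2.2.1 x c' 1 v⁻¹ one_ne_zero (inv_ne_zero hv)
  have e1 : x * 1 ^ 2 = x := by ring
  have e2 : c' * (v⁻¹) ^ 2 = c := by rw [hc']; field_simp
  rw [e1, e2] at h1
  obtain ⟨P, Q, hP, hQ⟩ := (isoL_api h2 hδ).2.2.2.2.1 4 _ _ _ h1 h
  refine ⟨P, w⁻¹ • Q, ?_, ?_⟩
  · rw [← hP, hδ', Matrix.transpose_smul, Matrix.smul_mul, Matrix.smul_mul, Matrix.mul_smul,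
      smul_smul, smul_smul]
    congr 2
    field_simp
  · have : w⁻¹ • (Pᵀ * G4 x c' * Q + Qᵀ * G4 x c' * P) = 0 := by rw [hQ, smul_zero]
    rw [smul_add] at this
    rw [Matrix.transpose_smul, Matrix.smul_mul, Matrix.smul_mul, Matrix.mul_smul]
    exact this

theorem dot_diag {M : Type*} [CommSemiring M] {n : ℕ} (a b c : Fin n → M) :
    a ⬝ᵥ (Matrix.diagonal b *ᵥ c) = ∑ i, a i * (b i * c i) := by
  simp [dotProduct, Matrix.mulVec_diagonal]

/-- isotropy over a quadratic extension -/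
theorem isot_pair {K L : Type*} [Field K] [Field L] (h2 : (2 : K) ≠ 0) (j : K →+* L) (y : L) (d : K)
    (hy : y ^ 2 = j d) (huniq : ∀ a b, j a + j b * y = 0 → a = 0 ∧ b = 0)
    (hspan : ∀ z, ∃ a b, z = j a + j b * y) {n : ℕ} (g : Fin n → K)
    (h : Isot (Matrix.diagonal (fun i => j (g i)))) :
    ∃ u v : Fin n → K, (u ≠ 0 ∨ v ≠ 0) ∧
      u ⬝ᵥ (Matrix.diagonal g *ᵥ u) + d * (v ⬝ᵥ (Matrix.diagonal g *ᵥ v)) = 0 ∧
      u ⬝ᵥ (Matrix.diagonal g *ᵥ v) = 0 := by
  obtain ⟨w, hw, hw0⟩ := h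
  choose u v huv using fun i => hspan (w i)
  have key : j (u ⬝ᵥ (Matrix.diagonal g *ᵥ u) + d * (v ⬝ᵥ (Matrix.diagonal g *ᵥ v))) +
      j (2 * (u ⬝ᵥ (Matrix.diagonal g *ᵥ v))) * y = 0 := by
    rw [← hw0]
    rw [dot_diag, dot_diag, dot_diag, dot_diag]
    simp only [map_add, map_mul, map_sum, Finset.mul_sum, Finset.sum_mul]
    rw [← Finset.sum_add_distrib, ← Finset.sum_add_distrib]
    refine Finset.sum_congr rfl (fun i _ => ?_)
    rw [huv i, ← hy]
    simp only [map_ofNat]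
    ring
  obtain ⟨k1, k2⟩ := huniq _ _ key
  refine ⟨u, v, ?_, k1, (mul_eq_zero.mp k2).resolve_left h2⟩
  by_contra hcon
  push Not at hcon
  apply hw
  funext i
  rw [huv i, hcon.1, hcon.2]
  simp

theorem G8_map {K L : Type*} [Field K] [Field L] (j : K →+* L) (a c h : K) :
    G8 (j a) (j c) (j h) = Matrix.diagonal (fun i =>
      j ((![1, -a, -c, a * c, -h, h * a, h * c, -(h * a * c)] : Fin 8 → K) i)) := by
  unfold G8
  congr 1
  funext i
  fin_cases i <;> simp

theorem isotL_map {K L : Type*} [Field K] [Field L] (j : K →+* L) {δ a c : K}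
    (h : IsotL δ a c) : IsotL (j δ) (j a) (j c) := by
  obtain ⟨u, v, h1, h2, h3⟩ := h
  refine ⟨fun i => j (u i), fun i => j (v i), ?_, ?_, ?_⟩
  · rcases h1 with h1 | h1
    · left
      intro h
      apply h1
      funext i
      have := congrFun h i
      simpa using this
    · right
      intro h
      apply h1
      funext i
      have := congrFun h i
      simpa using this
  · have := congrArg j h2
    simpa [q4] using this
  · have := congrArg j h3
    simpa [b4] using this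

theorem deg3 {K : Type*} [Field K] {D l : K} (hD : D ≠ 0) :
    (RatFunc.C D * RatFunc.X * (RatFunc.X - 1) * (RatFunc.X - RatFunc.C l) : RatFunc K) ≠ 0 ∧
    (RatFunc.C D * RatFunc.X * (RatFunc.X - 1) * (RatFunc.X - RatFunc.C l) :
      RatFunc K).intDegree = 3 := by
  have e1 : (RatFunc.X - 1 : RatFunc K) =
      algebraMap (Polynomial K) (RatFunc K) (Polynomial.X - Polynomial.C 1) := by
    simp [RatFunc.algebraMap_X]
  have e2 : (RatFunc.X - RatFunc.C l : RatFunc K) =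
      algebraMap (Polynomial K) (RatFunc K) (Polynomial.X - Polynomial.C l) := by
    simp [RatFunc.algebraMap_X, RatFunc.algebraMap_C]
  have n1 : (RatFunc.X - 1 : RatFunc K) ≠ 0 := by
    rw [e1, Ne, FaithfulSMul.algebraMap_eq_zero_iff]
    exact Polynomial.X_sub_C_ne_zero 1
  have n2 : (RatFunc.X - RatFunc.C l : RatFunc K) ≠ 0 := by
    rw [e2, Ne, FaithfulSMul.algebraMap_eq_zero_iff]
    exact Polynomial.X_sub_C_ne_zero l
  have n0 : (RatFunc.C D : RatFunc K) ≠ 0 := (_root_.map_ne_zero _).mpr hD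
  have nX : (RatFunc.X : RatFunc K) ≠ 0 := RatFunc.X_ne_zero
  refine ⟨mul_ne_zero (mul_ne_zero (mul_ne_zero n0 nX) n1) n2, ?_⟩
  rw [RatFunc.intDegree_mul (mul_ne_zero (mul_ne_zero n0 nX) n1) n2,
    RatFunc.intDegree_mul (mul_ne_zero n0 nX) n1, RatFunc.intDegree_mul n0 nX, RatFunc.intDegree_C,
    RatFunc.intDegree_X, e1, e2, RatFunc.intDegree_polynomial, RatFunc.intDegree_polynomial,
    Polynomial.natDegree_X_sub_C, Polynomial.natDegree_X_sub_C]
  norm_num

theorem deg3_nonsq {K : Type*} [Field K] {D l : K} (hD : D ≠ 0) :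
    ¬ IsSquare (RatFunc.C D * RatFunc.X * (RatFunc.X - 1) * (RatFunc.X - RatFunc.C l) :
      RatFunc K) := by
  rintro ⟨z, hz⟩
  obtain ⟨h0, h3⟩ := deg3 (l := l) hD
  have hz0 : z ≠ 0 := by
    rintro rfl
    apply h0
    rw [hz]; ring
  rw [hz, RatFunc.intDegree_mul hz0 hz0] at h3
  omega

theorem deg3_four {K : Type*} [Field K] (h2 : (2 : K) ≠ 0) {D l : K} (hD : D ≠ 0) :
    4 * (RatFunc.C D * RatFunc.X * (RatFunc.X - 1) * (RatFunc.X - RatFunc.C l) : RatFunc K)
      ≠ 1 := by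
  have h4 : (4 : K) * D ≠ 0 := by
    have : (4 : K) = 2 * 2 := by norm_num
    rw [this]
    exact mul_ne_zero (mul_ne_zero h2 h2) hD
  have e : 4 * (RatFunc.C D * RatFunc.X * (RatFunc.X - 1) * (RatFunc.X - RatFunc.C l) : RatFunc K)
      = RatFunc.C (4 * D) * RatFunc.X * (RatFunc.X - 1) * (RatFunc.X - RatFunc.C l) := by
    rw [map_mul, map_ofNat]
    ring
  rw [e]
  intro h
  have := (deg3 (l := l) h4).2
  rw [h, RatFunc.intDegree_one] at this
  omega

theorem sq_ne_C {K : Type*} [Field K] (ε δ : K) :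
    ((RatFunc.X - RatFunc.C ε) ^ 2 - RatFunc.C δ : RatFunc K) ≠ 0 := by
  have e2 : (RatFunc.X - RatFunc.C ε : RatFunc K) =
      algebraMap (Polynomial K) (RatFunc K) (Polynomial.X - Polynomial.C ε) := by
    simp [RatFunc.algebraMap_X, RatFunc.algebraMap_C]
  have n2 : (RatFunc.X - RatFunc.C ε : RatFunc K) ≠ 0 := by
    rw [e2, Ne, FaithfulSMul.algebraMap_eq_zero_iff]
    exact Polynomial.X_sub_C_ne_zero ε
  intro h
  have h1 : (RatFunc.X - RatFunc.C ε) * (RatFunc.X - RatFunc.C ε) = RatFunc.C δ := by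
    linear_combination h
  have h3 := congrArg RatFunc.intDegree h1
  rw [RatFunc.intDegree_mul n2 n2, RatFunc.intDegree_C, e2, RatFunc.intDegree_polynomial,
    Polynomial.natDegree_X_sub_C] at h3
  omega

/-- `O'.comap e` and `O'` are isomorphic -/
theorem dvrOver_comap {k K L : Type*} [Field k] [Field K] [Field L] [Algebra k K] [Algebra k L]
    (e : K ≃ₐ[k] L) (O : ValuationSubring L) (hO : DvrOver k O) :
    DvrOver k (O.comap (e : K →+* L)) := by
  obtain ⟨h1, h2⟩ := hO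
  constructor
  · let f : (O.comap (e : K →+* L)) →+* O :=
      { toFun := fun z => ⟨e z.1, z.2⟩
        map_one' := by ext; simp
        map_mul' := fun a b => by ext; simp
        map_zero' := by ext; simp
        map_add' := fun a b => by ext; simp }
    have hf : Function.Bijective f := by
      constructor
      · intro a b hab
        have : e a.1 = e b.1 := congrArg Subtype.val hab
        exact Subtype.ext (e.injective this)
      · intro b
        refine ⟨⟨e.symm b.1, ?_⟩, ?_⟩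
        · change e (e.symm b.1) ∈ O
          rw [AlgEquiv.apply_symm_apply]
          exact b.2
        · ext
          change e (e.symm b.1) = b.1
          rw [AlgEquiv.apply_symm_apply]
    exact IsDiscreteValuationRing.RingEquivClass.isDiscreteValuationRing
      (RingEquiv.ofBijective f hf).symm
  · intro a
    change e (algebraMap k K a) ∈ O
    rw [AlgEquiv.commutes]
    exact h2 a

theorem unr_map {K L : Type*} [Field K] [Field L] (e : K ≃+* L) (O : ValuationSubring L) {n : ℕ}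
    (G : Matrix (Fin n) (Fin n) K) (h : Unr (O.comap (e : K →+* L)) G) : Unr O (G.map e) := by
  obtain ⟨P, h1, h2, h3⟩ := h
  have key : (P.map e)ᵀ * G.map e * P.map e = (Pᵀ * G * P).map e := by
    rw [Matrix.map_mul, Matrix.map_mul, Matrix.transpose_map]
  refine ⟨P.map e, ?_, ?_, ?_⟩
  · have : (P.map e).det = e P.det := (RingEquiv.map_det e P).symm
    rw [this]
    exact (_root_.map_ne_zero e).mpr h1
  · intro i j
    rw [key]
    exact h2 i j
  · rw [key]
    have : ((Pᵀ * G * P).map e).det = e (Pᵀ * G * P).det := (RingEquiv.map_det e _).symm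
    rw [this, ← map_inv₀]
    exact h3

theorem isot_of_map {K L : Type*} [Field K] [Field L] (e : K ≃+* L) {n : ℕ}
    (G : Matrix (Fin n) (Fin n) K) (h : Isot (G.map e)) : Isot G := by
  obtain ⟨v, hv, h0⟩ := h
  refine ⟨fun i => e.symm (v i), ?_, ?_⟩
  · intro h
    apply hv
    funext i
    have := congrFun h i
    simpa using this
  · apply e.injective
    rw [map_zero, ← h0]
    simp [dotProduct, Matrix.mulVec, Finset.mul_sum]

/-! ### the tower of fields -/

abbrev KK (k : Type) [Field k] (m : ℕ) : Type := FractionRing (MvPolynomial (Fin m) k)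

noncomputable abbrev al (k : Type) [Field k] (m : ℕ) : MvPolynomial (Fin m) k →+* KK k m :=
  algebraMap (MvPolynomial (Fin m) k) (FractionRing (MvPolynomial (Fin m) k))

theorem exists_ej (k : Type) [Field k] (m : ℕ) :
    ∃ (e : KK k (m + 1) ≃ₐ[k] RatFunc (KK k m)) (j : KK k m →ₐ[k] KK k (m + 1)),
      (∀ a, e (j a) = RatFunc.C a) ∧ e (al k (m + 1) (X 0)) = RatFunc.X ∧
      ∀ i : Fin m, j (al k m (X i)) = al k (m + 1) (X i.succ) := by
  obtain ⟨e, h1, h2⟩ := exists_fracEquiv k m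
  refine ⟨e, (e.symm : RatFunc (KK k m) →ₐ[k] KK k (m + 1)).comp
    (IsScalarTower.toAlgHom k (KK k m) (RatFunc (KK k m))), ?_, h1, ?_⟩
  · intro a
    exact e.apply_symm_apply _
  · intro i
    apply e.injective
    have h := e.apply_symm_apply (algebraMap (KK k m) (RatFunc (KK k m)) (al k m (X i)))
    rw [h2 i]
    exact h

theorem aeval_sup6 (k : Type) [Field k] (p : Polynomial k) :
    Polynomial.aeval (MvPolynomial.X 5 : MvPolynomial (Fin 6) k) p ∈
      MvPolynomial.supported k ({5} : Set (Fin 6)) := by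
  have h : (X 5 : MvPolynomial (Fin 6) k) ∈ MvPolynomial.supported k ({5} : Set (Fin 6)) :=
    (MvPolynomial.X_mem_supported).mpr rfl
  have := (Polynomial.aeval (⟨X 5, h⟩ : MvPolynomial.supported k ({5} : Set (Fin 6))) p).2
  rwa [Polynomial.aeval_subalgebra_coe] at this

theorem vars_c6 (k : Type) [Field k] (p : Polynomial k) :
    ∀ i ∈ (Polynomial.aeval (MvPolynomial.X 5 : MvPolynomial (Fin 6) k) p).vars, i = 5 := by
  intro i hi
  have := (MvPolynomial.mem_supported).mp (aeval_sup6 k p)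
  exact this hi

theorem c6_ne (k : Type) [Field k] (p : Polynomial k) (hp : p ≠ 0) :
    Polynomial.aeval (MvPolynomial.X 5 : MvPolynomial (Fin 6) k) p ≠ 0 := by
  intro h
  have := congrArg (MvPolynomial.aeval (fun _ => (Polynomial.X : Polynomial k))) h
  rw [← Polynomial.aeval_algHom_apply, aeval_X, map_zero, Polynomial.aeval_X_left_apply] at this
  exact hp this

theorem vars_D6 (k : Type) [Field k] (p : Polynomial k) (l : k) :
    ∀ i ∈ (Polynomial.aeval (MvPolynomial.X 5 : MvPolynomial (Fin 6) k) p * MvPolynomial.X 4 *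
      (MvPolynomial.X 4 - 1) * (MvPolynomial.X 4 - MvPolynomial.C l)).vars, i = 4 ∨ i = 5 := by
  intro i hi
  have h4 : (X 4 : MvPolynomial (Fin 6) k) ∈ MvPolynomial.supported k ({4, 5} : Set (Fin 6)) :=
    (MvPolynomial.X_mem_supported).mpr (by simp)
  have h5 : Polynomial.aeval (MvPolynomial.X 5 : MvPolynomial (Fin 6) k) p ∈
      MvPolynomial.supported k ({4, 5} : Set (Fin 6)) :=
    MvPolynomial.supported_mono (by simp) (aeval_sup6 k p)
  have h : (Polynomial.aeval (MvPolynomial.X 5 : MvPolynomial (Fin 6) k) p * MvPolynomial.X 4 *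
      (MvPolynomial.X 4 - 1) * (MvPolynomial.X 4 - MvPolynomial.C l)) ∈
      MvPolynomial.supported k ({4, 5} : Set (Fin 6)) :=
    mul_mem (mul_mem (mul_mem h5 h4) (sub_mem h4 (one_mem _)))
      (sub_mem h4 (Subalgebra.algebraMap_mem _ l))
  have := (MvPolynomial.mem_supported).mp h
  simpa using this hi

theorem G8_symm {K : Type*} [Field K] (a c h : K) : (G8 a c h).IsSymm := by
  unfold G8
  exact Matrix.isSymm_diagonal _

theorem G8_det {K : Type*} [Field K] {a c h : K} (ha : a ≠ 0) (hc : c ≠ 0) (hh : h ≠ 0) :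
    (G8 a c h).det ≠ 0 := by
  unfold G8
  rw [Matrix.det_diagonal, Finset.prod_ne_zero_iff]
  intro i _
  fin_cases i <;> simp [ha, hc, hh]

theorem G8_map' {K L : Type*} [Field K] [Field L] (j : K →+* L) (a c h : K) :
    (G8 a c h).map j = G8 (j a) (j c) (j h) := by
  rw [G8_map, G8, Matrix.diagonal_map (map_zero j)]

theorem irrational_of_not_cov {k : Type} [Field k] [IsAlgClosed k] {l : k} (hl : GenL l)
    (hnc : ¬ Cov (DF l) (RatFunc.C l) (cF l)) (D0 c0 : Polynomial k)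
    (hD0 : ∃ w, w ≠ 0 ∧ algebraMap (Polynomial k) (RatFunc k) D0 = DF l * w ^ 2)
    (hc0 : ∃ w, w ≠ 0 ∧ algebraMap (Polynomial k) (RatFunc k) c0 = cF l * w ^ 2)
    (Δ c : MvPolynomial (Fin 6) k)
    (hΔ : Δ = Polynomial.aeval (MvPolynomial.X 5) D0 * MvPolynomial.X 4 *
      (MvPolynomial.X 4 - 1) * (MvPolynomial.X 4 - MvPolynomial.C l))
    (hc : c = Polynomial.aeval (MvPolynomial.X 5) c0) :
    ¬ Nonempty (FractionRing (HR (dPol Δ c)) ≃ₐ[k] FractionRing (MvPolynomial (Fin 6) k)) := by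
  rintro ⟨e⟩
  obtain ⟨w, hw, hwD⟩ := hD0
  obtain ⟨v, hv, hvc⟩ := hc0
  have h2 := hl.1
  obtain ⟨t0, t1, tl, hind, hsq1, hsq2⟩ := tF_classes hl
  have hDF0 : DF l ≠ 0 := mul_ne_zero (mul_ne_zero t0 (sub_ne_zero.mpr t1)) tl
  have hcF0 : cF l ≠ 0 := mul_ne_zero t0 tl
  have hcF : ¬ IsSquare (cF l) := by
    intro h
    have := hind 1 0 1 (by simpa [cF] using h)
    exact absurd this.1 (by decide)
  set Dr := algebraMap (Polynomial k) (RatFunc k) D0 with hDr
  set cr := algebraMap (Polynomial k) (RatFunc k) c0 with hcr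
  have hDr0 : Dr ≠ 0 := by rw [hwD]; exact mul_ne_zero hDF0 (pow_ne_zero _ hw)
  have hcr0 : cr ≠ 0 := by rw [hvc]; exact mul_ne_zero hcF0 (pow_ne_zero _ hv)
  have hc00 : c0 ≠ 0 := by
    rintro rfl
    apply hcr0
    rw [hcr, map_zero]
  have hcrsq : ¬ IsSquare cr := by
    rintro ⟨z, hz⟩
    apply hcF
    refine ⟨z / v, ?_⟩
    rw [hvc] at hz
    field_simp
    linear_combination hz
  obtain ⟨E, hE0, hE1⟩ := exists_fracEquiv_two k
  obtain ⟨φ, hEφ⟩ : ∃ φ : RatFunc k →ₐ[k] KK k 2, ∀ a, E (φ a) = RatFunc.C a :=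
    ⟨(E.symm : RatFunc (RatFunc k) →ₐ[k] KK k 2).comp
      (IsScalarTower.toAlgHom k (RatFunc k) (RatFunc (RatFunc k))),
      fun a => E.apply_symm_apply _⟩
  have hφX : φ RatFunc.X = al k 2 (X 1) := by
    apply E.injective
    rw [hEφ]
    exact hE1.symm
  have hEl : E (algebraMap k (KK k 2) l) = RatFunc.C (RatFunc.C l) := by
    have h1 := hEφ (RatFunc.C l)
    have h3 : φ (RatFunc.C l) = algebraMap k (KK k 2) l := φ.commutes l
    rw [← h3, h1]
  obtain ⟨x, hx⟩ : ∃ x : KK k 2, x = al k 2 (X 0) := ⟨_, rfl⟩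
  have hEx : E x = RatFunc.X := by rw [hx]; exact hE0
  obtain ⟨δ, hδ⟩ : ∃ δ : KK k 2, δ = φ Dr * x * (x - 1) * (x - algebraMap k (KK k 2) l) :=
    ⟨_, rfl⟩
  obtain ⟨c', hc'⟩ : ∃ c' : KK k 2, c' = φ cr := ⟨_, rfl⟩
  have hEδ : E δ = RatFunc.C Dr * RatFunc.X * (RatFunc.X - 1) *
      (RatFunc.X - RatFunc.C (RatFunc.C l)) := by
    rw [hδ, map_mul, map_mul, map_mul, map_sub, map_sub, map_one, hEφ, hEx, hEl]
  have hEc : E c' = RatFunc.C cr := by rw [hc', hEφ]
  have hδns : ¬ IsSquare δ := by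
    rintro ⟨z, hz⟩
    apply deg3_nonsq (l := RatFunc.C l) hDr0
    refine ⟨E z, ?_⟩
    rw [← hEδ, hz, map_mul]
  have h2r : (2 : RatFunc k) ≠ 0 := by
    have h : (RatFunc.C (2 : k) : RatFunc k) = 2 := map_ofNat _ 2
    rw [← h]
    exact (_root_.map_ne_zero _).mpr h2
  have h2F : (2 : KK k 2) ≠ 0 := by
    have h : algebraMap k (KK k 2) (2 : k) = 2 := map_ofNat _ 2
    rw [← h]
    exact (_root_.map_ne_zero _).mpr h2
  have h4 : 4 * δ ≠ 1 := by
    intro h
    apply deg3_four (l := RatFunc.C l) h2r hDr0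
    rw [← hEδ]
    have := congrArg E h
    rw [map_mul, map_one, map_ofNat] at this
    exact this
  have hx0 : x ≠ 0 := by
    intro h
    rw [h, map_zero] at hEx
    exact RatFunc.X_ne_zero hEx.symm
  have hδ0 : δ ≠ 0 := by
    intro h
    apply hδns
    rw [h]
    exact ⟨0, by simp⟩
  have hx1 : x ≠ 1 := by
    intro h
    apply hδ0
    rw [hδ, h]; ring
  have hxl : x ≠ algebraMap k (KK k 2) l := by
    intro h
    apply hδ0
    rw [hδ, h]; ring
  have hc0' : c' ≠ 0 := by rw [hc']; exact (_root_.map_ne_zero φ).mpr hcr0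
  -- anisotropy over the quadratic extension
  have han : ¬ IsotL δ x c' := by
    intro h
    have h1 := isotL_map (E : KK k 2 →+* RatFunc (RatFunc k)) h
    have h3 : IsotL (RatFunc.C Dr * RatFunc.X * (RatFunc.X - 1) *
      (RatFunc.X - RatFunc.C (RatFunc.C l))) (RatFunc.X : RatFunc (RatFunc k))
        (RatFunc.C cr) := by
      rw [← hEδ, ← hEc, ← hEx]
      exact h1
    have h2rr : (2 : RatFunc (RatFunc k)) ≠ 0 := by
      have h : (RatFunc.C (2 : RatFunc k) : RatFunc (RatFunc k)) = 2 := map_ofNat _ 2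
      rw [← h]
      exact (_root_.map_ne_zero _).mpr h2r
    have h5 := TC4.pur_of_isotL h2rr (deg3 (l := RatFunc.C l) hDr0).1 RatFunc.X_ne_zero
      ((_root_.map_ne_zero _).mpr hcr0) h3
    have hl0 : (RatFunc.C l : RatFunc k) ≠ 0 := (_root_.map_ne_zero _).mpr hl.2.1
    have hl1 : (RatFunc.C l : RatFunc k) ≠ 1 := by
      intro h
      apply hl.2.2.1
      apply (RatFunc.C (K := k)).injective
      rw [h, map_one]
    have h6 := TC4.cov_of_pur h2r hDr0 hl0 hl1 hcrsq h5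
    apply hnc
    obtain ⟨α, β, γ, k1, k2⟩ := h6
    refine ⟨α / w, β * v / w, γ * v / w, ?_, ?_⟩
    · rw [hwD, hvc] at k1
      field_simp
      linear_combination k1
    · rw [hwD, hvc] at k2
      field_simp
      linear_combination k2
  -- the tower
  obtain ⟨e2, j2, hj2, hs2, hi2⟩ := exists_ej k 2
  obtain ⟨e3, j3, hj3, hs3, hi3⟩ := exists_ej k 3
  obtain ⟨e4, j4, hj4, hs4, hi4⟩ := exists_ej k 4
  obtain ⟨e5, j5, hj5, hs5, hi5⟩ := exists_ej k 5
  obtain ⟨J, hJ⟩ : ∃ J : KK k 2 →ₐ[k] KK k 6, ∀ a, J a = j5 (j4 (j3 (j2 a))) :=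
    ⟨j5.comp (j4.comp (j3.comp j2)), fun a => rfl⟩
  have hJx : J x = al k 6 (X 4) := by
    rw [hJ, hx, hi2, hi3, hi4, hi5]; rfl
  have hJτ : J (φ RatFunc.X) = al k 6 (X 5) := by
    rw [hJ, hφX, hi2, hi3, hi4, hi5]; rfl
  have hJp : ∀ p : Polynomial k, J (φ (algebraMap (Polynomial k) (RatFunc k) p)) =
      al k 6 (Polynomial.aeval (MvPolynomial.X 5) p) := by
    intro p
    have h1 : algebraMap (Polynomial k) (RatFunc k) p = Polynomial.aeval RatFunc.X p := by
      rw [← RatFunc.algebraMap_X, Polynomial.aeval_algebraMap_apply,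
        Polynomial.aeval_X_left_apply]
    rw [h1, ← Polynomial.aeval_algHom_apply, ← Polynomial.aeval_algHom_apply, hJτ]
    exact Polynomial.aeval_algebraMap_apply (KK k 6) (X 5 : MvPolynomial (Fin 6) k) p
  have hJδ : J δ = al k 6 Δ := by
    rw [hδ, hΔ]
    simp only [map_mul, map_sub, map_one]
    rw [hJp, hJx, AlgHom.commutes]
    congr 2
  have hJc : J c' = al k 6 c := by rw [hc', hcr, hJp, hc]
  -- the function field
  have hΔv : ∀ i ∈ Δ.vars, i = 4 ∨ i = 5 := by rw [hΔ]; exact vars_D6 k D0 l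
  have hcv : ∀ i ∈ c.vars, i = 5 := by rw [hc]; exact vars_c6 k c0
  have hcne : c ≠ 0 := by rw [hc]; exact c6_ne k c0 hc00
  have hns := dPol_not_square h2 Δ c hΔv hcv hcne
  obtain ⟨hirr, hdom, j, y, hy, hj, hy2, huniq, hspan⟩ := hyp_field h2 (dPol Δ c) hns
  have hdom' := hdom
  let KX := FractionRing (HR (dPol Δ c))
  letI : Algebra (KK k 2) KX := ((j.comp J : KK k 2 →ₐ[k] KX) : KK k 2 →+* KX).toAlgebra
  have hst : IsScalarTower k (KK k 2) KX :=
    IsScalarTower.of_algebraMap_eq (fun a => ((j.comp J).commutes a).symm)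
  have hal : ∀ a, algebraMap (KK k 2) KX a = j (J a) := fun a => rfl
  have hS : j5 (j4 (j3 (al k 3 (X 0)))) = al k 6 (X 3) := by rw [hi3, hi4, hi5]; rfl
  have hU2 : j5 (j4 (al k 4 (X 0))) = al k 6 (X 2) := by rw [hi4, hi5]; rfl
  have hU3 : j5 (al k 5 (X 0)) = al k 6 (X 1) := by rw [hi5]; rfl
  have hne : ∀ ε : KK k 2, (al k 3 (X 0) - j2 ε) ^ 2 - j2 δ ≠ 0 := by
    intro ε h
    apply sq_ne_C ε δ
    have := congrArg e2 h
    rw [map_sub, map_pow, map_sub, hj2, hj2, hs2, map_zero] at this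
    exact this
  have hh1 : al k 6 (X 3) ^ 2 - J δ ≠ 0 := by
    have h := hne 0
    rw [map_zero, sub_zero] at h
    have h' := (_root_.map_ne_zero j5).mpr ((_root_.map_ne_zero j4).mpr
      ((_root_.map_ne_zero j3).mpr h))
    simp only [map_sub, map_pow] at h'
    rw [hS, ← hJ] at h'
    exact h'
  have hh2 : (al k 6 (X 3) - 1) ^ 2 - J δ ≠ 0 := by
    have h := hne 1
    rw [map_one] at h
    have h' := (_root_.map_ne_zero j5).mpr ((_root_.map_ne_zero j4).mpr
      ((_root_.map_ne_zero j3).mpr h))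
    simp only [map_sub, map_pow, map_one] at h'
    rw [hS, ← hJ] at h'
    exact h'
  have hUR : ∀ O : ValuationSubring (KK k 2), DvrOver k O → ∃ a b : KK k 2, O.valuation a = 1 ∧
      O.valuation b = 1 ∧ IsoL δ (G4 x c') (G4 a b) := by
    intro O hO
    obtain ⟨a, b, ha, hb, hab⟩ := ur_all hl φ x
      (φ (DF l) * x * (x - 1) * (x - algebraMap k (KK k 2) l)) hx0 hx1 hxl rfl O hO
    refine ⟨a, b, ha, hb, ?_⟩
    refine iso_rescale h2F (w := φ w) (v := φ v) ?_ ((_root_.map_ne_zero φ).mpr hw)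
      ((_root_.map_ne_zero φ).mpr hv) ?_ ?_ hab
    · exact mul_ne_zero (mul_ne_zero (mul_ne_zero ((_root_.map_ne_zero φ).mpr hDF0) hx0)
        (sub_ne_zero.mpr hx1)) (sub_ne_zero.mpr hxl)
    · rw [hδ, hwD, map_mul, map_pow]; ring
    · rw [hc', hvc, map_mul, map_pow]
  have hdp : al k 6 (dPol Δ c) = (al k 6 (X 3) ^ 2 - J δ) * ((al k 6 (X 3) - 1) ^ 2 - J δ) +
      J x * al k 6 (X 2) ^ 2 + J c' * al k 6 (X 1) ^ 2 - J x * J c' * al k 6 (X 0) ^ 2 := by
    rw [hJx, hJc, hJδ, dPol]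
    simp only [map_sub, map_add, map_mul, map_pow, map_one]
  have hjn : ∀ z : KK k 6, z ≠ 0 → j z ≠ 0 := fun z hz => (_root_.map_ne_zero j).mpr hz
  have hunr := unr_all (K := KX) h2 (trdeg_two k) x c' δ hx0 hc0' hδ0 h4 hUR
    (j (al k 6 (X 3))) ![y, j (al k 6 (X 2)), j (al k 6 (X 1)), j (al k 6 (X 0))]
    (by
      rw [hal, ← map_pow, ← map_sub]
      exact hjn _ hh1)
    (by
      rw [hal, ← map_one j, ← map_sub, ← map_pow, ← map_sub]
      exact hjn _ hh2)
    (by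
      simp only [q4, hal, Matrix.cons_val_zero, Matrix.cons_val_one, Matrix.cons_val]
      rw [hy2]
      change j (al k 6 (dPol Δ c)) - _ - _ + _ = _
      rw [hdp]
      simp only [map_sub, map_add, map_mul, map_pow, map_one]
      ring)
  have hG : G8 (algebraMap (KK k 2) KX x) (algebraMap (KK k 2) KX c')
      (j (al k 6 (X 3)) ^ 2 - algebraMap (KK k 2) KX δ) =
      G8 (j (J x)) (j (J c')) (j (al k 6 (X 3) ^ 2 - J δ)) := by
    rw [hal, hal, hal, map_sub, map_pow]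
  rw [hG] at hunr
  have hJx0 : J x ≠ 0 := (_root_.map_ne_zero J).mpr hx0
  have hJc0 : J c' ≠ 0 := (_root_.map_ne_zero J).mpr hc0'
  have hdet := G8_det (hjn _ hJx0) (hjn _ hJc0) (hjn _ hh1)
  have hIs : Isot ((G8 (j (J x)) (j (J c')) (j (al k 6 (X 3) ^ 2 - J δ))).map e.toRingEquiv) := by
    apply isotropic_of_unramified k 6 (by norm_num)
    · exact (G8_symm _ _ _).map _
    · have : ((G8 (j (J x)) (j (J c')) (j (al k 6 (X 3) ^ 2 - J δ))).map e.toRingEquiv).det =
          e.toRingEquiv (G8 (j (J x)) (j (J c')) (j (al k 6 (X 3) ^ 2 - J δ))).det :=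
        (RingEquiv.map_det e.toRingEquiv _).symm
      rw [this]
      exact (_root_.map_ne_zero e.toRingEquiv).mpr hdet
    · intro O hO
      exact unr_map e.toRingEquiv O _ (hunr _ (dvrOver_comap e O hO))
  have hIs2 := isot_of_map _ _ hIs
  have h2K : (2 : KK k 6) ≠ 0 := by
    have h : algebraMap k (KK k 6) (2 : k) = 2 := map_ofNat _ 2
    rw [← h]
    exact (_root_.map_ne_zero _).mpr h2
  have hmap := G8_map (j : KK k 6 →+* KX) (J x) (J c') (al k 6 (X 3) ^ 2 - J δ)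
  have hIs3 : Isot (Matrix.diagonal (fun i => (j : KK k 6 →+* KX)
      ((![1, -(J x), -(J c'), J x * J c', -(al k 6 (X 3) ^ 2 - J δ),
        (al k 6 (X 3) ^ 2 - J δ) * J x, (al k 6 (X 3) ^ 2 - J δ) * J c',
        -((al k 6 (X 3) ^ 2 - J δ) * J x * J c')] : Fin 8 → KK k 6) i))) := by
    rw [← hmap]
    exact hIs2
  obtain ⟨u, v', huv, k1, k2⟩ := isot_pair h2K (j : KK k 6 →+* KX) y (al k 6 (dPol Δ c)) hy2
    huniq hspan _ hIs3
  refine aniso_KX (e2 : KK k 3 ≃+* RatFunc (KK k 2)) (e3 : KK k 4 ≃+* RatFunc (KK k 3))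
    (e4 : KK k 5 ≃+* RatFunc (KK k 4)) (e5 : KK k 6 ≃+* RatFunc (KK k 5))
    (j2 : KK k 2 →+* KK k 3) (j3 : KK k 3 →+* KK k 4) (j4 : KK k 4 →+* KK k 5)
    (j5 : KK k 5 →+* KK k 6) hj2 hj3 hj4 hj5 (al k 3 (X 0)) hs2 (al k 4 (X 0)) hs3
    (al k 5 (X 0)) hs4 (al k 6 (X 0)) hs5 h2F hx0 hc0' hδns han (al k 6 (dPol Δ c)) ?_ _ ?_
    u v' huv k1 k2
  · change al k 6 (dPol Δ c) = j5 (j4 (j3 ((al k 3 (X 0) ^ 2 - j2 δ) *
      ((al k 3 (X 0) - 1) ^ 2 - j2 δ)))) + j5 (j4 (j3 (j2 x))) * (j5 (j4 (al k 4 (X 0)))) ^ 2 +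
      j5 (j4 (j3 (j2 c'))) * (j5 (al k 5 (X 0))) ^ 2 -
      j5 (j4 (j3 (j2 (x * c')))) * (al k 6 (X 0)) ^ 2
    simp only [map_sub, map_mul, map_pow, map_one]
    rw [hS, hU2, hU3, ← hJ, ← hJ, ← hJ, hdp]
  · change G8 (J x) (J c') (al k 6 (X 3) ^ 2 - J δ) = G8 (j5 (j4 (j3 (j2 x))))
      (j5 (j4 (j3 (j2 c')))) (j5 (j4 (j3 (al k 3 (X 0) ^ 2 - j2 δ))))
    simp only [map_sub, map_pow]
    rw [hS, ← hJ, ← hJ, ← hJ]

end Pool.Agent.H918R3
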