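import Pool.Agent.H918R3.TB7
import Pool.Agent.H918R3.TFD
import Pool.Agent.H918R3.TB0
import Pool.Agent.H918R3.TT1

set_option autoImplicit false

namespace Pool.Agent.H918R3

open Polynomial

section MT

variable {K : Type*} [Field K] [DecidableEq K] {K' : Type*} [Field K'] [DecidableEq K']

/-- transport maps preserve `x / D` -/
theorem MT_hasX {φ : K →+* K'} {u : K'} {D l : K} {D' l' : K'} {f : WD D l →+ WD D' l'}
    (hf : IsTr φ u f) (hD : D' = u ^ 2 * φ D) {P : WD D l} {ξ : K} (hP : HasX P ξ) :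
    HasX (f P) (φ ξ) := by
  obtain ⟨y, h, rfl⟩ := hP
  obtain ⟨h', e⟩ := hf _ y h
  rw [e]
  have e2 : u ^ 2 * φ (ξ * D) = φ ξ * D' := by
    rw [hD, map_mul]
    ring
  refine ⟨u ^ 3 * φ y, e2 ▸ h', ?_⟩
  congr 1

/-- a point with generated group -/
theorem MT_gen {A B : Type*} [AddCommGroup A] [AddCommGroup B] (f : A →+ B) {R P T : A} {n : ℤ}
    (hT : T + T = 0) (hR : R = n • P + T) {Q : B} (hQ : f P = Q ∨ f P = -Q) :
    ∃ (m : ℤ) (T' : B), T' + T' = 0 ∧ f R = m • Q + T' := by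
  have h1 : f T + f T = 0 := by rw [← map_add, hT, map_zero]
  rcases hQ with hQ | hQ
  · exact ⟨n, f T, h1, by rw [hR, map_add, map_zsmul, hQ]⟩
  · exact ⟨-n, f T, h1, by rw [hR, map_add, map_zsmul, hQ, zsmul_neg, neg_zsmul]⟩

end MT

variable {k : Type*} [Field k]

theorem four_mul [IsAlgClosed k] [DecidableEq (RatFunc k)] {l : k} (hl : GenL l)
    (hg1 : GenBy (RatFunc.X * (RatFunc.X - 1) * (RatFunc.X - RatFunc.C l)) (RatFunc.C l)
      RatFunc.X)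
    (hg2 : GenBy (RatFunc.X * (RatFunc.X - 1) * (RatFunc.X - RatFunc.C (1 - l))) (RatFunc.C l)
      (1 - RatFunc.X))
    (hg3 : GenBy (RatFunc.X * (RatFunc.X - 1) * (RatFunc.X - RatFunc.C l⁻¹)) (RatFunc.C l)
      RatFunc.X⁻¹)
    (hg6 : ∀ R : WD (RatFunc.X * (RatFunc.X - 1) * (RatFunc.X - RatFunc.C l) *
      (RatFunc.X - RatFunc.C (1 - l)) * (RatFunc.X - RatFunc.C l⁻¹)) (RatFunc.C l), R + R = 0)
    (Q1 Q2 Q3 : WD (DF l) (RatFunc.C l)) (hQ1 : HasX Q1 (tF l)) (hQ2 : HasX Q2 (1 - tF l))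
    (hQ3 : HasX Q3 (tF l)⁻¹) (Q : WD (DF l) (RatFunc.C l)) :
    ∃ (n1 n2 n3 : ℤ) (T : WD (DF l) (RatFunc.C l)), T + T = 0 ∧
      (4 : ℤ) • Q = n1 • Q1 + n2 • Q2 + n3 • Q3 + T := by
  obtain ⟨h2, hl0, hl1, -, -, -⟩ := id hl
  obtain ⟨φ1, φ2, e1, hc1, hc2, ht, he1, he10, he11, hnr1, hdec1, he2, hnr2, hdec2,
    ⟨w1, hw1, hw1'⟩, ⟨w2, hw2, hw2'⟩⟩ := field_decomp hl
  -- nonvanishing
  have h2K : (2 : RatFunc k) ≠ 0 := by
    have : (2 : RatFunc k) = RatFunc.C 2 := (map_ofNat RatFunc.C 2).symm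
    rw [this]
    exact (_root_.map_ne_zero _).2 h2
  have hCl0 : (RatFunc.C l : RatFunc k) ≠ 0 := (_root_.map_ne_zero _).2 hl0
  have hCl1 : (RatFunc.C l : RatFunc k) ≠ 1 := by
    intro h
    apply hl1
    have : (RatFunc.C l : RatFunc k) = RatFunc.C 1 := by rw [h, map_one]
    exact RatFunc.C_injective this
  have hX : ∀ c : k, (RatFunc.X - RatFunc.C c : RatFunc k) ≠ 0 := by
    intro c h
    rw [sub_eq_zero] at h
    have h3 : algebraMap k[X] (RatFunc k) Polynomial.X = algebraMap k[X] (RatFunc k) (Polynomial.C c) := by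
      rw [RatFunc.algebraMap_X, RatFunc.algebraMap_C, h]
    exact Polynomial.X_ne_C c (RatFunc.algebraMap_injective k h3)
  have hX0 : (RatFunc.X : RatFunc k) ≠ 0 := by simpa using hX 0
  have hX1 : (RatFunc.X - 1 : RatFunc k) ≠ 0 := by simpa using hX 1
  obtain ⟨f, hf⟩ : ∃ f : RatFunc k, f = RatFunc.X * (RatFunc.X - 1) * (RatFunc.X - RatFunc.C l) :=
    ⟨_, rfl⟩
  rw [← hf] at hg1
  have hf0 : f ≠ 0 := by
    rw [hf]
    exact mul_ne_zero (mul_ne_zero hX0 hX1) (hX l)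
  have hφf0 : φ1 f ≠ 0 := (_root_.map_ne_zero φ1).2 hf0
  have he1' : 1 - e1 ≠ 0 := sub_ne_zero.2 (Ne.symm he11)
  set r : RatFunc k := 2 * RatFunc.X / (1 + RatFunc.X ^ 2) with hr
  have hr0 : r ≠ 0 := by
    intro h
    exact hnr2 0 (by rw [map_zero, h])
  have h1X : (1 - RatFunc.X ^ 2 : RatFunc k) = φ1 (1 - e1) := by
    rw [map_sub, map_one, he1]
  have h1X0 : (1 - RatFunc.X ^ 2 : RatFunc k) ≠ 0 := by
    rw [h1X]
    exact (_root_.map_ne_zero φ1).2 he1'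
  have hDF : DF l = φ2 (φ1 f) := by
    have e : φ2 (φ1 f) = φ2 (φ1 RatFunc.X) * (φ2 (φ1 RatFunc.X) - 1) *
        (φ2 (φ1 RatFunc.X) - RatFunc.C l) := by
      rw [hf, map_mul, map_mul, map_mul, map_mul, map_sub, map_sub, map_sub, map_sub, map_one,
        map_one, hc1, hc2]
    rw [e, ht]
    rfl
  -- the transport maps
  obtain ⟨f1, hf1, -⟩ := exists_tr (K := RatFunc k) (K' := RatFunc k) h2K φ2 1 one_ne_zero
    (D := φ1 f) (l := RatFunc.C l) (D' := DF l) (l' := RatFunc.C l) hφf0 hCl0 hCl1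
    (by rw [hDF]; ring) (hc2 l).symm
  obtain ⟨f2, hf2, -⟩ := exists_tr (K := RatFunc k) (K' := RatFunc k) h2K φ2 r⁻¹ (inv_ne_zero hr0)
    (D := (1 - RatFunc.X ^ 2) * φ1 f) (l := RatFunc.C l) (D' := DF l) (l' := RatFunc.C l)
    (mul_ne_zero h1X0 hφf0) hCl0 hCl1
    (by rw [hDF, map_mul, he2]; field_simp) (hc2 l).symm
  obtain ⟨P1, P2, hQP⟩ := quad_step (B := RatFunc k) (K := RatFunc k) h2K φ2 r
    (1 - RatFunc.X ^ 2) he2 hnr2 hdec2 hφf0 hCl0 hCl1 hDF (hc2 l).symm f1 hf1 f2 hf2 Q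
  -- second step, first half
  obtain ⟨g1, hg1', -⟩ := exists_tr (K := RatFunc k) (K' := RatFunc k) h2K φ1 1 one_ne_zero
    (D := f) (l := RatFunc.C l) (D' := φ1 f) (l' := RatFunc.C l) hf0 hCl0 hCl1
    (by ring) (hc1 l).symm
  obtain ⟨g2, hg2', -⟩ := exists_tr (K := RatFunc k) (K' := RatFunc k) h2K φ1 RatFunc.X⁻¹
    (inv_ne_zero hX0) (D := e1 * f) (l := RatFunc.C l) (D' := φ1 f) (l' := RatFunc.C l)
    (mul_ne_zero he10 hf0) hCl0 hCl1 (by rw [map_mul, he1]; field_simp) (hc1 l).symm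
  obtain ⟨R1, R2, hP1⟩ := quad_step (B := RatFunc k) (K := RatFunc k) h2K φ1 RatFunc.X e1 he1
    hnr1 hdec1 hf0 hCl0 hCl1 rfl (hc1 l).symm g1 hg1' g2 hg2' P1
  -- second step, second half
  have hD2 : (1 - RatFunc.X ^ 2) * φ1 f = φ1 ((1 - e1) * f) := by rw [map_mul, h1X]
  obtain ⟨k1, hk1, -⟩ := exists_tr (K := RatFunc k) (K' := RatFunc k) h2K φ1 1 one_ne_zero
    (D := (1 - e1) * f) (l := RatFunc.C l) (D' := (1 - RatFunc.X ^ 2) * φ1 f)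
    (l' := RatFunc.C l) (mul_ne_zero he1' hf0) hCl0 hCl1 (by rw [hD2]; ring) (hc1 l).symm
  obtain ⟨k2, hk2, -⟩ := exists_tr (K := RatFunc k) (K' := RatFunc k) h2K φ1 RatFunc.X⁻¹
    (inv_ne_zero hX0) (D := e1 * ((1 - e1) * f)) (l := RatFunc.C l)
    (D' := (1 - RatFunc.X ^ 2) * φ1 f) (l' := RatFunc.C l)
    (mul_ne_zero he10 (mul_ne_zero he1' hf0)) hCl0 hCl1
    (by rw [hD2, map_mul φ1 e1, he1]; field_simp) (hc1 l).symm
  obtain ⟨R3, R4, hP2⟩ := quad_step (B := RatFunc k) (K := RatFunc k) h2K φ1 RatFunc.X e1 he1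
    hnr1 hdec1 (mul_ne_zero he1' hf0) hCl0 hCl1 hD2 (hc1 l).symm k1 hk1 k2 hk2 P2
  -- generators
  have hT2 : GenBy (e1 * f) (RatFunc.C l) (1 - RatFunc.X) := by
    refine (genBy_transport h2K (RingEquiv.refl (RatFunc k)) (w1 * (RatFunc.X - RatFunc.C l))
      (mul_ne_zero hw1 (hX l))
      (D := RatFunc.X * (RatFunc.X - 1) * (RatFunc.X - RatFunc.C (1 - l)))
      (mul_ne_zero (mul_ne_zero hX0 hX1) (hX (1 - l))) hCl0 hCl1 ?_ rfl rfl).1 hg2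
    rw [hw1', hf]
    simp only [RingEquiv.refl_apply]
    ring
  have hT3 : GenBy ((1 - e1) * f) (RatFunc.C l) RatFunc.X⁻¹ := by
    refine (genBy_transport h2K (RingEquiv.refl (RatFunc k)) (w2 * (RatFunc.X - RatFunc.C l))
      (mul_ne_zero hw2 (hX l))
      (D := RatFunc.X * (RatFunc.X - 1) * (RatFunc.X - RatFunc.C l⁻¹))
      (mul_ne_zero (mul_ne_zero hX0 hX1) (hX l⁻¹)) hCl0 hCl1 ?_ rfl rfl).1 hg3
    rw [hw2', hf]
    simp only [RingEquiv.refl_apply]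
    ring
  have hT4 : ∀ R : WD (e1 * ((1 - e1) * f)) (RatFunc.C l), R + R = 0 := by
    refine (genBy_transport h2K (RingEquiv.refl (RatFunc k))
      (w1 * w2 * (RatFunc.X - RatFunc.C l))
      (mul_ne_zero (mul_ne_zero hw1 hw2) (hX l))
      (D := RatFunc.X * (RatFunc.X - 1) * (RatFunc.X - RatFunc.C l) *
        (RatFunc.X - RatFunc.C (1 - l)) * (RatFunc.X - RatFunc.C l⁻¹)) (ξ := 0) (ξ' := 0)
      (mul_ne_zero (mul_ne_zero (mul_ne_zero (mul_ne_zero hX0 hX1) (hX l)) (hX (1 - l)))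
        (hX l⁻¹)) hCl0 hCl1 ?_ rfl (by simp)).2 hg6
    rw [hw2', hw1', hf]
    simp only [RingEquiv.refl_apply]
    ring
  -- the points
  have hDF0 : DF l ≠ 0 := by
    rw [hDF]
    exact (_root_.map_ne_zero φ2).2 hφf0
  have hB0 := (pt_basic (K := RatFunc k) h2K hDF0 hCl0 hCl1).2.2.2.1
  obtain ⟨A1, hA1, hA1'⟩ := hg1
  obtain ⟨A2, hA2, hA2'⟩ := hT2
  obtain ⟨A3, hA3, hA3'⟩ := hT3
  obtain ⟨n1, T1, hTT1, hR1⟩ := hA1' R1
  obtain ⟨n2, T2, hTT2, hR2⟩ := hA2' R2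
  obtain ⟨n3, T3, hTT3, hR3⟩ := hA3' R3
  have i1 : HasX ((f1.comp g1) A1) (tF l) := by
    have h3 := MT_hasX hf1 (by rw [hDF]; ring) (MT_hasX hg1' (by ring) hA1)
    rw [ht] at h3
    exact h3
  have i2 : HasX ((f1.comp g2) A2) (1 - tF l) := by
    have h3 := MT_hasX hf1 (by rw [hDF]; ring) (MT_hasX hg2' (by rw [map_mul, he1]; field_simp) hA2)
    rw [map_sub, map_sub, map_one, map_one, ht] at h3
    exact h3
  have i3 : HasX ((f2.comp k1) A3) (tF l)⁻¹ := by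
    have h3 := MT_hasX hf2 (by rw [hDF, map_mul, he2]; field_simp)
      (MT_hasX hk1 (by rw [hD2]; ring) hA3)
    rw [map_inv₀, map_inv₀, ht] at h3
    exact h3
  have j1 := hB0 Q1 ((f1.comp g1) A1) (tF l) hQ1 i1
  have j2 := hB0 Q2 ((f1.comp g2) A2) (1 - tF l) hQ2 i2
  have j3 := hB0 Q3 ((f2.comp k1) A3) (tF l)⁻¹ hQ3 i3
  obtain ⟨m1, S1, hS1, e5⟩ := MT_gen (f1.comp g1) hTT1 hR1 j1
  obtain ⟨m2, S2, hS2, e6⟩ := MT_gen (f1.comp g2) hTT2 hR2 j2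
  obtain ⟨m3, S3, hS3, e7⟩ := MT_gen (f2.comp k1) hTT3 hR3 j3
  have hS4 : (f2.comp k2) R4 + (f2.comp k2) R4 = 0 := by
    rw [← map_add, hT4 R4, map_zero]
  refine ⟨m1, m2, m3, S1 + S2 + S3 + (f2.comp k2) R4, ?_, ?_⟩
  · calc S1 + S2 + S3 + (f2.comp k2) R4 + (S1 + S2 + S3 + (f2.comp k2) R4)
        = (S1 + S1) + (S2 + S2) + (S3 + S3) + ((f2.comp k2) R4 + (f2.comp k2) R4) := by abel
      _ = 0 := by rw [hS1, hS2, hS3, hS4]; simp
  · have e8 : (4 : ℤ) • Q = (Q + Q) + (Q + Q) := by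
      have : (4 : ℤ) = 1 + 1 + 1 + 1 := by norm_num
      rw [this, add_smul, add_smul, add_smul, one_smul]
      abel
    have e9 : (Q + Q) + (Q + Q) = f1 (P1 + P1) + f2 (P2 + P2) := by
      rw [hQP, map_add, map_add]
      abel
    rw [e8, e9, hP1, hP2, map_add, map_add]
    have e10 : f1 (g1 R1) = (f1.comp g1) R1 := rfl
    have e11 : f1 (g2 R2) = (f1.comp g2) R2 := rfl
    have e12 : f2 (k1 R3) = (f2.comp k1) R3 := rfl
    have e13 : f2 (k2 R4) = (f2.comp k2) R4 := rfl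
    rw [e10, e11, e12, e13, e5, e6, e7]
    abel

end Pool.Agent.H918R3
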