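import Mathlib
import Pool.Agent.H918R3.Defs
import Pool.Agent.H918R3.TB0
import Pool.Agent.H918R3.TB1

set_option autoImplicit false

/-!
# Classes of points modulo squares (helper81; used for PB0 and URi1)
-/

namespace Pool.Agent.H918R3

namespace H81

variable {K : Type*} [Field K]

/-- exponents modulo two -/
abbrev V3 := ZMod 2 × ZMod 2 × ZMod 2

/-- the monomial with exponents `v` -/
def mon (t1 t2 t3 : K) (v : V3) : K := t1 ^ v.1.val * t2 ^ v.2.1.val * t3 ^ v.2.2.val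

/-- `z` has the class of the monomial `v` -/
def Cl (t1 t2 t3 z : K) (v : V3) : Prop := z ≠ 0 ∧ IsSquare (z * mon t1 t2 t3 v)

lemma pow_val_add (t : K) (ht : t ≠ 0) (a b : ZMod 2) :
    ∃ s : K, s ≠ 0 ∧ t ^ a.val * t ^ b.val = t ^ (a + b).val * s ^ 2 := by
  have key : (a + b).val = a.val + b.val ∨ (a + b).val + 2 = a.val + b.val := by
    revert a b
    decide
  rcases key with h | h
  · exact ⟨1, one_ne_zero, by rw [h, pow_add]; ring⟩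
  · exact ⟨t, ht, by rw [← pow_add, ← pow_add, h]⟩

variable {t1 t2 t3 : K}

lemma mon_add (h1 : t1 ≠ 0) (h2 : t2 ≠ 0) (h3 : t3 ≠ 0) (u v : V3) :
    ∃ s : K, s ≠ 0 ∧ mon t1 t2 t3 u * mon t1 t2 t3 v = mon t1 t2 t3 (u + v) * s ^ 2 := by
  obtain ⟨s1, hs1, e1⟩ := pow_val_add t1 h1 u.1 v.1
  obtain ⟨s2, hs2, e2⟩ := pow_val_add t2 h2 u.2.1 v.2.1
  obtain ⟨s3, hs3, e3⟩ := pow_val_add t3 h3 u.2.2 v.2.2
  refine ⟨s1 * s2 * s3, mul_ne_zero (mul_ne_zero hs1 hs2) hs3, ?_⟩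
  simp only [mon, Prod.fst_add, Prod.snd_add]
  calc _ = (t1 ^ u.1.val * t1 ^ v.1.val) * (t2 ^ u.2.1.val * t2 ^ v.2.1.val) *
        (t3 ^ u.2.2.val * t3 ^ v.2.2.val) := by ring
    _ = _ := by rw [e1, e2, e3]; ring

lemma isSquare_of_mul_sq {z s : K} (hs : s ≠ 0) (h : IsSquare (z * s ^ 2)) : IsSquare z := by
  obtain ⟨w, hw⟩ := h
  refine ⟨w / s, ?_⟩
  field_simp
  linear_combination hw

lemma Cl.mul (h1 : t1 ≠ 0) (h2 : t2 ≠ 0) (h3 : t3 ≠ 0) {z w : K} {u v : V3}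
    (hz : Cl t1 t2 t3 z u) (hw : Cl t1 t2 t3 w v) : Cl t1 t2 t3 (z * w) (u + v) := by
  refine ⟨mul_ne_zero hz.1 hw.1, ?_⟩
  obtain ⟨s, hs, e⟩ := mon_add h1 h2 h3 u v
  apply isSquare_of_mul_sq hs
  have := hz.2.mul hw.2
  have e' : z * w * mon t1 t2 t3 (u + v) * s ^ 2 =
      z * mon t1 t2 t3 u * (w * mon t1 t2 t3 v) := by
    linear_combination -(z * w) * e
  rw [e']
  exact this

/-- independence of the classes -/
def Ind (t1 t2 t3 : K) : Prop := ∀ i j n : ℕ, IsSquare (t1 ^ i * t2 ^ j * t3 ^ n) →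
      Even i ∧ Even j ∧ Even n

lemma even_val (a b : ZMod 2) (h : Even (a.val + b.val)) : a = b := by
  revert a b
  decide

lemma Cl.unique (hI : Ind t1 t2 t3) {z : K} {u v : V3}
    (hu : Cl t1 t2 t3 z u) (hv : Cl t1 t2 t3 z v) : u = v := by
  have h := hu.2.mul hv.2
  have hz := hu.1
  have h' : IsSquare (t1 ^ (u.1.val + v.1.val) * t2 ^ (u.2.1.val + v.2.1.val) *
      t3 ^ (u.2.2.val + v.2.2.val)) := by
    apply isSquare_of_mul_sq hz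
    have e : t1 ^ (u.1.val + v.1.val) * t2 ^ (u.2.1.val + v.2.1.val) *
      t3 ^ (u.2.2.val + v.2.2.val) * z ^ 2 = z * mon t1 t2 t3 u * (z * mon t1 t2 t3 v) := by
      simp only [mon, pow_add]
      ring
    rw [e]
    exact h
  obtain ⟨a, b, c⟩ := hI _ _ _ h'
  exact Prod.ext (even_val _ _ a) (Prod.ext (even_val _ _ b) (even_val _ _ c))

lemma Cl.congr {z w : K} {v : V3}
    (hz : Cl t1 t2 t3 z v) (hw : w ≠ 0) (h : IsSquare (w * z)) : Cl t1 t2 t3 w v := by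
  refine ⟨hw, ?_⟩
  apply isSquare_of_mul_sq hz.1
  have e : w * mon t1 t2 t3 v * z ^ 2 = w * z * (z * mon t1 t2 t3 v) := by ring
  rw [e]
  exact h.mul hz.2

lemma Cl.one : Cl t1 t2 t3 1 0 := by
  refine ⟨one_ne_zero, ?_⟩
  simp [mon]

lemma Cl.of_sq {z : K} (hz : z ≠ 0) (h : IsSquare z) : Cl t1 t2 t3 z 0 := by
  refine ⟨hz, ?_⟩
  simpa [mon] using h

/-! ## points -/

variable {D l : K}

/-- the pair of classes of a point -/
def PCl (t1 t2 t3 : K) {D l : K} (P : WD D l) (v : V3 × V3) : Prop :=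
  Cl t1 t2 t3 (d0 P) v.1 ∧ Cl t1 t2 t3 (d1 P) v.2

lemma crv_perm (D l : K) : crv D 0 (l * D) = crv 0 D (l * D) := by
  simp only [crv]
  congr 1 <;> ring

variable [DecidableEq K]

lemma PCl.add (h2 : (2 : K) ≠ 0) (hD : D ≠ 0) (h0 : l ≠ 0) (h1 : l ≠ 1)
    (ht1 : t1 ≠ 0) (ht2 : t2 ≠ 0) (ht3 : t3 ≠ 0) {P Q : WD D l} {u v : V3 × V3}
    (hP : PCl t1 t2 t3 P u) (hQ : PCl t1 t2 t3 Q v) : PCl t1 t2 t3 (P + Q) (u + v) := by
  have hlD : (0 : K) ≠ l * D := (mul_ne_zero h0 hD).symm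
  have hDlD : D ≠ l * D := by
    intro h
    apply h1
    have : (l - 1) * D = 0 := by linear_combination -h
    rcases mul_eq_zero.mp this with h | h
    · exact sub_eq_zero.mp h
    · exact absurd h hD
  constructor
  · have a := dl_add h2 (e1 := 0) (e2 := D) (e3 := l * D) (e := 0) (f := D) (g := l * D) rfl
      hD.symm hlD hDlD
    refine Cl.congr (hP.1.mul ht1 ht2 ht3 hQ.1) (a (P + Q) 0).1 (a P Q).2
  · have a := dl_add h2 (e1 := 0) (e2 := D) (e3 := l * D) (e := D) (f := 0) (g := l * D)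
      (crv_perm D l) hD hDlD hlD
    refine Cl.congr (hP.2.mul ht1 ht2 ht3 hQ.2) (a (P + Q) 0).1 (a P Q).2

lemma PCl.unique (hI : Ind t1 t2 t3) {P : WD D l} {u v : V3 × V3}
    (hu : PCl t1 t2 t3 P u) (hv : PCl t1 t2 t3 P v) : u = v :=
  Prod.ext (hu.1.unique hI hv.1) (hu.2.unique hI hv.2)

lemma PCl.zero : PCl t1 t2 t3 (0 : WD D l) 0 := ⟨Cl.one, Cl.one⟩

lemma PCl.neg (h2 : (2 : K) ≠ 0) (hD : D ≠ 0) (h0 : l ≠ 0) (h1 : l ≠ 1) {P : WD D l}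
    {u : V3 × V3} (hP : PCl t1 t2 t3 P u) : PCl t1 t2 t3 (-P) u := by
  obtain ⟨-, -, -, -, hneg, hcase, -, -, hd0, hd1, hdl, hgen⟩ := pt_basic h2 hD h0 h1
  rcases hcase P with rfl | ⟨ξ, hξ⟩
  · simpa using hP
  · have hξ' := hneg P ξ hξ
    unfold PCl
    have : d0 (-P) = d0 P ∧ d1 (-P) = d1 P := by
      by_cases e0 : ξ = 0
      · subst e0
        exact ⟨(hd0 _ hξ').1.trans (hd0 _ hξ).1.symm, (hd0 _ hξ').2.trans (hd0 _ hξ).2.symm⟩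
      by_cases e1 : ξ = 1
      · subst e1
        exact ⟨(hd1 _ hξ').1.trans (hd1 _ hξ).1.symm, (hd1 _ hξ').2.trans (hd1 _ hξ).2.symm⟩
      exact ⟨(hgen _ _ e0 e1 hξ').1.trans (hgen _ _ e0 e1 hξ).1.symm,
        (hgen _ _ e0 e1 hξ').2.trans (hgen _ _ e0 e1 hξ).2.symm⟩
    rw [this.1, this.2]
    exact hP

lemma V33_add_self (u : V3 × V3) : u + u = 0 := by
  revert u
  decide

lemma PCl.nsmul (h2 : (2 : K) ≠ 0) (hD : D ≠ 0) (h0 : l ≠ 0) (h1 : l ≠ 1)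
    (ht1 : t1 ≠ 0) (ht2 : t2 ≠ 0) (ht3 : t3 ≠ 0) {P : WD D l} {u : V3 × V3}
    (hP : PCl t1 t2 t3 P u) (n : ℕ) : PCl t1 t2 t3 (n • P) (n • u) := by
  induction n with
  | zero => simpa using PCl.zero
  | succ n ih =>
    rw [succ_nsmul, succ_nsmul]
    exact ih.add h2 hD h0 h1 ht1 ht2 ht3 hP

lemma V33_neg (u : V3 × V3) : -u = u := by
  revert u
  decide

lemma PCl.zsmul (h2 : (2 : K) ≠ 0) (hD : D ≠ 0) (h0 : l ≠ 0) (h1 : l ≠ 1)
    (ht1 : t1 ≠ 0) (ht2 : t2 ≠ 0) (ht3 : t3 ≠ 0) {P : WD D l} {u : V3 × V3}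
    (hP : PCl t1 t2 t3 P u) (n : ℤ) : PCl t1 t2 t3 (n • P) (n • u) := by
  obtain ⟨m, rfl | rfl⟩ := n.eq_nat_or_neg
  · simpa using hP.nsmul h2 hD h0 h1 ht1 ht2 ht3 m
  · have := (hP.nsmul h2 hD h0 h1 ht1 ht2 ht3 m).neg h2 hD h0 h1
    rw [neg_smul, neg_smul, V33_neg]
    simpa using this

end H81

end Pool.Agent.H918R3
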