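import Mathlib
import Pool.Agent.H918R3.H81Cls

set_option autoImplicit false

/-!
# The points `Q₁, Q₂, Q₃` and the 2-torsion: classes (helper81; used for PB0 and URi1)
-/

namespace Pool.Agent.H918R3

namespace H81

variable {K : Type*} [Field K]

/-- the data needed of `K = k(τ)`, `t = t(τ)` -/
structure Dat (t l : K) : Prop where
  h2 : (2 : K) ≠ 0
  h0 : l ≠ 0
  h1 : l ≠ 1
  t0 : t ≠ 0
  t1 : t - 1 ≠ 0
  tl : t - l ≠ 0
  sm : IsSquare (-1 : K)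
  sl : IsSquare l
  s1l : IsSquare (1 - l)
  ind : Ind t (t - 1) (t - l)
  r1 : IsSquare ((t - l) * (t - (1 - l)))
  r2 : IsSquare ((t - l) * (t - l⁻¹))

variable {t l : K}

lemma Dat.hD (d : Dat t l) : t * (t - 1) * (t - l) ≠ 0 :=
  mul_ne_zero (mul_ne_zero d.t0 d.t1) d.tl

/-- Cl from an explicit identity -/
lemma cl_intro {t1 t2 t3 z w : K} {v : V3} (hz : z ≠ 0) (h : z * mon t1 t2 t3 v = w ^ 2) :
    Cl t1 t2 t3 z v := ⟨hz, ⟨w, by rw [h]; ring⟩⟩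

lemma val0 : (0 : ZMod 2).val = 0 := rfl
lemma val1 : (1 : ZMod 2).val = 1 := rfl

variable [DecidableEq K]

lemma exists_pts (d : Dat t l) :
    ∃ Q1 Q2 Q3 T0 T1 T2 : WD (t * (t - 1) * (t - l)) l, HasX Q1 t ∧ HasX Q2 (1 - t) ∧
      HasX Q3 t⁻¹ ∧ HasX T0 0 ∧ HasX T1 1 ∧ HasX T2 l := by
  obtain ⟨-, hex, -⟩ := pt_basic d.h2 d.hD d.h0 d.h1
  obtain ⟨i, hi⟩ := d.sm
  obtain ⟨m, hm⟩ := d.sl
  obtain ⟨r1, hr1⟩ := d.r1
  obtain ⟨r2, hr2⟩ := d.r2
  have ht := d.t0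
  have hl := d.h0
  obtain ⟨Q1, h1⟩ := hex t (t * (t - 1) * (t - l)) (by ring)
  obtain ⟨Q2, h2⟩ := hex (1 - t) (i * t * (t - 1) * r1) (by
    linear_combination (t ^ 2 * (t - 1) ^ 2 * (t - l) * (t - (1 - l))) * hi +
      (i * i * t ^ 2 * (t - 1) ^ 2) * hr1)
  obtain ⟨Q3, h3⟩ := hex t⁻¹ (m * (t - 1) * r2 / t) (by
    have e : (t - l) * (t * l - 1) = m * m * (r2 * r2) := by
      rw [← hr2, ← hm]
      field_simp
    field_simp
    linear_combination (t - 1) ^ 2 * e)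
  obtain ⟨T0, h4⟩ := hex 0 0 (by ring)
  obtain ⟨T1, h5⟩ := hex 1 0 (by ring)
  obtain ⟨T2, h6⟩ := hex l 0 (by ring)
  exact ⟨Q1, Q2, Q3, T0, T1, T2, h1, h2, h3, h4, h5, h6⟩

/-- the pairs of classes of the six points -/
abbrev c1 : V3 × V3 := ((0, 1, 1), (1, 0, 1))
/-- class of the next point -/
abbrev c2 : V3 × V3 := ((1, 0, 1), (0, 1, 1))
/-- class of the next point -/
abbrev c3 : V3 × V3 := ((0, 1, 1), (0, 0, 1))
/-- class of the next point -/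
abbrev b0 : V3 × V3 := ((0, 0, 0), (1, 1, 1))
/-- class of the next point -/
abbrev b1 : V3 × V3 := ((1, 1, 1), (0, 0, 0))
/-- class of the next point -/
abbrev b2 : V3 × V3 := ((1, 1, 1), (1, 1, 1))

/-- the property of a pair of classes -/
abbrev PC (t l : K) (P : WD (t * (t - 1) * (t - l)) l) (v : V3 × V3) : Prop :=
  PCl t (t - 1) (t - l) P v

lemma cls_Q1 (d : Dat t l) {P : WD (t * (t - 1) * (t - l)) l} (hP : HasX P t) :
    PC t l P c1 := by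
  obtain ⟨-, -, -, -, -, -, -, -, -, -, -, hgen⟩ := pt_basic d.h2 d.hD d.h0 d.h1
  obtain ⟨e0, e1⟩ := hgen P t d.t0 (sub_ne_zero.mp d.t1) hP
  have hD := d.hD
  constructor
  · rw [e0]
    exact cl_intro (w := t * (t - 1) * (t - l)) (mul_ne_zero d.t0 hD) (by
      simp only [mon, val0, val1]; ring)
  · rw [e1]
    exact cl_intro (w := t * (t - 1) * (t - l)) (mul_ne_zero d.t1 hD) (by
      simp only [mon, val0, val1]; ring)

lemma cls_Q2 (d : Dat t l) {P : WD (t * (t - 1) * (t - l)) l} (hP : HasX P (1 - t)) :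
    PC t l P c2 := by
  obtain ⟨-, -, -, -, -, -, -, -, -, -, -, hgen⟩ := pt_basic d.h2 d.hD d.h0 d.h1
  have n0 : 1 - t ≠ 0 := fun h => d.t1 (by linear_combination -h)
  have n1 : 1 - t ≠ 1 := fun h => d.t0 (by linear_combination -h)
  obtain ⟨e0, e1⟩ := hgen P (1 - t) n0 n1 hP
  have hD := d.hD
  obtain ⟨i, hi⟩ := d.sm
  constructor
  · rw [e0]
    exact cl_intro (w := i * (t * (t - 1) * (t - l))) (mul_ne_zero n0 hD) (by
      simp only [mon, val0, val1]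
      linear_combination (t * (t - 1) * (t - l)) ^ 2 * hi)
  · rw [e1]
    exact cl_intro (w := i * (t * (t - 1) * (t - l)))
      (mul_ne_zero (fun h => d.t0 (by linear_combination -h)) hD) (by
      simp only [mon, val0, val1]
      linear_combination (t * (t - 1) * (t - l)) ^ 2 * hi)

lemma cls_Q3 (d : Dat t l) {P : WD (t * (t - 1) * (t - l)) l} (hP : HasX P t⁻¹) :
    PC t l P c3 := by
  obtain ⟨-, -, -, -, -, -, -, -, -, -, -, hgen⟩ := pt_basic d.h2 d.hD d.h0 d.h1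
  have ht := d.t0
  have n0 : t⁻¹ ≠ 0 := inv_ne_zero d.t0
  have n1 : t⁻¹ ≠ 1 := fun h => d.t1 (by
    field_simp at h
    linear_combination -h)
  obtain ⟨e0, e1⟩ := hgen P t⁻¹ n0 n1 hP
  have hD := d.hD
  obtain ⟨i, hi⟩ := d.sm
  constructor
  · rw [e0]
    exact cl_intro (w := (t - 1) * (t - l)) (mul_ne_zero n0 hD) (by
      simp only [mon, val0, val1]
      field_simp)
  · rw [e1]
    exact cl_intro (w := i * ((t - 1) * (t - l)))
      (mul_ne_zero (sub_ne_zero.mpr n1) hD) (by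
      simp only [mon, val0, val1]
      have : (t⁻¹ - 1) * (t * (t - 1) * (t - l)) = - ((t - 1) * ((t - 1) * (t - l))) := by
        field_simp
        ring
      rw [this]
      linear_combination ((t - 1) * (t - l)) ^ 2 * hi)

lemma cls_T0 (d : Dat t l) {P : WD (t * (t - 1) * (t - l)) l} (hP : HasX P 0) :
    PC t l P b0 := by
  obtain ⟨-, -, -, -, -, -, -, -, h, -, -, -⟩ := pt_basic d.h2 d.hD d.h0 d.h1
  obtain ⟨e0, e1⟩ := h P hP
  have hD := d.hD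
  obtain ⟨i, hi⟩ := d.sm
  obtain ⟨m, hm⟩ := d.sl
  constructor
  · rw [e0]
    exact cl_intro (w := m * (t * (t - 1) * (t - l))) (mul_ne_zero d.h0 (pow_ne_zero 2 hD)) (by
      simp only [mon, val0]
      linear_combination (t * (t - 1) * (t - l)) ^ 2 * hm)
  · rw [e1]
    exact cl_intro (w := i * (t * (t - 1) * (t - l))) (neg_ne_zero.mpr hD) (by
      simp only [mon, val1]
      linear_combination (t * (t - 1) * (t - l)) ^ 2 * hi)

lemma cls_T1 (d : Dat t l) {P : WD (t * (t - 1) * (t - l)) l} (hP : HasX P 1) :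
    PC t l P b1 := by
  obtain ⟨-, -, -, -, -, -, -, -, -, h, -, -⟩ := pt_basic d.h2 d.hD d.h0 d.h1
  obtain ⟨e0, e1⟩ := h P hP
  have hD := d.hD
  obtain ⟨m, hm⟩ := d.s1l
  constructor
  · rw [e0]
    exact cl_intro (w := (t * (t - 1) * (t - l))) hD (by
      simp only [mon, val1]
      ring)
  · rw [e1]
    exact cl_intro (w := m * (t * (t - 1) * (t - l)))
      (mul_ne_zero (sub_ne_zero.mpr d.h1.symm) (pow_ne_zero 2 hD)) (by
      simp only [mon, val0]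
      linear_combination (t * (t - 1) * (t - l)) ^ 2 * hm)

lemma cls_T2 (d : Dat t l) {P : WD (t * (t - 1) * (t - l)) l} (hP : HasX P l) :
    PC t l P b2 := by
  obtain ⟨-, -, -, -, -, -, -, -, -, -, h, -⟩ := pt_basic d.h2 d.hD d.h0 d.h1
  obtain ⟨e0, e1⟩ := h P hP
  have hD := d.hD
  obtain ⟨m, hm⟩ := d.s1l
  obtain ⟨i, hi⟩ := d.sm
  obtain ⟨r, hr⟩ := d.sl
  constructor
  · rw [e0]
    exact cl_intro (w := r * (t * (t - 1) * (t - l))) (mul_ne_zero d.h0 hD) (by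
      simp only [mon, val1]
      linear_combination (t * (t - 1) * (t - l)) ^ 2 * hr)
  · rw [e1]
    exact cl_intro (w := i * m * (t * (t - 1) * (t - l)))
      (mul_ne_zero (sub_ne_zero.mpr d.h1) hD) (by
      simp only [mon, val1]
      linear_combination (t * (t - 1) * (t - l)) ^ 2 * ((1 - l) * hi + i * i * hm))

/-- the classes of the two-torsion points -/
lemma cls_tors (d : Dat t l) {T : WD (t * (t - 1) * (t - l)) l} (hT : T + T = 0) :
    T = 0 ∨ PC t l T b0 ∨ PC t l T b1 ∨ PC t l T b2 := by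
  obtain ⟨-, -, -, -, -, -, h2t, -⟩ := pt_basic d.h2 d.hD d.h0 d.h1
  rcases (h2t T).mp hT with h | h | h | h
  · exact Or.inl h
  · exact Or.inr (Or.inl (cls_T0 d h))
  · exact Or.inr (Or.inr (Or.inl (cls_T1 d h)))
  · exact Or.inr (Or.inr (Or.inr (cls_T2 d h)))

lemma PC.add (d : Dat t l) {P Q : WD (t * (t - 1) * (t - l)) l} {u v : V3 × V3}
    (hP : PC t l P u) (hQ : PC t l Q v) : PC t l (P + Q) (u + v) :=
  PCl.add d.h2 d.hD d.h0 d.h1 d.t0 d.t1 d.tl hP hQ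

lemma PC.zsmul (d : Dat t l) {P : WD (t * (t - 1) * (t - l)) l} {u : V3 × V3}
    (hP : PC t l P u) (n : ℤ) : PC t l (n • P) (n • u) :=
  PCl.zsmul d.h2 d.hD d.h0 d.h1 d.t0 d.t1 d.tl hP n

lemma zsmul_eq (n : ℤ) (u : V3 × V3) : n • u = (((n : ZMod 2) • u.1.1, (n : ZMod 2) • u.1.2.1,
    (n : ZMod 2) • u.1.2.2), ((n : ZMod 2) • u.2.1, (n : ZMod 2) • u.2.2.1,
    (n : ZMod 2) • u.2.2.2)) := by
  refine Prod.ext (Prod.ext ?_ (Prod.ext ?_ ?_)) (Prod.ext ?_ (Prod.ext ?_ ?_)) <;> simp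

lemma even_of_cast {n : ℤ} (h : (n : ZMod 2) = 0) : ∃ m : ℤ, n = 2 * m := by
  obtain ⟨m, hm⟩ := (ZMod.intCast_zmod_eq_zero_iff_dvd n 2).mp h
  exact ⟨m, by simpa using hm⟩

/-- the classes of the two-torsion points -/
def vT : Fin 4 → V3 × V3 := ![0, b0, b1, b2]

lemma comb_aux : ∀ (a1 a2 a3 : ZMod 2) (j : Fin 4),
    ((a1 • c1.1.1, a1 • c1.1.2.1, a1 • c1.1.2.2), a1 • c1.2.1, a1 • c1.2.2.1, a1 • c1.2.2.2) +
    ((a2 • c2.1.1, a2 • c2.1.2.1, a2 • c2.1.2.2), a2 • c2.2.1, a2 • c2.2.2.1, a2 • c2.2.2.2) +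
    ((a3 • c3.1.1, a3 • c3.1.2.1, a3 • c3.1.2.2), a3 • c3.2.1, a3 • c3.2.2.1, a3 • c3.2.2.2) +
    vT j = 0 → a1 = 0 ∧ a2 = 0 ∧ a3 = 0 ∧ j = 0 := by
  decide

/-- linear independence of the classes, including 2-torsion -/
lemma indep (d : Dat t l) {Q1 Q2 Q3 T : WD (t * (t - 1) * (t - l)) l} (h1 : HasX Q1 t)
    (h2 : HasX Q2 (1 - t)) (h3 : HasX Q3 t⁻¹) (hT : T + T = 0) (n1 n2 n3 : ℤ)
    (h : PC t l (n1 • Q1 + n2 • Q2 + n3 • Q3 + T) 0) :
    (∃ m, n1 = 2 * m) ∧ (∃ m, n2 = 2 * m) ∧ (∃ m, n3 = 2 * m) ∧ T = 0 := by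
  have k1 := PC.zsmul d (cls_Q1 d h1) n1
  have k2 := PC.zsmul d (cls_Q2 d h2) n2
  have k3 := PC.zsmul d (cls_Q3 d h3) n3
  have k := PC.add d (PC.add d k1 k2) k3
  have fin : ∀ v : V3 × V3, PC t l T v → (n1 • c1 + n2 • c2 + n3 • c3) + v = 0 := fun v hv =>
    PCl.unique d.ind (PC.add d k hv) h
  have aux : ∀ j : Fin 4, (n1 • c1 + n2 • c2 + n3 • c3) + vT j = 0 →
      (n1 : ZMod 2) = 0 ∧ (n2 : ZMod 2) = 0 ∧ (n3 : ZMod 2) = 0 ∧ j = 0 := by
    intro j e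
    rw [zsmul_eq, zsmul_eq, zsmul_eq] at e
    exact comb_aux _ _ _ _ e
  rcases cls_tors d hT with hT' | hT' | hT' | hT'
  · obtain ⟨a, b, c, -⟩ := aux 0 (fin 0 (by rw [hT']; exact PCl.zero))
    exact ⟨even_of_cast a, even_of_cast b, even_of_cast c, hT'⟩
  · obtain ⟨-, -, -, e⟩ := aux 1 (fin _ hT')
    exact absurd e (by decide)
  · obtain ⟨-, -, -, e⟩ := aux 2 (fin _ hT')
    exact absurd e (by decide)
  · obtain ⟨-, -, -, e⟩ := aux 3 (fin _ hT')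
    exact absurd e (by decide)

end H81

end Pool.Agent.H918R3
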