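import Mathlib
import Pool.Agent.H918R3.Defs

set_option autoImplicit false

/-! Task COV (helper649). -/

namespace Pool.Agent.H918R3

open Polynomial

variable {K : Type*} [Field K]

theorem COV_eq {D l x y : K} (h : (crv 0 D (l * D)).toAffine.Nonsingular x y) :
    y ^ 2 = x * (x - D) * (x - l * D) := by
  have h1 := h.1
  rw [WeierstrassCurve.Affine.equation_iff] at h1
  simp only [crv] at h1
  linear_combination h1

theorem COV_ns (h2 : (2 : K) ≠ 0) {D l x y : K} (hD : D ≠ 0) (h0 : l ≠ 0) (h1 : l ≠ 1)
    (h : y ^ 2 = x * (x - D) * (x - l * D)) : (crv 0 D (l * D)).toAffine.Nonsingular x y := by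
  rw [WeierstrassCurve.Affine.nonsingular_iff, WeierstrassCurve.Affine.equation_iff]
  simp only [crv]
  refine ⟨by linear_combination h, ?_⟩
  by_cases hy : y = 0
  · left
    rw [hy] at h
    have h' : x * (x - D) * (x - l * D) = 0 := by rw [← h]; ring
    intro hd
    have h1' : l - 1 ≠ 0 := sub_ne_zero.mpr h1
    rcases mul_eq_zero.mp h' with h' | h'
    · rcases mul_eq_zero.mp h' with h' | h'
      · rw [h'] at hd
        have : l * D ^ 2 = 0 := by linear_combination -hd
        exact mul_ne_zero h0 (pow_ne_zero 2 hD) this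
      · have hx : x = D := sub_eq_zero.mp h'
        rw [hx] at hd
        have : (l - 1) * D ^ 2 = 0 := by linear_combination hd
        exact mul_ne_zero h1' (pow_ne_zero 2 hD) this
    · have hx : x = l * D := sub_eq_zero.mp h'
      rw [hx] at hd
      have : l * (l - 1) * D ^ 2 = 0 := by linear_combination -hd
      exact mul_ne_zero (mul_ne_zero h0 h1') (pow_ne_zero 2 hD) this
  · right
    intro h'
    apply hy
    have : 2 * y = 0 := by linear_combination h'
    exact (mul_eq_zero.mp this).resolve_left h2

theorem COV_d0_zero {D l x y : K} (h : (crv 0 D (l * D)).toAffine.Nonsingular x y) (hx : x = 0) :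
    d0 (D := D) (l := l) (.some x y h) = l * D ^ 2 := by
  exact (if_pos hx).trans (by ring)

theorem COV_d0_ne {D l x y : K} (h : (crv 0 D (l * D)).toAffine.Nonsingular x y) (hx : x ≠ 0) :
    d0 (D := D) (l := l) (.some x y h) = x := by
  exact (if_neg hx).trans (by ring)

theorem COV_d1_D {D l x y : K} (h : (crv 0 D (l * D)).toAffine.Nonsingular x y) (hx : x = D) :
    d1 (D := D) (l := l) (.some x y h) = (1 - l) * D ^ 2 := by
  exact (if_pos hx).trans (by ring)

theorem COV_d1_ne {D l x y : K} (h : (crv 0 D (l * D)).toAffine.Nonsingular x y) (hx : x ≠ D) :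
    d1 (D := D) (l := l) (.some x y h) = x - D := by
  exact if_neg hx

/-- COV -/
theorem cov_iff [DecidableEq K] (h2 : (2 : K) ≠ 0) {D l c : K} (hD : D ≠ 0) (h0 : l ≠ 0)
    (h1 : l ≠ 1) (hc : c ≠ 0) (hl : IsSquare l) :
    Cov D l c ↔ ∃ P : WD D l, P ≠ 0 ∧ IsSquare (d0 P) ∧ IsSquare (c * d1 P) := by
  obtain ⟨s, hs⟩ := hl
  have h1' : (1 : K) - l ≠ 0 := sub_ne_zero.mpr h1.symm
  constructor
  · rintro ⟨α, β, γ, hβ, hγ⟩
    have hns : (crv 0 D (l * D)).toAffine.Nonsingular (α ^ 2) (c * α * β * γ) := by
      apply COV_ns h2 hD h0 h1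
      have e1 : α ^ 2 - D = c * β ^ 2 := by linear_combination hβ
      have e2 : α ^ 2 - l * D = c * γ ^ 2 := by linear_combination hγ
      rw [e1, e2]
      ring
    refine ⟨.some _ _ hns, ?_, ?_, ?_⟩
    · exact fun h => nomatch h
    · by_cases hα : α ^ 2 = 0
      · rw [COV_d0_zero hns hα]
        exact ⟨s * D, by rw [hs]; ring⟩
      · rw [COV_d0_ne hns hα]
        exact ⟨α, by ring⟩
    · by_cases hα : α ^ 2 = D
      · rw [COV_d1_D hns hα]
        refine ⟨c * γ * α, ?_⟩
        have e : (1 - l) * D = c * γ ^ 2 := by linear_combination hγ - hα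
        calc c * ((1 - l) * D ^ 2) = c * ((1 - l) * D) * D := by ring
          _ = c * (c * γ ^ 2) * α ^ 2 := by rw [e, hα]
          _ = _ := by ring
      · rw [COV_d1_ne hns hα]
        exact ⟨c * β, by linear_combination c * hβ⟩
  · rintro ⟨P, hP, hd0, hd1⟩
    rcases P with _ | ⟨x, y, h⟩
    · exact absurd rfl hP
    · have heq := COV_eq h
      obtain ⟨r, hr⟩ := hd0
      obtain ⟨t, ht⟩ := hd1
      by_cases hx0 : x = 0
      · rw [COV_d1_ne h (by rw [hx0]; exact hD.symm), hx0] at ht
        refine ⟨0, t / c, s * t / c, ?_, ?_⟩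
        · field_simp
          linear_combination ht
        · field_simp
          linear_combination l * ht + t ^ 2 * hs
      · by_cases hxD : x = D
        · rw [COV_d0_ne h hx0, hxD] at hr
          rw [COV_d1_D h hxD] at ht
          have hr0 : r ≠ 0 := by rintro rfl; exact hD (by simpa using hr)
          refine ⟨r, 0, t / (c * r), ?_, ?_⟩
          · linear_combination -hr
          · have e : c * ((1 - l) * D ^ 2) * r ^ 2 * c = c * (c * r ^ 2) * ((1 - l) * D ^ 2) := by
              ring
            have hDr : D = r ^ 2 := by rw [hr]; ring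
            have ht2 : t ^ 2 = c * ((1 - l) * r ^ 4) := by
              rw [pow_two, ← ht, hDr]; ring
            rw [div_pow, ht2, hDr]
            field_simp
            ring
        · rw [COV_d0_ne h hx0] at hr
          rw [COV_d1_ne h hxD] at ht
          have hr0 : r ≠ 0 := by rintro rfl; exact hx0 (by simpa using hr)
          have ht0 : t ≠ 0 := by
            rintro rfl
            have : c * (x - D) = 0 := by simpa using ht
            exact mul_ne_zero hc (sub_ne_zero.mpr hxD) this
          refine ⟨r, t / c, y / (r * t) , ?_, ?_⟩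
          · field_simp
            linear_combination (-c) * hr + ht
          · have hy2 : y ^ 2 = r ^ 2 * (t ^ 2 / c) * (r ^ 2 - l * D) := by
              rw [heq]
              have e1 : x - D = t ^ 2 / c := by field_simp; linear_combination ht
              rw [e1, hr]
              ring
            rw [div_pow, hy2]
            field_simp
            ring

end Pool.Agent.H918R3
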