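import Mathlib
import Pool.Agent.H918R3.H81Pts
import Pool.Agent.H918R3.TCOV
import Pool.Agent.H918R3.TFD

set_option autoImplicit false

/-!
# Task PB0 (helper81): `Cov` fails for the curve over `k(τ)`
-/

namespace Pool.Agent.H918R3

open Polynomial

variable {k : Type*} [Field k]

namespace H81

lemma dat_of_genL [IsAlgClosed k] {l : k} (hl : GenL l)
    (hcl : tF l ≠ 0 ∧ tF l ≠ 1 ∧ tF l - RatFunc.C l ≠ 0 ∧
    (∀ i j n : ℕ, IsSquare (tF l ^ i * (tF l - 1) ^ j * (tF l - RatFunc.C l) ^ n) →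
      Even i ∧ Even j ∧ Even n) ∧
    (IsSquare ((tF l - RatFunc.C l) * (tF l - RatFunc.C (1 - l)))) ∧
    (IsSquare ((tF l - RatFunc.C l) * (tF l - RatFunc.C l⁻¹)))) :
    Dat (tF l) (RatFunc.C l) := by
  obtain ⟨a1, a2, a3, a4, a5, a6⟩ := hcl
  obtain ⟨l2, l0, l1, -⟩ := hl
  have sq : ∀ c : k, IsSquare (RatFunc.C c : RatFunc k) := by
    intro c
    obtain ⟨z, hz⟩ := IsAlgClosed.exists_eq_mul_self c
    exact ⟨RatFunc.C z, by rw [← map_mul, ← hz]⟩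
  have hC : Function.Injective (RatFunc.C : k →+* RatFunc k) := RingHom.injective _
  refine ⟨?_, ?_, ?_, a1, sub_ne_zero.mpr a2, a3, ?_, sq l, ?_, a4, ?_, ?_⟩
  · intro h
    apply l2
    apply hC
    rw [map_ofNat, map_zero]
    exact h
  · intro h
    exact l0 (hC (by rw [h, map_zero]))
  · intro h
    exact l1 (hC (by rw [h, map_one]))
  · simpa using sq (-1)
  · simpa using sq (1 - l)
  · simpa using a5
  · simpa using a6

end H81

open H81 in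
/-- PB0 (may use B0, B1a, COV, IND) -/
theorem not_cov [IsAlgClosed k] [DecidableEq (RatFunc k)] {l : k} (hl : GenL l)
    (hm : ∀ (Q1 Q2 Q3 : WD (DF l) (RatFunc.C l)), HasX Q1 (tF l) → HasX Q2 (1 - tF l) →
      HasX Q3 (tF l)⁻¹ → ∀ Q : WD (DF l) (RatFunc.C l),
      ∃ (n1 n2 n3 : ℤ) (T : WD (DF l) (RatFunc.C l)), T + T = 0 ∧
        (4 : ℤ) • Q = n1 • Q1 + n2 • Q2 + n3 • Q3 + T) :
    ¬ Cov (DF l) (RatFunc.C l) (cF l) := by
  have d := dat_of_genL hl (tF_classes hl)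
  unfold DF at hm ⊢
  intro hcov
  obtain ⟨Q1, Q2, Q3, -, -, -, h1, h2, h3, -⟩ := exists_pts d
  have hc : cF l ≠ 0 := mul_ne_zero d.t0 d.tl
  obtain ⟨Q, -, hs0, hs1⟩ := (cov_iff d.h2 d.hD d.h0 d.h1 hc d.sl).mp hcov
  -- the class of `Q`
  have hQ0 : d0 Q ≠ 0 ∧ d1 Q ≠ 0 := by
    have hlD : (0 : RatFunc k) ≠ RatFunc.C l * (tF l * (tF l - 1) * (tF l - RatFunc.C l)) :=
      (mul_ne_zero d.h0 d.hD).symm
    have hDlD : (tF l * (tF l - 1) * (tF l - RatFunc.C l)) ≠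
        RatFunc.C l * (tF l * (tF l - 1) * (tF l - RatFunc.C l)) := by
      intro h
      apply d.h1
      have : (RatFunc.C l - 1) * (tF l * (tF l - 1) * (tF l - RatFunc.C l)) = 0 := by
        linear_combination -h
      rcases mul_eq_zero.mp this with h | h
      · exact sub_eq_zero.mp h
      · exact absurd h d.hD
    exact ⟨(dl_add d.h2 rfl d.hD.symm hlD hDlD Q 0).1,
      (dl_add d.h2 (crv_perm _ _) d.hD hDlD hlD Q 0).1⟩
  have hQ : PC (tF l) (RatFunc.C l) Q ((0, 0, 0), (1, 0, 1)) := by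
    refine ⟨Cl.of_sq hQ0.1 hs0, hQ0.2, ?_⟩
    have : d1 Q * mon (tF l) (tF l - 1) (tF l - RatFunc.C l) (1, 0, 1) = cF l * d1 Q := by
      simp only [mon, val0, val1, cF]
      ring
    rw [this]
    exact hs1
  -- two halvings
  obtain ⟨n1, n2, n3, T, hT, e⟩ := hm Q1 Q2 Q3 h1 h2 h3 Q
  have e4 : PC (tF l) (RatFunc.C l) ((4 : ℤ) • Q) 0 := by
    have := PC.zsmul d hQ 4
    have e0 : (4 : ℤ) • (((0, 0, 0), (1, 0, 1)) : V3 × V3) = 0 := by decide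
    rwa [e0] at this
  rw [e] at e4
  obtain ⟨⟨m1, rfl⟩, ⟨m2, rfl⟩, ⟨m3, rfl⟩, rfl⟩ := indep d h1 h2 h3 hT n1 n2 n3 e4
  set T' := (2 : ℤ) • Q - (m1 • Q1 + m2 • Q2 + m3 • Q3) with hT'
  have eT' : T' + T' = 0 := by
    have : T' + T' = (4 : ℤ) • Q - ((2 * m1) • Q1 + (2 * m2) • Q2 + (2 * m3) • Q3 + 0) := by
      rw [hT']
      module
    rw [this, e, sub_self]
  have e2 : (2 : ℤ) • Q = m1 • Q1 + m2 • Q2 + m3 • Q3 + T' := by
    rw [hT']
    module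
  have e2' : PC (tF l) (RatFunc.C l) ((2 : ℤ) • Q) 0 := by
    have := PC.zsmul d hQ 2
    have e0 : (2 : ℤ) • (((0, 0, 0), (1, 0, 1)) : V3 × V3) = 0 := by decide
    rwa [e0] at this
  rw [e2] at e2'
  obtain ⟨⟨r1, hr1⟩, ⟨r2, hr2⟩, ⟨r3, hr3⟩, hz⟩ := indep d h1 h2 h3 eT' m1 m2 m3 e2'
  set T'' := Q - (r1 • Q1 + r2 • Q2 + r3 • Q3) with hT''
  have eT'' : T'' + T'' = 0 := by
    have : T'' + T'' = (2 : ℤ) • Q - ((2 * r1) • Q1 + (2 * r2) • Q2 + (2 * r3) • Q3 + 0) := by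
      rw [hT'']
      module
    rw [this, e2, hz, hr1, hr2, hr3, sub_self]
  have e1 : Q = r1 • Q1 + r2 • Q2 + r3 • Q3 + T'' := by
    rw [hT'']
    abel
  -- contradiction
  have k1 := PC.zsmul d (cls_Q1 d h1) r1
  have k2 := PC.zsmul d (cls_Q2 d h2) r2
  have k3 := PC.zsmul d (cls_Q3 d h3) r3
  have kk := PC.add d (PC.add d k1 k2) k3
  have fin : ∀ v : V3 × V3, PC (tF l) (RatFunc.C l) T'' v →
      (r1 • c1 + r2 • c2 + r3 • c3) + v = ((0, 0, 0), (1, 0, 1)) := fun v hv =>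
    PCl.unique d.ind (PC.add d kk hv) (by rw [← e1]; exact hQ)
  have aux : ∀ j : Fin 4, ¬ (r1 • c1 + r2 • c2 + r3 • c3) + vT j = ((0, 0, 0), (1, 0, 1)) := by
    intro j h
    rw [zsmul_eq, zsmul_eq, zsmul_eq] at h
    generalize (r1 : ZMod 2) = a1 at h
    generalize (r2 : ZMod 2) = a2 at h
    generalize (r3 : ZMod 2) = a3 at h
    clear * - h
    revert a1 a2 a3 j
    decide
  rcases cls_tors d eT'' with h | h | h | h
  · exact aux 0 (fin 0 (by rw [h]; exact PCl.zero))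
  · exact aux 1 (fin _ h)
  · exact aux 2 (fin _ h)
  · exact aux 3 (fin _ h)

end Pool.Agent.H918R3
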