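import Pool.Agent.H918R3.Defs
import Pool.Agent.H918R3.TB0
import Pool.Agent.H918R3.TB2c

set_option autoImplicit false

/-!
# Task PBp1 (helper1): `charp_nonscalar`

`charp_nonscalar_of` has the statements of tasks B1a, B1c, B2a, B2b (for the given curve) as
hypotheses.
-/

namespace Pool.Agent.H918R3

open Polynomial

namespace TPBp1

variable {K : Type*} [Field K]

theorem dl_neg [DecidableEq K] {e1 e2 e3 : K} (e f g : K) (P : Pt e1 e2 e3) :
    dl e f g (-P) = dl e f g P := by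
  rcases P with _ | ⟨x, y, h⟩
  · rfl
  · rw [WeierstrassCurve.Affine.Point.neg_some]
    rfl

theorem sq_cancel {a b : K} (hb : b ≠ 0) (h : IsSquare (a * b)) (hb2 : IsSquare b) : IsSquare a := by
  obtain ⟨r, hr⟩ := h
  obtain ⟨s, hs⟩ := hb2
  have hs0 : s ≠ 0 := by
    rintro rfl
    exact hb (by rw [hs, mul_zero])
  refine ⟨r / s, ?_⟩
  rw [hs] at hr
  field_simp
  linear_combination hr

end TPBp1

open TPBp1

variable {k : Type*} [Field k]

/-- the degree of `D` is odd -/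
theorem not_isSquare_cubic (l : k) :
    ¬ IsSquare ((RatFunc.X : RatFunc k) * (RatFunc.X - 1) * (RatFunc.X - RatFunc.C l)) := by
  have e : (RatFunc.X : RatFunc k) * (RatFunc.X - 1) * (RatFunc.X - RatFunc.C l) =
      algebraMap k[X] (RatFunc k) (X * (X - C 1) * (X - C l)) := by
    simp [RatFunc.algebraMap_X, RatFunc.algebraMap_C]
  have hne : (X * (X - C 1) * (X - C l) : k[X]) ≠ 0 :=
    mul_ne_zero (mul_ne_zero X_ne_zero (X_sub_C_ne_zero 1)) (X_sub_C_ne_zero l)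
  have hdeg : (X * (X - C 1) * (X - C l) : k[X]).natDegree = 3 := by
    rw [natDegree_mul (mul_ne_zero X_ne_zero (X_sub_C_ne_zero 1)) (X_sub_C_ne_zero l),
      natDegree_mul X_ne_zero (X_sub_C_ne_zero 1), natDegree_X, natDegree_X_sub_C,
      natDegree_X_sub_C]
  rintro ⟨w, hw⟩
  rw [e] at hw
  have hw0 : w ≠ 0 := by
    rintro rfl
    rw [mul_zero] at hw
    exact hne ((map_eq_zero_iff _ (RatFunc.algebraMap_injective k)).1 hw)
  have h1 := congrArg RatFunc.intDegree hw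
  rw [RatFunc.intDegree_polynomial, RatFunc.intDegree_mul hw0 hw0, hdeg] at h1
  omega

theorem rht_X_pow (p : ℕ) : rht ((RatFunc.X : RatFunc k) ^ p) = p := by
  have e : (RatFunc.X : RatFunc k) ^ p = algebraMap k[X] (RatFunc k) (X ^ p) := by
    rw [map_pow, RatFunc.algebraMap_X]
  unfold rht
  rw [e, RatFunc.num_algebraMap, RatFunc.denom_algebraMap]
  simp

/-- PBp1 -/
theorem charp_nonscalar_of (p : ℕ) [Fact p.Prime] (hp : p ≠ 2) [IsAlgClosed k] [CharP k p]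
    [DecidableEq (RatFunc k)] {l : k} (hl : l ^ p = l) (h0 : l ≠ 0) (h1 : l ≠ 1) {D : RatFunc k}
    (hD : D = RatFunc.X * (RatFunc.X - 1) * (RatFunc.X - RatFunc.C l))
    (hdbl : ∀ P : WD D (RatFunc.C l), ht (P + P) = 4 * ht P)
    (hsub : ∀ P Q : WD D (RatFunc.C l), ht (P + Q) + ht (P - Q) ≤ 2 * ht P + 2 * ht Q)
    (hadd0 : ∀ P Q : WD D (RatFunc.C l), d0 P ≠ 0 ∧ IsSquare (d0 (P + Q) * (d0 P * d0 Q)))
    (hadd1 : ∀ P Q : WD D (RatFunc.C l), d1 P ≠ 0 ∧ IsSquare (d1 (P + Q) * (d1 P * d1 Q)))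
    (hhalf : ∀ P : WD D (RatFunc.C l), IsSquare (d0 P) → IsSquare (d1 P) →
      ∃ Q : WD D (RatFunc.C l), P = Q + Q)
    (P0 : WD D (RatFunc.C l)) (hP0 : HasX P0 RatFunc.X) :
    ∃ R : WD D (RatFunc.C l), ∀ (m : ℤ) (T : WD D (RatFunc.C l)), T + T = 0 →
      ¬ (IsSquare (d0 R * d0 (m • P0 + T)) ∧ IsSquare (d1 R * d1 (m • P0 + T))) := by
  have hpp : p.Prime := Fact.out
  have h2 : (2 : k) ≠ 0 := by
    intro h
    have h3 : ((2 : ℕ) : k) = 0 := by exact_mod_cast h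
    rw [CharP.cast_eq_zero_iff k p] at h3
    exact hp ((Nat.prime_dvd_prime_iff_eq hpp Nat.prime_two).1 h3)
  have hD2 : ¬ IsSquare D := by
    rw [hD]
    exact not_isSquare_cubic l
  have hD0 : D ≠ 0 := by
    rintro h
    exact hD2 ⟨0, by simp [h]⟩
  have h2' : (2 : RatFunc k) ≠ 0 := by
    have : (2 : RatFunc k) = RatFunc.C 2 := (map_ofNat (RatFunc.C (K := k)) 2).symm
    rw [this]
    exact (_root_.map_ne_zero _).2 h2
  have h0' : (RatFunc.C l : RatFunc k) ≠ 0 := (_root_.map_ne_zero _).2 h0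
  have h1' : (RatFunc.C l : RatFunc k) ≠ 1 := by
    rw [← map_one (RatFunc.C (K := k))]
    exact fun h => h1 (RatFunc.C_injective h)
  obtain ⟨-, b2, -⟩ := pt_basic h2' hD0 h0' h1'
  -- the Frobenius point
  have hodd : Odd p := hpp.odd_of_ne_two hp
  have : CharP (RatFunc k) p := by
    have := charP_of_injective_algebraMap (algebraMap k (RatFunc k)).injective p
    exact this
  obtain ⟨RF, hRF⟩ : ∃ P : WD D (RatFunc.C l), HasX P (RatFunc.X ^ p) := by
    obtain ⟨m, hm⟩ := hodd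
    refine b2 (RatFunc.X ^ p) (D ^ (m + 1)) ?_
    have e1 : (RatFunc.X : RatFunc k) ^ p - 1 = (RatFunc.X - 1) ^ p := by
      rw [sub_pow_char, one_pow]
    have e2 : (RatFunc.X : RatFunc k) ^ p - RatFunc.C l = (RatFunc.X - RatFunc.C l) ^ p := by
      rw [sub_pow_char, ← map_pow, hl]
    rw [e1, e2, ← mul_pow, ← mul_pow, ← hD, ← pow_mul, mul_comm D, ← pow_succ]
    congr 1
    omega
  by_contra hcon
  push Not at hcon
  have H : ∀ R : WD D (RatFunc.C l), ∃ (m : ℤ) (T S : WD D (RatFunc.C l)), T + T = 0 ∧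
      R = m • P0 + T + (S + S) := by
    intro R
    obtain ⟨m, T, hT, hs0, hs1⟩ := hcon R
    obtain ⟨Q, hQ⟩ : ∃ Q, Q = m • P0 + T := ⟨_, rfl⟩
    rw [← hQ] at hs0 hs1
    have k0 : IsSquare (d0 (R - Q)) := by
      have h3 := (hadd0 R (-Q)).2
      have e : d0 (-Q) = d0 Q := dl_neg _ _ _ Q
      rw [e, ← sub_eq_add_neg] at h3
      exact sq_cancel (mul_ne_zero (hadd0 R R).1 (hadd0 Q Q).1) h3 hs0
    have k1 : IsSquare (d1 (R - Q)) := by
      have h3 := (hadd1 R (-Q)).2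
      have e : d1 (-Q) = d1 Q := dl_neg _ _ _ Q
      rw [e, ← sub_eq_add_neg] at h3
      exact sq_cancel (mul_ne_zero (hadd1 R R).1 (hadd1 Q Q).1) h3 hs1
    obtain ⟨S, hS⟩ := hhalf _ k0 k1
    refine ⟨m, T, S, hT, ?_⟩
    rw [← hQ, ← hS]
    abel
  have hhP0 : ht P0 = 1 := by
    have := rht_X_pow (k := k) 1
    rw [pow_one] at this
    rw [ht_hasX hD0 hP0, this]
  obtain ⟨n, T, hT, hR⟩ := descent_of h2 hD2 h0 h1 hdbl hsub P0 hhP0.le H RF
  obtain ⟨-, z1, z2⟩ := ht_zsmul_of hdbl hsub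
  have h5 : ht RF = n.natAbs ^ 2 := by
    rw [hR, (z2 _ T hT).1, z1, hhP0, mul_one]
  rw [ht_hasX hD0 hRF, rht_X_pow] at h5
  exact hpp.prime.irreducible.not_isSquare ⟨n.natAbs, by rw [h5, sq]⟩

end Pool.Agent.H918R3
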