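import Pool.Agent.H918R3.TC1
import Pool.Agent.H918R3.TCOV
import Pool.Agent.H918R3.TPBp1
import Pool.Agent.H918R3.TFD

set_option autoImplicit false

/-!
Task PBp2.
-/

namespace Pool.Agent.H918R3

open Polynomial

namespace PBp2

/-! ### linear algebra over `F_2` -/

/-- the three functionals -/
def fF (w : Fin 3) (u v : Ex) : Bool :=
  match w with
  | 0 => xor (xor u.1 u.2.2) (xor v.2.1 v.2.2)
  | 1 => xor (xor u.2.1 u.2.2) (xor v.1 v.2.2)
  | 2 => xor (xor u.1 u.2.1) (xor v.2.1 v.2.2)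

/-- the three linear maps on exponents -/
def MM (w : Fin 3) (e : Ex) : Ex :=
  match w with
  | 0 => exM (true, false, false) (false, true, false) (false, false, true) e
  | 1 => exM (false, true, false) (true, false, false) (false, false, true) e
  | 2 => exM (true, false, false) (true, true, false) (true, false, true) e

theorem scalar_fact : ∀ u v : Ex, fF 0 u v = false → fF 1 u v = false → fF 2 u v = false →
    ∃ m i j : Bool,
      u = exA (exS m (false, true, true)) (exA (exS i (true, true, true))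
        (exS j (false, false, false))) ∧
      v = exA (exS m (true, false, true)) (exA (exS i (false, false, false))
        (exS j (true, true, true))) := by
  rintro ⟨u0, u1, u2⟩ ⟨v0, v1, v2⟩ h1 h2 h3
  refine ⟨xor u1 u0, u0, v1, ?_⟩
  cases u0 <;> cases u1 <;> cases u2 <;> cases v0 <;> cases v1 <;> cases v2 <;>
    first | decide | exact absurd h1 (by decide) | exact absurd h2 (by decide) |
      exact absurd h3 (by decide)

/-- sums of the generators -/
def gS (n : Bool × Bool × Bool × Bool × Bool) : Ex × Ex :=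
  (exA (exA (exA (exA (exS n.1 (MM 0 (false, true, true))) (exS n.2.1 (MM 1 (false, true, true))))
      (exS n.2.2.1 (MM 2 (false, true, true)))) (exS n.2.2.2.1 (false, false, false)))
      (exS n.2.2.2.2 (true, true, true)),
    exA (exA (exA (exA (exS n.1 (MM 0 (true, false, true))) (exS n.2.1 (MM 1 (true, false, true))))
      (exS n.2.2.1 (MM 2 (true, false, true)))) (exS n.2.2.2.1 (true, true, true)))
      (exS n.2.2.2.2 (false, false, false)))

theorem span_fact : ∀ (w : Fin 3) (u v : Ex), fF w u v = true →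
    ∃ n : Bool × Bool × Bool × Bool × Bool,
      exA (MM w u) (gS n).1 = (false, false, false) ∧ exA (MM w v) (gS n).2 = (true, false, true) := by
  rintro w ⟨u0, u1, u2⟩ ⟨v0, v1, v2⟩ h
  set U := MM w (u0, u1, u2) with hU
  set V := exA (MM w (v0, v1, v2)) (true, false, true) with hV
  refine ⟨(xor V.1 (xor V.2.1 (xor U.2.1 U.2.2)), xor U.2.1 U.2.2,
    xor (xor U.2.1 (xor U.1 (xor U.2.1 U.2.2))) (xor V.1 (xor V.2.1 (xor U.2.1 U.2.2))),
    xor V.2.1 (xor U.2.1 U.2.2), xor U.1 (xor U.2.1 U.2.2)), ?_⟩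
  rw [hV, hU]
  clear hU hV U V
  revert h
  revert u0 u1 u2 v0 v1 v2
  revert w
  decide


section

variable {K : Type*} [Field K]

theorem Cls_sq {b : K × K × K} (hb : BNZ b) {z z' : K} {e : Ex} (h : Cls b z e)
    (h' : Cls b z' e) : IsSquare (z * z') := by
  have h1 := h.2.mul h'.2
  have h2 : z * mon b e * (z' * mon b e) = z * z' * (mon b e) ^ 2 := by ring
  rw [h2] at h1
  exact sq_cancel (mon_ne hb e) h1

open Classical in
theorem d0_eq {D l x y : K} (h) : d0 (.some x y h : WD D l) =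
    if x = 0 then (0 - D) * (0 - l * D) else x - 0 := rfl

open Classical in
theorem d1_eq {D l x y : K} (h) : d1 (.some x y h : WD D l) =
    if x = D then (D - 0) * (D - l * D) else x - D := rfl

theorem tr_cls {K' : Type*} [Field K'] [DecidableEq K] [DecidableEq K'] (φ : K →+* K') (u : K')
    (hu : u ≠ 0) {D l : K} {D' l' : K'} (hDD : D ≠ 0) (h0 : l ≠ 0) (h1 : l ≠ 1)
    (hD : D' = u ^ 2 * φ D) (hl : l' = φ l) (f : WD D l →+ WD D' l') (hf : IsTr φ u f)
    (P : WD D l) :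
    (d0 P ≠ 0 ∧ d0 (f P) ≠ 0 ∧ IsSquare (φ (d0 P) * d0 (f P))) ∧
    (d1 P ≠ 0 ∧ d1 (f P) ≠ 0 ∧ IsSquare (φ (d1 P) * d1 (f P))) := by
  have hu2 : u ^ 2 ≠ 0 := pow_ne_zero 2 hu
  have hφD : φ D ≠ 0 := (map_ne_zero φ).mpr hDD
  have hφl : φ l ≠ 0 := (map_ne_zero φ).mpr h0
  have hφl1 : φ l ≠ 1 := by
    intro h
    apply h1
    apply φ.injective
    rw [h, map_one]
  have hD' : D' ≠ 0 := by rw [hD]; exact mul_ne_zero hu2 hφD
  have h1l : (1 : K) - l ≠ 0 := sub_ne_zero.mpr h1.symm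
  have h1l' : (1 : K') - φ l ≠ 0 := sub_ne_zero.mpr hφl1.symm
  rcases P with _ | ⟨x, y, h⟩
  · have e : f (WeierstrassCurve.Affine.Point.zero : WD D l) = 0 := map_zero f
    have e0 : d0 (WeierstrassCurve.Affine.Point.zero : WD D l) = 1 := rfl
    have e1 : d1 (WeierstrassCurve.Affine.Point.zero : WD D l) = 1 := rfl
    have e0' : d0 (0 : WD D' l') = 1 := rfl
    have e1' : d1 (0 : WD D' l') = 1 := rfl
    rw [e, e0, e1, e0', e1', map_one, one_mul]
    exact ⟨⟨one_ne_zero, one_ne_zero, 1, by ring⟩, ⟨one_ne_zero, one_ne_zero, 1, by ring⟩⟩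
  · obtain ⟨h', e⟩ := hf x y h
    rw [e, d0_eq, d1_eq, d0_eq, d1_eq]
    constructor
    · by_cases hx : x = 0
      · have hx' : u ^ 2 * φ x = 0 := by rw [hx, map_zero, mul_zero]
        rw [if_pos hx, if_pos hx']
        refine ⟨?_, ?_, ?_⟩
        · have : (0 - D) * (0 - l * D) = l * D ^ 2 := by ring
          rw [this]
          exact mul_ne_zero h0 (pow_ne_zero 2 hDD)
        · have : (0 - D') * (0 - l' * D') = l' * D' ^ 2 := by ring
          rw [this, hl]
          exact mul_ne_zero hφl (pow_ne_zero 2 hD')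
        · refine ⟨u ^ 2 * φ l * φ D ^ 2, ?_⟩
          rw [hD, hl]
          simp only [map_mul, map_sub, map_zero]
          ring
      · have hx' : ¬ u ^ 2 * φ x = 0 := mul_ne_zero hu2 ((map_ne_zero φ).mpr hx)
        rw [if_neg hx, if_neg hx']
        refine ⟨?_, ?_, ?_⟩
        · rwa [sub_zero]
        · rwa [sub_zero]
        · exact ⟨u * φ x, by rw [sub_zero, sub_zero]; ring⟩
    · by_cases hx : x = D
      · have hx' : u ^ 2 * φ x = D' := by rw [hx, hD]
        rw [if_pos hx, if_pos hx']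
        refine ⟨?_, ?_, ?_⟩
        · have : (D - 0) * (D - l * D) = (1 - l) * D ^ 2 := by ring
          rw [this]
          exact mul_ne_zero h1l (pow_ne_zero 2 hDD)
        · have : (D' - 0) * (D' - l' * D') = (1 - l') * D' ^ 2 := by ring
          rw [this, hl]
          exact mul_ne_zero h1l' (pow_ne_zero 2 hD')
        · refine ⟨u ^ 2 * (1 - φ l) * φ D ^ 2, ?_⟩
          rw [hD, hl]
          simp only [map_mul, map_sub, map_zero]
          ring
      · have hx0 : x - D ≠ 0 := sub_ne_zero.mpr hx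
        have e2 : u ^ 2 * φ x - D' = u ^ 2 * φ (x - D) := by
          rw [hD, map_sub]
          ring
        have hx' : ¬ u ^ 2 * φ x = D' := by
          intro h
          rw [h, sub_self] at e2
          exact mul_ne_zero hu2 ((map_ne_zero φ).mpr hx0) e2.symm
        rw [if_neg hx, if_neg hx']
        refine ⟨hx0, sub_ne_zero.mpr hx', ?_⟩
        rw [e2]
        exact ⟨u * φ (x - D), by ring⟩

theorem PCl_map {K' : Type*} [Field K'] [DecidableEq K] [DecidableEq K'] (φ : K →+* K') (u : K')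
    (hu : u ≠ 0) {D l : K} {D' l' : K'} (hDD : D ≠ 0) (h0 : l ≠ 0) (h1 : l ≠ 1)
    (hD : D' = u ^ 2 * φ D) (hl : l' = φ l) (f : WD D l →+ WD D' l') (hf : IsTr φ u f)
    {b : K × K × K} {b' : K' × K' × K'}
    (hb' : BNZ b') {m0 m1 m2 : Ex} (i0 : Cls b' (φ b.1) m0) (i1 : Cls b' (φ b.2.1) m1)
    (i2 : Cls b' (φ b.2.2) m2) {P : WD D l} {e e' : Ex} (h : PCl b P e e') :
    PCl b' (f P) (exM m0 m1 m2 e) (exM m0 m1 m2 e') := by
  obtain ⟨⟨-, a2, a3⟩, ⟨-, a5, a6⟩⟩ := tr_cls φ u hu hDD h0 h1 hD hl f hf P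
  exact ⟨(Cls.map φ hb' i0 i1 i2 h.1).congr a2 a3, (Cls.map φ hb' i0 i1 i2 h.2).congr a5 a6⟩

end

variable {k : Type*} [Field k]

/-- the base elements `t`, `t - 1`, `t - l` -/
noncomputable def bT (l : k) : RatFunc k × RatFunc k × RatFunc k :=
  (tF l, tF l - 1, tF l - RatFunc.C l)

theorem tr_exists [IsAlgClosed k] [DecidableEq (RatFunc k)] {l : k} (hl : GenL l) (w : Fin 3) :
    ∃ f : WD (RatFunc.X * (RatFunc.X - 1) * (RatFunc.X - RatFunc.C l)) (RatFunc.C l) →+
      WD (DF l) (RatFunc.C l), ∀ P e e', PCl (C1.bas l) P e e' →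
        PCl (bT l) (f P) (MM w e) (MM w e') := by
  obtain ⟨ht0, ht1, htl, hind, ⟨s, hs⟩, ⟨s', hs'⟩⟩ := tF_classes hl
  obtain ⟨h2, h0, h1, -, -, -⟩ := hl
  have hX' : (RatFunc.X : RatFunc k) ≠ 0 := RatFunc.X_ne_zero
  have hX1' : (RatFunc.X - 1 : RatFunc k) ≠ 0 := (C1.bas_nz l).2.1
  have hXl' : (RatFunc.X - RatFunc.C l : RatFunc k) ≠ 0 := (C1.bas_nz l).2.2
  have h2' : (2 : RatFunc k) ≠ 0 := by
    have : (RatFunc.C (2 : k)) ≠ 0 := (_root_.map_ne_zero _).mpr h2
    rwa [map_ofNat] at this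
  have hl0 : RatFunc.C l ≠ 0 := (_root_.map_ne_zero _).mpr h0
  have hl1 : RatFunc.C l ≠ 1 := by
    intro h
    apply h1
    apply RatFunc.C_injective
    rw [h, map_one]
  have hD0 : (RatFunc.X * (RatFunc.X - 1) * (RatFunc.X - RatFunc.C l) : RatFunc k) ≠ 0 :=
    mul_ne_zero (mul_ne_zero hX' hX1') hXl'
  have ht1' : tF l - 1 ≠ 0 := sub_ne_zero.mpr ht1
  have hb : BNZ (bT l) := ⟨ht0, ht1', htl⟩
  have hsq : ∀ c : k, IsSquare (RatFunc.C c) := by
    intro c
    obtain ⟨s, hs⟩ := IsAlgClosed.exists_eq_mul_self c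
    exact ⟨RatFunc.C s, by rw [← map_mul, ← hs]⟩
  have hnc : ∀ a : k, tF l ≠ RatFunc.C a := by
    intro a h
    have h3 : IsSquare (tF l ^ 1 * (tF l - 1) ^ 0 * (tF l - RatFunc.C l) ^ 0) := by
      rw [pow_one, pow_zero, pow_zero, mul_one, mul_one, h]
      exact hsq a
    have := (hind 1 0 0 h3).1
    exact absurd this (by decide)
  obtain ⟨i, hi⟩ := hsq (-1)
  rw [map_neg, map_one] at hi
  have hi0 : i ≠ 0 := by
    rintro rfl
    simp at hi
  have c0 : Cls (bT l) (tF l) (true, false, false) :=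
    ⟨ht0, tF l, by simp [mon, bT]⟩
  have c1 : Cls (bT l) (tF l - 1) (false, true, false) :=
    ⟨ht1', tF l - 1, by simp [mon, bT]⟩
  have c2 : Cls (bT l) (tF l - RatFunc.C l) (false, false, true) :=
    ⟨htl, tF l - RatFunc.C l, by simp [mon, bT]⟩
  have hnl : tF l - RatFunc.C (1 - l) ≠ 0 := by
    have := hnc (1 - l)
    exact sub_ne_zero.mpr this
  have hni : tF l - RatFunc.C l⁻¹ ≠ 0 := sub_ne_zero.mpr (hnc l⁻¹)
  have hs0 : s ≠ 0 := by
    rintro rfl
    rw [mul_zero] at hs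
    exact mul_ne_zero htl hnl hs
  have hs0' : s' ≠ 0 := by
    rintro rfl
    rw [mul_zero] at hs'
    exact mul_ne_zero htl hni hs'
  fin_cases w
  · obtain ⟨f, hf, -⟩ := exists_tr h2' (subs (tF l) hnc) 1 one_ne_zero (D' := DF l)
      (l' := RatFunc.C l) hD0 hl0 hl1
      (by rw [one_pow, one_mul]; simp only [map_mul, map_sub, map_one, subs_X, subs_C]; rfl)
      (by rw [subs_C])
    refine ⟨f, fun P e e' hP => ?_⟩
    refine PCl_map (subs (tF l) hnc) 1 one_ne_zero hD0 hl0 hl1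
      (by rw [one_pow, one_mul]; simp only [map_mul, map_sub, map_one, subs_X, subs_C]; rfl)
      (by rw [subs_C]) f hf hb ?_ ?_ ?_ hP
    · simp only [C1.bas, subs_X]
      exact c0
    · simp only [C1.bas, subs_X, map_sub, map_one]
      exact c1
    · simp only [C1.bas, subs_X, map_sub, subs_C]
      exact c2
  · have hr : ∀ a : k, (1 - tF l : RatFunc k) ≠ RatFunc.C a := by
      intro a h
      apply hnc (1 - a)
      rw [map_sub, map_one, ← h]
      ring
    have hu : i * s / (tF l - RatFunc.C (1 - l)) ≠ 0 := div_ne_zero (mul_ne_zero hi0 hs0) hnl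
    have hDeq : DF l = (i * s / (tF l - RatFunc.C (1 - l))) ^ 2 * subs (1 - tF l) hr
        (RatFunc.X * (RatFunc.X - 1) * (RatFunc.X - RatFunc.C l)) := by
      rw [div_pow, div_mul_eq_mul_div, eq_div_iff (pow_ne_zero 2 hnl)]
      simp only [map_mul, map_sub, map_one, subs_X, subs_C]
      unfold DF
      simp only [map_sub, map_one] at hs ⊢
      linear_combination (-(tF l * (tF l - 1) * (tF l - (1 - RatFunc.C l)))) * (s * s) * hi +
        (tF l * (tF l - 1) * (tF l - (1 - RatFunc.C l))) * hs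
    obtain ⟨f, hf, -⟩ := exists_tr h2' (subs (1 - tF l) hr) _ hu (D' := DF l)
      (l' := RatFunc.C l) hD0 hl0 hl1 hDeq (by rw [subs_C])
    refine ⟨f, fun P e e' hP => ?_⟩
    refine PCl_map (subs (1 - tF l) hr) _ hu hD0 hl0 hl1 hDeq
      (by rw [subs_C]) f hf hb ?_ ?_ ?_ hP
    · simp only [C1.bas, subs_X]
      refine c1.congr ?_ ?_
      · rw [← neg_sub]; exact neg_ne_zero.mpr ht1'
      · exact ⟨i * (tF l - 1), by linear_combination (tF l - 1) ^ 2 * hi⟩
    · simp only [C1.bas, subs_X, map_sub, map_one]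
      refine c0.congr ?_ ?_
      · have : (1 - tF l - 1 : RatFunc k) = - tF l := by ring
        rw [this]; exact neg_ne_zero.mpr ht0
      · exact ⟨i * tF l, by linear_combination (tF l) ^ 2 * hi⟩
    · simp only [C1.bas, subs_X, map_sub, subs_C]
      have e3 : (1 - tF l - RatFunc.C l : RatFunc k) = -(tF l - RatFunc.C (1 - l)) := by
        rw [map_sub, map_one]; ring
      refine c2.congr ?_ ?_
      · rw [e3]; exact neg_ne_zero.mpr hnl
      · rw [e3]
        exact ⟨i * s, by linear_combination (s * s) * hi - hs⟩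
  · obtain ⟨r, hr⟩ := hsq l
    have hr0 : r ≠ 0 := by
      rintro rfl
      rw [mul_zero] at hr
      exact hl0 hr
    have hrn : ∀ a : k, ((tF l)⁻¹ : RatFunc k) ≠ RatFunc.C a := by
      intro a h
      apply hnc a⁻¹
      rw [map_inv₀, ← h, inv_inv]
    have hu : tF l ^ 2 * s' / (r * (tF l - RatFunc.C l⁻¹)) ≠ 0 :=
      div_ne_zero (mul_ne_zero (pow_ne_zero 2 ht0) hs0') (mul_ne_zero hr0 hni)
    have hDeq : DF l = (tF l ^ 2 * s' / (r * (tF l - RatFunc.C l⁻¹))) ^ 2 * subs (tF l)⁻¹ hrn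
        (RatFunc.X * (RatFunc.X - 1) * (RatFunc.X - RatFunc.C l)) := by
      rw [div_pow, div_mul_eq_mul_div, eq_div_iff (pow_ne_zero 2 (mul_ne_zero hr0 hni))]
      simp only [map_mul, map_sub, map_one, subs_X, subs_C]
      unfold DF
      have e1 : tF l ^ 3 * ((tF l)⁻¹ * ((tF l)⁻¹ - 1) * ((tF l)⁻¹ - RatFunc.C l)) =
          RatFunc.C l * (tF l - 1) * (tF l - RatFunc.C l⁻¹) := by
        rw [map_inv₀]
        field_simp
        ring
      have e2 : (tF l ^ 2 * s') ^ 2 * ((tF l)⁻¹ * ((tF l)⁻¹ - 1) * ((tF l)⁻¹ - RatFunc.C l)) =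
          tF l * (s' * s') * (tF l ^ 3 * ((tF l)⁻¹ * ((tF l)⁻¹ - 1) * ((tF l)⁻¹ - RatFunc.C l))) := by
        ring
      rw [e2, e1, ← hs', hr]
      ring
    obtain ⟨f, hf, -⟩ := exists_tr h2' (subs (tF l)⁻¹ hrn) _ hu (D' := DF l)
      (l' := RatFunc.C l) hD0 hl0 hl1 hDeq (by rw [subs_C])
    refine ⟨f, fun P e e' hP => ?_⟩
    refine PCl_map (subs (tF l)⁻¹ hrn) _ hu hD0 hl0 hl1 hDeq
      (by rw [subs_C]) f hf hb ?_ ?_ ?_ hP
    · simp only [C1.bas, subs_X]
      refine c0.congr (inv_ne_zero ht0) ⟨1, by rw [mul_inv_cancel₀ ht0, one_mul]⟩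
    · simp only [C1.bas, subs_X, map_sub, map_one]
      have h3 := c0.mul hb c1
      refine h3.congr ?_ ?_
      · have : ((tF l)⁻¹ - 1 : RatFunc k) = -((tF l - 1) / tF l) := by field_simp; ring
        rw [this]; exact neg_ne_zero.mpr (div_ne_zero ht1' ht0)
      · refine ⟨i * (tF l - 1), ?_⟩
        have : tF l * (tF l - 1) * ((tF l)⁻¹ - 1) = - (tF l - 1) ^ 2 := by field_simp; ring
        rw [this]
        linear_combination (tF l - 1) ^ 2 * hi
    · simp only [C1.bas, subs_X, map_sub, subs_C]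
      have h3 := c0.mul hb c2
      refine h3.congr ?_ ?_
      · have : ((tF l)⁻¹ - RatFunc.C l : RatFunc k) =
            -(RatFunc.C l * (tF l - RatFunc.C l⁻¹) / tF l) := by
          rw [map_inv₀]; field_simp; ring
        rw [this]
        exact neg_ne_zero.mpr (div_ne_zero (mul_ne_zero hl0 hni) ht0)
      · refine ⟨i * r * s', ?_⟩
        have : tF l * (tF l - RatFunc.C l) * ((tF l)⁻¹ - RatFunc.C l) =
            - (RatFunc.C l * ((tF l - RatFunc.C l) * (tF l - RatFunc.C l⁻¹))) := by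
          rw [map_inv₀]; field_simp; ring
        rw [this, hs', hr]
        linear_combination (r * r * (s' * s')) * hi

end PBp2

open PBp2 in
/-- PBp2 -/
theorem cov_charp {k : Type*} [Field k] (p : ℕ) [Fact p.Prime] (hp : p ≠ 2) [IsAlgClosed k]
    [CharP k p] {l : k} (hlp : l ^ p = l) (hl : GenL l) :
    Cov (DF l) (RatFunc.C l) (cF l) := by
  classical
  obtain ⟨ht0, ht1, htl, hind, -, -⟩ := tF_classes hl
  have ht1' : tF l - 1 ≠ 0 := sub_ne_zero.mpr ht1
  have hb : BNZ (bT l) := ⟨ht0, ht1', htl⟩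
  have hfw := tr_exists hl
  obtain ⟨h2, h0, h1, -, -, -⟩ := hl
  have hX' : (RatFunc.X : RatFunc k) ≠ 0 := RatFunc.X_ne_zero
  have hX1' : (RatFunc.X - 1 : RatFunc k) ≠ 0 := (C1.bas_nz l).2.1
  have hXl' : (RatFunc.X - RatFunc.C l : RatFunc k) ≠ 0 := (C1.bas_nz l).2.2
  have h2' : (2 : RatFunc k) ≠ 0 := by
    have : (RatFunc.C (2 : k)) ≠ 0 := (_root_.map_ne_zero _).mpr h2
    rwa [map_ofNat] at this
  have hl0 : RatFunc.C l ≠ 0 := (_root_.map_ne_zero _).mpr h0
  have hl1 : RatFunc.C l ≠ 1 := by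
    intro h
    apply h1
    apply RatFunc.C_injective
    rw [h, map_one]
  have hDF : DF l ≠ 0 := mul_ne_zero (mul_ne_zero ht0 ht1') htl
  have hcF : cF l ≠ 0 := mul_ne_zero ht0 htl
  have hsq : ∀ c : k, IsSquare (RatFunc.C c) := by
    intro c
    obtain ⟨s, hs⟩ := IsAlgClosed.exists_eq_mul_self c
    exact ⟨RatFunc.C s, by rw [← map_mul, ← hs]⟩
  obtain ⟨D, hD⟩ : ∃ D : RatFunc k, D = RatFunc.X * (RatFunc.X - 1) * (RatFunc.X - RatFunc.C l) :=
    ⟨_, rfl⟩
  rw [← hD] at hfw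
  obtain ⟨f0, hf0⟩ := hfw 0
  obtain ⟨f1, hf1⟩ := hfw 1
  obtain ⟨f2, hf2⟩ := hfw 2
  have hD0 : D ≠ 0 := by rw [hD]; exact mul_ne_zero (mul_ne_zero hX' hX1') hXl'
  obtain ⟨-, hex, -, -, -, -, htor, -, hc0, hc1, -, hcx⟩ := pt_basic h2' hD0 hl0 hl1
  obtain ⟨P0, hP0⟩ := hex RatFunc.X D (by rw [hD]; ring)
  obtain ⟨T0, hT0⟩ := hex 0 0 (by ring)
  obtain ⟨T1, hT1⟩ := hex 1 0 (by ring)
  have tT0 : T0 + T0 = 0 := (htor T0).mpr (Or.inr (Or.inl hT0))
  have tT1 : T1 + T1 = 0 := (htor T1).mpr (Or.inr (Or.inr (Or.inl hT1)))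
  have hXne1 : (RatFunc.X : RatFunc k) ≠ 1 := sub_ne_zero.mp hX1'
  -- classes of the generators
  have cP0 : PCl (C1.bas l) P0 (false, true, true) (true, false, true) := by
    obtain ⟨e0, e1⟩ := hcx P0 RatFunc.X hX' hXne1 hP0
    refine ⟨⟨?_, D, ?_⟩, ⟨?_, D, ?_⟩⟩
    · rw [e0]; exact mul_ne_zero hX' hD0
    · rw [e0, hD]; simp only [mon, C1.bas, cond_true, cond_false]; ring
    · rw [e1]; exact mul_ne_zero hX1' hD0
    · rw [e1, hD]; simp only [mon, C1.bas, cond_true, cond_false]; ring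
  have cT0 : PCl (C1.bas l) T0 (false, false, false) (true, true, true) := by
    obtain ⟨e0, e1⟩ := hc0 T0 hT0
    refine ⟨⟨?_, ?_⟩, ⟨?_, ?_⟩⟩
    · rw [e0]; exact mul_ne_zero hl0 (pow_ne_zero 2 hD0)
    · rw [e0]
      obtain ⟨r, hr⟩ := hsq l
      exact ⟨r * D, by rw [hr]; simp only [mon, cond_false]; ring⟩
    · rw [e1]; exact neg_ne_zero.mpr hD0
    · rw [e1]
      obtain ⟨r, hr⟩ := hsq (-1)
      rw [map_neg, map_one] at hr
      refine ⟨r * D, ?_⟩
      have : mon (C1.bas l) (true, true, true) = D := by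
        rw [hD]; simp only [mon, C1.bas, cond_true]
      rw [this]
      linear_combination D ^ 2 * hr
  have cT1 : PCl (C1.bas l) T1 (true, true, true) (false, false, false) := by
    obtain ⟨e0, e1⟩ := hc1 T1 hT1
    have hl1' : (1 : RatFunc k) - RatFunc.C l ≠ 0 := sub_ne_zero.mpr hl1.symm
    refine ⟨⟨?_, ?_⟩, ⟨?_, ?_⟩⟩
    · rw [e0]; exact hD0
    · rw [e0]
      have : mon (C1.bas l) (true, true, true) = D := by
        rw [hD]; simp only [mon, C1.bas, cond_true]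
      rw [this]
      exact ⟨D, rfl⟩
    · rw [e1]; exact mul_ne_zero hl1' (pow_ne_zero 2 hD0)
    · rw [e1]
      obtain ⟨r, hr⟩ := hsq (1 - l)
      rw [map_sub, map_one] at hr
      exact ⟨r * D, by rw [hr]; simp only [mon, cond_false]; ring⟩
  -- the extra point
  have hda := C1.d_add h2' hD0 hl0 hl1
  obtain ⟨R, hR⟩ := charp_nonscalar_of p hp hlp h0 h1 hD (ht_double h2 hD0 h0 h1)
    (ht_add_sub_le h2 hD0 h0 h1) (fun P Q => (hda P Q).1) (fun P Q => (hda P Q).2)
    (exists_half h2' hD0 hl0 hl1) P0 hP0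
  obtain ⟨u, v, cR⟩ : ∃ u v : Ex, PCl (C1.bas l) R u v := by
    set A : Finset k := {0, 1, l} with hA
    have hDA : D = PS A := by
      rw [C1.PS_mon h0 h1 A (by rw [hA]), hD]
      simp [hA, mon, C1.bas]
    obtain ⟨⟨S0, hS0, q0⟩, ⟨S1, hS1, q1⟩⟩ := classes h2 A h0 h1 hDA R
    obtain ⟨⟨n0, -⟩, ⟨n1, -⟩⟩ := hda R 0
    rw [C1.PS_mon h0 h1 S0 hS0] at q0
    rw [C1.PS_mon h0 h1 S1 hS1] at q1
    exact ⟨_, _, ⟨n0, q0⟩, ⟨n1, q1⟩⟩
  -- a functional detects the point
  obtain ⟨w, hw⟩ : ∃ w : Fin 3, fF w u v = true := by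
    by_contra hcon
    push Not at hcon
    simp only [Bool.not_eq_true] at hcon
    obtain ⟨m, i, j, hu, hv⟩ := scalar_fact u v (hcon 0) (hcon 1) (hcon 2)
    have hcl := (cP0.cond m).add h2' hD0 hl0 hl1 (C1.bas_nz l)
      ((cT1.cond i).add h2' hD0 hl0 hl1 (C1.bas_nz l) (cT0.cond j))
    rw [← hu, ← hv] at hcl
    have e1 : cond i T1 0 + cond i T1 0 = (0 : WD D (RatFunc.C l)) := by
      cases i
      · simp
      · exact tT1
    have e2 : cond j T0 0 + cond j T0 0 = (0 : WD D (RatFunc.C l)) := by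
      cases j
      · simp
      · exact tT0
    refine hR (if m then 1 else 0) (cond i T1 0 + cond j T0 0) ?_ ?_
    · have e3 : (cond i T1 0 + cond j T0 0) + (cond i T1 0 + cond j T0 0) =
          ((cond i T1 0 + cond i T1 0) + (cond j T0 0 + cond j T0 0)) := by abel
      rw [e3, e1, e2, add_zero]
    · have e4 : (if m = true then (1 : ℤ) else 0) • P0 = cond m P0 0 := by
        cases m
        · simp
        · simp
      rw [e4]
      exact ⟨Cls_sq (C1.bas_nz l) cR.1 hcl.1, Cls_sq (C1.bas_nz l) cR.2 hcl.2⟩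
  obtain ⟨fw, hfw⟩ := hfw w
  obtain ⟨⟨n1, n2, n3, n4, n5⟩, g1, g2⟩ := span_fact w u v hw
  have k0 := hfw R u v cR
  have k1 := (hf0 P0 _ _ cP0).cond n1
  have k2 := (hf1 P0 _ _ cP0).cond n2
  have k3 := (hf2 P0 _ _ cP0).cond n3
  have k4 : PCl (bT l) (f0 T0) (false, false, false) (true, true, true) := hf0 T0 _ _ cT0
  have k5 : PCl (bT l) (f0 T1) (true, true, true) (false, false, false) := hf0 T1 _ _ cT1
  have hQ := k0.add h2' hDF hl0 hl1 hb
    ((((k1.add h2' hDF hl0 hl1 hb k2).add h2' hDF hl0 hl1 hb k3).add h2' hDF hl0 hl1 hb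
      (k4.cond n4)).add h2' hDF hl0 hl1 hb (k5.cond n5))
  simp only [gS] at g1 g2
  rw [g1, g2] at hQ
  rw [cov_iff h2' hDF hl0 hl1 hcF (hsq l)]
  have hmon : mon (bT l) (true, false, true) = cF l := by
    simp only [mon, bT, cond_true, cond_false, cF, mul_one]
  refine ⟨_, ?_, (Cls.sq_iff hQ.1.1).mp hQ.1, ?_⟩
  · intro h
    rw [h] at hQ
    have h3 := hQ.2.2
    have h4 : d1 (0 : WD (DF l) (RatFunc.C l)) = 1 := rfl
    rw [h4, hmon, one_mul] at h3
    have h5 : IsSquare (tF l ^ 1 * (tF l - 1) ^ 0 * (tF l - RatFunc.C l) ^ 1) := by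
      rw [pow_one, pow_zero, pow_one, mul_one]
      exact h3
    exact absurd (hind 1 0 1 h5).1 (by decide)
  · have h3 := hQ.2.2
    rw [hmon] at h3
    rwa [mul_comm]

end Pool.Agent.H918R3
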