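import Pool.Agent.H918R3.TC4
import Pool.Agent.H918R3.THYP

set_option autoImplicit false

/-! Task RAT (helper267): a point on the generic fibre makes the hypersurface rational. -/

namespace Pool.Agent.H918R3.RAT

open Polynomial

/-- six generators and transcendence degree at least six: a rational function field -/
theorem iso_of_gen {k K : Type} [Field k] [Field K] [Algebra k K]
    (w : Fin 6 → K) (hw : AlgebraicIndependent k w)
    (z : Fin 6 → K) (hz : IntermediateField.adjoin k (Set.range z) = ⊤) :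
    Nonempty (K ≃ₐ[k] FractionRing (MvPolynomial (Fin 6) k)) := by
  have halg : Algebra.IsAlgebraic (Algebra.adjoin k (Set.range z)) K := by
    refine ⟨fun x => ?_⟩
    have hx : x ∈ IntermediateField.adjoin k (Set.range z) := by rw [hz]; trivial
    rw [IntermediateField.mem_adjoin_iff_div] at hx
    obtain ⟨a, ha, b, hb, rfl⟩ := hx
    have h1 : IsAlgebraic (Algebra.adjoin k (Set.range z)) a :=
      isAlgebraic_algebraMap (⟨a, ha⟩ : Algebra.adjoin k (Set.range z))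
    have h2 : IsAlgebraic (Algebra.adjoin k (Set.range z)) b :=
      isAlgebraic_algebraMap (⟨b, hb⟩ : Algebra.adjoin k (Set.range z))
    rw [div_eq_mul_inv]
    exact h1.mul h2.inv
  have hle : Cardinal.mk (Fin 6) ≤ Algebra.trdeg k K := hw.cardinalMk_le_trdeg
  have hb := Algebra.IsAlgebraic.isTranscendenceBasis_of_le_trdeg_of_finite (R := k) z hle
  exact ⟨(hb.1.aevalEquivField.trans
    ((IntermediateField.equivOfEq hz).trans IntermediateField.topEquiv)).symm⟩

theorem mem_of_X {k K : Type} [Field k] [Field K] [Algebra k K]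
    (j : FractionRing (MvPolynomial (Fin 6) k) →ₐ[k] K) (M : IntermediateField k K)
    (hM : ∀ i, j (algebraMap (MvPolynomial (Fin 6) k) _ (MvPolynomial.X i)) ∈ M)
    (a : FractionRing (MvPolynomial (Fin 6) k)) : j a ∈ M := by
  have hpoly : ∀ p : MvPolynomial (Fin 6) k, j (algebraMap (MvPolynomial (Fin 6) k) _ p) ∈ M := by
    intro p
    induction p using MvPolynomial.induction_on with
    | C a =>
      have h1 : algebraMap (MvPolynomial (Fin 6) k) (FractionRing (MvPolynomial (Fin 6) k))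
          (MvPolynomial.C a) = algebraMap k _ a := by
        rw [← MvPolynomial.algebraMap_eq, ← IsScalarTower.algebraMap_apply]
      rw [h1, AlgHom.commutes]
      exact M.algebraMap_mem a
    | add p q hp hq => rw [map_add, map_add]; exact M.add_mem hp hq
    | mul_X p n hp => rw [map_mul, map_mul]; exact M.mul_mem hp (hM n)
  obtain ⟨p, q, -, rfl⟩ := IsFractionRing.div_surjective (A := MvPolynomial (Fin 6) k) a
  rw [map_div₀]
  exact M.div_mem (hpoly p) (hpoly q)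

theorem core {k K : Type} [Field k] [IsAlgClosed k] [Field K] [Algebra k K] (h2 : (2 : k) ≠ 0)
    {l : k} (h1 : l ≠ 1) (D0 c0 : k[X]) (hD0 : D0 ≠ 0) (hc0 : c0 ≠ 0)
    (hcov : Cov (algebraMap k[X] (RatFunc k) D0) (RatFunc.C l) (algebraMap k[X] (RatFunc k) c0))
    (Δ c : MvPolynomial (Fin 6) k)
    (hΔ : Δ = aeval (MvPolynomial.X 5) D0 * MvPolynomial.X 4 * (MvPolynomial.X 4 - 1) *
      (MvPolynomial.X 4 - MvPolynomial.C l))
    (hc : c = aeval (MvPolynomial.X 5) c0)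
    (j : FractionRing (MvPolynomial (Fin 6) k) →ₐ[k] K) (y : K)
    (hy : y ^ 2 = j (algebraMap _ _ (dPol Δ c)))
    (hind : ∀ a b, j a + j b * y = 0 → a = 0 ∧ b = 0) (hsur : ∀ z, ∃ a b, z = j a + j b * y) :
    Nonempty (K ≃ₐ[k] FractionRing (MvPolynomial (Fin 6) k)) := by
  classical
  obtain ⟨J, hJ⟩ : ∃ J : MvPolynomial (Fin 6) k →ₐ[k] K, ∀ p, J p =
      j (algebraMap (MvPolynomial (Fin 6) k) (FractionRing (MvPolynomial (Fin 6) k)) p) :=
    ⟨j.comp (IsScalarTower.toAlgHom k (MvPolynomial (Fin 6) k)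
      (FractionRing (MvPolynomial (Fin 6) k))), fun p => rfl⟩
  have hJinj : Function.Injective J := by
    intro p q hpq
    rw [hJ, hJ] at hpq
    exact IsFractionRing.injective (MvPolynomial (Fin 6) k) _ (j.toRingHom.injective hpq)
  have h2K : (2 : K) ≠ 0 := by
    have h3 := (_root_.map_ne_zero (algebraMap k K)).2 h2
    rwa [map_ofNat] at h3
  obtain ⟨τ, hτ⟩ : ∃ τ, τ = J (MvPolynomial.X 5) := ⟨_, rfl⟩
  obtain ⟨x, hx⟩ : ∃ x, x = J (MvPolynomial.X 4) := ⟨_, rfl⟩
  obtain ⟨s, hs⟩ : ∃ s, s = J (MvPolynomial.X 3) := ⟨_, rfl⟩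
  obtain ⟨U2, hU2⟩ : ∃ U2, U2 = J (MvPolynomial.X 2) := ⟨_, rfl⟩
  obtain ⟨U3, hU3⟩ : ∃ U3, U3 = J (MvPolynomial.X 1) := ⟨_, rfl⟩
  obtain ⟨U4, hU4⟩ : ∃ U4, U4 = J (MvPolynomial.X 0) := ⟨_, rfl⟩
  -- the small field
  obtain ⟨F', hF'⟩ : ∃ F' : IntermediateField k K, F' = IntermediateField.adjoin k {τ, x} :=
    ⟨_, rfl⟩
  have hτF : τ ∈ F' := by
    rw [hF']; exact IntermediateField.subset_adjoin _ _ (by simp)
  have hxF : x ∈ F' := by
    rw [hF']; exact IntermediateField.subset_adjoin _ _ (by simp)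
  have haev : ∀ p : k[X], J (aeval (MvPolynomial.X 5) p) = aeval τ p := by
    intro p
    rw [hτ, aeval_algHom_apply]
  have hcoe : ∀ p : k[X], ((aeval (⟨τ, hτF⟩ : F') p : F') : K) = aeval τ p := by
    intro p
    have := aeval_algHom_apply F'.val (⟨τ, hτF⟩ : F') p
    exact this.symm
  have hinj : Function.Injective (aeval (⟨τ, hτF⟩ : F') : k[X] →ₐ[k] F') := by
    intro p q hpq
    have h3 := congrArg (fun z : F' => (z : K)) hpq
    simp only [hcoe, ← haev] at h3
    exact transcendental_iff_injective.1 (MvPolynomial.transcendental_X k (5 : Fin 6)) (hJinj h3)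
  obtain ⟨φ, hφ⟩ : ∃ φ : RatFunc k →ₐ[k] F', ∀ p : k[X],
      φ (algebraMap k[X] (RatFunc k) p) = aeval (⟨τ, hτF⟩ : F') p :=
    ⟨IsFractionRing.liftAlgHom (K := RatFunc k) hinj, fun p => by
      rw [IsFractionRing.liftAlgHom_apply, IsFractionRing.lift_algebraMap]; rfl⟩
  obtain ⟨α, β, γ, hα, hγ⟩ := hcov
  have h2F : (2 : F') ≠ 0 := by
    have h3 := (_root_.map_ne_zero (algebraMap k F')).2 h2
    rwa [map_ofNat] at h3
  have hpur : Pur (φ (algebraMap k[X] (RatFunc k) D0) * (⟨x, hxF⟩ : F') * ((⟨x, hxF⟩ : F') - 1) *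
      ((⟨x, hxF⟩ : F') - algebraMap k F' l)) (⟨x, hxF⟩ : F')
      (φ (algebraMap k[X] (RatFunc k) c0)) := by
    refine TC4.pur_of_cov (F := F') h2F (α := φ α) (β := φ β) (γ := φ γ) (a' := 1) ?_ ?_ ?_
      (by ring) one_ne_zero ?_ ?_
    · rw [_root_.map_ne_zero]
      exact (map_ne_zero_iff _ (IsFractionRing.injective k[X] (RatFunc k))).2 hD0
    · rw [_root_.map_ne_zero]
      exact (map_ne_zero_iff _ (IsFractionRing.injective k[X] (RatFunc k))).2 hc0
    · intro h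
      apply h1
      apply (algebraMap k F').injective
      rw [← h, map_one]
    · rw [← map_pow, ← map_pow, ← map_mul, ← map_sub, hα, one_mul]
    · rw [← map_pow, ← map_pow, ← map_mul, ← map_sub, hγ, map_mul]
      congr 1
      rw [← RatFunc.algebraMap_eq_C, AlgHom.commutes]
  obtain ⟨p', q', r', hpqr'⟩ := hpur
  obtain ⟨Dl, hDl⟩ : ∃ Dl, Dl = J Δ := ⟨_, rfl⟩
  obtain ⟨C, hC⟩ : ∃ C, C = J c := ⟨_, rfl⟩
  have hCF : C = (φ (algebraMap k[X] (RatFunc k) c0) : F') := by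
    rw [hC, hc, haev, hφ, hcoe]
  have hDF : Dl = ((φ (algebraMap k[X] (RatFunc k) D0) * (⟨x, hxF⟩ : F') *
      ((⟨x, hxF⟩ : F') - 1) * ((⟨x, hxF⟩ : F') - algebraMap k F' l) : F') : K) := by
    rw [hDl, hΔ]
    push_cast
    rw [map_mul, map_mul, map_mul, haev, hφ, hcoe, map_sub, map_sub, ← hx, map_one]
    congr 2
    rw [← MvPolynomial.algebraMap_eq, AlgHom.commutes]
  have hCm : C ∈ F' := by rw [hCF]; exact SetLike.coe_mem _
  have hDm : Dl ∈ F' := by rw [hDF]; exact SetLike.coe_mem _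
  obtain ⟨p, hp, q, hq, r, hr, hpqr⟩ : ∃ p ∈ F', ∃ q ∈ F', ∃ r ∈ F',
      x * p ^ 2 + C * q ^ 2 - x * C * r ^ 2 = Dl := by
    refine ⟨p', p'.2, q', q'.2, r', r'.2, ?_⟩
    rw [hCF, hDF, ← hpqr']
    push_cast
    rfl
  -- everything in `F'` and in `k(X₀, …, X₅)` is in the range of `j`
  have hFr : ∀ z ∈ F', ∃ a, j a = z := by
    have h3 : F' ≤ j.fieldRange := by
      rw [hF', IntermediateField.adjoin_le_iff]
      intro z hz
      simp only [Set.mem_insert_iff, Set.mem_singleton_iff] at hz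
      rcases hz with rfl | rfl
      · exact ⟨_, by rw [hτ, hJ]; rfl⟩
      · exact ⟨_, by rw [hx, hJ]; rfl⟩
    intro z hz
    exact h3 hz
  have hyeq : y ^ 2 = (s ^ 2 - Dl) * ((s - 1) ^ 2 - Dl) + x * U2 ^ 2 + C * U3 ^ 2 -
      x * C * U4 ^ 2 := by
    rw [hy, ← hJ, dPol]
    simp only [map_add, map_sub, map_mul, map_pow, map_one]
    rw [← hDl, ← hC, ← hs, ← hx, ← hU2, ← hU3, ← hU4]
  obtain ⟨e, he, he0⟩ : ∃ e, j e = s * (s - 1) + Dl ∧ e ≠ 0 := by
    refine ⟨algebraMap (MvPolynomial (Fin 6) k) _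
      (MvPolynomial.X 3 * (MvPolynomial.X 3 - 1) + Δ), ?_, ?_⟩
    · rw [← hJ, map_add, map_mul, map_sub, map_one, ← hs, ← hDl]
    · intro h
      have h3 : (MvPolynomial.X 3 * (MvPolynomial.X 3 - 1) + Δ : MvPolynomial (Fin 6) k) = 0 :=
        (map_eq_zero_iff _ (IsFractionRing.injective (MvPolynomial (Fin 6) k) _)).1 h
      have h4 := congrArg (MvPolynomial.eval (fun i : Fin 6 => if i = 3 then (-1 : k) else 0)) h3
      rw [hΔ] at h4
      simp only [map_add, map_mul, map_sub, MvPolynomial.eval_X, map_one, map_zero] at h4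
      rw [if_pos trivial, if_neg (by decide)] at h4
      apply h2
      linear_combination h4
  have hynr : ∀ a, y ≠ j a := by
    intro a h
    have h3 := hind (-a) 1 (by rw [h, map_neg, map_one]; ring)
    exact one_ne_zero h3.2
  have hμ : y - (s * (s - 1) + Dl) ≠ 0 := by
    intro h
    apply hynr e
    rw [he]
    exact sub_eq_zero.1 h
  obtain ⟨μ, hμe⟩ : ∃ μ, μ = y - (s * (s - 1) + Dl) := ⟨_, rfl⟩
  rw [← hμe] at hμ
  obtain ⟨w1, hw1⟩ : ∃ w1, w1 * μ = U2 - (2 * s - 1) * p :=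
    ⟨(U2 - (2 * s - 1) * p) / μ, div_mul_cancel₀ _ hμ⟩
  obtain ⟨w2, hw2⟩ : ∃ w2, w2 * μ = U3 - (2 * s - 1) * q :=
    ⟨(U3 - (2 * s - 1) * q) / μ, div_mul_cancel₀ _ hμ⟩
  obtain ⟨w3, hw3⟩ : ∃ w3, w3 * μ = U4 - (2 * s - 1) * r :=
    ⟨(U4 - (2 * s - 1) * r) / μ, div_mul_cancel₀ _ hμ⟩
  obtain ⟨Q, hQ⟩ : ∃ Q, Q = 1 - x * w1 ^ 2 - C * w2 ^ 2 + x * C * w3 ^ 2 := ⟨_, rfl⟩
  obtain ⟨B, hB⟩ : ∃ B, B = (s * (s - 1) + Dl) - x * ((2 * s - 1) * p) * w1 -
      C * ((2 * s - 1) * q) * w2 + x * C * ((2 * s - 1) * r) * w3 := ⟨_, rfl⟩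
  have hrel : 2 * B + μ * Q = 0 := by
    have h3 : μ * (2 * B + μ * Q) = 0 := by
      have hy' : y = μ + (s * (s - 1) + Dl) := by rw [hμe]; ring
      have e2 : U2 = w1 * μ + (2 * s - 1) * p := by rw [hw1]; ring
      have e3 : U3 = w2 * μ + (2 * s - 1) * q := by rw [hw2]; ring
      have e4 : U4 = w3 * μ + (2 * s - 1) * r := by rw [hw3]; ring
      rw [hy', e2, e3, e4] at hyeq
      rw [hB, hQ]
      linear_combination hyeq + (2 * s - 1) ^ 2 * hpqr
    rcases mul_eq_zero.1 h3 with h | h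
    · exact absurd h hμ
    · exact h
  obtain ⟨jp, hjp⟩ := hFr p hp
  obtain ⟨jq, hjq⟩ := hFr q hq
  obtain ⟨jr, hjr⟩ := hFr r hr
  have hQ0 : Q ≠ 0 := by
    intro hQ0
    rw [hQ0, mul_zero, add_zero] at hrel
    have hB0 : B = 0 := (mul_eq_zero.1 hrel).resolve_left h2K
    -- `u₀₀ y` is in the range of `j`
    have h3 : (s * (s - 1) + Dl) * y - ((s * (s - 1) + Dl) ^ 2 +
        x * ((2 * s - 1) * p) * (U2 - (2 * s - 1) * p) +
        C * ((2 * s - 1) * q) * (U3 - (2 * s - 1) * q) -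
        x * C * ((2 * s - 1) * r) * (U4 - (2 * s - 1) * r)) = 0 := by
      rw [← hw1, ← hw2, ← hw3]
      have h4 : μ * B = 0 := by rw [hB0, mul_zero]
      rw [hB] at h4
      have hy' : y = μ + (s * (s - 1) + Dl) := by rw [hμe]; ring
      rw [hy']
      linear_combination h4
    obtain ⟨a, ha⟩ : ∃ a, j a = (s * (s - 1) + Dl) ^ 2 +
        x * ((2 * s - 1) * p) * (U2 - (2 * s - 1) * p) +
        C * ((2 * s - 1) * q) * (U3 - (2 * s - 1) * q) -
        x * C * ((2 * s - 1) * r) * (U4 - (2 * s - 1) * r) := by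
      have hmem : ∀ z, z ∈ j.fieldRange → ∃ a, j a = z := fun z hz => hz
      apply hmem
      have m1 : s ∈ j.fieldRange := ⟨_, by rw [hs, hJ]; rfl⟩
      have m2 : x ∈ j.fieldRange := ⟨_, by rw [hx, hJ]; rfl⟩
      have m3 : U2 ∈ j.fieldRange := ⟨_, by rw [hU2, hJ]; rfl⟩
      have m4 : U3 ∈ j.fieldRange := ⟨_, by rw [hU3, hJ]; rfl⟩
      have m5 : U4 ∈ j.fieldRange := ⟨_, by rw [hU4, hJ]; rfl⟩
      have m6 : Dl ∈ j.fieldRange := ⟨_, by rw [hDl, hJ]; rfl⟩
      have m7 : C ∈ j.fieldRange := ⟨_, by rw [hC, hJ]; rfl⟩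
      have m8 : p ∈ j.fieldRange := ⟨jp, hjp⟩
      have m9 : q ∈ j.fieldRange := ⟨jq, hjq⟩
      have m10 : r ∈ j.fieldRange := ⟨jr, hjr⟩
      have m11 : (1 : K) ∈ j.fieldRange := one_mem _
      have m12 : (2 : K) ∈ j.fieldRange := ofNat_mem _ 2
      have m13 : s * (s - 1) + Dl ∈ j.fieldRange := add_mem (mul_mem m1 (sub_mem m1 m11)) m6
      have m14 : 2 * s - 1 ∈ j.fieldRange := sub_mem (mul_mem m12 m1) m11
      exact sub_mem (add_mem (add_mem (pow_mem m13 2)
        (mul_mem (mul_mem m2 (mul_mem m14 m8)) (sub_mem m3 (mul_mem m14 m8))))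
        (mul_mem (mul_mem m7 (mul_mem m14 m9)) (sub_mem m4 (mul_mem m14 m9))))
        (mul_mem (mul_mem (mul_mem m2 m7) (mul_mem m14 m10)) (sub_mem m5 (mul_mem m14 m10)))
    have h5 := hind (-a) e (by rw [map_neg, ha, he, ← h3]; ring)
    exact he0 h5.2
  -- the six generators
  refine iso_of_gen (fun i => J (MvPolynomial.X i)) ?_ ![τ, x, s, w1, w2, w3] ?_
  · rw [algebraicIndependent_iff_injective_aeval]
    have h3 : (MvPolynomial.aeval fun i => J (MvPolynomial.X i)) = J := by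
      ext i; simp
    rw [h3]
    exact hJinj
  · obtain ⟨M, hM⟩ : ∃ M, M = IntermediateField.adjoin k (Set.range ![τ, x, s, w1, w2, w3]) :=
      ⟨_, rfl⟩
    rw [← hM]
    have hz : ∀ i : Fin 6, ![τ, x, s, w1, w2, w3] i ∈ M := fun i => by
      rw [hM]; exact IntermediateField.subset_adjoin _ _ ⟨i, rfl⟩
    have n1 : τ ∈ M := hz 0
    have n2 : x ∈ M := hz 1
    have n3 : s ∈ M := hz 2
    have n4 : w1 ∈ M := hz 3
    have n5 : w2 ∈ M := hz 4
    have n6 : w3 ∈ M := hz 5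
    have hFM : F' ≤ M := by
      rw [hF', IntermediateField.adjoin_le_iff]
      intro z hz
      simp only [Set.mem_insert_iff, Set.mem_singleton_iff] at hz
      rcases hz with rfl | rfl
      · exact n1
      · exact n2
    have n7 : p ∈ M := hFM hp
    have n8 : q ∈ M := hFM hq
    have n9 : r ∈ M := hFM hr
    have n10 : C ∈ M := hFM hCm
    have n11 : Dl ∈ M := hFM hDm
    have n12 : (1 : K) ∈ M := one_mem _
    have n13 : (2 : K) ∈ M := ofNat_mem _ 2
    have n14 : s * (s - 1) + Dl ∈ M := add_mem (mul_mem n3 (sub_mem n3 n12)) n11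
    have n15 : 2 * s - 1 ∈ M := sub_mem (mul_mem n13 n3) n12
    have n16 : Q ∈ M := by
      rw [hQ]
      exact add_mem (sub_mem (sub_mem n12 (mul_mem n2 (pow_mem n4 2)))
        (mul_mem n10 (pow_mem n5 2))) (mul_mem (mul_mem n2 n10) (pow_mem n6 2))
    have n17 : B ∈ M := by
      rw [hB]
      exact add_mem (sub_mem (sub_mem n14 (mul_mem (mul_mem n2 (mul_mem n15 n7)) n4))
        (mul_mem (mul_mem n10 (mul_mem n15 n8)) n5))
        (mul_mem (mul_mem (mul_mem n2 n10) (mul_mem n15 n9)) n6)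
    have n18 : μ ∈ M := by
      have h3 : μ = -(2 * B) / Q := by
        rw [eq_div_iff hQ0]
        linear_combination hrel
      rw [h3]
      exact div_mem (neg_mem (mul_mem n13 n17)) n16
    have n19 : y ∈ M := by
      have h3 : y = μ + (s * (s - 1) + Dl) := by rw [hμe]; ring
      rw [h3]; exact add_mem n18 n14
    have n20 : U2 ∈ M := by
      have h3 : U2 = w1 * μ + (2 * s - 1) * p := by rw [hw1]; ring
      rw [h3]; exact add_mem (mul_mem n4 n18) (mul_mem n15 n7)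
    have n21 : U3 ∈ M := by
      have h3 : U3 = w2 * μ + (2 * s - 1) * q := by rw [hw2]; ring
      rw [h3]; exact add_mem (mul_mem n5 n18) (mul_mem n15 n8)
    have n22 : U4 ∈ M := by
      have h3 : U4 = w3 * μ + (2 * s - 1) * r := by rw [hw3]; ring
      rw [h3]; exact add_mem (mul_mem n6 n18) (mul_mem n15 n9)
    have hX : ∀ i, j (algebraMap (MvPolynomial (Fin 6) k) _ (MvPolynomial.X i)) ∈ M := by
      intro i
      rw [← hJ]
      rw [hU4] at n22
      rw [hU3] at n21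
      rw [hU2] at n20
      rw [hs] at n3
      rw [hx] at n2
      rw [hτ] at n1
      fin_cases i
      · exact n22
      · exact n21
      · exact n20
      · exact n3
      · exact n2
      · exact n1
    rw [eq_top_iff]
    intro z _
    obtain ⟨a, b, rfl⟩ := hsur z
    exact add_mem (mem_of_X j M hX a) (mul_mem (mem_of_X j M hX b) n19)

theorem aeval_mem_supported {k : Type} [Field k] (p : k[X]) (S : Set (Fin 6)) (hS : 5 ∈ S) :
    aeval (MvPolynomial.X 5 : MvPolynomial (Fin 6) k) p ∈ MvPolynomial.supported k S := by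
  have h1 := aeval_mem_adjoin_singleton k (p := p) (MvPolynomial.X 5 : MvPolynomial (Fin 6) k)
  refine Algebra.adjoin_le ?_ h1
  intro z hz
  rw [Set.mem_singleton_iff] at hz
  rw [hz]
  exact MvPolynomial.X_mem_supported.2 hS

end Pool.Agent.H918R3.RAT

namespace Pool.Agent.H918R3

open Polynomial

theorem rational_of_cov {k : Type} [Field k] [IsAlgClosed k] (h2 : (2 : k) ≠ 0) {l : k}
    (h0 : l ≠ 0) (h1 : l ≠ 1) (D0 c0 : k[X]) (hD0 : D0 ≠ 0) (hc0 : c0 ≠ 0)
    (hcov : Cov (algebraMap k[X] (RatFunc k) D0) (RatFunc.C l) (algebraMap k[X] (RatFunc k) c0))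
    (Δ c : MvPolynomial (Fin 6) k)
    (hΔ : Δ = aeval (MvPolynomial.X 5) D0 * MvPolynomial.X 4 * (MvPolynomial.X 4 - 1) *
      (MvPolynomial.X 4 - MvPolynomial.C l))
    (hc : c = aeval (MvPolynomial.X 5) c0) :
    Nonempty (FractionRing (HR (dPol Δ c)) ≃ₐ[k] FractionRing (MvPolynomial (Fin 6) k)) := by
  have hc0' : c ≠ 0 := by
    intro h
    rw [hc] at h
    have h3 : aeval (MvPolynomial.X 5 : MvPolynomial (Fin 6) k) c0 =
        aeval (MvPolynomial.X 5 : MvPolynomial (Fin 6) k) (0 : k[X]) := by rw [h, map_zero]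
    exact hc0 (transcendental_iff_injective.1 (MvPolynomial.transcendental_X k (5 : Fin 6)) h3)
  have hv1 : ∀ i ∈ Δ.vars, i = 4 ∨ i = 5 := by
    have h3 : Δ ∈ MvPolynomial.supported k ({4, 5} : Set (Fin 6)) := by
      rw [hΔ]
      have hX : (MvPolynomial.X 4 : MvPolynomial (Fin 6) k) ∈
          MvPolynomial.supported k ({4, 5} : Set (Fin 6)) :=
        MvPolynomial.X_mem_supported.2 (by simp)
      refine mul_mem (mul_mem (mul_mem (RAT.aeval_mem_supported D0 _ (by simp)) hX)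
        (sub_mem hX (one_mem _))) (sub_mem hX ?_)
      rw [← MvPolynomial.algebraMap_eq]
      exact Subalgebra.algebraMap_mem _ l
    intro i hi
    have h4 := MvPolynomial.mem_supported.1 h3 hi
    simpa using h4
  have hv2 : ∀ i ∈ c.vars, i = 5 := by
    have h3 : c ∈ MvPolynomial.supported k ({5} : Set (Fin 6)) := by
      rw [hc]; exact RAT.aeval_mem_supported c0 _ (by simp)
    intro i hi
    have h4 := MvPolynomial.mem_supported.1 h3 hi
    simpa using h4
  obtain ⟨-, hdom, j, y, -, -, hy, hind, hsur⟩ :=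
    hyp_field h2 (dPol Δ c) (dPol_not_square h2 Δ c hv1 hv2 hc0')
  have := hdom
  exact RAT.core h2 h1 D0 c0 hD0 hc0 hcov Δ c hΔ hc j y hy hind hsur

end Pool.Agent.H918R3
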