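import Pool.Agent.H918R3.Defs

set_option autoImplicit false

namespace Pool.Agent.H918R3

/-- VAL: valuation rings of the algebraic numbers -/
theorem exists_val (p : ℕ) [Fact p.Prime] :
    ∃ O : ValuationSubring (AlgebraicClosure ℚ), O.valuation (p : AlgebraicClosure ℚ) < 1 ∧
      ∀ m : ℤ, ¬ (p : ℤ) ∣ m → O.valuation (m : AlgebraicClosure ℚ) = 1 := by
  have hp : p.Prime := Fact.out
  let f : ℤ →+* AlgebraicClosure ℚ := Int.castRingHom _
  have hf : Function.Injective f := fun a b h => by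
    have h' : (a : AlgebraicClosure ℚ) = (b : AlgebraicClosure ℚ) := h
    exact_mod_cast h'
  let A : Subring (AlgebraicClosure ℚ) := f.range
  let I : Ideal A := Ideal.span {f.rangeRestrict (p : ℤ)}
  have hI : I ≠ ⊤ := by
    intro h
    have h1 : (1 : A) ∈ I := h ▸ Submodule.mem_top
    obtain ⟨b, hb⟩ := Ideal.mem_span_singleton'.1 h1
    obtain ⟨c, rfl⟩ := f.rangeRestrict_surjective b
    rw [← map_mul, ← map_one f.rangeRestrict] at hb
    have hb' : f (c * (p : ℤ)) = f 1 := congrArg Subtype.val hb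
    have h2 := hf hb'
    have h3 : (p : ℤ) ∣ 1 := ⟨c, by rw [mul_comm]; exact h2.symm⟩
    have h4 : p ∣ 1 := by exact_mod_cast h3
    exact hp.one_lt.ne' (Nat.dvd_one.1 h4)
  obtain ⟨O, hAO, hIO⟩ := Ideal.image_subset_nonunits_valuationSubring I hI
  have hint : ∀ m : ℤ, (m : AlgebraicClosure ℚ) ∈ O := fun m => hAO ⟨m, rfl⟩
  have hpO : O.valuation (p : AlgebraicClosure ℚ) < 1 := by
    rw [← ValuationSubring.mem_nonunits_iff]
    exact hIO ⟨f.rangeRestrict (p : ℤ), Ideal.subset_span rfl, by simp [f]⟩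
  refine ⟨O, hpO, fun m hm => ?_⟩
  have hm1 : O.valuation (m : AlgebraicClosure ℚ) ≤ 1 := (O.valuation_le_one_iff _).2 (hint m)
  refine le_antisymm hm1 (not_lt.1 fun hlt => ?_)
  have hcop : IsCoprime (p : ℤ) m := (Nat.prime_iff_prime_int.1 hp).coprime_iff_not_dvd.2 hm
  obtain ⟨u, v, huv⟩ := hcop
  have h1 : (u : AlgebraicClosure ℚ) * (p : AlgebraicClosure ℚ) + v * m = 1 := by
    exact_mod_cast congrArg (fun z : ℤ => (z : AlgebraicClosure ℚ)) huv
  have h2 : O.valuation (1 : AlgebraicClosure ℚ) < 1 := by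
    rw [← h1]
    refine Valuation.map_add_lt _ ?_ ?_
    · rw [map_mul]
      exact mul_lt_one_of_nonneg_of_lt_one_right ((O.valuation_le_one_iff _).2 (hint u)) zero_le hpO
    · rw [map_mul]
      exact mul_lt_one_of_nonneg_of_lt_one_right ((O.valuation_le_one_iff _).2 (hint v)) zero_le hlt
  rw [map_one] at h2
  exact lt_irrefl _ h2

end Pool.Agent.H918R3
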