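import Pool.Agent.H918R3.Fin1
import Pool.Agent.H918R3.TIRR
import Pool.Agent.H918R3.TRAT
import Pool.Agent.H918R3.TVAL
import Pool.Agent.H918R3.TC1
import Pool.Agent.H918R3.TC2f
import Pool.Agent.H918R3.TPB0
import Pool.Agent.H918R3.TPBp2
import Pool.Agent.H918R3.TMT

set_option autoImplicit false

namespace Pool.Agent.H918R3

open MvPolynomial

theorem cov_scale {K : Type*} [Field K] {D l c D' c' w v : K} (hw : w ≠ 0) (hv : v ≠ 0)
    (hD : D' = D * w ^ 2) (hc : c' = c * v ^ 2) (h : Cov D l c) : Cov D' l c' := by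
  obtain ⟨α, β, γ, h1, h2⟩ := h
  refine ⟨α * w, β * w / v, γ * w / v, ?_, ?_⟩
  · rw [hD, hc, ← h1]; field_simp
  · rw [hD, hc]
    have : l * (D * w ^ 2) = (l * D) * w ^ 2 := by ring
    rw [this, ← h2]; field_simp

theorem Del_ne (k : Type) [Field k] (h2 : (2 : k) ≠ 0) (h3 : (3 : k) ≠ 0) (h5 : (5 : k) ≠ 0)
    (h7 : (7 : k) ≠ 0) (h13 : (13 : k) ≠ 0) : D0p k ≠ 0 ∧ q0 k ≠ 0 := by
  have a0 : q0 k ≠ 0 := by
    intro h
    have := congrArg (fun p => p.eval 0) h
    simp [q0] at this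
    have h' : (7 : k) ^ 2 * 13 = 0 := by linear_combination this
    exact mul_ne_zero (pow_ne_zero _ h7) h13 h'
  have a1 : q1 k ≠ 0 := by
    intro h
    have := congrArg (fun p => p.eval 0) h
    simp [q1] at this
    have h' : (7 : k) * (13 * (2 * 5)) = 0 := by linear_combination this
    exact mul_ne_zero h7 (mul_ne_zero h13 (mul_ne_zero h2 h5)) h'
  have ai : qi k ≠ 0 := by
    intro h
    have := congrArg (fun p => p.eval 0) h
    simp [qi] at this
    have h' : (3 : k) * 13 = 0 := by linear_combination -this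
    exact mul_ne_zero h3 h13 h'
  have a7 : (7 : Polynomial k) ≠ 0 := by
    intro h
    have := congrArg (fun p => p.eval 0) h
    simp at this
    exact h7 this
  exact ⟨mul_ne_zero (mul_ne_zero (mul_ne_zero a7 ai) a0) a1, a0⟩

theorem aeval_sup (k : Type) [Field k] (p : Polynomial k) :
    Polynomial.aeval (MvPolynomial.X 5 : MvPolynomial (Fin 6) k) p ∈
      MvPolynomial.supported k ({5} : Set (Fin 6)) := by
  have h : (X 5 : MvPolynomial (Fin 6) k) ∈ MvPolynomial.supported k ({5} : Set (Fin 6)) :=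
    (MvPolynomial.X_mem_supported).mpr rfl
  have := (Polynomial.aeval (⟨X 5, h⟩ : MvPolynomial.supported k ({5} : Set (Fin 6))) p).2
  rwa [Polynomial.aeval_subalgebra_coe] at this

theorem vars_cc (k : Type) [Field k] : ∀ i ∈ (cc k).vars, i = 5 := by
  intro i hi
  have := (MvPolynomial.mem_supported).mp (aeval_sup k (q0 k))
  exact this hi

theorem cc_ne (k : Type) [Field k] (hp : q0 k ≠ 0) : cc k ≠ 0 := by
  intro h
  have := congrArg (MvPolynomial.aeval (fun _ => (Polynomial.X : Polynomial k))) h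
  rw [cc, ← Polynomial.aeval_algHom_apply, aeval_X, map_zero, Polynomial.aeval_X_left_apply] at this
  exact hp this

theorem vars_Del (k : Type) [Field k] : ∀ i ∈ (Del k).vars, i = 4 ∨ i = 5 := by
  intro i hi
  have h4 : (X 4 : MvPolynomial (Fin 6) k) ∈ MvPolynomial.supported k ({4, 5} : Set (Fin 6)) :=
    (MvPolynomial.X_mem_supported).mpr (by simp)
  have h5 : Polynomial.aeval (MvPolynomial.X 5 : MvPolynomial (Fin 6) k) (D0p k) ∈
      MvPolynomial.supported k ({4, 5} : Set (Fin 6)) :=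
    MvPolynomial.supported_mono (by simp) (aeval_sup k (D0p k))
  have h : Del k ∈ MvPolynomial.supported k ({4, 5} : Set (Fin 6)) :=
    mul_mem (mul_mem (mul_mem h5 h4) (sub_mem h4 (one_mem _)))
      (sub_mem h4 (Subalgebra.algebraMap_mem _ (-3 / 7 : k)))
  have := (MvPolynomial.mem_supported).mp h
  simpa using this hi

theorem irr (k : Type) [Field k] (h2 : (2 : k) ≠ 0) (h3 : (3 : k) ≠ 0) (h5 : (5 : k) ≠ 0)
    (h7 : (7 : k) ≠ 0) (h13 : (13 : k) ≠ 0) :
    Irreducible (MvPolynomial.map (algebraMap ℤ k) polG) := by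
  rw [map_polG k h7]
  have := Del_ne k h2 h3 h5 h7 h13
  exact (hyp_field h2 _ (dPol_not_square h2 _ _ (vars_Del k) (vars_cc k)
    (cc_ne k this.2))).1

theorem rational_gen (p : ℕ) [hp : Fact p.Prime] (h79 : 79 < p) (k : Type) [Field k]
    [IsAlgClosed k] [CharP k p] [Algebra (ZMod p) k] :
    Irreducible (MvPolynomial.map (algebraMap ℤ k) polG) ∧
    RationalHyp (MvPolynomial.map (algebraMap ℤ k) polG) := by
  have hn : ∀ n : ℕ, 0 < n → n < p → (n : k) ≠ 0 := by
    intro n h0 hnp h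
    rw [CharP.cast_eq_zero_iff k p] at h
    exact absurd (Nat.le_of_dvd h0 h) (by omega)
  have h2 : (2 : k) ≠ 0 := by exact_mod_cast hn 2 (by norm_num) (by omega)
  have h3 : (3 : k) ≠ 0 := by exact_mod_cast hn 3 (by norm_num) (by omega)
  have h5 : (5 : k) ≠ 0 := by exact_mod_cast hn 5 (by norm_num) (by omega)
  have h7 : (7 : k) ≠ 0 := by exact_mod_cast hn 7 (by norm_num) (by omega)
  have h13 : (13 : k) ≠ 0 := by exact_mod_cast hn 13 (by norm_num) (by omega)
  have h79' : (79 : k) ≠ 0 := by exact_mod_cast hn 79 (by norm_num) (by omega)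
  refine ⟨irr k h2 h3 h5 h7 h13, ?_⟩
  have hl := genL_of h2 h3 h5 h7 h13 h79'
  have hlp : (-3 / 7 : k) ^ p = -3 / 7 := by
    have h : algebraMap (ZMod p) k (-3 / 7) = -3 / 7 := by
      rw [map_div₀, map_neg, map_ofNat, map_ofNat]
    rw [← h, ← map_pow, ZMod.pow_card]
  have hp2 : p ≠ 2 := by omega
  have hcov := cov_charp p hp2 hlp hl
  obtain ⟨w, hw, hwD⟩ := rel_D (k := k) h2 h3 h5 h7 h13
  obtain ⟨v, hv, hvc⟩ := rel_c (k := k) h2 h3 h5 h7 h13
  have hcov' := cov_scale hw hv hwD hvc hcov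
  have hne := Del_ne k h2 h3 h5 h7 h13
  rw [RationalHyp, map_polG k h7]
  exact rational_of_cov h2 (l := -3 / 7) hl.2.1 hl.2.2.1 (D0p k) (q0 k) hne.1 hne.2 hcov'
    (Del k) (cc k) rfl rfl

theorem irrational_gen (k : Type) [Field k] [IsAlgClosed k] [CharZero k]
    (O1 O2 O3 : ValuationSubring k) (a1 : O1.valuation 3 < 1) (a2 : O2.valuation 5 < 1)
    (a3 : O3.valuation 7 < 1) (ho1 : O1.valuation 2 = 1) (ho2 : O2.valuation 2 = 1)
    (ho3 : O3.valuation 2 = 1) (b1 : O1.valuation 7 = 1) (b2 : O2.valuation 7 = 1)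
    (b3 : O3.valuation 3 = 1) :
    ¬ RationalHyp (MvPolynomial.map (algebraMap ℤ k) polG) := by
  classical
  have h2 : (2 : k) ≠ 0 := two_ne_zero
  have h3 : (3 : k) ≠ 0 := three_ne_zero
  have h5 : (5 : k) ≠ 0 := by norm_num
  have h7 : (7 : k) ≠ 0 := by norm_num
  have h13 : (13 : k) ≠ 0 := by norm_num
  have h79 : (79 : k) ≠ 0 := by norm_num
  have hl := genL_of h2 h3 h5 h7 h13 h79
  have hO1 : O1.valuation (-3 / 7 : k) < 1 := by
    rw [map_div₀, b1, div_one, Valuation.map_neg]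
    exact a1
  have hO2 : O2.valuation (1 - (-3 / 7) : k) < 1 := by
    have e : (1 - (-3 / 7) : k) = 2 * 5 / 7 := by norm_num
    rw [e, map_div₀, b2, div_one, map_mul, ho2, one_mul]
    exact a2
  have hO3 : O3.valuation (-3 / 7 : k)⁻¹ < 1 := by
    have e : (-3 / 7 : k)⁻¹ = -(7 / 3) := by norm_num
    rw [e, Valuation.map_neg, map_div₀, b3, div_one]
    exact a3
  have hg1 := gen_one h2 hl.2.1 hl.2.2.1 O1 O2 O3 hO1 hO2 hO3 rfl
  obtain ⟨hg2, hg3⟩ := gen_sym hl hg1
  have hg6 := tors_six hl O1 O2 O3 hO1 hO2 hO3 ho1 ho2 ho3 rfl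
  have hnc : ¬ Cov (DF (-3 / 7 : k)) (RatFunc.C (-3 / 7)) (cF (-3 / 7)) := by
    apply not_cov hl
    intro Q1 Q2 Q3 hQ1 hQ2 hQ3 Q
    exact four_mul hl hg1 hg2 hg3 hg6 Q1 Q2 Q3 hQ1 hQ2 hQ3 Q
  rw [RationalHyp, map_polG k h7]
  exact irrational_of_not_cov hl hnc (D0p k) (q0 k) (rel_D h2 h3 h5 h7 h13)
    (rel_c h2 h3 h5 h7 h13) (Del k) (cc k) rfl rfl

theorem irrational_zero :
    ¬ RationalHyp (MvPolynomial.map (algebraMap ℤ (AlgebraicClosure ℚ)) polG) := by
  have f3 : Fact (Nat.Prime 3) := ⟨by norm_num⟩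
  have f5 : Fact (Nat.Prime 5) := ⟨by norm_num⟩
  have f7 : Fact (Nat.Prime 7) := ⟨by norm_num⟩
  obtain ⟨O1, a1, b1⟩ := exists_val 3
  obtain ⟨O2, a2, b2⟩ := exists_val 5
  obtain ⟨O3, a3, b3⟩ := exists_val 7
  refine irrational_gen (AlgebraicClosure ℚ) O1 O2 O3 (by exact_mod_cast a1)
    (by exact_mod_cast a2) (by exact_mod_cast a3) ?_ ?_ ?_ ?_ ?_ ?_
  · have := b1 2 (by norm_num); exact_mod_cast this
  · have := b2 2 (by norm_num); exact_mod_cast this
  · have := b3 2 (by norm_num); exact_mod_cast this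
  · have := b1 7 (by norm_num); exact_mod_cast this
  · have := b2 7 (by norm_num); exact_mod_cast this
  · have := b3 3 (by norm_num); exact_mod_cast this

theorem final_result :
    (Irreducible (MvPolynomial.map (algebraMap ℤ (AlgebraicClosure ℚ)) polG) ∧
      ¬ RationalHyp (MvPolynomial.map (algebraMap ℤ (AlgebraicClosure ℚ)) polG)) ∧
    ∀ (p : ℕ) [Fact p.Prime], 79 < p →
      Irreducible (MvPolynomial.map (algebraMap ℤ (AlgebraicClosure (ZMod p))) polG) ∧
      RationalHyp (MvPolynomial.map (algebraMap ℤ (AlgebraicClosure (ZMod p))) polG) := by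
  refine ⟨⟨irr _ two_ne_zero three_ne_zero (by norm_num) (by norm_num) (by norm_num),
    irrational_zero⟩, fun p _ h => ?_⟩
  have hch : CharP (AlgebraicClosure (ZMod p)) p :=
    charP_of_injective_algebraMap (algebraMap (ZMod p) (AlgebraicClosure (ZMod p))).injective p
  exact rational_gen p h (AlgebraicClosure (ZMod p))

end Pool.Agent.H918R3
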