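import Pool.Agent.H918R3.Defs

set_option autoImplicit false

/-!
Exact statements of all tasks (written proofs: table h918r_tasks).  Every task is independent: put
the proved theorem in a file `Pool/Agent/H918R3/<task>.lean`, importing
`Pool.Agent.H918R3.Defs` only (or the files of the tasks named in its note, if these are finished),
in the namespace `Pool.Agent.H918R3.<task>`.
-/

namespace Pool.Agent.H918R3.Stubs

open Matrix Polynomial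

/-! ## Part A: unramified forms -/

/-- A1a -/
theorem lattice_finite {F : Type*} [Field F] {n : ℕ} (G : Matrix (Fin n) (Fin n) (RatFunc F))
    (hdet : G.det ≠ 0) (hU : ∀ O : ValuationSubring (RatFunc F), DvrOver F O → Unr O G) :
    ∃ P : Matrix (Fin n) (Fin n) (RatFunc F), P.det ≠ 0 ∧
      ∃ S : Matrix (Fin n) (Fin n) F[X], IsUnit S.det ∧
        Pᵀ * G * P = S.map (algebraMap F[X] (RatFunc F)) := by
  sorry

/-- A1b -/
theorem lattice_infty {F : Type*} [Field F] {n : ℕ} (S : Matrix (Fin n) (Fin n) F[X])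
    (hS : S.IsSymm) (hdet : IsUnit S.det) (han : ¬ Isot (S.map (algebraMap F[X] (RatFunc F))))
    (hU : ∀ O : ValuationSubring (RatFunc F), DvrOver F O →
      Unr O (S.map (algebraMap F[X] (RatFunc F)))) :
    ∃ V : Matrix (Fin n) (Fin n) F[X], IsUnit V.det ∧
      ∃ S0 : Matrix (Fin n) (Fin n) F, Vᵀ * S * V = S0.map Polynomial.C := by
  sorry

/-- GA -/
theorem exists_gauss {F : Type*} [Field F] (O : ValuationSubring F) :
    ∃ O' : ValuationSubring (RatFunc F), IsGauss O O' := by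
  sorry

/-- GB -/
theorem gauss_dvr {F : Type*} [Field F] (O : ValuationSubring F) (hO : IsDiscreteValuationRing O)
    (O' : ValuationSubring (RatFunc F)) (hG : IsGauss O O') : IsDiscreteValuationRing O' := by
  sorry

/-- A2 -/
theorem unr_specialize {k F : Type*} [Field k] [Infinite k] [Field F] [Algebra k F]
    (O : ValuationSubring F) (hk : ∀ a : k, algebraMap k F a ∈ O)
    (O' : ValuationSubring (RatFunc F)) (hG : IsGauss O O') {n : ℕ} (G : Matrix (Fin n) (Fin n) F)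
    (hdet : G.det ≠ 0) (hU : Unr O' (G.map (algebraMap F (RatFunc F)))) : Unr O G := by
  sorry

/-- FR -/
theorem exists_fracEquiv (k : Type) [Field k] (m : ℕ) :
    ∃ e : FractionRing (MvPolynomial (Fin (m + 1)) k) ≃ₐ[k]
        RatFunc (FractionRing (MvPolynomial (Fin m) k)),
      e (algebraMap (MvPolynomial (Fin (m + 1)) k) (FractionRing (MvPolynomial (Fin (m + 1)) k))
        (MvPolynomial.X 0)) = RatFunc.X ∧
      ∀ i : Fin m, e (algebraMap (MvPolynomial (Fin (m + 1)) k)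
        (FractionRing (MvPolynomial (Fin (m + 1)) k)) (MvPolynomial.X i.succ)) =
        RatFunc.C (algebraMap (MvPolynomial (Fin m) k) (FractionRing (MvPolynomial (Fin m) k))
          (MvPolynomial.X i)) := by
  sorry

/-- A3 (may use A1a, A1b, GA, GB, A2, FR) -/
theorem isotropic_of_unramified (k : Type) [Field k] [IsAlgClosed k] (m : ℕ) {n : ℕ} (hn : 2 ≤ n)
    (G : Matrix (Fin n) (Fin n) (FractionRing (MvPolynomial (Fin m) k))) (hG : G.IsSymm)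
    (hdet : G.det ≠ 0)
    (hU : ∀ O : ValuationSubring (FractionRing (MvPolynomial (Fin m) k)), DvrOver k O → Unr O G) :
    Isot G := by
  sorry

/-- A4a: Tsen's theorem for conics over a finite extension of `k(t)` -/
theorem tsen_conic {k L : Type*} [Field k] [IsAlgClosed k] [Field L] [Algebra (RatFunc k) L]
    [FiniteDimensional (RatFunc k) L] (a b : L) :
    ∃ x y z : L, (x ≠ 0 ∨ y ≠ 0 ∨ z ≠ 0) ∧ x ^ 2 - a * y ^ 2 - b * z ^ 2 = 0 := by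
  sorry

/-- A4b (may use A4a) -/
theorem residue_conic {k F : Type*} [Field k] [IsAlgClosed k] [Field F] [Algebra k F]
    (htr : ∀ f : Fin 3 → F, ¬ AlgebraicIndependent k f) (O : ValuationSubring F)
    (hO : DvrOver k O) (a b : F) (ha : a ∈ O) (hb : b ∈ O) :
    ∃ x y z : F, x ∈ O ∧ y ∈ O ∧ z ∈ O ∧
      (O.valuation x = 1 ∨ O.valuation y = 1 ∨ O.valuation z = 1) ∧
      O.valuation (x ^ 2 - a * y ^ 2 - b * z ^ 2) < 1 := by
  sorry

/-- A4t -/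
theorem trdeg_two (k : Type) [Field k] (f : Fin 3 → FractionRing (MvPolynomial (Fin 2) k)) :
    ¬ AlgebraicIndependent k f := by
  sorry

/-- FR2 -/
theorem exists_fracEquiv_two (k : Type) [Field k] :
    ∃ e : FractionRing (MvPolynomial (Fin 2) k) ≃ₐ[k] RatFunc (RatFunc k),
      e (algebraMap (MvPolynomial (Fin 2) k) (FractionRing (MvPolynomial (Fin 2) k))
        (MvPolynomial.X 0)) = RatFunc.X ∧
      e (algebraMap (MvPolynomial (Fin 2) k) (FractionRing (MvPolynomial (Fin 2) k))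
        (MvPolynomial.X 1)) = RatFunc.C (RatFunc.X : RatFunc k) := by
  sorry

/-- A5 -/
theorem unr_of_residue {K : Type*} [Field K] (O : ValuationSubring K)
    (hO : IsDiscreteValuationRing O) (h2 : O.valuation 2 = 1) {a b h : K}
    (ha : O.valuation a = 1) (hb : O.valuation b = 1) (hh : h ≠ 0)
    (hc : ∃ x y z : K, x ∈ O ∧ y ∈ O ∧ z ∈ O ∧
      (O.valuation x = 1 ∨ O.valuation y = 1 ∨ O.valuation z = 1) ∧
      O.valuation (x ^ 2 - a * y ^ 2 - b * z ^ 2) < 1) : Unr O (G8 a b h) := by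
  sorry

/-- A6 -/
theorem transfer {K : Type*} [Field K] (h2 : (2 : K) ≠ 0) {δ a c a' c' s h : K}
    (hiso : IsoL δ (G4 a c) (G4 a' c')) (hh : h = s ^ 2 - δ) (h0 : h ≠ 0)
    (ha : a ≠ 0) (hc : c ≠ 0) (ha' : a' ≠ 0) (hc' : c' ≠ 0) :
    IsoM (G8 a c h) (G8 a' c' h) := by
  sorry

/-- A7 -/
theorem swap_h {K : Type*} [Field K] {a c h1 h2 : K} (ha : a ≠ 0) (hc : c ≠ 0) (hh1 : h1 ≠ 0)
    (hh2 : h2 ≠ 0) (u : Fin 4 → K) (hu : q4 a c u = h1 * h2) : IsoM (G8 a c h1) (G8 a c h2) := by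
  sorry

/-- UN -/
theorem unr_iso {K : Type*} [Field K] (O : ValuationSubring K) {n : ℕ}
    {G H : Matrix (Fin n) (Fin n) K} (h : IsoM G H) : (Unr O G ↔ Unr O H) ∧ (Isot G ↔ Isot H) := by
  sorry

/-- A8 (may use A4, A5, A6, A7, UN) -/
theorem unr_all {k F K : Type*} [Field k] [IsAlgClosed k] [Field F] [Field K] [Algebra k F]
    [Algebra k K] [Algebra F K] [IsScalarTower k F K] (h2 : (2 : k) ≠ 0)
    (htr : ∀ f : Fin 3 → F, ¬ AlgebraicIndependent k f)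
    (x c δ : F) (hx : x ≠ 0) (hc : c ≠ 0) (hδ : δ ≠ 0) (h4 : 4 * δ ≠ 1)
    (hUR : ∀ O : ValuationSubring F, DvrOver k O → ∃ a b : F, O.valuation a = 1 ∧
      O.valuation b = 1 ∧ IsoL δ (G4 x c) (G4 a b))
    (s : K) (u : Fin 4 → K)
    (h1 : s ^ 2 - algebraMap F K δ ≠ 0) (h1' : (s - 1) ^ 2 - algebraMap F K δ ≠ 0)
    (hu : q4 (algebraMap F K x) (algebraMap F K c) u =
      (s ^ 2 - algebraMap F K δ) * ((s - 1) ^ 2 - algebraMap F K δ))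
    (O : ValuationSubring K) (hO : DvrOver k O) :
    Unr O (G8 (algebraMap F K x) (algebraMap F K c) (s ^ 2 - algebraMap F K δ)) := by
  sorry

/-! ## Cassels–Pfister and anisotropy -/

/-- CP -/
theorem cassels_pfister {F : Type*} [Field F] (h2 : (2 : F) ≠ 0) {n : ℕ} (a : Fin n → F[X])
    (ha : ∀ i, (a i).natDegree ≤ 1)
    (han : ∀ v : Fin n → RatFunc F, ∑ i, algebraMap F[X] (RatFunc F) (a i) * v i ^ 2 = 0 → v = 0)
    (P : F[X]) (v : Fin n → RatFunc F)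
    (hv : ∑ i, algebraMap F[X] (RatFunc F) (a i) * v i ^ 2 = algebraMap F[X] (RatFunc F) P) :
    ∃ w : Fin n → F[X], ∑ i, a i * w i ^ 2 = P := by
  sorry

/-- AR -/
theorem aniso_ratFunc {F : Type*} [Field F] {n : ℕ} (a : Fin n → F)
    (han : ∀ v : Fin n → F, ∑ i, a i * v i ^ 2 = 0 → v = 0) (v : Fin n → RatFunc F)
    (hv : ∑ i, RatFunc.C (a i) * v i ^ 2 = 0) : v = 0 := by
  sorry

/-- A9c (may use CP, AR) -/
theorem diag_cancel {F : Type*} [Field F] (h2 : (2 : F) ≠ 0) {n : ℕ} (a : Fin (n + 1) → F)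
    (han : ∀ v : Fin (n + 1) → F, ∑ i, a i * v i ^ 2 = 0 → v = 0) (d : F)
    (v : Fin (n + 1) → RatFunc F)
    (hv : ∑ i, RatFunc.C (a i) * v i ^ 2 = RatFunc.C d + RatFunc.C (a 0) * RatFunc.X ^ 2) :
    ∃ w : Fin n → F, ∑ i, a i.succ * w i ^ 2 = d := by
  sorry

/-- A9d -/
theorem octonion_step {K : Type*} [Field K] (h2 : (2 : K) ≠ 0) {a c h d : K} (ha : a ≠ 0)
    (hc : c ≠ 0) (hh : h ≠ 0) (hd : d ≠ 0) (han : ¬ Isot (G8 a c h)) (u v : Fin 8 → K)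
    (huv : u ≠ 0 ∨ v ≠ 0)
    (h1 : u ⬝ᵥ (G8 a c h *ᵥ u) + d * (v ⬝ᵥ (G8 a c h *ᵥ v)) = 0)
    (hB : u ⬝ᵥ (G8 a c h *ᵥ v) = 0) :
    ∃ w : Fin 7 → K, -a * w 0 ^ 2 - c * w 1 ^ 2 + a * c * w 2 ^ 2 - h * w 3 ^ 2 + h * a * w 4 ^ 2
      + h * c * w 5 ^ 2 - h * a * c * w 6 ^ 2 = -d := by
  sorry

/-- A9f -/
theorem residue_step {F : Type*} [Field F] (h2 : (2 : F) ≠ 0) {δ a c : F} (hδ : ¬ IsSquare δ)
    (ha : a ≠ 0) (hc : c ≠ 0) (ε : F) :
    (∀ v : Fin 4 → RatFunc F, q4 (RatFunc.C a) (RatFunc.C c) v =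
      (RatFunc.X - RatFunc.C ε) ^ 2 - RatFunc.C δ → IsotL δ a c) ∧
    (Isot (G8 (RatFunc.C a) (RatFunc.C c) ((RatFunc.X - RatFunc.C ε) ^ 2 - RatFunc.C δ)) →
      IsotL δ a c) := by
  sorry

/-- A9e (may use CP, AR, A9c, A9d, A9f) -/
theorem aniso_KX {F E1 E2 E3 E4 : Type*} [Field F] [Field E1] [Field E2] [Field E3] [Field E4]
    (e1 : E1 ≃+* RatFunc F) (e2 : E2 ≃+* RatFunc E1) (e3 : E3 ≃+* RatFunc E2)
    (e4 : E4 ≃+* RatFunc E3) (j1 : F →+* E1) (j2 : E1 →+* E2) (j3 : E2 →+* E3) (j4 : E3 →+* E4)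
    (hj1 : ∀ a, e1 (j1 a) = RatFunc.C a) (hj2 : ∀ a, e2 (j2 a) = RatFunc.C a)
    (hj3 : ∀ a, e3 (j3 a) = RatFunc.C a) (hj4 : ∀ a, e4 (j4 a) = RatFunc.C a)
    (s : E1) (hs : e1 s = RatFunc.X) (u2 : E2) (hu2 : e2 u2 = RatFunc.X) (u3 : E3)
    (hu3 : e3 u3 = RatFunc.X) (u4 : E4) (hu4 : e4 u4 = RatFunc.X)
    (h2 : (2 : F) ≠ 0) {x c δ : F} (hx : x ≠ 0) (hc : c ≠ 0)
    (hδ : ¬ IsSquare δ) (han : ¬ IsotL δ x c) (d : E4)
    (hd : d = j4 (j3 (j2 ((s ^ 2 - j1 δ) * ((s - 1) ^ 2 - j1 δ))))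
      + j4 (j3 (j2 (j1 x))) * (j4 (j3 u2)) ^ 2 + j4 (j3 (j2 (j1 c))) * (j4 u3) ^ 2
      - j4 (j3 (j2 (j1 (x * c)))) * u4 ^ 2)
    (G : Matrix (Fin 8) (Fin 8) E4)
    (hG : G = G8 (j4 (j3 (j2 (j1 x)))) (j4 (j3 (j2 (j1 c)))) (j4 (j3 (j2 (s ^ 2 - j1 δ)))))
    (u v : Fin 8 → E4) (huv : u ≠ 0 ∨ v ≠ 0)
    (h : u ⬝ᵥ (G *ᵥ u) + d * (v ⬝ᵥ (G *ᵥ v)) = 0) : u ⬝ᵥ (G *ᵥ v) ≠ 0 := by
  sorry

/-! ## Splitting over `K(x)(√Δ)` -/

/-- C4a -/
theorem pur_of_isotL {K : Type*} [Field K] (h2 : (2 : K) ≠ 0) {δ a c : K} (hδ : δ ≠ 0)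
    (ha : a ≠ 0) (hc : c ≠ 0) (h : IsotL δ a c) : Pur δ a c := by
  sorry

/-- C4b (may use CP) -/
theorem cov_of_pur {K : Type*} [Field K] (h2 : (2 : K) ≠ 0) {D l c : K} (hD : D ≠ 0) (h0 : l ≠ 0)
    (h1 : l ≠ 1) (hc : ¬ IsSquare c)
    (hp : Pur (RatFunc.C D * RatFunc.X * (RatFunc.X - 1) * (RatFunc.X - RatFunc.C l))
      (RatFunc.X : RatFunc K) (RatFunc.C c)) : Cov D l c := by
  sorry

/-- B3 -/
theorem pur_of_cov {F : Type*} [Field F] (h2 : (2 : F) ≠ 0) {x D c a b α β γ a' : F} (hD : D ≠ 0)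
    (hc : c ≠ 0) (hab : a ≠ b) (ha : a = a' ^ 2) (ha' : a' ≠ 0)
    (h1 : α ^ 2 - c * β ^ 2 = a * D) (h2' : α ^ 2 - c * γ ^ 2 = b * D) :
    Pur (D * x * (x - a) * (x - b)) x c := by
  sorry

/-- ISO -/
theorem isoL_api {K : Type*} [Field K] (h2 : (2 : K) ≠ 0) {δ : K} (hδ : δ ≠ 0) :
    (∀ a c c1 : K, a ≠ 0 → c ≠ 0 → c1 ≠ 0 → Pur δ a c → IsoL δ (G4 a c1) (G4 a (c1 * c))) ∧
    (∀ a c : K, IsoL δ (G4 a c) (G4 c a)) ∧
    (∀ a c v w : K, v ≠ 0 → w ≠ 0 → IsoL δ (G4 a c) (G4 (a * v ^ 2) (c * w ^ 2))) ∧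
    (∀ a c w : K, a ≠ 0 → c ≠ 0 → w ≠ 0 → IsoL δ (G4 a c) (G4 a (c * (δ * w ^ 2)))) ∧
    (∀ (n : ℕ) (G H J : Matrix (Fin n) (Fin n) K), IsoL δ G H → IsoL δ H J → IsoL δ G J) ∧
    (∀ (n : ℕ) (G H : Matrix (Fin n) (Fin n) K), G.det ≠ 0 → H.det ≠ 0 → ¬ IsSquare δ →
      IsoL δ G H → IsoL δ H G) := by
  sorry

/-- URi2 (may use ISO) -/
theorem five_isometries {F : Type*} [Field F] (h2 : (2 : F) ≠ 0) (hi : IsSquare (-1 : F))
    {x t l Δ : F} (hx0 : x ≠ 0) (hx1 : x ≠ 1) (hxl : x ≠ l) (ht0 : t ≠ 0) (ht1 : t ≠ 1)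
    (htl : t ≠ l) (h0 : l ≠ 0) (h1 : l ≠ 1) (hl : IsSquare l) (hl1 : IsSquare (1 - l))
    (hΔ : Δ = t * (t - 1) * (t - l) * x * (x - 1) * (x - l))
    (S1 : Pur Δ x t) (S2 : Pur Δ x ((t - 1) * (t - l))) (S3 : Pur Δ (x - 1) (t * (t - l)))
    (S4 : Pur Δ (x - 1) (t - 1)) (S5 : Pur Δ (x - l) (t - l)) :
    IsoL Δ (G4 x (t * (t - l))) (G4 x (t - l)) ∧
    IsoL Δ (G4 x (t * (t - l))) (G4 (x - 1) (t - l)) ∧
    IsoL Δ (G4 x (t * (t - l))) (G4 (x - 1) ((t - 1) * (t - l))) ∧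
    IsoL Δ (G4 x (t * (t - l))) (G4 (x * (x - 1)) (t * (t - l))) ∧
    IsoL Δ (G4 x (t * (t - l))) (G4 (x * (x - 1)) ((t - 1) * (t - l))) := by
  sorry

/-- URc -/
theorem ur_comb {k F : Type*} [Field k] [IsAlgClosed k] [Field F] [Algebra k F]
    (h2 : (2 : k) ≠ 0) (O : ValuationSubring F) (hO : DvrOver k O) (τ x δ : F) (g0 g1 gi : k[X])
    (hg0 : g0.natDegree = 4) (hg1 : g1.natDegree = 4) (hgi : gi.natDegree = 4)
    (h01 : IsCoprime g0 g1) (h0i : IsCoprime g0 gi) (h1i : IsCoprime g1 gi)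
    (hn0 : aeval τ g0 ≠ 0) (hn1 : aeval τ g1 ≠ 0) (hni : aeval τ gi ≠ 0) (hx0 : x ≠ 0)
    (hx1 : x ≠ 1)
    (E1 : IsoL δ (G4 x (aeval τ g0)) (G4 x (aeval τ gi)))
    (E2 : IsoL δ (G4 x (aeval τ g0)) (G4 (x - 1) (aeval τ gi)))
    (E3 : IsoL δ (G4 x (aeval τ g0)) (G4 (x - 1) (aeval τ g1)))
    (E4 : IsoL δ (G4 x (aeval τ g0)) (G4 (x * (x - 1)) (aeval τ g0)))
    (E5 : IsoL δ (G4 x (aeval τ g0)) (G4 (x * (x - 1)) (aeval τ g1))) :
    ∃ a b : F, O.valuation a = 1 ∧ O.valuation b = 1 ∧ IsoL δ (G4 x (aeval τ g0)) (G4 a b) := by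
  sorry

/-- UR (may use URi1, URi2, URc, ISO, IND, IND2) -/
theorem ur_all {k F : Type*} [Field k] [IsAlgClosed k] [Field F] [Algebra k F] {l : k}
    (hl : GenL l) (φ : RatFunc k →ₐ[k] F) (x Δ : F) (hx0 : x ≠ 0) (hx1 : x ≠ 1)
    (hxl : x ≠ algebraMap k F l)
    (hΔ : Δ = φ (DF l) * x * (x - 1) * (x - algebraMap k F l))
    (O : ValuationSubring F) (hO : DvrOver k O) :
    ∃ a b : F, O.valuation a = 1 ∧ O.valuation b = 1 ∧ IsoL Δ (G4 x (φ (cF l))) (G4 a b) := by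
  sorry

/-! ## the hypersurface -/

/-- HYP: the function field of `u₁² = d` -/
theorem hyp_field {k : Type} [Field k] (h2 : (2 : k) ≠ 0) (d : MvPolynomial (Fin 6) k)
    (hd : ¬ IsSquare (algebraMap (MvPolynomial (Fin 6) k)
      (FractionRing (MvPolynomial (Fin 6) k)) d)) :
    Irreducible (hPol d) ∧ IsDomain (HR d) ∧
    ∃ (j : FractionRing (MvPolynomial (Fin 6) k) →ₐ[k] FractionRing (HR d))
      (y : FractionRing (HR d)),
      y = algebraMap (HR d) _ (Ideal.Quotient.mk _ (MvPolynomial.X 0)) ∧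
      (∀ f : MvPolynomial (Fin 6) k, j (algebraMap _ _ f) =
        algebraMap (HR d) _ (Ideal.Quotient.mk _ (MvPolynomial.rename Fin.succ f))) ∧
      y ^ 2 = j (algebraMap _ _ d) ∧
      (∀ a b, j a + j b * y = 0 → a = 0 ∧ b = 0) ∧ (∀ z, ∃ a b, z = j a + j b * y) := by
  sorry

/-- NSQ: `d` is not a square -/
theorem dPol_not_square {k : Type} [Field k] (h2 : (2 : k) ≠ 0) (Δ c : MvPolynomial (Fin 6) k)
    (hΔ : ∀ i ∈ Δ.vars, i = 4 ∨ i = 5) (hc : ∀ i ∈ c.vars, i = 5) (hc0 : c ≠ 0) :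
    ¬ IsSquare (algebraMap (MvPolynomial (Fin 6) k)
      (FractionRing (MvPolynomial (Fin 6) k)) (dPol Δ c)) := by
  sorry

/-- RAT: a point on the generic fibre makes the hypersurface rational (may use HYP, NSQ) -/
theorem rational_of_cov {k : Type} [Field k] [IsAlgClosed k] (h2 : (2 : k) ≠ 0) {l : k}
    (h0 : l ≠ 0) (h1 : l ≠ 1) (D0 c0 : k[X]) (hD0 : D0 ≠ 0) (hc0 : c0 ≠ 0)
    (hcov : Cov (algebraMap k[X] (RatFunc k) D0) (RatFunc.C l) (algebraMap k[X] (RatFunc k) c0))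
    (Δ c : MvPolynomial (Fin 6) k)
    (hΔ : Δ = aeval (MvPolynomial.X 5) D0 * MvPolynomial.X 4 * (MvPolynomial.X 4 - 1) *
      (MvPolynomial.X 4 - MvPolynomial.C l))
    (hc : c = aeval (MvPolynomial.X 5) c0) :
    Nonempty (FractionRing (HR (dPol Δ c)) ≃ₐ[k] FractionRing (MvPolynomial (Fin 6) k)) := by
  sorry

/-- IRR: irrationality (may use everything above) -/
theorem irrational_of_not_cov {k : Type} [Field k] [IsAlgClosed k] {l : k} (hl : GenL l)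
    (hnc : ¬ Cov (DF l) (RatFunc.C l) (cF l)) (D0 c0 : k[X])
    (hD0 : ∃ w, w ≠ 0 ∧ algebraMap k[X] (RatFunc k) D0 = DF l * w ^ 2)
    (hc0 : ∃ w, w ≠ 0 ∧ algebraMap k[X] (RatFunc k) c0 = cF l * w ^ 2)
    (Δ c : MvPolynomial (Fin 6) k)
    (hΔ : Δ = aeval (MvPolynomial.X 5) D0 * MvPolynomial.X 4 * (MvPolynomial.X 4 - 1) *
      (MvPolynomial.X 4 - MvPolynomial.C l))
    (hc : c = aeval (MvPolynomial.X 5) c0) :
    ¬ Nonempty (FractionRing (HR (dPol Δ c)) ≃ₐ[k] FractionRing (MvPolynomial (Fin 6) k)) := by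
  sorry

/-- VAL: valuation rings of the algebraic numbers -/
theorem exists_val (p : ℕ) [Fact p.Prime] :
    ∃ O : ValuationSubring (AlgebraicClosure ℚ), O.valuation (p : AlgebraicClosure ℚ) < 1 ∧
      ∀ m : ℤ, ¬ (p : ℤ) ∣ m → O.valuation (m : AlgebraicClosure ℚ) = 1 := by
  sorry

end Pool.Agent.H918R3.Stubs
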