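import Pool.Agent.H918R3.Defs

set_option autoImplicit false

/-!
Part B: points of `y² = x (x - D) (x - lD)` (exact statements; written proofs in table h918r_tasks).
-/

namespace Pool.Agent.H918R3.StubsB

open Polynomial

variable {K : Type*} [Field K]

/-! ## group law and 2-descent -/

/-- B0: basic facts -/
theorem pt_basic [DecidableEq K] (h2 : (2 : K) ≠ 0) {D l : K} (hD : D ≠ 0) (h0 : l ≠ 0)
    (h1 : l ≠ 1) :
    (∀ x y : K, (crv 0 D (l * D)).toAffine.Nonsingular x y ↔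
      y ^ 2 = x * (x - D) * (x - l * D)) ∧
    (∀ ξ w : K, D * (ξ * (ξ - 1) * (ξ - l)) = w ^ 2 → ∃ P : WD D l, HasX P ξ) ∧
    (∀ (P : WD D l) (ξ : K), HasX P ξ → ∃ w, D * (ξ * (ξ - 1) * (ξ - l)) = w ^ 2) ∧
    (∀ (P Q : WD D l) (ξ : K), HasX P ξ → HasX Q ξ → Q = P ∨ Q = -P) ∧
    (∀ (P : WD D l) (ξ : K), HasX P ξ → HasX (-P) ξ) ∧
    (∀ P : WD D l, P = 0 ∨ ∃ ξ, HasX P ξ) ∧
    (∀ P : WD D l, P + P = 0 ↔ P = 0 ∨ HasX P 0 ∨ HasX P 1 ∨ HasX P l) ∧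
    (d0 (0 : WD D l) = 1 ∧ d1 (0 : WD D l) = 1) ∧
    (∀ P : WD D l, HasX P 0 → d0 P = l * D ^ 2 ∧ d1 P = -D) ∧
    (∀ P : WD D l, HasX P 1 → d0 P = D ∧ d1 P = (1 - l) * D ^ 2) ∧
    (∀ P : WD D l, HasX P l → d0 P = l * D ∧ d1 P = (l - 1) * D) ∧
    (∀ (P : WD D l) (ξ : K), ξ ≠ 0 → ξ ≠ 1 → HasX P ξ → d0 P = ξ * D ∧ d1 P = (ξ - 1) * D) := by
  sorry

/-- B1a -/
theorem dl_add [DecidableEq K] (h2 : (2 : K) ≠ 0) {e1 e2 e3 e f g : K}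
    (hp : crv e f g = crv e1 e2 e3) (hef : e ≠ f) (heg : e ≠ g) (hfg : f ≠ g) (P Q : Pt e1 e2 e3) :
    dl e f g P ≠ 0 ∧ IsSquare (dl e f g (P + Q) * (dl e f g P * dl e f g Q)) := by
  sorry

/-- B1c -/
theorem exists_half [DecidableEq K] (h2 : (2 : K) ≠ 0) {D l : K} (hD : D ≠ 0) (h0 : l ≠ 0)
    (h1 : l ≠ 1) (P : WD D l) (hP0 : IsSquare (d0 P)) (hP1 : IsSquare (d1 P)) :
    ∃ Q : WD D l, P = Q + Q := by
  sorry

/-- T1 -/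
theorem exists_tr [DecidableEq K] {K' : Type*} [Field K'] [DecidableEq K'] (h2 : (2 : K) ≠ 0)
    (φ : K →+* K') (u : K') (hu : u ≠ 0) {D l : K} {D' l' : K'} (hDD : D ≠ 0) (h0 : l ≠ 0)
    (h1 : l ≠ 1) (hD : D' = u ^ 2 * φ D) (hl : l' = φ l) :
    ∃ f : WD D l →+ WD D' l', IsTr φ u f ∧ Function.Injective f := by
  sorry

/-- COV -/
theorem cov_iff [DecidableEq K] (h2 : (2 : K) ≠ 0) {D l c : K} (hD : D ≠ 0) (h0 : l ≠ 0)
    (h1 : l ≠ 1) (hc : c ≠ 0) (hl : IsSquare l) :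
    Cov D l c ↔ ∃ P : WD D l, P ≠ 0 ∧ IsSquare (d0 P) ∧ IsSquare (c * d1 P) := by
  sorry

/-- B7 -/
theorem quad_step {B : Type*} [Field B] [DecidableEq B] [DecidableEq K] (h2 : (2 : B) ≠ 0)
    (φ : B →+* K) (r : K) (e : B) (he : φ e = r ^ 2) (hr : ∀ b : B, φ b ≠ r)
    (hK : ∀ z : K, ∃ a b : B, z = φ a + φ b * r) {D l : B} (hD : D ≠ 0) (h0 : l ≠ 0) (h1 : l ≠ 1)
    {D' l' : K} (hD' : D' = φ D) (hl' : l' = φ l) (f1 : WD D l →+ WD D' l') (hf1 : IsTr φ 1 f1)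
    (f2 : WD (e * D) l →+ WD D' l') (hf2 : IsTr φ r⁻¹ f2) (Q : WD D' l') :
    ∃ (P1 : WD D l) (P2 : WD (e * D) l), Q + Q = f1 P1 + f2 P2 := by
  sorry

/-- TRG: transport of `GenBy` (may use T1, B0) -/
theorem genBy_transport [DecidableEq K] {K' : Type*} [Field K'] [DecidableEq K']
    (h2 : (2 : K) ≠ 0) (φ : K ≃+* K') (u : K') (hu : u ≠ 0) {D l ξ : K} {D' l' ξ' : K'} (hDD : D ≠ 0)
    (h0 : l ≠ 0) (h1 : l ≠ 1) (hD : D' = u ^ 2 * φ D) (hl : l' = φ l) (hξ : ξ' = φ ξ) :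
    (GenBy D l ξ → GenBy D' l' ξ') ∧
    ((∀ R : WD D l, R + R = 0) → ∀ R : WD D' l', R + R = 0) := by
  sorry

/-! ## heights -/

section Heights

variable {k : Type*} [Field k]

/-- B2a -/
theorem ht_double [DecidableEq (RatFunc k)] (h2 : (2 : k) ≠ 0) {D : RatFunc k} (hD : D ≠ 0) {l : k}
    (h0 : l ≠ 0) (h1 : l ≠ 1) (P : WD D (RatFunc.C l)) : ht (P + P) = 4 * ht P := by
  sorry

/-- B2b -/
theorem ht_add_sub_le [DecidableEq (RatFunc k)] (h2 : (2 : k) ≠ 0) {D : RatFunc k} (hD : D ≠ 0)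
    {l : k} (h0 : l ≠ 0) (h1 : l ≠ 1) (P Q : WD D (RatFunc.C l)) :
    ht (P + Q) + ht (P - Q) ≤ 2 * ht P + 2 * ht Q := by
  sorry

/-- B2c (may use B2a, B2b) -/
theorem ht_zsmul [DecidableEq (RatFunc k)] (h2 : (2 : k) ≠ 0) {D : RatFunc k} (hD : D ≠ 0) {l : k}
    (h0 : l ≠ 0) (h1 : l ≠ 1) :
    (∀ P Q : WD D (RatFunc.C l), ht (P + Q) + ht (P - Q) = 2 * ht P + 2 * ht Q) ∧
    (∀ (n : ℤ) (P : WD D (RatFunc.C l)), ht (n • P) = n.natAbs ^ 2 * ht P) ∧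
    (∀ P T : WD D (RatFunc.C l), T + T = 0 → ht (P + T) = ht P ∧ ht T = 0) := by
  sorry

/-- B2d -/
theorem ht_eq_zero [IsAlgClosed k] [DecidableEq (RatFunc k)] (h2 : (2 : k) ≠ 0) {D : RatFunc k}
    (hD : ¬ IsSquare D) {l : k} (h0 : l ≠ 0) (h1 : l ≠ 1) (P : WD D (RatFunc.C l))
    (hP : ht P = 0) : P + P = 0 := by
  sorry

/-- B4 (may use B2a, B2b, B2c, B2d) -/
theorem descent [IsAlgClosed k] [DecidableEq (RatFunc k)] (h2 : (2 : k) ≠ 0) {D : RatFunc k}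
    (hD : ¬ IsSquare D) {l : k} (h0 : l ≠ 0) (h1 : l ≠ 1) (P0 : WD D (RatFunc.C l))
    (hP0 : ht P0 ≤ 1)
    (H : ∀ R : WD D (RatFunc.C l), ∃ (m : ℤ) (T S : WD D (RatFunc.C l)), T + T = 0 ∧
      R = m • P0 + T + (S + S)) (R : WD D (RatFunc.C l)) :
    ∃ (n : ℤ) (T : WD D (RatFunc.C l)), T + T = 0 ∧ R = n • P0 + T := by
  sorry

/-! ## classes -/

/-- PSQ: squares among the `PS S` -/
theorem ps_square [IsAlgClosed k] [DecidableEq k] :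
    (∀ S : Finset k, IsSquare (PS S) ↔ S = ∅) ∧
    (∀ S T : Finset k, ∃ w : RatFunc k, w ≠ 0 ∧ PS S * PS T = PS (symmDiff S T) * w ^ 2) ∧
    (∀ z : RatFunc k, z ≠ 0 → ∃ S : Finset k, IsSquare (z * PS S)) := by
  sorry

/-- B3u -/
theorem classes [IsAlgClosed k] (h2 : (2 : k) ≠ 0) (A : Finset k) {l : k} (h0 : l ≠ 0) (h1 : l ≠ 1)
    {D : RatFunc k} (hD : D = PS A) (P : WD D (RatFunc.C l)) :
    (∃ S ⊆ A, IsSquare (d0 P * PS S)) ∧ (∃ S ⊆ A, IsSquare (d1 P * PS S)) := by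
  sorry

/-- N1: the nodal lemma -/
theorem nodal (O : ValuationSubring K) {D l : K} (hD : D ≠ 0) (h0 : l ≠ 0) (h1 : l ≠ 1)
    (hm : IsSquare (-1 : K)) (hl : IsSquare l) (P : WD D l) :
    (O.valuation l < 1 → SqU O (d1 P) ∨ SqU O (D * d1 P)) ∧
    (O.valuation (1 - l) < 1 → SqU O (d0 P) ∨ SqU O (D * d0 P)) ∧
    (O.valuation l⁻¹ < 1 → SqU O (d0 P * d1 P) ∨ SqU O (D * (d0 P * d1 P))) := by
  sorry

/-- PAR -/
theorem parity [IsAlgClosed k] (O : ValuationSubring k) (O' : ValuationSubring (RatFunc k))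
    (hG : IsGauss O O') (S : Finset k) (α β : k) (hβ : β ≠ 0)
    (hS : SqU O' (∏ a ∈ S, (RatFunc.C β * RatFunc.X + RatFunc.C (α - a)))) (r : k) (hr : r ∈ O) :
    Even (nR O S α β r) := by
  sorry

/-- PAR2 (may use GA, N1, PAR, T1): the parity constraint from one degeneration and one zoom.
`S` is the class of `d1` (if `l` is small), of `d0` (if `1 - l` is small), of `d0 d1` (if `1 / l` is
small). -/
theorem constraint [IsAlgClosed k] [DecidableEq k] (O : ValuationSubring k) (A : Finset k) {l : k}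
    (h2 : (2 : k) ≠ 0) (h0 : l ≠ 0) (h1 : l ≠ 1) {D : RatFunc k} (hD : D = PS A)
    (P : WD D (RatFunc.C l)) (α β : k) (hβ : β ≠ 0) :
    (O.valuation l < 1 → ∀ S : Finset k, IsSquare (d1 P * PS S) →
      (∀ r ∈ O, Even (nR O S α β r)) ∨
      (∀ r ∈ O, Even (nR O (symmDiff A S) α β r))) ∧
    (O.valuation (1 - l) < 1 → ∀ S : Finset k, IsSquare (d0 P * PS S) →
      (∀ r ∈ O, Even (nR O S α β r)) ∨
      (∀ r ∈ O, Even (nR O (symmDiff A S) α β r))) ∧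
    (O.valuation l⁻¹ < 1 → ∀ S : Finset k, IsSquare (d0 P * d1 P * PS S) →
      (∀ r ∈ O, Even (nR O S α β r)) ∨
      (∀ r ∈ O, Even (nR O (symmDiff A S) α β r))) := by
  sorry

/-- C1 -/
theorem gen_one [IsAlgClosed k] [DecidableEq (RatFunc k)] {l : k} (h2 : (2 : k) ≠ 0) (h0 : l ≠ 0)
    (h1 : l ≠ 1) (O1 O2 O3 : ValuationSubring k) (hO1 : O1.valuation l < 1)
    (hO2 : O2.valuation (1 - l) < 1) (hO3 : O3.valuation l⁻¹ < 1) {D : RatFunc k}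
    (hD : D = RatFunc.X * (RatFunc.X - 1) * (RatFunc.X - RatFunc.C l)) :
    GenBy D (RatFunc.C l) RatFunc.X := by
  sorry

/-- C2 -/
theorem tors_six [IsAlgClosed k] [DecidableEq (RatFunc k)] {l : k} (hl : GenL l)
    (O1 O2 O3 : ValuationSubring k) (hO1 : O1.valuation l < 1)
    (hO2 : O2.valuation (1 - l) < 1) (hO3 : O3.valuation l⁻¹ < 1) (ho1 : O1.valuation 2 = 1)
    (ho2 : O2.valuation 2 = 1) (ho3 : O3.valuation 2 = 1) {D : RatFunc k}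
    (hD : D = RatFunc.X * (RatFunc.X - 1) * (RatFunc.X - RatFunc.C l) *
      (RatFunc.X - RatFunc.C (1 - l)) * (RatFunc.X - RatFunc.C l⁻¹)) (R : WD D (RatFunc.C l)) :
    R + R = 0 := by
  sorry

/-- C1s: the two other twists (may use C1, TRG) -/
theorem gen_sym [IsAlgClosed k] [DecidableEq (RatFunc k)] {l : k} (hl : GenL l)
    (hgen : GenBy (RatFunc.X * (RatFunc.X - 1) * (RatFunc.X - RatFunc.C l)) (RatFunc.C l)
      RatFunc.X) :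
    GenBy (RatFunc.X * (RatFunc.X - 1) * (RatFunc.X - RatFunc.C (1 - l))) (RatFunc.C l)
      (1 - RatFunc.X) ∧
    GenBy (RatFunc.X * (RatFunc.X - 1) * (RatFunc.X - RatFunc.C l⁻¹)) (RatFunc.C l)
      RatFunc.X⁻¹ := by
  sorry

/-! ## the field `k(τ)` -/

/-- FD: `k(τ) ⊃ k(ρ) ⊃ k(t)` -/
theorem field_decomp [IsAlgClosed k] {l : k} (hl : GenL l) :
    ∃ (φ1 φ2 : RatFunc k →+* RatFunc k) (e1 : RatFunc k),
      (∀ c : k, φ1 (RatFunc.C c) = RatFunc.C c) ∧ (∀ c : k, φ2 (RatFunc.C c) = RatFunc.C c) ∧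
      φ2 (φ1 RatFunc.X) = tF l ∧ φ1 e1 = RatFunc.X ^ 2 ∧ e1 ≠ 0 ∧ e1 ≠ 1 ∧
      (∀ b, φ1 b ≠ RatFunc.X) ∧ (∀ z, ∃ a b, z = φ1 a + φ1 b * RatFunc.X) ∧
      φ2 (1 - RatFunc.X ^ 2) = (2 * RatFunc.X / (1 + RatFunc.X ^ 2)) ^ 2 ∧
      (∀ b, φ2 b ≠ 2 * RatFunc.X / (1 + RatFunc.X ^ 2)) ∧
      (∀ z, ∃ a b, z = φ2 a + φ2 b * (2 * RatFunc.X / (1 + RatFunc.X ^ 2))) ∧
      (∃ w, w ≠ 0 ∧ e1 = (RatFunc.X - RatFunc.C (1 - l)) * (RatFunc.X - RatFunc.C l) * w ^ 2) ∧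
      (∃ w, w ≠ 0 ∧ 1 - e1 = (RatFunc.X - RatFunc.C l⁻¹) * (RatFunc.X - RatFunc.C l) * w ^ 2) := by
  sorry

/-- IND: independence and relations of the classes in `k(τ)` -/
theorem tF_classes [IsAlgClosed k] {l : k} (hl : GenL l) :
    tF l ≠ 0 ∧ tF l ≠ 1 ∧ tF l - RatFunc.C l ≠ 0 ∧
    (∀ i j n : ℕ, IsSquare (tF l ^ i * (tF l - 1) ^ j * (tF l - RatFunc.C l) ^ n) →
      Even i ∧ Even j ∧ Even n) ∧
    (IsSquare ((tF l - RatFunc.C l) * (tF l - RatFunc.C (1 - l)))) ∧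
    (IsSquare ((tF l - RatFunc.C l) * (tF l - RatFunc.C l⁻¹))) := by
  sorry

/-- IND2: the classes in terms of quartic polynomials -/
theorem tF_quartics [IsAlgClosed k] {l : k} (hl : GenL l) :
    ∃ g0 g1 gi : k[X], g0.natDegree = 4 ∧ g1.natDegree = 4 ∧ gi.natDegree = 4 ∧
      IsCoprime g0 g1 ∧ IsCoprime g0 gi ∧ IsCoprime g1 gi ∧
      (∃ w, w ≠ 0 ∧ cF l = algebraMap k[X] (RatFunc k) g0 * w ^ 2) ∧
      (∃ w, w ≠ 0 ∧ (tF l - 1) * (tF l - RatFunc.C l) = algebraMap k[X] (RatFunc k) g1 * w ^ 2) ∧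
      (∃ w, w ≠ 0 ∧ tF l - RatFunc.C l = algebraMap k[X] (RatFunc k) gi * w ^ 2) := by
  sorry

/-- PBp1: Frobenius gives a point whose class is not that of a multiple of `P0`
(may use B0, B1a, B1c, B2a-d, B4) -/
theorem charp_nonscalar (p : ℕ) [Fact p.Prime] (hp : p ≠ 2) [IsAlgClosed k] [CharP k p]
    [DecidableEq (RatFunc k)] {l : k} (hl : l ^ p = l) (h0 : l ≠ 0) (h1 : l ≠ 1) {D : RatFunc k}
    (hD : D = RatFunc.X * (RatFunc.X - 1) * (RatFunc.X - RatFunc.C l)) (P0 : WD D (RatFunc.C l))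
    (hP0 : HasX P0 RatFunc.X) :
    ∃ R : WD D (RatFunc.C l), ∀ (m : ℤ) (T : WD D (RatFunc.C l)), T + T = 0 →
      ¬ (IsSquare (d0 R * d0 (m • P0 + T)) ∧ IsSquare (d1 R * d1 (m • P0 + T))) := by
  sorry

/-- PBp2 (may use B0, B1a, B3u, T1, COV, IND, PBp1) -/
theorem cov_charp (p : ℕ) [Fact p.Prime] (hp : p ≠ 2) [IsAlgClosed k] [CharP k p] {l : k}
    (hlp : l ^ p = l) (hl : GenL l) : Cov (DF l) (RatFunc.C l) (cF l) := by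
  sorry

/-- MT (may use B0, B7, T1, TRG, C1, C2, C1s, FD) -/
theorem four_mul [IsAlgClosed k] [DecidableEq (RatFunc k)] {l : k} (hl : GenL l)
    (hg1 : GenBy (RatFunc.X * (RatFunc.X - 1) * (RatFunc.X - RatFunc.C l)) (RatFunc.C l)
      RatFunc.X)
    (hg2 : GenBy (RatFunc.X * (RatFunc.X - 1) * (RatFunc.X - RatFunc.C (1 - l))) (RatFunc.C l)
      (1 - RatFunc.X))
    (hg3 : GenBy (RatFunc.X * (RatFunc.X - 1) * (RatFunc.X - RatFunc.C l⁻¹)) (RatFunc.C l)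
      RatFunc.X⁻¹)
    (hg6 : ∀ R : WD (RatFunc.X * (RatFunc.X - 1) * (RatFunc.X - RatFunc.C l) *
      (RatFunc.X - RatFunc.C (1 - l)) * (RatFunc.X - RatFunc.C l⁻¹)) (RatFunc.C l), R + R = 0)
    (Q1 Q2 Q3 : WD (DF l) (RatFunc.C l)) (hQ1 : HasX Q1 (tF l)) (hQ2 : HasX Q2 (1 - tF l))
    (hQ3 : HasX Q3 (tF l)⁻¹) (Q : WD (DF l) (RatFunc.C l)) :
    ∃ (n1 n2 n3 : ℤ) (T : WD (DF l) (RatFunc.C l)), T + T = 0 ∧
      (4 : ℤ) • Q = n1 • Q1 + n2 • Q2 + n3 • Q3 + T := by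
  sorry

/-- PB0 (may use B0, B1a, COV, IND) -/
theorem not_cov [IsAlgClosed k] [DecidableEq (RatFunc k)] {l : k} (hl : GenL l)
    (hm : ∀ (Q1 Q2 Q3 : WD (DF l) (RatFunc.C l)), HasX Q1 (tF l) → HasX Q2 (1 - tF l) →
      HasX Q3 (tF l)⁻¹ → ∀ Q : WD (DF l) (RatFunc.C l),
      ∃ (n1 n2 n3 : ℤ) (T : WD (DF l) (RatFunc.C l)), T + T = 0 ∧
        (4 : ℤ) • Q = n1 • Q1 + n2 • Q2 + n3 • Q3 + T) :
    ¬ Cov (DF l) (RatFunc.C l) (cF l) := by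
  sorry

/-- URi1: the five splittings (may use B0, B1a, B3, IND) -/
theorem five_splittings [IsAlgClosed k] {l : k} (hl : GenL l) {F : Type*} [Field F]
    (φ : RatFunc k →+* F) (x Δ : F)
    (hΔ : Δ = φ (DF l) * x * (x - 1) * (x - φ (RatFunc.C l))) :
    Pur Δ x (φ (tF l)) ∧
    Pur Δ x (φ ((tF l - 1) * (tF l - RatFunc.C l))) ∧
    Pur Δ (x - 1) (φ (tF l * (tF l - RatFunc.C l))) ∧
    Pur Δ (x - 1) (φ (tF l - 1)) ∧
    Pur Δ (x - φ (RatFunc.C l)) (φ (tF l - RatFunc.C l)) := by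
  sorry

end Heights

end Pool.Agent.H918R3.StubsB
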