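import Mathlib
import Pool.Agent.H918R3.Defs

set_option autoImplicit false

/-!
Task A1a (lattice_finite): a form over `F(t)` which is unramified at all finite places has a Gram
matrix over `F[t]` with unit determinant (helper998).
-/

namespace Pool.Agent.H918R3

open Matrix Polynomial IsDedekindDomain WithZero

namespace TA1a

section gen

variable {R K : Type*} [CommRing R] [IsDedekindDomain R] [Field K] [Algebra R K]
  [IsFractionRing R K]

/-- elements with denominator a power of `p` -/
def Away (K : Type*) [Field K] [Algebra R K] (p : R) : Subring K where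
  carrier := {x | ∃ (k : ℕ) (r : R), algebraMap R K p ^ k * x = algebraMap R K r}
  mul_mem' := by
    rintro x y ⟨k, r, hr⟩ ⟨l, s, hs⟩
    refine ⟨k + l, r * s, ?_⟩
    rw [map_mul, ← hr, ← hs]; ring
  one_mem' := ⟨0, 1, by simp⟩
  add_mem' := by
    rintro x y ⟨k, r, hr⟩ ⟨l, s, hs⟩
    refine ⟨k + l, p ^ l * r + p ^ k * s, ?_⟩
    rw [map_add, map_mul, map_mul, ← hr, ← hs, map_pow, map_pow]; ring
  zero_mem' := ⟨0, 0, by simp⟩
  neg_mem' := by
    rintro x ⟨k, r, hr⟩
    refine ⟨k, -r, ?_⟩
    rw [map_neg, ← hr]; ring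

theorem algebraMap_mem_away (p r : R) : algebraMap R K r ∈ Away K p := ⟨0, r, by simp⟩

variable (v : HeightOneSpectrum R) (p : R)

theorem val_p (hp0 : p ≠ 0) (hp : v.asIdeal = Ideal.span {p}) :
    v.valuation K (algebraMap R K p) = exp (-1 : ℤ) := by
  rw [HeightOneSpectrum.valuation_of_algebraMap, v.intValuation_singleton hp0 hp]

theorem away_int (hp0 : p ≠ 0) (hp : v.asIdeal = Ideal.span {p}) {x : K} (hx : x ∈ Away K p)
    (hv : v.valuation K x ≤ 1) : ∃ r : R, algebraMap R K r = x := by
  obtain ⟨k, r, hr⟩ := hx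
  have h1 : v.intValuation r ≤ exp (-(k : ℤ)) := by
    have h0 : v.intValuation r = v.valuation K (algebraMap R K r) :=
      (v.valuation_of_algebraMap r).symm
    rw [h0, ← hr, map_mul, map_pow, val_p v p hp0 hp, ← WithZero.exp_nsmul]
    calc exp (k • (-1 : ℤ)) * v.valuation K x ≤ exp (k • (-1 : ℤ)) * 1 := by gcongr
      _ = exp (-(k : ℤ)) := by rw [mul_one]; congr 1; simp
  rw [v.intValuation_le_pow_iff_mem, hp, Ideal.span_singleton_pow,
    Ideal.mem_span_singleton] at h1
  obtain ⟨s, hs⟩ := h1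
  refine ⟨s, ?_⟩
  have h2 : algebraMap R K p ^ k ≠ 0 := by
    apply pow_ne_zero
    rwa [ne_eq, map_eq_zero_iff _ (IsFractionRing.injective R K)]
  apply mul_left_cancel₀ h2
  rw [hr, hs, map_mul, map_pow]

/-- one step of the elimination -/
theorem step (hp0 : p ≠ 0) (hp : v.asIdeal = Ideal.span {p}) {n : ℕ}
    (C : Matrix (Fin n) (Fin n) K) (hC : ∀ i j, v.valuation K (C i j) ≤ 1)
    (hdet : v.valuation K C.det < 1) :
    ∃ (i : Fin n) (r : Fin n → R), r i = 1 ∧
      ∀ j, v.valuation K (((fun k => algebraMap R K (r k)) ᵥ* C) j) < 1 := by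
  set O : ValuationSubring K := (v.valuation K).valuationSubring with hO
  have hmem : ∀ x : K, x ∈ O ↔ v.valuation K x ≤ 1 := fun x =>
    (v.valuation K).mem_valuationSubring_iff x
  set C' : Matrix (Fin n) (Fin n) O := fun i j => ⟨C i j, (hmem _).2 (hC i j)⟩ with hC'
  have hCC : C = C'.map (algebraMap O K) := by
    ext i j; rfl
  have hdet' : ((C'.det : O) : K) = C.det := by
    rw [hCC]
    exact RingHom.map_det (algebraMap O K) C'
  -- an element of `O` lies in the maximal ideal iff its valuation is `< 1`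
  have hmax : ∀ x : O, x ∈ IsLocalRing.maximalIdeal O ↔ v.valuation K (x : K) < 1 := by
    intro x
    rw [IsLocalRing.mem_maximalIdeal, mem_nonunits_iff]
    constructor
    · intro h
      refine lt_of_le_of_ne ((hmem _).1 x.2) fun h1 => h ?_
      exact ((Valuation.isEquiv_valuation_valuationSubring (v.valuation K)).eq_one_iff_eq_one.1 h1
        |> fun h2 => (O.valuation_eq_one_iff x).2 h2)
    · intro h h1
      have h2 := (O.valuation_eq_one_iff x).1 h1
      have h3 := (Valuation.isEquiv_valuation_valuationSubring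
        (v.valuation K)).eq_one_iff_eq_one.2 h2
      exact absurd h3 h.ne
  set κ := IsLocalRing.ResidueField O
  have h0 : (C'.map (IsLocalRing.residue O)).det = 0 := by
    have h1 : (C'.map (IsLocalRing.residue O)).det = IsLocalRing.residue O C'.det :=
      (RingHom.map_det (IsLocalRing.residue O) C').symm
    rw [h1, IsLocalRing.residue_eq_zero_iff, hmax, hdet']
    exact hdet
  obtain ⟨y, hy0, hy⟩ := Matrix.exists_vecMul_eq_zero_iff.2 h0
  obtain ⟨i, hi⟩ : ∃ i, y i ≠ 0 := by
    by_contra h
    push Not at h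
    exact hy0 (funext h)
  -- normalise
  set z : Fin n → κ := fun k => (y i)⁻¹ * y k with hz
  have hzi : z i = 1 := inv_mul_cancel₀ hi
  have hzC : z ᵥ* (C'.map (IsLocalRing.residue O)) = 0 := by
    have : z = (y i)⁻¹ • y := rfl
    rw [this, Matrix.smul_vecMul, hy, smul_zero]
  -- lift to `R`
  have hlift : ∀ a : κ, ∃ r : R, ∀ x : O, (x : K) = algebraMap R K r →
      IsLocalRing.residue O x = a := by
    intro a
    obtain ⟨x, rfl⟩ := IsLocalRing.residue_surjective a
    obtain ⟨r, hr⟩ := v.exists_valuation_sub_lt_of_integer ((hmem _).1 x.2) 1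
    refine ⟨r, fun x' hx' => ?_⟩
    rw [← sub_eq_zero, ← map_sub, IsLocalRing.residue_eq_zero_iff, hmax]
    rw [← hx'] at hr
    exact_mod_cast hr
  choose g hg using hlift
  refine ⟨i, fun k => if k = i then 1 else g (z k), if_pos rfl, fun j => ?_⟩
  set r : Fin n → R := fun k => if k = i then 1 else g (z k) with hr
  have hrO : ∀ k, algebraMap R K (r k) ∈ O := fun k => (hmem _).2 (v.valuation_le_one (r k))
  have hres : ∀ k, IsLocalRing.residue O ⟨algebraMap R K (r k), hrO k⟩ = z k := by
    intro k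
    by_cases hk : k = i
    · subst hk
      rw [hzi, ← map_one (IsLocalRing.residue O)]
      congr 1
      apply Subtype.ext
      simp [hr]
    · apply hg
      simp [hr, hk]
  have h5 : (((∑ k, (⟨algebraMap R K (r k), hrO k⟩ : O) * C' k j : O)) : K) =
      ((fun k => algebraMap R K (r k)) ᵥ* C) j := by
    simp only [Matrix.vecMul, dotProduct]
    push_cast
    rfl
  rw [← h5, ← hmax, ← IsLocalRing.residue_eq_zero_iff, map_sum]
  have h6 := congrFun hzC j
  simp only [Matrix.vecMul, dotProduct, Matrix.map_apply, Pi.zero_apply] at h6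
  rw [← h6]
  refine Finset.sum_congr rfl fun k _ => ?_
  rw [map_mul, hres]

/-- decomposition of a matrix -/
theorem decomp (hp0 : p ≠ 0) (hp : v.asIdeal = Ideal.span {p}) {n : ℕ}
    (M : Matrix (Fin n) (Fin n) K) (hM : M.det ≠ 0) (m : ℕ) :
    ∀ (A C : Matrix (Fin n) (Fin n) K), A * C = M → (∀ i j, A i j ∈ Away K p) →
      (∀ i j, v.valuation K (C i j) ≤ 1) → (∃ z : ℤ, A.det = algebraMap R K p ^ z) →
      exp (-(m : ℤ)) ≤ v.valuation K C.det →
    ∃ (A C : Matrix (Fin n) (Fin n) K), A * C = M ∧ (∀ i j, A i j ∈ Away K p) ∧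
      (∀ i j, v.valuation K (C i j) ≤ 1) ∧ (∃ z : ℤ, A.det = algebraMap R K p ^ z) ∧
      v.valuation K C.det = 1 := by
  have hπ : algebraMap R K p ≠ 0 := by
    rwa [ne_eq, map_eq_zero_iff _ (IsFractionRing.injective R K)]
  have hle : ∀ C : Matrix (Fin n) (Fin n) K, (∀ i j, v.valuation K (C i j) ≤ 1) →
      v.valuation K C.det ≤ 1 := by
    intro C hC
    set O : ValuationSubring K := (v.valuation K).valuationSubring with hO
    have hmem : ∀ x : K, x ∈ O ↔ v.valuation K x ≤ 1 := fun x =>
      (v.valuation K).mem_valuationSubring_iff x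
    set C' : Matrix (Fin n) (Fin n) O := fun i j => ⟨C i j, (hmem _).2 (hC i j)⟩ with hC'
    have hCC : C = C'.map (algebraMap O K) := by
      ext i j; rfl
    have hdet' : ((C'.det : O) : K) = C.det := by
      rw [hCC]
      exact RingHom.map_det (algebraMap O K) C'
    rw [← hdet']
    exact (hmem _).1 C'.det.2
  induction m with
  | zero =>
    intro A C hAC hA hC hz hdet
    refine ⟨A, C, hAC, hA, hC, hz, le_antisymm (hle C hC) ?_⟩
    simpa using hdet
  | succ m ih =>
    intro A C hAC hA hC hz hdet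
    by_cases h1 : v.valuation K C.det = 1
    · exact ⟨A, C, hAC, hA, hC, hz, h1⟩
    have h2 : v.valuation K C.det < 1 := lt_of_le_of_ne (hle C hC) h1
    have hCdet : C.det ≠ 0 := by
      intro h
      apply hM
      rw [← hAC, Matrix.det_mul, h, mul_zero]
    obtain ⟨i, r, hri, hr⟩ := step v p hp0 hp C hC h2
    set π := algebraMap R K p with hπd
    set r' : Fin n → K := fun k => algebraMap R K (r k) with hr'
    set w : Fin n → K := r' ᵥ* C with hw
    have hwsum : w = ∑ k, r' k • C k := by
      ext j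
      simp [hw, Matrix.vecMul, dotProduct]
    set C1 := C.updateRow i (π⁻¹ • w) with hC1
    set E : Matrix (Fin n) (Fin n) K :=
      (1 : Matrix (Fin n) (Fin n) K).updateRow i (fun j => if j = i then π else -r' j) with hE
    have hEC : E * C1 = C := by
      ext a j
      rw [Matrix.mul_apply]
      by_cases ha : a = i
      · subst ha
        have e1 : ∀ k, E a k * C1 k j =
            (if k = a then π * (π⁻¹ * w j) else 0) - (if k = a then 0 else r' k * C k j) := by
          intro k
          by_cases hk : k = a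
          · subst hk
            simp [hE, hC1]
          · simp [hE, hC1, hk, Matrix.updateRow_ne hk]
        rw [Finset.sum_congr rfl fun k _ => e1 k, Finset.sum_sub_distrib]
        have e2 : ∑ k, (if k = a then π * (π⁻¹ * w j) else 0) = w j := by
          rw [Finset.sum_ite_eq' Finset.univ a, if_pos (Finset.mem_univ _),
            mul_inv_cancel_left₀ hπ]
        have e3 : w j = ∑ k, r' k * C k j := by simp [hw, Matrix.vecMul, dotProduct]
        have e4 : ∑ k, r' k * C k j = r' a * C a j + ∑ k, (if k = a then 0 else r' k * C k j) := by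
          rw [← Finset.add_sum_erase Finset.univ (fun k => r' k * C k j) (Finset.mem_univ a),
            ← Finset.add_sum_erase Finset.univ
              (fun k => if k = a then 0 else r' k * C k j) (Finset.mem_univ a), if_pos rfl,
            zero_add]
          congr 1
          refine Finset.sum_congr rfl fun k hk => ?_
          rw [if_neg (Finset.ne_of_mem_erase hk)]
        rw [e2, e3, e4, hr']
        simp [hri]
      · have e1 : ∀ k, E a k * C1 k j = if k = a then C a j else 0 := by
          intro k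
          by_cases hk : k = a
          · subst hk
            simp [hE, hC1, ha]
          · have : E a k = 0 := by
              rw [hE, Matrix.updateRow_ne ha, Matrix.one_apply_ne (Ne.symm hk)]
            rw [this, zero_mul, if_neg hk]
        rw [Finset.sum_congr rfl fun k _ => e1 k, Finset.sum_ite_eq' Finset.univ a,
          if_pos (Finset.mem_univ _)]
    have hdC1 : C1.det = π⁻¹ * C.det := by
      rw [hC1, Matrix.det_updateRow_smul, hwsum, Matrix.det_updateRow_sum, hr']
      simp [hri]
    have hdC1ne : C1.det ≠ 0 := by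
      rw [hdC1]
      exact mul_ne_zero (inv_ne_zero hπ) hCdet
    refine ih (A * E) C1 (by rw [Matrix.mul_assoc, hEC, hAC]) ?_ ?_ ?_ ?_
    · intro a b
      rw [Matrix.mul_apply]
      refine Subring.sum_mem _ fun k _ => Subring.mul_mem _ (hA a k) ?_
      by_cases hk : k = i
      · subst hk
        rw [hE, Matrix.updateRow_self]
        split_ifs
        · exact algebraMap_mem_away p p
        · exact Subring.neg_mem _ (algebraMap_mem_away p _)
      · rw [hE, Matrix.updateRow_ne hk, Matrix.one_apply]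
        split_ifs
        · exact Subring.one_mem _
        · exact Subring.zero_mem _
    · intro a b
      by_cases ha : a = i
      · subst ha
        rw [hC1, Matrix.updateRow_self, Pi.smul_apply, smul_eq_mul, map_mul, map_inv₀,
          val_p v p hp0 hp]
        have h3 := hr b
        have h4 : v.valuation K (w b) ≤ exp (-1 : ℤ) := by
          have : v.valuation K (w b) < exp (0 : ℤ) := by rw [exp_zero]; exact h3
          rcases eq_or_ne (v.valuation K (w b)) 0 with h0 | h0
          · rw [h0]; exact zero_le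
          · rw [← exp_log h0, exp_lt_exp] at this
            rw [← exp_log h0, exp_le_exp]
            omega
        calc (exp (-1 : ℤ))⁻¹ * v.valuation K (w b) ≤ (exp (-1 : ℤ))⁻¹ * exp (-1 : ℤ) := by gcongr
          _ = 1 := inv_mul_cancel₀ (by simp)
      · rw [hC1, Matrix.updateRow_ne ha]
        exact hC a b
    · obtain ⟨z, hz⟩ := hz
      refine ⟨z + 1, ?_⟩
      have h5 : (A * E).det * C1.det = A.det * C.det := by
        rw [← Matrix.det_mul, ← Matrix.det_mul, Matrix.mul_assoc, hEC]
      have h5' : π * ((A * E).det * (π⁻¹ * C.det)) = π * (A.det * C.det) := by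
        rw [← hdC1, h5]
      have h6 : (A * E).det = A.det * π := by
        apply mul_right_cancel₀ hCdet
        calc (A * E).det * C.det = π * ((A * E).det * (π⁻¹ * C.det)) := by field_simp
          _ = π * (A.det * C.det) := h5'
          _ = A.det * π * C.det := by ring
      rw [h6, hz, zpow_add₀ hπ, zpow_one]
    · rw [hdC1, map_mul, map_inv₀, val_p v p hp0 hp]
      calc exp (-(m : ℤ)) = (exp (-1 : ℤ))⁻¹ * exp (-((m + 1 : ℕ) : ℤ)) := by
            rw [← WithZero.exp_neg, ← WithZero.exp_add]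
            congr 1
            push_cast
            ring
        _ ≤ (exp (-1 : ℤ))⁻¹ * v.valuation K C.det := by gcongr

/-- existence of the decomposition -/
theorem decomp' (hp0 : p ≠ 0) (hp : v.asIdeal = Ideal.span {p}) {n : ℕ}
    (M : Matrix (Fin n) (Fin n) K) (hM : M.det ≠ 0) :
    ∃ (A C : Matrix (Fin n) (Fin n) K), A * C = M ∧ (∀ i j, A i j ∈ Away K p) ∧
      (∀ i j, v.valuation K (C i j) ≤ 1) ∧ (∃ z : ℤ, A.det = algebraMap R K p ^ z) ∧
      v.valuation K C.det = 1 := by
  have hπ : algebraMap R K p ≠ 0 := by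
    rwa [ne_eq, map_eq_zero_iff _ (IsFractionRing.injective R K)]
  set π := algebraMap R K p with hπd
  have hN : ∀ x : K, ∃ N : ℕ, ∀ N' : ℕ, N ≤ N' → v.valuation K (π ^ N' * x) ≤ 1 := by
    intro x
    rcases eq_or_ne x 0 with rfl | hx
    · exact ⟨0, fun N' _ => by simp⟩
    have h0 : v.valuation K x ≠ 0 := by
      rwa [ne_eq, map_eq_zero]
    refine ⟨(log (v.valuation K x)).toNat, fun N' hN' => ?_⟩
    rw [map_mul, map_pow, val_p v p hp0 hp, ← exp_log h0, ← WithZero.exp_nsmul, ← WithZero.exp_add, ← WithZero.exp_zero,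
      exp_le_exp]
    have := Int.self_le_toNat (log (v.valuation K x))
    simp only [nsmul_eq_mul, mul_neg, mul_one]
    have h2 : ((log (v.valuation K x)).toNat : ℤ) ≤ N' := by exact_mod_cast hN'
    linarith
  choose N hN using hN
  set L : ℕ := ∑ i, ∑ j, N (M i j) with hL
  have hNL : ∀ i j, N (M i j) ≤ L := by
    intro i j
    calc N (M i j) ≤ ∑ j, N (M i j) :=
          Finset.single_le_sum (f := fun j => N (M i j)) (fun _ _ => Nat.zero_le _)
            (Finset.mem_univ j)
      _ ≤ L := Finset.single_le_sum (f := fun i => ∑ j, N (M i j)) (fun _ _ => Nat.zero_le _)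
            (Finset.mem_univ i)
  have hd0 : v.valuation K (π ^ L • M).det ≠ 0 := by
    rw [ne_eq, map_eq_zero, Matrix.det_smul]
    exact mul_ne_zero (pow_ne_zero _ (pow_ne_zero _ hπ)) hM
  refine decomp v p hp0 hp M hM (-(log (v.valuation K (π ^ L • M).det))).toNat
    ((π ^ L)⁻¹ • (1 : Matrix (Fin n) (Fin n) K)) (π ^ L • M) ?_ ?_ ?_ ?_ ?_
  · rw [Matrix.smul_mul, Matrix.mul_smul, Matrix.one_mul, smul_smul,
      inv_mul_cancel₀ (pow_ne_zero _ hπ), one_smul]
  · intro i j
    rw [Matrix.smul_apply, Matrix.one_apply, smul_eq_mul]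
    split_ifs
    · refine ⟨L, 1, ?_⟩
      rw [mul_one, map_one, mul_inv_cancel₀ (pow_ne_zero _ hπ)]
    · rw [mul_zero]
      exact Subring.zero_mem _
  · intro i j
    rw [Matrix.smul_apply, smul_eq_mul]
    exact hN _ _ (hNL i j)
  · refine ⟨-((L * n : ℕ) : ℤ), ?_⟩
    rw [Matrix.det_smul, Matrix.det_one, mul_one, Fintype.card_fin, _root_.zpow_neg, zpow_natCast,
      inv_pow, pow_mul]
  · conv_rhs => rw [← exp_log hd0]
    rw [exp_le_exp]
    have := Int.self_le_toNat (-(log (v.valuation K (π ^ L • M).det)))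
    linarith

/-- the inverse of a matrix with unit determinant -/
theorem inv_int {n : ℕ} (C : Matrix (Fin n) (Fin n) K)
    (hC : ∀ i j, v.valuation K (C i j) ≤ 1) (hdet : v.valuation K C.det = 1) :
    ∃ D : Matrix (Fin n) (Fin n) K, C * D = 1 ∧ ∀ i j, v.valuation K (D i j) ≤ 1 := by
  set O : ValuationSubring K := (v.valuation K).valuationSubring with hO
  have hmem : ∀ x : K, x ∈ O ↔ v.valuation K x ≤ 1 := fun x =>
    (v.valuation K).mem_valuationSubring_iff x
  set C' : Matrix (Fin n) (Fin n) O := fun i j => ⟨C i j, (hmem _).2 (hC i j)⟩ with hC'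
  have hCC : C = C'.map (algebraMap O K) := by
    ext i j; rfl
  have hdet' : ((C'.det : O) : K) = C.det := by
    rw [hCC]
    exact RingHom.map_det (algebraMap O K) C'
  have hne : C.det ≠ 0 := by
    intro h
    rw [h, map_zero] at hdet
    exact zero_ne_one hdet
  have hinv : (C.det)⁻¹ ∈ O := by
    rw [hmem, map_inv₀, hdet, inv_one]
  refine ⟨((C.det)⁻¹) • (C'.adjugate.map (algebraMap O K)), ?_, ?_⟩
  · have h1 : (C'.adjugate.map (algebraMap O K)) = C.adjugate := by
      rw [hCC]
      exact RingHom.map_adjugate (algebraMap O K) C'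
    rw [h1, Matrix.mul_smul, Matrix.mul_adjugate, smul_smul, inv_mul_cancel₀ hne, one_smul]
  · intro i j
    rw [← hmem, Matrix.smul_apply, smul_eq_mul]
    exact O.mul_mem _ _ hinv (C'.adjugate i j).2

end gen

section pol

variable {F : Type*} [Field F]

theorem exists_start {n : ℕ} (G : Matrix (Fin n) (Fin n) (RatFunc F)) :
    ∃ (P : Matrix (Fin n) (Fin n) (RatFunc F)) (S : Matrix (Fin n) (Fin n) F[X]), P.det ≠ 0 ∧
      Pᵀ * G * P = S.map (algebraMap F[X] (RatFunc F)) := by
  obtain ⟨b, hb⟩ := IsLocalization.exist_integer_multiples_of_finite (nonZeroDivisors F[X])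
    (fun ij : Fin n × Fin n => G ij.1 ij.2)
  choose s hs using hb
  have hb0 : algebraMap F[X] (RatFunc F) (b : F[X]) ≠ 0 := by
    rw [ne_eq, map_eq_zero_iff _ (IsFractionRing.injective F[X] (RatFunc F))]
    exact nonZeroDivisors.coe_ne_zero b
  refine ⟨algebraMap F[X] (RatFunc F) (b : F[X]) • (1 : Matrix (Fin n) (Fin n) (RatFunc F)),
    fun i j => (b : F[X]) * s (i, j), ?_, ?_⟩
  · rw [Matrix.det_smul, Matrix.det_one, mul_one]
    exact pow_ne_zero _ hb0
  · ext i j
    rw [Matrix.transpose_smul, Matrix.transpose_one, Matrix.smul_mul, Matrix.one_mul,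
      Matrix.mul_smul, Matrix.mul_one, Matrix.smul_apply, Matrix.smul_apply]
    change _ = algebraMap F[X] (RatFunc F) ((b : F[X]) * s (i, j))
    rw [map_mul, smul_eq_mul, smul_eq_mul, hs (i, j), Algebra.smul_def]

theorem dvr_at (v : HeightOneSpectrum F[X]) :
    DvrOver F (v.valuation (RatFunc F)).valuationSubring := by
  constructor
  · rw [← HeightOneSpectrum.valuationSubringAtPrime_eq_valuationSubring]
    have := v.isPrime
    exact IsLocalization.AtPrime.isDiscreteValuationRing_of_dedekind_domain F[X] v.ne_bot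
      (HeightOneSpectrum.valuationSubringAtPrime (RatFunc F) v)
  · intro a
    rw [Valuation.mem_valuationSubring_iff]
    have : algebraMap F (RatFunc F) a = algebraMap F[X] (RatFunc F) (Polynomial.C a) := by
      rw [IsScalarTower.algebraMap_apply F F[X] (RatFunc F)]
      rfl
    rw [this]
    exact v.valuation_le_one _

/-- the improvement step -/
theorem improve {n : ℕ} (G : Matrix (Fin n) (Fin n) (RatFunc F)) (hdet : G.det ≠ 0)
    (hU : ∀ O : ValuationSubring (RatFunc F), DvrOver F O → Unr O G)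
    (P : Matrix (Fin n) (Fin n) (RatFunc F)) (S : Matrix (Fin n) (Fin n) F[X]) (hP : P.det ≠ 0)
    (hS : Pᵀ * G * P = S.map (algebraMap F[X] (RatFunc F))) (hnu : ¬ IsUnit S.det) :
    ∃ (P' : Matrix (Fin n) (Fin n) (RatFunc F)) (S' : Matrix (Fin n) (Fin n) F[X]), P'.det ≠ 0 ∧
      P'ᵀ * G * P' = S'.map (algebraMap F[X] (RatFunc F)) ∧ S'.det.natDegree < S.det.natDegree := by
  have hinj := IsFractionRing.injective F[X] (RatFunc F)
  have hSdet : algebraMap F[X] (RatFunc F) S.det = P.det * G.det * P.det := by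
    rw [RingHom.map_det]
    change (S.map (algebraMap F[X] (RatFunc F))).det = _
    rw [← hS, Matrix.det_mul, Matrix.det_mul, Matrix.det_transpose]
  have hS0 : S.det ≠ 0 := by
    intro h
    rw [h, map_zero] at hSdet
    exact mul_ne_zero (mul_ne_zero hP hdet) hP hSdet.symm
  obtain ⟨p, hpirr, hpdvd⟩ := WfDvdMonoid.exists_irreducible_factor hnu hS0
  have hp0 : p ≠ 0 := hpirr.ne_zero
  let v : HeightOneSpectrum F[X] :=
    ⟨Ideal.span {p}, (Ideal.span_singleton_prime hp0).2 hpirr.prime, by
      rwa [ne_eq, Ideal.span_singleton_eq_bot]⟩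
  have hvp : v.asIdeal = Ideal.span {p} := rfl
  have hmem : ∀ x : RatFunc F, x ∈ (v.valuation (RatFunc F)).valuationSubring ↔ v.valuation (RatFunc F) x ≤ 1 := fun x =>
    (v.valuation (RatFunc F)).mem_valuationSubring_iff x
  obtain ⟨U, hU0, hU1, hU2⟩ := hU _ (dvr_at v)
  have hπ : algebraMap F[X] (RatFunc F) p ≠ 0 := by
    rwa [ne_eq, map_eq_zero_iff _ hinj]
  have hPU : (P⁻¹ * U).det ≠ 0 := by
    rw [Matrix.det_mul]
    refine mul_ne_zero ?_ hU0
    rw [Matrix.det_nonsing_inv, Ring.inverse_eq_inv']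
    exact inv_ne_zero hP
  obtain ⟨A, C, hAC, hA, hC, ⟨z, hz⟩, hCdet⟩ := decomp' v p hp0 hvp (P⁻¹ * U) hPU
  obtain ⟨D, hCD, hD⟩ := inv_int v C hC hCdet
  have hAdet : A.det ≠ 0 := by rw [hz]; exact zpow_ne_zero _ hπ
  have hP'C : P * A * C = U := by
    rw [Matrix.mul_assoc, hAC, Matrix.mul_nonsing_inv_cancel_left _ _ (Ne.isUnit hP)]
  have hP'D : P * A = U * D := by
    rw [← hP'C, Matrix.mul_assoc, hCD, Matrix.mul_one]
  have e1 : (P * A)ᵀ * G * (P * A) = Aᵀ * S.map (algebraMap F[X] (RatFunc F)) * A := by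
    rw [← hS, Matrix.transpose_mul]
    simp only [Matrix.mul_assoc]
  have e2 : (P * A)ᵀ * G * (P * A) = Dᵀ * (Uᵀ * G * U) * D := by
    rw [hP'D, Matrix.transpose_mul]
    simp only [Matrix.mul_assoc]
  have h1 : ∀ i j, ((P * A)ᵀ * G * (P * A)) i j ∈ Away (RatFunc F) p := by
    intro i j
    rw [e1, Matrix.mul_apply]
    refine Subring.sum_mem _ fun k _ => Subring.mul_mem _ ?_ (hA k j)
    rw [Matrix.mul_apply]
    refine Subring.sum_mem _ fun l _ => Subring.mul_mem _ (hA l i) ?_
    exact algebraMap_mem_away p _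
  have h2 : ∀ i j, v.valuation (RatFunc F) (((P * A)ᵀ * G * (P * A)) i j) ≤ 1 := by
    intro i j
    rw [e2, ← hmem, Matrix.mul_apply]
    refine sum_mem fun k _ => mul_mem ?_ ((hmem _).2 (hD k j))
    rw [Matrix.mul_apply]
    exact sum_mem fun l _ => mul_mem ((hmem _).2 (hD l i)) (hU1 l k)
  have h3 : ∀ i j, ∃ r : F[X], algebraMap F[X] (RatFunc F) r = ((P * A)ᵀ * G * (P * A)) i j := fun i j =>
    away_int v p hp0 hvp (h1 i j) (h2 i j)
  choose S' hS' using h3
  have hS'' : (P * A)ᵀ * G * (P * A) = (Matrix.of S').map (algebraMap F[X] (RatFunc F)) := by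
    ext i j
    rw [← hS' i j]; rfl
  have hS'det : algebraMap F[X] (RatFunc F) (Matrix.of S').det =
      algebraMap F[X] (RatFunc F) S.det * (algebraMap F[X] (RatFunc F) p ^ z) ^ 2 := by
    rw [RingHom.map_det]
    change ((Matrix.of S').map (algebraMap F[X] (RatFunc F))).det = _
    rw [← hS'', e1, Matrix.det_mul, Matrix.det_mul, Matrix.det_transpose, hz]
    have : (S.map (algebraMap F[X] (RatFunc F))).det = algebraMap F[X] (RatFunc F) S.det :=
      (RingHom.map_det (algebraMap F[X] (RatFunc F)) S).symm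
    rw [this]
    ring
  have hvS' : v.valuation (RatFunc F) (algebraMap F[X] (RatFunc F) (Matrix.of S').det) = 1 := by
    have h4 : algebraMap F[X] (RatFunc F) (Matrix.of S').det = D.det * (Uᵀ * G * U).det * D.det := by
      rw [RingHom.map_det]
      change ((Matrix.of S').map (algebraMap F[X] (RatFunc F))).det = _
      rw [← hS'', e2, Matrix.det_mul, Matrix.det_mul, Matrix.det_transpose]
    have h5 : v.valuation (RatFunc F) D.det = 1 := by
      have h6 : C.det * D.det = 1 := by rw [← Matrix.det_mul, hCD, Matrix.det_one]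
      have h7 := congrArg (v.valuation (RatFunc F)) h6
      rwa [map_mul, hCdet, one_mul, map_one] at h7
    have h8 : v.valuation (RatFunc F) (Uᵀ * G * U).det = 1 := by
      have h9 : (Uᵀ * G * U).det ∈ (v.valuation (RatFunc F)).valuationSubring := by
        rw [Matrix.det_apply]
        refine sum_mem fun σ _ => ?_
        rw [Units.smul_def, zsmul_eq_mul]
        exact mul_mem (intCast_mem _ _) (prod_mem fun i _ => hU1 _ _)
      have h10 : (Uᵀ * G * U).det ≠ 0 := by
        rw [Matrix.det_mul, Matrix.det_mul, Matrix.det_transpose]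
        exact mul_ne_zero (mul_ne_zero hU0 hdet) hU0
      rw [hmem] at h9 hU2
      rw [map_inv₀] at hU2
      have h11 : v.valuation (RatFunc F) (Uᵀ * G * U).det ≠ 0 := by rwa [ne_eq, map_eq_zero]
      refine le_antisymm h9 ?_
      rwa [inv_le_one₀ (zero_lt_iff.2 h11)] at hU2
    rw [h4, map_mul, map_mul, h5, h8, one_mul, one_mul]
  have hvS : v.valuation (RatFunc F) (algebraMap F[X] (RatFunc F) S.det) < 1 := by
    have : v.valuation (RatFunc F) (algebraMap F[X] (RatFunc F) S.det) = v.intValuation S.det :=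
      v.valuation_of_algebraMap S.det
    rw [this, v.intValuation_lt_one_iff_mem, hvp, Ideal.mem_span_singleton]
    exact hpdvd
  have hzneg : z < 0 := by
    by_contra h
    push Not at h
    obtain ⟨m, rfl⟩ := Int.eq_ofNat_of_zero_le h
    rw [hS'det, map_mul, map_pow, map_zpow₀] at hvS'
    have h12 : v.valuation (RatFunc F) (algebraMap F[X] (RatFunc F) p) ≤ 1 := v.valuation_le_one p
    have h13 : (v.valuation (RatFunc F) (algebraMap F[X] (RatFunc F) p) ^ ((m : ℕ) : ℤ)) ^ 2 ≤ 1 := by
      rw [zpow_natCast, ← pow_mul]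
      exact pow_le_one₀ zero_le h12
    have h14 : v.valuation (RatFunc F) (algebraMap F[X] (RatFunc F) S.det) *
        (v.valuation (RatFunc F) (algebraMap F[X] (RatFunc F) p) ^ ((m : ℕ) : ℤ)) ^ 2 ≤
        v.valuation (RatFunc F) (algebraMap F[X] (RatFunc F) S.det) * 1 := by gcongr
    rw [hvS', mul_one] at h14
    exact absurd hvS (not_lt.2 h14)
  obtain ⟨m, hm⟩ : ∃ m : ℕ, z = -((m + 1 : ℕ) : ℤ) := ⟨(-z - 1).toNat, by omega⟩
  refine ⟨P * A, Matrix.of S', ?_, hS'', ?_⟩
  · rw [Matrix.det_mul]
    exact mul_ne_zero hP hAdet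
  · have h15 : (Matrix.of S').det * (p ^ (m + 1)) ^ 2 = S.det := by
      apply hinj
      rw [map_mul, hS'det, map_pow, map_pow, hm, _root_.zpow_neg, zpow_natCast]
      have : algebraMap F[X] (RatFunc F) p ^ (m + 1) ≠ 0 := pow_ne_zero _ hπ
      field_simp
    have h16 : (Matrix.of S').det ≠ 0 := by
      intro h
      rw [h, zero_mul] at h15
      exact hS0 h15.symm
    have h17 : S.det.natDegree = (Matrix.of S').det.natDegree + 2 * ((m + 1) * p.natDegree) := by
      rw [← h15, Polynomial.natDegree_mul h16 (pow_ne_zero _ (pow_ne_zero _ hp0)),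
        Polynomial.natDegree_pow, Polynomial.natDegree_pow]
    have h18 : 0 < p.natDegree := hpirr.natDegree_pos
    have h19 : 0 < (m + 1) * p.natDegree := Nat.mul_pos (Nat.succ_pos m) h18
    omega

end pol

end TA1a

/-- A1a -/
theorem lattice_finite {F : Type*} [Field F] {n : ℕ} (G : Matrix (Fin n) (Fin n) (RatFunc F))
    (hdet : G.det ≠ 0) (hU : ∀ O : ValuationSubring (RatFunc F), DvrOver F O → Unr O G) :
    ∃ P : Matrix (Fin n) (Fin n) (RatFunc F), P.det ≠ 0 ∧
      ∃ S : Matrix (Fin n) (Fin n) F[X], IsUnit S.det ∧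
        Pᵀ * G * P = S.map (algebraMap F[X] (RatFunc F)) := by
  classical
  obtain ⟨P0, S0, hP0, hS0⟩ := TA1a.exists_start G
  have key : ∀ (d : ℕ) (P : Matrix (Fin n) (Fin n) (RatFunc F)) (S : Matrix (Fin n) (Fin n) F[X]),
      P.det ≠ 0 → Pᵀ * G * P = S.map (algebraMap F[X] (RatFunc F)) → S.det.natDegree = d →
      ∃ P : Matrix (Fin n) (Fin n) (RatFunc F), P.det ≠ 0 ∧
      ∃ S : Matrix (Fin n) (Fin n) F[X], IsUnit S.det ∧
        Pᵀ * G * P = S.map (algebraMap F[X] (RatFunc F)) := by
    intro d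
    induction d using Nat.strong_induction_on with
    | _ d ih =>
      intro P S hP hS hd
      by_cases hu : IsUnit S.det
      · exact ⟨P, hP, S, hu, hS⟩
      · obtain ⟨P', S', hP', hS', hlt⟩ := TA1a.improve G hdet hU P S hP hS hu
        exact ih _ (hd ▸ hlt) P' S' hP' hS' rfl
  exact key _ P0 S0 hP0 hS0 rfl

end Pool.Agent.H918R3
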