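import Pool.Agent.H918R3.Defs
import Pool.Agent.H952R2.Sextic.CommonZero

set_option autoImplicit false

namespace Pool.Agent.H918R3

open Polynomial

namespace A4a

variable {k : Type*} [Field k] {ι : Type*} {N : ℕ}

/-- the generic polynomials of degree at most `N` -/
noncomputable def gp (k : Type*) [Field k] {ι : Type*} (N : ℕ) (s : Fin 3) (i : ι) :
    (MvPolynomial (Fin 3 × ι × Fin (N + 1)) k)[X] :=
  ∑ n : Fin (N + 1), C (MvPolynomial.X (s, i, n)) * X ^ (n : ℕ)

/-- the specialised polynomials -/
noncomputable def sp {k : Type*} [Field k] {ι : Type*} {N : ℕ} (u : Fin 3 × ι × Fin (N + 1) → k)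
    (s : Fin 3) (i : ι) : k[X] := ∑ n : Fin (N + 1), C (u (s, i, n)) * X ^ (n : ℕ)

theorem gp_map (u : Fin 3 × ι × Fin (N + 1) → k) (s : Fin 3) (i : ι) :
    (gp k N s i).map (MvPolynomial.eval u) = sp u s i := by
  unfold gp sp
  rw [Polynomial.map_sum]
  refine Finset.sum_congr rfl fun n _ => ?_
  simp

theorem sp_coeff (u : Fin 3 × ι × Fin (N + 1) → k) (s : Fin 3) (i : ι) (n : Fin (N + 1)) :
    (sp u s i).coeff n = u (s, i, n) := by
  unfold sp
  rw [Polynomial.finsetSum_coeff, Finset.sum_eq_single n]
  · simp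
  · intro m _ hm
    rw [Polynomial.coeff_C_mul, Polynomial.coeff_X_pow, if_neg (fun h => hm (Fin.ext h.symm)), mul_zero]
  · intro h; exact absurd (Finset.mem_univ _) h

theorem sp_natDegree (u : Fin 3 × ι × Fin (N + 1) → k) (s : Fin 3) (i : ι) :
    (sp u s i).natDegree ≤ N := by
  unfold sp
  refine Polynomial.natDegree_sum_le_of_forall_le _ _ fun n _ => ?_
  refine (Polynomial.natDegree_C_mul_X_pow_le _ _).trans ?_
  have := n.isLt
  omega

end A4a

open A4a in
/-- A4a: Tsen's theorem for conics over a finite extension of `k(t)` -/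
theorem tsen_conic {k L : Type*} [Field k] [IsAlgClosed k] [Field L] [Algebra (RatFunc k) L]
    [FiniteDimensional (RatFunc k) L] (a b : L) :
    ∃ x y z : L, (x ≠ 0 ∨ y ≠ 0 ∨ z ≠ 0) ∧ x ^ 2 - a * y ^ 2 - b * z ^ 2 = 0 := by
  classical
  set d := Module.finrank (RatFunc k) L with hd
  have hd0 : 0 < d := Module.finrank_pos
  set e : Module.Basis (Fin d) (RatFunc k) L := Module.finBasis (RatFunc k) L with he
  let c : Fin 3 → L := ![1, -a, -b]
  -- the common denominator
  obtain ⟨D, hD⟩ := IsLocalization.exist_integer_multiples_of_finite (nonZeroDivisors k[X])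
    (S := RatFunc k) (fun q : Fin 3 × Fin d × Fin d × Fin d =>
      e.repr (c q.1 * (e q.2.1 * e q.2.2.1)) q.2.2.2)
  choose h hh using hD
  have hDne : (algebraMap k[X] (RatFunc k) D) ≠ 0 := by
    rw [Ne, map_eq_zero_iff _ (IsFractionRing.injective k[X] (RatFunc k))]
    exact nonZeroDivisors.ne_zero D.2
  -- degree bound
  obtain ⟨N, hN⟩ : ∃ N : ℕ, ∀ q, (h q).natDegree ≤ N :=
    ⟨Finset.univ.sup fun q => (h q).natDegree, fun q =>
      Finset.le_sup (f := fun q => (h q).natDegree) (Finset.mem_univ q)⟩
  -- the equations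
  let P : Fin d → (MvPolynomial (Fin 3 × Fin d × Fin (N + 1)) k)[X] := fun l =>
    ∑ s : Fin 3, ∑ i : Fin d, ∑ j : Fin d,
      gp k N s i * gp k N s j * (h (s, i, j, l)).map MvPolynomial.C
  let PU : (Fin 3 × Fin d × Fin (N + 1) → k) → Fin d → k[X] := fun u l =>
    ∑ s : Fin 3, ∑ i : Fin d, ∑ j : Fin d, sp u s i * sp u s j * h (s, i, j, l)
  have hPU : ∀ u l, (P l).map (MvPolynomial.eval u) = PU u l := by
    intro u l
    simp only [P, PU, Polynomial.map_sum, Polynomial.map_mul, gp_map]
    refine Finset.sum_congr rfl fun s _ => Finset.sum_congr rfl fun i _ =>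
      Finset.sum_congr rfl fun j _ => ?_
    congr 1
    rw [Polynomial.map_map]
    have : (MvPolynomial.eval u).comp (MvPolynomial.C : k →+* MvPolynomial (Fin 3 × Fin d × Fin (N + 1)) k)
        = RingHom.id k := by
      ext x; simp
    rw [this, Polynomial.map_id]
  have hPUdeg : ∀ u l, (PU u l).natDegree < 3 * N + 1 := by
    intro u l
    rw [Nat.lt_succ_iff]
    refine Polynomial.natDegree_sum_le_of_forall_le _ _ fun s _ => ?_
    refine Polynomial.natDegree_sum_le_of_forall_le _ _ fun i _ => ?_
    refine Polynomial.natDegree_sum_le_of_forall_le _ _ fun j _ => ?_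
    refine Polynomial.natDegree_mul_le.trans ?_
    have h1 := (Polynomial.natDegree_mul_le (p := sp u s i) (q := sp u s j))
    have h2 := sp_natDegree u s i
    have h3 := sp_natDegree u s j
    have h4 := hN (s, i, j, l)
    omega
  obtain ⟨u, hu0, hu⟩ := Pool.Agent.H952R2.Sextic.exists_common_zero
    (K := k) (ι := Fin 3 × Fin d × Fin (N + 1)) (κ := Fin d × Fin (3 * N + 1))
    (by
      simp only [Fintype.card_prod, Fintype.card_fin]
      nlinarith)
    (fun q => (P q.1).coeff q.2)
    (by
      intro q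
      have : MvPolynomial.eval (0 : Fin 3 × Fin d × Fin (N + 1) → k) ((P q.1).coeff q.2)
          = ((P q.1).map (MvPolynomial.eval 0)).coeff q.2 := by
        rw [Polynomial.coeff_map]
      rw [this, hPU]
      have hz : ∀ (s : Fin 3) (i : Fin d), sp (0 : Fin 3 × Fin d × Fin (N + 1) → k) s i = 0 := by
        intro s i; unfold sp; simp
      simp [PU, hz])
  have hPU0 : ∀ l, PU u l = 0 := by
    intro l
    ext r
    rw [Polynomial.coeff_zero]
    rcases lt_or_ge r (3 * N + 1) with hr | hr
    · have := hu (l, ⟨r, hr⟩)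
      have e1 : MvPolynomial.eval u ((P l).coeff r) = (PU u l).coeff r := by
        rw [← hPU, Polynomial.coeff_map]
      rw [← e1]; exact this
    · exact Polynomial.coeff_eq_zero_of_natDegree_lt (lt_of_lt_of_le (hPUdeg u l) hr)
  -- the solution
  let A := algebraMap k[X] (RatFunc k)
  let xs : Fin 3 → L := fun s => ∑ i, (A (sp u s i)) • e i
  have hxs : ∀ s i, e.repr (xs s) i = A (sp u s i) := by
    intro s i
    simp only [xs]
    rw [map_sum, Finsupp.finsetSum_apply, Finset.sum_eq_single i]
    · simp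
    · intro j _ hj
      simp [Finsupp.single_apply, hj]
    · intro hi; exact absurd (Finset.mem_univ _) hi
  refine ⟨xs 0, xs 1, xs 2, ?_, ?_⟩
  · -- nonzero
    obtain ⟨⟨s, i, n⟩, hne⟩ : ∃ q, u q ≠ 0 := by
      by_contra hcon
      push Not at hcon
      exact hu0 (funext hcon)
    have hs : xs s ≠ 0 := by
      intro h0
      have h1 := hxs s i
      rw [h0, map_zero, Finsupp.zero_apply] at h1
      have h2 : sp u s i = 0 := by
        have := h1.symm
        rwa [map_eq_zero_iff _ (IsFractionRing.injective k[X] (RatFunc k))] at this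
      have h3 := sp_coeff u s i n
      rw [h2, Polynomial.coeff_zero] at h3
      exact hne h3.symm
    fin_cases s
    · exact Or.inl hs
    · exact Or.inr (Or.inl hs)
    · exact Or.inr (Or.inr hs)
  · -- the equation
    have e1 : xs 0 ^ 2 - a * xs 1 ^ 2 - b * xs 2 ^ 2 = ∑ s : Fin 3, c s * (xs s * xs s) := by
      rw [Fin.sum_univ_three]
      simp only [c, Matrix.cons_val_zero, Matrix.cons_val_one, Matrix.cons_val]
      ring
    have e2 : ∀ s, c s * (xs s * xs s) = ∑ i, ∑ j, (A (sp u s i) * A (sp u s j)) • (c s * (e i * e j)) := by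
      intro s
      simp only [xs]
      rw [Finset.sum_mul_sum, Finset.mul_sum]
      refine Finset.sum_congr rfl fun i _ => ?_
      rw [Finset.mul_sum]
      refine Finset.sum_congr rfl fun j _ => ?_
      rw [smul_mul_smul_comm, mul_smul_comm]
    have e3 : ∀ l, A D * e.repr (∑ s : Fin 3, c s * (xs s * xs s)) l = 0 := by
      intro l
      have h1 : A D * e.repr (∑ s : Fin 3, c s * (xs s * xs s)) l = A (PU u l) := by
        simp only [e2, PU, map_sum, map_mul, Finsupp.finsetSum_apply, Finset.mul_sum, map_smul,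
          Finsupp.smul_apply, smul_eq_mul]
        refine Finset.sum_congr rfl fun s _ => Finset.sum_congr rfl fun i _ =>
          Finset.sum_congr rfl fun j _ => ?_
        have h2 := hh (s, i, j, l)
        rw [Algebra.smul_def] at h2
        simp only at h2
        calc A D * (A (sp u s i) * A (sp u s j) * e.repr (c s * (e i * e j)) l)
            = A (sp u s i) * A (sp u s j) * (A D * e.repr (c s * (e i * e j)) l) := by ring
          _ = A (sp u s i) * A (sp u s j) * A (h (s, i, j, l)) := by rw [← h2]
      rw [h1, hPU0 l, map_zero]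
    rw [e1]
    apply e.repr.injective
    rw [map_zero]
    ext l
    rw [Finsupp.zero_apply]
    exact (mul_eq_zero.1 (e3 l)).resolve_left hDne

end Pool.Agent.H918R3
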