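import Pool.Agent.H918R3.Defs
import Pool.Agent.H918R3.TA4a

set_option autoImplicit false

namespace Pool.Agent.H918R3

open Polynomial

namespace A4b

/-- a nonzero polynomial relation among three elements, in iterated polynomial rings -/
theorem exists_rel {k F : Type*} [Field k] [Field F] [Algebra k F] (a b c : F)
    (h : ¬ AlgebraicIndependent k ![a, b, c]) :
    ∃ Q : k[X][X][X], Q ≠ 0 ∧
      eval₂RingHom (eval₂RingHom (eval₂RingHom (algebraMap k F) a) b) c Q = 0 := by
  by_contra hcon
  push Not at hcon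
  apply h
  rw [algebraicIndependent_iff_injective_aeval]
  let Ψ := eval₂RingHom (eval₂RingHom (eval₂RingHom (algebraMap k F) a) b) c
  have hΨ : Function.Injective Ψ := by
    rw [injective_iff_map_eq_zero]
    intro Q hQ
    by_contra hne
    exact hcon Q hne hQ
  let E : MvPolynomial (Fin 3) k →+* k[X][X][X] :=
    MvPolynomial.eval₂Hom (S₁ := k[X][X][X]) ((C : k[X][X] →+* k[X][X][X]).comp ((C : k[X] →+* k[X][X]).comp C))
      ![C (C X), C X, X]
  let G : k[X][X][X] →+* MvPolynomial (Fin 3) k :=
    eval₂RingHom (eval₂RingHom (eval₂RingHom MvPolynomial.C (MvPolynomial.X 0)) (MvPolynomial.X 1))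
      (MvPolynomial.X 2)
  have hGE : G.comp E = RingHom.id _ := by
    apply MvPolynomial.ringHom_ext
    · intro r; simp [G, E]
    · intro i
      fin_cases i <;> simp [G, E]
  have hE : Function.Injective E := by
    intro x y hxy
    have h1 := congrArg G hxy
    have h2 : ∀ z, G (E z) = z := fun z => by
      have := congrArg (fun f => f z) (congrArg DFunLike.coe hGE)
      simpa using this
    rwa [h2, h2] at h1
  have hcomp : (MvPolynomial.aeval ![a, b, c] : MvPolynomial (Fin 3) k →ₐ[k] F).toRingHom = Ψ.comp E := by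
    apply MvPolynomial.ringHom_ext
    · intro r; simp [Ψ, E]
    · intro i
      fin_cases i <;> simp [Ψ, E]
  intro x y hxy
  apply hE
  apply hΨ
  have h1 : ∀ z, MvPolynomial.aeval ![a, b, c] z = Ψ (E z) := fun z => by
    have := congrArg (fun f => f z) (congrArg DFunLike.coe hcomp)
    simpa using this
  rw [← h1, ← h1]
  exact hxy

/-- the relation can be taken with nonzero constant term in the last variable -/
theorem exists_rel' {k F : Type*} [Field k] [Field F] [Algebra k F] (a b c : F) (hc : c ≠ 0)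
    (h : ¬ AlgebraicIndependent k ![a, b, c]) :
    ∃ Q : k[X][X][X], Q.coeff 0 ≠ 0 ∧
      eval₂RingHom (eval₂RingHom (eval₂RingHom (algebraMap k F) a) b) c Q = 0 := by
  classical
  have hex : ∃ n : ℕ, ∃ Q : k[X][X][X], Q ≠ 0 ∧ Q.natDegree = n ∧
      eval₂RingHom (eval₂RingHom (eval₂RingHom (algebraMap k F) a) b) c Q = 0 := by
    obtain ⟨Q, h1, h2⟩ := exists_rel a b c h
    exact ⟨_, Q, h1, rfl, h2⟩
  obtain ⟨Q, h1, h2, h3⟩ := Nat.find_spec hex
  refine ⟨Q, ?_, h3⟩
  intro h0
  have h4 : Q = X * Q.divX := by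
    have := Polynomial.X_mul_divX_add Q
    rw [h0, map_zero, add_zero] at this
    exact this.symm
  have h5 : Q.divX ≠ 0 := by
    intro h6
    rw [h6, mul_zero] at h4
    exact h1 h4
  have h7 : eval₂RingHom (eval₂RingHom (eval₂RingHom (algebraMap k F) a) b) c Q.divX = 0 := by
    have h8 := h3
    rw [h4, map_mul] at h8
    rcases mul_eq_zero.1 h8 with h9 | h9
    · exfalso; apply hc; simpa using h9
    · exact h9
  have h10 : Q.divX.natDegree < Nat.find hex := by
    rw [← h2]
    have h11 : Q.natDegree = 1 + Q.divX.natDegree := by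
      conv_lhs => rw [h4]
      rw [Polynomial.natDegree_mul X_ne_zero h5, natDegree_X]
    omega
  exact Nat.find_min hex h10 ⟨Q.divX, h5, rfl, h7⟩

end A4b

open A4b in
/-- A4b (may use A4a) -/
theorem residue_conic {k F : Type*} [Field k] [IsAlgClosed k] [Field F] [Algebra k F]
    (htr : ∀ f : Fin 3 → F, ¬ AlgebraicIndependent k f) (O : ValuationSubring F)
    (hO : DvrOver k O) (a b : F) (ha : a ∈ O) (hb : b ∈ O) :
    ∃ x y z : F, x ∈ O ∧ y ∈ O ∧ z ∈ O ∧
      (O.valuation x = 1 ∨ O.valuation y = 1 ∨ O.valuation z = 1) ∧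
      O.valuation (x ^ 2 - a * y ^ 2 - b * z ^ 2) < 1 := by
  classical
  obtain ⟨hdvr, hk⟩ := hO
  let φ : k →+* O := (algebraMap k F).codRestrict O.toSubring hk
  let κ := IsLocalRing.ResidueField O
  let ρ : O →+* κ := IsLocalRing.residue O
  let A : O := ⟨a, ha⟩
  let B : O := ⟨b, hb⟩
  -- it suffices to solve the equation in the residue field
  suffices hκ : ∃ x y z : κ, (x ≠ 0 ∨ y ≠ 0 ∨ z ≠ 0) ∧ x ^ 2 - ρ A * y ^ 2 - ρ B * z ^ 2 = 0 by
    obtain ⟨x, y, z, hne, heq⟩ := hκ
    obtain ⟨x, rfl⟩ := IsLocalRing.residue_surjective x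
    obtain ⟨y, rfl⟩ := IsLocalRing.residue_surjective y
    obtain ⟨z, rfl⟩ := IsLocalRing.residue_surjective z
    have hunit : ∀ w : O, IsLocalRing.residue O w ≠ 0 → O.valuation (w : F) = 1 := by
      intro w hw
      rw [← ValuationSubring.valuation_eq_one_iff]
      exact (IsLocalRing.residue_ne_zero_iff_isUnit w).1 hw
    refine ⟨x, y, z, x.2, y.2, z.2, ?_, ?_⟩
    · rcases hne with h | h | h
      · exact Or.inl (hunit x h)
      · exact Or.inr (Or.inl (hunit y h))
      · exact Or.inr (Or.inr (hunit z h))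
    · have h1 : ρ (x ^ 2 - A * y ^ 2 - B * z ^ 2) = 0 := by
        simp only [map_sub, map_mul, map_pow]; exact heq
      have h2 : (x ^ 2 - A * y ^ 2 - B * z ^ 2) ∈ IsLocalRing.maximalIdeal O := by
        rwa [← IsLocalRing.residue_eq_zero_iff]
      have h3 := (ValuationSubring.valuation_lt_one_iff O _).1 h2
      push_cast at h3
      exact h3
  by_cases halg : Function.Injective (eval₂RingHom (ρ.comp φ) (ρ A))
  · -- `ā` is transcendental
    obtain ⟨π, hπ⟩ := IsDiscreteValuationRing.exists_irreducible O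
    have hπ0 : (π : F) ≠ 0 := by
      intro h
      exact hπ.ne_zero (Subtype.ext h)
    have hρπ : ρ π = 0 := by
      rw [IsLocalRing.residue_eq_zero_iff, IsLocalRing.mem_maximalIdeal]
      exact hπ.not_isUnit
    obtain ⟨Q, hQ0, hQ⟩ := exists_rel' (k := k) a b (π : F) hπ0 (htr _)
    -- the relation in `O`
    have hQO : eval₂RingHom (eval₂RingHom (eval₂RingHom φ A) B) π Q = 0 := by
      have hcomp : (O.subtype).comp (eval₂RingHom (eval₂RingHom (eval₂RingHom φ A) B) π)
          = eval₂RingHom (eval₂RingHom (eval₂RingHom (algebraMap k F) a) b) (π : F) := by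
        apply Polynomial.ringHom_ext'
        · apply Polynomial.ringHom_ext'
          · apply Polynomial.ringHom_ext'
            · ext r; simp [φ]
            · simp [A]
          · simp [B]
        · simp
      have h1 := congrArg (fun f => f Q) (congrArg DFunLike.coe hcomp)
      simp only [RingHom.comp_apply] at h1
      rw [hQ] at h1
      exact Subtype.ext h1
    -- the residue
    have hq : eval₂RingHom (eval₂RingHom (ρ.comp φ) (ρ A)) (ρ B) (Q.coeff 0) = 0 := by
      have hcomp : ρ.comp ((eval₂RingHom (eval₂RingHom φ A) B)) = eval₂RingHom (eval₂RingHom (ρ.comp φ) (ρ A)) (ρ B) := by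
        apply Polynomial.ringHom_ext'
        · apply Polynomial.ringHom_ext'
          · ext r; simp
          · simp
        · simp
      have h1 : eval₂RingHom (eval₂RingHom (eval₂RingHom φ A) B) π Q
          = (eval₂RingHom (eval₂RingHom φ A) B) (Q.coeff 0)
            + π * eval₂RingHom (eval₂RingHom (eval₂RingHom φ A) B) π Q.divX := by
        conv_lhs => rw [← Polynomial.X_mul_divX_add Q]
        rw [map_add, map_mul]
        simp [add_comm]
      have h2 := congrArg ρ h1
      rw [hQO, map_zero, map_add, map_mul, hρπ, zero_mul, add_zero] at h2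
      rw [← hcomp]
      exact h2.symm
    -- algebra structure
    let Φ : RatFunc k →+* κ := IsFractionRing.lift (A := k[X]) (K := RatFunc k) (L := κ)
      (g := eval₂RingHom (ρ.comp φ) (ρ A)) halg
    have hΦ : ∀ p : k[X], Φ (algebraMap k[X] (RatFunc k) p) = eval₂RingHom (ρ.comp φ) (ρ A) p :=
      fun p => IsFractionRing.lift_algebraMap halg p
    letI : Algebra (RatFunc k) κ := Φ.toAlgebra
    have hint : IsIntegral (RatFunc k) (ρ B) := by
      rw [← isAlgebraic_iff_isIntegral]
      refine ⟨(Q.coeff 0).map (algebraMap k[X] (RatFunc k)), ?_, ?_⟩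
      · rw [Ne, Polynomial.map_eq_zero_iff (IsFractionRing.injective k[X] (RatFunc k))]
        exact hQ0
      · rw [Polynomial.aeval_def, Polynomial.eval₂_map]
        have hc2 : (algebraMap (RatFunc k) κ).comp (algebraMap k[X] (RatFunc k))
            = eval₂RingHom (ρ.comp φ) (ρ A) := by
          apply RingHom.ext
          intro p
          exact hΦ p
        rw [hc2]
        exact hq
    haveI : FiniteDimensional (RatFunc k) (IntermediateField.adjoin (RatFunc k) {ρ B}) :=
      IntermediateField.adjoin.finiteDimensional hint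
    have hA' : algebraMap (RatFunc k) κ RatFunc.X = ρ A := by
      have := hΦ X
      rw [RatFunc.algebraMap_X] at this
      change Φ RatFunc.X = ρ A
      rw [this]; simp
    obtain ⟨x, y, z, hne, heq⟩ := tsen_conic (k := k) (L := IntermediateField.adjoin (RatFunc k) {ρ B})
      (algebraMap (RatFunc k) _ RatFunc.X) ⟨ρ B, IntermediateField.mem_adjoin_simple_self _ _⟩
    refine ⟨x, y, z, ?_, ?_⟩
    · rcases hne with h | h | h
      · exact Or.inl (fun h0 => h (Subtype.ext h0))
      · exact Or.inr (Or.inl (fun h0 => h (Subtype.ext h0)))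
      · exact Or.inr (Or.inr (fun h0 => h (Subtype.ext h0)))
    · have h1 := congrArg (fun w : IntermediateField.adjoin (RatFunc k) {ρ B} => (w : κ)) heq
      beta_reduce at h1
      push_cast at h1
      rw [hA'] at h1
      exact h1
  · -- `ā` is algebraic
    rw [injective_iff_map_eq_zero] at halg
    push Not at halg
    obtain ⟨p, hp, hp0⟩ := halg
    letI : Algebra k κ := (ρ.comp φ).toAlgebra
    have hint : IsIntegral k (ρ A) := by
      rw [← isAlgebraic_iff_isIntegral]
      exact ⟨p, hp0, hp⟩
    have hdeg := IsAlgClosed.degree_eq_one_of_irreducible k (minpoly.irreducible hint)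
    obtain ⟨r, hr⟩ := minpoly.mem_range_of_degree_eq_one k (ρ A) hdeg
    obtain ⟨s, hs⟩ := IsAlgClosed.exists_pow_nat_eq r (n := 2) (by norm_num)
    refine ⟨ρ (φ s), 1, 0, Or.inr (Or.inl one_ne_zero), ?_⟩
    have h1 : ρ (φ r) = ρ A := hr
    rw [← map_pow, ← map_pow, hs, h1]
    ring

end Pool.Agent.H918R3
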