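import Pool.Agent.H918R3.Defs

set_option autoImplicit false

/-!
# Task A9d: the octonion step
-/

namespace Pool.Agent.H918R3

open Matrix

/-- the eight square identity for the three-fold Pfister form `<<a, c, h>>` -/
theorem A9d_eight {K : Type*} [CommRing K] (a c h u0 u1 u2 u3 u4 u5 u6 u7 v0 v1 v2 v3 v4 v5 v6 v7 : K) :
    ((u0 * v0 - a * u1 * v1 - c * u2 * v2 + a * c * u3 * v3) -
        h * (v4 * u4 - a * v5 * u5 - c * v6 * u6 + a * c * v7 * u7)) ^ 2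
    - a * ((-u0 * v1 + u1 * v0 + c * u2 * v3 - c * u3 * v2) -
        h * (v4 * u5 - v5 * u4 + c * v6 * u7 - c * v7 * u6)) ^ 2
    - c * ((-u0 * v2 + u2 * v0 - a * u1 * v3 + a * u3 * v1) -
        h * (v4 * u6 - v6 * u4 - a * v5 * u7 + a * v7 * u5)) ^ 2
    + a * c * ((-u0 * v3 + u3 * v0 - u1 * v2 + u2 * v1) -
        h * (v4 * u7 - v7 * u4 - v5 * u6 + v6 * u5)) ^ 2
    - h * ((u4 * v0 + a * u5 * v1 + c * u6 * v2 - a * c * u7 * v3) -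
        (v4 * u0 + a * v5 * u1 + c * v6 * u2 - a * c * v7 * u3)) ^ 2
    + h * a * ((u4 * v1 + u5 * v0 - c * u6 * v3 + c * u7 * v2) -
        (v4 * u1 + v5 * u0 - c * v6 * u3 + c * v7 * u2)) ^ 2
    + h * c * ((u4 * v2 + u6 * v0 + a * u5 * v3 - a * u7 * v1) -
        (v4 * u2 + v6 * u0 + a * v5 * u3 - a * v7 * u1)) ^ 2
    - h * a * c * ((u4 * v3 + u7 * v0 + u5 * v2 - u6 * v1) -
        (v4 * u3 + v7 * u0 + v5 * u2 - v6 * u1)) ^ 2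
    = (u0 ^ 2 - a * u1 ^ 2 - c * u2 ^ 2 + a * c * u3 ^ 2 - h * u4 ^ 2 + h * a * u5 ^ 2
        + h * c * u6 ^ 2 - h * a * c * u7 ^ 2) *
      (v0 ^ 2 - a * v1 ^ 2 - c * v2 ^ 2 + a * c * v3 ^ 2 - h * v4 ^ 2 + h * a * v5 ^ 2
        + h * c * v6 ^ 2 - h * a * c * v7 ^ 2) := by
  ring

/-- A9d -/
theorem octonion_step {K : Type*} [Field K] (h2 : (2 : K) ≠ 0) {a c h d : K} (ha : a ≠ 0)
    (hc : c ≠ 0) (hh : h ≠ 0) (hd : d ≠ 0) (han : ¬ Isot (G8 a c h)) (u v : Fin 8 → K)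
    (huv : u ≠ 0 ∨ v ≠ 0)
    (h1 : u ⬝ᵥ (G8 a c h *ᵥ u) + d * (v ⬝ᵥ (G8 a c h *ᵥ v)) = 0)
    (hB : u ⬝ᵥ (G8 a c h *ᵥ v) = 0) :
    ∃ w : Fin 7 → K, -a * w 0 ^ 2 - c * w 1 ^ 2 + a * c * w 2 ^ 2 - h * w 3 ^ 2 + h * a * w 4 ^ 2
      + h * c * w 5 ^ 2 - h * a * c * w 6 ^ 2 = -d := by
  have hform : ∀ x y : Fin 8 → K, x ⬝ᵥ (G8 a c h *ᵥ y) =
      x 0 * y 0 - a * (x 1 * y 1) - c * (x 2 * y 2) + a * c * (x 3 * y 3) - h * (x 4 * y 4)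
        + h * a * (x 5 * y 5) + h * c * (x 6 * y 6) - h * a * c * (x 7 * y 7) := by
    intro x y
    rw [G8, dotProduct]
    simp only [mulVec_diagonal, Fin.sum_univ_succ, Fin.sum_univ_zero]
    simp [Fin.succ]
    ring
  have hv : v ⬝ᵥ (G8 a c h *ᵥ v) ≠ 0 := by
    intro h0
    have hv0 : v = 0 := by
      by_contra hne
      exact han ⟨v, hne, h0⟩
    have hu0 : u = 0 := by
      by_contra hne
      refine han ⟨u, hne, ?_⟩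
      rw [h0, mul_zero, add_zero] at h1
      exact h1
    rcases huv with h' | h'
    · exact h' hu0
    · exact h' hv0
  rw [hform] at h1 hB
  rw [hform] at h1 hv
  have key := A9d_eight a c h (u 0) (u 1) (u 2) (u 3) (u 4) (u 5) (u 6) (u 7)
    (v 0) (v 1) (v 2) (v 3) (v 4) (v 5) (v 6) (v 7)
  have hw0 : ((u 0 * v 0 - a * u 1 * v 1 - c * u 2 * v 2 + a * c * u 3 * v 3) -
        h * (v 4 * u 4 - a * v 5 * u 5 - c * v 6 * u 6 + a * c * v 7 * u 7)) = 0 := by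
    rw [← hB]; ring
  rw [hw0] at key
  set V : K := v 0 * v 0 - a * (v 1 * v 1) - c * (v 2 * v 2) + a * c * (v 3 * v 3) -
    h * (v 4 * v 4) + h * a * (v 5 * v 5) + h * c * (v 6 * v 6) - h * a * c * (v 7 * v 7) with hV
  set U : K := u 0 * u 0 - a * (u 1 * u 1) - c * (u 2 * u 2) + a * c * (u 3 * u 3) -
    h * (u 4 * u 4) + h * a * (u 5 * u 5) + h * c * (u 6 * u 6) - h * a * c * (u 7 * u 7) with hU
  have hU' : U = -d * V := by linear_combination h1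
  refine ⟨![
    ((-u 0 * v 1 + u 1 * v 0 + c * u 2 * v 3 - c * u 3 * v 2) -
        h * (v 4 * u 5 - v 5 * u 4 + c * v 6 * u 7 - c * v 7 * u 6)) / V,
    ((-u 0 * v 2 + u 2 * v 0 - a * u 1 * v 3 + a * u 3 * v 1) -
        h * (v 4 * u 6 - v 6 * u 4 - a * v 5 * u 7 + a * v 7 * u 5)) / V,
    ((-u 0 * v 3 + u 3 * v 0 - u 1 * v 2 + u 2 * v 1) -
        h * (v 4 * u 7 - v 7 * u 4 - v 5 * u 6 + v 6 * u 5)) / V,
    ((u 4 * v 0 + a * u 5 * v 1 + c * u 6 * v 2 - a * c * u 7 * v 3) -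
        (v 4 * u 0 + a * v 5 * u 1 + c * v 6 * u 2 - a * c * v 7 * u 3)) / V,
    ((u 4 * v 1 + u 5 * v 0 - c * u 6 * v 3 + c * u 7 * v 2) -
        (v 4 * u 1 + v 5 * u 0 - c * v 6 * u 3 + c * v 7 * u 2)) / V,
    ((u 4 * v 2 + u 6 * v 0 + a * u 5 * v 3 - a * u 7 * v 1) -
        (v 4 * u 2 + v 6 * u 0 + a * v 5 * u 3 - a * v 7 * u 1)) / V,
    ((u 4 * v 3 + u 7 * v 0 + u 5 * v 2 - u 6 * v 1) -
        (v 4 * u 3 + v 7 * u 0 + v 5 * u 2 - v 6 * u 1)) / V], ?_⟩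
  generalize ((-u 0 * v 1 + u 1 * v 0 + c * u 2 * v 3 - c * u 3 * v 2) -
        h * (v 4 * u 5 - v 5 * u 4 + c * v 6 * u 7 - c * v 7 * u 6)) = w1 at key ⊢
  generalize ((-u 0 * v 2 + u 2 * v 0 - a * u 1 * v 3 + a * u 3 * v 1) -
        h * (v 4 * u 6 - v 6 * u 4 - a * v 5 * u 7 + a * v 7 * u 5)) = w2 at key ⊢
  generalize ((-u 0 * v 3 + u 3 * v 0 - u 1 * v 2 + u 2 * v 1) -
        h * (v 4 * u 7 - v 7 * u 4 - v 5 * u 6 + v 6 * u 5)) = w3 at key ⊢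
  generalize ((u 4 * v 0 + a * u 5 * v 1 + c * u 6 * v 2 - a * c * u 7 * v 3) -
        (v 4 * u 0 + a * v 5 * u 1 + c * v 6 * u 2 - a * c * v 7 * u 3)) = w4 at key ⊢
  generalize ((u 4 * v 1 + u 5 * v 0 - c * u 6 * v 3 + c * u 7 * v 2) -
        (v 4 * u 1 + v 5 * u 0 - c * v 6 * u 3 + c * v 7 * u 2)) = w5 at key ⊢
  generalize ((u 4 * v 2 + u 6 * v 0 + a * u 5 * v 3 - a * u 7 * v 1) -
        (v 4 * u 2 + v 6 * u 0 + a * v 5 * u 3 - a * v 7 * u 1)) = w6 at key ⊢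
  generalize ((u 4 * v 3 + u 7 * v 0 + u 5 * v 2 - u 6 * v 1) -
        (v 4 * u 3 + v 7 * u 0 + v 5 * u 2 - v 6 * u 1)) = w7 at key ⊢
  have hR : (u 0 ^ 2 - a * u 1 ^ 2 - c * u 2 ^ 2 + a * c * u 3 ^ 2 - h * u 4 ^ 2 + h * a * u 5 ^ 2
        + h * c * u 6 ^ 2 - h * a * c * u 7 ^ 2) *
      (v 0 ^ 2 - a * v 1 ^ 2 - c * v 2 ^ 2 + a * c * v 3 ^ 2 - h * v 4 ^ 2 + h * a * v 5 ^ 2
        + h * c * v 6 ^ 2 - h * a * c * v 7 ^ 2) = U * V := by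
    rw [hU, hV]; ring
  rw [hR, hU'] at key
  clear_value V
  simp only [Matrix.cons_val]
  field_simp
  linear_combination key

end Pool.Agent.H918R3
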