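import Pool.Agent.H918R3.TCP
import Pool.Agent.H918R3.TA9d

set_option autoImplicit false

/-!
Task A9e: anisotropy over the function field of the hypersurface (assembly).
-/

namespace Pool.Agent.H918R3

open Matrix Polynomial

theorem A9e_up {E E' : Type*} [Field E] [Field E'] (e : E' ≃+* RatFunc E) (j : E →+* E')
    (hj : ∀ a, e (j a) = RatFunc.C a) {n : ℕ} (a : Fin n → E)
    (han : ∀ v : Fin n → E, ∑ i, a i * v i ^ 2 = 0 → v = 0) (v : Fin n → E')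
    (hv : ∑ i, j (a i) * v i ^ 2 = 0) : v = 0 := by
  have h := aniso_ratFunc a han (fun i => e (v i)) (by
    have h1 := congrArg e hv
    rw [map_sum, map_zero] at h1
    simpa only [map_mul, map_pow, hj] using h1)
  funext i
  have h1 : e (v i) = 0 := congrFun h i
  exact (map_eq_zero_iff e e.injective).1 h1

theorem A9e_down {E E' : Type*} [Field E] [Field E'] (e : E' ≃+* RatFunc E) (j : E →+* E')
    (hj : ∀ a, e (j a) = RatFunc.C a) (u : E') (hu : e u = RatFunc.X) (h2 : (2 : E) ≠ 0) {n : ℕ}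
    (a : Fin (n + 1) → E) (han : ∀ v : Fin (n + 1) → E, ∑ i, a i * v i ^ 2 = 0 → v = 0) (d : E)
    (v : Fin (n + 1) → E') (hv : ∑ i, j (a i) * v i ^ 2 = j d + j (a 0) * u ^ 2) :
    ∃ w : Fin n → E, ∑ i, a i.succ * w i ^ 2 = d := by
  refine diag_cancel h2 a han d (fun i => e (v i)) ?_
  have h1 := congrArg e hv
  rw [map_sum] at h1
  simpa only [map_add, map_mul, map_pow, hj, hu] using h1

theorem A9e_ne {E E' : Type*} [Field E] [Field E'] (e : E' ≃+* RatFunc E) (j : E →+* E')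
    (hj : ∀ a, e (j a) = RatFunc.C a) (u : E') (hu : e u = RatFunc.X) (α β : E)
    (h : j α = j β * u ^ 2) : β = 0 := by
  have h1 := congrArg e h
  rw [map_mul, map_pow, hj, hj, hu, ← RatFunc.algebraMap_C, ← RatFunc.algebraMap_C,
    ← RatFunc.algebraMap_X, ← map_pow, ← map_mul] at h1
  have h3 := RatFunc.algebraMap_injective E h1
  have h4 := congrArg (fun p => Polynomial.coeff p 2) h3
  simpa [Polynomial.coeff_C] using h4.symm

/-- the diagonal entries of `G8` -/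
def A9e_D {K : Type*} [Field K] (a c h : K) : Fin 8 → K :=
  ![1, -a, -c, a * c, -h, h * a, h * c, -(h * a * c)]

theorem A9e_isot {K : Type*} [Field K] {a c h : K} (hn : ¬ Isot (G8 a c h)) (v : Fin 8 → K)
    (hv : ∑ i, A9e_D a c h i * v i ^ 2 = 0) : v = 0 := by
  by_contra hne
  refine hn ⟨v, hne, ?_⟩
  rw [← hv]
  unfold G8 A9e_D dotProduct
  refine Finset.sum_congr rfl fun i _ => ?_
  rw [mulVec_diagonal]
  ring

theorem A9e_isot' {K : Type*} [Field K] {a c h : K}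
    (hn : ∀ v : Fin 8 → K, ∑ i, A9e_D a c h i * v i ^ 2 = 0 → v = 0) : ¬ Isot (G8 a c h) := by
  rintro ⟨v, hne, hv⟩
  refine hne (hn v ?_)
  rw [← hv]
  unfold G8 A9e_D dotProduct
  refine Finset.sum_congr rfl fun i _ => ?_
  rw [mulVec_diagonal]
  ring

theorem A9e_eight {K : Type*} [Field K] {a c h : K}
    (hn : ∀ v : Fin 8 → K, ∑ i, A9e_D a c h i * v i ^ 2 = 0 → v = 0)
    (v0 v1 v2 v3 v4 v5 v6 v7 : K)
    (hv : v0 ^ 2 - a * v1 ^ 2 - c * v2 ^ 2 + a * c * v3 ^ 2 - h * v4 ^ 2 + h * a * v5 ^ 2 +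
      h * c * v6 ^ 2 - h * a * c * v7 ^ 2 = 0) :
    v0 = 0 ∧ v1 = 0 ∧ v2 = 0 ∧ v3 = 0 ∧ v4 = 0 ∧ v5 = 0 ∧ v6 = 0 ∧ v7 = 0 := by
  have h1 := hn ![v0, v1, v2, v3, v4, v5, v6, v7] (by
    rw [Fin.sum_univ_eight]
    simp [A9e_D]
    linear_combination hv)
  refine ⟨?_, ?_, ?_, ?_, ?_, ?_, ?_, ?_⟩
  · simpa using congrFun h1 0
  · simpa using congrFun h1 1
  · simpa using congrFun h1 2
  · simpa using congrFun h1 3
  · simpa using congrFun h1 4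
  · simpa using congrFun h1 5
  · simpa using congrFun h1 6
  · simpa using congrFun h1 7

theorem A9e_seven {K : Type*} [Field K] {a c h : K}
    (hn : ∀ v : Fin 8 → K, ∑ i, A9e_D a c h i * v i ^ 2 = 0 → v = 0) (v : Fin 7 → K)
    (hv : ∑ i, (![a * c, -a, -c, -h, h * a, h * c, -(h * a * c)] : Fin 7 → K) i * v i ^ 2 = 0) :
    v = 0 := by
  rw [Fin.sum_univ_seven] at hv
  simp at hv
  obtain ⟨-, h1, h2, h3, h4, h5, h6, h7⟩ := A9e_eight hn 0 (v 1) (v 2) (v 0) (v 3) (v 4) (v 5) (v 6)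
    (by linear_combination hv)
  funext i
  fin_cases i <;> simp [*]

theorem A9e_six {K : Type*} [Field K] {a c h : K}
    (hn : ∀ v : Fin 8 → K, ∑ i, A9e_D a c h i * v i ^ 2 = 0 → v = 0) (v : Fin 6 → K)
    (hv : ∑ i, (![-c, -a, -h, h * a, h * c, -(h * a * c)] : Fin 6 → K) i * v i ^ 2 = 0) :
    v = 0 := by
  rw [Fin.sum_univ_six] at hv
  simp at hv
  obtain ⟨-, h1, h2, h3, h4, h5, h6, h7⟩ := A9e_eight hn 0 (v 1) (v 0) 0 (v 2) (v 3) (v 4) (v 5)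
    (by linear_combination hv)
  funext i
  fin_cases i <;> simp [*]

theorem A9e_five {K : Type*} [Field K] {a c h : K}
    (hn : ∀ v : Fin 8 → K, ∑ i, A9e_D a c h i * v i ^ 2 = 0 → v = 0) (v : Fin 5 → K)
    (hv : ∑ i, (![-a, -h, h * a, h * c, -(h * a * c)] : Fin 5 → K) i * v i ^ 2 = 0) :
    v = 0 := by
  rw [Fin.sum_univ_five] at hv
  simp at hv
  obtain ⟨-, h1, h2, h3, h4, h5, h6, h7⟩ := A9e_eight hn 0 (v 0) 0 0 (v 1) (v 2) (v 3) (v 4)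
    (by linear_combination hv)
  funext i
  fin_cases i <;> simp [*]

theorem A9e_ups {E E' : Type*} [Field E] [Field E'] (e : E' ≃+* RatFunc E) (j : E →+* E')
    (hj : ∀ a, e (j a) = RatFunc.C a) {a c h : E}
    (hn : ∀ v : Fin 8 → E, ∑ i, A9e_D a c h i * v i ^ 2 = 0 → v = 0) (v : Fin 8 → E')
    (hv : ∑ i, A9e_D (j a) (j c) (j h) i * v i ^ 2 = 0) : v = 0 := by
  refine A9e_up e j hj _ hn v ?_
  rw [← hv]
  refine Finset.sum_congr rfl fun i _ => ?_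
  congr 1
  fin_cases i <;> simp [A9e_D]

/-- A9e, with A9f as a hypothesis -/
theorem aniso_KX_aux {F E1 E2 E3 E4 : Type*} [Field F] [Field E1] [Field E2] [Field E3] [Field E4]
    (e1 : E1 ≃+* RatFunc F) (e2 : E2 ≃+* RatFunc E1) (e3 : E3 ≃+* RatFunc E2)
    (e4 : E4 ≃+* RatFunc E3) (j1 : F →+* E1) (j2 : E1 →+* E2) (j3 : E2 →+* E3) (j4 : E3 →+* E4)
    (hj1 : ∀ a, e1 (j1 a) = RatFunc.C a) (hj2 : ∀ a, e2 (j2 a) = RatFunc.C a)
    (hj3 : ∀ a, e3 (j3 a) = RatFunc.C a) (hj4 : ∀ a, e4 (j4 a) = RatFunc.C a)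
    (s : E1) (hs : e1 s = RatFunc.X) (u2 : E2) (hu2 : e2 u2 = RatFunc.X) (u3 : E3)
    (hu3 : e3 u3 = RatFunc.X) (u4 : E4) (hu4 : e4 u4 = RatFunc.X)
    (h2 : (2 : F) ≠ 0) {x c δ : F} (hx : x ≠ 0) (hc : c ≠ 0)
    (hres : ∀ ε : F, (∀ v : Fin 4 → RatFunc F, q4 (RatFunc.C x) (RatFunc.C c) v =
      (RatFunc.X - RatFunc.C ε) ^ 2 - RatFunc.C δ → IsotL δ x c) ∧
      (Isot (G8 (RatFunc.C x) (RatFunc.C c) ((RatFunc.X - RatFunc.C ε) ^ 2 - RatFunc.C δ)) →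
      IsotL δ x c)) (han : ¬ IsotL δ x c) (d : E4)
    (hd : d = j4 (j3 (j2 ((s ^ 2 - j1 δ) * ((s - 1) ^ 2 - j1 δ))))
      + j4 (j3 (j2 (j1 x))) * (j4 (j3 u2)) ^ 2 + j4 (j3 (j2 (j1 c))) * (j4 u3) ^ 2
      - j4 (j3 (j2 (j1 (x * c)))) * u4 ^ 2)
    (G : Matrix (Fin 8) (Fin 8) E4)
    (hG : G = G8 (j4 (j3 (j2 (j1 x)))) (j4 (j3 (j2 (j1 c)))) (j4 (j3 (j2 (s ^ 2 - j1 δ)))))
    (u v : Fin 8 → E4) (huv : u ≠ 0 ∨ v ≠ 0)
    (h : u ⬝ᵥ (G *ᵥ u) + d * (v ⬝ᵥ (G *ᵥ v)) = 0) : u ⬝ᵥ (G *ᵥ v) ≠ 0 := by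
  intro hB
  -- level 1
  obtain ⟨X1, hX1⟩ : ∃ X1 : E1, X1 = j1 x := ⟨_, rfl⟩
  obtain ⟨C1, hC1⟩ : ∃ C1 : E1, C1 = j1 c := ⟨_, rfl⟩
  obtain ⟨H1, hH1⟩ : ∃ H1 : E1, H1 = s ^ 2 - j1 δ := ⟨_, rfl⟩
  obtain ⟨H2, hH2⟩ : ∃ H2 : E1, H2 = (s - 1) ^ 2 - j1 δ := ⟨_, rfl⟩
  have n1 : ∀ v : Fin 8 → E1, ∑ i, A9e_D X1 C1 H1 i * v i ^ 2 = 0 → v = 0 := by
    intro v hv
    have hiso : ¬ Isot (G8 (RatFunc.C x) (RatFunc.C c)
        ((RatFunc.X - RatFunc.C (0 : F)) ^ 2 - RatFunc.C δ)) := fun h =>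
      han ((hres 0).2 h)
    have h1 := A9e_isot hiso (fun i => e1 (v i)) (by
      have h3 := congrArg e1 hv
      rw [map_sum, map_zero] at h3
      rw [← h3]
      refine Finset.sum_congr rfl fun i _ => ?_
      rw [map_mul, map_pow]
      congr 1
      fin_cases i <;> simp [A9e_D, hX1, hC1, hH1, hj1, hs])
    funext i
    have h3 : e1 (v i) = 0 := congrFun h1 i
    exact (map_eq_zero_iff e1 e1.injective).1 h3
  have n2 := A9e_ups e2 j2 hj2 n1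
  have n3 := A9e_ups e3 j3 hj3 n2
  have n4 := A9e_ups e4 j4 hj4 n3
  have hH1ne : H1 ≠ 0 := by
    intro h0
    have := (A9e_eight n1 0 0 0 0 1 0 0 0 (by rw [h0]; ring)).2.2.2.2.1
    exact one_ne_zero this
  have hX1ne : X1 ≠ 0 := by rw [hX1]; exact (map_ne_zero j1).2 hx
  have hC1ne : C1 ≠ 0 := by rw [hC1]; exact (map_ne_zero j1).2 hc
  have two1 : (2 : E1) ≠ 0 := by
    have := (map_ne_zero j1).2 h2
    rwa [map_ofNat] at this
  have two2 : (2 : E2) ≠ 0 := by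
    have := (map_ne_zero j2).2 two1
    rwa [map_ofNat] at this
  have two3 : (2 : E3) ≠ 0 := by
    have := (map_ne_zero j3).2 two2
    rwa [map_ofNat] at this
  have two4 : (2 : E4) ≠ 0 := by
    have := (map_ne_zero j4).2 two3
    rwa [map_ofNat] at this
  have hd' : d = j4 (j3 (j2 (H1 * H2))) + j4 (j3 (j2 X1)) * (j4 (j3 u2)) ^ 2
      + j4 (j3 (j2 C1)) * (j4 u3) ^ 2 - j4 (j3 (j2 (X1 * C1))) * u4 ^ 2 := by
    rw [hd, hH1, hH2, hX1, hC1, map_mul j1]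
  have hd0 : d ≠ 0 := by
    intro h0
    have h3 := A9e_ne e4 j4 hj4 u4 hu4
      (j3 (j2 (H1 * H2)) + j3 (j2 X1) * (j3 u2) ^ 2 + j3 (j2 C1) * u3 ^ 2) (j3 (j2 (X1 * C1))) (by
        rw [map_add, map_add, map_mul j4 (j3 (j2 X1)), map_mul j4 (j3 (j2 C1)), map_pow, map_pow]
        rw [h0] at hd'
        linear_combination -hd')
    exact (map_ne_zero j3).2 ((map_ne_zero j2).2 (mul_ne_zero hX1ne hC1ne)) h3
  -- the octonion step
  obtain ⟨w, hw⟩ := octonion_step two4 ((map_ne_zero j4).2 ((map_ne_zero j3).2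
    ((map_ne_zero j2).2 hX1ne))) ((map_ne_zero j4).2 ((map_ne_zero j3).2
    ((map_ne_zero j2).2 hC1ne))) ((map_ne_zero j4).2 ((map_ne_zero j3).2
    ((map_ne_zero j2).2 hH1ne))) hd0 (A9e_isot' n4) u v huv (by
      rw [hG, ← hX1, ← hC1, ← hH1] at h; exact h) (by
      rw [hG, ← hX1, ← hC1, ← hH1] at hB; exact hB)
  -- strip u4
  obtain ⟨w', hw'⟩ := A9e_down e4 j4 hj4 u4 hu4 two3 (n := 6) _ (A9e_seven n3)
    (-(j3 (j2 (H1 * H2)) + j3 (j2 X1) * (j3 u2) ^ 2 + j3 (j2 C1) * u3 ^ 2))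
    ![w 2, w 0, w 1, w 3, w 4, w 5, w 6] (by
      rw [Fin.sum_univ_seven]
      simp
      simp only [map_mul] at hd'
      rw [hd'] at hw
      linear_combination hw)
  -- strip u3
  obtain ⟨w'', hw''⟩ := A9e_down e3 j3 hj3 u3 hu3 two2 (n := 5) _ (A9e_six n2)
    (-(j2 (H1 * H2) + j2 X1 * u2 ^ 2))
    ![w' 1, w' 0, w' 2, w' 3, w' 4, w' 5] (by
      rw [Fin.sum_univ_six] at hw' ⊢
      simp at hw' ⊢
      linear_combination hw')
  -- strip u2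
  obtain ⟨w3, hw3⟩ := A9e_down e2 j2 hj2 u2 hu2 two1 (n := 4) _ (A9e_five n1)
    (-(H1 * H2)) ![w'' 0, w'' 1, w'' 2, w'' 3, w'' 4] (by
      rw [Fin.sum_univ_five] at hw'' ⊢
      simp at hw'' ⊢
      linear_combination hw'')
  rw [Fin.sum_univ_four] at hw3
  simp at hw3
  have hq : q4 X1 C1 w3 = H2 := by
    apply mul_left_cancel₀ hH1ne
    unfold q4
    linear_combination -hw3
  refine han ((hres 1).1 (fun i => e1 (w3 i)) ?_)
  have h5 := congrArg e1 hq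
  rw [hH2] at h5
  unfold q4 at h5 ⊢
  simpa only [map_add, map_sub, map_mul, map_pow, hj1, hs, hX1, hC1, map_one] using h5

end Pool.Agent.H918R3
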