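import Pool.Agent.H918R3.TB0

set_option autoImplicit false

/-! Task B7 of project H918R3 (helper90): `2 W(K) = W_D(B) + W_{eD}(B)` for a quadratic extension. -/

namespace Pool.Agent.H918R3

open Polynomial

namespace TB7

open WeierstrassCurve WeierstrassCurve.Affine WeierstrassCurve.Affine.Point

/-- a ring homomorphism induces a homomorphism on the points -/
theorem exists_map {K K' : Type*} [Field K] [DecidableEq K] [Field K'] [DecidableEq K']
    (σ : K →+* K') (W : WeierstrassCurve K) (W' : WeierstrassCurve K') (hW : W' = W.map σ) :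
    ∃ s : W.toAffine.Point →+ W'.toAffine.Point,
      ∀ x y h, ∃ h', s (.some x y h) = .some (σ x) (σ y) h' := by
  subst hW
  let f : W.toAffine.Point → (W.map σ).toAffine.Point := fun P => match P with
    | 0 => 0
    | .some x y h => .some (σ x) (σ y) ((WeierstrassCurve.Affine.map_nonsingular (W := W)
        σ.injective x y).mpr h)
  have hadd : ∀ P Q, f (P + Q) = f P + f Q := by
    rintro (_ | ⟨x₁, y₁, h₁⟩) (_ | ⟨x₂, y₂, h₂⟩)
    any_goals rfl
    by_cases hxy : x₁ = x₂ ∧ y₁ = W.toAffine.negY x₂ y₂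
    · have e1 : (Affine.Point.some x₁ y₁ h₁ : W.toAffine.Point) + Affine.Point.some x₂ y₂ h₂ = 0 :=
        add_of_Y_eq hxy.left hxy.right
      rw [e1]
      symm
      apply add_of_Y_eq (congr_arg _ hxy.left)
      rw [hxy.right]
      exact (WeierstrassCurve.Affine.map_negY (W' := W) σ x₂ y₂).symm
    · rw [add_some hxy]
      have hxy' : ¬ (σ x₁ = σ x₂ ∧ σ y₁ = (W.map σ).toAffine.negY (σ x₂) (σ y₂)) := by
        rintro ⟨h3, h4⟩
        apply hxy
        refine ⟨σ.injective h3, σ.injective ?_⟩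
        rw [h4]
        exact WeierstrassCurve.Affine.map_negY (W' := W) σ x₂ y₂
      have e2 := add_some hxy'
        (h₁ := (WeierstrassCurve.Affine.map_nonsingular (W := W) σ.injective x₁ y₁).mpr h₁)
        (h₂ := (WeierstrassCurve.Affine.map_nonsingular (W := W) σ.injective x₂ y₂).mpr h₂)
      refine Eq.trans ?_ e2.symm
      simp only [f]
      rw [Affine.Point.some.injEq]
      constructor
      · rw [WeierstrassCurve.Affine.map_slope, WeierstrassCurve.Affine.map_addX]
      · rw [WeierstrassCurve.Affine.map_slope, WeierstrassCurve.Affine.map_addY]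
  exact ⟨{ toFun := f, map_zero' := rfl, map_add' := hadd }, fun x y h => ⟨_, rfl⟩⟩

/-- the conjugation of a quadratic extension -/
theorem exists_conj {B K : Type*} [Field B] [Field K] (φ : B →+* K) (r : K) (e : B)
    (he : φ e = r ^ 2) (hr : ∀ b : B, φ b ≠ r) (hK : ∀ z : K, ∃ a b : B, z = φ a + φ b * r) :
    ∃ σ : K →+* K, ∀ a b : B, σ (φ a + φ b * r) = φ a - φ b * r := by
  have huniq : ∀ a b a' b' : B, φ a + φ b * r = φ a' + φ b' * r → a = a' ∧ b = b' := by
    intro a b a' b' h
    have hb : b = b' := by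
      by_contra hne
      have h3 : φ (b' - b) ≠ 0 := by
        intro h4
        apply hne
        have := (map_eq_zero φ).1 h4
        exact (sub_eq_zero.1 this).symm
      apply hr ((a - a') / (b' - b))
      rw [map_div₀, div_eq_iff h3]
      simp only [map_sub]
      linear_combination h
    refine ⟨?_, hb⟩
    subst hb
    exact φ.injective (by linear_combination h)
  choose α β hαβ using hK
  have hα : ∀ a b : B, α (φ a + φ b * r) = a ∧ β (φ a + φ b * r) = b := by
    intro a b
    have := huniq _ _ _ _ (hαβ (φ a + φ b * r))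
    exact ⟨this.1.symm, this.2.symm⟩
  have hσ : ∀ a b : B, φ (α (φ a + φ b * r)) - φ (β (φ a + φ b * r)) * r = φ a - φ b * r := by
    intro a b
    rw [(hα a b).1, (hα a b).2]
  refine ⟨{ toFun := fun z => φ (α z) - φ (β z) * r, map_one' := ?_, map_mul' := ?_,
            map_zero' := ?_, map_add' := ?_ }, hσ⟩
  · have := hσ 1 0
    simpa using this
  · intro x y
    have e1 : x * y = φ (α x * α y + β x * β y * e) + φ (α x * β y + β x * α y) * r := by
      conv_lhs => rw [hαβ x, hαβ y]
      simp only [map_add, map_mul, he]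
      ring
    have e2 := hσ (α x * α y + β x * β y * e) (α x * β y + β x * α y)
    rw [← e1] at e2
    rw [e2]
    simp only [map_add, map_mul, he]
    ring
  · have := hσ 0 0
    simpa using this
  · intro x y
    have e1 : x + y = φ (α x + α y) + φ (β x + β y) * r := by
      conv_lhs => rw [hαβ x, hαβ y]
      simp only [map_add]
      ring
    have e2 := hσ (α x + α y) (β x + β y)
    rw [← e1] at e2
    rw [e2]
    simp only [map_add]
    ring

end TB7

/-- B7 -/
theorem quad_step {K : Type*} [Field K] {B : Type*} [Field B] [DecidableEq B] [DecidableEq K]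
    (h2 : (2 : B) ≠ 0)
    (φ : B →+* K) (r : K) (e : B) (he : φ e = r ^ 2) (hr : ∀ b : B, φ b ≠ r)
    (hK : ∀ z : K, ∃ a b : B, z = φ a + φ b * r) {D l : B} (hD : D ≠ 0) (h0 : l ≠ 0) (h1 : l ≠ 1)
    {D' l' : K} (hD' : D' = φ D) (hl' : l' = φ l) (f1 : WD D l →+ WD D' l') (hf1 : IsTr φ 1 f1)
    (f2 : WD (e * D) l →+ WD D' l') (hf2 : IsTr φ r⁻¹ f2) (Q : WD D' l') :
    ∃ (P1 : WD D l) (P2 : WD (e * D) l), Q + Q = f1 P1 + f2 P2 := by
  obtain ⟨σ, hσ⟩ := TB7.exists_conj φ r e he hr hK
  have h2' : (2 : K) ≠ 0 := by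
    intro h
    apply h2
    apply φ.injective
    rw [map_zero, ← h]
    exact map_ofNat φ 2
  have hr0 : r ≠ 0 := by
    intro h
    apply hr 0
    rw [map_zero, h]
  have he0 : e ≠ 0 := by
    intro h
    rw [h, map_zero] at he
    exact pow_ne_zero 2 hr0 he.symm
  have hD0' : D' ≠ 0 := by
    rw [hD']
    exact (map_ne_zero φ).2 hD
  have h0' : l' ≠ 0 := by
    rw [hl']
    exact (map_ne_zero φ).2 h0
  have h1' : l' ≠ 1 := by
    rw [hl']
    intro h
    apply h1
    apply φ.injective
    rw [h, map_one]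
  have hσφ : ∀ b, σ (φ b) = φ b := by
    intro b
    have := hσ b 0
    simpa using this
  have hfix : ∀ z, σ z = z → ∃ a, z = φ a := by
    intro z hz
    obtain ⟨a, b, rfl⟩ := hK z
    rw [hσ] at hz
    have h3 : 2 * (φ b * r) = 0 := by linear_combination -hz
    refine ⟨a, ?_⟩
    have h4 : φ b * r = 0 := by
      rcases mul_eq_zero.1 h3 with h5 | h5
      · exact absurd h5 h2'
      · exact h5
    rw [h4, add_zero]
  have hanti : ∀ z, σ z = -z → ∃ b, z = φ b * r := by
    intro z hz
    obtain ⟨a, b, rfl⟩ := hK z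
    rw [hσ] at hz
    have h3 : 2 * φ a = 0 := by linear_combination hz
    refine ⟨b, ?_⟩
    have h4 : φ a = 0 := by
      rcases mul_eq_zero.1 h3 with h5 | h5
      · exact absurd h5 h2'
      · exact h5
    rw [h4, zero_add]
  have hσσ : ∀ z, σ (σ z) = z := by
    intro z
    obtain ⟨a, b, rfl⟩ := hK z
    have e1 : φ a - φ b * r = φ a + φ (-b) * r := by
      rw [map_neg]
      ring
    rw [hσ, e1, hσ, map_neg]
    ring
  have hW : crv 0 D' (l' * D') = (crv 0 D' (l' * D')).map σ := by
    have e1 : σ D' = D' := by rw [hD', hσφ]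
    have e2 : σ l' = l' := by rw [hl', hσφ]
    simp only [crv, WeierstrassCurve.map, map_zero, map_neg, map_add, map_mul, e1, e2]
  obtain ⟨s, hs⟩ := TB7.exists_map σ (crv 0 D' (l' * D')) (crv 0 D' (l' * D')) hW
  have hss : ∀ P, s (s P) = P := by
    intro P
    rcases P with _ | ⟨x, y, h⟩
    · exact (congrArg s (map_zero s)).trans (map_zero s)
    · obtain ⟨h3, h4⟩ := hs x y h
      obtain ⟨h5, h6⟩ := hs _ _ h3
      rw [h4, h6, WeierstrassCurve.Affine.Point.some.injEq]
      exact ⟨hσσ x, hσσ y⟩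
  have hA : s (Q + s Q) = Q + s Q := by
    rw [map_add, hss, add_comm]
  have hB : s (Q - s Q) = -(Q - s Q) := by
    rw [map_sub, hss, neg_sub]
  have key1 : ∀ A : WD D' l', s A = A → ∃ P1 : WD D l, f1 P1 = A := by
    intro A hA
    rcases A with _ | ⟨x, y, h⟩
    · exact ⟨0, map_zero f1⟩
    · obtain ⟨h3, h4⟩ := hs x y h
      have h5 := h4.symm.trans hA
      rw [WeierstrassCurve.Affine.Point.some.injEq] at h5
      obtain ⟨a, rfl⟩ := hfix x h5.1
      obtain ⟨b, rfl⟩ := hfix y h5.2
      have h6 := (TB0.nons h2' hD0' h0' h1' _ _).1 h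
      have h7 : b ^ 2 = a * (a - D) * (a - l * D) := by
        apply φ.injective
        rw [hD', hl'] at h6
        simp only [map_pow, map_mul, map_sub]
        exact h6
      refine ⟨.some a b ((TB0.nons h2 hD h0 h1 _ _).2 h7), ?_⟩
      obtain ⟨h8, h9⟩ := hf1 a b ((TB0.nons h2 hD h0 h1 _ _).2 h7)
      rw [h9, WeierstrassCurve.Affine.Point.some.injEq]
      constructor <;> ring
  have key2 : ∀ A : WD D' l', s A = -A → ∃ P2 : WD (e * D) l, f2 P2 = A := by
    intro A hA
    rcases A with _ | ⟨x, y, h⟩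
    · exact ⟨0, map_zero f2⟩
    · obtain ⟨h3, h4⟩ := hs x y h
      have h5 := h4.symm.trans hA
      rw [WeierstrassCurve.Affine.Point.neg_some, WeierstrassCurve.Affine.Point.some.injEq] at h5
      obtain ⟨a, rfl⟩ := hfix x h5.1
      have h5' := h5.2
      rw [TB0.negY_eq] at h5'
      obtain ⟨b, rfl⟩ := hanti y h5'
      have h6 := (TB0.nons h2' hD0' h0' h1' _ _).1 h
      have h7 : (e ^ 2 * b) ^ 2 = (e * a) * (e * a - e * D) * (e * a - l * (e * D)) := by
        apply φ.injective
        rw [hD', hl'] at h6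
        simp only [map_pow, map_mul, map_sub]
        have e1 : (φ b * r) ^ 2 = φ b ^ 2 * φ e := by rw [he]; ring
        rw [e1] at h6
        linear_combination (φ e) ^ 3 * h6
      have heD : e * D ≠ 0 := mul_ne_zero he0 hD
      refine ⟨.some (e * a) (e ^ 2 * b) ((TB0.nons h2 heD h0 h1 _ _).2 h7), ?_⟩
      obtain ⟨h8, h9⟩ := hf2 (e * a) (e ^ 2 * b) ((TB0.nons h2 heD h0 h1 _ _).2 h7)
      rw [h9, WeierstrassCurve.Affine.Point.some.injEq]
      simp only [map_mul, map_pow, he]
      constructor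
      · field_simp
      · field_simp
  obtain ⟨P1, hP1⟩ := key1 _ hA
  obtain ⟨P2, hP2⟩ := key2 _ hB
  refine ⟨P1, P2, ?_⟩
  rw [hP1, hP2]
  abel

end Pool.Agent.H918R3
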