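import Mathlib
import Pool.Agent.H918R3.Defs
import Pool.Agent.H918R3.TB0
import Pool.Agent.H918R3.TB1
import Pool.Agent.H918R3.TB2ab
import Pool.Agent.H918R3.TB2c
import Pool.Agent.H918R3.TB3u

set_option autoImplicit false

/-!
# Task C2: the sixth curve has only two-torsion points (helper8)
-/

namespace Pool.Agent.H918R3

open Matrix Polynomial WeierstrassCurve

variable {k : Type*} [Field k]

namespace TC2

lemma ns {O : ValuationSubring k} {x y u : k} (hy : O.valuation y ≤ 1) (h : x * y = u)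
    (hu : O.valuation u = 1) : ¬ O.valuation x < 1 := by
  intro hx
  rw [← h, map_mul] at hu
  have := mul_lt_one_of_lt_of_le hx hy
  rw [hu] at this
  exact lt_irrefl _ this

lemma sm {O : ValuationSubring k} {x z : k} (h : x = z) (hz : O.valuation z < 1) :
    O.valuation x < 1 := by rw [h]; exact hz

open Classical in
/-- indicator of `a ∈ S` and the residue condition -/
noncomputable def ii (O : ValuationSubring k) (S : Finset k) (α β r a : k) : ℕ :=
  if a ∈ S ∧ O.valuation ((a - α) / β - r) < 1 then 1 else 0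

open Classical in
lemma nR_sum (O : ValuationSubring k) (S A : Finset k) (hS : S ⊆ A) (α β r : k) :
    nR O S α β r = ∑ a ∈ A, ii O S α β r a := by
  unfold nR ii
  rw [← Finset.card_filter]
  rw [← Set.ncard_coe_finset]
  congr 1
  ext a
  simp only [Set.mem_ofPred_eq, Finset.coe_filter]
  constructor
  · rintro ⟨h1, h2⟩
    exact ⟨hS h1, h1, h2⟩
  · rintro ⟨_, h1, h2⟩
    exact ⟨h1, h2⟩

lemma ii_neg {O : ValuationSubring k} {S : Finset k} {α β r a : k}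
    (h : ¬ O.valuation ((a - α) / β - r) < 1) : ii O S α β r a = 0 := by
  unfold ii
  rw [if_neg (fun h' => h h'.2)]

open Classical in
lemma ii_pos {O : ValuationSubring k} {S : Finset k} {α β r a : k}
    (h : O.valuation ((a - α) / β - r) < 1) : ii O S α β r a = if a ∈ S then 1 else 0 := by
  unfold ii
  by_cases ha : a ∈ S
  · rw [if_pos ⟨ha, h⟩, if_pos ha]
  · rw [if_neg (fun h' => ha h'.1), if_neg ha]

lemma even1 (p : Prop) [Decidable p] : Even (if p then 1 else 0 : ℕ) ↔ ¬ p := by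
  by_cases hp : p
  · simp [hp]
  · simp [hp]

lemma even2 (p q : Prop) [Decidable p] [Decidable q] :
    Even ((if p then 1 else 0 : ℕ) + (if q then 1 else 0)) ↔ (p ↔ q) := by
  by_cases hp : p <;> by_cases hq : q <;> simp [hp, hq]

lemma even3 (p q r : Prop) [Decidable p] [Decidable q] [Decidable r] :
    Even ((if p then 1 else 0 : ℕ) + ((if q then 1 else 0) +
    (if r then 1 else 0))) ↔ ((p ↔ q) ↔ ¬ r) := by
  by_cases hp : p <;> by_cases hq : q <;> by_cases hr : r <;> simp [hp, hq, hr, Nat.even_iff]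


variable {O : ValuationSubring k}

lemma no {x : k} (y c z : k) (hy : O.valuation y ≤ 1) (hc : O.valuation c = 1)
    (hz : O.valuation z < 1) (h : x * y = c + z) : ¬ O.valuation x < 1 := by
  refine ns hy h ?_
  rw [Valuation.map_add_eq_of_lt_left _ (by rw [hc]; exact hz), hc]

lemma v0 : O.valuation (0 : k) < 1 := by
  rw [map_zero]; exact zero_lt_one

lemma v1 : O.valuation (1 : k) = 1 := map_one _

lemma vn1 : O.valuation (-1 : k) = 1 := by rw [Valuation.map_neg, map_one]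

lemma vneg {z : k} (hz : O.valuation z < 1) : O.valuation (-z) < 1 := by
  rw [Valuation.map_neg]; exact hz

lemma vmul {a z : k} (ha : O.valuation a ≤ 1) (hz : O.valuation z < 1) :
    O.valuation (a * z) < 1 := by
  rw [map_mul, mul_comm]
  exact mul_lt_one_of_lt_of_le hz ha

/-- the five points -/
lemma five {l : k} (hl : GenL l) (F : k → ℕ) [DecidableEq k] :
    ∑ a ∈ ({0, 1, l, 1 - l, l⁻¹} : Finset k), F a =
      F 0 + (F 1 + (F l + (F (1 - l) + F l⁻¹))) := by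
  obtain ⟨_, h0, h1, hm, h2l, h3⟩ := hl
  have a1 : (0 : k) ≠ 1 := zero_ne_one
  have a2 : (0 : k) ≠ l := h0.symm
  have a3 : (0 : k) ≠ 1 - l := (sub_ne_zero.2 h1.symm).symm
  have a4 : (0 : k) ≠ l⁻¹ := (inv_ne_zero h0).symm
  have a5 : (1 : k) ≠ l := h1.symm
  have a6 : (1 : k) ≠ 1 - l := fun h => h0 (by linear_combination h)
  have a7 : (1 : k) ≠ l⁻¹ := fun h => h1 (by
    have := congrArg (· * l) h
    simp only [inv_mul_cancel₀ h0, one_mul] at this
    exact this)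
  have a8 : l ≠ 1 - l := fun h => h2l (by linear_combination -h)
  have a9 : l ≠ l⁻¹ := fun h => by
    have := congrArg (· * l) h
    simp only [inv_mul_cancel₀ h0] at this
    have h' : (l - 1) * (l + 1) = 0 := by linear_combination this
    rcases mul_eq_zero.1 h' with h' | h'
    · exact h1 (sub_eq_zero.1 h')
    · exact hm (by linear_combination h')
  have a10 : 1 - l ≠ l⁻¹ := fun h => h3 (by
    have := congrArg (· * l) h
    simp only [inv_mul_cancel₀ h0] at this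
    linear_combination -this)
  rw [Finset.sum_insert (by
      simp only [Finset.mem_insert, Finset.mem_singleton, not_or]; exact ⟨a1, a2, a3, a4⟩),
    Finset.sum_insert (by
      simp only [Finset.mem_insert, Finset.mem_singleton, not_or]; exact ⟨a5, a6, a7⟩),
    Finset.sum_insert (by
      simp only [Finset.mem_insert, Finset.mem_singleton, not_or]; exact ⟨a8, a9⟩),
    Finset.sum_insert (by
      simp only [Finset.mem_singleton]; exact a10), Finset.sum_singleton]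


section main
variable [DecidableEq k] {l : k} {S : Finset k}

lemma c1 (hl : GenL l) (hO : O.valuation l < 1)
    (hS : S ⊆ ({0, 1, l, 1 - l, l⁻¹} : Finset k)) (h : ∀ r ∈ O, Even (nR O S 0 1 r)) :
    (0 ∈ S ↔ l ∈ S) ∧ (1 ∈ S ↔ 1 - l ∈ S) := by
  have h0 : l ≠ 0 := hl.2.1
  have hl1 : O.valuation l ≤ 1 := hO.le
  have hn : O.valuation (-l) < 1 := vneg hO
  constructor
  · have e := h 0 O.zero_mem
    rw [nR_sum O S _ hS, five hl, ii_pos (sm (by simp) v0),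
      ii_neg (no 1 1 0 v1.le v1 v0 (by simp)),
      ii_pos (sm (z := l) (by simp) hO),
      ii_neg (no 1 1 (-l) v1.le v1 hn (by ring)),
      ii_neg (no l 1 0 hl1 v1 v0 (by field_simp; ring)), zero_add, add_zero, add_zero, even2] at e
    exact e
  · have e := h 1 O.one_mem
    rw [nR_sum O S _ hS, five hl, ii_neg (no 1 (-1) 0 v1.le vn1 v0 (by simp)),
      ii_pos (sm (by simp) v0),
      ii_neg (no 1 (-1) l v1.le vn1 hO (by ring)),
      ii_pos (sm (z := -l) (by ring) hn),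
      ii_neg (no l 1 (-l) hl1 v1 hn (by field_simp; ring)), zero_add, zero_add, add_zero,
      even2] at e
    exact e

omit [DecidableEq k] in
lemma vl_of (hO : O.valuation (1 - l) < 1) : O.valuation l = 1 := by
  have : l = 1 + -(1 - l) := by ring
  rw [this, Valuation.map_add_eq_of_lt_left _ (by rw [v1]; exact vneg hO), v1]

lemma c2a (hl : GenL l) (hO : O.valuation (1 - l) < 1)
    (hS : S ⊆ ({0, 1, l, 1 - l, l⁻¹} : Finset k)) (h : ∀ r ∈ O, Even (nR O S 0 1 r)) :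
    (0 ∈ S ↔ 1 - l ∈ S) := by
  have h0 : l ≠ 0 := hl.2.1
  have hl1 := vl_of hO
  have e := h 0 O.zero_mem
  rw [nR_sum O S _ hS, five hl, ii_pos (sm (by simp) v0),
    ii_neg (no 1 1 0 v1.le v1 v0 (by simp)),
    ii_neg (no 1 l 0 v1.le hl1 v0 (by simp)),
    ii_pos (sm (z := 1 - l) (by ring) hO),
    ii_neg (no l 1 0 hl1.le v1 v0 (by field_simp; ring)), zero_add, zero_add, add_zero, even2] at e
  exact e

lemma c2b (hl : GenL l) (hO : O.valuation (1 - l) < 1) (ho : O.valuation 2 = 1)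
    (hS : S ⊆ ({0, 1, l, 1 - l, l⁻¹} : Finset k)) (h : ∀ r ∈ O, Even (nR O S 1 (1 - l) r)) :
    1 ∉ S ∧ l ∉ S ∧ l⁻¹ ∉ S := by
  have h0 : l ≠ 0 := hl.2.1
  have h1 : 1 - l ≠ 0 := sub_ne_zero.2 hl.2.2.1.symm
  have hl1 := vl_of hO
  have hnl : O.valuation (-l) = 1 := by rw [Valuation.map_neg, hl1]
  have hn := vneg hO
  have hll : O.valuation l⁻¹ = 1 := by rw [map_inv₀, hl1, inv_one]
  refine ⟨?_, ?_, ?_⟩
  · have e := h 0 O.zero_mem
    rw [nR_sum O S _ hS, five hl, ii_neg (no (1 - l) (-1) 0 hO.le vn1 v0 (by field_simp; ring)),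
      ii_pos (sm (by simp) v0),
      ii_neg (no 1 (-1) 0 v1.le vn1 v0 (by field_simp; ring)),
      ii_neg (no (1 - l) (-l) 0 hO.le hnl v0 (by field_simp; ring)),
      ii_neg (no l 1 0 hl1.le v1 v0 (by field_simp; ring)), zero_add, add_zero, add_zero, add_zero,
      even1] at e
    exact e
  · have e := h (-1) (O.neg_mem _ O.one_mem)
    rw [nR_sum O S _ hS, five hl, ii_neg (no (1 - l) (-l) 0 hO.le hnl v0 (by field_simp; ring)),
      ii_neg (no 1 1 0 v1.le v1 v0 (by field_simp; ring)),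
      ii_pos (sm (z := 0) (by field_simp; ring) v0),
      ii_neg (no (1 - l) (-1) (2 * (1 - l)) hO.le vn1 (vmul ho.le hO) (by field_simp; ring)),
      ii_neg (no l 2 (-(1 - l)) hl1.le ho hn (by field_simp; ring)), zero_add, zero_add, add_zero,
      add_zero, even1] at e
    exact e
  · have e := h 1 O.one_mem
    have hn2 : O.valuation (-2 : k) = 1 := by rw [Valuation.map_neg, ho]
    rw [nR_sum O S _ hS, five hl,
      ii_neg (no (1 - l) (-1) (-(1 - l)) hO.le vn1 hn (by field_simp; ring)),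
      ii_neg (no 1 (-1) 0 v1.le vn1 v0 (by field_simp; ring)),
      ii_neg (no 1 (-2) 0 v1.le hn2 v0 (by field_simp; ring)),
      ii_neg (no (1 - l) (-1) 0 hO.le vn1 v0 (by field_simp; ring)),
      ii_pos (sm (z := l⁻¹ * (1 - l)) (by field_simp) (vmul hll.le hO)), zero_add, zero_add,
      zero_add, zero_add, even1] at e
    exact e

lemma c3a (hl : GenL l) (hO : O.valuation l⁻¹ < 1)
    (hS : S ⊆ ({0, 1, l, 1 - l, l⁻¹} : Finset k)) (h : ∀ r ∈ O, Even (nR O S 0 1 r)) :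
    (0 ∈ S ↔ l⁻¹ ∈ S) := by
  have h0 : l ≠ 0 := hl.2.1
  have e := h 0 O.zero_mem
  rw [nR_sum O S _ hS, five hl, ii_pos (sm (by simp) v0),
    ii_neg (no 1 1 0 v1.le v1 v0 (by simp)),
    ii_neg (no l⁻¹ 1 0 hO.le v1 v0 (by field_simp; ring)),
    ii_neg (no l⁻¹ (-1) l⁻¹ hO.le vn1 hO (by field_simp; ring)),
    ii_pos (sm (z := l⁻¹) (by simp) hO), zero_add, zero_add, zero_add, even2] at e
  exact e

lemma c3b (hl : GenL l) (hO : O.valuation l⁻¹ < 1) (ho : O.valuation 2 = 1)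
    (hS : S ⊆ ({0, 1, l, 1 - l, l⁻¹} : Finset k)) (h : ∀ r ∈ O, Even (nR O S 0 l r)) :
    ((0 ∈ S ↔ 1 ∈ S) ↔ ¬ l⁻¹ ∈ S) ∧ l ∉ S ∧ 1 - l ∉ S := by
  have h0 : l ≠ 0 := hl.2.1
  have hn := vneg hO
  have hm : O.valuation (l⁻¹ * l⁻¹) < 1 := vmul hO.le hO
  refine ⟨?_, ?_, ?_⟩
  · have e := h 0 O.zero_mem
    rw [nR_sum O S _ hS, five hl, ii_pos (sm (by simp) v0),
      ii_pos (sm (z := l⁻¹) (by simp) hO),
      ii_neg (no 1 1 0 v1.le v1 v0 (by field_simp; ring)),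
      ii_neg (no 1 (-1) l⁻¹ v1.le vn1 hO (by field_simp; ring)),
      ii_pos (sm (z := l⁻¹ * l⁻¹) (by field_simp; ring) hm), zero_add, zero_add, even3] at e
    exact e
  · have e := h 1 O.one_mem
    have hn2 : O.valuation (-2 : k) = 1 := by rw [Valuation.map_neg, ho]
    rw [nR_sum O S _ hS, five hl, ii_neg (no 1 (-1) 0 v1.le vn1 v0 (by simp)),
      ii_neg (no 1 (-1) l⁻¹ v1.le vn1 hO (by field_simp; ring)),
      ii_pos (sm (z := 0) (by field_simp; ring) v0),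
      ii_neg (no 1 (-2) l⁻¹ v1.le hn2 hO (by field_simp; ring)),
      ii_neg (no 1 (-1) (l⁻¹ * l⁻¹) v1.le vn1 hm (by field_simp; ring)), zero_add, zero_add,
      add_zero, add_zero, even1] at e
    exact e
  · have e := h (-1) (O.neg_mem _ O.one_mem)
    rw [nR_sum O S _ hS, five hl, ii_neg (no 1 1 0 v1.le v1 v0 (by simp)),
      ii_neg (no 1 1 l⁻¹ v1.le v1 hO (by field_simp; ring)),
      ii_neg (no 1 2 0 v1.le ho v0 (by field_simp; ring)),
      ii_pos (sm (z := l⁻¹) (by field_simp; ring) hO),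
      ii_neg (no 1 1 (l⁻¹ * l⁻¹) v1.le v1 hm (by field_simp; ring)), zero_add, zero_add, zero_add,
      add_zero, even1] at e
    exact e


lemma p2 {a b c : Prop} (h : ¬ a ∧ ¬ b ∧ ¬ c) : (a ↔ b) ∧ (a ↔ c) := by
  obtain ⟨h1, h2, h3⟩ := h
  exact ⟨iff_of_false h1 h2, iff_of_false h1 h3⟩

lemma p2' {a b c : Prop} (h : ¬ ¬ a ∧ ¬ ¬ b ∧ ¬ ¬ c) : (a ↔ b) ∧ (a ↔ c) := by
  obtain ⟨h1, h2, h3⟩ := h
  exact ⟨iff_of_true (not_not.1 h1) (not_not.1 h2), iff_of_true (not_not.1 h1) (not_not.1 h3)⟩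

lemma p5 {a b c d e : Prop} (h : ((a ↔ b) ↔ ¬ e) ∧ ¬ c ∧ ¬ d) (h' : a ↔ e) :
    (b ↔ c) ∧ (b ↔ d) := by
  obtain ⟨h1, h2, h3⟩ := h
  by_cases hb : b <;> by_cases he : e <;> simp_all

lemma p5' {a b c d e : Prop} (h : ((¬ a ↔ ¬ b) ↔ ¬ ¬ e) ∧ ¬ ¬ c ∧ ¬ ¬ d) (h' : a ↔ e) :
    (b ↔ c) ∧ (b ↔ d) := by
  obtain ⟨h1, h2, h3⟩ := h
  by_cases hb : b <;> by_cases he : e <;> simp_all

lemma p10 {a0 a1 a2 a3 a4 b0 b1 b2 b3 b4 : Prop} (r2 : a0 ↔ a3) (r3 : (a1 ↔ a2) ∧ (a1 ↔ a4))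
    (r1 : (b0 ↔ b2) ∧ (b1 ↔ b3))
    (r4 : (a0 ∧ ¬ b0 ∨ b0 ∧ ¬ a0) ↔ (a4 ∧ ¬ b4 ∨ b4 ∧ ¬ a4))
    (r5 : ((a1 ∧ ¬ b1 ∨ b1 ∧ ¬ a1) ↔ (a2 ∧ ¬ b2 ∨ b2 ∧ ¬ a2)) ∧
      ((a1 ∧ ¬ b1 ∨ b1 ∧ ¬ a1) ↔ (a3 ∧ ¬ b3 ∨ b3 ∧ ¬ a3))) :
    ((a0 ↔ a1) ∧ (a0 ↔ a2) ∧ (a0 ↔ a3) ∧ (a0 ↔ a4)) ∧
    ((b0 ↔ b1) ∧ (b0 ↔ b2) ∧ (b0 ↔ b3) ∧ (b0 ↔ b4)) := by
  obtain ⟨r3, r3'⟩ := r3
  obtain ⟨r1, r1'⟩ := r1
  obtain ⟨r5, r5'⟩ := r5
  have r2 := propext r2
  have r3 := propext r3
  have r3' := propext r3'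
  have r1 := propext r1
  have r1' := propext r1'
  subst r2 r3 r3' r1 r1'
  by_cases h0 : a0 <;> by_cases h1 : a1 <;> by_cases h2 : b0 <;> by_cases h3 : b1 <;>
    by_cases h4 : b4 <;> simp_all

/-- the combined conditions -/
lemma comb {l : k} (hl : GenL l) {O1 O2 O3 : ValuationSubring k} (hO1 : O1.valuation l < 1)
    (hO2 : O2.valuation (1 - l) < 1) (hO3 : O3.valuation l⁻¹ < 1)
    (ho2 : O2.valuation 2 = 1) (ho3 : O3.valuation 2 = 1) {S0 S1 : Finset k}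
    (hS0 : S0 ⊆ ({0, 1, l, 1 - l, l⁻¹} : Finset k))
    (hS1 : S1 ⊆ ({0, 1, l, 1 - l, l⁻¹} : Finset k))
    (H1 : (∀ r ∈ O1, Even (nR O1 S1 0 1 r)) ∨
      (∀ r ∈ O1, Even (nR O1 (symmDiff ({0, 1, l, 1 - l, l⁻¹} : Finset k) S1) 0 1 r)))
    (H2 : (∀ r ∈ O2, Even (nR O2 S0 0 1 r)) ∨
      (∀ r ∈ O2, Even (nR O2 (symmDiff ({0, 1, l, 1 - l, l⁻¹} : Finset k) S0) 0 1 r)))
    (H2' : (∀ r ∈ O2, Even (nR O2 S0 1 (1 - l) r)) ∨
      (∀ r ∈ O2, Even (nR O2 (symmDiff ({0, 1, l, 1 - l, l⁻¹} : Finset k) S0) 1 (1 - l) r)))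
    (H3 : (∀ r ∈ O3, Even (nR O3 (symmDiff S0 S1) 0 1 r)) ∨
      (∀ r ∈ O3, Even (nR O3 (symmDiff ({0, 1, l, 1 - l, l⁻¹} : Finset k) (symmDiff S0 S1))
        0 1 r)))
    (H3' : (∀ r ∈ O3, Even (nR O3 (symmDiff S0 S1) 0 l r)) ∨
      (∀ r ∈ O3, Even (nR O3 (symmDiff ({0, 1, l, 1 - l, l⁻¹} : Finset k) (symmDiff S0 S1))
        0 l r))) :
    (S0 = ∅ ∨ S0 = {0, 1, l, 1 - l, l⁻¹}) ∧ (S1 = ∅ ∨ S1 = {0, 1, l, 1 - l, l⁻¹}) := by
  have sub : ∀ S : Finset k, S ⊆ ({0, 1, l, 1 - l, l⁻¹} : Finset k) →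
      symmDiff ({0, 1, l, 1 - l, l⁻¹} : Finset k) S ⊆ ({0, 1, l, 1 - l, l⁻¹} : Finset k) := by
    intro S hS a ha
    rw [Finset.mem_symmDiff] at ha
    rcases ha with ha | ha
    · exact ha.1
    · exact hS ha.1
  have mem : ∀ (S : Finset k) (a : k), a ∈ ({0, 1, l, 1 - l, l⁻¹} : Finset k) →
      (a ∈ symmDiff ({0, 1, l, 1 - l, l⁻¹} : Finset k) S ↔ ¬ a ∈ S) := by
    intro S a ha
    rw [Finset.mem_symmDiff]
    exact ⟨fun h => h.elim (fun h => h.2) (fun h => absurd ha h.2), fun h => Or.inl ⟨ha, h⟩⟩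
  have m0 : (0 : k) ∈ ({0, 1, l, 1 - l, l⁻¹} : Finset k) := by simp
  have m1 : (1 : k) ∈ ({0, 1, l, 1 - l, l⁻¹} : Finset k) := by simp
  have m2 : l ∈ ({0, 1, l, 1 - l, l⁻¹} : Finset k) := by simp
  have m3 : 1 - l ∈ ({0, 1, l, 1 - l, l⁻¹} : Finset k) := by simp
  have m4 : l⁻¹ ∈ ({0, 1, l, 1 - l, l⁻¹} : Finset k) := by simp
  have hS2 : symmDiff S0 S1 ⊆ ({0, 1, l, 1 - l, l⁻¹} : Finset k) := by
    intro a ha
    rw [Finset.mem_symmDiff] at ha
    rcases ha with ha | ha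
    · exact hS0 ha.1
    · exact hS1 ha.1
  have r1 : (0 ∈ S1 ↔ l ∈ S1) ∧ (1 ∈ S1 ↔ 1 - l ∈ S1) := by
    rcases H1 with H | H
    · exact c1 hl hO1 hS1 H
    · have := c1 hl hO1 (sub _ hS1) H
      rw [mem _ _ m0, mem _ _ m1, mem _ _ m2, mem _ _ m3] at this
      exact ⟨not_iff_not.1 this.1, not_iff_not.1 this.2⟩
  have r2 : (0 ∈ S0 ↔ 1 - l ∈ S0) := by
    rcases H2 with H | H
    · exact c2a hl hO2 hS0 H
    · have := c2a hl hO2 (sub _ hS0) H
      rw [mem _ _ m0, mem _ _ m3] at this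
      exact not_iff_not.1 this
  have r3 : (1 ∈ S0 ↔ l ∈ S0) ∧ (1 ∈ S0 ↔ l⁻¹ ∈ S0) := by
    rcases H2' with H | H
    · exact p2 (c2b hl hO2 ho2 hS0 H)
    · have := c2b hl hO2 ho2 (sub _ hS0) H
      rw [mem _ _ m1, mem _ _ m2, mem _ _ m4] at this
      exact p2' this
  have r4 : (0 ∈ symmDiff S0 S1 ↔ l⁻¹ ∈ symmDiff S0 S1) := by
    rcases H3 with H | H
    · exact c3a hl hO3 hS2 H
    · have := c3a hl hO3 (sub _ hS2) H
      rw [mem _ _ m0, mem _ _ m4] at this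
      exact not_iff_not.1 this
  have r5 : (1 ∈ symmDiff S0 S1 ↔ l ∈ symmDiff S0 S1) ∧
      (1 ∈ symmDiff S0 S1 ↔ 1 - l ∈ symmDiff S0 S1) := by
    rcases H3' with H | H
    · exact p5 (c3b hl hO3 ho3 hS2 H) r4
    · have := c3b hl hO3 ho3 (sub _ hS2) H
      rw [mem _ _ m0, mem _ _ m1, mem _ _ m2, mem _ _ m3, mem _ _ m4] at this
      exact p5' this r4
  rw [Finset.mem_symmDiff, Finset.mem_symmDiff] at r4
  rw [Finset.mem_symmDiff, Finset.mem_symmDiff, Finset.mem_symmDiff] at r5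
  have fin : ∀ S : Finset k, S ⊆ ({0, 1, l, 1 - l, l⁻¹} : Finset k) →
      (0 ∈ S ↔ 1 ∈ S) → (0 ∈ S ↔ l ∈ S) → (0 ∈ S ↔ 1 - l ∈ S) → (0 ∈ S ↔ l⁻¹ ∈ S) →
      S = ∅ ∨ S = {0, 1, l, 1 - l, l⁻¹} := by
    intro S hS s1 s2 s3 s4
    by_cases h : (0 : k) ∈ S
    · right
      refine Finset.Subset.antisymm hS ?_
      intro a ha
      simp only [Finset.mem_insert, Finset.mem_singleton] at ha
      rcases ha with rfl | rfl | rfl | rfl | rfl
      · exact h
      · exact s1.1 h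
      · exact s2.1 h
      · exact s3.1 h
      · exact s4.1 h
    · left
      rw [Finset.eq_empty_iff_forall_notMem]
      intro a ha
      have ha' := hS ha
      simp only [Finset.mem_insert, Finset.mem_singleton] at ha'
      rcases ha' with h' | h' | h' | h' | h' <;> rw [h'] at ha
      · exact h ha
      · exact h (s1.2 ha)
      · exact h (s2.2 ha)
      · exact h (s3.2 ha)
      · exact h (s4.2 ha)
  obtain ⟨⟨f1, f2, f3, f4⟩, g1, g2, g3, g4⟩ := p10 r2 r3 r1 r4 r5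
  exact ⟨fin S0 hS0 f1 f2 f3 f4, fin S1 hS1 g1 g2 g3 g4⟩

end main


lemma crv_swap {K : Type*} [Field K] (D l : K) : crv D 0 (l * D) = crv 0 D (l * D) := by
  unfold crv
  congr 1 <;> ring

lemma sqC [IsAlgClosed k] (c : k) : IsSquare (RatFunc.C c) := by
  obtain ⟨z, hz⟩ := IsAlgClosed.exists_pow_nat_eq c (n := 2) (by norm_num)
  exact ⟨RatFunc.C z, by rw [← map_mul, ← sq, hz]⟩

lemma PS_empty : PS (∅ : Finset k) = 1 := by simp [PS]

lemma PS_ne (S : Finset k) : PS S ≠ 0 := by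
  unfold PS
  rw [Finset.prod_ne_zero_iff]
  intro a _ h
  have := sub_eq_zero.1 h
  rw [← RatFunc.algebraMap_X, ← RatFunc.algebraMap_C] at this
  have := RatFunc.algebraMap_injective k this
  exact Polynomial.X_ne_C a this

lemma PS_five [DecidableEq k] {l : k} (hl : GenL l) :
    PS ({0, 1, l, 1 - l, l⁻¹} : Finset k) = RatFunc.X * (RatFunc.X - 1) * (RatFunc.X - RatFunc.C l) *
      (RatFunc.X - RatFunc.C (1 - l)) * (RatFunc.X - RatFunc.C l⁻¹) := by
  obtain ⟨_, h0, h1, hm, h2l, h3⟩ := hl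
  have a1 : (0 : k) ≠ 1 := zero_ne_one
  have a2 : (0 : k) ≠ l := h0.symm
  have a3 : (0 : k) ≠ 1 - l := (sub_ne_zero.2 h1.symm).symm
  have a4 : (0 : k) ≠ l⁻¹ := (inv_ne_zero h0).symm
  have a5 : (1 : k) ≠ l := h1.symm
  have a6 : (1 : k) ≠ 1 - l := fun h => h0 (by linear_combination h)
  have a7 : (1 : k) ≠ l⁻¹ := fun h => h1 (by
    have := congrArg (· * l) h
    simp only [inv_mul_cancel₀ h0, one_mul] at this
    exact this)
  have a8 : l ≠ 1 - l := fun h => h2l (by linear_combination -h)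
  have a9 : l ≠ l⁻¹ := fun h => by
    have := congrArg (· * l) h
    simp only [inv_mul_cancel₀ h0] at this
    have h' : (l - 1) * (l + 1) = 0 := by linear_combination this
    rcases mul_eq_zero.1 h' with h' | h'
    · exact h1 (sub_eq_zero.1 h')
    · exact hm (by linear_combination h')
  have a10 : 1 - l ≠ l⁻¹ := fun h => h3 (by
    have := congrArg (· * l) h
    simp only [inv_mul_cancel₀ h0] at this
    linear_combination -this)
  unfold PS
  rw [Finset.prod_insert (by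
      simp only [Finset.mem_insert, Finset.mem_singleton, not_or]; exact ⟨a1, a2, a3, a4⟩),
    Finset.prod_insert (by
      simp only [Finset.mem_insert, Finset.mem_singleton, not_or]; exact ⟨a5, a6, a7⟩),
    Finset.prod_insert (by
      simp only [Finset.mem_insert, Finset.mem_singleton, not_or]; exact ⟨a8, a9⟩),
    Finset.prod_insert (by
      simp only [Finset.mem_singleton]; exact a10), Finset.prod_singleton, map_zero, map_one,
    sub_zero]
  ring

/-- the class of a sum with a two-torsion point -/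
lemma sq_sum {K : Type*} [Field K] {x a b p : K} (h : IsSquare (x * (a * b))) (ha : a ≠ 0)
    (hb : b ≠ 0) (hp : p ≠ 0) (h1 : IsSquare (a * p)) (h2 : IsSquare (b * p)) : IsSquare x := by
  have h3 := (h.mul (h1.mul h2)).div (IsSquare.sq (a * b * p))
  have : x * (a * b) * (a * p * (b * p)) / (a * b * p) ^ 2 = x := by
    field_simp
  rwa [this] at h3

end TC2

open TC2 in
/-- C2, from the statement of PAR2 (`constraint`) for this curve -/
theorem tors_six_of [IsAlgClosed k] [DecidableEq k] [DecidableEq (RatFunc k)] {l : k} (hl : GenL l)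
    (O1 O2 O3 : ValuationSubring k) (hO1 : O1.valuation l < 1)
    (hO2 : O2.valuation (1 - l) < 1) (hO3 : O3.valuation l⁻¹ < 1) (_ho1 : O1.valuation 2 = 1)
    (ho2 : O2.valuation 2 = 1) (ho3 : O3.valuation 2 = 1) {D : RatFunc k}
    (hD : D = RatFunc.X * (RatFunc.X - 1) * (RatFunc.X - RatFunc.C l) *
      (RatFunc.X - RatFunc.C (1 - l)) * (RatFunc.X - RatFunc.C l⁻¹))
    (hcon : D = PS ({0, 1, l, 1 - l, l⁻¹} : Finset k) →
      ∀ (O : ValuationSubring k) (P : WD D (RatFunc.C l)) (α β : k), β ≠ 0 →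
      (O.valuation l < 1 → ∀ S : Finset k, IsSquare (d1 P * PS S) →
        (∀ r ∈ O, Even (nR O S α β r)) ∨
        (∀ r ∈ O, Even (nR O (symmDiff ({0, 1, l, 1 - l, l⁻¹} : Finset k) S) α β r))) ∧
      (O.valuation (1 - l) < 1 → ∀ S : Finset k, IsSquare (d0 P * PS S) →
        (∀ r ∈ O, Even (nR O S α β r)) ∨
        (∀ r ∈ O, Even (nR O (symmDiff ({0, 1, l, 1 - l, l⁻¹} : Finset k) S) α β r))) ∧
      (O.valuation l⁻¹ < 1 → ∀ S : Finset k, IsSquare (d0 P * d1 P * PS S) →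
        (∀ r ∈ O, Even (nR O S α β r)) ∨
        (∀ r ∈ O, Even (nR O (symmDiff ({0, 1, l, 1 - l, l⁻¹} : Finset k) S) α β r))))
    (R : WD D (RatFunc.C l)) :
    R + R = 0 := by
  have h2 : (2 : k) ≠ 0 := hl.1
  have h0 : l ≠ 0 := hl.2.1
  have h1 : l ≠ 1 := hl.2.2.1
  have hDA : D = PS ({0, 1, l, 1 - l, l⁻¹} : Finset k) := by rw [hD, PS_five hl]
  have hDns : ¬ IsSquare D := by
    rw [hDA, ps_square.1]
    exact (Finset.insert_nonempty _ _).ne_empty
  have hD0 : D ≠ 0 := by rw [hDA]; exact PS_ne _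
  have H2 : (2 : RatFunc k) ≠ 0 := by
    have : (RatFunc.C (2 : k)) = (2 : RatFunc k) := map_ofNat _ 2
    rw [← this]
    exact (_root_.map_ne_zero _).2 h2
  have H0 : (RatFunc.C l : RatFunc k) ≠ 0 := (_root_.map_ne_zero _).2 h0
  have H1 : (RatFunc.C l : RatFunc k) ≠ 1 := by
    rw [← map_one (RatFunc.C (K := k))]
    exact fun h => h1 (RatFunc.C_injective h)
  obtain ⟨-, hex, -, -, -, -, htor, ⟨hz0, hz1⟩, hx0, hx1, hxl, -⟩ := pt_basic H2 hD0 H0 H1
  obtain ⟨T0, hT0⟩ := hex 0 0 (by ring)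
  obtain ⟨T1, hT1⟩ := hex 1 0 (by ring)
  obtain ⟨Tl, hTl⟩ := hex (RatFunc.C l) 0 (by ring)
  have key : ∀ R : WD D (RatFunc.C l), ∃ (m : ℤ) (T S : WD D (RatFunc.C l)), T + T = 0 ∧
      R = m • (0 : WD D (RatFunc.C l)) + T + (S + S) := by
    intro R
    obtain ⟨⟨S0, hS0, q0⟩, S1, hS1, q1⟩ := classes h2 ({0, 1, l, 1 - l, l⁻¹} : Finset k) h0 h1 hDA R
    have q2 : IsSquare (d0 R * d1 R * PS (symmDiff S0 S1)) := by
      obtain ⟨w, hw, e⟩ := ps_square.2.1 S0 S1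
      have := (q0.mul q1).div (IsSquare.sq w)
      have e' : d0 R * PS S0 * (d1 R * PS S1) / w ^ 2 = d0 R * d1 R * PS (symmDiff S0 S1) := by
        rw [div_eq_iff (pow_ne_zero 2 hw)]
        linear_combination d0 R * d1 R * e
      rwa [e'] at this
    have K01 := fun (O : ValuationSubring k) => hcon hDA O R 0 1 one_ne_zero
    have K1l := fun (O : ValuationSubring k) => hcon hDA O R 1 (1 - l) (sub_ne_zero.2 h1.symm)
    have K0l := fun (O : ValuationSubring k) => hcon hDA O R 0 l h0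
    obtain ⟨u0, u1⟩ := comb hl hO1 hO2 hO3 ho2 ho3 hS0 hS1 ((K01 O1).1 hO1 S1 q1)
      ((K01 O2).2.1 hO2 S0 q0) ((K1l O2).2.1 hO2 S0 q0) ((K01 O3).2.2 hO3 _ q2)
      ((K0l O3).2.2 hO3 _ q2)
    have fin : ∀ T : WD D (RatFunc.C l), T + T = 0 → IsSquare (d0 T * PS S0) →
        IsSquare (d1 T * PS S1) → ∃ (m : ℤ) (T S : WD D (RatFunc.C l)), T + T = 0 ∧
        R = m • (0 : WD D (RatFunc.C l)) + T + (S + S) := by
      intro T hT t0 t1
      have hlD : (0 : RatFunc k) ≠ RatFunc.C l * D := (mul_ne_zero H0 hD0).symm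
      have hDl : D ≠ RatFunc.C l * D := by
        intro h
        apply H1
        have : (RatFunc.C l - 1) * D = 0 := by linear_combination -h
        rcases mul_eq_zero.1 this with h' | h'
        · exact sub_eq_zero.1 h'
        · exact absurd h' hD0
      have A0 := dl_add H2 (e1 := 0) (e2 := D) (e3 := RatFunc.C l * D) rfl hD0.symm hlD hDl R T
      have A0' := dl_add H2 (e1 := 0) (e2 := D) (e3 := RatFunc.C l * D) rfl hD0.symm hlD hDl T R
      have A1 := dl_add H2 (e1 := 0) (e2 := D) (e3 := RatFunc.C l * D) (crv_swap D _) hD0 hDl hlD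
        R T
      have A1' := dl_add H2 (e1 := 0) (e2 := D) (e3 := RatFunc.C l * D) (crv_swap D _) hD0 hDl hlD
        T R
      obtain ⟨S, hS⟩ := exists_half H2 hD0 H0 H1 (R + T)
        (sq_sum A0.2 A0.1 A0'.1 (PS_ne S0) q0 t0) (sq_sum A1.2 A1.1 A1'.1 (PS_ne S1) q1 t1)
      refine ⟨0, T, S, hT, ?_⟩
      rw [← hS, zero_smul, zero_add]
      have : T + (R + T) = R + (T + T) := by abel
      rw [this, hT, add_zero]
    rcases u0 with rfl | rfl <;> rcases u1 with rfl | rfl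
    · refine fin 0 (add_zero 0) ?_ ?_
      · rw [hz0, PS_empty, one_mul]; exact IsSquare.one
      · rw [hz1, PS_empty, one_mul]; exact IsSquare.one
    · refine fin T0 ((htor T0).2 (Or.inr (Or.inl hT0))) ?_ ?_
      · rw [(hx0 T0 hT0).1, PS_empty, mul_one]; exact (sqC l).mul (IsSquare.sq D)
      · rw [(hx0 T0 hT0).2, ← hDA]
        have e : -D * D = RatFunc.C (-1) * D ^ 2 := by
          rw [map_neg, map_one]; ring
        rw [e]
        exact (sqC _).mul (IsSquare.sq D)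
    · refine fin T1 ((htor T1).2 (Or.inr (Or.inr (Or.inl hT1)))) ?_ ?_
      · rw [(hx1 T1 hT1).1, ← hDA]; exact ⟨D, rfl⟩
      · rw [(hx1 T1 hT1).2, PS_empty, mul_one]
        have e : (1 - RatFunc.C l : RatFunc k) = RatFunc.C (1 - l) := by
          rw [map_sub, map_one]
        rw [e]
        exact (sqC _).mul (IsSquare.sq D)
    · refine fin Tl ((htor Tl).2 (Or.inr (Or.inr (Or.inr hTl)))) ?_ ?_
      · rw [(hxl Tl hTl).1, ← hDA, mul_assoc]; exact (sqC _).mul ⟨D, rfl⟩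
      · rw [(hxl Tl hTl).2, ← hDA, mul_assoc]
        have e : (RatFunc.C l - 1 : RatFunc k) = RatFunc.C (l - 1) := by
          rw [map_sub, map_one]
        rw [e]
        exact (sqC _).mul ⟨D, rfl⟩
  obtain ⟨n, T, hT, hR⟩ := descent_of h2 hDns h0 h1 (ht_double h2 hD0 h0 h1)
    (ht_add_sub_le h2 hD0 h0 h1) 0 (Nat.zero_le 1) key R
  rw [hR, smul_zero, zero_add, hT]

end Pool.Agent.H918R3
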