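import Mathlib
import Pool.Agent.H918R3.H81Pts
import Pool.Agent.H918R3.TPB0
import Pool.Agent.H918R3.TFD
import Pool.Agent.H918R3.TC4

set_option autoImplicit false

/-!
# Task URi1 (helper81): the five splittings
-/

namespace Pool.Agent.H918R3

open Polynomial

namespace H81

variable {K : Type*} [Field K] [DecidableEq K] {t l : K}

/-- a point with the given classes, neither `0` nor 2-torsion, gives explicit square roots of the
three differences -/
lemma extract (d : Dat t l) {P : WD (t * (t - 1) * (t - l)) l} {u : V3 × V3}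
    (hP : PC t l P u) (hu : ∀ j : Fin 4, u ≠ vT j) :
    ∃ ξ w : K, ξ * (t * (t - 1) * (t - l)) ≠ 0 ∧ (ξ - 1) * (t * (t - 1) * (t - l)) ≠ 0 ∧
      (ξ - l) * (t * (t - 1) * (t - l)) ≠ 0 ∧
      (ξ * (t * (t - 1) * (t - l))) * ((ξ - 1) * (t * (t - 1) * (t - l))) *
        ((ξ - l) * (t * (t - 1) * (t - l))) = w ^ 2 ∧
      Cl t (t - 1) (t - l) (ξ * (t * (t - 1) * (t - l))) u.1 ∧
      Cl t (t - 1) (t - l) ((ξ - 1) * (t * (t - 1) * (t - l))) u.2 := by
  obtain ⟨-, -, heq, -, -, hcase, -, -, -, -, -, hgen⟩ := pt_basic d.h2 d.hD d.h0 d.h1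
  have hD := d.hD
  rcases hcase P with h | ⟨ξ, hξ⟩
  · exact absurd (PCl.unique d.ind hP (by rw [h]; exact PCl.zero)) (hu 0)
  · have n0 : ξ ≠ 0 := by
      rintro rfl
      exact hu 1 (PCl.unique d.ind hP (cls_T0 d hξ))
    have n1 : ξ ≠ 1 := by
      rintro rfl
      exact hu 2 (PCl.unique d.ind hP (cls_T1 d hξ))
    have nl : ξ ≠ l := by
      rintro rfl
      exact hu 3 (PCl.unique d.ind hP (cls_T2 d hξ))
    obtain ⟨w, hw⟩ := heq P ξ hξ
    obtain ⟨e0, e1⟩ := hgen P ξ n0 n1 hξ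
    refine ⟨ξ, t * (t - 1) * (t - l) * w, mul_ne_zero n0 hD, mul_ne_zero (sub_ne_zero.mpr n1) hD,
      mul_ne_zero (sub_ne_zero.mpr nl) hD, ?_, ?_, ?_⟩
    · linear_combination (t * (t - 1) * (t - l)) ^ 2 * hw
    · rw [← e0]; exact hP.1
    · rw [← e1]; exact hP.2

omit [DecidableEq K] in
/-- three nonzero elements with square product, the first a square, the second in the class of
`c`: then the third is in the class of `c` as well -/
lemma third {A B C c w : K} (hA : A ≠ 0) (hB : B ≠ 0) (hc : c ≠ 0)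
    (h : A * B * C = w ^ 2) (sA : IsSquare A) (sB : IsSquare (B * c)) :
    ∃ α β γ : K, A = α ^ 2 ∧ B = c * β ^ 2 ∧ C = c * γ ^ 2 := by
  obtain ⟨a, ha⟩ := sA
  obtain ⟨b, hb⟩ := sB
  have ha0 : a ≠ 0 := by
    rintro rfl
    exact hA (by rw [ha]; ring)
  have hb0 : b ≠ 0 := by
    rintro rfl
    exact (mul_ne_zero hB hc) (by rw [hb]; ring)
  refine ⟨a, b / c, w / (a * b), by rw [ha]; ring, ?_, ?_⟩
  · field_simp
    linear_combination hb
  · field_simp
    -- C * (a*b)^2 = c * w^2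
    have : A * (B * c) * C = c * w ^ 2 := by linear_combination c * h
    rw [ha, hb] at this
    linear_combination this

end H81

variable {k : Type*} [Field k]

open H81 in
/-- URi1: the five splittings (may use B0, B1a, B3, IND) -/
theorem five_splittings [IsAlgClosed k] {l : k} (hl : GenL l) {F : Type*} [Field F]
    (φ : RatFunc k →+* F) (x Δ : F)
    (hΔ : Δ = φ (DF l) * x * (x - 1) * (x - φ (RatFunc.C l))) :
    Pur Δ x (φ (tF l)) ∧
    Pur Δ x (φ ((tF l - 1) * (tF l - RatFunc.C l))) ∧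
    Pur Δ (x - 1) (φ (tF l * (tF l - RatFunc.C l))) ∧
    Pur Δ (x - 1) (φ (tF l - 1)) ∧
    Pur Δ (x - φ (RatFunc.C l)) (φ (tF l - RatFunc.C l)) := by
  classical
  have d := dat_of_genL hl (tF_classes hl)
  obtain ⟨Q1, Q2, Q3, T0, T1, T2, h1, h2, h3, h4, h5, h6⟩ := exists_pts d
  have hφ : Function.Injective φ := φ.injective
  have hφ0 : ∀ z : RatFunc k, z ≠ 0 → φ z ≠ 0 := fun z hz h => hz (hφ (by rw [h, map_zero]))
  have f2 : (2 : F) ≠ 0 := by
    have := hφ0 2 d.h2
    rwa [map_ofNat] at this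
  have hD := d.hD
  have q1 := cls_Q1 d h1
  have q2 := cls_Q2 d h2
  have q3 := cls_Q3 d h3
  have t0 := cls_T0 d h4
  have t1 := cls_T1 d h5
  have t2 := cls_T2 d h6
  have hl1 : φ (RatFunc.C l) ≠ 1 := by
    intro h
    apply d.h1
    apply hφ
    rw [h, map_one]
  have hl0 : φ (RatFunc.C l) ≠ 0 := hφ0 _ d.h0
  obtain ⟨i, hi⟩ := d.sm
  have hi' : (-1 : F) = φ i ^ 2 := by
    have := congrArg φ hi
    rw [map_neg, map_one, map_mul] at this
    rw [this]; ring
  have hi0 : φ i ≠ 0 := by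
    intro h
    rw [h] at hi'
    have : (1 : F) = 0 := by linear_combination -hi'
    exact one_ne_zero this
  obtain ⟨m, hm⟩ := d.sl
  have hm' : φ (RatFunc.C l) = φ m ^ 2 := by
    rw [hm, map_mul]; ring
  have hm0 : φ m ≠ 0 := by
    intro h
    rw [h] at hm'
    exact hl0 (by rw [hm']; ring)
  -- (1): classes (1, c)
  have key1 : ∀ c : RatFunc k, c ≠ 0 → ∀ (P : WD (tF l * (tF l - 1) * (tF l - RatFunc.C l))
      (RatFunc.C l)) (u : V3), PC (tF l) (RatFunc.C l) P (0, u) →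
      (∃ s, s ≠ 0 ∧ mon (tF l) (tF l - 1) (tF l - RatFunc.C l) u = c * s ^ 2) →
      (∀ j : Fin 4, ((0, u) : V3 × V3) ≠ vT j) → Pur Δ x (φ c) := by
    intro c hc P u hP hs hu
    obtain ⟨ξ, w, a1, a2, a3, a4, a5, a6⟩ := extract d hP hu
    obtain ⟨s, hs0, hs⟩ := hs
    have b1 : IsSquare (ξ * (tF l * (tF l - 1) * (tF l - RatFunc.C l))) := by
      simpa [mon] using a5.2
    have b2 : IsSquare ((ξ - 1) * (tF l * (tF l - 1) * (tF l - RatFunc.C l)) * c) := by
      apply isSquare_of_mul_sq hs0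
      have := a6.2
      simp only at this
      rw [hs] at this
      rw [mul_assoc]
      exact this
    obtain ⟨α, β, γ, eα, eβ, eγ⟩ := third a1 a2 hc a4 b1 b2
    have := TC4.pur_of_cov f2 (x := x) (D := φ (DF l)) (c := φ c) (a := 1)
      (b := φ (RatFunc.C l)) (α := φ α) (β := φ β) (γ := φ γ) (a' := 1) (hφ0 _ hD) (hφ0 _ hc)
      hl1.symm (by ring) one_ne_zero (by
        rw [← map_pow, ← map_pow, ← map_mul, ← map_sub, ← eα, ← eβ, one_mul]
        congr 1
        rw [DF]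
        ring) (by
        rw [← map_pow, ← map_pow, ← map_mul, ← map_sub, ← eα, ← eγ, ← map_mul]
        congr 1
        rw [DF]
        ring)
    rw [hΔ]
    exact this
  -- (2): classes (c, 1)
  have key2 : ∀ c : RatFunc k, c ≠ 0 → ∀ (P : WD (tF l * (tF l - 1) * (tF l - RatFunc.C l))
      (RatFunc.C l)) (u : V3), PC (tF l) (RatFunc.C l) P (u, 0) →
      (∃ s, s ≠ 0 ∧ mon (tF l) (tF l - 1) (tF l - RatFunc.C l) u = c * s ^ 2) →
      (∀ j : Fin 4, ((u, 0) : V3 × V3) ≠ vT j) → Pur Δ (x - 1) (φ c) := by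
    intro c hc P u hP hs hu
    obtain ⟨ξ, w, a1, a2, a3, a4, a5, a6⟩ := extract d hP hu
    obtain ⟨s, hs0, hs⟩ := hs
    have b1 : IsSquare ((ξ - 1) * (tF l * (tF l - 1) * (tF l - RatFunc.C l))) := by
      simpa [mon] using a6.2
    have b2 : IsSquare (ξ * (tF l * (tF l - 1) * (tF l - RatFunc.C l)) * c) := by
      apply isSquare_of_mul_sq hs0
      have := a5.2
      simp only at this
      rw [hs] at this
      rw [mul_assoc]
      exact this
    obtain ⟨α, β, γ, eα, eβ, eγ⟩ := third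
      (C := (ξ - RatFunc.C l) * (tF l * (tF l - 1) * (tF l - RatFunc.C l))) a2 a1 hc
      (by rw [← a4]; ring) b1 b2
    have := TC4.pur_of_cov f2 (x := x - 1) (D := φ (DF l)) (c := φ c) (a := -1)
      (b := φ (RatFunc.C l) - 1) (α := φ α) (β := φ β) (γ := φ γ) (a' := φ i) (hφ0 _ hD)
      (hφ0 _ hc) (by
        intro h
        exact hl0 (by linear_combination -h)) hi' hi0 (by
        rw [← map_pow, ← map_pow, ← map_mul, ← map_sub, ← eα, ← eβ, neg_one_mul, ← map_neg]
        congr 1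
        rw [DF]
        ring) (by
        rw [← map_pow, ← map_pow, ← map_mul, ← map_sub, ← eα, ← eγ, ← map_one φ, ← map_sub,
          ← map_mul]
        congr 1
        rw [DF]
        ring)
    have e : φ (DF l) * (x - 1) * ((x - 1) - (-1)) * ((x - 1) - (φ (RatFunc.C l) - 1)) = Δ := by
      rw [hΔ]; ring
    rw [e] at this
    exact this
  -- (3): classes (c, c)
  have key3 : ∀ c : RatFunc k, c ≠ 0 → ∀ (P : WD (tF l * (tF l - 1) * (tF l - RatFunc.C l))
      (RatFunc.C l)) (u : V3), PC (tF l) (RatFunc.C l) P (u, u) →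
      (∃ s, s ≠ 0 ∧ mon (tF l) (tF l - 1) (tF l - RatFunc.C l) u = c * s ^ 2) →
      (∀ j : Fin 4, ((u, u) : V3 × V3) ≠ vT j) → Pur Δ (x - φ (RatFunc.C l)) (φ c) := by
    intro c hc P u hP hs hu
    obtain ⟨ξ, w, a1, a2, a3, a4, a5, a6⟩ := extract d hP hu
    obtain ⟨s, hs0, hs⟩ := hs
    have b2 : IsSquare (ξ * (tF l * (tF l - 1) * (tF l - RatFunc.C l)) * c) := by
      apply isSquare_of_mul_sq hs0
      have := a5.2
      simp only at this
      rw [hs] at this
      rw [mul_assoc]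
      exact this
    have b3 : IsSquare ((ξ - 1) * (tF l * (tF l - 1) * (tF l - RatFunc.C l)) * c) := by
      apply isSquare_of_mul_sq hs0
      have := a6.2
      simp only at this
      rw [hs] at this
      rw [mul_assoc]
      exact this
    -- the third one is a square
    have b1 : IsSquare ((ξ - RatFunc.C l) * (tF l * (tF l - 1) * (tF l - RatFunc.C l))) := by
      have hsq := b2.mul b3
      apply isSquare_of_mul_sq (mul_ne_zero (mul_ne_zero a1 a2) hc)
      obtain ⟨r, hr⟩ := hsq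
      refine ⟨w * r, ?_⟩
      linear_combination (w ^ 2) * hr + (ξ * (tF l * (tF l - 1) * (tF l - RatFunc.C l)) *
        ((ξ - 1) * (tF l * (tF l - 1) * (tF l - RatFunc.C l))) * c ^ 2) * a4
    obtain ⟨α, β, γ, eα, eβ, eγ⟩ := third
      (C := (ξ - 1) * (tF l * (tF l - 1) * (tF l - RatFunc.C l))) a3 a1 hc
      (by rw [← a4]; ring) b1 b2
    have := TC4.pur_of_cov f2 (x := x - φ (RatFunc.C l)) (D := φ (DF l)) (c := φ c)
      (a := - φ (RatFunc.C l))
      (b := 1 - φ (RatFunc.C l)) (α := φ α) (β := φ β) (γ := φ γ) (a' := φ i * φ m) (hφ0 _ hD)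
      (hφ0 _ hc) (by
        intro h
        exact one_ne_zero (α := F) (by linear_combination -h)) (by
        linear_combination φ m ^ 2 * hi' - hm') (mul_ne_zero hi0 hm0) (by
        rw [← map_pow, ← map_pow, ← map_mul, ← map_sub, ← eα, ← eβ, ← map_neg, ← map_mul]
        congr 1
        rw [DF]
        ring) (by
        rw [← map_pow, ← map_pow, ← map_mul, ← map_sub, ← eα, ← eγ, ← map_one φ, ← map_sub,
          ← map_mul]
        congr 1
        rw [DF]
        ring)
    have e : φ (DF l) * (x - φ (RatFunc.C l)) * ((x - φ (RatFunc.C l)) - (- φ (RatFunc.C l))) *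
        ((x - φ (RatFunc.C l)) - (1 - φ (RatFunc.C l))) = Δ := by
      rw [hΔ]; ring
    rw [e] at this
    exact this
  refine ⟨?_, ?_, ?_, ?_, ?_⟩
  · refine key1 _ d.t0 (Q1 + Q3) (1, 0, 0) ?_ ⟨1, one_ne_zero, ?_⟩ (by decide)
    · have := PC.add d q1 q3
      rwa [show c1 + c3 = (0, (1, 0, 0)) from by decide] at this
    · simp only [mon, val0, val1]; ring
  · refine key1 _ (mul_ne_zero d.t1 d.tl) (Q1 + Q3 + T0) (0, 1, 1) ?_ ⟨1, one_ne_zero, ?_⟩
      (by decide)
    · have := PC.add d (PC.add d q1 q3) t0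
      rwa [show c1 + c3 + b0 = (0, (0, 1, 1)) from by decide] at this
    · simp only [mon, val0, val1]; ring
  · refine key2 _ (mul_ne_zero d.t0 d.tl) (Q1 + Q2 + Q3 + T0) (1, 0, 1) ?_ ⟨1, one_ne_zero, ?_⟩
      (by decide)
    · have := PC.add d (PC.add d (PC.add d q1 q2) q3) t0
      rwa [show c1 + c2 + c3 + b0 = ((1, 0, 1), 0) from by decide] at this
    · simp only [mon, val0, val1]; ring
  · refine key2 _ d.t1 (Q1 + Q2 + Q3 + T0 + T1) (0, 1, 0) ?_ ⟨1, one_ne_zero, ?_⟩ (by decide)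
    · have := PC.add d (PC.add d (PC.add d (PC.add d q1 q2) q3) t0) t1
      rwa [show c1 + c2 + c3 + b0 + b1 = ((0, 1, 0), 0) from by decide] at this
    · simp only [mon, val0, val1]; ring
  · refine key3 _ d.tl (Q1 + Q2 + T2) (0, 0, 1) ?_ ⟨1, one_ne_zero, ?_⟩ (by decide)
    · have := PC.add d (PC.add d q1 q2) t2
      rwa [show c1 + c2 + b2 = ((0, 0, 1), (0, 0, 1)) from by decide] at this
    · simp only [mon, val0, val1]; ring

end Pool.Agent.H918R3
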